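import Pool.Agent.Helper706_SQG.Defs2

/-!
JOB CL (MP_96bed6_an, helper706).  The clock: `s' = - v₀ (log₂ (1/s))^a`, `s(0) = s₀`, reaches `0` in
finite time.
-/

set_option autoImplicit false
open Set Filter Topology MeasureTheory

namespace H706.JCL

namespace clock_aux

/-- integrand in the variable `w = log₂ (1/s)` -/
noncomputable def g (a w : ℝ) : ℝ := (max 1 w) ^ (-a) * (2 : ℝ) ^ (-w)

theorem g_cont (a : ℝ) : Continuous (g a) := by
  unfold g
  refine Continuous.mul ?_ ?_
  · refine Continuous.rpow_const (by fun_prop) ?_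
    intro x
    left
    positivity
  · exact Continuous.rpow continuous_const continuous_neg (fun x => Or.inl (by norm_num))

theorem g_pos (a w : ℝ) : 0 < g a w := by
  unfold g
  have : (0 : ℝ) < max 1 w := lt_max_of_lt_left one_pos
  positivity

theorem g_le {a : ℝ} (ha : 0 ≤ a) (w : ℝ) : g a w ≤ (2 : ℝ) ^ (-w) := by
  unfold g
  have h1 : (max 1 w) ^ (-a) ≤ 1 :=
    Real.rpow_le_one_of_one_le_of_nonpos (le_max_left _ _) (by linarith)
  have h2 : (0 : ℝ) < 2 ^ (-w) := by positivity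
  nlinarith

/-- primitive -/
noncomputable def H (a u₀ u : ℝ) : ℝ := ∫ w in u₀..u, g a w

theorem H_deriv (a u₀ u : ℝ) : HasDerivAt (H a u₀) (g a u) u := by
  unfold H
  exact intervalIntegral.integral_hasDerivAt_right ((g_cont a).intervalIntegrable _ _)
    ((g_cont a).stronglyMeasurableAtFilter _ _) (g_cont a).continuousAt

theorem H_self (a u₀ : ℝ) : H a u₀ u₀ = 0 := by
  unfold H; exact intervalIntegral.integral_same

theorem H_strictMono (a u₀ : ℝ) : StrictMono (H a u₀) := by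
  apply strictMono_of_deriv_pos
  intro x
  rw [(H_deriv a u₀ x).deriv]
  exact g_pos a x

theorem H_cont (a u₀ : ℝ) : Continuous (H a u₀) :=
  continuous_iff_continuousAt.2 fun u => (H_deriv a u₀ u).continuousAt

theorem H_bdd {a : ℝ} (ha : 0 ≤ a) (u₀ : ℝ) : BddAbove (range (H a u₀)) := by
  have hd : ∀ u, HasDerivAt (fun u => H a u₀ u + (2 : ℝ) ^ (-u) / Real.log 2)
      (g a u - (2 : ℝ) ^ (-u)) u := by
    intro u
    have h1 : HasDerivAt (fun u : ℝ => (2 : ℝ) ^ (-u)) (-((2 : ℝ) ^ (-u) * Real.log 2)) u := by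
      have := (hasDerivAt_neg u).const_rpow (a := (2 : ℝ)) (by norm_num)
      convert this using 1
      ring
    have h2 := (H_deriv a u₀ u).add (h1.div_const (Real.log 2))
    refine h2.congr_deriv ?_
    have : Real.log 2 ≠ 0 := (Real.log_pos (by norm_num)).ne'
    field_simp
    ring
  have hanti : Antitone (fun u => H a u₀ u + (2 : ℝ) ^ (-u) / Real.log 2) := by
    apply antitone_of_deriv_nonpos
    · intro u; exact (hd u).differentiableAt
    · intro u
      rw [(hd u).deriv]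
      linarith [g_le ha u]
  refine ⟨H a u₀ u₀ + (2 : ℝ) ^ (-u₀) / Real.log 2, ?_⟩
  rintro _ ⟨u, rfl⟩
  have hl : 0 < Real.log 2 := Real.log_pos (by norm_num)
  rcases le_total u₀ u with h | h
  · have := hanti h
    simp only at this
    have h3 : 0 < (2 : ℝ) ^ (-u) / Real.log 2 := by positivity
    linarith
  · have := (H_strictMono a u₀).monotone h
    have h3 : 0 < (2 : ℝ) ^ (-u₀) / Real.log 2 := by positivity
    linarith

/-- supremum of `H` -/
noncomputable def L (a u₀ : ℝ) : ℝ := sSup (range (H a u₀))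

theorem H_lt_L {a : ℝ} (ha : 0 ≤ a) (u₀ u : ℝ) : H a u₀ u < L a u₀ :=
  lt_of_lt_of_le (H_strictMono a u₀ (lt_add_one u))
    (le_csSup (H_bdd ha u₀) (mem_range_self (u + 1)))

theorem H_low {a : ℝ} (u₀ : ℝ) (t : ℝ) : ∃ u, H a u₀ u ≤ t := by
  -- `g` is bounded below on `(-∞, u₀]`
  by_contra hcon
  push Not at hcon
  set c : ℝ := (max 1 u₀) ^ (-|a|) * (2 : ℝ) ^ (-u₀) with hc
  have hm : (0 : ℝ) < max 1 u₀ := lt_max_of_lt_left one_pos
  have hc0 : 0 < c := by positivity
  have hg : ∀ w ≤ u₀, c ≤ g a w := by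
    intro w hw
    unfold g
    rw [hc]
    have hw1 : (1 : ℝ) ≤ max 1 w := le_max_left _ _
    have h1 : (max 1 u₀) ^ (-|a|) ≤ (max 1 w) ^ (-a) := by
      calc (max 1 u₀) ^ (-|a|) ≤ (max 1 w) ^ (-|a|) := by
            apply Real.rpow_le_rpow_of_nonpos (by linarith) (max_le_max_left 1 hw)
            simp
        _ ≤ (max 1 w) ^ (-a) := by
            apply Real.rpow_le_rpow_of_exponent_le hw1
            have := le_abs_self a
            linarith
    have h2 : (2 : ℝ) ^ (-u₀) ≤ (2 : ℝ) ^ (-w) := by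
      apply Real.rpow_le_rpow_of_exponent_le (by norm_num)
      linarith
    gcongr
  have hd : ∀ u, HasDerivAt (fun u => H a u₀ u - c * u) (g a u - c) u := by
    intro u
    have h2 := (H_deriv a u₀ u).sub ((hasDerivAt_id u).const_mul c)
    refine h2.congr_deriv ?_
    ring
  have hmono : MonotoneOn (fun u => H a u₀ u - c * u) (Iic u₀) := by
    apply monotoneOn_of_deriv_nonneg (convex_Iic u₀)
    · intro u _
      exact (hd u).continuousAt.continuousWithinAt
    · intro u _
      exact (hd u).differentiableAt.differentiableWithinAt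
    · intro u hu
      rw [(hd u).deriv]
      rw [interior_Iic] at hu
      linarith [hg u (le_of_lt hu)]
  have h0 := hcon (u₀ - |t| / c)
  have hle : u₀ - |t| / c ≤ u₀ := by
    have : 0 ≤ |t| / c := by positivity
    linarith
  have h1 := hmono (mem_Iic.2 hle) (mem_Iic.2 le_rfl) hle
  simp only [H_self] at h1
  have h2 : c * (|t| / c) = |t| := by field_simp
  have h3 := neg_abs_le t
  nlinarith

theorem exists_inv {a : ℝ} (ha : 0 ≤ a) (u₀ : ℝ) {t : ℝ} (ht : t < L a u₀) : ∃ u, H a u₀ u = t := by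
  obtain ⟨u1, h1⟩ := H_low (a := a) u₀ t
  obtain ⟨_, ⟨u2, rfl⟩, h2⟩ := exists_lt_of_lt_csSup (range_nonempty (H a u₀)) ht
  have := mem_range_of_exists_le_of_exists_ge (H_cont a u₀) ⟨u1, h1⟩ ⟨u2, h2.le⟩
  exact this

open Classical in
/-- inverse of `H` -/
noncomputable def K (a u₀ t : ℝ) : ℝ := if h : ∃ u, H a u₀ u = t then h.choose else 0

theorem H_K {a : ℝ} (ha : 0 ≤ a) (u₀ : ℝ) {t : ℝ} (ht : t < L a u₀) : H a u₀ (K a u₀ t) = t := by
  have h := exists_inv ha u₀ ht
  unfold K
  rw [dif_pos h]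
  exact h.choose_spec

theorem K_H {a : ℝ} (ha : 0 ≤ a) (u₀ u : ℝ) : K a u₀ (H a u₀ u) = u :=
  (H_strictMono a u₀).injective (H_K ha u₀ (H_lt_L ha u₀ u))

theorem K_mono {a : ℝ} (ha : 0 ≤ a) (u₀ : ℝ) : MonotoneOn (K a u₀) (Iio (L a u₀)) := by
  intro x hx y hy hxy
  rw [← (H_strictMono a u₀).le_iff_le, H_K ha u₀ hx, H_K ha u₀ hy]
  exact hxy

theorem K_cont {a : ℝ} (ha : 0 ≤ a) (u₀ : ℝ) {t : ℝ} (ht : t < L a u₀) :
    ContinuousAt (K a u₀) t := by
  apply continuousAt_of_monotoneOn_of_image_mem_nhds (K_mono ha u₀) (Iio_mem_nhds ht)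
  have : K a u₀ '' Iio (L a u₀) = univ := by
    apply eq_univ_of_forall
    intro u
    exact ⟨H a u₀ u, H_lt_L ha u₀ u, K_H ha u₀ u⟩
  rw [this]
  exact univ_mem

theorem K_deriv {a : ℝ} (ha : 0 ≤ a) (u₀ : ℝ) {t : ℝ} (ht : t < L a u₀) :
    HasDerivAt (K a u₀) (g a (K a u₀ t))⁻¹ t := by
  apply HasDerivAt.of_local_left_inverse (K_cont ha u₀ ht) (H_deriv a u₀ _) (g_pos a _).ne'
  filter_upwards [Iio_mem_nhds ht] with y hy
  exact H_K ha u₀ hy

end clock_aux

open clock_aux in
/-- TARGET -/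
theorem clock (a v₀ s₀ : ℝ) (ha : 0 ≤ a) (hv : 0 < v₀) (hs : 0 < s₀) (hs' : s₀ ≤ 1 / 4) :
    ∃ T > 0, ∃ s : ℝ → ℝ, s 0 = s₀ ∧
      (∀ t ∈ Ico 0 T, 0 < s t ∧ s t ≤ s₀ ∧ HasDerivAt s (-(v₀ * Wt a (s t))) t) ∧
      Tendsto s (𝓝[<] T) (𝓝 0) := by
  have hl : 0 < Real.log 2 := Real.log_pos (by norm_num)
  set u₀ : ℝ := -Real.logb 2 s₀ with hu₀
  have hu₀2 : 2 ≤ u₀ := by
    have h1 : Real.logb 2 s₀ ≤ Real.logb 2 (1 / 4) :=
      Real.logb_le_logb_of_le (by norm_num) hs hs'
    have h2 : Real.logb 2 (1 / 4) = -2 := by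
      rw [show (1 / 4 : ℝ) = (2 : ℝ) ^ (-2 : ℝ) by
        rw [Real.rpow_neg (by norm_num)]; norm_num]
      exact Real.logb_rpow (by norm_num) (by norm_num)
    linarith
  have hs₀ : (2 : ℝ) ^ (-u₀) = s₀ := by
    rw [hu₀, neg_neg]
    exact Real.rpow_logb (by norm_num) (by norm_num) hs
  have hL : 0 < L a u₀ := by
    have := H_lt_L ha u₀ u₀
    rwa [H_self] at this
  set k : ℝ := v₀ / Real.log 2 with hk
  have hk0 : 0 < k := by positivity
  refine ⟨L a u₀ / k, by positivity, fun t => (2 : ℝ) ^ (-K a u₀ (k * t)), ?_, ?_, ?_⟩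
  · have : K a u₀ (k * 0) = u₀ := by
      rw [mul_zero, ← H_self a u₀, K_H ha]
    simp only [this, hs₀]
  · rintro t ⟨ht0, htT⟩
    have htL : k * t < L a u₀ := by
      rw [lt_div_iff₀ hk0] at htT
      linarith
    have hKu : u₀ ≤ K a u₀ (k * t) := by
      rw [← (H_strictMono a u₀).le_iff_le, H_self, H_K ha u₀ htL]
      positivity
    refine ⟨by positivity, ?_, ?_⟩
    · simp only
      rw [← hs₀]
      apply Real.rpow_le_rpow_of_exponent_le (by norm_num)
      linarith
    · have h1 := K_deriv ha u₀ htL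
      have h2 : HasDerivAt (fun t => k * t) k t := by
        simpa using (hasDerivAt_id t).const_mul k
      have h3 : HasDerivAt (fun t => K a u₀ (k * t)) ((g a (K a u₀ (k * t)))⁻¹ * k) t :=
        HasDerivAt.comp t h1 h2
      have h4 := h3.neg.const_rpow (a := (2 : ℝ)) (by norm_num)
      refine h4.congr_deriv ?_
      simp only [Pi.neg_apply]
      unfold Wt g
      rw [Real.logb_rpow (by norm_num) (by norm_num), neg_neg]
      set u := K a u₀ (k * t) with hu
      have hu1 : max 1 u = u := max_eq_right (by linarith)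
      rw [hu1]
      have hupos : 0 < u := by linarith
      have e1 : u ^ (-a) = (u ^ a)⁻¹ := Real.rpow_neg hupos.le a
      rw [e1, hk]
      have e2 : 0 < u ^ a := by positivity
      have e3 : (0 : ℝ) < 2 ^ (-u) := by positivity
      field_simp
  · -- limit
    have h1 : Tendsto (fun t => K a u₀ (k * t)) (𝓝[<] (L a u₀ / k)) atTop := by
      rw [tendsto_atTop]
      intro B
      have hB : H a u₀ B / k < L a u₀ / k := by
        have := H_lt_L ha u₀ B
        gcongr
      filter_upwards [Ioo_mem_nhdsLT hB] with t ht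
      have htL : k * t < L a u₀ := by
        have := ht.2
        rw [lt_div_iff₀ hk0] at this
        linarith
      have htB : H a u₀ B < k * t := by
        have := ht.1
        rw [div_lt_iff₀ hk0] at this
        linarith
      rw [← (H_strictMono a u₀).le_iff_le, H_K ha u₀ htL]
      exact htB.le
    have h2 : Tendsto (fun x : ℝ => (2 : ℝ) ^ (-x)) atTop (𝓝 0) := by
      have := tendsto_rpow_atTop_of_base_lt_one (1 / 2 : ℝ) (by norm_num) (by norm_num)
      refine this.congr ?_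
      intro x
      rw [one_div, Real.inv_rpow (by norm_num), Real.rpow_neg (by norm_num)]
    exact h2.comp h1

end H706.JCL

namespace H706

alias clock := JCL.clock

end H706
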