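import Pool.Agent.Helper706_SQG.Defs2

/-! auxiliary lemmas -/

set_option autoImplicit false
open Set Filter Topology MeasureTheory
open scoped ComplexConjugate ContDiff

namespace H706.JFA

/-! auxiliary lemmas -/

theorem fa_per_shift {G : Type*} {f : Pt → G} (h : ∀ x : Pt, f (x.1 + 2 * Real.pi, x.2) = f x ∧
    f (x.1, x.2 + 2 * Real.pi) = f x) (x : Pt) :
    ∃ y ∈ Icc (-Real.pi) Real.pi ×ˢ Icc (-Real.pi) Real.pi, f x = f y := by
  have h1 : ∀ s, Function.Periodic (fun r => f (r, s)) (2 * Real.pi) := fun s r => (h (r, s)).1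
  have h2 : ∀ r, Function.Periodic (fun s => f (r, s)) (2 * Real.pi) := fun r s => (h (r, s)).2
  obtain ⟨a, ha, ha'⟩ := (h1 x.2).exists_mem_Ioc Real.two_pi_pos x.1 (-Real.pi)
  obtain ⟨b, hb, hb'⟩ := (h2 a).exists_mem_Ioc Real.two_pi_pos x.2 (-Real.pi)
  refine ⟨(a, b), ⟨⟨ha.1.le, ?_⟩, ⟨hb.1.le, ?_⟩⟩, ?_⟩
  · have := ha.2; simp only; linarith
  · have := hb.2; simp only; linarith
  · exact ha'.trans hb'

theorem fa_iter_per {f : Pt → ℝ} (hf : Per f) (j : ℕ) (x : Pt) :
    iteratedFDeriv ℝ j f (x.1 + 2 * Real.pi, x.2) = iteratedFDeriv ℝ j f x ∧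
    iteratedFDeriv ℝ j f (x.1, x.2 + 2 * Real.pi) = iteratedFDeriv ℝ j f x := by
  constructor
  · have h1 : (fun z : Pt => f (z + (2 * Real.pi, 0))) = f := by
      ext z
      have := (hf z).1
      rw [show z + (2 * Real.pi, 0) = (z.1 + 2 * Real.pi, z.2) by ext <;> simp]
      exact this
    have h2 := iteratedFDeriv_comp_add_right (𝕜 := ℝ) (f := f) j (2 * Real.pi, 0) x
    rw [h1] at h2
    rw [h2]
    congr 1
    ext <;> simp
  · have h1 : (fun z : Pt => f (z + (0, 2 * Real.pi))) = f := by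
      ext z
      have := (hf z).2
      rw [show z + (0, 2 * Real.pi) = (z.1, z.2 + 2 * Real.pi) by ext <;> simp]
      exact this
    have h2 := iteratedFDeriv_comp_add_right (𝕜 := ℝ) (f := f) j (0, 2 * Real.pi) x
    rw [h1] at h2
    rw [h2]
    congr 1
    ext <;> simp

theorem fa_d1_eq {f : Pt → ℝ} {x : Pt} (hf : DifferentiableAt ℝ f x) :
    d1 f x = fderiv ℝ f x (1, 0) := by
  unfold d1
  have h1 : HasDerivAt (fun r : ℝ => (r, x.2)) ((1, 0) : Pt) x.1 :=
    (hasDerivAt_id x.1).prodMk (hasDerivAt_const x.1 x.2)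
  have h2 : HasFDerivAt f (fderiv ℝ f x) (x.1, x.2) := hf.hasFDerivAt
  exact (h2.comp_hasDerivAt x.1 h1).deriv

theorem fa_d2_eq {f : Pt → ℝ} {x : Pt} (hf : DifferentiableAt ℝ f x) :
    d2 f x = fderiv ℝ f x (0, 1) := by
  unfold d2
  have h1 : HasDerivAt (fun r : ℝ => (x.1, r)) ((0, 1) : Pt) x.2 :=
    (hasDerivAt_const x.2 x.1).prodMk (hasDerivAt_id x.2)
  have h2 : HasFDerivAt f (fderiv ℝ f x) (x.1, x.2) := hf.hasFDerivAt
  exact (h2.comp_hasDerivAt x.2 h1).deriv

theorem fa_diff {f : Pt → ℝ} (hf : ContDiff ℝ ∞ f) : Differentiable ℝ f :=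
  hf.differentiable (by simp)

theorem fa_sm_d1 {f : Pt → ℝ} (hf : Sm f) : Sm (d1 f) := by
  obtain ⟨h1, h2⟩ := hf
  constructor
  · have : d1 f = fun x => fderiv ℝ f x (1, 0) := by
      ext x; exact fa_d1_eq (fa_diff h1 x)
    rw [this]
    exact (h1.fderiv_right (by simp)).clm_apply contDiff_const
  · intro x
    constructor
    · unfold d1
      simp only
      have : (fun r => f (r, x.2)) = fun r => f (r + 2 * Real.pi, x.2) := by
        ext r; exact ((h2 (r, x.2)).1).symm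
      conv_rhs => rw [this]
      exact (deriv_comp_add_const (fun r => f (r, x.2)) (2 * Real.pi) x.1).symm
    · unfold d1
      simp only
      congr 1
      ext r
      exact (h2 (r, x.2)).2

theorem fa_sm_d2 {f : Pt → ℝ} (hf : Sm f) : Sm (d2 f) := by
  obtain ⟨h1, h2⟩ := hf
  constructor
  · have : d2 f = fun x => fderiv ℝ f x (0, 1) := by
      ext x; exact fa_d2_eq (fa_diff h1 x)
    rw [this]
    exact (h1.fderiv_right (by simp)).clm_apply contDiff_const
  · intro x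
    constructor
    · unfold d2
      simp only
      congr 1
      ext r
      exact (h2 (x.1, r)).1
    · unfold d2
      simp only
      have : (fun r => f (x.1, r)) = fun r => f (x.1, r + 2 * Real.pi) := by
        ext r; exact ((h2 (x.1, r)).2).symm
      conv_rhs => rw [this]
      exact (deriv_comp_add_const (fun r => f (x.1, r)) (2 * Real.pi) x.2).symm

theorem fa_ex_continuous (k : Fr) : Continuous (ex k) := by
  unfold ex
  fun_prop

theorem fa_ex_norm (k : Fr) (x : Pt) : ‖ex k x‖ = 1 := by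
  unfold ex
  exact Complex.norm_exp_ofReal_mul_I _

theorem fa_ex_deriv1 (k : Fr) (s r : ℝ) :
    HasDerivAt (fun r : ℝ => ex (-k) (r, s)) (-(Complex.I * k.1) * ex (-k) (r, s)) r := by
  unfold ex
  have h1 : HasDerivAt (fun r : ℝ => (((-k).1 : ℝ) * r + ((-k).2 : ℝ) * s)) (((-k).1 : ℝ) * 1) r :=
    ((hasDerivAt_id r).const_mul _).add_const _
  have h2 := ((h1.ofReal_comp).mul_const Complex.I).cexp
  refine h2.congr_deriv ?_
  simp
  ring

theorem fa_ex_deriv2 (k : Fr) (s r : ℝ) :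
    HasDerivAt (fun r : ℝ => ex (-k) (s, r)) (-(Complex.I * k.2) * ex (-k) (s, r)) r := by
  unfold ex
  have h1 : HasDerivAt (fun r : ℝ => (((-k).1 : ℝ) * s + ((-k).2 : ℝ) * r)) (((-k).2 : ℝ) * 1) r :=
    ((hasDerivAt_id r).const_mul _).const_add _
  have h2 := ((h1.ofReal_comp).mul_const Complex.I).cexp
  refine h2.congr_deriv ?_
  simp
  ring

theorem fa_ex_per1 (k : Fr) (s : ℝ) : ex k (Real.pi, s) = ex k (-Real.pi, s) := by
  unfold ex
  rw [Complex.exp_eq_exp_iff_exists_int]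
  refine ⟨k.1, ?_⟩
  push_cast
  ring

theorem fa_ex_per2 (k : Fr) (s : ℝ) : ex k (s, Real.pi) = ex k (s, -Real.pi) := by
  unfold ex
  rw [Complex.exp_eq_exp_iff_exists_int]
  refine ⟨k.2, ?_⟩
  push_cast
  ring

theorem fa_pi : -Real.pi ≤ Real.pi := by linarith [Real.pi_pos]

theorem fa_intOn {F : Pt → ℂ} (hF : Continuous F) : IntegrableOn F Qb := by
  have h1 : IntegrableOn F (Icc (-Real.pi) Real.pi ×ˢ Icc (-Real.pi) Real.pi) :=
    hF.continuousOn.integrableOn_compact (isCompact_Icc.prod isCompact_Icc)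
  exact h1.mono_set (prod_mono Ioc_subset_Icc_self Ioc_subset_Icc_self)

theorem fa_fub1 {F : Pt → ℂ} (hF : Continuous F) :
    ∫ x in Qb, F x = ∫ s in Ioc (-Real.pi) Real.pi, ∫ r in (-Real.pi)..Real.pi, F (s, r) := by
  have h := fa_intOn hF
  unfold Qb at h ⊢
  rw [Measure.volume_eq_prod] at h ⊢
  rw [setIntegral_prod _ h]
  simp_rw [intervalIntegral.integral_of_le fa_pi]

theorem fa_fub2 {F : Pt → ℂ} (hF : Continuous F) :
    ∫ x in Qb, F x = ∫ s in Ioc (-Real.pi) Real.pi, ∫ r in (-Real.pi)..Real.pi, F (r, s) := by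
  have h := fa_intOn hF
  unfold Qb at h ⊢
  rw [Measure.volume_eq_prod] at h ⊢
  unfold IntegrableOn at h
  rw [← Measure.prod_restrict] at h ⊢
  rw [integral_prod_symm _ h]
  simp_rw [intervalIntegral.integral_of_le fa_pi]

/-- TARGET 3 -/
theorem fc_d1 {f : Pt → ℝ} (hf : Sm f) (k : Fr) : fc (d1 f) k = Complex.I * k.1 * fc f k := by
  have hf1 := fa_sm_d1 hf
  unfold fc
  have hc1 : Continuous fun x : Pt => (d1 f x : ℂ) * ex (-k) x :=
    (Complex.continuous_ofReal.comp hf1.1.continuous).mul (fa_ex_continuous _)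
  have hc2 : Continuous fun x : Pt => (f x : ℂ) * ex (-k) x :=
    (Complex.continuous_ofReal.comp hf.1.continuous).mul (fa_ex_continuous _)
  rw [fa_fub2 hc1, fa_fub2 hc2]
  have key : ∀ s : ℝ, ∫ r in (-Real.pi)..Real.pi, (d1 f (r, s) : ℂ) * ex (-k) (r, s) =
      (Complex.I * k.1) * ∫ r in (-Real.pi)..Real.pi, (f (r, s) : ℂ) * ex (-k) (r, s) := by
    intro s
    have hd : ∀ r, HasDerivAt (fun r : ℝ => (f (r, s) : ℂ) * ex (-k) (r, s))
        ((d1 f (r, s) : ℂ) * ex (-k) (r, s) +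
          (f (r, s) : ℂ) * (-(Complex.I * k.1) * ex (-k) (r, s))) r := by
      intro r
      have h1 : HasDerivAt (fun r : ℝ => f (r, s)) (d1 f (r, s)) r := by
        have : DifferentiableAt ℝ (fun r : ℝ => f (r, s)) r :=
          ((fa_diff hf.1).comp (differentiable_id.prodMk (differentiable_const s))) r
        exact this.hasDerivAt
      exact h1.ofReal_comp.mul (fa_ex_deriv1 k s r)
    have hpr : Continuous fun r : ℝ => ((r, s) : Pt) := continuous_id.prodMk continuous_const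
    have hi1 : IntervalIntegrable (fun r : ℝ => (d1 f (r, s) : ℂ) * ex (-k) (r, s)) volume
        (-Real.pi) Real.pi := (hc1.comp hpr).intervalIntegrable _ _
    have hi2 : IntervalIntegrable (fun r : ℝ => (f (r, s) : ℂ) * ex (-k) (r, s)) volume
        (-Real.pi) Real.pi := (hc2.comp hpr).intervalIntegrable _ _
    have hi3 : IntervalIntegrable (fun r : ℝ => (f (r, s) : ℂ) * (-(Complex.I * k.1) * ex (-k) (r, s)))
        volume (-Real.pi) Real.pi := by
      refine (hi2.const_mul (-(Complex.I * k.1))).congr (fun r _ => ?_)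
      ring
    have h2 := intervalIntegral.integral_eq_sub_of_hasDerivAt (fun r _ => hd r) (hi1.add hi3)
    have hper : f (Real.pi, s) = f (-Real.pi, s) := by
      have := (hf.2 (-Real.pi, s)).1
      simp only at this
      rw [← this]; congr 2; ring
    rw [fa_ex_per1, hper, sub_self, intervalIntegral.integral_add hi1 hi3] at h2
    have h3 : ∫ r in (-Real.pi)..Real.pi, (f (r, s) : ℂ) * (-(Complex.I * k.1) * ex (-k) (r, s)) =
        -(Complex.I * k.1) * ∫ r in (-Real.pi)..Real.pi, (f (r, s) : ℂ) * ex (-k) (r, s) := by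
      rw [← intervalIntegral.integral_const_mul]
      congr 1; ext r; ring
    rw [h3] at h2
    linear_combination h2
  simp_rw [key]
  rw [integral_const_mul]
  ring

/-- TARGET 4 -/
theorem fc_d2 {f : Pt → ℝ} (hf : Sm f) (k : Fr) : fc (d2 f) k = Complex.I * k.2 * fc f k := by
  have hf1 := fa_sm_d2 hf
  unfold fc
  have hc1 : Continuous fun x : Pt => (d2 f x : ℂ) * ex (-k) x :=
    (Complex.continuous_ofReal.comp hf1.1.continuous).mul (fa_ex_continuous _)
  have hc2 : Continuous fun x : Pt => (f x : ℂ) * ex (-k) x :=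
    (Complex.continuous_ofReal.comp hf.1.continuous).mul (fa_ex_continuous _)
  rw [fa_fub1 hc1, fa_fub1 hc2]
  have key : ∀ s : ℝ, ∫ r in (-Real.pi)..Real.pi, (d2 f (s, r) : ℂ) * ex (-k) (s, r) =
      (Complex.I * k.2) * ∫ r in (-Real.pi)..Real.pi, (f (s, r) : ℂ) * ex (-k) (s, r) := by
    intro s
    have hd : ∀ r, HasDerivAt (fun r : ℝ => (f (s, r) : ℂ) * ex (-k) (s, r))
        ((d2 f (s, r) : ℂ) * ex (-k) (s, r) +
          (f (s, r) : ℂ) * (-(Complex.I * k.2) * ex (-k) (s, r))) r := by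
      intro r
      have h1 : HasDerivAt (fun r : ℝ => f (s, r)) (d2 f (s, r)) r := by
        have : DifferentiableAt ℝ (fun r : ℝ => f (s, r)) r :=
          ((fa_diff hf.1).comp ((differentiable_const s).prodMk differentiable_id)) r
        exact this.hasDerivAt
      exact h1.ofReal_comp.mul (fa_ex_deriv2 k s r)
    have hpr : Continuous fun r : ℝ => ((s, r) : Pt) := continuous_const.prodMk continuous_id
    have hi1 : IntervalIntegrable (fun r : ℝ => (d2 f (s, r) : ℂ) * ex (-k) (s, r)) volume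
        (-Real.pi) Real.pi := (hc1.comp hpr).intervalIntegrable _ _
    have hi2 : IntervalIntegrable (fun r : ℝ => (f (s, r) : ℂ) * ex (-k) (s, r)) volume
        (-Real.pi) Real.pi := (hc2.comp hpr).intervalIntegrable _ _
    have hi3 : IntervalIntegrable (fun r : ℝ => (f (s, r) : ℂ) * (-(Complex.I * k.2) * ex (-k) (s, r)))
        volume (-Real.pi) Real.pi := by
      refine (hi2.const_mul (-(Complex.I * k.2))).congr (fun r _ => ?_)
      ring
    have h2 := intervalIntegral.integral_eq_sub_of_hasDerivAt (fun r _ => hd r) (hi1.add hi3)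
    have hper : f (s, Real.pi) = f (s, -Real.pi) := by
      have := (hf.2 (s, -Real.pi)).2
      simp only at this
      rw [← this]; congr 2; ring
    rw [fa_ex_per2, hper, sub_self, intervalIntegral.integral_add hi1 hi3] at h2
    have h3 : ∫ r in (-Real.pi)..Real.pi, (f (s, r) : ℂ) * (-(Complex.I * k.2) * ex (-k) (s, r)) =
        -(Complex.I * k.2) * ∫ r in (-Real.pi)..Real.pi, (f (s, r) : ℂ) * ex (-k) (s, r) := by
      rw [← intervalIntegral.integral_const_mul]
      congr 1; ext r; ring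
    rw [h3] at h2
    linear_combination h2
  simp_rw [key]
  rw [integral_const_mul]
  ring

theorem fa_fc_le {g : Pt → ℝ} {M : ℝ} (hM : ∀ x, |g x| ≤ M) (k : Fr) : ‖fc g k‖ ≤ M := by
  have hM0 : 0 ≤ M := (abs_nonneg _).trans (hM 0)
  have hvol : volume Qb = ENNReal.ofReal ((2 * Real.pi) ^ 2) := by
    unfold Qb
    rw [Measure.volume_eq_prod, Measure.prod_prod, Real.volume_Ioc,
      ← ENNReal.ofReal_mul (by linarith [Real.pi_pos])]
    congr 1; ring
  have h1 : ‖∫ x in Qb, (g x : ℂ) * ex (-k) x‖ ≤ M * (2 * Real.pi) ^ 2 := by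
    have := norm_setIntegral_le_of_norm_le_const (μ := volume) (s := Qb) (C := M)
      (f := fun x => (g x : ℂ) * ex (-k) x) (by rw [hvol]; exact ENNReal.ofReal_lt_top)
      (fun x _ => by
        rw [norm_mul, fa_ex_norm, mul_one, Complex.norm_real]
        exact hM x)
    refine this.trans (le_of_eq ?_)
    rw [Measure.real, hvol, ENNReal.toReal_ofReal (by positivity)]
  unfold fc
  rw [norm_mul, Complex.norm_real, Real.norm_of_nonneg (by positivity)]
  have hpos : (0 : ℝ) < (2 * Real.pi) ^ 2 := by have := Real.pi_pos; positivity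
  calc ((2 * Real.pi) ^ 2)⁻¹ * ‖∫ x in Qb, (g x : ℂ) * ex (-k) x‖
      ≤ ((2 * Real.pi) ^ 2)⁻¹ * (M * (2 * Real.pi) ^ 2) := by gcongr
    _ = M := by field_simp

theorem fa_iter_dir (v : Pt) {f : Pt → ℝ} (hf : ContDiff ℝ ∞ f) (D : (Pt → ℝ) → Pt → ℝ)
    (hD : ∀ g : Pt → ℝ, ContDiff ℝ ∞ g → ∀ x, D g x = fderiv ℝ g x v) (j : ℕ) :
    ∀ x, (D^[j]) f x = iteratedFDeriv ℝ j f x (fun _ => v) := by
  induction j with
  | zero => intro x; simp
  | succ j ih =>
    intro x
    have hfun : (D^[j]) f = fun x => iteratedFDeriv ℝ j f x (fun _ => v) := funext ih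
    have hsm : ContDiff ℝ ∞ (iteratedFDeriv ℝ j f) := by
      apply ContDiff.iteratedFDeriv_right (m := ∞) (n := ∞) hf
      exact_mod_cast le_top
    have hsm2 : ContDiff ℝ ∞ (fun x => iteratedFDeriv ℝ j f x (fun _ => v)) := by
      have := (ContinuousMultilinearMap.apply ℝ (fun _ : Fin j => Pt) ℝ (fun _ => v)).contDiff
        (n := ∞)
      exact this.comp hsm
    rw [Function.iterate_succ_apply', hfun, hD _ hsm2, iteratedFDeriv_succ_apply_left]
    have hd : DifferentiableAt ℝ (iteratedFDeriv ℝ j f) x := hsm.differentiable (by simp) x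
    have h1 := ((ContinuousMultilinearMap.apply ℝ (fun _ : Fin j => Pt) ℝ
      (fun _ => v)).hasFDerivAt.comp x hd.hasFDerivAt).fderiv
    have h2 : (fun x => iteratedFDeriv ℝ j f x (fun _ => v)) =
      (ContinuousMultilinearMap.apply ℝ (fun _ : Fin j => Pt) ℝ (fun _ => v)) ∘
        (iteratedFDeriv ℝ j f) := rfl
    rw [h2, h1]
    rfl

theorem fa_iter_le (v : Pt) (hv : ‖v‖ = 1) {f : Pt → ℝ} (hf : ContDiff ℝ ∞ f)
    (D : (Pt → ℝ) → Pt → ℝ)
    (hD : ∀ g : Pt → ℝ, ContDiff ℝ ∞ g → ∀ x, D g x = fderiv ℝ g x v) (j : ℕ) (x : Pt) :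
    |(D^[j]) f x| ≤ ‖iteratedFDeriv ℝ j f x‖ := by
  rw [fa_iter_dir v hf D hD j x]
  have := (iteratedFDeriv ℝ j f x).le_opNorm (fun _ => v)
  simpa [hv] using this

theorem fa_sm_iter1 {f : Pt → ℝ} (hf : Sm f) (j : ℕ) : Sm ((d1^[j]) f) := by
  induction j with
  | zero => exact hf
  | succ j ih => rw [Function.iterate_succ_apply']; exact fa_sm_d1 ih

theorem fa_sm_iter2 {f : Pt → ℝ} (hf : Sm f) (j : ℕ) : Sm ((d2^[j]) f) := by
  induction j with
  | zero => exact hf
  | succ j ih => rw [Function.iterate_succ_apply']; exact fa_sm_d2 ih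

theorem fa_fc_iter1 {f : Pt → ℝ} (hf : Sm f) (k : Fr) (j : ℕ) :
    fc ((d1^[j]) f) k = (Complex.I * k.1) ^ j * fc f k := by
  induction j with
  | zero => simp
  | succ j ih => rw [Function.iterate_succ_apply', fc_d1 (fa_sm_iter1 hf j), ih]; ring

theorem fa_fc_iter2 {f : Pt → ℝ} (hf : Sm f) (k : Fr) (j : ℕ) :
    fc ((d2^[j]) f) k = (Complex.I * k.2) ^ j * fc f k := by
  induction j with
  | zero => simp
  | succ j ih => rw [Function.iterate_succ_apply', fc_d2 (fa_sm_iter2 hf j), ih]; ring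

theorem fa_len_le (k : Fr) : len k ≤ |(k.1 : ℝ)| + |(k.2 : ℝ)| := by
  unfold len
  rw [Real.sqrt_le_left (by positivity)]
  have h1 := sq_abs (k.1 : ℝ)
  have h2 := sq_abs (k.2 : ℝ)
  nlinarith [mul_nonneg (abs_nonneg (k.1 : ℝ)) (abs_nonneg (k.2 : ℝ))]

theorem fa_le_len (k : Fr) : |(k.1 : ℝ)| ≤ len k ∧ |(k.2 : ℝ)| ≤ len k := by
  unfold len
  constructor <;> apply Real.abs_le_sqrt <;> nlinarith [sq_nonneg (k.1 : ℝ), sq_nonneg (k.2 : ℝ)]

theorem fa_len_nonneg (k : Fr) : 0 ≤ len k := Real.sqrt_nonneg _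

/-- TARGET 1 -/
theorem fc_decay (N : ℕ) : ∃ C > 0, ∀ (f : Pt → ℝ) (M : ℝ), Sm f →
    (∀ j ≤ N, ∀ x, ‖iteratedFDeriv ℝ j f x‖ ≤ M) → ∀ k, br k ^ N * ‖fc f k‖ ≤ C * M := by
  refine ⟨3 ^ N, by positivity, fun f M hf hM k => ?_⟩
  have hD1 : ∀ g : Pt → ℝ, ContDiff ℝ ∞ g → ∀ x, d1 g x = fderiv ℝ g x (1, 0) :=
    fun g hg x => fa_d1_eq (fa_diff hg x)
  have hD2 : ∀ g : Pt → ℝ, ContDiff ℝ ∞ g → ∀ x, d2 g x = fderiv ℝ g x (0, 1) :=
    fun g hg x => fa_d2_eq (fa_diff hg x)
  have hv1 : ‖((1, 0) : Pt)‖ = 1 := by simp [Prod.norm_def]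
  have hv2 : ‖((0, 1) : Pt)‖ = 1 := by simp [Prod.norm_def]
  have b0 : ‖fc f k‖ ≤ M := fa_fc_le (fun x => by
    have := hM 0 (Nat.zero_le _) x
    simpa using this) k
  have b1 : |(k.1 : ℝ)| ^ N * ‖fc f k‖ ≤ M := by
    have h := fa_fc_le (M := M) (fun x =>
      (fa_iter_le _ hv1 hf.1 d1 hD1 N x).trans (hM N le_rfl x)) k
    rw [fa_fc_iter1 hf, norm_mul, norm_pow, norm_mul, Complex.norm_I, one_mul,
      Complex.norm_intCast] at h
    exact h
  have b2 : |(k.2 : ℝ)| ^ N * ‖fc f k‖ ≤ M := by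
    have h := fa_fc_le (M := M) (fun x =>
      (fa_iter_le _ hv2 hf.1 d2 hD2 N x).trans (hM N le_rfl x)) k
    rw [fa_fc_iter2 hf, norm_mul, norm_pow, norm_mul, Complex.norm_I, one_mul,
      Complex.norm_intCast] at h
    exact h
  have hbr : br k ≤ 1 + |(k.1 : ℝ)| + |(k.2 : ℝ)| := by
    unfold br; have := fa_len_le k; linarith
  have hbr0 : 0 ≤ br k := by unfold br; have := fa_len_nonneg k; linarith
  have hn := norm_nonneg (fc f k)
  have main : ∀ m : ℝ, 0 ≤ m → br k ≤ 3 * m → m ^ N * ‖fc f k‖ ≤ M →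
      br k ^ N * ‖fc f k‖ ≤ 3 ^ N * M := by
    intro m hm h1 h2
    calc br k ^ N * ‖fc f k‖ ≤ (3 * m) ^ N * ‖fc f k‖ := by gcongr
      _ = 3 ^ N * (m ^ N * ‖fc f k‖) := by rw [mul_pow]; ring
      _ ≤ 3 ^ N * M := by gcongr
  rcases le_total |(k.1 : ℝ)| |(k.2 : ℝ)| with h12 | h12
  · rcases le_total |(k.2 : ℝ)| 1 with h | h
    · exact main 1 zero_le_one (by linarith) (by simpa using b0)
    · exact main _ (abs_nonneg _) (by linarith) b2
  · rcases le_total |(k.1 : ℝ)| 1 with h | h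
    · exact main 1 zero_le_one (by linarith) (by simpa using b0)
    · exact main _ (abs_nonneg _) (by linarith) b1

/-- TARGET 7: uniform bounds of the derivatives of a family of periodic functions. -/
theorem unif_bound {θ : ℝ → Pt → ℝ} {I : Set ℝ} (hI : IsCompact I) (hs : ∀ t ∈ I, Sm (θ t)) (j : ℕ)
    (hc : ContinuousOn (fun p : ℝ × Pt => iteratedFDeriv ℝ j (θ p.1) p.2) (I ×ˢ univ)) :
    ∃ M, ∀ t ∈ I, ∀ x, ‖iteratedFDeriv ℝ j (θ t) x‖ ≤ M := by
  have hK : IsCompact (I ×ˢ (Icc (-Real.pi) Real.pi ×ˢ Icc (-Real.pi) Real.pi : Set Pt)) :=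
    hI.prod (isCompact_Icc.prod isCompact_Icc)
  obtain ⟨M, hM⟩ := hK.exists_bound_of_continuousOn
    (hc.mono (prod_mono_right (subset_univ _)))
  refine ⟨M, fun t ht x => ?_⟩
  obtain ⟨y, hy, hxy⟩ := fa_per_shift (fun x => fa_iter_per (hs t ht).2 j x) x
  rw [hxy]
  exact hM (t, y) ⟨ht, hy⟩

/-- TARGET 2 -/
theorem RD_fc {f : Pt → ℝ} (hf : Sm f) : RD (fc f) := by
  intro N
  obtain ⟨C, hC, h⟩ := fc_decay N
  have hb : ∀ j, ∃ M, ∀ x, ‖iteratedFDeriv ℝ j f x‖ ≤ M := by
    intro j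
    have hcont : Continuous (iteratedFDeriv ℝ j f) := hf.1.continuous_iteratedFDeriv
      (by exact_mod_cast le_top)
    obtain ⟨M, hM⟩ := unif_bound (θ := fun _ => f) (I := {0}) isCompact_singleton
      (fun _ _ => hf) j (hcont.comp continuous_snd).continuousOn
    exact ⟨M, hM 0 rfl⟩
  choose M hM using hb
  refine ⟨C * ∑ j ∈ Finset.range (N + 1), M j, fun k => h f _ hf (fun j hj x => ?_) k⟩
  refine (hM j x).trans ?_
  have hM0 : ∀ j, 0 ≤ M j := fun j => (norm_nonneg _).trans (hM j 0)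
  exact Finset.single_le_sum (fun j _ => hM0 j) (Finset.mem_range.2 (Nat.lt_succ_of_le hj))

theorem fa_summable_int : Summable fun n : ℤ => ((1 + |(n : ℝ)|) ^ 2)⁻¹ := by
  have h1 : Summable fun n : ℤ => 1 / (n : ℝ) ^ 2 := Real.summable_one_div_int_pow.2 (by norm_num)
  have h2 : Summable fun n : ℤ => if n = 0 then (1 : ℝ) else 0 := (hasSum_ite_eq 0 1).summable
  refine Summable.of_nonneg_of_le (fun n => by positivity) (fun n => ?_) (h1.add h2)
  by_cases hn : n = 0
  · subst hn; simp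
  · simp only [if_neg hn, add_zero]
    have hn' : (n : ℝ) ≠ 0 := by exact_mod_cast hn
    have h3 : (n : ℝ) ^ 2 ≤ (1 + |(n : ℝ)|) ^ 2 := by
      have := sq_abs (n : ℝ)
      nlinarith [abs_nonneg (n : ℝ)]
    rw [one_div]
    exact inv_anti₀ (by positivity) h3

/-- TARGET 5 -/
theorem summable_br : Summable fun k : Fr => (br k ^ 4)⁻¹ := by
  have h := fa_summable_int.mul_of_nonneg fa_summable_int (fun n => by positivity)
    (fun n => by positivity)
  refine Summable.of_nonneg_of_le (fun k => ?_) (fun k => ?_) h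
  · have := fa_len_nonneg k
    unfold br; positivity
  · obtain ⟨h1, h2⟩ := fa_le_len k
    rw [← mul_inv]
    apply inv_anti₀ (by positivity)
    have e : br k ^ 4 = br k ^ 2 * br k ^ 2 := by ring
    rw [e]
    unfold br
    gcongr

/-- TARGET 6 -/
theorem RD_summable {z : Fr → ℂ} (hz : RD z) (N : ℕ) : Summable fun k => br k ^ N * ‖z k‖ := by
  obtain ⟨C, hC⟩ := hz (N + 4)
  refine Summable.of_nonneg_of_le (fun k => ?_) (fun k => ?_) (summable_br.mul_left C)
  · have := fa_len_nonneg k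
    unfold br; positivity
  · have hpos : 0 < br k := by have := fa_len_nonneg k; unfold br; linarith
    have h1 := hC k
    rw [← div_eq_mul_inv, le_div_iff₀ (by positivity)]
    calc br k ^ N * ‖z k‖ * br k ^ 4 = br k ^ (N + 4) * ‖z k‖ := by rw [pow_add]; ring
      _ ≤ C := h1

end H706.JFA

namespace H706

alias fc_decay := JFA.fc_decay
alias RD_fc := JFA.RD_fc
alias fc_d1 := JFA.fc_d1
alias fc_d2 := JFA.fc_d2
alias summable_br := JFA.summable_br
alias RD_summable := JFA.RD_summable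
alias unif_bound := JFA.unif_bound

end H706
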