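import Pool.Agent.Helper706_SQG.Defs2
import Pool.Agent.Helper706_SQG.FA

/-!
JOB FB (MP_96bed6_an, helper706).  Fourier inversion for smooth periodic functions on the plane.

PROOF.  For instance: a smooth periodic `f` defines a continuous function `F` on `UnitAddTorus (Fin 2)`
(or on `AddCircle (2π)` in each variable); its coefficients are `fc f k` and are summable (given
`RD_fc`, `RD_summable`), so its Fourier series converges to it
(`UnitAddTorus.hasSum_mFourier_series_apply_of_summable` in `Mathlib.Analysis.Fourier.AddCircleMulti`;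
or twice the one dimensional `has_pointwise_sum_fourier_series_of_summable`).
Alternative without the torus: in one variable at a time, for fixed `x₂` the function `f(·,x₂)` is the
sum of its Fourier series by `has_pointwise_sum_fourier_series_of_summable`; the coefficients are smooth
periodic functions of `x₂`.
-/

set_option autoImplicit false
open Set Filter Topology MeasureTheory
open scoped ComplexConjugate ContDiff

namespace H706.JFB

theorem IsF_fc_one (g : ℝ → ℂ) (hg : Continuous g) (hp : Function.Periodic g (2 * Real.pi))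
    (c : ℤ → ℂ) (hc : ∀ n : ℤ, c n = (((2 * Real.pi)⁻¹ : ℝ) : ℂ) *
      ∫ t in Ioc (-Real.pi) Real.pi, g t * Complex.exp (((-(n : ℝ) * t : ℝ) : ℂ) * Complex.I))
    (hs : Summable c) (x : ℝ) :
    HasSum (fun n : ℤ => c n * Complex.exp ((((n : ℝ) * x : ℝ) : ℂ) * Complex.I)) (g x) := by
  have : Fact (0 < 2 * Real.pi) := ⟨Real.two_pi_pos⟩
  have hcont : Continuous hp.lift := continuous_coinduced_dom.mpr hg
  let G : C(AddCircle (2 * Real.pi), ℂ) := ⟨hp.lift, hcont⟩
  have hG : ∀ t : ℝ, G (t : AddCircle (2 * Real.pi)) = g t := fun t => hp.lift_coe t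
  have hpi : (Real.pi : ℂ) ≠ 0 := by exact_mod_cast Real.pi_ne_zero
  have hexp : ∀ (n : ℤ) (t : ℝ), fourier n (t : AddCircle (2 * Real.pi))
      = Complex.exp ((((n : ℝ) * t : ℝ) : ℂ) * Complex.I) := by
    intro n t
    rw [fourier_coe_apply]
    congr 1
    push_cast
    field_simp
  have hcoef : fourierCoeff G = c := by
    funext n
    rw [hc n, fourierCoeff_eq_intervalIntegral G n (-Real.pi)]
    have e1 : -Real.pi + 2 * Real.pi = Real.pi := by ring
    rw [e1, intervalIntegral.integral_of_le (by linarith [Real.pi_pos]), Complex.real_smul, one_div]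
    congr 1
    refine setIntegral_congr_fun measurableSet_Ioc fun t _ => ?_
    simp only [hG, hexp, smul_eq_mul]
    rw [mul_comm]
    congr 3
    push_cast
    ring
  have h := has_pointwise_sum_fourier_series_of_summable (f := G) (by rw [hcoef]; exact hs)
    (x : AddCircle (2 * Real.pi))
  rw [hG, hcoef] at h
  have e : (fun n : ℤ => c n * Complex.exp ((((n : ℝ) * x : ℝ) : ℂ) * Complex.I))
      = fun i : ℤ => c i • fourier i (x : AddCircle (2 * Real.pi)) := by
    funext n; rw [hexp, smul_eq_mul]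
  rw [e]; exact h

/-- the coefficients in the second variable -/
noncomputable def IsF_fc_cc (f : Pt → ℝ) (k : ℤ) (a : ℝ) : ℂ :=
  (((2 * Real.pi)⁻¹ : ℝ) : ℂ) *
    ∫ t in Ioc (-Real.pi) Real.pi, (f (a, t) : ℂ) * Complex.exp (((-(k : ℝ) * t : ℝ) : ℂ) * Complex.I)

theorem IsF_fc_cc_cont {f : Pt → ℝ} (hf : Continuous f) (k : ℤ) : Continuous (IsF_fc_cc f k) := by
  unfold IsF_fc_cc
  refine continuous_const.mul ?_
  have e : ∀ a : ℝ, ∫ t in Ioc (-Real.pi) Real.pi, (f (a, t) : ℂ) * Complex.exp (((-(k : ℝ) * t : ℝ) : ℂ) * Complex.I)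
      = ∫ t in (-Real.pi)..Real.pi, (f (a, t) : ℂ) * Complex.exp (((-(k : ℝ) * t : ℝ) : ℂ) * Complex.I) := by
    intro a
    rw [intervalIntegral.integral_of_le (by linarith [Real.pi_pos])]
  simp_rw [e]
  refine intervalIntegral.continuous_parametric_intervalIntegral_of_continuous' ?_ _ _
  unfold Function.uncurry
  fun_prop

theorem IsF_fc_cc_per {f : Pt → ℝ} (hf : Per f) (k : ℤ) : Function.Periodic (IsF_fc_cc f k) (2 * Real.pi) := by
  intro a
  unfold IsF_fc_cc
  congr 1
  refine setIntegral_congr_fun measurableSet_Ioc fun t _ => ?_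
  have := (hf (a, t)).1
  simp only at this
  simp only [this]

theorem IsF_fc_fubini {f : Pt → ℝ} (hf : Continuous f) (k l : ℤ) :
    fc f (k, l) = (((2 * Real.pi)⁻¹ : ℝ) : ℂ) *
      ∫ s in Ioc (-Real.pi) Real.pi, IsF_fc_cc f l s * Complex.exp (((-(k : ℝ) * s : ℝ) : ℂ) * Complex.I) := by
  unfold fc Qb
  have hint : IntegrableOn (fun x : Pt => (f x : ℂ) * ex (-(k, l)) x)
      (Ioc (-Real.pi) Real.pi ×ˢ Ioc (-Real.pi) Real.pi) ((volume : Measure ℝ).prod volume) := by
    have h1 : IntegrableOn (fun x : Pt => (f x : ℂ) * ex (-(k, l)) x)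
        (Icc (-Real.pi) Real.pi ×ˢ Icc (-Real.pi) Real.pi) ((volume : Measure ℝ).prod volume) := by
      refine ContinuousOn.integrableOn_compact (isCompact_Icc.prod isCompact_Icc) ?_
      refine Continuous.continuousOn ?_
      unfold ex
      fun_prop
    exact h1.mono_set (Set.prod_mono Ioc_subset_Icc_self Ioc_subset_Icc_self)
  have e0 : (∫ x in Ioc (-Real.pi) Real.pi ×ˢ Ioc (-Real.pi) Real.pi, (f x : ℂ) * ex (-(k, l)) x)
      = ∫ s in Ioc (-Real.pi) Real.pi, ∫ t in Ioc (-Real.pi) Real.pi, (f (s, t) : ℂ) * ex (-(k, l)) (s, t) := by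
    have := setIntegral_prod (μ := (volume : Measure ℝ)) (ν := (volume : Measure ℝ)) _ hint
    rw [← this]
    rfl
  rw [e0]
  have e1 : ∀ s : ℝ, ∫ t in Ioc (-Real.pi) Real.pi, (f (s, t) : ℂ) * ex (-(k, l)) (s, t)
      = ((2 * Real.pi : ℝ) : ℂ) * (IsF_fc_cc f l s * Complex.exp (((-(k : ℝ) * s : ℝ) : ℂ) * Complex.I)) := by
    intro s
    unfold IsF_fc_cc
    have hpi : ((2 * Real.pi : ℝ) : ℂ) * (((2 * Real.pi)⁻¹ : ℝ) : ℂ) = 1 := by
      rw [← Complex.ofReal_mul, mul_inv_cancel₀ Real.two_pi_pos.ne', Complex.ofReal_one]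
    rw [← mul_assoc, ← mul_assoc, hpi, one_mul, ← integral_mul_const]
    refine setIntegral_congr_fun measurableSet_Ioc fun t _ => ?_
    simp only [ex, Prod.fst_neg, Prod.snd_neg]
    rw [mul_assoc, ← Complex.exp_add]
    congr 2
    push_cast
    ring
  simp_rw [e1]
  rw [integral_const_mul, ← mul_assoc]
  congr 1
  rw [← Complex.ofReal_mul]
  congr 1
  have := Real.pi_ne_zero
  field_simp

theorem IsF_fc_ex (k l : ℤ) (x : Pt) : ex (k, l) x =
    Complex.exp ((((k : ℝ) * x.1 : ℝ) : ℂ) * Complex.I) * Complex.exp ((((l : ℝ) * x.2 : ℝ) : ℂ) * Complex.I) := by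
  unfold ex
  rw [← Complex.exp_add]
  congr 1
  push_cast
  ring

theorem IsF_fc_norm (k : Fr) (x : Pt) : ‖ex k x‖ = 1 := by
  unfold ex
  exact Complex.norm_exp_ofReal_mul_I _

/-- TARGET -/
theorem IsF_fc {f : Pt → ℝ} (hf : Sm f) : IsF (fc f) f := by
  refine ⟨RD_fc hf, fun x => ?_⟩
  have hcf : Continuous f := hf.1.continuous
  have hS0 : Summable fun k => ‖fc f k‖ := by
    have := RD_summable (RD_fc hf) 0
    simpa using this
  have hS : Summable (fc f) := hS0.of_norm
  -- the second variable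
  have h1 : ∀ (l : ℤ) (a : ℝ), HasSum (fun k : ℤ => fc f (k, l) *
      Complex.exp ((((k : ℝ) * a : ℝ) : ℂ) * Complex.I)) (IsF_fc_cc f l a) := by
    intro l a
    refine IsF_fc_one (IsF_fc_cc f l) (IsF_fc_cc_cont hcf l) (IsF_fc_cc_per hf.2 l)
      (fun k => fc f (k, l)) (fun k => IsF_fc_fubini hcf k l) ?_ a
    exact hS.comp_injective (i := fun k : ℤ => ((k, l) : Fr)) (fun a b h => (Prod.mk.inj h).1)
  -- the summability
  have hA : Summable fun k : Fr => fc f k * ex k x := by
    refine Summable.of_norm ?_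
    refine hS0.congr fun k => ?_
    rw [norm_mul, IsF_fc_norm, mul_one]
  have hB : Summable fun k : Fr => fc f k * ex k (x.1, 0) := by
    refine Summable.of_norm ?_
    refine hS0.congr fun k => ?_
    rw [norm_mul, IsF_fc_norm, mul_one]
  have hB' : HasSum (fun p : ℤ × ℤ => fc f (p.2, p.1) * ex (p.2, p.1) (x.1, 0)) (∑' k : Fr, fc f k * ex k (x.1, 0)) := by
    have := (Equiv.prodComm ℤ ℤ).hasSum_iff.2 hB.hasSum
    exact this
  have hA' : HasSum (fun p : ℤ × ℤ => fc f (p.2, p.1) * ex (p.2, p.1) x) (∑' k : Fr, fc f k * ex k x) := by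
    have := (Equiv.prodComm ℤ ℤ).hasSum_iff.2 hA.hasSum
    exact this
  have hC : HasSum (fun l : ℤ => IsF_fc_cc f l x.1) (∑' k : Fr, fc f k * ex k (x.1, 0)) := by
    refine hB'.prod_fiberwise fun l => ?_
    have e : (fun k : ℤ => fc f (k, l) * ex (k, l) (x.1, 0)) = fun k : ℤ => fc f (k, l) *
        Complex.exp ((((k : ℝ) * x.1 : ℝ) : ℂ) * Complex.I) := by
      funext k
      rw [IsF_fc_ex]
      simp
    show HasSum (fun k : ℤ => fc f (k, l) * ex (k, l) (x.1, 0)) _
    rw [e]
    exact h1 l x.1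
  have hD : HasSum (fun l : ℤ => IsF_fc_cc f l x.1 * Complex.exp ((((l : ℝ) * x.2 : ℝ) : ℂ) * Complex.I))
      (∑' k : Fr, fc f k * ex k x) := by
    refine hA'.prod_fiberwise fun l => ?_
    have e : (fun k : ℤ => fc f (k, l) * ex (k, l) x) = fun k : ℤ => fc f (k, l) *
        Complex.exp ((((k : ℝ) * x.1 : ℝ) : ℂ) * Complex.I) *
        Complex.exp ((((l : ℝ) * x.2 : ℝ) : ℂ) * Complex.I) := by
      funext k
      rw [IsF_fc_ex, mul_assoc]
    show HasSum (fun k : ℤ => fc f (k, l) * ex (k, l) x) _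
    rw [e]
    exact (h1 l x.1).mul_right _
  have hE : HasSum (fun l : ℤ => IsF_fc_cc f l x.1 * Complex.exp ((((l : ℝ) * x.2 : ℝ) : ℂ) * Complex.I))
      (f x : ℂ) := by
    have hc1 : Continuous fun t : ℝ => (f (x.1, t) : ℂ) := by fun_prop
    have hp1 : Function.Periodic (fun t : ℝ => (f (x.1, t) : ℂ)) (2 * Real.pi) := by
      intro t
      have := (hf.2 (x.1, t)).2
      simp only at this
      simp only [this]
    exact IsF_fc_one (fun t : ℝ => (f (x.1, t) : ℂ)) hc1 hp1 (fun l => IsF_fc_cc f l x.1) (fun l => rfl)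
      hC.summable x.2
  exact hE.unique hD

end H706.JFB

namespace H706

alias IsF_fc := JFB.IsF_fc

end H706
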