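import Pool.Agent.Helper706_SQG.Defs2
import Pool.Agent.Helper706_SQG.FA

/-!
JOB FC (MP_96bed6_an, helper706).  Functions given by Fourier series with rapidly decreasing
coefficients.

PROOF.  `contDiff_tsum` (the terms `z k * ex k x` have iterated derivatives of order `j` bounded by
`‖z k‖ (C br k)^j`, summable by `RD_summable`), periodicity of `ex k`; termwise differentiation
(`hasDerivAt_tsum`, or `iteratedFDeriv_tsum`/`fderiv_tsum`); orthogonality
`∫_{Qb} ex k x * ex (-l) x dx = (2π)² δ_{kl}` and exchange of sum and integral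
(`∑ ‖z k‖ < ∞`); real parts: `f` is real so `f x = (∑' ...).re`.
-/

set_option autoImplicit false
open Set Filter Topology MeasureTheory
open scoped ComplexConjugate ContDiff

namespace H706

section aux846

/-- the linear form `k·x` -/
noncomputable def lf846 (k : Fr) : Pt →L[ℝ] ℝ :=
  (k.1 : ℝ) • ContinuousLinearMap.fst ℝ ℝ ℝ + (k.2 : ℝ) • ContinuousLinearMap.snd ℝ ℝ ℝ

theorem lf846_apply (k : Fr) (x : Pt) : lf846 k x = (k.1 : ℝ) * x.1 + (k.2 : ℝ) * x.2 := by
  simp [lf846]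

/-- `r ↦ exp (i r)` -/
noncomputable def e846 (r : ℝ) : ℂ := Complex.exp ((r : ℂ) * Complex.I)

theorem ex_eq846 (k : Fr) : ex k = e846 ∘ (lf846 k) := by
  funext x
  simp only [ex, e846, Function.comp, lf846_apply]

theorem e846_contDiff {n : WithTop ℕ∞} : ContDiff ℝ n e846 := by
  unfold e846
  exact (Complex.ofRealCLM.contDiff.mul contDiff_const).cexp

theorem e846_deriv (r : ℝ) : HasDerivAt e846 (Complex.I * e846 r) r := by
  have h1 : HasDerivAt (fun r : ℝ => (r : ℂ) * Complex.I) (1 * Complex.I) r :=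
    (Complex.ofRealCLM.hasDerivAt (x := r)).mul_const Complex.I
  have h2 := h1.cexp
  unfold e846
  convert h2 using 1
  ring

theorem e846_iter (j : ℕ) (r : ℝ) : iteratedDeriv j e846 r = Complex.I ^ j * e846 r := by
  induction j generalizing r with
  | zero => simp
  | succ j ih =>
    rw [iteratedDeriv_succ]
    have h : iteratedDeriv j e846 = fun r => Complex.I ^ j * e846 r := funext ih
    rw [h]
    rw [((e846_deriv r).const_mul (Complex.I ^ j)).deriv]
    ring

theorem e846_norm (r : ℝ) : ‖e846 r‖ = 1 := by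
  unfold e846
  exact Complex.norm_exp_ofReal_mul_I r

theorem norm_ex846 (k : Fr) (x : Pt) : ‖ex k x‖ = 1 := by
  rw [ex_eq846]; exact e846_norm _

theorem len_nonneg846 (k : Fr) : 0 ≤ len k := Real.sqrt_nonneg _

theorem br_one846 (k : Fr) : 1 ≤ br k := by
  unfold br; linarith [len_nonneg846 k]

theorem abs_fst846 (k : Fr) : |(k.1 : ℝ)| ≤ br k := by
  unfold br len
  have : |(k.1 : ℝ)| ≤ Real.sqrt ((k.1 : ℝ) ^ 2 + (k.2 : ℝ) ^ 2) := by
    apply Real.abs_le_sqrt
    nlinarith [sq_nonneg (k.2 : ℝ)]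
  linarith

theorem abs_snd846 (k : Fr) : |(k.2 : ℝ)| ≤ br k := by
  unfold br len
  have : |(k.2 : ℝ)| ≤ Real.sqrt ((k.1 : ℝ) ^ 2 + (k.2 : ℝ) ^ 2) := by
    apply Real.abs_le_sqrt
    nlinarith [sq_nonneg (k.1 : ℝ)]
  linarith

theorem norm_lf846 (k : Fr) : ‖lf846 k‖ ≤ 2 * br k := by
  unfold lf846
  refine (norm_add_le _ _).trans ?_
  rw [norm_smul, norm_smul]
  have h1 : ‖ContinuousLinearMap.fst ℝ ℝ ℝ‖ ≤ 1 := ContinuousLinearMap.norm_fst_le ..
  have h2 : ‖ContinuousLinearMap.snd ℝ ℝ ℝ‖ ≤ 1 := ContinuousLinearMap.norm_snd_le ..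
  have h3 := abs_fst846 k
  have h4 := abs_snd846 k
  rw [Real.norm_eq_abs, Real.norm_eq_abs]
  nlinarith [abs_nonneg (k.1 : ℝ), abs_nonneg (k.2 : ℝ)]

theorem ex_contDiff846 (k : Fr) {n : WithTop ℕ∞} : ContDiff ℝ n (ex k) := by
  rw [ex_eq846]
  exact e846_contDiff.comp (lf846 k).contDiff

theorem norm_iter_ex846 (k : Fr) (j : ℕ) (x : Pt) :
    ‖iteratedFDeriv ℝ j (ex k) x‖ ≤ (2 * br k) ^ j := by
  rw [ex_eq846, ContinuousLinearMap.iteratedFDeriv_comp_right (lf846 k)
    (e846_contDiff (n := ⊤)) x (i := j) (by exact_mod_cast le_top)]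
  refine (ContinuousMultilinearMap.norm_compContinuousLinearMap_le _ _).trans ?_
  rw [norm_iteratedFDeriv_eq_norm_iteratedDeriv, e846_iter, norm_mul, norm_pow, Complex.norm_I,
    one_pow, e846_norm]
  simp only [one_mul, Finset.prod_const, Finset.card_univ, Fintype.card_fin]
  exact pow_le_pow_left₀ (norm_nonneg _) (norm_lf846 k) j

/-- the linear map `w ↦ Re (z w)` -/
noncomputable def rl846 (z : ℂ) : ℂ →L[ℝ] ℝ :=
  Complex.reCLM.comp (ContinuousLinearMap.mul ℝ ℂ z)

theorem rl846_apply (z w : ℂ) : rl846 z w = (z * w).re := by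
  simp [rl846]

theorem norm_rl846 (z : ℂ) : ‖rl846 z‖ ≤ ‖z‖ := by
  refine ContinuousLinearMap.opNorm_le_bound _ (norm_nonneg _) (fun w => ?_)
  rw [rl846_apply, ← norm_mul]
  exact Complex.abs_re_le_norm _

theorem iter_re846 (z : ℂ) (k : Fr) (j : ℕ) (x : Pt) :
    iteratedFDeriv ℝ j (fun x => (z * ex k x).re) x
      = (rl846 z).compContinuousMultilinearMap (iteratedFDeriv ℝ j (ex k) x) := by
  have h : (fun x => (z * ex k x).re) = (rl846 z) ∘ ex k := by
    funext x; simp [rl846_apply]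
  rw [h]
  exact ContinuousLinearMap.iteratedFDeriv_comp_left (rl846 z)
    ((ex_contDiff846 k (n := ⊤)).contDiffAt) (by exact_mod_cast le_top)

theorem norm_iter_re846 (z : ℂ) (k : Fr) (j : ℕ) (x : Pt) :
    ‖iteratedFDeriv ℝ j (fun x => (z * ex k x).re) x‖ ≤ ‖z‖ * (2 * br k) ^ j := by
  rw [iter_re846]
  refine (ContinuousLinearMap.norm_compContinuousMultilinearMap_le _ _).trans ?_
  exact mul_le_mul (norm_rl846 z) (norm_iter_ex846 k j x) (norm_nonneg _) (norm_nonneg _)

theorem re_contDiff846 (z : ℂ) (k : Fr) {n : WithTop ℕ∞} :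
    ContDiff ℝ n (fun x => (z * ex k x).re) := by
  have h : (fun x => (z * ex k x).re) = (rl846 z) ∘ ex k := by
    funext x; simp [rl846_apply]
  rw [h]
  exact (rl846 z).contDiff.comp (ex_contDiff846 k)

theorem RD.norm_summable846 {z : Fr → ℂ} (hz : RD z) : Summable fun k => ‖z k‖ := by
  simpa using RD_summable hz 0

theorem RD.summable846 {z : Fr → ℂ} (hz : RD z) (x : Pt) : Summable fun k => z k * ex k x := by
  apply Summable.of_norm
  simpa [norm_mul, norm_ex846] using hz.norm_summable846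

theorem re_tsum846 {z : Fr → ℂ} (hz : RD z) :
    (fun x => (∑' k, z k * ex k x).re) = fun x => ∑' k, (z k * ex k x).re := by
  funext x
  exact Complex.reCLM.map_tsum (hz.summable846 x)

theorem summ846 {z : Fr → ℂ} (hz : RD z) (j : ℕ) :
    Summable fun k => ‖z k‖ * (2 * br k) ^ j := by
  have := (RD_summable hz j).mul_left ((2 : ℝ) ^ j)
  refine this.congr (fun k => ?_)
  rw [mul_pow]; ring

end aux846

section aux846b

theorem ex_add846 (k l : Fr) (x : Pt) : ex k x * ex l x = ex (k + l) x := by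
  unfold ex
  rw [← Complex.exp_add]
  congr 1
  push_cast
  simp only [Prod.fst_add, Prod.snd_add, Int.cast_add]
  ring

theorem ex_zero846 (x : Pt) : ex 0 x = 1 := by
  simp [ex]

theorem ex_neg846 (k : Fr) (x : Pt) : ex (-k) x = conj (ex k x) := by
  unfold ex
  rw [← Complex.exp_conj]
  congr 1
  simp only [Prod.fst_neg, Prod.snd_neg, Int.cast_neg, map_mul, Complex.conj_ofReal, Complex.conj_I]
  push_cast
  ring

theorem ex_per1_846 (k : Fr) (x : Pt) : ex k (x.1 + 2 * Real.pi, x.2) = ex k x := by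
  unfold ex
  have : (((k.1 : ℝ) * (x.1 + 2 * Real.pi) + (k.2 : ℝ) * x.2 : ℝ) : ℂ) * Complex.I
      = (((k.1 : ℝ) * x.1 + (k.2 : ℝ) * x.2 : ℝ) : ℂ) * Complex.I
        + (k.1 : ℂ) * (2 * Real.pi * Complex.I) := by
    push_cast; ring
  rw [this, Complex.exp_add, Complex.exp_int_mul_two_pi_mul_I, mul_one]

theorem ex_per2_846 (k : Fr) (x : Pt) : ex k (x.1, x.2 + 2 * Real.pi) = ex k x := by
  unfold ex
  have : (((k.1 : ℝ) * x.1 + (k.2 : ℝ) * (x.2 + 2 * Real.pi) : ℝ) : ℂ) * Complex.I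
      = (((k.1 : ℝ) * x.1 + (k.2 : ℝ) * x.2 : ℝ) : ℂ) * Complex.I
        + (k.2 : ℂ) * (2 * Real.pi * Complex.I) := by
    push_cast; ring
  rw [this, Complex.exp_add, Complex.exp_int_mul_two_pi_mul_I, mul_one]

theorem IsF.eq_re846 {z : Fr → ℂ} {f : Pt → ℝ} (h : IsF z f) :
    f = fun x => (∑' k, z k * ex k x).re := by
  funext x
  rw [← h.2 x, Complex.ofReal_re]

theorem int1_846 (m : ℤ) :
    ∫ s in Ioc (-Real.pi) Real.pi, Complex.exp (((m : ℝ) * s : ℝ) * Complex.I)
      = if m = 0 then ((2 * Real.pi : ℝ) : ℂ) else 0 := by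
  have hpi : -Real.pi ≤ Real.pi := by linarith [Real.pi_pos]
  rw [← intervalIntegral.integral_of_le hpi]
  split_ifs with h
  · subst h
    simp
    ring
  · have h1 : (fun s : ℝ => Complex.exp (((m : ℝ) * s : ℝ) * Complex.I))
        = fun s : ℝ => Complex.exp (((m : ℂ) * Complex.I) * s) := by
      funext s; congr 1; push_cast; ring
    rw [h1, integral_exp_mul_complex]
    · have h2 : Complex.exp ((m : ℂ) * Complex.I * ((Real.pi : ℝ) : ℂ))
          = Complex.exp ((m : ℂ) * Complex.I * ((-Real.pi : ℝ) : ℂ)) := by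
        have : (m : ℂ) * Complex.I * ((Real.pi : ℝ) : ℂ)
            = (m : ℂ) * Complex.I * ((-Real.pi : ℝ) : ℂ) + (m : ℂ) * (2 * Real.pi * Complex.I) := by
          push_cast; ring
        rw [this, Complex.exp_add, Complex.exp_int_mul_two_pi_mul_I, mul_one]
      rw [h2, sub_self, zero_div]
    · simp [h]

theorem int_ex846 (k : Fr) :
    ∫ x in Qb, ex k x = if k = 0 then ((((2 * Real.pi) ^ 2 : ℝ)) : ℂ) else 0 := by
  have h1 : ∀ x : Pt, ex k x = Complex.exp (((k.1 : ℝ) * x.1 : ℝ) * Complex.I)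
      * Complex.exp (((k.2 : ℝ) * x.2 : ℝ) * Complex.I) := by
    intro x
    unfold ex
    rw [← Complex.exp_add]
    congr 1
    push_cast; ring
  simp_rw [h1]
  unfold Qb
  rw [Measure.volume_eq_prod]
  rw [setIntegral_prod_mul (f := fun s : ℝ => Complex.exp (((k.1 : ℝ) * s : ℝ) * Complex.I))
    (g := fun s : ℝ => Complex.exp (((k.2 : ℝ) * s : ℝ) * Complex.I))]
  rw [int1_846, int1_846]
  by_cases h1 : k.1 = 0 <;> by_cases h2 : k.2 = 0 <;> simp [h1, h2, Prod.ext_iff]
  ring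

theorem ex_cont846 (k : Fr) : Continuous (ex k) := (ex_contDiff846 k (n := 0)).continuous

theorem Qb_fin846 : volume Qb < ⊤ := by
  unfold Qb
  rw [Measure.volume_eq_prod, Measure.prod_prod]
  simp [ENNReal.mul_lt_top]

theorem int_of_cont846 {g : Pt → ℂ} (hg : Continuous g) : IntegrableOn g Qb := by
  have hK : IsCompact (Icc (-Real.pi) Real.pi ×ˢ Icc (-Real.pi) Real.pi : Set Pt) :=
    isCompact_Icc.prod isCompact_Icc
  refine (hg.continuousOn.integrableOn_compact hK).mono_set ?_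
  exact prod_mono Ioc_subset_Icc_self Ioc_subset_Icc_self

theorem fourier_int846 {z : Fr → ℂ} {f : Pt → ℝ} (h : IsF z f) {g : Pt → ℂ} (hg : Continuous g)
    {B : ℝ} (hB : ∀ x, ‖g x‖ ≤ B) :
    ∫ x in Qb, (f x : ℂ) * g x = ∑' k, z k * ∫ x in Qb, ex k x * g x := by
  have hB0 : 0 ≤ B := (norm_nonneg _).trans (hB 0)
  have h1 : ∀ x, (f x : ℂ) * g x = ∑' k, z k * (ex k x * g x) := by
    intro x
    rw [h.2 x, ← tsum_mul_right]
    congr 1
    funext k
    ring
  simp_rw [h1]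
  have h2 : ∀ k, ∫ x in Qb, z k * (ex k x * g x) = z k * ∫ x in Qb, ex k x * g x := by
    intro k
    rw [integral_const_mul]
  simp_rw [← h2]
  symm
  refine integral_tsum_of_summable_integral_norm (fun k => ?_) ?_
  · exact int_of_cont846 (continuous_const.mul ((ex_cont846 k).mul hg))
  · refine Summable.of_nonneg_of_le (fun k => integral_nonneg (fun x => norm_nonneg _))
      (fun k => ?_) (h.1.norm_summable846.mul_right (B * (volume Qb).toReal))
    have h3 : ∀ x ∈ Qb, ‖(‖z k * (ex k x * g x)‖ : ℝ)‖ ≤ ‖z k‖ * B := by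
      intro x _
      rw [norm_norm, norm_mul, norm_mul, norm_ex846, one_mul]
      gcongr
      exact hB x
    have h4 := norm_setIntegral_le_of_norm_le_const (μ := volume) Qb_fin846 h3
    rw [Real.norm_eq_abs] at h4
    calc _ ≤ |∫ x in Qb, ‖z k * (ex k x * g x)‖| := le_abs_self _
      _ ≤ _ := h4
      _ = _ := by rw [Measure.real, mul_assoc]

end aux846b

/-- TARGET 1 -/
theorem IsF.sm {z : Fr → ℂ} {f : Pt → ℝ} (h : IsF z f) : Sm f := by
  constructor
  · rw [h.eq_re846, re_tsum846 h.1]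
    exact contDiff_tsum (N := ⊤) (v := fun j k => ‖z k‖ * (2 * br k) ^ j)
      (fun k => re_contDiff846 _ k) (fun j _ => summ846 h.1 j)
      (fun j k x _ => norm_iter_re846 _ k j x)
  · intro x
    rw [h.eq_re846]
    simp only [ex_per1_846, ex_per2_846, and_self]

/-- TARGET 2 -/
theorem IsF.fc_eq {z : Fr → ℂ} {f : Pt → ℝ} (h : IsF z f) : fc f = z := by
  funext k
  unfold fc
  rw [fourier_int846 h (ex_cont846 (-k)) (B := 1) (fun x => (norm_ex846 _ x).le)]
  have h1 : ∀ l, ∫ x in Qb, ex l x * ex (-k) x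
      = if l = k then ((((2 * Real.pi) ^ 2 : ℝ)) : ℂ) else 0 := by
    intro l
    simp_rw [ex_add846]
    rw [int_ex846]
    simp only [← sub_eq_add_neg, sub_eq_zero]
  simp_rw [h1]
  rw [tsum_eq_single k (fun l hl => by simp [hl])]
  rw [if_pos rfl]
  have hp : ((Real.pi : ℝ) : ℂ) ≠ 0 := by exact_mod_cast Real.pi_ne_zero
  push_cast
  field_simp

theorem RD.mul_aux846 {z m : Fr → ℂ} (h : RD z) {C : ℝ} {N : ℕ} (hm : ∀ k, ‖m k‖ ≤ C * br k ^ N) :
    RD (fun k => m k * z k) := by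
  intro M
  obtain ⟨D, hD⟩ := h (M + N)
  refine ⟨|C| * D, fun k => ?_⟩
  have hb : 0 < br k := lt_of_lt_of_le one_pos (br_one846 k)
  have h1 : ‖m k‖ ≤ |C| * br k ^ N :=
    (hm k).trans (mul_le_mul_of_nonneg_right (le_abs_self C) (by positivity))
  rw [norm_mul]
  calc br k ^ M * (‖m k‖ * ‖z k‖) ≤ br k ^ M * ((|C| * br k ^ N) * ‖z k‖) := by gcongr
    _ = |C| * (br k ^ (M + N) * ‖z k‖) := by ring
    _ ≤ |C| * D := mul_le_mul_of_nonneg_left (hD k) (abs_nonneg _)

theorem deriv_aux846 {z m : Fr → ℂ} {f : ℝ → ℝ} {p : ℝ → Pt} {u : Fr → ℝ}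
    (hf : ∀ s, (f s : ℂ) = ∑' k, z k * ex k (p s)) (hu : Summable u)
    (hum : ∀ k, ‖m k * z k‖ ≤ u k) (hz : RD z)
    (hd : ∀ k s, HasDerivAt (fun r => ex k (p r)) (m k * ex k (p s)) s) (s : ℝ) :
    ((deriv f s : ℝ) : ℂ) = ∑' k, m k * z k * ex k (p s) := by
  have h1 : HasDerivAt (fun s => ∑' k, z k * ex k (p s)) (∑' k, m k * z k * ex k (p s)) s := by
    refine hasDerivAt_tsum (u := u) (g := fun k r => z k * ex k (p r))
      (g' := fun k r => m k * z k * ex k (p r)) hu (y₀ := s) (fun k r => ?_) (fun k r => ?_)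
      (hz.summable846 (p s)) s
    · have := (hd k r).const_mul (z k)
      refine this.congr_deriv ?_
      show _ = m k * z k * ex k (p r)
      ring
    · rw [norm_mul, norm_ex846, mul_one]; exact hum k
  have h2 : HasDerivAt (fun s => ((f s : ℝ) : ℂ)) (∑' k, m k * z k * ex k (p s)) s := by
    simpa only [hf] using h1
  have h3 : HasDerivAt f (∑' k, m k * z k * ex k (p s)).re s :=
    Complex.reCLM.hasFDerivAt.comp_hasDerivAt s h2
  rw [h3.deriv]
  exact (h3.ofReal_comp).unique h2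

theorem ex_deriv1_846 (k : Fr) (c s : ℝ) :
    HasDerivAt (fun r : ℝ => ex k (r, c)) (Complex.I * k.1 * ex k (s, c)) s := by
  unfold ex
  have h1 : HasDerivAt (fun r : ℝ => (k.1 : ℝ) * r + (k.2 : ℝ) * c) ((k.1 : ℝ) * 1) s :=
    ((hasDerivAt_id s).const_mul (k.1 : ℝ)).add_const _
  have h2 := (h1.ofReal_comp.mul_const Complex.I).cexp
  convert h2 using 1
  push_cast
  ring

theorem ex_deriv2_846 (k : Fr) (c s : ℝ) :
    HasDerivAt (fun r : ℝ => ex k (c, r)) (Complex.I * k.2 * ex k (c, s)) s := by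
  unfold ex
  have h1 : HasDerivAt (fun r : ℝ => (k.1 : ℝ) * c + (k.2 : ℝ) * r) ((k.2 : ℝ) * 1) s :=
    ((hasDerivAt_id s).const_mul (k.2 : ℝ)).const_add _
  have h2 := (h1.ofReal_comp.mul_const Complex.I).cexp
  convert h2 using 1
  push_cast
  ring

theorem m1_846 (k : Fr) : ‖Complex.I * (k.1 : ℂ)‖ ≤ 1 * br k ^ 1 := by
  rw [norm_mul, Complex.norm_I, one_mul, one_mul, pow_one, Complex.norm_intCast]
  exact abs_fst846 k

theorem m2_846 (k : Fr) : ‖Complex.I * (k.2 : ℂ)‖ ≤ 1 * br k ^ 1 := by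
  rw [norm_mul, Complex.norm_I, one_mul, one_mul, pow_one, Complex.norm_intCast]
  exact abs_snd846 k

/-- TARGET 3 -/
theorem IsF.d1 {z : Fr → ℂ} {f : Pt → ℝ} (h : IsF z f) :
    IsF (fun k => Complex.I * k.1 * z k) (d1 f) := by
  have hRD : RD (fun k => Complex.I * k.1 * z k) := RD.mul_aux846 h.1 (C := 1) (N := 1) m1_846
  refine ⟨hRD, fun x => ?_⟩
  unfold H706.d1
  exact deriv_aux846 (m := fun k => Complex.I * k.1) (p := fun r => (r, x.2))
    (f := fun r => f (r, x.2)) (fun s => h.2 _) hRD.norm_summable846 (fun k => le_rfl) h.1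
    (fun k s => ex_deriv1_846 k x.2 s) x.1

/-- TARGET 4 -/
theorem IsF.d2 {z : Fr → ℂ} {f : Pt → ℝ} (h : IsF z f) :
    IsF (fun k => Complex.I * k.2 * z k) (d2 f) := by
  have hRD : RD (fun k => Complex.I * k.2 * z k) := RD.mul_aux846 h.1 (C := 1) (N := 1) m2_846
  refine ⟨hRD, fun x => ?_⟩
  unfold H706.d2
  exact deriv_aux846 (m := fun k => Complex.I * k.2) (p := fun r => (x.1, r))
    (f := fun r => f (x.1, r)) (fun s => h.2 _) hRD.norm_summable846 (fun k => le_rfl) h.1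
    (fun k s => ex_deriv2_846 k x.1 s) x.2

/-- TARGET 5: a Hermitian family is the family of coefficients of a real function. -/
theorem IsF_of_herm {z : Fr → ℂ} (h : RD z) (hz : ∀ k, z (-k) = conj (z k)) :
    IsF z (fun x => (∑' k, z k * ex k x).re) := by
  refine ⟨h, fun x => ?_⟩
  rw [← Complex.conj_eq_iff_re]
  rw [Complex.conj_tsum]
  rw [← (Equiv.neg Fr).tsum_eq]
  congr 1
  funext k
  simp only [Equiv.neg_apply, map_mul, hz, ex_neg846, Complex.conj_conj]

/-- TARGET 6 -/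
theorem fc_herm (f : Pt → ℝ) (k : Fr) : fc f (-k) = conj (fc f k) := by
  unfold fc
  rw [map_mul, Complex.conj_ofReal, ← integral_conj]
  congr 2
  funext x
  rw [map_mul, Complex.conj_ofReal, neg_neg, ex_neg846, Complex.conj_conj]

/-- TARGET 7: multipliers of polynomial growth. -/
theorem RD.mul {z m : Fr → ℂ} (h : RD z) {C : ℝ} {N : ℕ} (hm : ∀ k, ‖m k‖ ≤ C * br k ^ N) :
    RD (fun k => m k * z k) := RD.mul_aux846 h hm

theorem len_tri846 (k l : Fr) : len k ≤ len (k - l) + len l := by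
  have e : ∀ k : Fr, len k = ‖((k.1 : ℝ) : ℂ) + ((k.2 : ℝ) : ℂ) * Complex.I‖ := by
    intro k
    rw [Complex.norm_add_mul_I]
    rfl
  rw [e k, e (k - l), e l]
  refine le_trans (le_of_eq ?_) (norm_add_le _ _)
  congr 1
  simp only [Prod.fst_sub, Prod.snd_sub, Int.cast_sub]
  push_cast
  ring

theorem br_tri846 (k l : Fr) : br k ≤ br (k - l) * br l := by
  unfold br
  nlinarith [len_tri846 k l, len_nonneg846 (k - l), len_nonneg846 l,
    mul_nonneg (len_nonneg846 (k - l)) (len_nonneg846 l)]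

/-- the shear `(k,l) ↦ (k-l,l)` -/
def sh846 : Fr × Fr ≃ Fr × Fr where
  toFun := fun p => (p.1 - p.2, p.2)
  invFun := fun p => (p.1 + p.2, p.2)
  left_inv := fun _ => Prod.ext (sub_add_cancel _ _) rfl
  right_inv := fun _ => Prod.ext (add_sub_cancel_right _ _) rfl

theorem sh846_fst (k l : Fr) : (sh846 (k, l)).1 = k - l := rfl

theorem sh846_snd (k l : Fr) : (sh846 (k, l)).2 = l := rfl

/-- TARGET 8: the product. -/
theorem IsF.mul {z y : Fr → ℂ} {f g : Pt → ℝ} (hf : IsF z f) (hg : IsF y g) :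
    IsF (fun k => ∑' l, z (k - l) * y l) (fun x => f x * g x) := by
  constructor
  · intro N
    obtain ⟨C, hC⟩ := hf.1 N
    have hC0 : 0 ≤ C := le_trans (by have := br_one846 0; positivity) (hC 0)
    have hs := RD_summable hg.1 N
    refine ⟨C * ∑' l, br l ^ N * ‖y l‖, fun k => ?_⟩
    have hb : 0 < br k := lt_of_lt_of_le one_pos (br_one846 k)
    have hbd : ∀ l, br k ^ N * ‖z (k - l) * y l‖ ≤ C * (br l ^ N * ‖y l‖) := by
      intro l
      have h1 : br k ^ N ≤ br (k - l) ^ N * br l ^ N := by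
        rw [← mul_pow]; exact pow_le_pow_left₀ hb.le (br_tri846 k l) N
      have hbl : 0 < br l := lt_of_lt_of_le one_pos (br_one846 l)
      rw [norm_mul]
      calc br k ^ N * (‖z (k - l)‖ * ‖y l‖)
          ≤ (br (k - l) ^ N * br l ^ N) * (‖z (k - l)‖ * ‖y l‖) := by gcongr
        _ = (br (k - l) ^ N * ‖z (k - l)‖) * (br l ^ N * ‖y l‖) := by ring
        _ ≤ C * (br l ^ N * ‖y l‖) := by
            apply mul_le_mul_of_nonneg_right (hC _); positivity
    have hs1 : Summable fun l => br k ^ N * ‖z (k - l) * y l‖ :=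
      Summable.of_nonneg_of_le (fun l => by positivity) hbd (hs.mul_left C)
    have hs2 : Summable fun l => ‖z (k - l) * y l‖ := by
      have := hs1.mul_left ((br k ^ N)⁻¹)
      refine this.congr (fun l => ?_)
      field_simp
    calc br k ^ N * ‖∑' l, z (k - l) * y l‖ ≤ br k ^ N * ∑' l, ‖z (k - l) * y l‖ := by
          gcongr; exact norm_tsum_le_tsum_norm hs2
      _ = ∑' l, br k ^ N * ‖z (k - l) * y l‖ := by rw [tsum_mul_left]
      _ ≤ ∑' l, C * (br l ^ N * ‖y l‖) := Summable.tsum_le_tsum hbd hs1 (hs.mul_left C)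
      _ = C * ∑' l, br l ^ N * ‖y l‖ := by rw [tsum_mul_left]
  · intro x
    push_cast
    rw [hf.2 x, hg.2 x]
    have hn1 : Summable fun k => ‖z k * ex k x‖ := by
      simpa [norm_mul, norm_ex846] using hf.1.norm_summable846
    have hn2 : Summable fun k => ‖y k * ex k x‖ := by
      simpa [norm_mul, norm_ex846] using hg.1.norm_summable846
    rw [tsum_mul_tsum_of_summable_norm hn1 hn2]
    have hsP : Summable fun p : Fr × Fr => (z p.1 * ex p.1 x) * (y p.2 * ex p.2 x) :=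
      summable_mul_of_summable_norm (f := fun k => z k * ex k x) (g := fun k => y k * ex k x)
        hn1 hn2
    rw [← sh846.tsum_eq]
    have hsE : Summable fun p : Fr × Fr =>
        (z (sh846 p).1 * ex (sh846 p).1 x) * (y (sh846 p).2 * ex (sh846 p).2 x) :=
      (sh846.summable_iff (f := fun p : Fr × Fr => (z p.1 * ex p.1 x) * (y p.2 * ex p.2 x))).2 hsP
    rw [hsE.tsum_prod]
    congr 1
    funext k
    rw [← tsum_mul_right]
    congr 1
    funext l
    rw [sh846_fst, sh846_snd]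
    have : ex (k - l) x * ex l x = ex k x := by rw [ex_add846, sub_add_cancel]
    rw [← this]; ring

/-- TARGET 9: Parseval. -/
theorem ip_eq {z y : Fr → ℂ} {f g : Pt → ℝ} (hf : IsF z f) (hg : IsF y g) :
    ((ip f g : ℝ) : ℂ) = ((2 * Real.pi) ^ 2 : ℝ) * ∑' l, conj (z l) * y l := by
  have hfc : Continuous f := hf.sm.1.continuous
  have hfb : ∀ x, ‖((f x : ℝ) : ℂ)‖ ≤ ∑' k, ‖z k‖ := by
    intro x
    rw [hf.2 x]
    have hn1 : Summable fun k => ‖z k * ex k x‖ := by
      simpa [norm_mul, norm_ex846] using hf.1.norm_summable846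
    refine (norm_tsum_le_tsum_norm hn1).trans (le_of_eq ?_)
    simp [norm_ex846]
  unfold ip
  rw [← integral_complex_ofReal]
  have h0 : ∀ x, ((f x * g x : ℝ) : ℂ) = (g x : ℂ) * ((f x : ℝ) : ℂ) := by
    intro x; push_cast; ring
  simp_rw [h0]
  rw [fourier_int846 hg (g := fun x => ((f x : ℝ) : ℂ)) (Complex.continuous_ofReal.comp hfc) hfb]
  rw [← tsum_mul_left]
  congr 1
  funext l
  have h1 : ∫ x in Qb, ex l x * ((f x : ℝ) : ℂ) = ((2 * Real.pi) ^ 2 : ℝ) * conj (z l) := by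
    have h2 := fc_herm f l
    rw [hf.fc_eq] at h2
    rw [← h2, ← hf.fc_eq]
    unfold fc
    rw [neg_neg, ← mul_assoc, ← Complex.ofReal_mul]
    rw [mul_inv_cancel₀ (by positivity), Complex.ofReal_one, one_mul]
    congr 1
    funext x
    ring
  rw [h1]
  ring

end H706
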