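import Pool.Agent.Helper706_SQG.Defs2
import Pool.Agent.Helper706_SQG.FB
import Pool.Agent.Helper706_SQG.FC

/-!
JOB CV0 (MP_96bed6_an, helper706).  Multipliers and the operator `A` on smooth functions, in terms of
Fourier coefficients.

PROOF.  `mult_series`: `RD.mul`, `fc_herm`, `IsF_of_herm`. `opA_series`: each `fc (E n)` has finite
support in `{2^(n+n₀) ≤ len k ≤ C₁ 2^(n+n₀)}`, at most `C 4^(n+n₀)` points, values `≤ C₂/8^(n+n₀)`. By
`ip_eq` (with `IsF_fc`), `ip (E n) f = (2π)² ∑_l conj (fc (E n) l) fc f l`, so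
`|ip (E n) f| ≤ C_N 2^{-N(n+n₀)}` for every `N` (rapid decay of `fc f`). Hence
`∑_n |w_n| |ip (E n) f| ∑_k br k |fc (E n) k| < ∞` and sums may be exchanged:
`opA f x = ∑_n w_n ip (E n) f ∑_k fc (E n) k ex k x = ∑_k (Aop .. (fc f)) k ex k x`. `RD` of `Aop ..`: for
fixed `k` only `n` with `2^(n+n₀) ≤ len k ≤ C₁ 2^(n+n₀)` contribute. The derivatives: by `IsF.d1` for
`opA f` and for `E n`, and the same exchange with the factor `i k₁`.
-/

set_option autoImplicit false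
open Set Filter Topology MeasureTheory
open scoped ComplexConjugate ContDiff

namespace H706.JCV0

/-- TARGET 1 -/
theorem mult_series {m : Fr → ℂ} {C : ℝ} {N : ℕ} (hm : ∀ k, ‖m k‖ ≤ C * br k ^ N) (hh : Herm m)
    {f : Pt → ℝ} (hf : Sm f) : IsF (fun k => m k * fc f k) (mult m f) := by
  refine IsF_of_herm ((RD_fc hf).mul hm) fun k => ?_
  show m (-k) * fc f (-k) = conj (m k * fc f k)
  rw [hh k, fc_herm f k, map_mul]

theorem cv0_len_nonneg (k : Fr) : 0 ≤ len k := Real.sqrt_nonneg _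

theorem cv0_one_le_br (k : Fr) : 1 ≤ br k := by
  unfold br
  linarith [cv0_len_nonneg k]

theorem cv0_abs_le_len (k : Fr) : |(k.1 : ℝ)| ≤ len k ∧ |(k.2 : ℝ)| ≤ len k := by
  unfold len
  constructor
  · refine Real.abs_le_sqrt ?_
    nlinarith [sq_nonneg (k.2 : ℝ)]
  · refine Real.abs_le_sqrt ?_
    nlinarith [sq_nonneg (k.1 : ℝ)]

theorem cv0_norm_ex (k : Fr) (x : Pt) : ‖ex k x‖ = 1 := by
  unfold ex
  exact Complex.norm_exp_ofReal_mul_I _

/-- the summands of `Aop` -/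
noncomputable def cv0_T (w : ℕ → ℝ) (e : ℕ → Fr → ℂ) (z : Fr → ℂ) (n : ℕ) (k : Fr) : ℂ :=
  ((w n * (2 * Real.pi) ^ 2 : ℝ) : ℂ) * (∑' l, conj (e n l) * z l) * e n k

theorem cv0_Aop (w : ℕ → ℝ) (e : ℕ → Fr → ℂ) (z : Fr → ℂ) (k : Fr) :
    Aop w e z k = ∑' n, cv0_T w e z n k := rfl

theorem cv0_inner {C₁ C₂ : ℝ} {n₀ : ℕ} {e : ℕ → Fr → ℂ} (he : Band C₁ C₂ n₀ e) {z : Fr → ℂ}
    (hz : RD z) (M n : ℕ) : ‖∑' l, conj (e n l) * z l‖ ≤
      |C₂| / ((2 : ℝ) ^ (n + n₀)) ^ M * ∑' l, br l ^ M * ‖z l‖ := by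
  have hs := (RD_summable hz M).hasSum.mul_left (|C₂| / ((2 : ℝ) ^ (n + n₀)) ^ M)
  refine tsum_of_norm_bounded hs fun l => ?_
  have hb := cv0_one_le_br l
  have hq0 : (0 : ℝ) < 2 ^ (n + n₀) := by positivity
  have hq1 : (1 : ℝ) ≤ 2 ^ (n + n₀) := one_le_pow₀ one_le_two
  rw [norm_mul, RCLike.norm_conj]
  by_cases hne : e n l = 0
  · rw [hne, norm_zero, zero_mul]
    have : 0 ≤ br l ^ M := pow_nonneg (by linarith) _
    positivity
  · have h1 : (2 : ℝ) ^ (n + n₀) ≤ br l := by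
      unfold br
      linarith [(he.supp n l hne).1]
    have h2 : ‖e n l‖ ≤ |C₂| := by
      refine (he.size n l).trans ?_
      rw [div_le_iff₀ (by positivity)]
      have h3 : (1 : ℝ) ≤ (2 ^ (n + n₀)) ^ 3 := one_le_pow₀ hq1
      calc C₂ ≤ |C₂| := le_abs_self _
        _ = |C₂| * 1 := by ring
        _ ≤ _ := mul_le_mul_of_nonneg_left h3 (abs_nonneg _)
    have h4 : ((2 : ℝ) ^ (n + n₀)) ^ M ≤ br l ^ M := pow_le_pow_left₀ hq0.le h1 M
    calc ‖e n l‖ * ‖z l‖ ≤ |C₂| * ‖z l‖ := mul_le_mul_of_nonneg_right h2 (norm_nonneg _)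
      _ = |C₂| / ((2 : ℝ) ^ (n + n₀)) ^ M * (((2 : ℝ) ^ (n + n₀)) ^ M * ‖z l‖) := by
          field_simp
      _ ≤ |C₂| / ((2 : ℝ) ^ (n + n₀)) ^ M * (br l ^ M * ‖z l‖) := by
          refine mul_le_mul_of_nonneg_left (mul_le_mul_of_nonneg_right h4 (norm_nonneg _)) ?_
          positivity

theorem cv0_wts {a : ℝ} (ha : 0 ≤ a) (n₀ n : ℕ) :
    |wts a n₀ n| ≤ ((2 : ℝ) ^ (n + n₀)) ^ (⌈a⌉₊ + 3) := by
  have hq1 : (1 : ℝ) ≤ 2 ^ (n + n₀) := one_le_pow₀ one_le_two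
  have h0 : (0 : ℝ) ≤ (n : ℝ) + n₀ := by positivity
  have h1 : (n : ℝ) + n₀ ≤ 2 ^ (n + n₀) := by
    have := (Nat.lt_two_pow_self (n := n + n₀)).le
    exact_mod_cast this
  have h2 : 0 ≤ om a n₀ n := Real.rpow_nonneg h0 _
  have h3 : om a n₀ n ≤ ((2 : ℝ) ^ (n + n₀)) ^ (⌈a⌉₊) := by
    unfold om
    calc ((n : ℝ) + n₀) ^ a ≤ ((2 : ℝ) ^ (n + n₀)) ^ a := Real.rpow_le_rpow h0 h1 ha
      _ ≤ ((2 : ℝ) ^ (n + n₀)) ^ ((⌈a⌉₊ : ℕ) : ℝ) :=
          Real.rpow_le_rpow_of_exponent_le hq1 (Nat.le_ceil a)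
      _ = _ := Real.rpow_natCast _ _
  unfold wts
  rw [abs_of_nonneg (mul_nonneg h2 (by positivity)), pow_add _ ⌈a⌉₊ 3]
  exact mul_le_mul_of_nonneg_right h3 (by positivity)

theorem cv0_size {C₁ C₂ : ℝ} {n₀ : ℕ} {e : ℕ → Fr → ℂ} (he : Band C₁ C₂ n₀ e) (N n : ℕ) (k : Fr) :
    br k ^ N * ‖e n k‖ ≤ (1 + |C₁|) ^ N * |C₂| * ((2 : ℝ) ^ (n + n₀)) ^ N := by
  have hb := cv0_one_le_br k
  have hq0 : (0 : ℝ) < 2 ^ (n + n₀) := by positivity
  have hq1 : (1 : ℝ) ≤ 2 ^ (n + n₀) := one_le_pow₀ one_le_two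
  by_cases hne : e n k = 0
  · rw [hne, norm_zero, mul_zero]
    positivity
  · have h1 : br k ≤ (1 + |C₁|) * 2 ^ (n + n₀) := by
      have h2 := (he.supp n k hne).2
      have h3 : C₁ * 2 ^ (n + n₀) ≤ |C₁| * 2 ^ (n + n₀) :=
        mul_le_mul_of_nonneg_right (le_abs_self _) hq0.le
      unfold br
      linarith
    have h2 : ‖e n k‖ ≤ |C₂| := by
      refine (he.size n k).trans ?_
      rw [div_le_iff₀ (by positivity)]
      have h3 : (1 : ℝ) ≤ (2 ^ (n + n₀)) ^ 3 := one_le_pow₀ hq1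
      calc C₂ ≤ |C₂| := le_abs_self _
        _ = |C₂| * 1 := by ring
        _ ≤ _ := mul_le_mul_of_nonneg_left h3 (abs_nonneg _)
    calc br k ^ N * ‖e n k‖ ≤ ((1 + |C₁|) * 2 ^ (n + n₀)) ^ N * |C₂| :=
          mul_le_mul (pow_le_pow_left₀ (by linarith) h1 N) h2 (norm_nonneg _) (by positivity)
      _ = _ := by rw [mul_pow]; ring

theorem cv0_key {a C₁ C₂ : ℝ} (ha : 0 ≤ a) {n₀ : ℕ} {e : ℕ → Fr → ℂ} (he : Band C₁ C₂ n₀ e)
    {z : Fr → ℂ} (hz : RD z) (N : ℕ) : ∃ K : ℝ, 0 ≤ K ∧ ∀ n k,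
      br k ^ N * ‖cv0_T (wts a n₀) e z n k‖ ≤ K * (1 / 2) ^ n := by
  set A : ℕ := ⌈a⌉₊ with hA
  set M : ℕ := A + 3 + N + 1 with hM
  set S : ℝ := ∑' l, br l ^ M * ‖z l‖ with hS
  have hS0 : 0 ≤ S := tsum_nonneg fun l =>
    mul_nonneg (pow_nonneg (by linarith [cv0_one_le_br l]) _) (norm_nonneg _)
  refine ⟨(2 * Real.pi) ^ 2 * (|C₂| * S) * ((1 + |C₁|) ^ N * |C₂|), by positivity, fun n k => ?_⟩
  have hb := cv0_one_le_br k
  have hq0 : (0 : ℝ) < 2 ^ (n + n₀) := by positivity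
  have i1 := cv0_inner he hz M n
  have i2 := cv0_wts ha n₀ n
  have i3 := cv0_size he N n k
  rw [← hA] at i2
  rw [← hS] at i1
  have hq2 : (1 : ℝ) / 2 ^ (n + n₀) ≤ (1 / 2) ^ n := by
    rw [one_div, one_div, inv_pow]
    refine inv_anti₀ (by positivity) ?_
    exact pow_le_pow_right₀ one_le_two (by omega)
  unfold cv0_T
  rw [norm_mul, norm_mul, Complex.norm_real, Real.norm_eq_abs, abs_mul,
    abs_of_nonneg (by positivity : (0 : ℝ) ≤ (2 * Real.pi) ^ 2)]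
  set q : ℝ := (2 : ℝ) ^ (n + n₀) with hq
  set I0 : ℝ := ‖∑' l, conj (e n l) * z l‖ with hI0
  have hI0' : 0 ≤ I0 := norm_nonneg _
  calc br k ^ N * (|wts a n₀ n| * (2 * Real.pi) ^ 2 * I0 * ‖e n k‖)
      = (2 * Real.pi) ^ 2 * (|wts a n₀ n| * I0 * (br k ^ N * ‖e n k‖)) := by ring
    _ ≤ (2 * Real.pi) ^ 2 * (q ^ (A + 3) * (|C₂| / q ^ M * S) * ((1 + |C₁|) ^ N * |C₂| * q ^ N)) := by
        refine mul_le_mul_of_nonneg_left ?_ (by positivity)
        refine mul_le_mul ?_ i3 ?_ (by positivity)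
        · exact mul_le_mul i2 i1 hI0' (by positivity)
        · exact mul_nonneg (pow_nonneg (by linarith) _) (norm_nonneg _)
    _ = (2 * Real.pi) ^ 2 * (|C₂| * S) * ((1 + |C₁|) ^ N * |C₂|) * (1 / q) := by
        have hq' : q ≠ 0 := hq0.ne'
        rw [hM, pow_add, pow_add, pow_one]
        field_simp
        try ring
    _ ≤ (2 * Real.pi) ^ 2 * (|C₂| * S) * ((1 + |C₁|) ^ N * |C₂|) * (1 / 2) ^ n :=
        mul_le_mul_of_nonneg_left hq2 (by positivity)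

theorem cv0_RD {a C₁ C₂ : ℝ} (ha : 0 ≤ a) {n₀ : ℕ} {e : ℕ → Fr → ℂ} (he : Band C₁ C₂ n₀ e)
    {z : Fr → ℂ} (hz : RD z) : RD (Aop (wts a n₀) e z) := by
  intro N
  obtain ⟨K, hK, h⟩ := cv0_key ha he hz N
  refine ⟨K * 2, fun k => ?_⟩
  have hb := cv0_one_le_br k
  have hb0 : 0 ≤ br k ^ N := pow_nonneg (by linarith) _
  have h1 : ‖∑' n, ((br k ^ N : ℝ) : ℂ) * cv0_T (wts a n₀) e z n k‖ ≤ K * 2 := by
    refine tsum_of_norm_bounded (hasSum_geometric_two.mul_left K) fun n => ?_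
    rw [norm_mul, Complex.norm_real, Real.norm_of_nonneg hb0]
    exact h n k
  rw [tsum_mul_left, norm_mul, Complex.norm_real, Real.norm_of_nonneg hb0] at h1
  exact h1

theorem cv0_exch {a C₁ C₂ : ℝ} (ha : 0 ≤ a) {n₀ : ℕ} {e : ℕ → Fr → ℂ} (he : Band C₁ C₂ n₀ e)
    {z : Fr → ℂ} (hz : RD z) (g : Fr → ℂ) (hg : ∀ k, ‖g k‖ ≤ br k) :
    ∑' k, g k * Aop (wts a n₀) e z k = ∑' n, ∑' k, g k * cv0_T (wts a n₀) e z n k := by
  obtain ⟨K, hK, h⟩ := cv0_key ha he hz 5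
  have hsum : Summable (Function.uncurry fun (n : ℕ) (k : Fr) => g k * cv0_T (wts a n₀) e z n k) := by
    have hgeo : Summable fun n : ℕ => K * (1 / 2 : ℝ) ^ n := summable_geometric_two.mul_left K
    have hprod : Summable fun p : ℕ × Fr => (K * (1 / 2 : ℝ) ^ p.1) * (br p.2 ^ 4)⁻¹ :=
      hgeo.mul_of_nonneg summable_br (fun n => by positivity) (fun k => by
        have := cv0_one_le_br k
        positivity)
    refine Summable.of_norm_bounded hprod ?_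
    rintro ⟨n, k⟩
    have hb := cv0_one_le_br k
    have hb0 : 0 < br k := by linarith
    show ‖g k * cv0_T (wts a n₀) e z n k‖ ≤ K * (1 / 2) ^ n * (br k ^ 4)⁻¹
    rw [norm_mul, ← div_eq_mul_inv, le_div_iff₀ (by positivity)]
    calc ‖g k‖ * ‖cv0_T (wts a n₀) e z n k‖ * br k ^ 4
        ≤ br k * ‖cv0_T (wts a n₀) e z n k‖ * br k ^ 4 := by
          refine mul_le_mul_of_nonneg_right (mul_le_mul_of_nonneg_right (hg k) (norm_nonneg _)) ?_
          positivity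
      _ = br k ^ 5 * ‖cv0_T (wts a n₀) e z n k‖ := by ring
      _ ≤ _ := h n k
  rw [← hsum.tsum_comm]
  refine tsum_congr fun k => ?_
  rw [cv0_Aop, tsum_mul_left]

theorem cv0_side {a : ℝ} {n₀ : ℕ} {E : ℕ → Pt → ℝ}
    (hE : ∀ n, Sm (E n)) {f : Pt → ℝ} (hf : Sm f) (G : ℕ → ℝ) (g : Fr → ℂ)
    (hG : ∀ n, ((G n : ℝ) : ℂ) = ∑' k, g k * fc (E n) k) :
    ((∑' n, wts a n₀ n * ip (E n) f * G n : ℝ) : ℂ) =
      ∑' n, ∑' k, g k * cv0_T (wts a n₀) (fun n => fc (E n)) (fc f) n k := by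
  rw [Complex.ofReal_tsum]
  refine tsum_congr fun n => ?_
  rw [Complex.ofReal_mul, Complex.ofReal_mul, ip_eq (IsF_fc (hE n)) (IsF_fc hf), hG n, ← tsum_mul_left]
  refine tsum_congr fun k => ?_
  unfold cv0_T
  push_cast
  ring

/-- TARGET 2 -/
theorem opA_series {a C₁ C₂ : ℝ} (ha : 0 ≤ a) {n₀ : ℕ} {E : ℕ → Pt → ℝ}
    (hE : ∀ n, Sm (E n)) (he : Band C₁ C₂ n₀ fun n => fc (E n)) {f : Pt → ℝ} (hf : Sm f) :
    IsF (Aop (wts a n₀) (fun n => fc (E n)) (fc f)) (opA (wts a n₀) E f) ∧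
    (∀ x, d1 (opA (wts a n₀) E f) x = ∑' n, wts a n₀ n * ip (E n) f * d1 (E n) x) ∧
    (∀ x, d2 (opA (wts a n₀) E f) x = ∑' n, wts a n₀ n * ip (E n) f * d2 (E n) x) := by
  have hz := RD_fc hf
  have hmain : IsF (Aop (wts a n₀) (fun n => fc (E n)) (fc f)) (opA (wts a n₀) E f) := by
    refine ⟨cv0_RD ha he hz, fun x => ?_⟩
    unfold opA
    rw [cv0_side hE hf (fun n => E n x) (fun k => ex k x) (fun n => by
      rw [(IsF_fc (hE n)).2 x]
      exact tsum_congr fun k => mul_comm _ _)]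
    rw [← cv0_exch ha he hz (fun k => ex k x) (fun k => by
      rw [cv0_norm_ex]; exact cv0_one_le_br k)]
    exact tsum_congr fun k => mul_comm _ _
  refine ⟨hmain, fun x => ?_, fun x => ?_⟩
  · have h1 := hmain.d1.2 x
    have h2 := cv0_side (a := a) (n₀ := n₀) hE hf (fun n => d1 (E n) x)
      (fun k => Complex.I * k.1 * ex k x) (fun n => by
        rw [(IsF_fc (hE n)).d1.2 x]
        exact tsum_congr fun k => by ring)
    rw [← cv0_exch ha he hz (fun k => Complex.I * k.1 * ex k x) (fun k => by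
      rw [norm_mul, norm_mul, cv0_norm_ex, Complex.norm_I, one_mul, mul_one, Complex.norm_intCast]
      unfold br
      linarith [(cv0_abs_le_len k).1])] at h2
    rw [← Complex.ofReal_inj, h1, h2]
    exact tsum_congr fun k => by ring
  · have h1 := hmain.d2.2 x
    have h2 := cv0_side (a := a) (n₀ := n₀) hE hf (fun n => d2 (E n) x)
      (fun k => Complex.I * k.2 * ex k x) (fun n => by
        rw [(IsF_fc (hE n)).d2.2 x]
        exact tsum_congr fun k => by ring)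
    rw [← cv0_exch ha he hz (fun k => Complex.I * k.2 * ex k x) (fun k => by
      rw [norm_mul, norm_mul, cv0_norm_ex, Complex.norm_I, one_mul, mul_one, Complex.norm_intCast]
      unfold br
      linarith [(cv0_abs_le_len k).2])] at h2
    rw [← Complex.ofReal_inj, h1, h2]
    exact tsum_congr fun k => by ring

end H706.JCV0

namespace H706

alias mult_series := JCV0.mult_series
alias opA_series := JCV0.opA_series

end H706
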