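import Pool.Agent.Helper706_SQG.Defs2
import Pool.Agent.Helper706_SQG.FA

/-!
JOB L1 (MP_96bed6_an, helper706).  Elementary inequalities for families on `ℤ × ℤ`.

PROOF.  1. Weights. Let `m = k - l`. `|cr k l| = |m × l| ≤ |m| |l|` and `≤ |m| |k|`;
`||k| - |l|| ≤ |m|`. If `|m| ≤ max(|k|,|l|)/2`, the weights `br k, br l` are within a factor `2` and
`|br k^{2p} - br l^{2p}| ≤ 2p max^{2p-1} |m|`, so the product is `≤ 2p |m|² max^{2p} ≤ C br m² br k^p br l^p`.
Otherwise, if say `|k| ≥ |l|`, `|br k^{2p} - br l^{2p}| ≤ br k^{2p} ≤ 2^p br k^p br m^p` and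
`|cr k l| ≤ br m br l`.
2. For fixed `l` resp. `m = k - l` resp. `k`, Cauchy-Schwarz in the other variable.
3. `len k^{2α}` absorbs `br k^{2β}`, `β < α`, up to a constant.
4. `nl2`: `|cr k l| ≤ br (k-l) br l` and `br k ≤ br (k-l) br l`; dominated by a product of two
summable families.
5. Antisymmetry: exchange `k` and `l`, `cr l k = - cr k l`, `φ(l-k) = conj φ(k-l)`; the double sum
converges absolutely.
-/

set_option autoImplicit false
open Set Filter Topology MeasureTheory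
open scoped ComplexConjugate ContDiff

namespace H706.JL1

/-! helper lemmas -/

theorem len_nonneg (k : Fr) : 0 ≤ len k := Real.sqrt_nonneg _

theorem one_le_br (k : Fr) : 1 ≤ br k := by
  have := len_nonneg k
  unfold br; linarith

theorem br_pos (k : Fr) : 0 < br k := lt_of_lt_of_le one_pos (one_le_br k)

theorem len_sq (k : Fr) : len k ^ 2 = (k.1 : ℝ) ^ 2 + (k.2 : ℝ) ^ 2 :=
  Real.sq_sqrt (by positivity)

theorem len_neg (k : Fr) : len (-k) = len k := by
  unfold len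
  congr 1
  simp

theorem br_neg (k : Fr) : br (-k) = br k := by unfold br; rw [len_neg]

theorem abs_cross_le (a b c d : ℝ) : |a * d - b * c| ≤
    Real.sqrt (a ^ 2 + b ^ 2) * Real.sqrt (c ^ 2 + d ^ 2) := by
  rw [← Real.sqrt_mul (by positivity)]
  apply Real.abs_le_sqrt
  nlinarith [sq_nonneg (a * c + b * d)]

theorem dot_le (a b c d : ℝ) : a * c + b * d ≤
    Real.sqrt (a ^ 2 + b ^ 2) * Real.sqrt (c ^ 2 + d ^ 2) := by
  rw [← Real.sqrt_mul (by positivity)]
  apply Real.le_sqrt_of_sq_le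
  nlinarith [sq_nonneg (a * d - b * c)]

theorem len_add_le (k l : Fr) : len (k + l) ≤ len k + len l := by
  have h0 : 0 ≤ len k + len l := add_nonneg (len_nonneg k) (len_nonneg l)
  have h1 := dot_le (k.1 : ℝ) k.2 l.1 l.2
  have h2 : (k.1 : ℝ) * l.1 + k.2 * l.2 ≤ len k * len l := h1
  refine Real.sqrt_le_iff.2 ⟨h0, ?_⟩
  have e1 := len_sq k
  have e2 := len_sq l
  have e3 : (((k + l).1 : ℤ) : ℝ) = k.1 + l.1 := by simp
  have e4 : (((k + l).2 : ℤ) : ℝ) = k.2 + l.2 := by simp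
  rw [e3, e4]
  nlinarith

theorem cr_sub (k l : Fr) : cr k l = cr (k - l) l := by
  unfold cr
  simp only [Prod.fst_sub, Prod.snd_sub]
  ring

theorem cr_swap (k l : Fr) : cr l k = -cr k l := by
  unfold cr; ring

theorem abs_cr_le (k l : Fr) : |(cr k l : ℝ)| ≤ len k * len l := by
  have := abs_cross_le (k.1 : ℝ) k.2 l.1 l.2
  unfold cr
  push_cast
  exact this

theorem abs_cr_le1 (k l : Fr) : |(cr k l : ℝ)| ≤ len (k - l) * len l := by
  rw [cr_sub]; exact abs_cr_le _ _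

theorem len_sub_comm (k l : Fr) : len (k - l) = len (l - k) := by
  rw [← neg_sub l k, len_neg]

theorem br_sub_comm (k l : Fr) : br (k - l) = br (l - k) := by
  rw [← neg_sub l k, br_neg]

theorem abs_cr_le2 (k l : Fr) : |(cr k l : ℝ)| ≤ len (k - l) * len k := by
  have h := abs_cr_le1 l k
  have h2 : cr l k = - cr k l := cr_swap k l
  rw [h2] at h
  push_cast at h
  rw [abs_neg] at h
  rw [len_sub_comm]
  exact h

theorem abs_cr_le_br (k l : Fr) : |(cr k l : ℝ)| ≤ br (k - l) * br l := by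
  refine (abs_cr_le1 k l).trans ?_
  have h1 := len_nonneg (k - l)
  have h2 := len_nonneg l
  unfold br
  nlinarith

theorem len_le_add (k l : Fr) : len k ≤ len (k - l) + len l := by
  have := len_add_le (k - l) l
  rwa [sub_add_cancel] at this

theorem br_le_add (k l : Fr) : br k ≤ br l + len (k - l) := by
  have := len_le_add k l
  unfold br; linarith

theorem br_le_mul (k l : Fr) : br k ≤ br (k - l) * br l := by
  have := len_le_add k l
  have h1 := len_nonneg (k - l)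
  have h2 := len_nonneg l
  unfold br
  nlinarith

theorem pow_diff_le (a b : ℝ) (hb : 0 ≤ b) (hab : b ≤ a) (n : ℕ) :
    a ^ n - b ^ n ≤ n * a ^ (n - 1) * (a - b) := by
  have ha : 0 ≤ a := hb.trans hab
  have h := (Commute.all a b).geom_sum₂_mul n
  rw [← h]
  apply mul_le_mul_of_nonneg_right _ (by linarith)
  calc ∑ i ∈ Finset.range n, a ^ i * b ^ (n - 1 - i) ≤ ∑ i ∈ Finset.range n, a ^ (n - 1) := by
        apply Finset.sum_le_sum
        intro i hi
        have hi' : i ≤ n - 1 := by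
          have := Finset.mem_range.1 hi
          omega
        calc a ^ i * b ^ (n - 1 - i) ≤ a ^ i * a ^ (n - 1 - i) := by
              apply mul_le_mul_of_nonneg_left _ (by positivity)
              exact pow_le_pow_left₀ hb hab _
          _ = a ^ (n - 1) := by rw [← pow_add]; congr 1; omega
    _ = n * a ^ (n - 1) := by simp

theorem weight_aux (p : ℕ) (hp : 1 ≤ p) (a b m μ c : ℝ) (hb : 1 ≤ b) (hab : b ≤ a) (hμ : 0 ≤ μ)
    (hm : μ + 1 = m) (h1 : a ≤ b + μ) (hc : 0 ≤ c) (hc1 : c ≤ μ * b) :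
    (a ^ (2 * p) - b ^ (2 * p)) * c ≤ (2 * p * 2 ^ p) * (m ^ 2 * a ^ p * b ^ p +
      m ^ (p + 1) * (b * a ^ p)) := by
  have hb0 : 0 ≤ b := by linarith
  have ha0 : 0 ≤ a := by linarith
  have hm0 : 0 ≤ m := by linarith
  have hp1 : (1 : ℝ) ≤ p := by exact_mod_cast hp
  by_cases hcase : a ≤ 2 * b
  · have e1 : a ^ (2 * p) - b ^ (2 * p) ≤ (2 * p : ℝ) * a ^ (2 * p - 1) * μ := by
      refine (pow_diff_le a b hb0 hab (2 * p)).trans ?_
      push_cast
      apply mul_le_mul_of_nonneg_left (by linarith) (by positivity)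
    have e2 : (a ^ (2 * p) - b ^ (2 * p)) * c ≤ (2 * p : ℝ) * a ^ (2 * p - 1) * μ * (μ * b) := by
      apply mul_le_mul e1 hc1 hc (by positivity)
    have e3 : a ^ (2 * p - 1) * b ≤ a ^ (2 * p) := by
      calc a ^ (2 * p - 1) * b ≤ a ^ (2 * p - 1) * a := by
            apply mul_le_mul_of_nonneg_left hab (by positivity)
        _ = a ^ (2 * p) := by
            rw [← pow_succ]; congr 1; omega
    have e4 : a ^ (2 * p) ≤ 2 ^ p * (a ^ p * b ^ p) := by
      calc a ^ (2 * p) = a ^ p * a ^ p := by rw [two_mul, pow_add]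
        _ ≤ a ^ p * (2 * b) ^ p := by
            apply mul_le_mul_of_nonneg_left (pow_le_pow_left₀ ha0 hcase _) (by positivity)
        _ = _ := by rw [mul_pow]; ring
    have e5 : μ ^ 2 ≤ m ^ 2 := pow_le_pow_left₀ hμ (by linarith) 2
    calc (a ^ (2 * p) - b ^ (2 * p)) * c ≤ (2 * p : ℝ) * a ^ (2 * p - 1) * μ * (μ * b) := e2
      _ = (2 * p : ℝ) * μ ^ 2 * (a ^ (2 * p - 1) * b) := by ring
      _ ≤ (2 * p : ℝ) * m ^ 2 * (2 ^ p * (a ^ p * b ^ p)) := by
          apply mul_le_mul _ (e3.trans e4) (by positivity) (by positivity)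
          apply mul_le_mul_of_nonneg_left e5 (by positivity)
      _ = (2 * p * 2 ^ p) * (m ^ 2 * a ^ p * b ^ p) := by ring
      _ ≤ _ := by
          apply mul_le_mul_of_nonneg_left _ (by positivity)
          have : 0 ≤ m ^ (p + 1) * (b * a ^ p) := by positivity
          linarith
  · push Not at hcase
    have e0 : a ≤ 2 * m := by linarith
    have e1 : a ^ (2 * p) - b ^ (2 * p) ≤ a ^ p * (2 * m) ^ p := by
      calc a ^ (2 * p) - b ^ (2 * p) ≤ a ^ (2 * p) := by
            have : 0 ≤ b ^ (2 * p) := by positivity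
            linarith
        _ = a ^ p * a ^ p := by rw [two_mul, pow_add]
        _ ≤ a ^ p * (2 * m) ^ p := by
            apply mul_le_mul_of_nonneg_left (pow_le_pow_left₀ ha0 e0 _) (by positivity)
    have e2 : c ≤ m * b := hc1.trans (mul_le_mul_of_nonneg_right (by linarith) hb0)
    calc (a ^ (2 * p) - b ^ (2 * p)) * c ≤ a ^ p * (2 * m) ^ p * (m * b) := by
          apply mul_le_mul e1 e2 hc (by positivity)
      _ = 2 ^ p * (m ^ (p + 1) * (b * a ^ p)) := by rw [mul_pow]; ring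
      _ ≤ (2 * p * 2 ^ p) * (m ^ (p + 1) * (b * a ^ p)) := by
          apply mul_le_mul_of_nonneg_right _ (by positivity)
          have : (0 : ℝ) < 2 ^ p := by positivity
          nlinarith
      _ ≤ _ := by
          apply mul_le_mul_of_nonneg_left _ (by positivity)
          have : 0 ≤ m ^ 2 * a ^ p * b ^ p := by positivity
          linarith

/-- TARGET 1 -/
theorem weight_ineq (p : ℕ) (hp : 1 ≤ p) : ∃ C : ℝ, 0 ≤ C ∧ ∀ k l : Fr,
    |br k ^ (2 * p) - br l ^ (2 * p)| * |(cr k l : ℝ)| ≤ C * (br (k - l) ^ 2 * br k ^ p * br l ^ p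
      + br (k - l) ^ (p + 1) * (br l * br k ^ p + br k * br l ^ p)) := by
  refine ⟨2 * p * 2 ^ p, by positivity, ?_⟩
  have key : ∀ k l : Fr, br l ≤ br k →
      |br k ^ (2 * p) - br l ^ (2 * p)| * |(cr k l : ℝ)| ≤ (2 * p * 2 ^ p) *
      (br (k - l) ^ 2 * br k ^ p * br l ^ p
      + br (k - l) ^ (p + 1) * (br l * br k ^ p + br k * br l ^ p)) := by
    intro k l hkl
    have hpos : 0 ≤ br k ^ (2 * p) - br l ^ (2 * p) :=
      sub_nonneg.2 (pow_le_pow_left₀ (br_pos l).le hkl _)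
    rw [abs_of_nonneg hpos]
    have h1 := weight_aux p hp (br k) (br l) (br (k - l)) (len (k - l)) |(cr k l : ℝ)| (one_le_br l)
      hkl (len_nonneg _) (by unfold br; ring) (br_le_add k l) (abs_nonneg _) (by
        refine (abs_cr_le1 k l).trans ?_
        apply mul_le_mul_of_nonneg_left _ (len_nonneg _)
        unfold br; linarith)
    refine h1.trans ?_
    apply mul_le_mul_of_nonneg_left _ (by positivity)
    have h2 : 0 ≤ br (k - l) ^ (p + 1) * (br k * br l ^ p) := by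
      have := br_pos k
      have := br_pos l
      have := br_pos (k - l)
      positivity
    nlinarith
  intro k l
  rcases le_total (br l) (br k) with h | h
  · exact key k l h
  · have h1 := key l k h
    rw [abs_sub_comm, cr_swap k l] at h1
    push_cast at h1
    rw [abs_neg, br_sub_comm l k] at h1
    refine h1.trans (le_of_eq ?_)
    ring

theorem cs_shift {F H : Fr → ℝ} (hF : ∀ k, 0 ≤ F k) (hH : ∀ k, 0 ≤ H k)
    (sF : Summable fun k => F k ^ 2) (sH : Summable fun k => H k ^ 2) (l : Fr) :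
    Summable (fun k => F (k - l) * H k) ∧
    ∑' k, F (k - l) * H k ≤ Real.sqrt (∑' k, F k ^ 2) * Real.sqrt (∑' k, H k ^ 2) := by
  have sF' : Summable fun k => F (k - l) ^ 2 := by
    have := (Equiv.subRight l).summable_iff.2 sF
    exact this
  have tF : ∑' k, F (k - l) ^ 2 = ∑' k, F k ^ 2 := (Equiv.subRight l).tsum_eq (fun k => F k ^ 2)
  have hs : Summable (fun k => F (k - l) * H k) := by
    refine Summable.of_nonneg_of_le (fun k => mul_nonneg (hF _) (hH _)) (fun k => ?_) (sF'.add sH)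
    have h1 : 0 ≤ F (k - l) ^ 2 := by positivity
    have h2 : 0 ≤ H k ^ 2 := by positivity
    nlinarith [sq_nonneg (F (k - l) - H k)]
  refine ⟨hs, ?_⟩
  refine hs.tsum_le_of_sum_le fun s => ?_
  have h1 := Finset.sum_mul_sq_le_sq_mul_sq s (fun k => F (k - l)) H
  have h2 : ∑ k ∈ s, F (k - l) ^ 2 ≤ ∑' k, F k ^ 2 := by
    rw [← tF]
    exact sF'.sum_le_tsum s (fun k _ => by positivity)
  have h3 : ∑ k ∈ s, H k ^ 2 ≤ ∑' k, H k ^ 2 := sH.sum_le_tsum s (fun k _ => by positivity)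
  have h4 : 0 ≤ ∑' k, F k ^ 2 := tsum_nonneg fun k => by positivity
  have h5 : 0 ≤ ∑ k ∈ s, H k ^ 2 := Finset.sum_nonneg fun k _ => by positivity
  rw [← Real.sqrt_mul h4]
  apply Real.le_sqrt_of_sq_le
  refine h1.trans ?_
  exact mul_le_mul h2 h3 h5 h4

/-- TARGET 2 -/
theorem tri_a {F G H : Fr → ℝ} (hF : ∀ k, 0 ≤ F k) (hG : ∀ k, 0 ≤ G k) (hH : ∀ k, 0 ≤ H k)
    (sF : Summable fun k => F k ^ 2) (sG : Summable G) (sH : Summable fun k => H k ^ 2) :
    Summable (fun q : Fr × Fr => F (q.1 - q.2) * G q.2 * H q.1) ∧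
    ∑' q : Fr × Fr, F (q.1 - q.2) * G q.2 * H q.1
      ≤ Real.sqrt (∑' k, F k ^ 2) * (∑' k, G k) * Real.sqrt (∑' k, H k ^ 2) := by
  set M : ℝ := Real.sqrt (∑' k, F k ^ 2) * Real.sqrt (∑' k, H k ^ 2) with hM
  have hnn : ∀ q : Fr × Fr, 0 ≤ F (q.2 - q.1) * G q.1 * H q.2 := fun q =>
    mul_nonneg (mul_nonneg (hF _) (hG _)) (hH _)
  have hrow : ∀ l : Fr, Summable (fun k => F (k - l) * G l * H k) := fun l => by
    refine ((cs_shift hF hH sF sH l).1.mul_left (G l)).congr fun k => ?_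
    ring
  have hrowle : ∀ l : Fr, ∑' k, F (k - l) * G l * H k ≤ G l * M := fun l => by
    have : ∑' k, F (k - l) * G l * H k = G l * ∑' k, F (k - l) * H k := by
      rw [← tsum_mul_left]
      exact tsum_congr fun k => by ring
    rw [this]
    exact mul_le_mul_of_nonneg_left (cs_shift hF hH sF sH l).2 (hG l)
  have hrownn : ∀ l : Fr, 0 ≤ ∑' k, F (k - l) * G l * H k := fun l =>
    tsum_nonneg fun k => mul_nonneg (mul_nonneg (hF _) (hG _)) (hH _)
  have hcol : Summable fun l => ∑' k, F (k - l) * G l * H k :=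
    Summable.of_nonneg_of_le hrownn hrowle (sG.mul_right M)
  have hs : Summable (fun q : Fr × Fr => F (q.2 - q.1) * G q.1 * H q.2) :=
    (summable_prod_of_nonneg hnn).2 ⟨hrow, hcol⟩
  have hs2 : Summable (fun q : Fr × Fr => F (q.1 - q.2) * G q.2 * H q.1) :=
    (Equiv.prodComm Fr Fr).summable_iff.2 hs
  refine ⟨hs2, ?_⟩
  have ht : ∑' q : Fr × Fr, F (q.1 - q.2) * G q.2 * H q.1 =
      ∑' q : Fr × Fr, F (q.2 - q.1) * G q.1 * H q.2 :=
    (Equiv.prodComm Fr Fr).tsum_eq (fun q : Fr × Fr => F (q.2 - q.1) * G q.1 * H q.2)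
  rw [ht, hs.tsum_prod' hrow]
  calc ∑' l, ∑' k, F (k - l) * G l * H k ≤ ∑' l, G l * M :=
        hcol.tsum_le_tsum hrowle (sG.mul_right M)
    _ = (∑' l, G l) * M := tsum_mul_right
    _ = _ := by rw [hM]; ring

/-- The change of variables `(k, l) ↦ (k, k - l)`. -/
def shEq : Fr × Fr ≃ Fr × Fr where
  toFun q := (q.1, q.1 - q.2)
  invFun q := (q.1, q.1 - q.2)
  left_inv q := by simp
  right_inv q := by simp

/-- TARGET 3 -/
theorem tri_b {F G H : Fr → ℝ} (hF : ∀ k, 0 ≤ F k) (hG : ∀ k, 0 ≤ G k) (hH : ∀ k, 0 ≤ H k)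
    (sF : Summable fun k => F k ^ 2) (sG : Summable G) (sH : Summable fun k => H k ^ 2) :
    Summable (fun q : Fr × Fr => G (q.1 - q.2) * F q.2 * H q.1) ∧
    ∑' q : Fr × Fr, G (q.1 - q.2) * F q.2 * H q.1
      ≤ Real.sqrt (∑' k, F k ^ 2) * (∑' k, G k) * Real.sqrt (∑' k, H k ^ 2) := by
  obtain ⟨h1, h2⟩ := tri_a hF hG hH sF sG sH
  have e : (fun q : Fr × Fr => G (q.1 - q.2) * F q.2 * H q.1) =
      (fun q : Fr × Fr => F (q.1 - q.2) * G q.2 * H q.1) ∘ shEq := by
    funext q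
    simp only [shEq, Function.comp_apply, Equiv.coe_fn_mk, sub_sub_cancel]
    ring
  rw [e]
  exact ⟨shEq.summable_iff.2 h1,
    (shEq.tsum_eq (fun q : Fr × Fr => F (q.1 - q.2) * G q.2 * H q.1)).trans_le h2⟩

/-- TARGET 4 -/
theorem tri_c {F G H : Fr → ℝ} (hF : ∀ k, 0 ≤ F k) (hG : ∀ k, 0 ≤ G k) (hH : ∀ k, 0 ≤ H k)
    (sF : Summable fun k => F k ^ 2) (sG : Summable G) (sH : Summable fun k => H k ^ 2) :
    Summable (fun q : Fr × Fr => F (q.1 - q.2) * H q.2 * G q.1) ∧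
    ∑' q : Fr × Fr, F (q.1 - q.2) * H q.2 * G q.1
      ≤ Real.sqrt (∑' k, F k ^ 2) * (∑' k, G k) * Real.sqrt (∑' k, H k ^ 2) := by
  have sF' : Summable fun k => F (-k) ^ 2 := (Equiv.neg Fr).summable_iff.2 sF
  have tF : ∑' k, F (-k) ^ 2 = ∑' k, F k ^ 2 := (Equiv.neg Fr).tsum_eq (fun k => F k ^ 2)
  obtain ⟨h1, h2⟩ := tri_a (F := fun k => F (-k)) (fun k => hF _) hG hH sF' sG sH
  have e : (fun q : Fr × Fr => F (q.1 - q.2) * H q.2 * G q.1) =
      (fun q : Fr × Fr => F (-(q.1 - q.2)) * G q.2 * H q.1) ∘ (Equiv.prodComm Fr Fr) := by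
    funext q
    simp only [Function.comp_apply, Equiv.prodComm_apply, Prod.fst_swap, Prod.snd_swap, neg_sub]
    ring
  rw [e]
  rw [tF] at h2
  exact ⟨(Equiv.prodComm Fr Fr).summable_iff.2 h1, ((Equiv.prodComm Fr Fr).tsum_eq
    (fun q : Fr × Fr => F (-(q.1 - q.2)) * G q.2 * H q.1)).trans_le h2⟩

/-- TARGET 5 -/
theorem absorb {α β η : ℝ} (hβ : 0 < β) (hαβ : β < α) (hη : 0 < η) : ∃ C : ℝ, 0 ≤ C ∧ ∀ k : Fr,
    br k ^ (2 * β) ≤ η * len k ^ (2 * α) + C := by
  have hd : 0 < 2 * (α - β) := by linarith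
  set A : ℝ := 2 ^ (2 * β) / η with hA
  have hA0 : 0 < A := by positivity
  set S : ℝ := max 1 (A ^ (1 / (2 * (α - β)))) with hS
  have hS1 : 1 ≤ S := le_max_left _ _
  refine ⟨(1 + S) ^ (2 * β), by positivity, fun k => ?_⟩
  have hs := len_nonneg k
  rcases le_total (len k) S with h | h
  · have h1 : br k ^ (2 * β) ≤ (1 + S) ^ (2 * β) := by
      apply Real.rpow_le_rpow (br_pos k).le _ (by linarith)
      unfold br; linarith
    have h2 : 0 ≤ η * len k ^ (2 * α) := by positivity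
    linarith
  · have hs1 : 1 ≤ len k := hS1.trans h
    have hs0 : 0 < len k := by linarith
    have h1 : br k ≤ 2 * len k := by unfold br; linarith
    have h2 : br k ^ (2 * β) ≤ 2 ^ (2 * β) * len k ^ (2 * β) := by
      rw [← Real.mul_rpow (by norm_num) hs]
      exact Real.rpow_le_rpow (br_pos k).le h1 (by linarith)
    have h3 : A ≤ len k ^ (2 * (α - β)) := by
      have h4 : A ^ (1 / (2 * (α - β))) ≤ len k := (le_max_right _ _).trans h
      calc A = (A ^ (1 / (2 * (α - β)))) ^ (2 * (α - β)) := by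
            rw [← Real.rpow_mul hA0.le, one_div, inv_mul_cancel₀ hd.ne', Real.rpow_one]
        _ ≤ _ := Real.rpow_le_rpow (by positivity) h4 hd.le
    have h5 : 2 ^ (2 * β) ≤ η * len k ^ (2 * (α - β)) := by
      rw [hA, div_le_iff₀ hη] at h3
      linarith
    have h6 : 2 ^ (2 * β) * len k ^ (2 * β) ≤ η * len k ^ (2 * α) := by
      calc 2 ^ (2 * β) * len k ^ (2 * β) ≤ η * len k ^ (2 * (α - β)) * len k ^ (2 * β) :=
            mul_le_mul_of_nonneg_right h5 (by positivity)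
        _ = η * len k ^ (2 * α) := by
            rw [mul_assoc, ← Real.rpow_add hs0]
            congr 2
            ring
    have h7 : (0 : ℝ) ≤ (1 + S) ^ (2 * β) := by positivity
    linarith

theorem term_bound {φ z : Fr → ℂ} {A D : ℝ} (N : ℕ) (hA : ∀ k, br k ^ (N + 5) * ‖φ k‖ ≤ A)
    (hD : ∀ k, br k ^ (N + 5) * ‖z k‖ ≤ D) (k l : Fr) :
    br k ^ N * ‖(cr k l : ℂ) * φ (k - l) * z l‖ ≤ A * D * (br l ^ 4)⁻¹ := by
  have hA0 : 0 ≤ A := le_trans (by have := br_pos 0; positivity) (hA 0)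
  have b1 := br_pos k
  have b2 := br_pos l
  have b3 := br_pos (k - l)
  have n1 : ‖(cr k l : ℂ)‖ ≤ br (k - l) * br l := by
    have h := abs_cr_le_br k l
    have h2 : ‖(cr k l : ℂ)‖ = |(cr k l : ℝ)| := Complex.norm_intCast _
    rw [h2]; exact h
  have e1 : br k ^ N ≤ br (k - l) ^ N * br l ^ N := by
    rw [← mul_pow]
    exact pow_le_pow_left₀ b1.le (br_le_mul k l) N
  have e2 : br (k - l) ^ (N + 1) * ‖φ (k - l)‖ ≤ A := by
    refine le_trans ?_ (hA (k - l))
    apply mul_le_mul_of_nonneg_right _ (norm_nonneg _)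
    exact pow_le_pow_right₀ (one_le_br _) (by omega)
  have e3 : br l ^ (N + 1) * ‖z l‖ ≤ D * (br l ^ 4)⁻¹ := by
    rw [← div_eq_mul_inv, le_div_iff₀ (by positivity)]
    refine le_trans (le_of_eq ?_) (hD l)
    ring
  calc br k ^ N * ‖(cr k l : ℂ) * φ (k - l) * z l‖
      = br k ^ N * (‖(cr k l : ℂ)‖ * ‖φ (k - l)‖ * ‖z l‖) := by rw [norm_mul, norm_mul]
    _ ≤ (br (k - l) ^ N * br l ^ N) * ((br (k - l) * br l) * ‖φ (k - l)‖ * ‖z l‖) := by
        gcongr
    _ = (br (k - l) ^ (N + 1) * ‖φ (k - l)‖) * (br l ^ (N + 1) * ‖z l‖) := by ring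
    _ ≤ A * (D * (br l ^ 4)⁻¹) := mul_le_mul e2 e3 (by positivity) hA0
    _ = _ := by ring

/-- TARGET 7: a uniform version of the previous one. -/
theorem nl2_bound (N : ℕ) : ∃ C : ℝ, 0 ≤ C ∧ ∀ (φ z : Fr → ℂ) (A D : ℝ),
    (∀ k, br k ^ (N + 5) * ‖φ k‖ ≤ A) → (∀ k, br k ^ (N + 5) * ‖z k‖ ≤ D) →
    (∀ k, Summable fun l => (cr k l : ℂ) * φ (k - l) * z l) ∧
    ∀ k, br k ^ N * ‖nl2 φ z k‖ ≤ C * A * D := by
  refine ⟨∑' k : Fr, (br k ^ 4)⁻¹, tsum_nonneg fun k => ?_, fun φ z A D hA hD => ?_⟩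
  · have := br_pos k
    positivity
  have hsum : ∀ k, Summable fun l => ‖(cr k l : ℂ) * φ (k - l) * z l‖ := by
    intro k
    refine Summable.of_nonneg_of_le (fun l => norm_nonneg _) (fun l => ?_)
      (summable_br.mul_left (A * D))
    refine le_trans ?_ (term_bound N hA hD k l)
    have : 1 ≤ br k ^ N := one_le_pow₀ (one_le_br k)
    nlinarith [norm_nonneg ((cr k l : ℂ) * φ (k - l) * z l)]
  refine ⟨fun k => (hsum k).of_norm, fun k => ?_⟩
  have hk : 0 ≤ br k ^ N := by have := br_pos k; positivity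
  calc br k ^ N * ‖nl2 φ z k‖ ≤ br k ^ N * ∑' l, ‖(cr k l : ℂ) * φ (k - l) * z l‖ :=
        mul_le_mul_of_nonneg_left (norm_tsum_le_tsum_norm (hsum k)) hk
    _ = ∑' l, br k ^ N * ‖(cr k l : ℂ) * φ (k - l) * z l‖ := tsum_mul_left.symm
    _ ≤ ∑' l, A * D * (br l ^ 4)⁻¹ :=
        ((hsum k).mul_left _).tsum_le_tsum (fun l => term_bound N hA hD k l)
          (summable_br.mul_left (A * D))
    _ = (A * D) * ∑' l : Fr, (br l ^ 4)⁻¹ := tsum_mul_left
    _ = _ := by ring

/-- TARGET 6 -/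
theorem nl2_RD {φ z : Fr → ℂ} (hφ : RD φ) (hz : RD z) : RD (nl2 φ z) := by
  intro N
  obtain ⟨C, -, h⟩ := nl2_bound N
  obtain ⟨A, hA⟩ := hφ (N + 5)
  obtain ⟨D, hD⟩ := hz (N + 5)
  exact ⟨C * A * D, (h φ z A D hA hD).2⟩

/-- TARGET 8 -/
theorem antisymm {φ z : Fr → ℂ} (hφ : RD φ) (hz : RD z) (hh : Herm φ) :
    (∑' k, conj (z k) * nl2 φ z k).re = 0 := by
  obtain ⟨A, hA⟩ := hφ 5
  obtain ⟨D, hD⟩ := hz 5
  have hA' : ∀ k, br k ^ (0 + 5) * ‖φ k‖ ≤ A := by simpa using hA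
  have hD' : ∀ k, br k ^ (0 + 5) * ‖z k‖ ≤ D := by simpa using hD
  have hA0 : 0 ≤ A := le_trans (by have := br_pos 0; positivity) (hA 0)
  have hD0 : 0 ≤ D := le_trans (by have := br_pos 0; positivity) (hD 0)
  set a : Fr → Fr → ℂ := fun k l => conj (z k) * ((cr k l : ℂ) * φ (k - l) * z l) with ha
  have hzs : Summable fun k => ‖z k‖ := by
    have := RD_summable hz 0
    simpa using this
  have hsum : Summable (Function.uncurry a) := by
    have h1 : Summable fun q : Fr × Fr => ‖z q.1‖ * (A * D * (br q.2 ^ 4)⁻¹) :=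
      hzs.mul_of_nonneg (summable_br.mul_left (A * D)) (fun k => norm_nonneg _)
        (fun l => by have := br_pos l; positivity)
    refine Summable.of_norm_bounded h1 ?_
    rintro ⟨k, l⟩
    have h2 := term_bound 0 hA' hD' k l
    rw [pow_zero, one_mul] at h2
    change ‖conj (z k) * ((cr k l : ℂ) * φ (k - l) * z l)‖ ≤ ‖z k‖ * (A * D * (br l ^ 4)⁻¹)
    rw [norm_mul, RCLike.norm_conj]
    exact mul_le_mul_of_nonneg_left h2 (norm_nonneg _)
  have hS : ∑' k, conj (z k) * nl2 φ z k = ∑' k, ∑' l, a k l := by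
    refine tsum_congr fun k => ?_
    rw [ha]
    simp only [nl2]
    rw [tsum_mul_left]
  have hconj : ∀ k l, conj (a k l) = - a l k := by
    intro k l
    simp only [ha, map_mul, Complex.conj_conj]
    have h1 : conj (φ (k - l)) = φ (l - k) := by
      rw [← hh (k - l), neg_sub]
    have h2 : conj ((cr k l : ℂ)) = (cr k l : ℂ) := by simp
    rw [h1, h2, cr_swap k l]
    push_cast
    ring
  have hc : conj (∑' k, ∑' l, a k l) = - ∑' k, ∑' l, a k l := by
    rw [Complex.conj_tsum]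
    have h1 : ∀ k, conj (∑' l, a k l) = - ∑' l, a l k := by
      intro k
      rw [Complex.conj_tsum, ← tsum_neg]
      exact tsum_congr fun l => hconj k l
    rw [tsum_congr h1, tsum_neg]
    congr 1
    exact hsum.tsum_comm
  rw [hS]
  have h1 := congrArg Complex.re hc
  rw [Complex.conj_re, Complex.neg_re] at h1
  linarith

end H706.JL1

namespace H706

alias weight_ineq := JL1.weight_ineq
alias tri_a := JL1.tri_a
alias tri_b := JL1.tri_b
alias tri_c := JL1.tri_c
alias absorb := JL1.absorb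
alias nl2_RD := JL1.nl2_RD
alias nl2_bound := JL1.nl2_bound
alias antisymm := JL1.antisymm

end H706
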