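import Pool.Agent.Helper706_SQG.Defs2
import Pool.Agent.Helper706_SQG.CV0
import Pool.Agent.Helper706_SQG.L1

/-!
JOB CV1 (MP_96bed6_an, helper706).  The right hand side of the equation in terms of Fourier coefficients.

PROOF.  With `z = fc f`, `e n = fc (E n)`, `φ = Bop lam .. z`: by `mult_series` (symbols bounded by `1`,
resp. `len^{2α} ≤ br^N`), `opA_series`, `IsF.d1`, `IsF.d2`, linearity of `IsF` (sums):
`vel1 f` has coefficients `-λ(-i k₂/|k|) z + i k₂ (Aop z) = i k₂ φ k`, `vel2 f` has `-i k₁ φ k`,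
`d1 f`, `d2 f` have `i k₁ z`, `i k₂ z`. By `IsF.mul` the coefficients of `vel1 f * d1 f + vel2 f * d2 f`
are `∑_l [i(k-l)₂ i l₁ - i(k-l)₁ i l₂] φ(k-l) z_l = ∑_l ((k-l)₁ l₂ - (k-l)₂ l₁) φ(k-l) z_l`, and
`(k-l) × l = k × l = cr k l`; this is `nl2 φ z k`.
-/

set_option autoImplicit false
open Set Filter Topology MeasureTheory
open scoped ComplexConjugate ContDiff

namespace H706.JCV1

theorem cv_norm_ex (k : Fr) (x : Pt) : ‖ex k x‖ = 1 := by
  unfold ex
  exact Complex.norm_exp_ofReal_mul_I _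

theorem cv_summ {z : Fr → ℂ} (h : RD z) (x : Pt) : Summable fun k => z k * ex k x := by
  refine Summable.of_norm ?_
  have := RD_summable h 0
  simpa [norm_mul, cv_norm_ex] using this

theorem cv_len_nonneg (k : Fr) : 0 ≤ len k := Real.sqrt_nonneg _

theorem cv_br_one (k : Fr) : 1 ≤ br k := by
  unfold br
  linarith [cv_len_nonneg k]

theorem cv_len_neg (k : Fr) : len (-k) = len k := by
  unfold len
  simp

theorem cv_add {z y : Fr → ℂ} {f g : Pt → ℝ} (hf : IsF z f) (hg : IsF y g) :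
    IsF (fun k => z k + y k) (fun x => f x + g x) := by
  refine ⟨?_, ?_⟩
  · intro N
    obtain ⟨C, hC⟩ := hf.1 N
    obtain ⟨D, hD⟩ := hg.1 N
    refine ⟨C + D, fun k => ?_⟩
    have h0 : 0 ≤ br k ^ N := pow_nonneg (by linarith [cv_br_one k]) N
    calc br k ^ N * ‖z k + y k‖ ≤ br k ^ N * (‖z k‖ + ‖y k‖) :=
          mul_le_mul_of_nonneg_left (norm_add_le _ _) h0
      _ = br k ^ N * ‖z k‖ + br k ^ N * ‖y k‖ := by ring
      _ ≤ C + D := add_le_add (hC k) (hD k)
  · intro x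
    have h1 := cv_summ hf.1 x
    have h2 := cv_summ hg.1 x
    push_cast
    rw [hf.2 x, hg.2 x, ← h1.tsum_add h2]
    refine tsum_congr fun k => ?_
    ring

theorem cv_smul {z : Fr → ℂ} {f : Pt → ℝ} (hf : IsF z f) (c : ℝ) :
    IsF (fun k => (c : ℂ) * z k) (fun x => c * f x) := by
  refine ⟨?_, ?_⟩
  · refine hf.1.mul (m := fun _ => (c : ℂ)) (C := |c|) (N := 0) ?_
    intro k
    simp
  · intro x
    push_cast
    rw [hf.2 x, ← tsum_mul_left]
    refine tsum_congr fun k => ?_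
    ring

theorem cv_congr {z y : Fr → ℂ} {f g : Pt → ℝ} (hf : IsF z f) (h : ∀ k, z k = y k)
    (h' : ∀ x, f x = g x) : IsF y g := by
  have e1 : z = y := funext h
  have e2 : f = g := funext h'
  rw [← e1, ← e2]
  exact hf

theorem cv_conv_summ {z y : Fr → ℂ} (hz : RD z) (hy : RD y) (k : Fr) :
    Summable fun l => z (k - l) * y l := by
  obtain ⟨C, hC⟩ := hz 0
  have h1 : Summable fun l => ‖y l‖ := by
    have := RD_summable hy 0
    simpa using this
  refine Summable.of_norm_bounded (h1.mul_left C) ?_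
  intro l
  rw [norm_mul]
  refine mul_le_mul_of_nonneg_right ?_ (norm_nonneg _)
  have := hC (k - l)
  simpa using this

theorem cv_div_le (k : Fr) : |(k.1 : ℝ)| ≤ len k ∧ |(k.2 : ℝ)| ≤ len k := by
  unfold len
  constructor
  · refine Real.abs_le_sqrt ?_
    nlinarith [sq_nonneg (k.2 : ℝ)]
  · refine Real.abs_le_sqrt ?_
    nlinarith [sq_nonneg (k.1 : ℝ)]

theorem cv_r1 {f : Pt → ℝ} (hf : Sm f) :
    IsF (fun k => (-Complex.I * (k.1 : ℂ) / (len k : ℂ)) * fc f k) (riesz1 f) := by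
  refine mult_series (C := 1) (N := 0) ?_ ?_ hf
  · intro k
    have h := (cv_div_le k).1
    have h0 := cv_len_nonneg k
    rw [norm_div, norm_mul, norm_neg, Complex.norm_I, Complex.norm_real, Complex.norm_intCast]
    simp only [one_mul, pow_zero, mul_one, Real.norm_eq_abs, abs_of_nonneg h0]
    exact div_le_one_of_le₀ h h0
  · intro k
    simp only [cv_len_neg]
    simp [map_div₀, map_mul]

theorem cv_r2 {f : Pt → ℝ} (hf : Sm f) :
    IsF (fun k => (-Complex.I * (k.2 : ℂ) / (len k : ℂ)) * fc f k) (riesz2 f) := by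
  refine mult_series (C := 1) (N := 0) ?_ ?_ hf
  · intro k
    have h := (cv_div_le k).2
    have h0 := cv_len_nonneg k
    rw [norm_div, norm_mul, norm_neg, Complex.norm_I, Complex.norm_real, Complex.norm_intCast]
    simp only [one_mul, pow_zero, mul_one, Real.norm_eq_abs, abs_of_nonneg h0]
    exact div_le_one_of_le₀ h h0
  · intro k
    simp only [cv_len_neg]
    simp [map_div₀, map_mul]

theorem cv_fl {f : Pt → ℝ} (hf : Sm f) {s : ℝ} (hs : 0 < s) :
    IsF (fun k => ((len k ^ s : ℝ) : ℂ) * fc f k) (fracLap s f) := by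
  refine mult_series (C := 1) (N := ⌈s⌉₊) ?_ ?_ hf
  · intro k
    have h0 := cv_len_nonneg k
    have h1 := cv_br_one k
    rw [Complex.norm_real, Real.norm_eq_abs, abs_of_nonneg (Real.rpow_nonneg h0 s), one_mul]
    calc len k ^ s ≤ br k ^ s := Real.rpow_le_rpow h0 (by unfold br; linarith) hs.le
      _ ≤ br k ^ ((⌈s⌉₊ : ℕ) : ℝ) := Real.rpow_le_rpow_of_exponent_le h1 (Nat.le_ceil s)
      _ = br k ^ ⌈s⌉₊ := Real.rpow_natCast _ _
  · intro k
    simp only [cv_len_neg]
    exact (Complex.conj_ofReal _).symm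

/-- TARGET -/
theorem rhs_series {lam α κ a C₁ C₂ : ℝ} (hα : 0 < α) (ha : 0 ≤ a) {n₀ : ℕ} {E : ℕ → Pt → ℝ}
    (hE : ∀ n, Sm (E n)) (he : Band C₁ C₂ n₀ fun n => fc (E n)) {f : Pt → ℝ} (hf : Sm f) :
    IsF (rhs α κ (Bop lam (wts a n₀) fun n => fc (E n)) (fc f))
      (fun x => -(vel1 lam (wts a n₀) E f x * d1 f x + vel2 lam (wts a n₀) E f x * d2 f x)
        - κ * fracLap (2 * α) f x) := by
  have hz := IsF_fc hf
  have hA := (opA_series ha hE he hf).1
  set z := fc f with hzdef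
  set A := Aop (wts a n₀) (fun n => fc (E n)) z with hAdef
  set φ := Bop lam (wts a n₀) (fun n => fc (E n)) z with hφdef
  have hφ : ∀ k, φ k = ((lam / len k : ℝ) : ℂ) * z k + A k := fun k => rfl
  have hv1 : IsF (fun k => Complex.I * k.2 * φ k) (vel1 lam (wts a n₀) E f) := by
    refine cv_congr (cv_add (cv_smul (cv_r2 hf) (-lam)) hA.d2) ?_ ?_
    · intro k
      rw [hφ]
      push_cast
      ring
    · intro x
      rfl
  have hv2 : IsF (fun k => -Complex.I * k.1 * φ k) (vel2 lam (wts a n₀) E f) := by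
    refine cv_congr (cv_add (cv_smul (cv_r1 hf) lam) (cv_smul hA.d1 (-1))) ?_ ?_
    · intro k
      rw [hφ]
      push_cast
      ring
    · intro x
      unfold vel2
      ring
  have hp1 := hv1.mul hz.d1
  have hp2 := hv2.mul hz.d2
  have hs1 := fun k => cv_conv_summ hv1.1 hz.d1.1 k
  have hs2 := fun k => cv_conv_summ hv2.1 hz.d2.1 k
  have hfl := cv_fl hf (s := 2 * α) (by linarith)
  refine cv_congr (cv_add (cv_smul (cv_add hp1 hp2) (-1)) (cv_smul hfl (-κ))) ?_ ?_
  · intro k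
    have e1 : (∑' l, Complex.I * ((k - l).2 : ℂ) * φ (k - l) * (Complex.I * (l.1 : ℂ) * z l)) +
        (∑' l, -Complex.I * ((k - l).1 : ℂ) * φ (k - l) * (Complex.I * (l.2 : ℂ) * z l)) =
        nl2 φ z k := by
      rw [← (hs1 k).tsum_add (hs2 k)]
      unfold nl2
      refine tsum_congr fun l => ?_
      have hI : Complex.I * Complex.I = -1 := Complex.I_mul_I
      unfold cr
      have h2 : ((k - l).2 : ℂ) = (k.2 : ℂ) - (l.2 : ℂ) := by
        rw [Prod.snd_sub]; push_cast; ring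
      have h1 : ((k - l).1 : ℂ) = (k.1 : ℂ) - (l.1 : ℂ) := by
        rw [Prod.fst_sub]; push_cast; ring
      rw [h1, h2]
      push_cast
      linear_combination (((k.2 : ℂ) - l.2) * l.1 - ((k.1 : ℂ) - l.1) * l.2) * φ (k - l) * z l * hI
    show ((-1 : ℝ) : ℂ) * ((∑' l, Complex.I * ((k - l).2 : ℂ) * φ (k - l) *
        (Complex.I * (l.1 : ℂ) * z l)) +
        (∑' l, -Complex.I * ((k - l).1 : ℂ) * φ (k - l) * (Complex.I * (l.2 : ℂ) * z l))) +
        ((-κ : ℝ) : ℂ) * (((len k ^ (2 * α) : ℝ) : ℂ) * z k) =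
        -((κ * len k ^ (2 * α) : ℝ) : ℂ) * z k - nl2 φ z k
    rw [e1]
    push_cast
    ring
  · intro x
    ring

end H706.JCV1

namespace H706

alias rhs_series := JCV1.rhs_series

end H706
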