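import Pool.Agent.Helper706_SQG.Defs2
import Pool.Agent.Helper706_SQG.FA

/-!
JOB OB1 (MP_96bed6_an, helper706).  Sobolev bounds for the band-limited operator `A`.

PROOF.  Write `P = 2^(n+n₀)`, `ω = (n+n₀)^{a'}`, `c_n = w_n (2π)² ∑_l conj(e n l) z_l`, `ann_n` for the
annulus `{P ≤ len ≤ C₁ P}`, `Z_n² = ∑_{l∈ann_n} |z_l|²`. There are at most `(2 C₁ P + 1)² ≤ 9 C₁² P²` points in
`ann_n`, so `∑_l |e n l|² ≤ C P^{-4}`, `|c_n| ≤ C ω P³ P^{-2} Z_n`. Each `k` is in at most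
`N₀ = log₂ C₁ + 1` of the annuli, so the sum defining `Aop .. k` has at most `N₀` nonzero terms,
`|Aop k|² ≤ N₀ ∑_n |c_n|² |e n k|²` and
`∑_k (1+|k|²)^{s+1} |Aop k|² ≤ N₀ ∑_n |c_n|² C_s P^{2s+2} P^{-4} ≤ C ∑_n ω² P^{2s} Z_n²`
(on `ann_n`, `1+|k|²` is between `P²` and `2 C₁² P²`). For `l ∈ ann_n`:
`P^{2s} ≤ C_s (1+|l|²)^s` and, as `log(e + len l) ≥ (n+n₀) log 2`,
`ω² ≤ n₀^{-2(a-a')} (n+n₀)^{2a} ≤ C n₀^{-2(a-a')} (log (e + len l))^{2a}`; sum over `n`, overlap `≤ N₀`.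
`RD`: `|c_n| ≤ C_N P^{-N}` for every `N`, `|Aop k| ≤ N₀ max_n |c_n| |e n k|`, `P ≥ len k / C₁`.
The series on the right converges because `z` is rapidly decreasing.
-/

set_option autoImplicit false
open Set Filter Topology MeasureTheory
open scoped ComplexConjugate ContDiff

namespace H706.JOB1

/-! ### auxiliary lemmas -/

theorem OB1_len_nonneg (k : Fr) : 0 ≤ len k := Real.sqrt_nonneg _

theorem OB1_len_sq (k : Fr) : len k ^ 2 = (k.1 : ℝ) ^ 2 + (k.2 : ℝ) ^ 2 :=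
  Real.sq_sqrt (by positivity)

theorem OB1_fst (k : Fr) : |(k.1 : ℝ)| ≤ len k := by
  apply abs_le_of_sq_le_sq _ (OB1_len_nonneg k)
  rw [OB1_len_sq]
  nlinarith [sq_nonneg (k.2 : ℝ)]

theorem OB1_snd (k : Fr) : |(k.2 : ℝ)| ≤ len k := by
  apply abs_le_of_sq_le_sq _ (OB1_len_nonneg k)
  rw [OB1_len_sq]
  nlinarith [sq_nonneg (k.1 : ℝ)]

/-- the annulus -/
noncomputable def OB1_An (C₁ P : ℝ) : Finset Fr :=
  open Classical in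
  ((Finset.Icc (-⌊C₁ * P⌋) ⌊C₁ * P⌋ ×ˢ Finset.Icc (-⌊C₁ * P⌋) ⌊C₁ * P⌋)).filter
    (fun k => P ≤ len k ∧ len k ≤ C₁ * P)

theorem OB1_mem_An (C₁ P : ℝ) (k : Fr) : k ∈ OB1_An C₁ P ↔ P ≤ len k ∧ len k ≤ C₁ * P := by
  classical
  unfold OB1_An
  rw [Finset.mem_filter, Finset.mem_product, Finset.mem_Icc, Finset.mem_Icc]
  constructor
  · exact fun h => h.2
  · intro h
    refine ⟨?_, h⟩
    have h1 := abs_le.mp ((OB1_fst k).trans h.2)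
    have h2 := abs_le.mp ((OB1_snd k).trans h.2)
    have e : ∀ x : ℤ, -(C₁ * P) ≤ (x : ℝ) → (x : ℝ) ≤ C₁ * P → -⌊C₁ * P⌋ ≤ x ∧ x ≤ ⌊C₁ * P⌋ := by
      intro x hx hx'
      refine ⟨?_, Int.le_floor.mpr hx'⟩
      have : -x ≤ ⌊C₁ * P⌋ := Int.le_floor.mpr (by push_cast; linarith)
      omega
    exact ⟨e _ h1.1 h1.2, e _ h2.1 h2.2⟩

theorem OB1_card_An (C₁ P : ℝ) (hC₁ : 1 ≤ C₁) (hP : 1 ≤ P) :
    ((OB1_An C₁ P).card : ℝ) ≤ 9 * C₁ ^ 2 * P ^ 2 := by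
  classical
  have hR : 1 ≤ C₁ * P := by nlinarith
  have h1 : (OB1_An C₁ P).card ≤
      (Finset.Icc (-⌊C₁ * P⌋) ⌊C₁ * P⌋ ×ˢ Finset.Icc (-⌊C₁ * P⌋) ⌊C₁ * P⌋).card :=
    Finset.card_filter_le _ _
  rw [Finset.card_product, Int.card_Icc] at h1
  have h0 : 1 ≤ ⌊C₁ * P⌋ := Int.le_floor.mpr (by push_cast; exact hR)
  have h2 : ((⌊C₁ * P⌋ + 1 - -⌊C₁ * P⌋).toNat : ℝ) ≤ 3 * (C₁ * P) := by
    have h3 : ((⌊C₁ * P⌋ + 1 - -⌊C₁ * P⌋).toNat : ℤ) = 2 * ⌊C₁ * P⌋ + 1 := by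
      rw [Int.toNat_of_nonneg (by omega)]; ring
    have h4 : ((⌊C₁ * P⌋ + 1 - -⌊C₁ * P⌋).toNat : ℝ) = 2 * (⌊C₁ * P⌋ : ℝ) + 1 := by
      exact_mod_cast h3
    rw [h4]
    have := Int.floor_le (C₁ * P)
    linarith
  have h5 : ((OB1_An C₁ P).card : ℝ) ≤ ((⌊C₁ * P⌋ + 1 - -⌊C₁ * P⌋).toNat : ℝ) *
      ((⌊C₁ * P⌋ + 1 - -⌊C₁ * P⌋).toNat : ℝ) := by exact_mod_cast h1
  have h6 : (0 : ℝ) ≤ ((⌊C₁ * P⌋ + 1 - -⌊C₁ * P⌋).toNat : ℝ) := Nat.cast_nonneg _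
  nlinarith

theorem OB1_cmp (x y c σ : ℝ) (hx : 0 < x) (hc : 1 ≤ c) (hxy : x ≤ y) (hyx : y ≤ c * x) :
    y ^ σ ≤ c ^ |σ| * x ^ σ ∧ x ^ σ ≤ c ^ |σ| * y ^ σ := by
  have hc0 : 0 < c := by linarith
  have hy : 0 < y := by linarith
  have h1 : 1 ≤ c ^ |σ| := Real.one_le_rpow hc (abs_nonneg σ)
  rcases le_or_gt 0 σ with h | h
  · rw [abs_of_nonneg h] at h1 ⊢
    constructor
    · rw [← Real.mul_rpow hc0.le hx.le]
      exact Real.rpow_le_rpow hy.le hyx h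
    · have h2 := Real.rpow_le_rpow hx.le hxy h
      have h3 : 0 ≤ y ^ σ := Real.rpow_nonneg hy.le _
      nlinarith
  · rw [abs_of_neg h] at h1 ⊢
    constructor
    · have h2 : y ^ σ ≤ x ^ σ := Real.rpow_le_rpow_of_nonpos hx hxy h.le
      have h3 : 0 ≤ x ^ σ := Real.rpow_nonneg hx.le _
      nlinarith
    · have h2 : (c * x) ^ σ ≤ y ^ σ := Real.rpow_le_rpow_of_nonpos hy hyx h.le
      rw [Real.mul_rpow hc0.le hx.le] at h2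
      have h3 : c ^ (-σ) * (c ^ σ * x ^ σ) ≤ c ^ (-σ) * y ^ σ :=
        mul_le_mul_of_nonneg_left h2 (by positivity)
      rw [← mul_assoc, ← Real.rpow_add hc0, neg_add_cancel, Real.rpow_zero, one_mul] at h3
      exact h3

theorem OB1_wt (C₁ P σ : ℝ) (hC₁ : 1 ≤ C₁) (hP : 1 ≤ P) (k : Fr) (h1 : P ≤ len k)
    (h2 : len k ≤ C₁ * P) :
    (1 + len k ^ 2) ^ σ ≤ (2 * C₁ ^ 2) ^ |σ| * (P ^ 2) ^ σ ∧
      (P ^ 2) ^ σ ≤ (2 * C₁ ^ 2) ^ |σ| * (1 + len k ^ 2) ^ σ := by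
  have hP0 : 0 < P := by linarith
  have h3 : len k ^ 2 ≤ (C₁ * P) ^ 2 := pow_le_pow_left₀ (OB1_len_nonneg k) h2 2
  have h4 : P ^ 2 ≤ len k ^ 2 := pow_le_pow_left₀ hP0.le h1 2
  have h5 : 1 ≤ C₁ ^ 2 := one_le_pow₀ hC₁
  have h6 : 1 ≤ P ^ 2 := one_le_pow₀ hP
  apply OB1_cmp
  · positivity
  · linarith
  · linarith
  · nlinarith

theorem OB1_om (a' a : ℝ) (ha' : 0 ≤ a') (haa : a' ≤ a) (n₀ n : ℕ) (hn₀ : 1 ≤ n₀) (k : Fr)
    (h1 : (2 : ℝ) ^ (n + n₀) ≤ len k) :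
    om a' n₀ n ^ 2 ≤ (Real.log 2)⁻¹ ^ (2 * a) * (n₀ : ℝ) ^ (-(2 * (a - a'))) *
      Real.log (Real.exp 1 + len k) ^ (2 * a) := by
  have hn : (1 : ℝ) ≤ n₀ := by exact_mod_cast hn₀
  have hN : (0 : ℝ) < (n : ℝ) + n₀ := by positivity
  have hl2 : 0 < Real.log 2 := Real.log_pos (by norm_num)
  have e1 : om a' n₀ n ^ 2 = ((n : ℝ) + n₀) ^ (2 * a) * ((n : ℝ) + n₀) ^ (-(2 * (a - a'))) := by
    unfold om
    rw [← Real.rpow_natCast, ← Real.rpow_mul hN.le, ← Real.rpow_add hN]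
    congr 1
    push_cast
    ring
  have e2 : ((n : ℝ) + n₀) ^ (-(2 * (a - a'))) ≤ (n₀ : ℝ) ^ (-(2 * (a - a'))) := by
    apply Real.rpow_le_rpow_of_nonpos (by linarith) _ (by linarith)
    have : (0 : ℝ) ≤ n := Nat.cast_nonneg n
    linarith
  have e3 : ((n : ℝ) + n₀) * Real.log 2 ≤ Real.log (Real.exp 1 + len k) := by
    have h2 : Real.log ((2 : ℝ) ^ (n + n₀)) ≤ Real.log (Real.exp 1 + len k) := by
      apply Real.log_le_log (by positivity)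
      have := Real.exp_pos 1
      linarith
    rw [Real.log_pow] at h2
    push_cast at h2
    exact h2
  have e4 : ((n : ℝ) + n₀) ≤ (Real.log 2)⁻¹ * Real.log (Real.exp 1 + len k) := by
    rw [le_inv_mul_iff₀ hl2]
    linarith
  have e5 : ((n : ℝ) + n₀) ^ (2 * a) ≤
      (Real.log 2)⁻¹ ^ (2 * a) * Real.log (Real.exp 1 + len k) ^ (2 * a) := by
    have hlog : 0 ≤ Real.log (Real.exp 1 + len k) := le_trans (by positivity) e3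
    rw [← Real.mul_rpow (by positivity) hlog]
    exact Real.rpow_le_rpow hN.le e4 (by linarith)
  rw [e1]
  calc ((n : ℝ) + n₀) ^ (2 * a) * ((n : ℝ) + n₀) ^ (-(2 * (a - a')))
      ≤ ((Real.log 2)⁻¹ ^ (2 * a) * Real.log (Real.exp 1 + len k) ^ (2 * a)) *
        (n₀ : ℝ) ^ (-(2 * (a - a'))) :=
        mul_le_mul e5 e2 (Real.rpow_nonneg hN.le _) (le_trans (Real.rpow_nonneg hN.le _) e5)
    _ = _ := by ring

/-- the coefficient -/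
noncomputable def OB1_c (w : ℕ → ℝ) (e : ℕ → Fr → ℂ) (z : Fr → ℂ) (n : ℕ) : ℂ :=
  ((w n * (2 * Real.pi) ^ 2 : ℝ) : ℂ) * (∑' l, conj (e n l) * z l)

theorem OB1_c_le (C₁ C₂ : ℝ) (hC₁ : 1 ≤ C₁) (a' : ℝ) (n₀ : ℕ) (e : ℕ → Fr → ℂ)
    (he : Band C₁ C₂ n₀ e) (z : Fr → ℂ) (n : ℕ) :
    ‖OB1_c (wts a' n₀) e z n‖ ^ 2 ≤ (2 * Real.pi) ^ 4 * (9 * C₁ ^ 2 * C₂ ^ 2) * om a' n₀ n ^ 2 *
      ((2 : ℝ) ^ (n + n₀)) ^ 2 * ∑ l ∈ OB1_An C₁ (2 ^ (n + n₀)), ‖z l‖ ^ 2 := by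
  have hP : (1 : ℝ) ≤ 2 ^ (n + n₀) := one_le_pow₀ (by norm_num)
  have hcard := OB1_card_An C₁ (2 ^ (n + n₀)) hC₁ hP
  have hzero : ∀ l, l ∉ OB1_An C₁ (2 ^ (n + n₀)) → e n l = 0 := by
    intro l hl
    by_contra hne
    exact hl ((OB1_mem_An _ _ l).mpr (he.supp n l hne))
  have hS : ∑' l, conj (e n l) * z l =
      ∑ l ∈ OB1_An C₁ (2 ^ (n + n₀)), conj (e n l) * z l := by
    apply tsum_eq_sum
    intro l hl
    rw [hzero l hl, map_zero, zero_mul]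
  have hsize := he.size n
  generalize hPd : (2 : ℝ) ^ (n + n₀) = P at hP hcard hS hsize ⊢
  have hP0 : 0 < P := by linarith
  have h1 : ‖∑' l, conj (e n l) * z l‖ ^ 2 ≤
      (∑ l ∈ OB1_An C₁ P, ‖e n l‖ ^ 2) * ∑ l ∈ OB1_An C₁ P, ‖z l‖ ^ 2 := by
    rw [hS]
    calc ‖∑ l ∈ OB1_An C₁ P, conj (e n l) * z l‖ ^ 2
        ≤ (∑ l ∈ OB1_An C₁ P, ‖e n l‖ * ‖z l‖) ^ 2 := by
          apply pow_le_pow_left₀ (norm_nonneg _)
          refine (norm_sum_le _ _).trans (le_of_eq ?_)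
          apply Finset.sum_congr rfl
          intro l _
          rw [norm_mul, RCLike.norm_conj]
      _ ≤ _ := Finset.sum_mul_sq_le_sq_mul_sq _ _ _
  have h2 : ∑ l ∈ OB1_An C₁ P, ‖e n l‖ ^ 2 ≤ (9 * C₁ ^ 2 * P ^ 2) * (C₂ / P ^ 3) ^ 2 := by
    calc ∑ l ∈ OB1_An C₁ P, ‖e n l‖ ^ 2 ≤ ∑ _l ∈ OB1_An C₁ P, (C₂ / P ^ 3) ^ 2 :=
          Finset.sum_le_sum (fun l _ => pow_le_pow_left₀ (norm_nonneg _) (hsize l) 2)
      _ = ((OB1_An C₁ P).card : ℝ) * (C₂ / P ^ 3) ^ 2 := by rw [Finset.sum_const, nsmul_eq_mul]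
      _ ≤ _ := mul_le_mul_of_nonneg_right hcard (by positivity)
  have hZ : 0 ≤ ∑ l ∈ OB1_An C₁ P, ‖z l‖ ^ 2 := Finset.sum_nonneg (fun l _ => by positivity)
  have h3 : ‖∑' l, conj (e n l) * z l‖ ^ 2 ≤
      (9 * C₁ ^ 2 * P ^ 2) * (C₂ / P ^ 3) ^ 2 * ∑ l ∈ OB1_An C₁ P, ‖z l‖ ^ 2 :=
    h1.trans (mul_le_mul_of_nonneg_right h2 hZ)
  have h4 : ‖OB1_c (wts a' n₀) e z n‖ ^ 2 = (om a' n₀ n * P ^ 3 * (2 * Real.pi) ^ 2) ^ 2 *
      ‖∑' l, conj (e n l) * z l‖ ^ 2 := by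
    unfold OB1_c wts
    rw [norm_mul, mul_pow, Complex.norm_real, Real.norm_eq_abs, sq_abs, hPd]
  rw [h4]
  calc (om a' n₀ n * P ^ 3 * (2 * Real.pi) ^ 2) ^ 2 * ‖∑' l, conj (e n l) * z l‖ ^ 2
      ≤ (om a' n₀ n * P ^ 3 * (2 * Real.pi) ^ 2) ^ 2 *
        ((9 * C₁ ^ 2 * P ^ 2) * (C₂ / P ^ 3) ^ 2 * ∑ l ∈ OB1_An C₁ P, ‖z l‖ ^ 2) :=
        mul_le_mul_of_nonneg_left h3 (by positivity)
    _ = _ := by
        field_simp

/-- the terms of the right side -/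
noncomputable def OB1_F (s a : ℝ) (z : Fr → ℂ) (l : Fr) : ℝ :=
  (1 + len l ^ 2) ^ s * (Real.log (Real.exp 1 + len l)) ^ (2 * a) * ‖z l‖ ^ 2

theorem OB1_log_nonneg (l : Fr) : 0 ≤ Real.log (Real.exp 1 + len l) := by
  apply Real.log_nonneg
  have := Real.add_one_le_exp 1
  have := OB1_len_nonneg l
  linarith

theorem OB1_F_nonneg (s a : ℝ) (z : Fr → ℂ) (l : Fr) : 0 ≤ OB1_F s a z l := by
  unfold OB1_F
  have := OB1_log_nonneg l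
  positivity

/-- the constant -/
noncomputable def OB1_K (C₁ C₂ s a : ℝ) : ℝ :=
  (2 * Real.pi) ^ 4 * (9 * C₁ ^ 2 * C₂ ^ 2) * C₂ ^ 2 * (2 * C₁ ^ 2) ^ |s + 1| *
    ((2 * C₁ ^ 2) ^ |s| * (Real.log 2)⁻¹ ^ (2 * a))

theorem OB1_K_nonneg (C₁ C₂ s a : ℝ) : 0 ≤ OB1_K C₁ C₂ s a := by
  unfold OB1_K
  have : 0 < Real.log 2 := Real.log_pos (by norm_num)
  positivity

theorem OB1_t (a' a C₁ C₂ s : ℝ) (ha' : 0 ≤ a') (haa : a' ≤ a) (hC₁ : 1 ≤ C₁)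
    (n₀ : ℕ) (hn₀ : 1 ≤ n₀) (e : ℕ → Fr → ℂ)
    (he : Band C₁ C₂ n₀ e) (z : Fr → ℂ) (n : ℕ) (k : Fr) (hk : k ∈ OB1_An C₁ (2 ^ (n + n₀))) :
    ‖OB1_c (wts a' n₀) e z n‖ ^ 2 * ‖e n k‖ ^ 2 * (1 + len k ^ 2) ^ (s + 1) ≤
      OB1_K C₁ C₂ s a * (n₀ : ℝ) ^ (-(2 * (a - a'))) / ((2 : ℝ) ^ (n + n₀)) ^ 2 *
        ∑ l ∈ OB1_An C₁ (2 ^ (n + n₀)), OB1_F s a z l := by
  have hP : (1 : ℝ) ≤ 2 ^ (n + n₀) := one_le_pow₀ (by norm_num)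
  have hc := OB1_c_le C₁ C₂ hC₁ a' n₀ e he z n
  have hsize := he.size n k
  have hk' := (OB1_mem_An _ _ k).mp hk
  have hom : ∀ l ∈ OB1_An C₁ ((2 : ℝ) ^ (n + n₀)),
      om a' n₀ n ^ 2 ≤ (Real.log 2)⁻¹ ^ (2 * a) * (n₀ : ℝ) ^ (-(2 * (a - a'))) *
      Real.log (Real.exp 1 + len l) ^ (2 * a) := fun l hl =>
    OB1_om a' a ha' haa n₀ n hn₀ l ((OB1_mem_An _ _ l).mp hl).1
  generalize (2 : ℝ) ^ (n + n₀) = P at hP hc hsize hk' hom hk ⊢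
  have hP0 : 0 < P := by linarith
  have hw := (OB1_wt C₁ P (s + 1) hC₁ hP k hk'.1 hk'.2).1
  have hsplit : (P ^ 2) ^ (s + 1) = (P ^ 2) ^ s * P ^ 2 := by
    rw [Real.rpow_add (by positivity), Real.rpow_one]
  rw [hsplit] at hw
  have hl2 : 0 < Real.log 2 := Real.log_pos (by norm_num)
  have hn : (0 : ℝ) ≤ (n₀ : ℝ) ^ (-(2 * (a - a'))) := by positivity
  have hterm : ∀ l ∈ OB1_An C₁ P, om a' n₀ n ^ 2 * (P ^ 2) ^ s * ‖z l‖ ^ 2 ≤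
      ((2 * C₁ ^ 2) ^ |s| * (Real.log 2)⁻¹ ^ (2 * a)) * (n₀ : ℝ) ^ (-(2 * (a - a'))) *
        OB1_F s a z l := by
    intro l hl
    have hl' := (OB1_mem_An _ _ l).mp hl
    have h1 := hom l hl
    have h2 := (OB1_wt C₁ P s hC₁ hP l hl'.1 hl'.2).2
    have h3 : om a' n₀ n ^ 2 * (P ^ 2) ^ s ≤ ((Real.log 2)⁻¹ ^ (2 * a) *
        (n₀ : ℝ) ^ (-(2 * (a - a'))) * Real.log (Real.exp 1 + len l) ^ (2 * a)) *
          ((2 * C₁ ^ 2) ^ |s| * (1 + len l ^ 2) ^ s) := by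
      apply mul_le_mul h1 h2 (by positivity)
      exact le_trans (by positivity) h1
    have h4 := mul_le_mul_of_nonneg_right h3 (show 0 ≤ ‖z l‖ ^ 2 by positivity)
    unfold OB1_F
    linarith
  have hsum : om a' n₀ n ^ 2 * (P ^ 2) ^ s * ∑ l ∈ OB1_An C₁ P, ‖z l‖ ^ 2 ≤
      ((2 * C₁ ^ 2) ^ |s| * (Real.log 2)⁻¹ ^ (2 * a)) * (n₀ : ℝ) ^ (-(2 * (a - a'))) *
        ∑ l ∈ OB1_An C₁ P, OB1_F s a z l := by
    rw [Finset.mul_sum, Finset.mul_sum]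
    exact Finset.sum_le_sum hterm
  have hZ : 0 ≤ ∑ l ∈ OB1_An C₁ P, ‖z l‖ ^ 2 := Finset.sum_nonneg (fun l _ => by positivity)
  have hE : ‖e n k‖ ^ 2 ≤ (C₂ / P ^ 3) ^ 2 := pow_le_pow_left₀ (norm_nonneg _) hsize 2
  have hprod : ‖OB1_c (wts a' n₀) e z n‖ ^ 2 * ‖e n k‖ ^ 2 ≤
      ((2 * Real.pi) ^ 4 * (9 * C₁ ^ 2 * C₂ ^ 2) * om a' n₀ n ^ 2 *
      P ^ 2 * ∑ l ∈ OB1_An C₁ P, ‖z l‖ ^ 2) * (C₂ / P ^ 3) ^ 2 :=
    mul_le_mul hc hE (by positivity) (by positivity)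
  calc ‖OB1_c (wts a' n₀) e z n‖ ^ 2 * ‖e n k‖ ^ 2 * (1 + len k ^ 2) ^ (s + 1)
      ≤ (((2 * Real.pi) ^ 4 * (9 * C₁ ^ 2 * C₂ ^ 2) * om a' n₀ n ^ 2 *
          P ^ 2 * ∑ l ∈ OB1_An C₁ P, ‖z l‖ ^ 2) * (C₂ / P ^ 3) ^ 2) *
          ((2 * C₁ ^ 2) ^ |s + 1| * ((P ^ 2) ^ s * P ^ 2)) :=
        mul_le_mul hprod hw (by positivity) (by positivity)
    _ = (2 * Real.pi) ^ 4 * (9 * C₁ ^ 2 * C₂ ^ 2) * C₂ ^ 2 * (2 * C₁ ^ 2) ^ |s + 1| / P ^ 2 *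
          (om a' n₀ n ^ 2 * (P ^ 2) ^ s * ∑ l ∈ OB1_An C₁ P, ‖z l‖ ^ 2) := by
        field_simp
    _ ≤ (2 * Real.pi) ^ 4 * (9 * C₁ ^ 2 * C₂ ^ 2) * C₂ ^ 2 * (2 * C₁ ^ 2) ^ |s + 1| / P ^ 2 *
          (((2 * C₁ ^ 2) ^ |s| * (Real.log 2)⁻¹ ^ (2 * a)) * (n₀ : ℝ) ^ (-(2 * (a - a'))) *
        ∑ l ∈ OB1_An C₁ P, OB1_F s a z l) := mul_le_mul_of_nonneg_left hsum (by positivity)
    _ = _ := by unfold OB1_K; ring

theorem OB1_count (C₁ : ℝ) : ∃ m : ℕ, ∀ (n₀ : ℕ) (k : Fr), ∃ S : Finset ℕ, S.card ≤ m + 1 ∧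
    ∀ n, k ∈ OB1_An C₁ (2 ^ (n + n₀)) → n ∈ S := by
  obtain ⟨m, hm⟩ := pow_unbounded_of_one_lt C₁ (by norm_num : (1 : ℝ) < 2)
  refine ⟨m, fun n₀ k => ?_⟩
  classical
  by_cases h : ∃ n, k ∈ OB1_An C₁ (2 ^ (n + n₀))
  · refine ⟨Finset.Icc (Nat.find h) (Nat.find h + m), ?_, ?_⟩
    · rw [Nat.card_Icc]; omega
    · intro n hn
      rw [Finset.mem_Icc]
      refine ⟨Nat.find_min' h hn, ?_⟩
      have h1 := (OB1_mem_An _ _ _).mp (Nat.find_spec h)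
      have h2 := (OB1_mem_An _ _ _).mp hn
      by_contra hlt
      have h3 : (2 : ℝ) ^ (n + n₀) ≤ C₁ * 2 ^ (Nat.find h + n₀) := h2.1.trans h1.2
      have h4 : C₁ * 2 ^ (Nat.find h + n₀) < 2 ^ m * 2 ^ (Nat.find h + n₀) :=
        mul_lt_mul_of_pos_right hm (by positivity)
      rw [← pow_add] at h4
      have h5 : (2 : ℝ) ^ (m + (Nat.find h + n₀)) ≤ 2 ^ (n + n₀) :=
        pow_le_pow_right₀ (by norm_num) (by omega)
      linarith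
  · refine ⟨∅, by simp, ?_⟩
    intro n hn
    exact absurd ⟨n, hn⟩ h

open ENNReal in
theorem OB1_main (a' a C₁ C₂ s : ℝ) (ha' : 0 ≤ a') (haa : a' ≤ a) (hC₁ : 1 ≤ C₁) :
    ∃ C : ℝ, 0 ≤ C ∧ ∀ n₀ : ℕ, 1 ≤ n₀ → ∀ e, Band C₁ C₂ n₀ e → ∀ z : Fr → ℂ,
      ∑' k, ENNReal.ofReal ((1 + len k ^ 2) ^ (s + 1) * ‖Aop (wts a' n₀) e z k‖ ^ 2) ≤
        ENNReal.ofReal (C * (n₀ : ℝ) ^ (-(2 * (a - a')))) *
          ∑' k, ENNReal.ofReal (OB1_F s a z k) := by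
  obtain ⟨m, hm⟩ := OB1_count C₁
  have hK := OB1_K_nonneg C₁ C₂ s a
  refine ⟨((m + 1 : ℕ) : ℝ) * ((9 * C₁ ^ 2) * OB1_K C₁ C₂ s a * ((m + 1 : ℕ) : ℝ)),
    by positivity, ?_⟩
  intro n₀ hn₀ e he z
  have hρ : (0 : ℝ) ≤ (n₀ : ℝ) ^ (-(2 * (a - a'))) := by positivity
  set ρ := (n₀ : ℝ) ^ (-(2 * (a - a'))) with hρd
  have hzero : ∀ n k, k ∉ OB1_An C₁ (2 ^ (n + n₀)) → e n k = 0 := by
    intro n k hk
    by_contra hne
    exact hk ((OB1_mem_An _ _ k).mpr (he.supp n k hne))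
  let t : ℕ → Fr → ℝ := fun n k =>
    ‖OB1_c (wts a' n₀) e z n‖ ^ 2 * ‖e n k‖ ^ 2 * (1 + len k ^ 2) ^ (s + 1)
  have ht0 : ∀ n k, 0 ≤ t n k := by
    intro n k
    simp only [t]
    positivity
  -- step 1
  have step1 : ∀ k, ENNReal.ofReal ((1 + len k ^ 2) ^ (s + 1) * ‖Aop (wts a' n₀) e z k‖ ^ 2) ≤
      ENNReal.ofReal ((m + 1 : ℕ) : ℝ) * ∑' n, ENNReal.ofReal (t n k) := by
    intro k
    obtain ⟨S, hS1, hS2⟩ := hm n₀ k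
    have hA : Aop (wts a' n₀) e z k = ∑ n ∈ S, OB1_c (wts a' n₀) e z n * e n k := by
      have : Aop (wts a' n₀) e z k = ∑' n, OB1_c (wts a' n₀) e z n * e n k := rfl
      rw [this]
      apply tsum_eq_sum
      intro n hn
      rw [hzero n k (fun h => hn (hS2 n h)), mul_zero]
    have h1 : ‖Aop (wts a' n₀) e z k‖ ^ 2 ≤
        ((m + 1 : ℕ) : ℝ) * ∑ n ∈ S, ‖OB1_c (wts a' n₀) e z n‖ ^ 2 * ‖e n k‖ ^ 2 := by
      rw [hA]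
      calc ‖∑ n ∈ S, OB1_c (wts a' n₀) e z n * e n k‖ ^ 2
          ≤ (∑ n ∈ S, ‖OB1_c (wts a' n₀) e z n * e n k‖) ^ 2 :=
            pow_le_pow_left₀ (norm_nonneg _) (norm_sum_le _ _) 2
        _ ≤ (S.card : ℝ) * ∑ n ∈ S, ‖OB1_c (wts a' n₀) e z n * e n k‖ ^ 2 :=
            sq_sum_le_card_mul_sum_sq
        _ ≤ ((m + 1 : ℕ) : ℝ) * ∑ n ∈ S, ‖OB1_c (wts a' n₀) e z n * e n k‖ ^ 2 := by
            apply mul_le_mul_of_nonneg_right _ (Finset.sum_nonneg (fun n _ => by positivity))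
            exact_mod_cast hS1
        _ = _ := by simp only [norm_mul, mul_pow]
    have h2 : (1 + len k ^ 2) ^ (s + 1) * ‖Aop (wts a' n₀) e z k‖ ^ 2 ≤
        ((m + 1 : ℕ) : ℝ) * ∑ n ∈ S, t n k := by
      have h3 := mul_le_mul_of_nonneg_left h1
        (show (0 : ℝ) ≤ (1 + len k ^ 2) ^ (s + 1) by positivity)
      refine h3.trans (le_of_eq ?_)
      simp only [t]
      rw [← Finset.sum_mul]
      ring
    calc ENNReal.ofReal ((1 + len k ^ 2) ^ (s + 1) * ‖Aop (wts a' n₀) e z k‖ ^ 2)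
        ≤ ENNReal.ofReal (((m + 1 : ℕ) : ℝ) * ∑ n ∈ S, t n k) := ENNReal.ofReal_le_ofReal h2
      _ = ENNReal.ofReal ((m + 1 : ℕ) : ℝ) * ∑ n ∈ S, ENNReal.ofReal (t n k) := by
          rw [ENNReal.ofReal_mul (by positivity), ENNReal.ofReal_sum_of_nonneg
            (fun n _ => ht0 n k)]
      _ ≤ _ := by
          gcongr
          exact ENNReal.sum_le_tsum S
  -- step 3
  have step3 : ∀ n, ∑' k, ENNReal.ofReal (t n k) ≤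
      ENNReal.ofReal ((9 * C₁ ^ 2) * OB1_K C₁ C₂ s a * ρ) *
        ∑ l ∈ OB1_An C₁ (2 ^ (n + n₀)), ENNReal.ofReal (OB1_F s a z l) := by
    intro n
    have hP : (1 : ℝ) ≤ 2 ^ (n + n₀) := one_le_pow₀ (by norm_num)
    have hcard := OB1_card_An C₁ (2 ^ (n + n₀)) hC₁ hP
    have e1 : ∑' k, ENNReal.ofReal (t n k) =
        ∑ k ∈ OB1_An C₁ (2 ^ (n + n₀)), ENNReal.ofReal (t n k) := by
      apply tsum_eq_sum
      intro k hk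
      simp only [t]
      rw [hzero n k hk]
      simp
    have hF0 : 0 ≤ ∑ l ∈ OB1_An C₁ (2 ^ (n + n₀)), OB1_F s a z l :=
      Finset.sum_nonneg (fun l _ => OB1_F_nonneg s a z l)
    rw [e1, ← ENNReal.ofReal_sum_of_nonneg (fun k _ => ht0 n k),
      ← ENNReal.ofReal_sum_of_nonneg (fun l _ => OB1_F_nonneg s a z l),
      ← ENNReal.ofReal_mul (by positivity)]
    apply ENNReal.ofReal_le_ofReal
    calc ∑ k ∈ OB1_An C₁ (2 ^ (n + n₀)), t n k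
        ≤ ∑ _k ∈ OB1_An C₁ (2 ^ (n + n₀)), OB1_K C₁ C₂ s a * ρ / ((2 : ℝ) ^ (n + n₀)) ^ 2 *
            ∑ l ∈ OB1_An C₁ (2 ^ (n + n₀)), OB1_F s a z l :=
          Finset.sum_le_sum (fun k hk => OB1_t a' a C₁ C₂ s ha' haa hC₁ n₀ hn₀ e he z n k hk)
      _ = ((OB1_An C₁ (2 ^ (n + n₀))).card : ℝ) *
            (OB1_K C₁ C₂ s a * ρ / ((2 : ℝ) ^ (n + n₀)) ^ 2 *
            ∑ l ∈ OB1_An C₁ (2 ^ (n + n₀)), OB1_F s a z l) := by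
          rw [Finset.sum_const, nsmul_eq_mul]
      _ ≤ (9 * C₁ ^ 2 * ((2 : ℝ) ^ (n + n₀)) ^ 2) *
            (OB1_K C₁ C₂ s a * ρ / ((2 : ℝ) ^ (n + n₀)) ^ 2 *
            ∑ l ∈ OB1_An C₁ (2 ^ (n + n₀)), OB1_F s a z l) :=
          mul_le_mul_of_nonneg_right hcard (by positivity)
      _ = _ := by
          have : ((2 : ℝ) ^ (n + n₀)) ^ 2 ≠ 0 := by positivity
          field_simp
  -- step 4
  have step4 : ∑' n, ∑ l ∈ OB1_An C₁ (2 ^ (n + n₀)), ENNReal.ofReal (OB1_F s a z l) ≤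
      ENNReal.ofReal ((m + 1 : ℕ) : ℝ) * ∑' l, ENNReal.ofReal (OB1_F s a z l) := by
    classical
    have e1 : ∀ n, ∑ l ∈ OB1_An C₁ (2 ^ (n + n₀)), ENNReal.ofReal (OB1_F s a z l) =
        ∑' l, if l ∈ OB1_An C₁ (2 ^ (n + n₀)) then ENNReal.ofReal (OB1_F s a z l) else 0 := by
      intro n
      rw [tsum_eq_sum (s := OB1_An C₁ (2 ^ (n + n₀)))]
      · apply Finset.sum_congr rfl
        intro l hl
        rw [if_pos hl]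
      · intro l hl
        rw [if_neg hl]
    simp only [e1]
    rw [ENNReal.tsum_comm, ← ENNReal.tsum_mul_left]
    apply ENNReal.tsum_le_tsum
    intro l
    obtain ⟨S, hS1, hS2⟩ := hm n₀ l
    rw [tsum_eq_sum (s := S)]
    · calc ∑ n ∈ S, (if l ∈ OB1_An C₁ (2 ^ (n + n₀)) then ENNReal.ofReal (OB1_F s a z l) else 0)
          ≤ ∑ _n ∈ S, ENNReal.ofReal (OB1_F s a z l) := by
            apply Finset.sum_le_sum
            intro n _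
            split_ifs
            · exact le_rfl
            · exact bot_le
        _ = (S.card : ℝ≥0∞) * ENNReal.ofReal (OB1_F s a z l) := by
            rw [Finset.sum_const, nsmul_eq_mul]
        _ ≤ ENNReal.ofReal ((m + 1 : ℕ) : ℝ) * ENNReal.ofReal (OB1_F s a z l) := by
            gcongr
            rw [ENNReal.ofReal_natCast]
            exact_mod_cast hS1
    · intro n hn
      rw [if_neg (fun h => hn (hS2 n h))]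
  calc ∑' k, ENNReal.ofReal ((1 + len k ^ 2) ^ (s + 1) * ‖Aop (wts a' n₀) e z k‖ ^ 2)
      ≤ ∑' k, ENNReal.ofReal ((m + 1 : ℕ) : ℝ) * ∑' n, ENNReal.ofReal (t n k) :=
        ENNReal.tsum_le_tsum step1
    _ = ENNReal.ofReal ((m + 1 : ℕ) : ℝ) * ∑' n, ∑' k, ENNReal.ofReal (t n k) := by
        rw [ENNReal.tsum_mul_left, ENNReal.tsum_comm]
    _ ≤ ENNReal.ofReal ((m + 1 : ℕ) : ℝ) * ∑' n,
          ENNReal.ofReal ((9 * C₁ ^ 2) * OB1_K C₁ C₂ s a * ρ) *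
          ∑ l ∈ OB1_An C₁ (2 ^ (n + n₀)), ENNReal.ofReal (OB1_F s a z l) := by
        gcongr with n
        exact step3 n
    _ ≤ ENNReal.ofReal ((m + 1 : ℕ) : ℝ) *
          (ENNReal.ofReal ((9 * C₁ ^ 2) * OB1_K C₁ C₂ s a * ρ) *
          (ENNReal.ofReal ((m + 1 : ℕ) : ℝ) * ∑' l, ENNReal.ofReal (OB1_F s a z l))) := by
        rw [ENNReal.tsum_mul_left]
        gcongr
    _ = _ := by
        rw [← mul_assoc, ← mul_assoc, ← ENNReal.ofReal_mul (by positivity),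
          ← ENNReal.ofReal_mul (by positivity)]
        congr 2
        ring

theorem OB1_br_ge (k : Fr) : 1 ≤ br k := by
  have := OB1_len_nonneg k
  unfold br
  linarith

theorem OB1_summable (s a : ℝ) (ha : 0 ≤ a) (z : Fr → ℂ) (hz : RD z) :
    Summable (OB1_F s a z) := by
  obtain ⟨M, hM⟩ := exists_nat_ge (max |s| (2 * a))
  have hM1 : |s| ≤ M := (le_max_left _ _).trans hM
  have hM2 : 2 * a ≤ M := (le_max_right _ _).trans hM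
  obtain ⟨C, hC⟩ := hz (2 * M + 2)
  refine Summable.of_nonneg_of_le (OB1_F_nonneg s a z) ?_
    ((summable_br.mul_left (2 ^ M * C ^ 2)))
  intro k
  have hb := OB1_br_ge k
  have hb0 : 0 < br k := by linarith
  have hl := OB1_len_nonneg k
  have h1 : (1 + len k ^ 2) ^ s ≤ (br k ^ 2) ^ M := by
    have hx : 1 ≤ 1 + len k ^ 2 := by nlinarith
    calc (1 + len k ^ 2) ^ s ≤ (1 + len k ^ 2) ^ |s| :=
          Real.rpow_le_rpow_of_exponent_le hx (le_abs_self s)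
      _ ≤ (1 + len k ^ 2) ^ (M : ℝ) := Real.rpow_le_rpow_of_exponent_le hx hM1
      _ = (1 + len k ^ 2) ^ M := Real.rpow_natCast _ _
      _ ≤ (br k ^ 2) ^ M := by
          apply pow_le_pow_left₀ (by positivity)
          unfold br
          nlinarith
  have h2 : (Real.log (Real.exp 1 + len k)) ^ (2 * a) ≤ (2 * br k) ^ M := by
    have h3 : Real.log (Real.exp 1 + len k) ≤ 2 * br k := by
      have h4 := Real.log_le_sub_one_of_pos (show 0 < Real.exp 1 + len k by positivity)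
      have h5 := Real.exp_one_lt_d9
      unfold br
      linarith
    calc (Real.log (Real.exp 1 + len k)) ^ (2 * a) ≤ (2 * br k) ^ (2 * a) :=
          Real.rpow_le_rpow (OB1_log_nonneg k) h3 (by linarith)
      _ ≤ (2 * br k) ^ (M : ℝ) := Real.rpow_le_rpow_of_exponent_le (by linarith) hM2
      _ = (2 * br k) ^ M := Real.rpow_natCast _ _
  have h3 : ‖z k‖ ^ 2 ≤ C ^ 2 / br k ^ (4 * M + 4) := by
    have h4 := hC k
    rw [le_div_iff₀ (by positivity)]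
    have h5 : (br k ^ (2 * M + 2) * ‖z k‖) ^ 2 ≤ C ^ 2 := pow_le_pow_left₀ (by positivity) h4 2
    calc ‖z k‖ ^ 2 * br k ^ (4 * M + 4) = (br k ^ (2 * M + 2) * ‖z k‖) ^ 2 := by ring
      _ ≤ C ^ 2 := h5
  have hlog := OB1_log_nonneg k
  calc OB1_F s a z k ≤ ((br k ^ 2) ^ M * (2 * br k) ^ M) * (C ^ 2 / br k ^ (4 * M + 4)) := by
        unfold OB1_F
        apply mul_le_mul _ h3 (by positivity) (by positivity)
        exact mul_le_mul h1 h2 (by positivity) (by positivity)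
    _ = 2 ^ M * C ^ 2 * (br k ^ (3 * M) / br k ^ (4 * M + 4)) := by
        rw [mul_pow]
        ring
    _ ≤ 2 ^ M * C ^ 2 * (br k ^ 4)⁻¹ := by
        apply mul_le_mul_of_nonneg_left _ (by positivity)
        rw [div_le_iff₀ (by positivity), inv_mul_eq_div, le_div_iff₀ (by positivity), ← pow_add]
        exact pow_le_pow_right₀ hb (by omega)

/-- TARGET -/
theorem band_bound (a' a C₁ C₂ : ℝ) (ha' : 0 ≤ a') (haa : a' ≤ a) (hC₁ : 1 ≤ C₁) (hC₂ : 0 ≤ C₂)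
    (s : ℝ) : ∃ C : ℝ, 0 ≤ C ∧ ∀ n₀ : ℕ, 1 ≤ n₀ → ∀ e, Band C₁ C₂ n₀ e → ∀ z, RD z →
      RD (Aop (wts a' n₀) e z) ∧
      ∑' k, (1 + len k ^ 2) ^ (s + 1) * ‖Aop (wts a' n₀) e z k‖ ^ 2 ≤
        C * (n₀ : ℝ) ^ (-(2 * (a - a'))) * ∑' k, (1 + len k ^ 2) ^ s *
          (Real.log (Real.exp 1 + len k)) ^ (2 * a) * ‖z k‖ ^ 2 := by
  have ha : 0 ≤ a := ha'.trans haa
  obtain ⟨C, hC0, hC⟩ := OB1_main a' a C₁ C₂ s ha' haa hC₁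
  refine ⟨C, hC0, ?_⟩
  intro n₀ hn₀ e he z hz
  have key : ∀ (s C : ℝ), 0 ≤ C →
      ∑' k, ENNReal.ofReal ((1 + len k ^ 2) ^ (s + 1) * ‖Aop (wts a' n₀) e z k‖ ^ 2) ≤
        ENNReal.ofReal (C * (n₀ : ℝ) ^ (-(2 * (a - a')))) *
          ∑' k, ENNReal.ofReal (OB1_F s a z k) →
      ∑' k, ENNReal.ofReal ((1 + len k ^ 2) ^ (s + 1) * ‖Aop (wts a' n₀) e z k‖ ^ 2) ≤
        ENNReal.ofReal (C * (n₀ : ℝ) ^ (-(2 * (a - a'))) * ∑' k, OB1_F s a z k) := by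
    intro s C hC0 h
    rw [ENNReal.ofReal_mul (by positivity),
      ENNReal.ofReal_tsum_of_nonneg (OB1_F_nonneg s a z) (OB1_summable s a ha z hz)]
    exact h
  constructor
  · intro N
    obtain ⟨C', hC0', hC'⟩ := OB1_main a' a C₁ C₂ ((N : ℝ) - 1) ha' haa hC₁
    have h1 := key _ _ hC0' (hC' n₀ hn₀ e he z)
    set R := C' * (n₀ : ℝ) ^ (-(2 * (a - a'))) * ∑' k, OB1_F ((N : ℝ) - 1) a z k with hR
    refine ⟨Real.sqrt (2 ^ N * R), fun k => ?_⟩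
    have hR0 : 0 ≤ R := by
      rw [hR]
      have : 0 ≤ ∑' k, OB1_F ((N : ℝ) - 1) a z k := tsum_nonneg (OB1_F_nonneg _ a z)
      positivity
    have h2 := (ENNReal.le_tsum k).trans h1
    rw [ENNReal.ofReal_le_ofReal_iff hR0] at h2
    have e1 : ((N : ℝ) - 1 + 1) = (N : ℕ) := by ring
    rw [e1, Real.rpow_natCast] at h2
    apply Real.le_sqrt_of_sq_le
    have hl := OB1_len_nonneg k
    have h3 : br k ^ 2 ≤ 2 * (1 + len k ^ 2) := by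
      unfold br
      nlinarith [sq_nonneg (len k - 1)]
    calc (br k ^ N * ‖Aop (wts a' n₀) e z k‖) ^ 2
        = (br k ^ 2) ^ N * ‖Aop (wts a' n₀) e z k‖ ^ 2 := by ring
      _ ≤ (2 * (1 + len k ^ 2)) ^ N * ‖Aop (wts a' n₀) e z k‖ ^ 2 := by
          apply mul_le_mul_of_nonneg_right _ (by positivity)
          exact pow_le_pow_left₀ (by positivity) h3 N
      _ = 2 ^ N * ((1 + len k ^ 2) ^ N * ‖Aop (wts a' n₀) e z k‖ ^ 2) := by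
          rw [mul_pow]; ring
      _ ≤ 2 ^ N * R := mul_le_mul_of_nonneg_left h2 (by positivity)
  · have h1 := key _ _ hC0 (hC n₀ hn₀ e he z)
    have hR0 : 0 ≤ C * (n₀ : ℝ) ^ (-(2 * (a - a'))) * ∑' k, OB1_F s a z k := by
      have : 0 ≤ ∑' k, OB1_F s a z k := tsum_nonneg (OB1_F_nonneg _ a z)
      positivity
    by_cases hs : Summable (fun k => (1 + len k ^ 2) ^ (s + 1) * ‖Aop (wts a' n₀) e z k‖ ^ 2)
    · rw [← ENNReal.ofReal_tsum_of_nonneg (fun k => by positivity) hs,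
        ENNReal.ofReal_le_ofReal_iff hR0] at h1
      exact h1
    · rw [tsum_eq_zero_of_not_summable hs]
      exact hR0

end H706.JOB1

namespace H706

alias band_bound := JOB1.band_bound

end H706
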