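import Pool.Agent.Helper706_SQG.Defs2
import Pool.Agent.Helper706_SQG.FA
import Pool.Agent.Helper706_SQG.OB1

/-!
JOB OB2 (MP_96bed6_an, helper706).  The operator `λ Λ⁻¹ + A` is admissible.

PROOF.  `row`: for fixed `k`, `e n k ≠ 0` only for the finitely many `n` with `2^(n+n₀) ≤ len k`, and each
`e n` is supported in the finite set `{len l ≤ C₁ 2^(n+n₀)}`. `herm`: reindex `l ↦ -l`, `len (-k) = len k`.
`bd`: `‖λ/len k‖ br k ≤ 2|λ|` for `k ≠ 0` (and `λ/len 0 = 0`), so the first part has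
`YY (p+1) ≤ 4 λ² YY p z ≤ 4 λ² YY (p+β) z`. For the second use `band_bound` with `a = a'`, `s = p`:
`1+len² ≤ br² ≤ 2(1+len²)`, and `(log(e+len k))^{2a} ≤ C_β br k^{2β}`. `‖u+v‖² ≤ 2‖u‖²+2‖v‖²`.
-/

set_option autoImplicit false
open Set Filter Topology MeasureTheory
open scoped ComplexConjugate ContDiff

namespace H706.JOB2

theorem ob2_len_nonneg (k : Fr) : 0 ≤ len k := Real.sqrt_nonneg _

theorem ob2_len_neg (k : Fr) : len (-k) = len k := by
  unfold len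
  simp

theorem ob2_one_le_len {k : Fr} (hk : k ≠ 0) : 1 ≤ len k := by
  unfold len
  rw [Real.one_le_sqrt]
  have h : (1 : ℤ) ≤ k.1 ^ 2 + k.2 ^ 2 := by
    by_contra hcon
    push Not at hcon
    have h1 : k.1 ^ 2 = 0 := by nlinarith [sq_nonneg k.1, sq_nonneg k.2]
    have h2 : k.2 ^ 2 = 0 := by nlinarith [sq_nonneg k.1, sq_nonneg k.2]
    exact hk (Prod.ext (pow_eq_zero_iff (two_ne_zero) |>.1 h1) (pow_eq_zero_iff (two_ne_zero) |>.1 h2))
  exact_mod_cast h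

theorem ob2_len_zero : len 0 = 0 := by simp [len]

theorem ob2_one_le_br (k : Fr) : 1 ≤ br k := by
  unfold br
  linarith [ob2_len_nonneg k]

theorem ob2_abs_le_len (k : Fr) : |(k.1 : ℝ)| ≤ len k ∧ |(k.2 : ℝ)| ≤ len k := by
  unfold len
  constructor
  · refine Real.abs_le_sqrt ?_
    nlinarith [sq_nonneg (k.2 : ℝ)]
  · refine Real.abs_le_sqrt ?_
    nlinarith [sq_nonneg (k.1 : ℝ)]

/-- a finite set containing the ball of radius `R` -/
noncomputable def ob2_ball (R : ℝ) : Finset Fr :=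
  Finset.Icc (-⌈R⌉) ⌈R⌉ ×ˢ Finset.Icc (-⌈R⌉) ⌈R⌉

theorem ob2_mem_ball {R : ℝ} {k : Fr} (h : len k ≤ R) : k ∈ ob2_ball R := by
  have h1 := ob2_abs_le_len k
  have hR : R ≤ ⌈R⌉ := Int.le_ceil R
  unfold ob2_ball
  rw [Finset.mem_product, Finset.mem_Icc, Finset.mem_Icc]
  have a1 := abs_le.1 (h1.1.trans (h.trans hR))
  have a2 := abs_le.1 (h1.2.trans (h.trans hR))
  refine ⟨⟨?_, ?_⟩, ?_, ?_⟩
  · exact_mod_cast a1.1
  · exact_mod_cast a1.2
  · exact_mod_cast a2.1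
  · exact_mod_cast a2.2

theorem ob2_row {C₁ C₂ : ℝ} (hC₁ : 1 ≤ C₁) {n₀ : ℕ} {e : ℕ → Fr → ℂ} (he : Band C₁ C₂ n₀ e)
    (lam : ℝ) (w : ℕ → ℝ) (k : Fr) :
    ∃ (S : Finset Fr) (b : Fr → ℂ), ∀ z, Bop lam w e z k = ∑ l ∈ S, b l * z l := by
  classical
  obtain ⟨N, hN⟩ := pow_unbounded_of_one_lt (len k) (one_lt_two : (1 : ℝ) < 2)
  have hn : ∀ n ∉ Finset.range N, e n k = 0 := by
    intro n hn
    by_contra hne
    rw [Finset.mem_range, not_lt] at hn
    have h1 := (he.supp n k hne).1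
    have h2 : (2 : ℝ) ^ N ≤ 2 ^ (n + n₀) := pow_le_pow_right₀ one_le_two (by omega)
    linarith
  set R : ℝ := C₁ * 2 ^ (N + n₀) with hR
  set S : Finset Fr := insert k (ob2_ball R) with hS
  have hl : ∀ n ∈ Finset.range N, ∀ l ∉ S, e n l = 0 := by
    intro n hn l hl
    by_contra hne
    rw [Finset.mem_range] at hn
    have h1 := (he.supp n l hne).2
    have h2 : (2 : ℝ) ^ (n + n₀) ≤ 2 ^ (N + n₀) := pow_le_pow_right₀ one_le_two (by omega)
    have h3 : C₁ * 2 ^ (n + n₀) ≤ R := mul_le_mul_of_nonneg_left h2 (by linarith)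
    exact hl (Finset.mem_insert_of_mem (ob2_mem_ball (h1.trans h3)))
  refine ⟨S, fun l => (if l = k then ((lam / len k : ℝ) : ℂ) else 0) +
    ∑ n ∈ Finset.range N, ((w n * (2 * Real.pi) ^ 2 : ℝ) : ℂ) * conj (e n l) * e n k, fun z => ?_⟩
  have hA : Aop w e z k = ∑ n ∈ Finset.range N, ((w n * (2 * Real.pi) ^ 2 : ℝ) : ℂ) *
      (∑ l ∈ S, conj (e n l) * z l) * e n k := by
    unfold Aop
    rw [tsum_eq_sum (s := Finset.range N) (fun n hn' => by rw [hn n hn', mul_zero])]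
    refine Finset.sum_congr rfl fun n hn' => ?_
    congr 2
    exact tsum_eq_sum (fun l hl' => by rw [hl n hn' l hl', map_zero, zero_mul])
  unfold Bop
  rw [hA]
  simp only [add_mul]
  rw [Finset.sum_add_distrib]
  congr 1
  · simp only [ite_mul, zero_mul]
    rw [Finset.sum_ite_eq' S k]
    rw [if_pos (Finset.mem_insert_self _ _)]
  · simp only [Finset.sum_mul, Finset.mul_sum]
    rw [Finset.sum_comm]
    refine Finset.sum_congr rfl fun l _ => Finset.sum_congr rfl fun n _ => ?_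
    ring

theorem ob2_herm {C₁ C₂ : ℝ} {n₀ : ℕ} {e : ℕ → Fr → ℂ} (he : Band C₁ C₂ n₀ e)
    (lam : ℝ) (w : ℕ → ℝ) (z : Fr → ℂ) (hz : Herm z) : Herm (Bop lam w e z) := by
  intro k
  have hS : ∀ n, conj (∑' l, conj (e n l) * z l) = ∑' l, conj (e n l) * z l := by
    intro n
    rw [Complex.conj_tsum]
    rw [← (Equiv.neg Fr).tsum_eq]
    refine tsum_congr fun l => ?_
    rw [Equiv.neg_apply, map_mul, he.herm n l, hz l, Complex.conj_conj, Complex.conj_conj]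
  unfold Bop
  rw [map_add, map_mul, ob2_len_neg, hz k, Complex.conj_ofReal]
  congr 1
  unfold Aop
  rw [Complex.conj_tsum]
  refine tsum_congr fun n => ?_
  rw [map_mul, map_mul, Complex.conj_ofReal, hS n, he.herm n k]

theorem ob2_RD_add {u v : Fr → ℂ} (hu : RD u) (hv : RD v) : RD (fun k => u k + v k) := by
  intro N
  obtain ⟨C, hC⟩ := hu N
  obtain ⟨D, hD⟩ := hv N
  refine ⟨C + D, fun k => ?_⟩
  have h1 : 0 ≤ br k ^ N := pow_nonneg (by linarith [ob2_one_le_br k]) _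
  calc br k ^ N * ‖u k + v k‖ ≤ br k ^ N * (‖u k‖ + ‖v k‖) :=
        mul_le_mul_of_nonneg_left (norm_add_le _ _) h1
    _ = br k ^ N * ‖u k‖ + br k ^ N * ‖v k‖ := by ring
    _ ≤ C + D := add_le_add (hC k) (hD k)

theorem ob2_summable {z : Fr → ℂ} (hz : RD z) (q : ℝ) : Summable fun k => br k ^ q * ‖z k‖ ^ 2 := by
  obtain ⟨C, hC⟩ := hz 0
  have hC' : ∀ k, ‖z k‖ ≤ C := fun k => by simpa using hC k
  refine Summable.of_nonneg_of_le (fun k => ?_) (fun k => ?_)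
    ((RD_summable hz ⌈q⌉₊).mul_left C)
  · exact mul_nonneg (Real.rpow_nonneg (by linarith [ob2_one_le_br k]) _) (sq_nonneg _)
  · have h1 : br k ^ q ≤ br k ^ (⌈q⌉₊ : ℕ) := by
      rw [← Real.rpow_natCast]
      exact Real.rpow_le_rpow_of_exponent_le (ob2_one_le_br k) (Nat.le_ceil q)
    have h2 : 0 ≤ br k ^ (⌈q⌉₊ : ℕ) := pow_nonneg (by linarith [ob2_one_le_br k]) _
    calc br k ^ q * ‖z k‖ ^ 2 ≤ br k ^ (⌈q⌉₊ : ℕ) * ‖z k‖ ^ 2 :=
          mul_le_mul_of_nonneg_right h1 (sq_nonneg _)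
      _ = br k ^ (⌈q⌉₊ : ℕ) * ‖z k‖ * ‖z k‖ := by ring
      _ ≤ br k ^ (⌈q⌉₊ : ℕ) * ‖z k‖ * C :=
          mul_le_mul_of_nonneg_left (hC' k) (mul_nonneg h2 (norm_nonneg _))
      _ = C * (br k ^ (⌈q⌉₊ : ℕ) * ‖z k‖) := by ring

theorem ob2_mult (lam : ℝ) (k : Fr) : br k * |lam / len k| ≤ 2 * |lam| := by
  by_cases hk : k = 0
  · subst hk
    rw [ob2_len_zero, div_zero, abs_zero, mul_zero]
    positivity
  · have h1 := ob2_one_le_len hk
    rw [abs_div, abs_of_pos (by linarith : 0 < len k), mul_div_assoc', div_le_iff₀ (by linarith)]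
    unfold br
    nlinarith [abs_nonneg lam]

theorem ob2_mult' (lam : ℝ) (k : Fr) : |lam / len k| ≤ |lam| := by
  by_cases hk : k = 0
  · subst hk
    rw [ob2_len_zero, div_zero, abs_zero]
    positivity
  · have h1 := ob2_one_le_len hk
    rw [abs_div, abs_of_pos (by linarith : 0 < len k), div_le_iff₀ (by linarith)]
    nlinarith [abs_nonneg lam]

theorem ob2_RD_mult (lam : ℝ) {z : Fr → ℂ} (hz : RD z) :
    RD (fun k => ((lam / len k : ℝ) : ℂ) * z k) := by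
  intro N
  obtain ⟨C, hC⟩ := hz N
  refine ⟨|lam| * C, fun k => ?_⟩
  have h1 : 0 ≤ br k ^ N := pow_nonneg (by linarith [ob2_one_le_br k]) _
  rw [norm_mul, Complex.norm_real, Real.norm_eq_abs]
  calc br k ^ N * (|lam / len k| * ‖z k‖) = |lam / len k| * (br k ^ N * ‖z k‖) := by ring
    _ ≤ |lam| * (br k ^ N * ‖z k‖) :=
        mul_le_mul_of_nonneg_right (ob2_mult' lam k) (mul_nonneg h1 (norm_nonneg _))
    _ ≤ |lam| * C := mul_le_mul_of_nonneg_left (hC k) (abs_nonneg _)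

theorem ob2_YY_mult (lam β : ℝ) (hβ : 0 < β) (p : ℕ) {z : Fr → ℂ} (hz : RD z) :
    YY (p + 1) (fun k => ((lam / len k : ℝ) : ℂ) * z k) ≤ 4 * lam ^ 2 * YY (p + β) z := by
  unfold YY
  rw [← tsum_mul_left]
  refine Summable.tsum_le_tsum (fun k => ?_) (ob2_summable (ob2_RD_mult lam hz) _)
    ((ob2_summable hz _).mul_left _)
  have hb := ob2_one_le_br k
  have hb0 : 0 < br k := by linarith
  rw [norm_mul, Complex.norm_real, Real.norm_eq_abs]
  have h1 : br k ^ (2 * ((p : ℝ) + 1)) = br k ^ (2 * (p : ℝ)) * br k ^ 2 := by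
    rw [mul_add, Real.rpow_add hb0, mul_one, Real.rpow_two]
  have h2 : br k ^ (2 * (p : ℝ)) ≤ br k ^ (2 * ((p : ℝ) + β)) :=
    Real.rpow_le_rpow_of_exponent_le hb (by linarith)
  have h3 : (br k * |lam / len k|) ^ 2 ≤ (2 * |lam|) ^ 2 :=
    pow_le_pow_left₀ (by positivity) (ob2_mult lam k) 2
  have h4 : (2 * |lam|) ^ 2 = 4 * lam ^ 2 := by rw [mul_pow, sq_abs]; ring
  have h5 : 0 ≤ br k ^ (2 * (p : ℝ)) := Real.rpow_nonneg hb0.le _
  rw [h1]
  calc br k ^ (2 * (p : ℝ)) * br k ^ 2 * (|lam / len k| * ‖z k‖) ^ 2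
      = (br k * |lam / len k|) ^ 2 * (br k ^ (2 * (p : ℝ)) * ‖z k‖ ^ 2) := by ring
    _ ≤ (4 * lam ^ 2) * (br k ^ (2 * (p : ℝ)) * ‖z k‖ ^ 2) := by
        rw [← h4]
        exact mul_le_mul_of_nonneg_right h3 (mul_nonneg h5 (sq_nonneg _))
    _ ≤ (4 * lam ^ 2) * (br k ^ (2 * ((p : ℝ) + β)) * ‖z k‖ ^ 2) := by
        refine mul_le_mul_of_nonneg_left (mul_le_mul_of_nonneg_right h2 (sq_nonneg _)) (by positivity)

/-- logarithms are dominated by powers -/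
theorem ob2_log (a β : ℝ) (ha : 0 ≤ a) (hβ : 0 < β) : ∃ K : ℝ, 0 ≤ K ∧ ∀ k : Fr,
    0 ≤ (Real.log (Real.exp 1 + len k)) ^ (2 * a) ∧
    (Real.log (Real.exp 1 + len k)) ^ (2 * a) ≤ K * br k ^ (2 * β) := by
  set ε : ℝ := β / (a + 1) with hε
  have hε0 : 0 < ε := by positivity
  refine ⟨(Real.exp 1) ^ (2 * β) * (ε⁻¹) ^ (2 * a), by positivity, fun k => ?_⟩
  have hl := ob2_len_nonneg k
  have hb := ob2_one_le_br k
  have hb0 : 0 < br k := by linarith
  have he1 : (1 : ℝ) ≤ Real.exp 1 := Real.one_le_exp zero_le_one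
  have h0 : 0 ≤ Real.log (Real.exp 1 + len k) := Real.log_nonneg (by linarith)
  refine ⟨Real.rpow_nonneg h0 _, ?_⟩
  have h1 : Real.exp 1 + len k ≤ Real.exp 1 * br k := by
    unfold br
    nlinarith
  have h2 : 1 ≤ Real.exp 1 * br k := by nlinarith
  have h3 : Real.log (Real.exp 1 + len k) ≤ (Real.exp 1 * br k) ^ ε * ε⁻¹ := by
    calc Real.log (Real.exp 1 + len k) ≤ Real.log (Real.exp 1 * br k) :=
          Real.log_le_log (by linarith) h1
      _ ≤ (Real.exp 1 * br k) ^ ε / ε := Real.log_le_rpow_div (by linarith) hε0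
      _ = _ := by rw [div_eq_mul_inv]
  have h4 : 0 ≤ (Real.exp 1 * br k) ^ ε := Real.rpow_nonneg (by linarith) _
  have h5 : ε * (2 * a) ≤ 2 * β := by
    rw [hε, div_mul_eq_mul_div, div_le_iff₀ (by linarith)]
    nlinarith
  calc (Real.log (Real.exp 1 + len k)) ^ (2 * a) ≤ ((Real.exp 1 * br k) ^ ε * ε⁻¹) ^ (2 * a) :=
        Real.rpow_le_rpow h0 h3 (by linarith)
    _ = (Real.exp 1 * br k) ^ (ε * (2 * a)) * (ε⁻¹) ^ (2 * a) := by
        rw [Real.mul_rpow h4 (by positivity), ← Real.rpow_mul (by linarith)]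
    _ ≤ (Real.exp 1 * br k) ^ (2 * β) * (ε⁻¹) ^ (2 * a) := by
        refine mul_le_mul_of_nonneg_right (Real.rpow_le_rpow_of_exponent_le h2 h5) (by positivity)
    _ = (Real.exp 1) ^ (2 * β) * (ε⁻¹) ^ (2 * a) * br k ^ (2 * β) := by
        rw [Real.mul_rpow (by linarith) hb0.le]
        ring

theorem ob2_bd (lam a C₁ C₂ β : ℝ) (ha : 0 ≤ a) (hC₁ : 1 ≤ C₁) (hC₂ : 0 ≤ C₂) (hβ : 0 < β)
    {n₀ : ℕ} (hn : 1 ≤ n₀) {e : ℕ → Fr → ℂ} (he : Band C₁ C₂ n₀ e) (p : ℕ) :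
    ∃ C, ∀ z, RD z → RD (Bop lam (wts a n₀) e z) ∧
      YY (p + 1) (Bop lam (wts a n₀) e z) ≤ C * YY (p + β) z := by
  obtain ⟨C, hC, hB⟩ := band_bound a a C₁ C₂ ha le_rfl hC₁ hC₂ (p : ℝ)
  obtain ⟨K, hK, hlog⟩ := ob2_log a β ha hβ
  refine ⟨2 * (4 * lam ^ 2) + 2 * (2 ^ (p + 1) * (C * K)), fun z hz => ?_⟩
  obtain ⟨hR, hle⟩ := hB n₀ hn e he z hz
  have hu := ob2_RD_mult lam hz
  refine ⟨ob2_RD_add hu hR, ?_⟩
  have hYu := ob2_YY_mult lam β hβ p hz
  have hv : YY (p + 1) (Aop (wts a n₀) e z) ≤ 2 ^ (p + 1) * (C * K) * YY (p + β) z := by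
    have hbr2 : ∀ k : Fr, br k ^ (2 * ((p : ℝ) + 1)) ≤ 2 ^ (p + 1) * (1 + len k ^ 2) ^ ((p : ℝ) + 1) := by
      intro k
      have hl := ob2_len_nonneg k
      have hb := ob2_one_le_br k
      have e1 : br k ^ (2 * ((p : ℝ) + 1)) = (br k ^ 2) ^ ((p : ℝ) + 1) := by
        rw [Real.rpow_mul (by linarith), Real.rpow_two]
      have e2 : ((2 : ℝ) ^ (p + 1)) = (2 : ℝ) ^ ((p : ℝ) + 1) := by
        rw [← Real.rpow_natCast]
        push_cast
        rfl
      rw [e1, e2, ← Real.mul_rpow (by norm_num) (by positivity)]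
      refine Real.rpow_le_rpow (by positivity) ?_ (by positivity)
      unfold br
      nlinarith [sq_nonneg (len k - 1)]
    have hbr3 : ∀ k : Fr, (1 + len k ^ 2) ^ (p : ℝ) ≤ br k ^ (2 * (p : ℝ)) := by
      intro k
      have hl := ob2_len_nonneg k
      have hb := ob2_one_le_br k
      have e1 : br k ^ (2 * (p : ℝ)) = (br k ^ 2) ^ (p : ℝ) := by
        rw [Real.rpow_mul (by linarith), Real.rpow_two]
      rw [e1]
      refine Real.rpow_le_rpow (by positivity) ?_ (by positivity)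
      unfold br
      nlinarith
    have hterm : ∀ k : Fr, (1 + len k ^ 2) ^ (p : ℝ) * (Real.log (Real.exp 1 + len k)) ^ (2 * a) * ‖z k‖ ^ 2 ≤
        K * (br k ^ (2 * ((p : ℝ) + β)) * ‖z k‖ ^ 2) := by
      intro k
      have hb := ob2_one_le_br k
      have hb0 : 0 < br k := by linarith
      have e1 : br k ^ (2 * ((p : ℝ) + β)) = br k ^ (2 * (p : ℝ)) * br k ^ (2 * β) := by
        rw [mul_add, Real.rpow_add hb0]
      rw [e1]
      calc (1 + len k ^ 2) ^ (p : ℝ) * (Real.log (Real.exp 1 + len k)) ^ (2 * a) * ‖z k‖ ^ 2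
          ≤ br k ^ (2 * (p : ℝ)) * (K * br k ^ (2 * β)) * ‖z k‖ ^ 2 := by
            refine mul_le_mul_of_nonneg_right ?_ (sq_nonneg _)
            exact mul_le_mul (hbr3 k) (hlog k).2 (hlog k).1 (Real.rpow_nonneg hb0.le _)
        _ = _ := by ring
    have hsumR : Summable fun k => K * (br k ^ (2 * ((p : ℝ) + β)) * ‖z k‖ ^ 2) :=
      (ob2_summable hz _).mul_left K
    have hsumM : Summable fun k : Fr => (1 + len k ^ 2) ^ (p : ℝ) *
        (Real.log (Real.exp 1 + len k)) ^ (2 * a) * ‖z k‖ ^ 2 := by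
      refine Summable.of_nonneg_of_le (fun k => ?_) hterm hsumR
      have := (hlog k).1
      positivity
    have h1 : ∑' k, (1 + len k ^ 2) ^ (p : ℝ) * (Real.log (Real.exp 1 + len k)) ^ (2 * a) * ‖z k‖ ^ 2 ≤
        K * YY (p + β) z := by
      unfold YY
      rw [← tsum_mul_left]
      exact Summable.tsum_le_tsum hterm hsumM hsumR
    have hn0 : (n₀ : ℝ) ^ (-(2 * (a - a))) = 1 := by
      rw [sub_self, mul_zero, neg_zero, Real.rpow_zero]
    rw [hn0, mul_one] at hle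
    have hvv : ∀ k : Fr, br k ^ (2 * ((p : ℝ) + 1)) * ‖Aop (wts a n₀) e z k‖ ^ 2 ≤
        2 ^ (p + 1) * ((1 + len k ^ 2) ^ ((p : ℝ) + 1) * ‖Aop (wts a n₀) e z k‖ ^ 2) := by
      intro k
      rw [← mul_assoc]
      exact mul_le_mul_of_nonneg_right (hbr2 k) (sq_nonneg _)
    have hsv : Summable fun k : Fr => (1 + len k ^ 2) ^ ((p : ℝ) + 1) * ‖Aop (wts a n₀) e z k‖ ^ 2 := by
      refine Summable.of_nonneg_of_le (fun k => by positivity) (fun k => ?_)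
        (ob2_summable hR (2 * ((p : ℝ) + 1)))
      refine mul_le_mul_of_nonneg_right ?_ (sq_nonneg _)
      have hl := ob2_len_nonneg k
      have hb := ob2_one_le_br k
      have e1 : br k ^ (2 * ((p : ℝ) + 1)) = (br k ^ 2) ^ ((p : ℝ) + 1) := by
        rw [Real.rpow_mul (by linarith), Real.rpow_two]
      rw [e1]
      refine Real.rpow_le_rpow (by positivity) ?_ (by positivity)
      unfold br
      nlinarith
    calc YY (p + 1) (Aop (wts a n₀) e z)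
        ≤ ∑' k, 2 ^ (p + 1) * ((1 + len k ^ 2) ^ ((p : ℝ) + 1) * ‖Aop (wts a n₀) e z k‖ ^ 2) :=
          Summable.tsum_le_tsum hvv (ob2_summable hR _) (hsv.mul_left _)
      _ = 2 ^ (p + 1) * ∑' k, (1 + len k ^ 2) ^ ((p : ℝ) + 1) * ‖Aop (wts a n₀) e z k‖ ^ 2 :=
          tsum_mul_left
      _ ≤ 2 ^ (p + 1) * (C * (K * YY (p + β) z)) := by
          refine mul_le_mul_of_nonneg_left (hle.trans ?_) (by positivity)
          exact mul_le_mul_of_nonneg_left h1 hC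
      _ = _ := by ring
  have hsplit : YY (p + 1) (Bop lam (wts a n₀) e z) ≤
      2 * YY (p + 1) (fun k => ((lam / len k : ℝ) : ℂ) * z k) +
        2 * YY (p + 1) (Aop (wts a n₀) e z) := by
    unfold YY
    rw [← tsum_mul_left, ← tsum_mul_left,
      ← Summable.tsum_add ((ob2_summable hu _).mul_left _) ((ob2_summable hR _).mul_left _)]
    refine Summable.tsum_le_tsum (fun k => ?_) (ob2_summable (ob2_RD_add hu hR) _)
      (((ob2_summable hu _).mul_left _).add ((ob2_summable hR _).mul_left _))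
    have hb := ob2_one_le_br k
    have h5 : 0 ≤ br k ^ (2 * ((p : ℝ) + 1)) := Real.rpow_nonneg (by linarith) _
    have h6 : ‖Bop lam (wts a n₀) e z k‖ ^ 2 ≤
        2 * ‖((lam / len k : ℝ) : ℂ) * z k‖ ^ 2 + 2 * ‖Aop (wts a n₀) e z k‖ ^ 2 := by
      unfold Bop
      have := norm_add_le (((lam / len k : ℝ) : ℂ) * z k) (Aop (wts a n₀) e z k)
      have h7 : ‖((lam / len k : ℝ) : ℂ) * z k + Aop (wts a n₀) e z k‖ ^ 2 ≤
          (‖((lam / len k : ℝ) : ℂ) * z k‖ + ‖Aop (wts a n₀) e z k‖) ^ 2 :=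
        pow_le_pow_left₀ (norm_nonneg _) this 2
      nlinarith [sq_nonneg (‖((lam / len k : ℝ) : ℂ) * z k‖ - ‖Aop (wts a n₀) e z k‖)]
    calc br k ^ (2 * ((p : ℝ) + 1)) * ‖Bop lam (wts a n₀) e z k‖ ^ 2
        ≤ br k ^ (2 * ((p : ℝ) + 1)) *
          (2 * ‖((lam / len k : ℝ) : ℂ) * z k‖ ^ 2 + 2 * ‖Aop (wts a n₀) e z k‖ ^ 2) :=
          mul_le_mul_of_nonneg_left h6 h5
      _ = _ := by ring
  calc YY (p + 1) (Bop lam (wts a n₀) e z)
      ≤ _ := hsplit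
    _ ≤ 2 * (4 * lam ^ 2 * YY (p + β) z) + 2 * (2 ^ (p + 1) * (C * K) * YY (p + β) z) := by
        linarith
    _ = _ := by ring

/-- TARGET -/
theorem adm_Bop (lam a C₁ C₂ β : ℝ) (ha : 0 ≤ a) (hC₁ : 1 ≤ C₁) (hC₂ : 0 ≤ C₂) (hβ : 0 < β)
    {n₀ : ℕ} (hn : 1 ≤ n₀) {e : ℕ → Fr → ℂ} (he : Band C₁ C₂ n₀ e) :
    Adm β (Bop lam (wts a n₀) e) where
  row k := ob2_row hC₁ he lam (wts a n₀) k
  herm z hz := ob2_herm he lam (wts a n₀) z hz
  bd p := ob2_bd lam a C₁ C₂ β ha hC₁ hC₂ hβ hn he p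

end H706.JOB2

namespace H706

alias adm_Bop := JOB2.adm_Bop

end H706
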