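import Pool.Agent.Helper706_SQG.Defs2
import Pool.Agent.Helper706_SQG.CV1
import Pool.Agent.Helper706_SQG.OB2

/-!
JOB CV2 (MP_96bed6_an, helper706).  From smooth solutions to solutions for the coefficients.

PROOF.  `rd`: for `T' < T`, `unif_bound` on `I = Icc 0 T'` gives bounds `M_j` for the iterated derivatives,
and `fc_decay` gives `br k ^ N ‖fc (θ t) k‖ ≤ C_N max_{j≤N} M_j`. `herm`: `fc_herm`. `cont`: `θ` is
jointly continuous on `[0,T) × ℝ²` (`cont 0`; iteratedFDeriv 0 is `θ` itself), bounded on compact sets;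
continuity of the integral over `Qb`. `der`: fix `t ∈ (0,T)`, `g(t,x)` the right hand side of `eqn`; by
`rhs_series`, `IsF (rhs .. (fc (θ t))) (g t)`; for `t` in a compact subinterval of `(0,T)`,
`|g(t,x)| ≤ ∑_k ‖rhs .. (fc (θ t)) k‖ ≤ C` uniformly (`rd`, `nl2_bound`, and `Adm.bd` for
`B = Bop ..` by `adm_Bop` with some `β ≤ 1`: `br^p ‖B z‖ ≤ √(YY p (B z)) ≤ √(C YY (p-1+β) z)`).
Differentiate under the integral (`hasDerivAt_integral_of_dominated_loc_of_deriv_le`):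
`d/dt fc (θ t) k = fc (g t) k = rhs .. (fc (θ t)) k` by `IsF.fc_eq`.
-/

set_option autoImplicit false
open Set Filter Topology MeasureTheory
open scoped ComplexConjugate ContDiff

namespace H706.JCV2

lemma cv_len_nonneg (k : Fr) : 0 ≤ len k := Real.sqrt_nonneg _

lemma cv_br_one (k : Fr) : 1 ≤ br k := by
  unfold br
  linarith [cv_len_nonneg k]

lemma cv_ex_norm (k : Fr) (x : Pt) : ‖ex k x‖ = 1 := by
  unfold ex
  exact Complex.norm_exp_ofReal_mul_I _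

lemma cv_ex_cont (k : Fr) : Continuous (ex k) := by
  unfold ex
  fun_prop

lemma cv_Qb_finite : volume Qb < ⊤ := by
  unfold Qb
  rw [Measure.volume_eq_prod, Measure.prod_prod]
  exact ENNReal.mul_lt_top measure_Ioc_lt_top measure_Ioc_lt_top

lemma cv_sm {lam α κ : ℝ} {w : ℕ → ℝ} {E : ℕ → Pt → ℝ} {θ₀ : Pt → ℝ} {T : ℝ} {θ : ℝ → Pt → ℝ}
    (h : IsSol lam α κ w E θ₀ T θ) {t : ℝ} (ht : t ∈ Ico 0 T) : Sm (θ t) :=
  ⟨h.smooth t ht, h.per t ht⟩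

lemma cv_unif {lam α κ : ℝ} {w : ℕ → ℝ} {E : ℕ → Pt → ℝ} {θ₀ : Pt → ℝ} {T : ℝ} {θ : ℝ → Pt → ℝ}
    (h : IsSol lam α κ w E θ₀ T θ) {T' : ℝ} (hT' : T' < T) (j : ℕ) :
    ∃ M, ∀ t ∈ Icc 0 T', ∀ x, ‖iteratedFDeriv ℝ j (θ t) x‖ ≤ M := by
  have hsub : Icc 0 T' ⊆ Ico 0 T := fun t ht => ⟨ht.1, ht.2.trans_lt hT'⟩
  exact unif_bound isCompact_Icc (fun t ht => cv_sm h (hsub ht)) j
    ((h.cont j).mono (Set.prod_mono hsub subset_rfl))

lemma cv_rd {lam α κ : ℝ} {w : ℕ → ℝ} {E : ℕ → Pt → ℝ} {θ₀ : Pt → ℝ} {T : ℝ} {θ : ℝ → Pt → ℝ}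
    (h : IsSol lam α κ w E θ₀ T θ) {T' : ℝ} (hT' : T' < T) :
    URD (Icc 0 T') (fun t => fc (θ t)) := by
  intro N
  obtain ⟨C, hC, hd⟩ := fc_decay N
  choose M hM using cv_unif h hT'
  refine ⟨C * ∑ j ∈ Finset.range (N + 1), |M j|, fun t ht k => ?_⟩
  refine hd (θ t) _ (cv_sm h ⟨ht.1, ht.2.trans_lt hT'⟩) (fun j hj x => ?_) k
  refine (hM j t ht x).trans ((le_abs_self _).trans ?_)
  exact Finset.single_le_sum (f := fun j => |M j|) (fun j _ => abs_nonneg _)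
    (Finset.mem_range.2 (by omega))

lemma cv_term (z : Fr → ℂ) {M : ℝ} (hz : ∀ k, br k ^ 11 * ‖z k‖ ≤ M) (k : Fr) :
    br k ^ (2 * (((8 : ℕ) : ℝ) + 1)) * ‖z k‖ ^ 2 ≤ M ^ 2 * (br k ^ 4)⁻¹ := by
  have h1 : (0 : ℝ) < br k := lt_of_lt_of_le one_pos (cv_br_one k)
  have h2 : br k ^ (2 * (((8 : ℕ) : ℝ) + 1)) = br k ^ 18 := by
    rw [← Real.rpow_natCast]
    norm_num
  rw [h2, ← div_eq_mul_inv, le_div_iff₀ (by positivity)]
  calc br k ^ 18 * ‖z k‖ ^ 2 * br k ^ 4 = (br k ^ 11 * ‖z k‖) ^ 2 := by ring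
    _ ≤ M ^ 2 := pow_le_pow_left₀ (by positivity) (hz k) 2

lemma cv_summ (z : Fr → ℂ) {M : ℝ} (hz : ∀ k, br k ^ 11 * ‖z k‖ ≤ M) :
    Summable fun k => br k ^ (2 * (((8 : ℕ) : ℝ) + 1)) * ‖z k‖ ^ 2 := by
  refine Summable.of_nonneg_of_le (fun k => ?_) (cv_term z hz) (summable_br.mul_left _)
  have h1 : (0 : ℝ) < br k := lt_of_lt_of_le one_pos (cv_br_one k)
  positivity

lemma cv_YY (z : Fr → ℂ) {M : ℝ} (hz : ∀ k, br k ^ 11 * ‖z k‖ ≤ M) :
    YY (((8 : ℕ) : ℝ) + 1) z ≤ M ^ 2 * ∑' k : Fr, (br k ^ 4)⁻¹ := by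
  rw [← tsum_mul_left]
  exact (cv_summ z hz).tsum_le_tsum (cv_term z hz) (summable_br.mul_left _)

lemma cv_single (z : Fr → ℂ) (hz : RD z) (k : Fr) :
    (br k ^ 9 * ‖z k‖) ^ 2 ≤ YY (((8 : ℕ) : ℝ) + 1) z := by
  obtain ⟨M, hM⟩ := hz 11
  have h1 : (br k ^ 9 * ‖z k‖) ^ 2 = br k ^ (2 * (((8 : ℕ) : ℝ) + 1)) * ‖z k‖ ^ 2 := by
    have h2 : br k ^ (2 * (((8 : ℕ) : ℝ) + 1)) = br k ^ 18 := by
      rw [← Real.rpow_natCast]
      norm_num
    rw [h2]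
    ring
  rw [h1]
  refine (cv_summ z hM).le_tsum k fun j _ => ?_
  have h1 : (0 : ℝ) < br j := lt_of_lt_of_le one_pos (cv_br_one j)
  positivity

lemma cv_len_rpow {α : ℝ} (hα : 0 < α) (hα1 : α ≤ 1) (k : Fr) :
    len k ^ (2 * α) ≤ br k ^ 2 := by
  have h0 := cv_len_nonneg k
  have h1 := cv_br_one k
  calc len k ^ (2 * α) ≤ br k ^ (2 * α) :=
        Real.rpow_le_rpow h0 (by unfold br; linarith) (by linarith)
    _ ≤ br k ^ (2 : ℝ) := Real.rpow_le_rpow_of_exponent_le h1 (by linarith)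
    _ = br k ^ 2 := by
        rw [← Real.rpow_natCast]
        norm_num

/-- The right hand side is bounded for bounded families. -/
lemma cv_rhs {α κ : ℝ} (hα : 0 < α) (hα1 : α ≤ 1) (hκ : 0 < κ) {B : (Fr → ℂ) → Fr → ℂ}
    (hB : Adm 1 B) {I : Set ℝ} {z : ℝ → Fr → ℂ} (hrd : ∀ t ∈ I, RD (z t)) (hz : URD I z) :
    ∃ C, ∀ t ∈ I, ∀ k, br k ^ 4 * ‖rhs α κ B (z t) k‖ ≤ C := by
  obtain ⟨M, hM⟩ := hz 11
  obtain ⟨M6, hM6⟩ := hz 6
  obtain ⟨D, hD⟩ := hz 9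
  obtain ⟨C₁, hC₁⟩ := hB.bd 8
  obtain ⟨C₂, hC₂0, hC₂⟩ := nl2_bound 4
  set S0 : ℝ := ∑' k : Fr, (br k ^ 4)⁻¹ with hS0
  set A : ℝ := Real.sqrt (|C₁| * (M ^ 2 * S0)) with hA
  refine ⟨κ * M6 + C₂ * A * D, fun t ht k => ?_⟩
  have hb1 : (0 : ℝ) < br k := lt_of_lt_of_le one_pos (cv_br_one k)
  have hAb : ∀ k, br k ^ (4 + 5) * ‖B (z t) k‖ ≤ A := by
    intro k
    refine Real.le_sqrt_of_sq_le ?_
    obtain ⟨h1, h2⟩ := hC₁ (z t) (hrd t ht)
    refine (cv_single (B (z t)) h1 k).trans (h2.trans ?_)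
    have h3 := cv_YY (z t) (fun k => hM t ht k)
    have h4 : 0 ≤ YY (((8 : ℕ) : ℝ) + 1) (z t) := tsum_nonneg fun j => by
      have h1 : (0 : ℝ) < br j := lt_of_lt_of_le one_pos (cv_br_one j)
      positivity
    calc C₁ * YY (((8 : ℕ) : ℝ) + 1) (z t) ≤ |C₁| * YY (((8 : ℕ) : ℝ) + 1) (z t) :=
          mul_le_mul_of_nonneg_right (le_abs_self _) h4
      _ ≤ |C₁| * (M ^ 2 * S0) := mul_le_mul_of_nonneg_left h3 (abs_nonneg _)
  have hnl := (hC₂ (B (z t)) (z t) A D hAb (fun k => hD t ht k)).2 k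
  have h1 : ‖rhs α κ B (z t) k‖ ≤ κ * (br k ^ 2 * ‖z t k‖) + ‖nl2 (B (z t)) (z t) k‖ := by
    unfold rhs
    refine (norm_sub_le _ _).trans (add_le_add_left ?_ _)
    rw [norm_mul, norm_neg, Complex.norm_real, Real.norm_eq_abs, abs_of_nonneg
      (mul_nonneg hκ.le (Real.rpow_nonneg (cv_len_nonneg k) _)), mul_assoc]
    exact mul_le_mul_of_nonneg_left (mul_le_mul_of_nonneg_right (cv_len_rpow hα hα1 k)
      (norm_nonneg _)) hκ.le
  calc br k ^ 4 * ‖rhs α κ B (z t) k‖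
      ≤ br k ^ 4 * (κ * (br k ^ 2 * ‖z t k‖) + ‖nl2 (B (z t)) (z t) k‖) :=
        mul_le_mul_of_nonneg_left h1 (by positivity)
    _ = κ * (br k ^ 6 * ‖z t k‖) + br k ^ 4 * ‖nl2 (B (z t)) (z t) k‖ := by ring
    _ ≤ κ * M6 + C₂ * A * D :=
        add_le_add (mul_le_mul_of_nonneg_left (hM6 t ht k) hκ.le) hnl

lemma cv_IsF_le {z : Fr → ℂ} {f : Pt → ℝ} (h : IsF z f) {C : ℝ}
    (hz : ∀ k, br k ^ 4 * ‖z k‖ ≤ C) (x : Pt) : |f x| ≤ C * ∑' k : Fr, (br k ^ 4)⁻¹ := by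
  have h1 : ∀ k, ‖z k * ex k x‖ ≤ C * (br k ^ 4)⁻¹ := by
    intro k
    have hb1 : (0 : ℝ) < br k := lt_of_lt_of_le one_pos (cv_br_one k)
    rw [norm_mul, cv_ex_norm, mul_one, ← div_eq_mul_inv, le_div_iff₀ (by positivity), mul_comm]
    exact hz k
  have h2 : Summable fun k => C * (br k ^ 4)⁻¹ := summable_br.mul_left _
  have h3 : Summable fun k => ‖z k * ex k x‖ :=
    Summable.of_nonneg_of_le (fun k => norm_nonneg _) h1 h2
  have h4 : ‖(f x : ℂ)‖ ≤ ∑' k, C * (br k ^ 4)⁻¹ := by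
    rw [h.2 x]
    exact (norm_tsum_le_tsum_norm h3).trans (h3.tsum_le_tsum h1 h2)
  rw [Complex.norm_real, Real.norm_eq_abs, tsum_mul_left] at h4
  exact h4

lemma cv_theta_cont {lam α κ : ℝ} {w : ℕ → ℝ} {E : ℕ → Pt → ℝ} {θ₀ : Pt → ℝ} {T : ℝ}
    {θ : ℝ → Pt → ℝ} (h : IsSol lam α κ w E θ₀ T θ) (x : Pt) :
    ContinuousOn (fun t => θ t x) (Ico 0 T) := by
  have h1 : ContinuousOn (fun t : ℝ => iteratedFDeriv ℝ 0 (θ t) x) (Ico 0 T) := by
    have h2 : ContinuousOn (fun t : ℝ => ((t, x) : ℝ × Pt)) (Ico 0 T) :=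
      (continuous_id.prodMk continuous_const).continuousOn
    exact (h.cont 0).comp h2 (fun t ht => ⟨ht, mem_univ _⟩)
  have h3 : (fun t => θ t x) = fun t => iteratedFDeriv ℝ 0 (θ t) x (fun _ => 0) := by
    funext t
    rw [iteratedFDeriv_zero_apply]
  rw [h3]
  intro t ht
  have h4 := h1 t ht
  exact (ContinuousMultilinearMap.apply ℝ (fun _ : Fin 0 => Pt) ℝ
    (fun _ => 0)).continuous.continuousAt.comp_continuousWithinAt h4

lemma cv_theta_bound {lam α κ : ℝ} {w : ℕ → ℝ} {E : ℕ → Pt → ℝ} {θ₀ : Pt → ℝ} {T : ℝ}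
    {θ : ℝ → Pt → ℝ} (h : IsSol lam α κ w E θ₀ T θ) {T' : ℝ} (hT' : T' < T) :
    ∃ M, ∀ t ∈ Icc 0 T', ∀ x, |θ t x| ≤ M := by
  obtain ⟨M, hM⟩ := cv_unif h hT' 0
  refine ⟨M, fun t ht x => ?_⟩
  have := hM t ht x
  rwa [norm_iteratedFDeriv_zero, Real.norm_eq_abs] at this

lemma cv_meas {f : Pt → ℝ} (hf : Continuous f) (k : Fr) (μ : Measure Pt) :
    AEStronglyMeasurable (fun x => (f x : ℂ) * ex (-k) x) μ :=
  ((Complex.continuous_ofReal.comp hf).mul (cv_ex_cont (-k))).aestronglyMeasurable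

/-- TARGET -/
theorem csol_of_isSol {lam α κ a C₁ C₂ T : ℝ} (hα : 0 < α) (hα1 : α ≤ 1) (hκ : 0 < κ) (ha : 0 ≤ a)
    (hC₁ : 1 ≤ C₁) (hC₂ : 0 ≤ C₂) {n₀ : ℕ} (hn : 1 ≤ n₀) {E : ℕ → Pt → ℝ} (hE : ∀ n, Sm (E n))
    (he : Band C₁ C₂ n₀ fun n => fc (E n)) {θ₀ : Pt → ℝ} {θ : ℝ → Pt → ℝ}
    (h : IsSol lam α κ (wts a n₀) E θ₀ T θ) :
    CSol α κ (Bop lam (wts a n₀) fun n => fc (E n)) T (fun t => fc (θ t)) := by
  have : IsFiniteMeasure (volume.restrict Qb) := ⟨by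
    rw [Measure.restrict_apply_univ]
    exact cv_Qb_finite⟩
  have hB : Adm 1 (Bop lam (wts a n₀) fun n => fc (E n)) :=
    adm_Bop lam a C₁ C₂ 1 ha hC₁ hC₂ one_pos hn he
  refine ⟨fun T' hT' => cv_rd h hT', fun t _ k => fc_herm (θ t) k, fun k => ?_, fun t ht k => ?_⟩
  · -- continuity
    unfold fc
    refine ContinuousOn.mul continuousOn_const ?_
    intro t ht
    obtain ⟨T', hT1, hT2⟩ := exists_between ht.2
    obtain ⟨M, hM⟩ := cv_theta_bound h hT2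
    have hev : ∀ᶠ s in 𝓝[Ico 0 T] t, s ∈ Icc 0 T' := by
      have h1 : ∀ᶠ s in 𝓝 t, s < T' := eventually_lt_nhds hT1
      filter_upwards [eventually_nhdsWithin_of_eventually_nhds h1, self_mem_nhdsWithin] with s h2 h3
      exact ⟨h3.1, h2.le⟩
    refine continuousWithinAt_of_dominated (bound := fun _ => M) ?_ ?_ (integrable_const _) ?_
    · filter_upwards [self_mem_nhdsWithin] with s hs
      exact cv_meas (h.smooth s hs).continuous k _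
    · filter_upwards [hev] with s hs
      refine Eventually.of_forall fun x => ?_
      rw [norm_mul, cv_ex_norm, mul_one, Complex.norm_real]
      exact hM s hs x
    · refine Eventually.of_forall fun x => ?_
      exact ContinuousWithinAt.mul (Complex.continuous_ofReal.continuousAt.comp_continuousWithinAt
        (cv_theta_cont h x t ht)) continuousWithinAt_const
  · -- derivative
    set g : ℝ → Pt → ℝ := fun s x => -(vel1 lam (wts a n₀) E (θ s) x * d1 (θ s) x +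
      vel2 lam (wts a n₀) E (θ s) x * d2 (θ s) x) - κ * fracLap (2 * α) (θ s) x with hg
    have hser : ∀ s ∈ Ico 0 T, IsF (rhs α κ (Bop lam (wts a n₀) fun n => fc (E n)) (fc (θ s)))
        (g s) := fun s hs => rhs_series hα ha hE he (cv_sm h hs)
    obtain ⟨T', hT1, hT2⟩ := exists_between ht.2
    obtain ⟨C, hC⟩ := cv_rhs (κ := κ) hα hα1 hκ hB (I := Icc 0 T') (z := fun t => fc (θ t))
      (fun s hs => RD_fc (cv_sm h ⟨hs.1, hs.2.trans_lt hT2⟩)) (cv_rd h hT2)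
    have hgb : ∀ s ∈ Icc 0 T', ∀ x, |g s x| ≤ C * ∑' k : Fr, (br k ^ 4)⁻¹ := fun s hs x =>
      cv_IsF_le (hser s ⟨hs.1, hs.2.trans_lt hT2⟩) (fun k => hC s hs k) x
    have htT : t ∈ Ico 0 T := ⟨ht.1.le, ht.2⟩
    have hmem : Ioo 0 T' ∈ 𝓝 t := Ioo_mem_nhds ht.1 hT1
    have hsub : ∀ s ∈ Ioo 0 T', s ∈ Ioo 0 T := fun s hs => ⟨hs.1, hs.2.trans hT2⟩
    have hmain := hasDerivAt_integral_of_dominated_loc_of_deriv_le (μ := volume.restrict Qb)
      (F := fun s x => (θ s x : ℂ) * ex (-k) x) (F' := fun s x => (g s x : ℂ) * ex (-k) x)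
      (x₀ := t) (s := Ioo 0 T') (bound := fun _ => C * ∑' k : Fr, (br k ^ 4)⁻¹) hmem
      (by
        filter_upwards [hmem] with s hs
        exact cv_meas (h.smooth s ⟨(hsub s hs).1.le, (hsub s hs).2⟩).continuous k _)
      (by
        obtain ⟨M, hM⟩ := cv_theta_bound h hT2
        refine Integrable.mono' (integrable_const M) (cv_meas (h.smooth t htT).continuous k _)
          (Eventually.of_forall fun x => ?_)
        rw [norm_mul, cv_ex_norm, mul_one, Complex.norm_real]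
        exact hM t ⟨ht.1.le, hT1.le⟩ x)
      (cv_meas (hser t htT).sm.1.continuous k _)
      (Eventually.of_forall fun x s hs => by
        rw [norm_mul, cv_ex_norm, mul_one, Complex.norm_real]
        exact hgb s ⟨hs.1.le, hs.2.le⟩ x)
      (integrable_const _)
      (Eventually.of_forall fun x s hs =>
        ((h.eqn s (hsub s hs) x).ofReal_comp).mul_const _)
    have h1 := hmain.2.const_mul ((((2 * Real.pi) ^ 2)⁻¹ : ℝ) : ℂ)
    have h2 : fc (g t) k = rhs α κ (Bop lam (wts a n₀) fun n => fc (E n)) (fc (θ t)) k :=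
      congrFun (hser t htT).fc_eq k
    rw [← h2]
    exact h1

end H706.JCV2

namespace H706

alias csol_of_isSol := JCV2.csol_of_isSol

end H706
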