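import Pool.Agent.Helper706_SQG.Defs2
import Pool.Agent.Helper706_SQG.FA
import Pool.Agent.Helper706_SQG.FC

/-!
JOB FE (MP_96bed6_an, helper706).  Joint continuity in time and space of the derivatives of a family of
Fourier series with uniformly rapidly decreasing coefficients; termwise differentiation in time.

PROOF.  (1) The `j`-th iterated derivative in `x` of `x ↦ (∑' k, z t k * ex k x).re` is the sum of the
iterated derivatives (`iteratedFDeriv_tsum`, `contDiff_tsum`), each of norm `≤ ‖z t k‖ (C br k)^j`, and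
`(t,x) ↦ iteratedFDeriv j (x ↦ (z t k * ex k x).re) x` is continuous on `I ×ˢ univ`;
`continuousOn_tsum` with the summable bound `C_N br k ^ (-4)`.
(2) `hasDerivAt_tsum_of_isPreconnected` on the open interval, with the uniform bound
`‖z' t k‖ ≤ C br k ^ (-4)`.
-/

set_option autoImplicit false
open Set Filter Topology MeasureTheory
open scoped ComplexConjugate ContDiff

namespace H706.JFE

section aux846

/-- the linear form `k·x` -/
noncomputable def lf846 (k : Fr) : Pt →L[ℝ] ℝ :=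
  (k.1 : ℝ) • ContinuousLinearMap.fst ℝ ℝ ℝ + (k.2 : ℝ) • ContinuousLinearMap.snd ℝ ℝ ℝ

theorem lf846_apply (k : Fr) (x : Pt) : lf846 k x = (k.1 : ℝ) * x.1 + (k.2 : ℝ) * x.2 := by
  simp [lf846]

/-- `r ↦ exp (i r)` -/
noncomputable def e846 (r : ℝ) : ℂ := Complex.exp ((r : ℂ) * Complex.I)

theorem ex_eq846 (k : Fr) : ex k = e846 ∘ (lf846 k) := by
  funext x
  simp only [ex, e846, Function.comp, lf846_apply]

theorem e846_contDiff {n : WithTop ℕ∞} : ContDiff ℝ n e846 := by
  unfold e846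
  exact (Complex.ofRealCLM.contDiff.mul contDiff_const).cexp

theorem e846_deriv (r : ℝ) : HasDerivAt e846 (Complex.I * e846 r) r := by
  have h1 : HasDerivAt (fun r : ℝ => (r : ℂ) * Complex.I) (1 * Complex.I) r :=
    (Complex.ofRealCLM.hasDerivAt (x := r)).mul_const Complex.I
  have h2 := h1.cexp
  unfold e846
  convert h2 using 1
  ring

theorem e846_iter (j : ℕ) (r : ℝ) : iteratedDeriv j e846 r = Complex.I ^ j * e846 r := by
  induction j generalizing r with
  | zero => simp
  | succ j ih =>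
    rw [iteratedDeriv_succ]
    have h : iteratedDeriv j e846 = fun r => Complex.I ^ j * e846 r := funext ih
    rw [h]
    rw [((e846_deriv r).const_mul (Complex.I ^ j)).deriv]
    ring

theorem e846_norm (r : ℝ) : ‖e846 r‖ = 1 := by
  unfold e846
  exact Complex.norm_exp_ofReal_mul_I r

theorem norm_ex846 (k : Fr) (x : Pt) : ‖ex k x‖ = 1 := by
  rw [ex_eq846]; exact e846_norm _

theorem len_nonneg846 (k : Fr) : 0 ≤ len k := Real.sqrt_nonneg _

theorem br_one846 (k : Fr) : 1 ≤ br k := by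
  unfold br; linarith [len_nonneg846 k]

theorem abs_fst846 (k : Fr) : |(k.1 : ℝ)| ≤ br k := by
  unfold br len
  have : |(k.1 : ℝ)| ≤ Real.sqrt ((k.1 : ℝ) ^ 2 + (k.2 : ℝ) ^ 2) := by
    apply Real.abs_le_sqrt
    nlinarith [sq_nonneg (k.2 : ℝ)]
  linarith

theorem abs_snd846 (k : Fr) : |(k.2 : ℝ)| ≤ br k := by
  unfold br len
  have : |(k.2 : ℝ)| ≤ Real.sqrt ((k.1 : ℝ) ^ 2 + (k.2 : ℝ) ^ 2) := by
    apply Real.abs_le_sqrt
    nlinarith [sq_nonneg (k.1 : ℝ)]
  linarith

theorem norm_lf846 (k : Fr) : ‖lf846 k‖ ≤ 2 * br k := by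
  unfold lf846
  refine (norm_add_le _ _).trans ?_
  rw [norm_smul, norm_smul]
  have h1 : ‖ContinuousLinearMap.fst ℝ ℝ ℝ‖ ≤ 1 := ContinuousLinearMap.norm_fst_le ..
  have h2 : ‖ContinuousLinearMap.snd ℝ ℝ ℝ‖ ≤ 1 := ContinuousLinearMap.norm_snd_le ..
  have h3 := abs_fst846 k
  have h4 := abs_snd846 k
  rw [Real.norm_eq_abs, Real.norm_eq_abs]
  nlinarith [abs_nonneg (k.1 : ℝ), abs_nonneg (k.2 : ℝ)]

theorem ex_contDiff846 (k : Fr) {n : WithTop ℕ∞} : ContDiff ℝ n (ex k) := by
  rw [ex_eq846]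
  exact e846_contDiff.comp (lf846 k).contDiff

theorem norm_iter_ex846 (k : Fr) (j : ℕ) (x : Pt) :
    ‖iteratedFDeriv ℝ j (ex k) x‖ ≤ (2 * br k) ^ j := by
  rw [ex_eq846, ContinuousLinearMap.iteratedFDeriv_comp_right (lf846 k)
    (e846_contDiff (n := ⊤)) x (i := j) (by exact_mod_cast le_top)]
  refine (ContinuousMultilinearMap.norm_compContinuousLinearMap_le _ _).trans ?_
  rw [norm_iteratedFDeriv_eq_norm_iteratedDeriv, e846_iter, norm_mul, norm_pow, Complex.norm_I,
    one_pow, e846_norm]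
  simp only [one_mul, Finset.prod_const, Finset.card_univ, Fintype.card_fin]
  exact pow_le_pow_left₀ (norm_nonneg _) (norm_lf846 k) j

/-- the linear map `w ↦ Re (z w)` -/
noncomputable def rl846 (z : ℂ) : ℂ →L[ℝ] ℝ :=
  Complex.reCLM.comp (ContinuousLinearMap.mul ℝ ℂ z)

theorem rl846_apply (z w : ℂ) : rl846 z w = (z * w).re := by
  simp [rl846]

theorem norm_rl846 (z : ℂ) : ‖rl846 z‖ ≤ ‖z‖ := by
  refine ContinuousLinearMap.opNorm_le_bound _ (norm_nonneg _) (fun w => ?_)
  rw [rl846_apply, ← norm_mul]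
  exact Complex.abs_re_le_norm _

theorem iter_re846 (z : ℂ) (k : Fr) (j : ℕ) (x : Pt) :
    iteratedFDeriv ℝ j (fun x => (z * ex k x).re) x
      = (rl846 z).compContinuousMultilinearMap (iteratedFDeriv ℝ j (ex k) x) := by
  have h : (fun x => (z * ex k x).re) = (rl846 z) ∘ ex k := by
    funext x; simp [rl846_apply]
  rw [h]
  exact ContinuousLinearMap.iteratedFDeriv_comp_left (rl846 z)
    ((ex_contDiff846 k (n := ⊤)).contDiffAt) (by exact_mod_cast le_top)

theorem norm_iter_re846 (z : ℂ) (k : Fr) (j : ℕ) (x : Pt) :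
    ‖iteratedFDeriv ℝ j (fun x => (z * ex k x).re) x‖ ≤ ‖z‖ * (2 * br k) ^ j := by
  rw [iter_re846]
  refine (ContinuousLinearMap.norm_compContinuousMultilinearMap_le _ _).trans ?_
  exact mul_le_mul (norm_rl846 z) (norm_iter_ex846 k j x) (norm_nonneg _) (norm_nonneg _)

theorem re_contDiff846 (z : ℂ) (k : Fr) {n : WithTop ℕ∞} :
    ContDiff ℝ n (fun x => (z * ex k x).re) := by
  have h : (fun x => (z * ex k x).re) = (rl846 z) ∘ ex k := by
    funext x; simp [rl846_apply]
  rw [h]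
  exact (rl846 z).contDiff.comp (ex_contDiff846 k)

theorem RD.norm_summable846 {z : Fr → ℂ} (hz : RD z) : Summable fun k => ‖z k‖ := by
  simpa using RD_summable hz 0

theorem RD.summable846 {z : Fr → ℂ} (hz : RD z) (x : Pt) : Summable fun k => z k * ex k x := by
  apply Summable.of_norm
  simpa [norm_mul, norm_ex846] using hz.norm_summable846

theorem re_tsum846 {z : Fr → ℂ} (hz : RD z) :
    (fun x => (∑' k, z k * ex k x).re) = fun x => ∑' k, (z k * ex k x).re := by
  funext x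
  exact Complex.reCLM.map_tsum (hz.summable846 x)

theorem summ846 {z : Fr → ℂ} (hz : RD z) (j : ℕ) :
    Summable fun k => ‖z k‖ * (2 * br k) ^ j := by
  have := (RD_summable hz j).mul_left ((2 : ℝ) ^ j)
  refine this.congr (fun k => ?_)
  rw [mul_pow]; ring

end aux846

/-- TARGET 1 -/
theorem series_cont {I : Set ℝ} {z : ℝ → Fr → ℂ} (hz : URD I z)
    (hc : ∀ k, ContinuousOn (fun t => z t k) I) (j : ℕ) :
    ContinuousOn (fun p : ℝ × Pt => iteratedFDeriv ℝ j (fun x => (∑' k, z p.1 k * ex k x).re) p.2)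
      (I ×ˢ univ) := by
  have hRD : ∀ t ∈ I, RD (z t) := by
    intro t ht N
    obtain ⟨C, hC⟩ := hz N
    exact ⟨C, hC t ht⟩
  have key : ∀ p ∈ I ×ˢ (univ : Set Pt),
      iteratedFDeriv ℝ j (fun x => (∑' k, z p.1 k * ex k x).re) p.2
        = ∑' k, iteratedFDeriv ℝ j (fun x => (z p.1 k * ex k x).re) p.2 := by
    intro p hp
    have h1 := hRD p.1 hp.1
    rw [re_tsum846 h1]
    exact iteratedFDeriv_tsum_apply (N := ⊤) (v := fun j k => ‖z p.1 k‖ * (2 * br k) ^ j)
      (fun k => re_contDiff846 _ k) (fun j _ => summ846 h1 j)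
      (fun j k x _ => norm_iter_re846 _ k j x) le_top p.2
  refine ContinuousOn.congr ?_ key
  obtain ⟨C, hC⟩ := hz (j + 4)
  refine continuousOn_tsum (u := fun k => (2 : ℝ) ^ j * C * (br k ^ 4)⁻¹) ?_
    (summable_br.mul_left _) ?_
  · intro k
    have h1 : (fun p : ℝ × Pt => iteratedFDeriv ℝ j (fun x => (z p.1 k * ex k x).re) p.2)
        = fun p : ℝ × Pt => (ContinuousLinearMap.compContinuousMultilinearMapL ℝ
          (fun _ : Fin j => Pt) ℂ ℝ (rl846 (z p.1 k))) (iteratedFDeriv ℝ j (ex k) p.2) := by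
      funext p
      rw [iter_re846]
      rfl
    rw [h1]
    have h2 : ContinuousOn (fun p : ℝ × Pt => z p.1 k) (I ×ˢ univ) :=
      (hc k).comp continuousOn_fst (fun p hp => hp.1)
    have h3 : Continuous (fun w : ℂ => rl846 w) := by
      unfold rl846
      exact ((ContinuousLinearMap.compL ℝ ℂ ℂ ℝ Complex.reCLM).continuous).comp
        (ContinuousLinearMap.mul ℝ ℂ).continuous
    have h4 : ContinuousOn (fun p : ℝ × Pt => rl846 (z p.1 k)) (I ×ˢ univ) :=
      h3.comp_continuousOn h2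
    have h5 : Continuous (fun p : ℝ × Pt => iteratedFDeriv ℝ j (ex k) p.2) :=
      ((ex_contDiff846 k (n := ⊤)).continuous_iteratedFDeriv (by exact_mod_cast le_top)).comp
        continuous_snd
    have h6 : ContinuousOn (fun p : ℝ × Pt => ContinuousLinearMap.compContinuousMultilinearMapL ℝ
          (fun _ : Fin j => Pt) ℂ ℝ (rl846 (z p.1 k))) (I ×ˢ univ) :=
      (ContinuousLinearMap.compContinuousMultilinearMapL ℝ
          (fun _ : Fin j => Pt) ℂ ℝ).continuous.comp_continuousOn h4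
    exact h6.clm_apply h5.continuousOn
  · intro k p hp
    refine (norm_iter_re846 _ k j _).trans ?_
    have h1 := hC p.1 hp.1 k
    have hb : 0 < br k := lt_of_lt_of_le one_pos (br_one846 k)
    have h2 : ‖z p.1 k‖ * (2 * br k) ^ j
        = (2 : ℝ) ^ j * (br k ^ (j + 4) * ‖z p.1 k‖) * (br k ^ 4)⁻¹ := by
      field_simp
      ring
    rw [h2]
    have : 0 ≤ (br k ^ 4)⁻¹ := by positivity
    gcongr

/-- TARGET 2 -/
theorem series_deriv {a b : ℝ} {z z' : ℝ → Fr → ℂ} (hz : URD (Ioo a b) z) (hz' : URD (Ioo a b) z')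
    (hd : ∀ t ∈ Ioo a b, ∀ k, HasDerivAt (fun s => z s k) (z' t k) t) (x : Pt) :
    ∀ t ∈ Ioo a b, HasDerivAt (fun s => (∑' k, z s k * ex k x).re)
      (∑' k, z' t k * ex k x).re t := by
  intro t ht
  obtain ⟨C, hC⟩ := hz' 4
  have hRD : RD (z t) := by
    intro N
    obtain ⟨C, hC⟩ := hz N
    exact ⟨C, hC t ht⟩
  have h1 : HasDerivAt (fun s => ∑' k, z s k * ex k x) (∑' k, z' t k * ex k x) t := by
    refine hasDerivAt_tsum_of_isPreconnected (u := fun k => C * (br k ^ 4)⁻¹)
      (summable_br.mul_left _) isOpen_Ioo isPreconnected_Ioo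
      (fun k s hs => (hd s hs k).mul_const _) ?_ ht (hRD.summable846 x) ht
    intro k s hs
    rw [norm_mul, norm_ex846, mul_one]
    have h1 := hC s hs k
    have hb : 0 < br k := lt_of_lt_of_le one_pos (br_one846 k)
    have hb4 : 0 < br k ^ 4 := by positivity
    rw [← div_eq_mul_inv, le_div_iff₀ hb4]
    linarith
  exact (Complex.reCLM.hasFDerivAt.comp_hasDerivAt t h1)

end H706.JFE

namespace H706

alias series_cont := JFE.series_cont
alias series_deriv := JFE.series_deriv

end H706
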