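import Pool.Agent.Helper706_SQG.Defs2
import Pool.Agent.Helper706_SQG.CV1
import Pool.Agent.Helper706_SQG.OB2
import Pool.Agent.Helper706_SQG.FE

/-!
JOB CV3 (MP_96bed6_an, helper706).  From solutions for the coefficients to smooth solutions.

PROOF.  Let `θ t x = (∑' k, z t k * ex k x).re`. For `t ∈ [0,T₀]`, `IsF (z t) (θ t)` by `IsF_of_herm`, so
`θ t` is smooth and periodic and `fc (θ t) = z t`. `init`: `IsF_fc hθ₀` and `z 0 = fc θ₀`. `cont`: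
`series_cont` on `I = Icc 0 T₀` (the coefficients are continuous there since they are differentiable
within `Icc 0 T₀`), restricted to `Ico`. `eqn`: on `Ioo 0 T₀` the derivative within `Icc` is a derivative;
`z' t = rhs .. (z t)` is `URD` on `Ioo 0 T₀` (`nl2_bound`, `adm_Bop` with some `β ≤ 1`:
`br^p ‖B z‖ ≤ √(YY p (B z)) ≤ √(C YY (p-1+β) z)` and `YY` is bounded by the `URD` bounds);
`series_deriv` gives `HasDerivAt (θ · x) (∑' k, rhs .. (z t) k * ex k x).re t`, and this is the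
required expression by `rhs_series` applied to `f = θ t` (take real parts).
-/

set_option autoImplicit false
open Set Filter Topology MeasureTheory
open scoped ComplexConjugate ContDiff

namespace H706.JCV3

theorem len_nn (k : Fr) : 0 ≤ len k := Real.sqrt_nonneg _

theorem br_ge (k : Fr) : 1 ≤ br k := by
  unfold br
  linarith [len_nn k]

theorem br_rpow (k : Fr) (p : ℕ) : br k ^ (2 * ((p : ℝ) + 1)) = (br k ^ (p + 1)) ^ 2 := by
  have h : (2 * ((p : ℝ) + 1)) = ((2 * (p + 1) : ℕ) : ℝ) := by push_cast; ring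
  rw [h, Real.rpow_natCast, pow_mul, ← pow_mul, mul_comm, pow_mul]

theorem YY_eq (p : ℕ) (z : Fr → ℂ) : YY ((p : ℝ) + 1) z = ∑' k, (br k ^ (p + 1) * ‖z k‖) ^ 2 := by
  unfold YY
  congr 1
  funext k
  rw [br_rpow, mul_pow]

theorem term_bd (p : ℕ) (z : Fr → ℂ) (C : ℝ) (hC : ∀ k, br k ^ (p + 3) * ‖z k‖ ≤ C) (k : Fr) :
    (br k ^ (p + 1) * ‖z k‖) ^ 2 ≤ C ^ 2 * (br k ^ 4)⁻¹ := by
  have hb := br_ge k
  have hb0 : 0 < br k := by linarith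
  have h1 := hC k
  have h2 : 0 ≤ br k ^ (p + 3) * ‖z k‖ := by positivity
  have h3 : (br k ^ (p + 3) * ‖z k‖) ^ 2 ≤ C ^ 2 := pow_le_pow_left₀ h2 h1 2
  have h4 : (br k ^ (p + 1) * ‖z k‖) ^ 2 = (br k ^ (p + 3) * ‖z k‖) ^ 2 * (br k ^ 4)⁻¹ := by
    field_simp
    ring
  rw [h4]
  exact mul_le_mul_of_nonneg_right h3 (by positivity)

theorem YY_sum (p : ℕ) {z : Fr → ℂ} (hz : RD z) :
    Summable fun k => (br k ^ (p + 1) * ‖z k‖) ^ 2 := by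
  obtain ⟨C, hC⟩ := hz (p + 3)
  exact Summable.of_nonneg_of_le (fun k => sq_nonneg _) (term_bd p z C hC)
    (summable_br.mul_left _)

theorem YY_le (p : ℕ) {z : Fr → ℂ} (C : ℝ) (hC : ∀ k, br k ^ (p + 3) * ‖z k‖ ≤ C) :
    YY ((p : ℝ) + 1) z ≤ C ^ 2 * ∑' k : Fr, (br k ^ 4)⁻¹ := by
  rw [YY_eq, ← tsum_mul_left]
  have hs : Summable fun k => (br k ^ (p + 1) * ‖z k‖) ^ 2 :=
    Summable.of_nonneg_of_le (fun k => sq_nonneg _) (term_bd p z C hC)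
      (summable_br.mul_left _)
  exact hs.tsum_le_tsum (term_bd p z C hC) (summable_br.mul_left _)

theorem le_YY (p : ℕ) {z : Fr → ℂ} (hz : RD z) (k : Fr) :
    br k ^ (p + 1) * ‖z k‖ ≤ Real.sqrt (YY ((p : ℝ) + 1) z) := by
  apply Real.le_sqrt_of_sq_le
  rw [YY_eq]
  exact (YY_sum p hz).le_tsum k (fun j _ => sq_nonneg _)

theorem URD_rhs {lam α κ a C₁ C₂ : ℝ} (hα : 0 < α) (hα1 : α ≤ 1) (ha : 0 ≤ a)
    (hC₁ : 1 ≤ C₁) (hC₂ : 0 ≤ C₂) {n₀ : ℕ} (hn : 1 ≤ n₀) {e : ℕ → Fr → ℂ}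
    (he : Band C₁ C₂ n₀ e) {I : Set ℝ} {z : ℝ → Fr → ℂ} (hz : URD I z) :
    URD I (fun t => rhs α κ (Bop lam (wts a n₀) e) (z t)) := by
  intro N
  obtain ⟨C, hC0, hC⟩ := nl2_bound N
  obtain ⟨D1, hD1⟩ := hz (N + 2)
  obtain ⟨D5, hD5⟩ := hz (N + 5)
  obtain ⟨D7, hD7⟩ := hz (N + 7)
  obtain ⟨K, hK⟩ := (adm_Bop lam a C₁ C₂ 1 ha hC₁ hC₂ one_pos hn he).bd (N + 4)
  set S := ∑' k : Fr, (br k ^ 4)⁻¹ with hS
  refine ⟨|κ| * D1 + C * Real.sqrt (|K| * (D7 ^ 2 * S)) * D5, ?_⟩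
  intro t ht k
  have hRD : RD (z t) := fun M => by
    obtain ⟨c, hc⟩ := hz M
    exact ⟨c, hc t ht⟩
  obtain ⟨k1, k2⟩ := hK (z t) hRD
  have hS0 : 0 ≤ S := tsum_nonneg fun k => by
    have := br_ge k
    positivity
  have hYY : YY (((N + 4 : ℕ) : ℝ) + 1) (z t) ≤ D7 ^ 2 * S :=
    YY_le (N + 4) D7 (hD7 t ht)
  have hYY0 : 0 ≤ YY (((N + 4 : ℕ) : ℝ) + 1) (z t) := by
    rw [YY_eq]
    exact tsum_nonneg fun k => sq_nonneg _
  have hB : ∀ k, br k ^ (N + 5) * ‖Bop lam (wts a n₀) e (z t) k‖ ≤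
      Real.sqrt (|K| * (D7 ^ 2 * S)) := by
    intro k
    refine (le_YY (N + 4) k1 k).trans (Real.sqrt_le_sqrt ?_)
    refine k2.trans ?_
    calc K * YY (((N + 4 : ℕ) : ℝ) + 1) (z t) ≤ |K| * YY (((N + 4 : ℕ) : ℝ) + 1) (z t) :=
          mul_le_mul_of_nonneg_right (le_abs_self K) hYY0
      _ ≤ |K| * (D7 ^ 2 * S) := mul_le_mul_of_nonneg_left hYY (abs_nonneg K)
  obtain ⟨-, h2⟩ := hC _ (z t) _ D5 hB (hD5 t ht)
  have h3 := h2 k
  have hb := br_ge k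
  have hb0 : 0 < br k := by linarith
  have hlen : len k ^ (2 * α) ≤ br k ^ 2 := by
    calc len k ^ (2 * α) ≤ br k ^ (2 * α) :=
          Real.rpow_le_rpow (len_nn k) (by unfold br; linarith) (by linarith)
      _ ≤ br k ^ (2 : ℝ) := Real.rpow_le_rpow_of_exponent_le hb (by linarith)
      _ = br k ^ 2 := by norm_num
  have hlen0 : 0 ≤ len k ^ (2 * α) := Real.rpow_nonneg (len_nn k) _
  have h4 : ‖rhs α κ (Bop lam (wts a n₀) e) (z t) k‖ ≤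
      |κ| * br k ^ 2 * ‖z t k‖ + ‖nl2 (Bop lam (wts a n₀) e (z t)) (z t) k‖ := by
    unfold rhs
    refine (norm_sub_le _ _).trans ?_
    gcongr
    rw [norm_mul, norm_neg, Complex.norm_real, Real.norm_eq_abs, abs_mul, abs_of_nonneg hlen0]
    gcongr
  calc br k ^ N * ‖rhs α κ (Bop lam (wts a n₀) e) (z t) k‖
      ≤ br k ^ N * (|κ| * br k ^ 2 * ‖z t k‖ +
          ‖nl2 (Bop lam (wts a n₀) e (z t)) (z t) k‖) := by gcongr
    _ = |κ| * (br k ^ (N + 2) * ‖z t k‖) +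
          br k ^ N * ‖nl2 (Bop lam (wts a n₀) e (z t)) (z t) k‖ := by ring
    _ ≤ |κ| * D1 + C * Real.sqrt (|K| * (D7 ^ 2 * S)) * D5 := by
        gcongr
        exact hD1 t ht k

/-- TARGET -/
theorem isSol_of_coef {lam α κ a C₁ C₂ T₀ : ℝ} (hα : 0 < α) (hα1 : α ≤ 1) (ha : 0 ≤ a)
    (hC₁ : 1 ≤ C₁) (hC₂ : 0 ≤ C₂) {n₀ : ℕ} (hn : 1 ≤ n₀) {E : ℕ → Pt → ℝ} (hE : ∀ n, Sm (E n))
    (he : Band C₁ C₂ n₀ fun n => fc (E n)) (hT : 0 < T₀) {θ₀ : Pt → ℝ} (hθ₀ : Sm θ₀)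
    {z : ℝ → Fr → ℂ} (h0 : z 0 = fc θ₀) (hz : URD (Icc 0 T₀) z) (hh : ∀ t ∈ Icc 0 T₀, Herm (z t))
    (hd : ∀ t ∈ Icc 0 T₀, ∀ k, HasDerivWithinAt (fun s => z s k)
      (rhs α κ (Bop lam (wts a n₀) fun n => fc (E n)) (z t) k) (Icc 0 T₀) t) :
    IsSol lam α κ (wts a n₀) E θ₀ T₀ (fun t x => (∑' k, z t k * ex k x).re) := by
  have hF : ∀ t ∈ Icc 0 T₀, IsF (z t) (fun x => (∑' k, z t k * ex k x).re) := by
    intro t ht
    refine IsF_of_herm (fun M => ?_) (hh t ht)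
    obtain ⟨c, hc⟩ := hz M
    exact ⟨c, hc t ht⟩
  refine ⟨?_, ?_, ?_, ?_, ?_⟩
  · funext x
    have h1 := (IsF_fc hθ₀).2 x
    simp only [h0]
    rw [← h1]
    exact Complex.ofReal_re _
  · intro t ht
    exact (hF t (Ico_subset_Icc_self ht)).sm.1
  · intro t ht
    exact (hF t (Ico_subset_Icc_self ht)).sm.2
  · intro j
    refine (series_cont hz (fun k t ht => (hd t ht k).continuousWithinAt) j).mono ?_
    exact prod_mono Ico_subset_Icc_self (subset_refl _)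
  · intro t ht x
    have hz1 : URD (Ioo 0 T₀) z := fun N => by
      obtain ⟨c, hc⟩ := hz N
      exact ⟨c, fun t ht => hc t (Ioo_subset_Icc_self ht)⟩
    have hz2 := URD_rhs (lam := lam) (κ := κ) hα hα1 ha hC₁ hC₂ hn he hz1
    have h1 := series_deriv hz1 hz2 (fun t ht k =>
      (hd t (Ioo_subset_Icc_self ht) k).hasDerivAt (Icc_mem_nhds ht.1 ht.2)) x t ht
    have h2 := hF t (Ioo_subset_Icc_self ht)
    have h3 := rhs_series (lam := lam) (κ := κ) hα ha hE he h2.sm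
    rw [h2.fc_eq] at h3
    have h4 := h3.2 x
    rw [← h4, Complex.ofReal_re] at h1
    exact h1

end H706.JCV3

namespace H706

alias isSol_of_coef := JCV3.isSol_of_coef

end H706
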