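import Mathlib

/-!
Active scalar equations on the torus `𝕋² = (ℝ/2πℤ)²`: definitions.

Functions on the torus are functions on the plane which are `2π`-periodic in both variables.
-/

set_option autoImplicit false

open Set Filter Topology MeasureTheory
open scoped ComplexConjugate ContDiff

namespace H706

/-- Points of the plane. -/
abbrev Pt := ℝ × ℝ

/-- Frequencies. -/
abbrev Fr := ℤ × ℤ

/-- The Euclidean length of a frequency. -/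
noncomputable def len (k : Fr) : ℝ := Real.sqrt ((k.1 : ℝ) ^ 2 + (k.2 : ℝ) ^ 2)

/-- The function `exp (i k·x)`. -/
noncomputable def ex (k : Fr) (x : Pt) : ℂ :=
  Complex.exp ((((k.1 : ℝ) * x.1 + (k.2 : ℝ) * x.2 : ℝ) : ℂ) * Complex.I)

/-- The square `(-π, π]²`, a fundamental domain of the torus. -/
def Qb : Set Pt := Ioc (-Real.pi) Real.pi ×ˢ Ioc (-Real.pi) Real.pi

/-- `∫_{𝕋²} f g`. -/
noncomputable def ip (f g : Pt → ℝ) : ℝ := ∫ x in Qb, f x * g x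

/-- The Fourier coefficient `(2π)⁻² ∫_{𝕋²} f(x) exp (-i k·x) dx`. -/
noncomputable def fc (f : Pt → ℝ) (k : Fr) : ℂ :=
  ((((2 * Real.pi) ^ 2)⁻¹ : ℝ) : ℂ) * ∫ x in Qb, (f x : ℂ) * ex (-k) x

/-- `2π`-periodicity in both variables. -/
def Per (f : Pt → ℝ) : Prop :=
  ∀ x : Pt, f (x.1 + 2 * Real.pi, x.2) = f x ∧ f (x.1, x.2 + 2 * Real.pi) = f x

/-- Smooth functions on the torus. -/
def Sm (f : Pt → ℝ) : Prop := ContDiff ℝ ∞ f ∧ Per f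

/-- The Fourier multiplier with symbol `m`. -/
noncomputable def mult (m : Fr → ℂ) (f : Pt → ℝ) (x : Pt) : ℝ :=
  (∑' k, m k * fc f k * ex k x).re

/-- The Riesz transform `R₁`, with symbol `-i k₁/|k|`. -/
noncomputable def riesz1 : (Pt → ℝ) → Pt → ℝ := mult fun k => -Complex.I * (k.1 : ℂ) / (len k : ℂ)

/-- The Riesz transform `R₂`, with symbol `-i k₂/|k|`. -/
noncomputable def riesz2 : (Pt → ℝ) → Pt → ℝ := mult fun k => -Complex.I * (k.2 : ℂ) / (len k : ℂ)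

/-- The fractional Laplacian `Λ^s = (-Δ)^{s/2}`. -/
noncomputable def fracLap (s : ℝ) : (Pt → ℝ) → Pt → ℝ := mult fun k => ((len k ^ s : ℝ) : ℂ)

/-- The partial derivative `∂₁`. -/
noncomputable def d1 (f : Pt → ℝ) (x : Pt) : ℝ := deriv (fun r => f (r, x.2)) x.1

/-- The partial derivative `∂₂`. -/
noncomputable def d2 (f : Pt → ℝ) (x : Pt) : ℝ := deriv (fun r => f (x.1, r)) x.2

/-- The operator `A f = ∑ₙ wₙ ⟨Eₙ, f⟩ Eₙ`. -/
noncomputable def opA (w : ℕ → ℝ) (E : ℕ → Pt → ℝ) (f : Pt → ℝ) (x : Pt) : ℝ :=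
  ∑' n, w n * ip (E n) f * E n x

/-- First component of the velocity `u = λ(-R₂θ, R₁θ) + (∂₂Aθ, -∂₁Aθ)`. -/
noncomputable def vel1 (lam : ℝ) (w : ℕ → ℝ) (E : ℕ → Pt → ℝ) (f : Pt → ℝ) (x : Pt) : ℝ :=
  -lam * riesz2 f x + d2 (opA w E f) x

/-- Second component of the velocity `u = λ(-R₂θ, R₁θ) + (∂₂Aθ, -∂₁Aθ)`. -/
noncomputable def vel2 (lam : ℝ) (w : ℕ → ℝ) (E : ℕ → Pt → ℝ) (f : Pt → ℝ) (x : Pt) : ℝ :=
  lam * riesz1 f x - d1 (opA w E f) x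

/-- `θ` is a smooth solution on `[0, T)`, with initial datum `θ₀`, of the active scalar equation
`∂ₜθ + u·∇θ + κ Λ^{2α} θ = 0`, `u = λ(-R₂θ, R₁θ) + (∂₂Aθ, -∂₁Aθ)`. -/
structure IsSol (lam α κ : ℝ) (w : ℕ → ℝ) (E : ℕ → Pt → ℝ) (θ₀ : Pt → ℝ) (T : ℝ)
    (θ : ℝ → Pt → ℝ) : Prop where
  init : θ 0 = θ₀
  smooth : ∀ t ∈ Ico 0 T, ContDiff ℝ ∞ (θ t)
  per : ∀ t ∈ Ico 0 T, Per (θ t)
  cont : ∀ j : ℕ, ContinuousOn (fun p : ℝ × Pt => iteratedFDeriv ℝ j (θ p.1) p.2)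
    (Ico 0 T ×ˢ univ)
  eqn : ∀ t ∈ Ioo 0 T, ∀ x, HasDerivAt (fun s => θ s x)
    (-(vel1 lam w E (θ t) x * d1 (θ t) x + vel2 lam w E (θ t) x * d2 (θ t) x)
      - κ * fracLap (2 * α) (θ t) x) t

/-- The squared norm of the Sobolev space `H^s`. -/
noncomputable def sob (s : ℝ) (f : Pt → ℝ) : ℝ := ∑' k, (1 + len k ^ 2) ^ s * ‖fc f k‖ ^ 2

/-- The squared norm `‖log(e + Λ)^a f‖²` in `H^s`. -/
noncomputable def sobL (a s : ℝ) (f : Pt → ℝ) : ℝ :=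
  ∑' k, (1 + len k ^ 2) ^ s * (Real.log (Real.exp 1 + len k)) ^ (2 * a) * ‖fc f k‖ ^ 2

end H706
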