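import Pool.Agent.Helper706_SQG.Defs

/-!
Active scalar equations on the torus: auxiliary definitions used in the proofs.
-/

set_option autoImplicit false

open Set Filter Topology MeasureTheory
open scoped ComplexConjugate ContDiff

namespace H706

/-- The weight `1 + |k|`. -/
noncomputable def br (k : Fr) : ℝ := 1 + len k

/-- Rapidly decreasing families. -/
def RD (z : Fr → ℂ) : Prop := ∀ N : ℕ, ∃ C, ∀ k, br k ^ N * ‖z k‖ ≤ C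

/-- Families which are rapidly decreasing uniformly on `I`. -/
def URD (I : Set ℝ) (z : ℝ → Fr → ℂ) : Prop :=
  ∀ N : ℕ, ∃ C, ∀ t ∈ I, ∀ k, br k ^ N * ‖z t k‖ ≤ C

/-- `f` is the sum of the Fourier series with rapidly decreasing coefficients `z`. -/
def IsF (z : Fr → ℂ) (f : Pt → ℝ) : Prop := RD z ∧ ∀ x, (f x : ℂ) = ∑' k, z k * ex k x

/-- Coefficients of real functions. -/
def Herm (z : Fr → ℂ) : Prop := ∀ k, z (-k) = conj (z k)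

/-- The cross product. -/
def cr (k l : Fr) : ℤ := k.1 * l.2 - k.2 * l.1

/-- Squared Sobolev norms. -/
noncomputable def YY (p : ℝ) (z : Fr → ℂ) : ℝ := ∑' k, br k ^ (2 * p) * ‖z k‖ ^ 2

/-- The coefficients of `∇^⊥φ · ∇z`, up to sign. -/
noncomputable def nl2 (φ z : Fr → ℂ) (k : Fr) : ℂ := ∑' l, (cr k l : ℂ) * φ (k - l) * z l

/-- Admissible linear operators of order `-1 + β`. -/
structure Adm (β : ℝ) (B : (Fr → ℂ) → Fr → ℂ) : Prop where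
  row : ∀ k, ∃ (S : Finset Fr) (b : Fr → ℂ), ∀ z, B z k = ∑ l ∈ S, b l * z l
  herm : ∀ z, Herm z → Herm (B z)
  bd : ∀ p : ℕ, ∃ C, ∀ z, RD z → RD (B z) ∧ YY (p + 1) (B z) ≤ C * YY (p + β) z

/-- The right hand side of the equation for the coefficients. -/
noncomputable def rhs (α κ : ℝ) (B : (Fr → ℂ) → Fr → ℂ) (z : Fr → ℂ) (k : Fr) : ℂ :=
  -((κ * len k ^ (2 * α) : ℝ) : ℂ) * z k - nl2 (B z) z k

/-- Solutions of the equation for the coefficients on `[0,T)`. -/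
structure CSol (α κ : ℝ) (B : (Fr → ℂ) → Fr → ℂ) (T : ℝ) (z : ℝ → Fr → ℂ) : Prop where
  rd : ∀ T' < T, URD (Icc 0 T') z
  herm : ∀ t ∈ Ico 0 T, Herm (z t)
  cont : ∀ k, ContinuousOn (fun t => z t k) (Ico 0 T)
  der : ∀ t ∈ Ioo 0 T, ∀ k, HasDerivAt (fun s => z s k) (rhs α κ B (z t) k) t

/-- The weight `(log₂ (1/x))^a`. -/
noncomputable def Wt (a x : ℝ) : ℝ := (-Real.logb 2 x) ^ a

/-- The weight `(n + n₀)^a`. -/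
noncomputable def om (a : ℝ) (n₀ n : ℕ) : ℝ := ((n : ℝ) + n₀) ^ a

/-- The weights `(n+n₀)^a 2^{3(n+n₀)}`. -/
noncomputable def wts (a : ℝ) (n₀ n : ℕ) : ℝ := om a n₀ n * ((2 : ℝ) ^ (n + n₀)) ^ 3

/-- The operator `∑ₙ wₙ ⟨Eₙ, ·⟩ Eₙ` on Fourier coefficients; `e n` are the coefficients of `Eₙ`. -/
noncomputable def Aop (w : ℕ → ℝ) (e : ℕ → Fr → ℂ) (z : Fr → ℂ) (k : Fr) : ℂ :=
  ∑' n, ((w n * (2 * Real.pi) ^ 2 : ℝ) : ℂ) * (∑' l, conj (e n l) * z l) * e n k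

/-- `λ Λ⁻¹ + A` on coefficients. -/
noncomputable def Bop (lam : ℝ) (w : ℕ → ℝ) (e : ℕ → Fr → ℂ) (z : Fr → ℂ) (k : Fr) : ℂ :=
  ((lam / len k : ℝ) : ℂ) * z k + Aop w e z k

/-- Band-limited families of coefficients. -/
structure Band (C₁ C₂ : ℝ) (n₀ : ℕ) (e : ℕ → Fr → ℂ) : Prop where
  supp : ∀ n k, e n k ≠ 0 → (2 : ℝ) ^ (n + n₀) ≤ len k ∧ len k ≤ C₁ * 2 ^ (n + n₀)
  size : ∀ n k, ‖e n k‖ ≤ C₂ / ((2 : ℝ) ^ (n + n₀)) ^ 3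
  herm : ∀ n, Herm (e n)

/-- `min u (1/u³)` -/
noncomputable def hh (u : ℝ) : ℝ := min u (1 / u ^ 3)

/-- The function `∑_{1≤k<5·2^J·P} q k (2/(π k)) sin (k x)`. -/
noncomputable def aF (q : ℕ → ℝ) (P J : ℕ) (x : ℝ) : ℝ :=
  ∑ k ∈ Finset.Ico 1 (5 * 2 ^ J * P), q k * (2 / (Real.pi * k)) * Real.sin (k * x)

/-- The properties of the profile in the first variable. -/
structure ProfA (Ca ca : ℝ) (P J : ℕ) (q : ℕ → ℝ) : Prop where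
  q01 : ∀ k, 0 ≤ q k ∧ q k ≤ 1
  qlow : ∀ k, k ≤ P → q k = 0
  qhigh : ∀ k, 5 * 2 ^ J * P ≤ k → q k = 0
  bd : ∀ x ∈ Ioc 0 Real.pi, |aF q P J x| ≤ Ca ∧ |aF q P J x| ≤ Ca * (2 ^ J * P * x) ∧
    |aF q P J x| ≤ Ca / (P * x) ^ 3
  bd' : ∀ x ∈ Ioc 0 Real.pi, |x * deriv (aF q P J) x| ≤ Ca * (hh (2 ^ J * P * x) + hh (P * x))
  lower : ∀ x ∈ Ioc 0 Real.pi, 1 - Ca * (1 / (2 ^ J * P * x) ^ 3 + P * x) ≤ aF q P J x
  int : ca / P ≤ ∫ x in (0 : ℝ)..Real.pi, aF q P J x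

/-- The real trigonometric polynomial `∑_{k<4m} (p k cos (k y) + r k sin (k y))`. -/
noncomputable def bF (p r : ℕ → ℝ) (m : ℕ) (y : ℝ) : ℝ :=
  ∑ k ∈ Finset.range (4 * m), (p k * Real.cos (k * y) + r k * Real.sin (k * y))

/-- The properties of the profile in the second variable. -/
structure ProfB (Cb cb : ℝ) (m : ℕ) (p r : ℕ → ℝ) : Prop where
  bd : ∀ y ∈ Icc (-Real.pi) Real.pi, |bF p r m y| ≤ Cb * |y| / (1 + m * |y|) ^ 6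
  bd' : ∀ y, |deriv (bF p r m) y| ≤ Cb
  lower : ∀ y, |y| ≤ cb / m → deriv (bF p r m) y ≤ -(1 / 2)
  int : cb / (m : ℝ) ^ 2 ≤ ∫ y in (-Real.pi)..Real.pi, bF p r m y

/-- The function `a(x₁) b(x₂)`. -/
noncomputable def EF (q p r : ℕ → ℝ) (P J m : ℕ) (x : Pt) : ℝ := aF q P J x.1 * bF p r m x.2

/-- `|∑_{j<p} e^{ijx}|²`. -/
noncomputable def DD (p : ℕ) (x : ℝ) : ℝ :=
  Complex.normSq (∑ j ∈ Finset.range p, Complex.exp ((((j : ℝ) * x : ℝ) : ℂ) * Complex.I))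

/-- The kernel. -/
noncomputable def KK (m : ℕ) (x : ℝ) : ℝ :=
  (DD (4 * m) x - DD (2 * m) x) / (2 * m) * (DD m x / (m : ℝ) ^ 2)

/-- The heat kernel. -/
noncomputable def G (s : ℝ) (y : Pt) : ℝ :=
  (4 * Real.pi * s)⁻¹ * Real.exp (-(y.1 ^ 2 + y.2 ^ 2) / (4 * s))

/-- The heat semigroup. -/
noncomputable def Hs (s : ℝ) (f : Pt → ℝ) (x : Pt) : ℝ := ∫ y, G s y * f (x + y)

/-- `∂₁` of the heat semigroup. -/
noncomputable def D1 (s : ℝ) (f : Pt → ℝ) (x : Pt) : ℝ := (2 * s)⁻¹ * ∫ y, y.1 * G s y * f (x + y)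

/-- `∂₂` of the heat semigroup. -/
noncomputable def D2 (s : ℝ) (f : Pt → ℝ) (x : Pt) : ℝ := (2 * s)⁻¹ * ∫ y, y.2 * G s y * f (x + y)

/-- The Galerkin solutions on a finite set of frequencies. -/
structure Gal (α κ : ℝ) (B : (Fr → ℂ) → Fr → ℂ) (S : Finset Fr) (T : ℝ) (z₀ : Fr → ℂ)
    (z : ℝ → Fr → ℂ) : Prop where
  supp : ∀ t, ∀ k ∉ S, z t k = 0
  init : ∀ k ∈ S, z 0 k = z₀ k
  herm : ∀ t ∈ Icc 0 T, Herm (z t)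
  der : ∀ t ∈ Icc 0 T, ∀ k ∈ S, HasDerivWithinAt (fun s => z s k) (rhs α κ B (z t) k) (Icc 0 T) t

/-- A `C¹` ramp, `0` on `(-∞,0]` and `1` on `[1,∞)`. -/
noncomputable def ramp (t : ℝ) : ℝ := (max 0 (min 1 t)) ^ 2 * (3 - 2 * max 0 (min 1 t))

/-- The profile of the barrier. -/
noncomputable def Psi (Z c : ℝ) (y : Pt) : ℝ :=
  ramp (y.1 - 1) * ramp (2 - y.1 / Z) * ramp (2 + c * y.1 - y.2) * ramp (2 + c * y.1 + y.2)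

/-- The functions `Eₙ(x) = a(x₁) b(x₂)` at scale `P = 2^(n+n₀)`, `Q = 2^J P`, `m = M P`; the profiles
are given by the coefficients `q P`, `p P`, `r P`. -/
noncomputable def EN (q p r : ℕ → ℕ → ℝ) (J M n₀ n : ℕ) : Pt → ℝ :=
  EF (q (2 ^ (n + n₀))) (p (2 ^ (n + n₀))) (r (2 ^ (n + n₀))) (2 ^ (n + n₀)) J (M * 2 ^ (n + n₀))

/-- The flow of the operator `A = ∑ₙ wₙ ⟨Eₙ,·⟩ Eₙ`, near the front of a barrier of size `s`: the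
conditions (F), (B), (L), for every `θ` which is close to `±1` on the plateau. -/
def FlowOK (c₁ b₀ v₀ m₀ Z : ℝ) (q p r : ℕ → ℕ → ℝ) (J M : ℕ) (a : ℝ) (n₀ : ℕ) (s : ℝ) : Prop :=
  ∀ θ : Pt → ℝ, Continuous θ → (∀ x, |θ x| ≤ 1) →
    (∀ x : Pt, 2 * s ≤ x.1 → x.1 ≤ Z * s → |x.2| ≤ s + c₁ * x.1 →
      1 - b₀ ≤ θ x ∧ θ (-x.1, x.2) ≤ -(1 - b₀)) →
    ∀ x : Pt, s ≤ x.1 → x.1 ≤ 2 * Z * s → |x.2| ≤ 2 * s + c₁ * x.1 →
      (x.1 ≤ 2 * s → (∑' n, wts a n₀ n * ip (EN q p r J M n₀ n) θ * d2 (EN q p r J M n₀ n) x)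
        + v₀ * Wt a s * (x.1 / s) ≤ -(m₀ * Wt a s)) ∧
      (Z * s ≤ x.1 → m₀ * Wt a s ≤
        (∑' n, wts a n₀ n * ip (EN q p r J M n₀ n) θ * d2 (EN q p r J M n₀ n) x)
          + v₀ * Wt a s * (x.1 / s)) ∧
      c₁ * |∑' n, wts a n₀ n * ip (EN q p r J M n₀ n) θ * d2 (EN q p r J M n₀ n) x| +
        |∑' n, wts a n₀ n * ip (EN q p r J M n₀ n) θ * d1 (EN q p r J M n₀ n) x| +
        2 * (m₀ * Wt a s) ≤ v₀ * Wt a s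

/-- The constants and profiles of the construction. -/
structure Cons (Ca ca Cb cb c₁ b₀ v₀ m₀ Z : ℝ) (q p r : ℕ → ℕ → ℝ) (J M : ℕ) : Prop where
  hCa : 1 ≤ Ca
  hca : 0 < ca
  hCb : 1 ≤ Cb
  hcb : 0 < cb
  hJ : 4 ≤ J
  hM : 1 ≤ M
  c₁pos : 0 < c₁
  c₁le : c₁ ≤ 1
  b₀pos : 0 < b₀
  b₀le : b₀ ≤ 1 / 4
  v₀pos : 0 < v₀
  m₀pos : 0 < m₀
  hZ : 4 ≤ Z
  profA : ∀ P, 1 ≤ P → ProfA Ca ca P J (q P)
  profB : ∀ P, 1 ≤ P → ProfB Cb cb (M * P) (p P) (r P)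
  flow : ∀ a : ℝ, 0 ≤ a → ∀ n₀ : ℕ, ∃ sb > 0, ∀ s ∈ Ioc 0 sb,
    FlowOK c₁ b₀ v₀ m₀ Z q p r J M a n₀ s

/-- The barrier at size `s`. -/
noncomputable def Phi (Z c s β : ℝ) (x : Pt) : ℝ := 2 * Psi Z c (x.1 / s, x.2 / s) - 1 - β

end H706
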