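import Pool.Agent.Helper706_SQG.Defs2

/-!
JOB H1 (MP_96bed6_an, helper706).  The Gaussian kernel on the plane and exponentials.

PROOF.  Fubini and the one dimensional Gaussian integrals
`∫ exp(-y²/(4s)) e^{iky} dy = √(4πs) e^{-s k²}` (Mathlib: `fourierIntegral_gaussian`,
`integral_gaussian`, ...), `∫ y exp(-y²/(4s)) e^{iky} dy = 2 i s k √(4πs) e^{-s k²}` (integrate
`d/dy (exp(-y²/(4s)) e^{iky})` over the line, or differentiate in `k`),
`∫ y² exp(-y²/(4s)) dy = 2 s √(4πs)`.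
For the last statement: `|y|² exp(-|y|²/(4s)) ≤ 8 s exp(-|y|²/(8s))` because `u e^{-u} ≤ 1` with
`u = |y|²/(8s)`; so `|y_j| G_s(y) ≤ √(8s) exp(-|y|²/(8 s))^{...}`: precisely
`|y_j| exp(-|y|²/(4s)) ≤ √(8 s) exp(-|y|²/(8s))` as `√u e^{-2u} ≤ e^{-u}`, and
`G s = 2 · (normalisation of G (2s))`.
-/

set_option autoImplicit false
open Set Filter Topology MeasureTheory

namespace H706.JH1

namespace gauss_aux

/-- one dimensional kernel -/
noncomputable def g (s y : ℝ) : ℝ := Real.exp (-(4 * s)⁻¹ * y ^ 2)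

/-- its integral -/
noncomputable def C (s : ℝ) : ℝ := Real.sqrt (Real.pi / (4 * s)⁻¹)

lemma C_sq {s : ℝ} (hs : 0 < s) : (4 * Real.pi * s)⁻¹ * (C s * C s) = 1 := by
  unfold C
  have hp := Real.pi_pos
  rw [Real.mul_self_sqrt (by positivity)]
  field_simp

lemma g_int {s : ℝ} (hs : 0 < s) : Integrable (g s) :=
  integrable_exp_neg_mul_sq (by positivity)

lemma g_integral (s : ℝ) : ∫ y, g s y = C s := integral_gaussian _

lemma yg_int {s : ℝ} (hs : 0 < s) : Integrable (fun y => y * g s y) :=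
  integrable_mul_exp_neg_mul_sq (by positivity)

lemma absg_int {s : ℝ} (hs : 0 < s) : Integrable (fun y => |y| * g s y) := by
  have h := (yg_int hs).norm
  refine h.congr (Filter.Eventually.of_forall ?_)
  intro y
  simp only [Real.norm_eq_abs, abs_mul]
  rw [abs_of_pos (show 0 < g s y from Real.exp_pos _)]

lemma yyg_int {s : ℝ} (hs : 0 < s) : Integrable (fun y => y ^ 2 * g s y) := by
  have h := integrable_rpow_mul_exp_neg_mul_sq (b := (4 * s)⁻¹) (by positivity) (s := 2)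
    (by norm_num)
  refine h.congr (Filter.Eventually.of_forall ?_)
  intro y
  simp [g]

lemma g_deriv {s : ℝ} (hs : 0 < s) (y : ℝ) :
    HasDerivAt (g s) (-(2 * s)⁻¹ * (y * g s y)) y := by
  have h1 : HasDerivAt (fun y : ℝ => -(4 * s)⁻¹ * y ^ 2) (-(4 * s)⁻¹ * (2 * y)) y := by
    have h3 := (hasDerivAt_pow 2 y).const_mul (-(4 * s)⁻¹)
    simpa using h3
  have h2 := h1.exp
  have h4 : Real.exp (-(4 * s)⁻¹ * y ^ 2) * (-(4 * s)⁻¹ * (2 * y)) =
      -(2 * s)⁻¹ * (y * g s y) := by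
    unfold g
    field_simp
    ring
  rw [h4] at h2
  exact h2

lemma yyg_integral {s : ℝ} (hs : 0 < s) : ∫ y, y ^ 2 * g s y = 2 * s * C s := by
  have h := integral_eq_zero_of_hasDerivAt_of_integrable (f := fun y => y * g s y)
    (f' := fun y => g s y - (2 * s)⁻¹ * (y ^ 2 * g s y)) ?_
    ((g_int hs).sub ((yyg_int hs).const_mul _)) (yg_int hs)
  · rw [integral_sub (g_int hs) ((yyg_int hs).const_mul _), integral_const_mul, g_integral] at h
    have h2 : ∫ y, y ^ 2 * g s y = (2 * s) * ((2 * s)⁻¹ * ∫ y, y ^ 2 * g s y) := by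
      field_simp
    rw [h2, ← sub_eq_zero.mp h]
  · intro y
    have h1 := (hasDerivAt_id y).mul (g_deriv hs y)
    have h2 : 1 * g s y + id y * (-(2 * s)⁻¹ * (y * g s y)) =
        g s y - (2 * s)⁻¹ * (y ^ 2 * g s y) := by
      simp only [id]
      ring
    rw [h2] at h1
    exact h1

/-- one dimensional exponential -/
noncomputable def e (κ y : ℝ) : ℂ := Complex.exp (((κ * y : ℝ) : ℂ) * Complex.I)

lemma e_norm (κ y : ℝ) : ‖e κ y‖ = 1 := Complex.norm_exp_ofReal_mul_I _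

lemma e_cont (κ : ℝ) : Continuous (e κ) := by
  unfold e
  fun_prop

lemma mul_e_int {f : ℝ → ℝ} (hf : Integrable f) (κ : ℝ) :
    Integrable (fun y => (f y : ℂ) * e κ y) := by
  have h1 : Integrable (fun y => (f y : ℂ)) := hf.ofReal
  refine h1.mul_bdd (c := 1) (e_cont κ).aestronglyMeasurable ?_
  exact Filter.Eventually.of_forall (fun y => (e_norm κ y).le)

lemma ge_integral {s : ℝ} (hs : 0 < s) (κ : ℝ) :
    ∫ y, (g s y : ℂ) * e κ y = (C s : ℂ) * (Real.exp (-s * κ ^ 2) : ℂ) := by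
  have hb : 0 < ((((4 * s)⁻¹ : ℝ)) : ℂ).re := by
    rw [Complex.ofReal_re]; positivity
  have h1 := fourierIntegral_gaussian hb (κ : ℂ)
  have h2 : (fun y : ℝ => (g s y : ℂ) * e κ y) = fun x : ℝ =>
      Complex.exp (Complex.I * (κ : ℂ) * x) *
        Complex.exp (-(((4 * s)⁻¹ : ℝ) : ℂ) * (x : ℂ) ^ 2) := by
    ext y
    unfold g e
    rw [mul_comm]
    push_cast
    congr 2
    ring
  rw [h2, h1]
  congr 1
  · unfold C
    rw [Real.sqrt_eq_rpow, Complex.ofReal_cpow (by have := Real.pi_pos; positivity)]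
    push_cast
    rfl
  · push_cast
    congr 1
    have hs' : (s : ℂ) ≠ 0 := by exact_mod_cast hs.ne'
    field_simp

lemma e_deriv (κ y : ℝ) : HasDerivAt (e κ) (κ * Complex.I * e κ y) y := by
  have h1 : HasDerivAt (fun y : ℝ => ((κ * y : ℝ) : ℂ) * Complex.I) (κ * Complex.I) y := by
    have h2 : HasDerivAt (fun y : ℝ => κ * y) κ y := by
      simpa using (hasDerivAt_id y).const_mul κ
    exact h2.ofReal_comp.mul_const Complex.I
  have h3 := h1.cexp
  rw [mul_comm] at h3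
  exact h3

lemma yge_integral {s : ℝ} (hs : 0 < s) (κ : ℝ) :
    ∫ y : ℝ, ((y * g s y : ℝ) : ℂ) * e κ y =
      2 * Complex.I * s * κ * ((C s : ℂ) * (Real.exp (-s * κ ^ 2) : ℂ)) := by
  have hs' : (s : ℂ) ≠ 0 := by exact_mod_cast hs.ne'
  have i1 := mul_e_int (g_int hs) κ
  have i2 := mul_e_int (yg_int hs) κ
  have h := integral_eq_zero_of_hasDerivAt_of_integrable (f := fun y => (g s y : ℂ) * e κ y)
    (f' := fun y => -(2 * (s : ℂ))⁻¹ * (((y * g s y : ℝ) : ℂ) * e κ y) +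
      (κ * Complex.I) * ((g s y : ℂ) * e κ y)) ?_
    ((i2.const_mul _).add (i1.const_mul _)) i1
  · rw [integral_add (i2.const_mul _) (i1.const_mul _), integral_const_mul, integral_const_mul,
      ge_integral hs κ] at h
    have h2 : ∫ y : ℝ, ((y * g s y : ℝ) : ℂ) * e κ y = (-(2 * (s : ℂ))) *
        (-(2 * (s : ℂ))⁻¹ * ∫ y : ℝ, ((y * g s y : ℝ) : ℂ) * e κ y) := by
      field_simp
    rw [h2, eq_neg_of_add_eq_zero_left h]
    ring
  · intro y
    have h1 := ((g_deriv hs y).ofReal_comp).mul (e_deriv κ y)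
    have h2 : ((-(2 * s)⁻¹ * (y * g s y) : ℝ) : ℂ) * e κ y +
        (g s y : ℂ) * (κ * Complex.I * e κ y) =
        -(2 * (s : ℂ))⁻¹ * (((y * g s y : ℝ) : ℂ) * e κ y) +
      (κ * Complex.I) * ((g s y : ℂ) * e κ y) := by
      push_cast
      ring
    rw [h2] at h1
    exact h1

lemma G_eq (s : ℝ) (y : Pt) : G s y = (4 * Real.pi * s)⁻¹ * (g s y.1 * g s y.2) := by
  unfold G g
  rw [← Real.exp_add]
  congr 2
  rw [div_eq_mul_inv]
  ring

lemma ex_eq (k : Fr) (x y : Pt) :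
    ex k (x + y) = ex k x * (e (k.1 : ℝ) y.1 * e (k.2 : ℝ) y.2) := by
  unfold ex e
  rw [← Complex.exp_add, ← Complex.exp_add]
  congr 1
  simp only [Prod.fst_add, Prod.snd_add]
  push_cast
  ring

lemma len_sq (k : Fr) : len k ^ 2 = (k.1 : ℝ) ^ 2 + (k.2 : ℝ) ^ 2 := by
  unfold len
  exact Real.sq_sqrt (by positivity)

lemma C_sq' {s : ℝ} (hs : 0 < s) :
    (((4 * Real.pi * s)⁻¹ : ℝ) : ℂ) * ((C s : ℂ) * (C s : ℂ)) = 1 := by
  exact_mod_cast C_sq hs

lemma exp_split (s : ℝ) (k : Fr) : (Real.exp (-s * len k ^ 2) : ℂ) =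
    (Real.exp (-s * (k.1 : ℝ) ^ 2) : ℂ) * (Real.exp (-s * (k.2 : ℝ) ^ 2) : ℂ) := by
  rw [len_sq, ← Complex.ofReal_mul, ← Real.exp_add]
  congr 2
  ring

lemma abs_le_aux {s : ℝ} (hs : 0 < s) (y : Pt) (t : ℝ) (ht : t ^ 2 ≤ y.1 ^ 2 + y.2 ^ 2) :
    |t| * G s y ≤ 6 * Real.sqrt s * G (2 * s) y := by
  have hp := Real.pi_pos
  obtain ⟨u, hu⟩ : ∃ u : ℝ, u = (y.1 ^ 2 + y.2 ^ 2) / (8 * s) := ⟨_, rfl⟩
  have hu0 : 0 ≤ u := by rw [hu]; positivity
  have e1 : -(y.1 ^ 2 + y.2 ^ 2) / (4 * s) = -u + -u := by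
    rw [hu]; field_simp; ring
  have e2 : -(y.1 ^ 2 + y.2 ^ 2) / (4 * (2 * s)) = -u := by
    rw [hu]; field_simp; ring
  unfold G
  rw [e1, e2, Real.exp_add]
  -- |t| ≤ sqrt (8 s u) and sqrt u * exp (-u) ≤ 1
  have h1 : |t| * Real.exp (-u) ≤ 3 * Real.sqrt s := by
    have h2 : (|t| * Real.exp (-u)) ^ 2 ≤ 8 * s := by
      rw [mul_pow, sq_abs]
      have h3 : t ^ 2 ≤ 8 * s * u := by
        rw [hu]
        field_simp
        exact ht
      have h4 : u * Real.exp (-u) ^ 2 ≤ 1 := by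
        have h5 : u + 1 ≤ Real.exp u := Real.add_one_le_exp u
        have h6 : Real.exp (-u) * Real.exp u = 1 := by rw [← Real.exp_add]; simp
        have h7 : 0 < Real.exp (-u) := Real.exp_pos _
        have h8 : Real.exp (-u) ≤ 1 := Real.exp_le_one_iff.mpr (by linarith)
        nlinarith
      calc t ^ 2 * Real.exp (-u) ^ 2 ≤ (8 * s * u) * Real.exp (-u) ^ 2 :=
            mul_le_mul_of_nonneg_right h3 (sq_nonneg _)
        _ = 8 * s * (u * Real.exp (-u) ^ 2) := by ring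
        _ ≤ 8 * s * 1 := mul_le_mul_of_nonneg_left h4 (by positivity)
        _ = 8 * s := by ring
    have h9 : (3 * Real.sqrt s) ^ 2 = 9 * s := by
      rw [mul_pow, Real.sq_sqrt hs.le]; norm_num
    apply le_of_sq_le_sq _ (by positivity)
    rw [h9]
    linarith
  have h10 : 0 < (4 * Real.pi * s)⁻¹ * Real.exp (-u) := by positivity
  calc |t| * ((4 * Real.pi * s)⁻¹ * (Real.exp (-u) * Real.exp (-u)))
      = (|t| * Real.exp (-u)) * ((4 * Real.pi * s)⁻¹ * Real.exp (-u)) := by ring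
    _ ≤ (3 * Real.sqrt s) * ((4 * Real.pi * s)⁻¹ * Real.exp (-u)) :=
        mul_le_mul_of_nonneg_right h1 h10.le
    _ = 6 * Real.sqrt s * ((4 * Real.pi * (2 * s))⁻¹ * Real.exp (-u)) := by
        field_simp
        norm_num

end gauss_aux

/-- TARGET (all parts) -/
theorem gauss_facts {s : ℝ} (hs : 0 < s) :
    Integrable (G s) ∧ ∫ y, G s y = 1 ∧
    Integrable (fun y => |y.1| * G s y) ∧ Integrable (fun y => |y.2| * G s y) ∧
    (∀ (k : Fr) (x : Pt), ∫ y, (G s y : ℂ) * ex k (x + y) = (Real.exp (-s * len k ^ 2) : ℂ) * ex k x) ∧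
    (∀ (k : Fr) (x : Pt), ∫ y : Pt, ((y.1 * G s y : ℝ) : ℂ) * ex k (x + y)
      = 2 * Complex.I * s * k.1 * (Real.exp (-s * len k ^ 2) : ℂ) * ex k x) ∧
    (∀ (k : Fr) (x : Pt), ∫ y : Pt, ((y.2 * G s y : ℝ) : ℂ) * ex k (x + y)
      = 2 * Complex.I * s * k.2 * (Real.exp (-s * len k ^ 2) : ℂ) * ex k x) ∧
    Integrable (fun y : Pt => (y.1 ^ 2 + y.2 ^ 2) * G s y) ∧
    ∫ y : Pt, (y.1 ^ 2 + y.2 ^ 2) * G s y = 4 * s ∧
    (∀ y : Pt, 0 ≤ G s y ∧ |y.1| * G s y ≤ 6 * Real.sqrt s * G (2 * s) y ∧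
      |y.2| * G s y ≤ 6 * Real.sqrt s * G (2 * s) y) := by
  have hp := Real.pi_pos
  have hGf : G s = fun y : Pt => (4 * Real.pi * s)⁻¹ * (gauss_aux.g s y.1 * gauss_aux.g s y.2) :=
    funext (gauss_aux.G_eq s)
  have ig := gauss_aux.g_int hs
  have iyg := gauss_aux.yg_int hs
  have iag := gauss_aux.absg_int hs
  have iyyg := gauss_aux.yyg_int hs
  refine ⟨?_, ?_, ?_, ?_, ?_, ?_, ?_, ?_, ?_, ?_⟩
  · rw [hGf]
    exact (ig.mul_prod ig).const_mul _
  · rw [hGf, integral_const_mul, Measure.volume_eq_prod,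
      integral_prod_mul (gauss_aux.g s) (gauss_aux.g s), gauss_aux.g_integral]
    exact gauss_aux.C_sq hs
  · have h := (iag.mul_prod ig).const_mul (4 * Real.pi * s)⁻¹
    refine h.congr (Filter.Eventually.of_forall ?_)
    intro y
    simp only [gauss_aux.G_eq]
    ring
  · have h := (ig.mul_prod iag).const_mul (4 * Real.pi * s)⁻¹
    refine h.congr (Filter.Eventually.of_forall ?_)
    intro y
    simp only [gauss_aux.G_eq]
    ring
  · intro k x
    have h1 : (fun y : Pt => (G s y : ℂ) * ex k (x + y)) = fun y : Pt =>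
        ((((4 * Real.pi * s)⁻¹ : ℝ) : ℂ) * ex k x) *
          (((gauss_aux.g s y.1 : ℂ) * gauss_aux.e (k.1 : ℝ) y.1) *
            ((gauss_aux.g s y.2 : ℂ) * gauss_aux.e (k.2 : ℝ) y.2)) := by
      ext y
      rw [gauss_aux.G_eq, gauss_aux.ex_eq]
      push_cast
      ring
    rw [h1, integral_const_mul, Measure.volume_eq_prod,
      integral_prod_mul (fun y : ℝ => (gauss_aux.g s y : ℂ) * gauss_aux.e (k.1 : ℝ) y)
        (fun y : ℝ => (gauss_aux.g s y : ℂ) * gauss_aux.e (k.2 : ℝ) y),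
      gauss_aux.ge_integral hs, gauss_aux.ge_integral hs, gauss_aux.exp_split]
    have h2 := gauss_aux.C_sq' hs
    linear_combination (ex k x * ((Real.exp (-s * (k.1 : ℝ) ^ 2) : ℂ) *
      (Real.exp (-s * (k.2 : ℝ) ^ 2) : ℂ))) * h2
  · intro k x
    have h1 : (fun y : Pt => ((y.1 * G s y : ℝ) : ℂ) * ex k (x + y)) = fun y : Pt =>
        ((((4 * Real.pi * s)⁻¹ : ℝ) : ℂ) * ex k x) *
          ((((y.1 * gauss_aux.g s y.1 : ℝ) : ℂ) * gauss_aux.e (k.1 : ℝ) y.1) *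
            ((gauss_aux.g s y.2 : ℂ) * gauss_aux.e (k.2 : ℝ) y.2)) := by
      ext y
      rw [gauss_aux.G_eq, gauss_aux.ex_eq]
      push_cast
      ring
    rw [h1, integral_const_mul, Measure.volume_eq_prod,
      integral_prod_mul (fun y : ℝ => ((y * gauss_aux.g s y : ℝ) : ℂ) * gauss_aux.e (k.1 : ℝ) y)
        (fun y : ℝ => (gauss_aux.g s y : ℂ) * gauss_aux.e (k.2 : ℝ) y),
      gauss_aux.ge_integral hs, gauss_aux.yge_integral hs, gauss_aux.exp_split]
    have h2 := gauss_aux.C_sq' hs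
    push_cast at h2 ⊢
    linear_combination (2 * Complex.I * s * k.1 * ex k x * (Complex.exp (-s * (k.1 : ℂ) ^ 2) *
      Complex.exp (-s * (k.2 : ℂ) ^ 2))) * h2
  · intro k x
    have h1 : (fun y : Pt => ((y.2 * G s y : ℝ) : ℂ) * ex k (x + y)) = fun y : Pt =>
        ((((4 * Real.pi * s)⁻¹ : ℝ) : ℂ) * ex k x) *
          (((gauss_aux.g s y.1 : ℂ) * gauss_aux.e (k.1 : ℝ) y.1) *
            (((y.2 * gauss_aux.g s y.2 : ℝ) : ℂ) * gauss_aux.e (k.2 : ℝ) y.2)) := by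
      ext y
      rw [gauss_aux.G_eq, gauss_aux.ex_eq]
      push_cast
      ring
    rw [h1, integral_const_mul, Measure.volume_eq_prod,
      integral_prod_mul (fun y : ℝ => (gauss_aux.g s y : ℂ) * gauss_aux.e (k.1 : ℝ) y)
        (fun y : ℝ => ((y * gauss_aux.g s y : ℝ) : ℂ) * gauss_aux.e (k.2 : ℝ) y),
      gauss_aux.ge_integral hs, gauss_aux.yge_integral hs, gauss_aux.exp_split]
    have h2 := gauss_aux.C_sq' hs
    push_cast at h2 ⊢
    linear_combination (2 * Complex.I * s * k.2 * ex k x * (Complex.exp (-s * (k.1 : ℂ) ^ 2) *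
      Complex.exp (-s * (k.2 : ℂ) ^ 2))) * h2
  · have h := ((iyyg.mul_prod ig).add (ig.mul_prod iyyg)).const_mul (4 * Real.pi * s)⁻¹
    refine h.congr (Filter.Eventually.of_forall ?_)
    intro y
    simp only [gauss_aux.G_eq, Pi.add_apply]
    ring
  · have h1 : (fun y : Pt => (y.1 ^ 2 + y.2 ^ 2) * G s y) = fun y : Pt =>
        (4 * Real.pi * s)⁻¹ * ((y.1 ^ 2 * gauss_aux.g s y.1) * gauss_aux.g s y.2 +
          gauss_aux.g s y.1 * (y.2 ^ 2 * gauss_aux.g s y.2)) := by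
      ext y
      rw [gauss_aux.G_eq]
      ring
    rw [h1, integral_const_mul, Measure.volume_eq_prod,
      integral_add (iyyg.mul_prod ig) (ig.mul_prod iyyg),
      integral_prod_mul (fun y : ℝ => y ^ 2 * gauss_aux.g s y) (gauss_aux.g s),
      integral_prod_mul (gauss_aux.g s) (fun y : ℝ => y ^ 2 * gauss_aux.g s y),
      gauss_aux.g_integral, gauss_aux.yyg_integral hs]
    have h2 := gauss_aux.C_sq hs
    linear_combination (4 * s) * h2
  · intro y
    refine ⟨?_, ?_, ?_⟩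
    · unfold G
      positivity
    · exact gauss_aux.abs_le_aux hs y y.1 (by nlinarith [sq_nonneg y.2])
    · exact gauss_aux.abs_le_aux hs y y.2 (by nlinarith [sq_nonneg y.1])

end H706.JH1

namespace H706

alias gauss_facts := JH1.gauss_facts

end H706
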