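import Pool.Agent.Helper706_SQG.Defs2
import Pool.Agent.Helper706_SQG.H1

/-!
JOB H2 (MP_96bed6_an, helper706).  The fractional Laplacian of an absolutely convergent Fourier series
in terms of the heat semigroup.

PROOF.  `∫_0^∞ (1 - e^{-sλ}) s^{-1-α} ds = λ^α Γ_α` for `λ ≥ 0`, with
`Γ_α = ∫_0^∞ (1-e^{-s}) s^{-1-α} ds ∈ (0,∞)` (substitution; finite because `1-e^{-s} ≤ min(1,s)`).
With `λ = |k|²`: `|k|^{2α} = Γ_α⁻¹ ∫ (1 - e^{-s|k|²}) s^{-1-α} ds`.
`θ x - H s θ x = ∑_k z_k (1 - e^{-s|k|²}) ex k x` (given `gauss_facts`, Fubini for the sum and the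
integral: `∑ |z_k| < ∞`). Sum and `s`-integral may be exchanged because
`∑_k |z_k| ∫ (1-e^{-s|k|²}) s^{-1-α} ds = Γ_α ∑ |z_k| |k|^{2α} < ∞`. Take `c = Γ_α⁻¹`.
-/

set_option autoImplicit false
open Set Filter Topology MeasureTheory

namespace H706.JH2

/-- auxiliary integrand -/
noncomputable def fracLap_heat_phi (α l s : ℝ) : ℝ := (1 - Real.exp (-s * l)) * s ^ (-1 - α)

theorem fracLap_heat_phi_nonneg {α l s : ℝ} (hl : 0 ≤ l) (hs : 0 < s) : 0 ≤ fracLap_heat_phi α l s := by
  unfold fracLap_heat_phi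
  refine mul_nonneg ?_ (Real.rpow_nonneg hs.le _)
  have : Real.exp (-s * l) ≤ 1 := by
    rw [Real.exp_le_one_iff]
    nlinarith
  linarith

theorem fracLap_heat_phi_cont (α l : ℝ) : ContinuousOn (fracLap_heat_phi α l) (Ioi 0) := by
  unfold fracLap_heat_phi
  apply ContinuousOn.mul
  · fun_prop
  · intro x hx
    exact (Real.continuousAt_rpow_const x _ (Or.inl (ne_of_gt hx))).continuousWithinAt

theorem fracLap_heat_phi_int_one {α : ℝ} (hα : 0 < α) (hα1 : α < 1) :
    IntegrableOn (fracLap_heat_phi α 1) (Ioi 0) := by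
  have hu : Ioi (0 : ℝ) = Ioc 0 1 ∪ Ioi 1 := by
    rw [Ioc_union_Ioi_eq_Ioi zero_le_one]
  rw [hu]
  apply IntegrableOn.union
  · have h1 : IntegrableOn (fun s : ℝ => s ^ (-α)) (Ioc 0 1) := by
      have := intervalIntegral.intervalIntegrable_rpow' (a := 0) (b := 1) (r := -α) (by linarith)
      rwa [intervalIntegrable_iff_integrableOn_Ioc_of_le zero_le_one] at this
    refine Integrable.mono' h1 ?_ ?_
    · exact ((fracLap_heat_phi_cont α 1).mono Ioc_subset_Ioi_self).aestronglyMeasurable measurableSet_Ioc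
    · rw [ae_restrict_iff' measurableSet_Ioc]
      refine Eventually.of_forall fun s hs => ?_
      rw [Real.norm_eq_abs, abs_of_nonneg (fracLap_heat_phi_nonneg zero_le_one hs.1)]
      unfold fracLap_heat_phi
      have h2 : 1 - Real.exp (-s * 1) ≤ s := by
        have := Real.add_one_le_exp (-s * 1)
        linarith
      calc (1 - Real.exp (-s * 1)) * s ^ (-1 - α) ≤ s * s ^ (-1 - α) :=
            mul_le_mul_of_nonneg_right h2 (Real.rpow_nonneg hs.1.le _)
        _ = s ^ (-α) := by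
            have h3 : s * s ^ (-1 - α) = s ^ (1 : ℝ) * s ^ (-1 - α) := by rw [Real.rpow_one]
            rw [h3, ← Real.rpow_add hs.1]
            congr 1
            ring
  · have h1 : IntegrableOn (fun s : ℝ => s ^ (-1 - α)) (Ioi 1) :=
      integrableOn_Ioi_rpow_of_lt (by linarith) one_pos
    refine Integrable.mono' h1 ?_ ?_
    · exact ((fracLap_heat_phi_cont α 1).mono (Ioi_subset_Ioi zero_le_one)).aestronglyMeasurable measurableSet_Ioi
    · rw [ae_restrict_iff' measurableSet_Ioi]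
      refine Eventually.of_forall fun s hs => ?_
      have hs0 : (0 : ℝ) < s := lt_trans one_pos hs
      rw [Real.norm_eq_abs, abs_of_nonneg (fracLap_heat_phi_nonneg zero_le_one hs0)]
      unfold fracLap_heat_phi
      have h2 : 1 - Real.exp (-s * 1) ≤ 1 := by
        have := Real.exp_pos (-s * 1)
        linarith
      calc (1 - Real.exp (-s * 1)) * s ^ (-1 - α) ≤ 1 * s ^ (-1 - α) :=
            mul_le_mul_of_nonneg_right h2 (Real.rpow_nonneg hs0.le _)
        _ = s ^ (-1 - α) := one_mul _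

theorem fracLap_heat_phi_scale {α l s : ℝ} (hl : 0 < l) (hs : 0 < s) :
    fracLap_heat_phi α l s = l ^ (1 + α) * fracLap_heat_phi α 1 (l * s) := by
  unfold fracLap_heat_phi
  rw [Real.mul_rpow hl.le hs.le]
  have h1 : l ^ (1 + α) * l ^ (-1 - α) = 1 := by
    rw [← Real.rpow_add hl]
    have : (1 + α) + (-1 - α) = 0 := by ring
    rw [this, Real.rpow_zero]
  have h2 : -(l * s) * 1 = -s * l := by ring
  rw [h2]
  calc (1 - Real.exp (-s * l)) * s ^ (-1 - α)
      = (l ^ (1 + α) * l ^ (-1 - α)) * ((1 - Real.exp (-s * l)) * s ^ (-1 - α)) := by rw [h1, one_mul]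
    _ = _ := by ring

theorem fracLap_heat_phi_int {α l : ℝ} (hα : 0 < α) (hα1 : α < 1) (hl : 0 ≤ l) :
    IntegrableOn (fracLap_heat_phi α l) (Ioi 0) ∧
      ∫ s in Ioi (0 : ℝ), fracLap_heat_phi α l s = l ^ α * ∫ s in Ioi (0 : ℝ), fracLap_heat_phi α 1 s := by
  rcases hl.eq_or_lt with rfl | hl
  · have h0 : ∀ s : ℝ, fracLap_heat_phi α 0 s = 0 := by
      intro s
      unfold fracLap_heat_phi
      simp
    constructor
    · have : fracLap_heat_phi α 0 = fun _ => 0 := funext h0
      rw [this]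
      exact integrableOn_zero
    · simp only [h0]
      rw [Real.zero_rpow hα.ne', integral_zero, zero_mul]
  · have h1 : IntegrableOn (fun s => fracLap_heat_phi α 1 (l * s)) (Ioi 0) := by
      rw [integrableOn_Ioi_comp_mul_left_iff _ _ hl, mul_zero]
      exact fracLap_heat_phi_int_one hα hα1
    constructor
    · refine IntegrableOn.congr_fun (h1.const_mul (l ^ (1 + α))) ?_ measurableSet_Ioi
      intro s hs
      exact (fracLap_heat_phi_scale hl hs).symm
    · have h2 : ∫ s in Ioi (0 : ℝ), fracLap_heat_phi α l s =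
          ∫ s in Ioi (0 : ℝ), l ^ (1 + α) * fracLap_heat_phi α 1 (l * s) :=
        setIntegral_congr_fun measurableSet_Ioi fun s hs => fracLap_heat_phi_scale hl hs
      rw [h2, integral_const_mul, integral_comp_mul_left_Ioi _ _ hl, mul_zero, smul_eq_mul, ← mul_assoc]
      congr 1
      rw [← Real.rpow_neg_one, ← Real.rpow_add hl]
      congr 1
      ring

theorem fracLap_heat_Gam_pos {α : ℝ} (hα : 0 < α) (hα1 : α < 1) :
    0 < ∫ s in Ioi (0 : ℝ), fracLap_heat_phi α 1 s := by
  have hsub : Ioc (1 : ℝ) 2 ⊆ Ioi 0 := fun s hs => lt_trans one_pos hs.1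
  have h1 : ∫ s in Ioc (1 : ℝ) 2, fracLap_heat_phi α 1 s ≤ ∫ s in Ioi (0 : ℝ), fracLap_heat_phi α 1 s := by
    refine setIntegral_mono_set (fracLap_heat_phi_int_one hα hα1) ?_ (HasSubset.Subset.eventuallyLE hsub)
    rw [Filter.EventuallyLE, ae_restrict_iff' measurableSet_Ioi]
    exact Eventually.of_forall fun s hs => fracLap_heat_phi_nonneg zero_le_one hs
  refine lt_of_lt_of_le ?_ h1
  have h2 : ∀ s ∈ Ioc (1 : ℝ) 2, (1 - Real.exp (-1)) * 2 ^ (-1 - α) ≤ fracLap_heat_phi α 1 s := by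
    intro s hs
    unfold fracLap_heat_phi
    have hs0 : 0 < s := lt_trans one_pos hs.1
    have h3 : Real.exp (-s * 1) ≤ Real.exp (-1) := Real.exp_le_exp.2 (by linarith [hs.1])
    have h4 : (2 : ℝ) ^ (-1 - α) ≤ s ^ (-1 - α) :=
      Real.rpow_le_rpow_of_nonpos hs0 hs.2 (by linarith)
    have h5 : 0 < 1 - Real.exp (-1) := by
      have : Real.exp (-1) < 1 := by rw [← Real.exp_zero]; exact Real.exp_lt_exp.2 (by norm_num)
      linarith
    exact mul_le_mul (by linarith) h4 (by positivity) (by linarith)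
  have h3 : ∫ _ in Ioc (1 : ℝ) 2, (1 - Real.exp (-1)) * (2 : ℝ) ^ (-1 - α) ≤
      ∫ s in Ioc (1 : ℝ) 2, fracLap_heat_phi α 1 s := by
    refine setIntegral_mono_on ?_ ?_ measurableSet_Ioc h2
    · exact integrableOn_const (by simp)
    · exact (fracLap_heat_phi_int_one hα hα1).mono_set hsub
  refine lt_of_lt_of_le ?_ h3
  rw [setIntegral_const]
  have h5 : 0 < 1 - Real.exp (-1) := by
    have : Real.exp (-1) < 1 := by rw [← Real.exp_zero]; exact Real.exp_lt_exp.2 (by norm_num)
    linarith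
  simp only [smul_eq_mul]
  have h6 : (volume : Measure ℝ).real (Ioc 1 2) = 1 := by
    rw [Measure.real, Real.volume_Ioc]
    norm_num
  rw [h6]
  positivity

theorem fracLap_heat_norm_ex (k : Fr) (x : Pt) : ‖ex k x‖ = 1 := by
  unfold ex
  exact Complex.norm_exp_ofReal_mul_I _

theorem fracLap_heat_cont_ex (k : Fr) : Continuous (ex k) := by
  unfold ex
  fun_prop

theorem fracLap_heat_Hs {z : Fr → ℂ} {θ : Pt → ℝ} (hz : Summable fun k => ‖z k‖)
    (hθ : ∀ x, (θ x : ℂ) = ∑' k, z k * ex k x) (x : Pt) {s : ℝ} (hs : 0 < s) :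
    ((θ x - Hs s θ x : ℝ) : ℂ) = ∑' k, z k * (1 - (Real.exp (-s * len k ^ 2) : ℂ)) * ex k x := by
  obtain ⟨hG, hG1, -, -, hGe, -, -, -, -, hGp⟩ := gauss_facts hs
  have hH : ((Hs s θ x : ℝ) : ℂ) = ∑' k, z k * (Real.exp (-s * len k ^ 2) : ℂ) * ex k x := by
    unfold Hs
    rw [← integral_complex_ofReal]
    have h1 : ∀ y, ((G s y * θ (x + y) : ℝ) : ℂ) = ∑' k, (G s y : ℂ) * (z k * ex k (x + y)) := by
      intro y
      rw [Complex.ofReal_mul, hθ, tsum_mul_left]
    simp only [h1]
    have hint : ∀ k : Fr, Integrable (fun y => (G s y : ℂ) * (z k * ex k (x + y))) := by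
      intro k
      refine Integrable.mul_bdd (c := ‖z k‖) hG.ofReal ?_ ?_
      · apply Continuous.aestronglyMeasurable
        exact continuous_const.mul ((fracLap_heat_cont_ex k).comp (continuous_const.add continuous_id))
      · refine Eventually.of_forall fun y => ?_
        rw [norm_mul, fracLap_heat_norm_ex, mul_one]
    rw [← integral_tsum_of_summable_integral_norm hint]
    · refine tsum_congr fun k => ?_
      have h2 : ∀ y, (G s y : ℂ) * (z k * ex k (x + y)) = z k * ((G s y : ℂ) * ex k (x + y)) := fun y => by ring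
      simp only [h2]
      rw [integral_const_mul, hGe]
      ring
    · have h3 : ∀ k : Fr, ∫ y, ‖(G s y : ℂ) * (z k * ex k (x + y))‖ = ‖z k‖ := by
        intro k
        have h4 : ∀ y, ‖(G s y : ℂ) * (z k * ex k (x + y))‖ = G s y * ‖z k‖ := by
          intro y
          rw [norm_mul, norm_mul, fracLap_heat_norm_ex, mul_one, Complex.norm_real, Real.norm_eq_abs,
            abs_of_nonneg (hGp y).1]
        simp only [h4]
        rw [integral_mul_const, hG1, one_mul]
      simp only [h3]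
      exact hz
  rw [Complex.ofReal_sub, hH, hθ, ← Summable.tsum_sub]
  · refine tsum_congr fun k => ?_
    ring
  · refine Summable.of_norm_bounded hz fun k => ?_
    rw [norm_mul, fracLap_heat_norm_ex, mul_one]
  · refine Summable.of_norm_bounded hz fun k => ?_
    rw [norm_mul, norm_mul, fracLap_heat_norm_ex, mul_one, Complex.norm_real, Real.norm_eq_abs,
      abs_of_pos (Real.exp_pos _)]
    have : Real.exp (-s * len k ^ 2) ≤ 1 := by
      rw [Real.exp_le_one_iff]
      nlinarith [sq_nonneg (len k)]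
    exact mul_le_of_le_one_right (norm_nonneg _) this

/-- TARGET -/
theorem fracLap_heat (α : ℝ) (hα : 0 < α) (hα1 : α < 1) : ∃ c > 0, ∀ (z : Fr → ℂ) (θ : Pt → ℝ),
    (Summable fun k => (1 + len k) ^ 3 * ‖z k‖) → (∀ x, (θ x : ℂ) = ∑' k, z k * ex k x) → ∀ x,
    IntegrableOn (fun s : ℝ => (θ x - Hs s θ x) * s ^ (-1 - α)) (Ioi 0) ∧
    (∑' k, ((len k ^ (2 * α) : ℝ) : ℂ) * z k * ex k x).re
      = c * ∫ s in Ioi (0 : ℝ), (θ x - Hs s θ x) * s ^ (-1 - α) := by
  set Γ : ℝ := ∫ s in Ioi (0 : ℝ), fracLap_heat_phi α 1 s with hΓ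
  have hΓpos : 0 < Γ := fracLap_heat_Gam_pos hα hα1
  refine ⟨Γ⁻¹, inv_pos.2 hΓpos, ?_⟩
  intro z θ hz3 hθ x
  have hlen : ∀ k : Fr, 0 ≤ len k := fun k => Real.sqrt_nonneg _
  have hz : Summable fun k => ‖z k‖ := by
    refine Summable.of_nonneg_of_le (fun k => norm_nonneg _) (fun k => ?_) hz3
    have h1 : 1 ≤ (1 + len k) ^ 3 := one_le_pow₀ (by linarith [hlen k])
    exact le_mul_of_one_le_left (norm_nonneg _) h1
  have hza : Summable fun k => (len k ^ 2) ^ α * ‖z k‖ := by
    refine Summable.of_nonneg_of_le (fun k => by positivity) (fun k => ?_) hz3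
    refine mul_le_mul_of_nonneg_right ?_ (norm_nonneg _)
    have h1 : (len k ^ 2) ^ α = len k ^ (2 * α) := by
      rw [← Real.rpow_natCast (len k) 2, ← Real.rpow_mul (hlen k)]
      norm_num
    rw [h1]
    calc len k ^ (2 * α) ≤ (1 + len k) ^ (2 * α) :=
          Real.rpow_le_rpow (hlen k) (by linarith) (by linarith)
      _ ≤ (1 + len k) ^ (3 : ℝ) :=
          Real.rpow_le_rpow_of_exponent_le (by linarith [hlen k]) (by linarith)
      _ = (1 + len k) ^ 3 := by
          rw [← Real.rpow_natCast]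
          norm_num
  -- the terms
  set F : Fr → ℝ → ℂ := fun k s => (z k * ex k x) * ((fracLap_heat_phi α (len k ^ 2) s : ℝ) : ℂ) with hF
  have hFint : ∀ k, Integrable (F k) (volume.restrict (Ioi 0)) := by
    intro k
    have h1 : Integrable (fracLap_heat_phi α (len k ^ 2)) (volume.restrict (Ioi 0)) :=
      (fracLap_heat_phi_int hα hα1 (sq_nonneg (len k))).1
    exact h1.ofReal.const_mul _
  have hFnorm : ∀ k, ∫ s in Ioi (0 : ℝ), ‖F k s‖ = (len k ^ 2) ^ α * ‖z k‖ * Γ := by
    intro k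
    have h1 : ∫ s in Ioi (0 : ℝ), ‖F k s‖ = ∫ s in Ioi (0 : ℝ), ‖z k‖ * fracLap_heat_phi α (len k ^ 2) s := by
      refine setIntegral_congr_fun measurableSet_Ioi fun s hs => ?_
      simp only [hF]
      rw [norm_mul, norm_mul, fracLap_heat_norm_ex, mul_one, Complex.norm_real, Real.norm_eq_abs,
        abs_of_nonneg (fracLap_heat_phi_nonneg (sq_nonneg _) hs)]
    rw [h1, integral_const_mul, (fracLap_heat_phi_int hα hα1 (sq_nonneg (len k))).2]
    ring
  have hFsum : Summable fun k => ∫ s in Ioi (0 : ℝ), ‖F k s‖ := by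
    simp only [hFnorm]
    exact hza.mul_right Γ
  have hpt : ∀ s ∈ Ioi (0 : ℝ), (((θ x - Hs s θ x) * s ^ (-1 - α) : ℝ) : ℂ) = ∑' k, F k s := by
    intro s hs
    rw [Complex.ofReal_mul, fracLap_heat_Hs hz hθ x hs, ← tsum_mul_right]
    refine tsum_congr fun k => ?_
    simp only [hF, fracLap_heat_phi]
    push_cast
    ring
  -- integrability of the sum
  have hcont : ContinuousOn (fun s : ℝ => ∑' k, z k * ex k x * ((1 - Real.exp (-s * len k ^ 2) : ℝ) : ℂ))
      (Ioi 0) := by
    refine continuousOn_tsum (u := fun k => ‖z k‖) (fun k => ?_) hz ?_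
    · apply Continuous.continuousOn
      fun_prop
    · intro k s hs
      have hs' : (0 : ℝ) < s := hs
      rw [norm_mul, norm_mul, fracLap_heat_norm_ex, mul_one, Complex.norm_real, Real.norm_eq_abs]
      have h1 : Real.exp (-s * len k ^ 2) ≤ 1 := by
        rw [Real.exp_le_one_iff]
        nlinarith [sq_nonneg (len k)]
      have h2 := Real.exp_pos (-s * len k ^ 2)
      refine mul_le_of_le_one_right (norm_nonneg _) ?_
      rw [abs_le]
      constructor <;> linarith
  have hmeas : AEStronglyMeasurable (fun s => ∑' k, F k s) (volume.restrict (Ioi 0)) := by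
    have h1 : ContinuousOn (fun s : ℝ => (∑' k, z k * ex k x * ((1 - Real.exp (-s * len k ^ 2) : ℝ) : ℂ)) *
        ((s ^ (-1 - α) : ℝ) : ℂ)) (Ioi 0) := by
      refine hcont.mul ?_
      refine Complex.continuous_ofReal.comp_continuousOn ?_
      intro y hy
      exact (Real.continuousAt_rpow_const y _ (Or.inl (ne_of_gt hy))).continuousWithinAt
    refine (h1.aestronglyMeasurable measurableSet_Ioi).congr ?_
    refine Eventually.of_forall fun s => ?_
    dsimp only
    rw [← tsum_mul_right]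
    refine tsum_congr fun k => ?_
    simp only [hF, fracLap_heat_phi]
    push_cast
    ring
  have hsumint : Integrable (fun s => ∑' k, F k s) (volume.restrict (Ioi 0)) := by
    refine ⟨hmeas, ?_⟩
    have h1 : ∫⁻ s in Ioi (0 : ℝ), ‖∑' k, F k s‖ₑ ≤ ∫⁻ s in Ioi (0 : ℝ), ∑' k, ‖F k s‖ₑ := by
      refine setLIntegral_mono' measurableSet_Ioi fun s hs => ?_
      have hsm : Summable fun k => ‖F k s‖ := by
        refine Summable.of_nonneg_of_le (fun k => norm_nonneg _) (fun k => ?_) (hz.mul_right (s ^ (-1 - α)))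
        simp only [hF]
        rw [norm_mul, norm_mul, fracLap_heat_norm_ex, mul_one, Complex.norm_real, Real.norm_eq_abs,
          abs_of_nonneg (fracLap_heat_phi_nonneg (sq_nonneg _) hs)]
        refine mul_le_mul_of_nonneg_left ?_ (norm_nonneg _)
        unfold fracLap_heat_phi
        have h2 := Real.exp_pos (-s * len k ^ 2)
        exact mul_le_of_le_one_left (Real.rpow_nonneg (le_of_lt hs) _) (by linarith)
      have h2 := norm_tsum_le_tsum_norm hsm
      calc ‖∑' k, F k s‖ₑ = ENNReal.ofReal ‖∑' k, F k s‖ := (ofReal_norm _).symm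
        _ ≤ ENNReal.ofReal (∑' k, ‖F k s‖) := ENNReal.ofReal_le_ofReal h2
        _ = ∑' k, ENNReal.ofReal ‖F k s‖ := ENNReal.ofReal_tsum_of_nonneg (fun k => norm_nonneg _) hsm
        _ = ∑' k, ‖F k s‖ₑ := by simp only [ofReal_norm]
    refine lt_of_le_of_lt h1 ?_
    rw [lintegral_tsum fun k => (hFint k).1.enorm]
    have h3 : ∀ k, ∫⁻ s in Ioi (0 : ℝ), ‖F k s‖ₑ = ENNReal.ofReal (∫ s in Ioi (0 : ℝ), ‖F k s‖) := by
      intro k
      rw [ofReal_integral_norm_eq_lintegral_enorm (hFint k)]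
    simp only [h3]
    rw [← ENNReal.ofReal_tsum_of_nonneg (fun k => integral_nonneg fun s => norm_nonneg _) hFsum]
    exact ENNReal.ofReal_lt_top
  have hre : ∀ s ∈ Ioi (0 : ℝ), (∑' k, F k s).re = (θ x - Hs s θ x) * s ^ (-1 - α) := by
    intro s hs
    rw [← hpt s hs, Complex.ofReal_re]
  have hI : IntegrableOn (fun s : ℝ => (θ x - Hs s θ x) * s ^ (-1 - α)) (Ioi 0) := by
    have h1 : IntegrableOn (fun s => (∑' k, F k s).re) (Ioi 0) := hsumint.re
    exact h1.congr_fun hre measurableSet_Ioi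
  refine ⟨hI, ?_⟩
  have h1 : ((∫ s in Ioi (0 : ℝ), (θ x - Hs s θ x) * s ^ (-1 - α) : ℝ) : ℂ) = ∫ s in Ioi (0 : ℝ), ∑' k, F k s := by
    rw [← integral_complex_ofReal]
    exact setIntegral_congr_fun measurableSet_Ioi hpt
  rw [← integral_tsum_of_summable_integral_norm hFint hFsum] at h1
  have h2 : ∀ k, ∫ s in Ioi (0 : ℝ), F k s = (((len k ^ (2 * α) : ℝ) : ℂ) * z k * ex k x) * (Γ : ℂ) := by
    intro k
    simp only [hF]
    rw [integral_const_mul, integral_complex_ofReal, (fracLap_heat_phi_int hα hα1 (sq_nonneg (len k))).2]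
    have h3 : (len k ^ 2) ^ α = len k ^ (2 * α) := by
      rw [← Real.rpow_natCast (len k) 2, ← Real.rpow_mul (hlen k)]
      norm_num
    rw [h3, ← hΓ]
    push_cast
    ring
  simp only [h2] at h1
  rw [tsum_mul_right] at h1
  have h4 := congrArg Complex.re h1
  rw [Complex.ofReal_re, Complex.re_mul_ofReal] at h4
  rw [h4]
  field_simp

end H706.JH2

namespace H706

alias fracLap_heat := JH2.fracLap_heat

end H706
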