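import Pool.Agent.Helper706_SQG.Defs2
import Pool.Agent.Helper706_SQG.H1

/-!
JOB H3 (MP_96bed6_an, helper706).  The Riesz transforms of an absolutely convergent Fourier series in
terms of the heat semigroup.

`D1 s θ x = ∂₁ H_s θ (x) = (2s)⁻¹ ∫ y₁ G_s(y) θ(x+y) dy`, and the same for `D2`.
PROOF.  `∫_0^∞ s^{-1/2} e^{-sλ} ds = √π λ^{-1/2}` for `λ > 0` (Gamma function at `1/2`).
By the given `gauss_facts`, `D1 s θ x = ∑_k i k₁ e^{-s|k|²} z_k ex k x`, so
`∑_k (-i k₁/|k|) z_k ex k x = -π^{-1/2} ∫_0^∞ s^{-1/2} D1 s θ x ds`, where sum and integral may be exchanged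
because `∑ |z_k| |k₁| ∫ s^{-1/2} e^{-s|k|²} ds ≤ √π ∑ |z_k| < ∞` (the term `k = 0` vanishes).
For `s ≥ 1`: `|D1 s θ x| ≤ ∑_{k≠0} |k| e^{-s|k|²} |z_k| ≤ e^{-s/2} ∑_k |k| e^{-|k|²/2} = C e^{-s/2}`
(as `|z_k| ≤ 1`, `|k| ≥ 1` and `s|k|² ≥ s/2 + |k|²/2`).
-/

set_option autoImplicit false
open Set Filter Topology MeasureTheory

namespace H706.JH3

/-- The derivative of the heat semigroup in the direction `c`. -/
noncomputable def Dc (c : Pt → ℝ) (s : ℝ) (f : Pt → ℝ) (x : Pt) : ℝ :=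
  (2 * s)⁻¹ * ∫ y, c y * G s y * f (x + y)

structure Dir (c : Pt → ℝ) (κ : Fr → ℤ) : Prop where
  cont : Continuous c
  int : ∀ s, 0 < s → Integrable (fun y => |c y| * G s y)
  coef : ∀ s, 0 < s → ∀ (k : Fr) (x : Pt), ∫ y : Pt, ((c y * G s y : ℝ) : ℂ) * ex k (x + y)
      = 2 * Complex.I * s * κ k * (Real.exp (-s * len k ^ 2) : ℂ) * ex k x
  le : ∀ k, |(κ k : ℝ)| ≤ len k

theorem len_nonneg (k : Fr) : 0 ≤ len k := Real.sqrt_nonneg _

theorem len_sq (k : Fr) : len k ^ 2 = (k.1 : ℝ) ^ 2 + (k.2 : ℝ) ^ 2 :=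
  Real.sq_sqrt (by positivity)

theorem abs_fst_le (k : Fr) : |(k.1 : ℝ)| ≤ len k := by
  refine abs_le_of_sq_le_sq' ?_ (len_nonneg k) |> fun h => abs_le.2 h
  rw [len_sq]
  nlinarith [sq_nonneg (k.2 : ℝ)]

theorem abs_snd_le (k : Fr) : |(k.2 : ℝ)| ≤ len k := by
  refine abs_le_of_sq_le_sq' ?_ (len_nonneg k) |> fun h => abs_le.2 h
  rw [len_sq]
  nlinarith [sq_nonneg (k.1 : ℝ)]

theorem one_le_len {k : Fr} (hk : len k ≠ 0) : 1 ≤ len k := by
  have h1 : (k.1 ^ 2 + k.2 ^ 2 : ℤ) ≠ 0 := by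
    intro h
    apply hk
    have h2 : (k.1 : ℝ) ^ 2 + (k.2 : ℝ) ^ 2 = 0 := by exact_mod_cast h
    rw [len, h2, Real.sqrt_zero]
  have h2 : (1 : ℤ) ≤ k.1 ^ 2 + k.2 ^ 2 := by
    have : (0 : ℤ) ≤ k.1 ^ 2 + k.2 ^ 2 := by positivity
    omega
  have h3 : (1 : ℝ) ≤ (k.1 : ℝ) ^ 2 + (k.2 : ℝ) ^ 2 := by exact_mod_cast h2
  rw [len]
  exact Real.one_le_sqrt.2 h3

theorem norm_ex (k : Fr) (x : Pt) : ‖ex k x‖ = 1 := by
  rw [ex]
  exact Complex.norm_exp_ofReal_mul_I _

theorem continuous_G (s : ℝ) : Continuous (G s) := by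
  unfold G
  fun_prop

theorem continuous_ex (k : Fr) (x : Pt) : Continuous fun y => ex k (x + y) := by
  unfold ex
  fun_prop

theorem G_nonneg {s : ℝ} (hs : 0 < s) (y : Pt) : 0 ≤ G s y := by
  unfold G
  positivity

theorem dir1 : Dir Prod.fst (fun k => k.1) where
  cont := continuous_fst
  int s hs := (gauss_facts hs).2.2.1
  coef s hs := (gauss_facts hs).2.2.2.2.2.1
  le := abs_fst_le

theorem dir2 : Dir Prod.snd (fun k => k.2) where
  cont := continuous_snd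
  int s hs := (gauss_facts hs).2.2.2.1
  coef s hs := (gauss_facts hs).2.2.2.2.2.2.1
  le := abs_snd_le

section

variable {c : Pt → ℝ} {κ : Fr → ℤ} (h : Dir c κ) {z : Fr → ℂ} {θ : Pt → ℝ}

include h

theorem Dc_hasSum (hz : Summable fun k => ‖z k‖) (hθ : ∀ x, (θ x : ℂ) = ∑' k, z k * ex k x)
    {s : ℝ} (hs : 0 < s) (x : Pt) :
    HasSum (fun k => (Real.exp (-s * len k ^ 2) : ℂ) * (Complex.I * κ k * z k * ex k x))
      ((Dc c s θ x : ℝ) : ℂ) := by
  have hcont : ∀ k, Continuous fun y : Pt => ((c y * G s y : ℝ) : ℂ) * (z k * ex k (x + y)) := by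
    intro k
    have h1 := continuous_ex k x
    have h2 := continuous_G s
    have h3 := h.cont
    exact (Complex.continuous_ofReal.comp (h3.mul h2)).mul (continuous_const.mul h1)
  have hnorm : ∀ k (y : Pt), ‖((c y * G s y : ℝ) : ℂ) * (z k * ex k (x + y))‖ =
      ‖z k‖ * (|c y| * G s y) := by
    intro k y
    rw [norm_mul, norm_mul, norm_ex, mul_one, Complex.norm_real, Real.norm_eq_abs, abs_mul,
      abs_of_nonneg (G_nonneg hs y)]
    ring
  have hint : ∀ k, Integrable fun y : Pt => ((c y * G s y : ℝ) : ℂ) * (z k * ex k (x + y)) := by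
    intro k
    refine ((h.int s hs).const_mul ‖z k‖).mono' (hcont k).aestronglyMeasurable ?_
    exact Eventually.of_forall fun y => (hnorm k y).le
  have hsum : Summable fun k => ∫ y : Pt, ‖((c y * G s y : ℝ) : ℂ) * (z k * ex k (x + y))‖ := by
    simp only [hnorm, integral_const_mul]
    exact hz.mul_right _
  have h1 := hasSum_integral_of_summable_integral_norm hint hsum
  have h2 : ∀ y : Pt, ∑' k, ((c y * G s y : ℝ) : ℂ) * (z k * ex k (x + y)) =
      ((c y * G s y * θ (x + y) : ℝ) : ℂ) := by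
    intro y
    rw [tsum_mul_left, ← hθ]
    push_cast
    ring
  simp only [h2] at h1
  rw [integral_complex_ofReal] at h1
  have h3 := h1.mul_left (((2 * s)⁻¹ : ℝ) : ℂ)
  have h4 : (((2 * s)⁻¹ : ℝ) : ℂ) * ((∫ y, c y * G s y * θ (x + y) : ℝ) : ℂ) =
      ((Dc c s θ x : ℝ) : ℂ) := by
    rw [Dc]
    push_cast
    ring
  rw [← h4]
  refine h3.congr_fun ?_
  intro k
  have h5 : ∫ y : Pt, ((c y * G s y : ℝ) : ℂ) * (z k * ex k (x + y)) =
      z k * (2 * Complex.I * s * κ k * (Real.exp (-s * len k ^ 2) : ℂ) * ex k x) := by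
    rw [← h.coef s hs k x, ← integral_const_mul]
    congr 1
    funext y
    ring
  rw [h5]
  have hs' : (s : ℂ) ≠ 0 := by exact_mod_cast hs.ne'
  push_cast
  field_simp

theorem Dc_abs_le {s : ℝ} (hs : 0 < s) {x : Pt} (hz : Summable fun k => ‖z k‖)
    (hθ : ∀ x, (θ x : ℂ) = ∑' k, z k * ex k x) {b : Fr → ℝ} (hb : Summable b)
    (hb' : ∀ k, Real.exp (-s * len k ^ 2) * (len k * ‖z k‖) ≤ b k) :
    |Dc c s θ x| ≤ ∑' k, b k := by
  have h1 := Dc_hasSum h hz hθ hs x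
  rw [← Real.norm_eq_abs, ← Complex.norm_real, ← h1.tsum_eq]
  refine tsum_of_norm_bounded hb.hasSum fun k => ?_
  refine le_trans ?_ (hb' k)
  rw [norm_mul, norm_mul, norm_mul, norm_mul, norm_ex, mul_one, Complex.norm_I, one_mul,
    Complex.norm_real, Real.norm_of_nonneg (Real.exp_pos _).le]
  have h2 : ‖(κ k : ℂ)‖ ≤ len k := by
    rw [Complex.norm_intCast]
    exact h.le k
  gcongr

end

/-- The constant. -/
theorem summable_len : Summable fun k : Fr => len k * Real.exp (-len k ^ 2 / 2) := by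
  have h1 := summable_pow_mul_jacobiTheta₂_term_bound 0 (T := (2 * Real.pi)⁻¹)
    (by have := Real.pi_pos; positivity) 0
  have h2 := summable_pow_mul_jacobiTheta₂_term_bound 0 (T := (2 * Real.pi)⁻¹)
    (by have := Real.pi_pos; positivity) 1
  have h3 := h1.add h2
  have h4 : Summable fun n : ℤ => (1 + |(n : ℝ)|) * Real.exp (-(n : ℝ) ^ 2 / 2) := by
    refine h3.congr fun n => ?_
    have h5 : -Real.pi * ((2 * Real.pi)⁻¹ * (n : ℝ) ^ 2 - 2 * 0 * |(n : ℝ)|) = -(n : ℝ) ^ 2 / 2 := by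
      have := Real.pi_pos.ne'
      field_simp
      ring
    simp only [Int.cast_abs, h5]
    ring
  have h6 := h4.mul_of_nonneg h4 (fun n => by positivity) (fun n => by positivity)
  refine h6.of_nonneg_of_le (fun k => mul_nonneg (len_nonneg k) (Real.exp_pos _).le) fun k => ?_
  have h7 : Real.exp (-len k ^ 2 / 2) = Real.exp (-(k.1 : ℝ) ^ 2 / 2) * Real.exp (-(k.2 : ℝ) ^ 2 / 2) := by
    rw [← Real.exp_add, len_sq]
    congr 1
    ring
  have h8 : len k ≤ (1 + |(k.1 : ℝ)|) * (1 + |(k.2 : ℝ)|) := by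
    refine abs_le_of_sq_le_sq' ?_ (by positivity) |>.2
    rw [len_sq]
    have := abs_nonneg (k.1 : ℝ)
    have := abs_nonneg (k.2 : ℝ)
    have e1 := sq_abs (k.1 : ℝ)
    have e2 := sq_abs (k.2 : ℝ)
    nlinarith [mul_nonneg (abs_nonneg (k.1 : ℝ)) (abs_nonneg (k.2 : ℝ)),
      mul_nonneg (mul_nonneg (abs_nonneg (k.1 : ℝ)) (abs_nonneg (k.2 : ℝ)))
        (mul_nonneg (abs_nonneg (k.1 : ℝ)) (abs_nonneg (k.2 : ℝ))),
      mul_nonneg (abs_nonneg (k.1 : ℝ)) (mul_nonneg (abs_nonneg (k.1 : ℝ)) (abs_nonneg (k.2 : ℝ))),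
      mul_nonneg (abs_nonneg (k.2 : ℝ)) (mul_nonneg (abs_nonneg (k.1 : ℝ)) (abs_nonneg (k.2 : ℝ)))]
  rw [h7]
  have h9 : (1 + |(k.1 : ℝ)|) * Real.exp (-(k.1 : ℝ) ^ 2 / 2) *
      ((1 + |(k.2 : ℝ)|) * Real.exp (-(k.2 : ℝ) ^ 2 / 2)) =
      (1 + |(k.1 : ℝ)|) * (1 + |(k.2 : ℝ)|) *
        (Real.exp (-(k.1 : ℝ) ^ 2 / 2) * Real.exp (-(k.2 : ℝ) ^ 2 / 2)) := by ring
  rw [h9]
  gcongr

theorem bound_large {c : Pt → ℝ} {κ : Fr → ℤ} (h : Dir c κ) {z : Fr → ℂ} {θ : Pt → ℝ}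
    (hz : Summable fun k => ‖z k‖) (hθ : ∀ x, (θ x : ℂ) = ∑' k, z k * ex k x)
    (hz1 : ∀ k, ‖z k‖ ≤ 1) (x : Pt) {s : ℝ} (hs : 1 ≤ s) :
    |Dc c s θ x| ≤ (∑' k : Fr, len k * Real.exp (-len k ^ 2 / 2)) * Real.exp (-s / 2) := by
  rw [← tsum_mul_right]
  refine Dc_abs_le h (by linarith) hz hθ (summable_len.mul_right _) fun k => ?_
  rcases eq_or_ne (len k) 0 with h0 | h0
  · simp [h0]
  · have h1 := one_le_len h0
    have h2 : Real.exp (-s * len k ^ 2) ≤ Real.exp (-len k ^ 2 / 2) * Real.exp (-s / 2) := by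
      rw [← Real.exp_add]
      apply Real.exp_le_exp.2
      nlinarith [mul_nonneg (by linarith : (0:ℝ) ≤ s - 1) (sq_nonneg (len k)),
        mul_nonneg (by linarith : (0:ℝ) ≤ s) (by nlinarith : (0:ℝ) ≤ len k ^ 2 - 1)]
    calc Real.exp (-s * len k ^ 2) * (len k * ‖z k‖)
        ≤ (Real.exp (-len k ^ 2 / 2) * Real.exp (-s / 2)) * (len k * 1) := by
          have := len_nonneg k
          have := hz1 k
          gcongr
      _ = len k * Real.exp (-len k ^ 2 / 2) * Real.exp (-s / 2) := by ring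

theorem bound_small {c : Pt → ℝ} {κ : Fr → ℤ} (h : Dir c κ) {z : Fr → ℂ} {θ : Pt → ℝ}
    (hz : Summable fun k => ‖z k‖) (hθ : ∀ x, (θ x : ℂ) = ∑' k, z k * ex k x)
    (hz2 : Summable fun k => len k * ‖z k‖) (x : Pt) {s : ℝ} (hs : 0 < s) :
    |Dc c s θ x| ≤ ∑' k : Fr, len k * ‖z k‖ := by
  refine Dc_abs_le h hs hz hθ hz2 fun k => ?_
  have h1 : Real.exp (-s * len k ^ 2) ≤ 1 := by
    apply Real.exp_le_one_iff.2
    have := sq_nonneg (len k)
    nlinarith
  have h2 := mul_nonneg (len_nonneg k) (norm_nonneg (z k))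
  nlinarith

/-- The integral of `s ^ (-1/2) e^{-s len^2}`. -/
theorem int_heat {L : ℝ} (hL : 0 < L) :
    IntegrableOn (fun s : ℝ => s ^ (-(1 / 2) : ℝ) * Real.exp (-s * L)) (Ioi 0) ∧
    ∫ s in Ioi (0 : ℝ), s ^ (-(1 / 2) : ℝ) * Real.exp (-s * L) = Real.sqrt Real.pi / Real.sqrt L := by
  constructor
  · have h1 := integrableOn_rpow_mul_exp_neg_mul_rpow (p := 1) (s := -(1 / 2)) (b := L)
      (by norm_num) one_pos hL
    refine h1.congr_fun (fun s hs => ?_) measurableSet_Ioi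
    simp only [Real.rpow_one]
    congr 2
    ring
  · have h1 := Real.integral_rpow_mul_exp_neg_mul_Ioi (a := 1 / 2) (r := L) (by norm_num) hL
    rw [Real.Gamma_one_half_eq] at h1
    have h2 : (1 / 2 - 1 : ℝ) = -(1 / 2) := by norm_num
    rw [h2] at h1
    have h3 : ∀ s : ℝ, -s * L = -(L * s) := fun s => by ring
    simp only [h3]
    rw [h1, ← Real.sqrt_eq_rpow, Real.sqrt_div zero_le_one, Real.sqrt_one]
    ring

theorem riesz_dir {c : Pt → ℝ} {κ : Fr → ℤ} (h : Dir c κ) {z : Fr → ℂ} {θ : Pt → ℝ}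
    (hz : Summable fun k => ‖z k‖) (hθ : ∀ x, (θ x : ℂ) = ∑' k, z k * ex k x)
    (hz1 : ∀ k, ‖z k‖ ≤ 1) (hz2 : Summable fun k => len k * ‖z k‖) (x : Pt) :
    IntegrableOn (fun s : ℝ => s ^ (-(1 / 2) : ℝ) * Dc c s θ x) (Ioi 0) ∧
    (∑' k : Fr, (-Complex.I * (κ k : ℂ) / (len k : ℂ)) * z k * ex k x).re
      = -(Real.sqrt Real.pi)⁻¹ * ∫ s in Ioi (0 : ℝ), s ^ (-(1 / 2) : ℝ) * Dc c s θ x := by
  set F : Fr → ℝ → ℂ := fun k s => ((s ^ (-(1 / 2) : ℝ) * Real.exp (-s * len k ^ 2) : ℝ) : ℂ) *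
    (Complex.I * κ k * z k * ex k x) with hF
  have hκ0 : ∀ k, len k = 0 → κ k = 0 := by
    intro k hk
    have h1 := h.le k
    rw [hk] at h1
    have h2 : (κ k : ℝ) = 0 := abs_eq_zero.1 (le_antisymm h1 (abs_nonneg _))
    exact_mod_cast h2
  have hnc : ∀ k, ‖Complex.I * κ k * z k * ex k x‖ ≤ len k * ‖z k‖ := by
    intro k
    rw [norm_mul, norm_mul, norm_mul, norm_ex, mul_one, Complex.norm_I, one_mul,
      Complex.norm_intCast]
    exact mul_le_mul_of_nonneg_right (h.le k) (norm_nonneg _)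
  have hFint : ∀ k, Integrable (F k) (volume.restrict (Ioi 0)) := by
    intro k
    rcases eq_or_ne (len k) 0 with h0 | h0
    · have h1 : F k = fun _ => 0 := by
        funext s
        simp only [hF, hκ0 k h0]
        simp
      rw [h1]
      exact integrable_zero _ _ _
    · have h1 : 0 < len k ^ 2 := by have := one_le_len h0; positivity
      exact ((int_heat h1).1.ofReal (𝕜 := ℂ)).mul_const _
  have hFval : ∀ k, ∫ s in Ioi (0 : ℝ), F k s =
      ((Real.sqrt Real.pi / len k : ℝ) : ℂ) * (Complex.I * κ k * z k * ex k x) := by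
    intro k
    rcases eq_or_ne (len k) 0 with h0 | h0
    · have h1 : F k = fun _ => 0 := by
        funext s
        simp only [hF, hκ0 k h0]
        simp
      rw [h1, hκ0 k h0]
      simp
    · have h1 : 0 < len k ^ 2 := by have := one_le_len h0; positivity
      simp only [hF]
      rw [integral_mul_const, integral_complex_ofReal, (int_heat h1).2, Real.sqrt_sq (len_nonneg k)]
  have hFsum : Summable fun k => ∫ s in Ioi (0 : ℝ), ‖F k s‖ := by
    refine Summable.of_nonneg_of_le (fun k => integral_nonneg fun s => norm_nonneg _) (fun k => ?_)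
      (hz.mul_left (Real.sqrt Real.pi))
    have h2 : ∀ s ∈ Ioi (0 : ℝ), ‖F k s‖ = s ^ (-(1 / 2) : ℝ) * Real.exp (-s * len k ^ 2) *
        ‖Complex.I * κ k * z k * ex k x‖ := by
      intro s hs
      have hs' : (0 : ℝ) < s := hs
      simp only [hF]
      rw [norm_mul, Complex.norm_real, Real.norm_of_nonneg (by positivity)]
    rw [setIntegral_congr_fun measurableSet_Ioi h2, integral_mul_const]
    rcases eq_or_ne (len k) 0 with h0 | h0
    · rw [hκ0 k h0]
      simp only [Int.cast_zero, mul_zero, zero_mul, norm_zero]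
      positivity
    · have h1 : 0 < len k ^ 2 := by have := one_le_len h0; positivity
      have h3 : 0 < len k := by have := one_le_len h0; linarith
      rw [(int_heat h1).2, Real.sqrt_sq (len_nonneg k)]
      calc Real.sqrt Real.pi / len k * ‖Complex.I * κ k * z k * ex k x‖
          ≤ Real.sqrt Real.pi / len k * (len k * ‖z k‖) := by
            gcongr
            exact hnc k
        _ = Real.sqrt Real.pi * ‖z k‖ := by
            field_simp
  have hmain := hasSum_integral_of_summable_integral_norm hFint hFsum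
  have hsumF : ∀ s ∈ Ioi (0 : ℝ), HasSum (fun k => F k s)
      ((s ^ (-(1 / 2) : ℝ) * Dc c s θ x : ℝ) : ℂ) := by
    intro s hs
    have h1 := (Dc_hasSum h hz hθ hs x).mul_left ((s ^ (-(1 / 2) : ℝ) : ℝ) : ℂ)
    have h2 : ((s ^ (-(1 / 2) : ℝ) * Dc c s θ x : ℝ) : ℂ) =
        ((s ^ (-(1 / 2) : ℝ) : ℝ) : ℂ) * ((Dc c s θ x : ℝ) : ℂ) := by push_cast; ring
    rw [h2]
    refine h1.congr_fun fun k => ?_
    simp only [hF]
    push_cast
    ring
  have hcomplex : ∫ s in Ioi (0 : ℝ), ∑' k, F k s =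
      ((∫ s in Ioi (0 : ℝ), s ^ (-(1 / 2) : ℝ) * Dc c s θ x : ℝ) : ℂ) := by
    rw [← integral_complex_ofReal]
    exact setIntegral_congr_fun measurableSet_Ioi fun s hs => (hsumF s hs).tsum_eq
  constructor
  · -- integrability
    have hmeas : AEStronglyMeasurable (fun s : ℝ => ((s ^ (-(1 / 2) : ℝ) * Dc c s θ x : ℝ) : ℂ))
        (volume.restrict (Ioi 0)) := by
      refine aestronglyMeasurable_of_tendsto_ae (u := atTop)
        (f := fun (t : Finset Fr) s => ∑ k ∈ t, F k s) (fun t => ?_) ?_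
      · exact Finset.aestronglyMeasurable_fun_sum _ fun k _ => (hFint k).1
      · exact (ae_restrict_iff' measurableSet_Ioi).2 (Eventually.of_forall fun s hs => hsumF s hs)
    have hmeas' : AEStronglyMeasurable (fun s : ℝ => s ^ (-(1 / 2) : ℝ) * Dc c s θ x)
        (volume.restrict (Ioi 0)) := by
      have := Complex.continuous_re.comp_aestronglyMeasurable hmeas
      simpa using this
    set A := ∑' k : Fr, len k * ‖z k‖ with hA
    set C := ∑' k : Fr, len k * Real.exp (-len k ^ 2 / 2) with hC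
    have hA0 : 0 ≤ A := tsum_nonneg fun k => mul_nonneg (len_nonneg k) (norm_nonneg _)
    have hC0 : 0 ≤ C := tsum_nonneg fun k => mul_nonneg (len_nonneg k) (Real.exp_pos _).le
    have hdom := ((int_heat (L := 1 / 2) (by norm_num)).1).const_mul (A * Real.exp 1 + C)
    refine Integrable.mono' hdom hmeas' ?_
    refine (ae_restrict_iff' measurableSet_Ioi).2 (Eventually.of_forall fun s hs => ?_)
    have hs' : (0 : ℝ) < s := hs
    rw [norm_mul, Real.norm_of_nonneg (by positivity), Real.norm_eq_abs]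
    have h1 : |Dc c s θ x| ≤ (A * Real.exp 1 + C) * Real.exp (-s * (1 / 2)) := by
      rcases le_or_gt 1 s with h2 | h2
      · have h3 := bound_large h hz hθ hz1 x h2
        have h4 : -s / 2 = -s * (1 / 2) := by ring
        rw [h4] at h3
        have h5 : 0 ≤ A * Real.exp 1 * Real.exp (-s * (1 / 2)) := by positivity
        rw [add_mul]
        linarith
      · have h3 := bound_small h hz hθ hz2 x hs'
        have h4 : 1 ≤ Real.exp 1 * Real.exp (-s * (1 / 2)) := by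
          rw [← Real.exp_add]
          apply Real.one_le_exp
          linarith
        have h5 : 0 ≤ C * Real.exp (-s * (1 / 2)) := by positivity
        have h6 : A * 1 ≤ A * (Real.exp 1 * Real.exp (-s * (1 / 2))) :=
          mul_le_mul_of_nonneg_left h4 hA0
        rw [add_mul]
        linarith
    calc s ^ (-(1 / 2) : ℝ) * |Dc c s θ x|
        ≤ s ^ (-(1 / 2) : ℝ) * ((A * Real.exp 1 + C) * Real.exp (-s * (1 / 2))) := by
          gcongr
      _ = (A * Real.exp 1 + C) * (s ^ (-(1 / 2) : ℝ) * Real.exp (-s * (1 / 2))) := by ring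
  · simp only [hFval] at hmain
    rw [hcomplex] at hmain
    have h1 := hmain.mul_left (((-(Real.sqrt Real.pi)⁻¹ : ℝ)) : ℂ)
    have hπ : Real.sqrt Real.pi ≠ 0 := (Real.sqrt_pos.2 Real.pi_pos).ne'
    have h2 : ∀ k, (((-(Real.sqrt Real.pi)⁻¹ : ℝ)) : ℂ) *
        (((Real.sqrt Real.pi / len k : ℝ) : ℂ) * (Complex.I * κ k * z k * ex k x)) =
        (-Complex.I * (κ k : ℂ) / (len k : ℂ)) * z k * ex k x := by
      intro k
      have hπ' : ((Real.sqrt Real.pi : ℝ) : ℂ) ≠ 0 := by exact_mod_cast hπ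
      push_cast
      field_simp
    simp only [h2] at h1
    rw [h1.tsum_eq, ← Complex.ofReal_mul, Complex.ofReal_re]

theorem riesz_heat : ∃ C : ℝ, ∀ (z : Fr → ℂ) (θ : Pt → ℝ),
    (Summable fun k => (1 + len k) ^ 3 * ‖z k‖) → (∀ x, (θ x : ℂ) = ∑' k, z k * ex k x) →
    (∀ k, ‖z k‖ ≤ 1) → ∀ x,
    IntegrableOn (fun s : ℝ => s ^ (-(1 / 2) : ℝ) * D1 s θ x) (Ioi 0) ∧
    IntegrableOn (fun s : ℝ => s ^ (-(1 / 2) : ℝ) * D2 s θ x) (Ioi 0) ∧
    (∑' k : Fr, (-Complex.I * (k.1 : ℂ) / (len k : ℂ)) * z k * ex k x).re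
      = -(Real.sqrt Real.pi)⁻¹ * ∫ s in Ioi (0 : ℝ), s ^ (-(1 / 2) : ℝ) * D1 s θ x ∧
    (∑' k : Fr, (-Complex.I * (k.2 : ℂ) / (len k : ℂ)) * z k * ex k x).re
      = -(Real.sqrt Real.pi)⁻¹ * ∫ s in Ioi (0 : ℝ), s ^ (-(1 / 2) : ℝ) * D2 s θ x ∧
    ∀ s, 1 ≤ s → |D1 s θ x| ≤ C * Real.exp (-s / 2) ∧ |D2 s θ x| ≤ C * Real.exp (-s / 2) := by
  refine ⟨∑' k : Fr, len k * Real.exp (-len k ^ 2 / 2), fun z θ hz hθ hz1 x => ?_⟩
  have hza : Summable fun k => ‖z k‖ := by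
    refine hz.of_nonneg_of_le (fun k => norm_nonneg _) fun k => ?_
    have h1 : 1 ≤ (1 + len k) ^ 3 := one_le_pow₀ (by have := len_nonneg k; linarith)
    have := norm_nonneg (z k)
    nlinarith
  have hzb : Summable fun k => len k * ‖z k‖ := by
    refine hz.of_nonneg_of_le (fun k => mul_nonneg (len_nonneg k) (norm_nonneg _)) fun k => ?_
    have h0 := len_nonneg k
    have h1 : len k ≤ (1 + len k) ^ 3 := by nlinarith [mul_nonneg h0 h0, mul_nonneg h0 (mul_nonneg h0 h0)]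
    exact mul_le_mul_of_nonneg_right h1 (norm_nonneg _)
  have h1 := riesz_dir dir1 hza hθ hz1 hzb x
  have h2 := riesz_dir dir2 hza hθ hz1 hzb x
  exact ⟨h1.1, h2.1, h1.2, h2.2, fun s hs =>
    ⟨bound_large dir1 hza hθ hz1 x hs, bound_large dir2 hza hθ hz1 x hs⟩⟩

end H706.JH3

namespace H706

alias riesz_heat := JH3.riesz_heat

end H706
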