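import Pool.Agent.Helper706_SQG.Defs2

/-!
JOB PS (MP_96bed6_an, helper706).  The barrier profile, and the first touching time.

PROOF of `Psi_facts`.  `ramp` is monotone, `C¹`, with derivative `6 c (1-c) ∈ [0, 3/2]`,
`c = max 0 (min 1 t)` (which vanishes for `t ≤ 0` and `t ≥ 1`; check the one-sided derivatives at `0`, `1`),
so it is `3/2`-Lipschitz with values in `[0,1]`. `∇Psi = T₁ (1,0) + T₂ (-1/Z, 0) + T₃ (c,-1) + T₄ (c,1)`
with `T_i ≥ 0` the derivative of the `i`-th ramp times the product of the others, `T_i ≤ 3/2`. `T₁ ≠ 0` implies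
`1 ≤ y₁ ≤ 2`, `T₂ ≠ 0` implies `Z ≤ y₁ ≤ 2Z`, `T₃ ≠ 0` implies `1 ≤ y₂ - c y₁ ≤ 2`, `T₄ ≠ 0` implies
`1 ≤ -y₂ - c y₁ ≤ 2`. So `V·∇Psi ≤ -m T₁ - m T₂/Z - 2m T₃ - 2m T₄` and
`|d1| + |d2| ≤ T₁ + T₂/Z + (1+c)(T₃+T₄)`. (`‖·‖` on `ℝ × ℝ` is the maximum norm.)
PROOF of `first_touch`.  The set of `t ∈ [0,T]` for which some `x ∈ K` has `F t x ≤ 0` is closed
(compactness); if it is nonempty let `t₀` be its minimum; `t₀ > 0`, `F ≥ 0` on `[0,t₀] × K` by continuity,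
and `F t₀ x₀ = 0` for some `x₀ ∈ K`.
-/

set_option autoImplicit false
open Set Filter Topology MeasureTheory
open scoped ComplexConjugate ContDiff

namespace H706.JPS

/-- The derivative of `ramp`. -/
noncomputable def rampD (t : ℝ) : ℝ := 6 * max 0 (min 1 t) * (1 - max 0 (min 1 t))

theorem ramp_of_le {t : ℝ} (ht : t ≤ 0) : ramp t = 0 := by
  have : max 0 (min 1 t) = 0 := by
    rw [max_eq_left]; exact (min_le_right _ _).trans ht
  simp [ramp, this]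

theorem ramp_of_ge {t : ℝ} (ht : 1 ≤ t) : ramp t = 1 := by
  have : max 0 (min 1 t) = 1 := by
    rw [min_eq_left ht]; norm_num
  simp only [ramp, this]; norm_num

theorem ramp_mem (t : ℝ) : 0 ≤ ramp t ∧ ramp t ≤ 1 := by
  have h0 : 0 ≤ max 0 (min 1 t) := le_max_left _ _
  have h1 : max 0 (min 1 t) ≤ 1 := max_le zero_le_one (min_le_left _ _)
  unfold ramp
  generalize max 0 (min 1 t) = c at h0 h1
  constructor
  · have : 0 ≤ 3 - 2 * c := by linarith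
    positivity
  · nlinarith [mul_nonneg (sub_nonneg.2 h1) (sub_nonneg.2 h1), mul_nonneg h0 (sub_nonneg.2 h1),
      mul_nonneg (mul_nonneg h0 (sub_nonneg.2 h1)) (sub_nonneg.2 h1)]

theorem rampD_mem (t : ℝ) : 0 ≤ rampD t ∧ rampD t ≤ 3 / 2 := by
  have h0 : 0 ≤ max 0 (min 1 t) := le_max_left _ _
  have h1 : max 0 (min 1 t) ≤ 1 := max_le zero_le_one (min_le_left _ _)
  unfold rampD
  generalize max 0 (min 1 t) = c at h0 h1
  constructor
  · have : 0 ≤ 1 - c := by linarith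
    positivity
  · nlinarith [sq_nonneg (2 * c - 1)]

theorem rampD_ne {t : ℝ} (ht : rampD t ≠ 0) : 0 < t ∧ t < 1 := by
  constructor
  · by_contra h
    apply ht
    have : max 0 (min 1 t) = 0 := by
      rw [max_eq_left]; exact (min_le_right _ _).trans (not_lt.1 h)
    simp [rampD, this]
  · by_contra h
    apply ht
    have : max 0 (min 1 t) = 1 := by
      rw [min_eq_left (not_lt.1 h)]; norm_num
    simp [rampD, this]

theorem ramp_quad (s t : ℝ) : |ramp s - ramp t - (s - t) * rampD t| ≤ 9 * (s - t) ^ 2 := by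
  set c := max 0 (min 1 t) with hc
  set d := max 0 (min 1 s) with hd
  have hc0 : 0 ≤ c := le_max_left _ _
  have hc1 : c ≤ 1 := max_le zero_le_one (min_le_left _ _)
  have hd0 : 0 ≤ d := le_max_left _ _
  have hd1 : d ≤ 1 := max_le zero_le_one (min_le_left _ _)
  have hdc : |d - c| ≤ |s - t| := by
    have e1 : |max 0 (min 1 s) - max 0 (min 1 t)| ≤ |min 1 s - min 1 t| := by
      have := abs_max_sub_max_le_max 0 (min 1 s) 0 (min 1 t)
      simpa using this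
    have e2 : |min 1 s - min 1 t| ≤ |s - t| := by
      have := abs_min_sub_min_le_max 1 s 1 t
      simpa using this
    exact e1.trans e2
  have hdc2 : (d - c) ^ 2 ≤ (s - t) ^ 2 := sq_le_sq.2 hdc
  have key : ramp s - ramp t - (s - t) * rampD t =
      (d - c) ^ 2 * (3 - 2 * (d + 2 * c)) + (6 * c * (1 - c)) * ((d - c) - (s - t)) := by
    simp only [ramp, rampD, ← hc, ← hd]
    ring
  have h1 : |(d - c) ^ 2 * (3 - 2 * (d + 2 * c))| ≤ 3 * (s - t) ^ 2 := by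
    rw [abs_mul, abs_of_nonneg (sq_nonneg _)]
    have : |3 - 2 * (d + 2 * c)| ≤ 3 := by
      rw [abs_le]; constructor <;> linarith
    nlinarith [sq_nonneg (d - c), mul_le_mul_of_nonneg_left this (sq_nonneg (d - c))]
  have h2 : |(6 * c * (1 - c)) * ((d - c) - (s - t))| ≤ 6 * (s - t) ^ 2 := by
    have hnn : 0 ≤ 6 * c * (1 - c) := by
      have : 0 ≤ 1 - c := by linarith
      positivity
    rw [abs_mul, abs_of_nonneg hnn]
    rcases le_or_gt t 0 with ht | ht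
    · have : c = 0 := by
        rw [hc, max_eq_left]; exact (min_le_right _ _).trans ht
      rw [this]; simp; positivity
    rcases le_or_gt 1 t with ht1 | ht1
    · have : c = 1 := by
        rw [hc, min_eq_left ht1]; norm_num
      rw [this]; simp; positivity
    have hct : c = t := by
      rw [hc, min_eq_right ht1.le, max_eq_right ht.le]
    rcases le_or_gt s 0 with hs | hs
    · have hd' : d = 0 := by
        rw [hd, max_eq_left]; exact (min_le_right _ _).trans hs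
      rw [hct, hd']
      have e1 : (0 - t) - (s - t) = -s := by ring
      rw [e1, abs_neg, abs_of_nonpos hs]
      nlinarith [mul_nonneg (neg_nonneg.2 hs) ht.le, mul_nonneg ht.le (sub_nonneg.2 ht1.le),
        mul_nonneg (mul_nonneg (neg_nonneg.2 hs) ht.le) ht.le, sq_nonneg s, sq_nonneg t]
    rcases le_or_gt 1 s with hs1 | hs1
    · have hd' : d = 1 := by
        rw [hd, min_eq_left hs1]; norm_num
      rw [hct, hd']
      have e1 : (1 - t) - (s - t) = -(s - 1) := by ring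
      rw [e1, abs_neg, abs_of_nonneg (by linarith)]
      nlinarith [mul_nonneg (sub_nonneg.2 hs1) (sub_nonneg.2 ht1.le),
        mul_nonneg (mul_nonneg (sub_nonneg.2 hs1) (sub_nonneg.2 ht1.le)) (sub_nonneg.2 ht1.le),
        sq_nonneg (s - 1), sq_nonneg (1 - t)]
    · have hd' : d = s := by
        rw [hd, min_eq_right hs1.le, max_eq_right hs.le]
      rw [hct, hd']
      simp; positivity
  rw [key]
  calc _ ≤ _ := abs_add_le _ _
    _ ≤ 3 * (s - t) ^ 2 + 6 * (s - t) ^ 2 := add_le_add h1 h2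
    _ = 9 * (s - t) ^ 2 := by ring

theorem hasDerivAt_ramp (t : ℝ) : HasDerivAt ramp (rampD t) t := by
  rw [hasDerivAt_iff_isLittleO]
  have h1 : (fun s => ramp s - ramp t - (s - t) • rampD t) =O[𝓝 t] fun s => ‖s - t‖ ^ 2 := by
    refine Asymptotics.IsBigO.of_bound 9 (Eventually.of_forall fun s => ?_)
    have := ramp_quad s t
    simpa [abs_mul, sq_abs] using this
  exact h1.trans_isLittleO (Asymptotics.isLittleO_pow_sub_sub t one_lt_two)

theorem ramp_lip (s t : ℝ) : |ramp s - ramp t| ≤ 3 / 2 * |s - t| := by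
  have h : LipschitzWith (3 / 2) ramp := by
    refine lipschitzWith_of_nnnorm_deriv_le (fun t => (hasDerivAt_ramp t).differentiableAt)
      fun t => ?_
    rw [(hasDerivAt_ramp t).deriv, ← NNReal.coe_le_coe, coe_nnnorm, Real.norm_eq_abs,
      abs_of_nonneg (rampD_mem t).1]
    have := (rampD_mem t).2
    simpa using this
  have := h.dist_le_mul s t
  rw [Real.dist_eq, Real.dist_eq] at this
  simpa using this

theorem ramp_ne {t : ℝ} (ht : ramp t ≠ 0) : 0 < t := by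
  by_contra h
  exact ht (ramp_of_le (not_lt.1 h))

theorem hasDerivAt_ramp_comp {g : ℝ → ℝ} {g' x : ℝ} (hg : HasDerivAt g g' x) :
    HasDerivAt (fun r => ramp (g r)) (rampD (g x) * g') x :=
  (hasDerivAt_ramp (g x)).comp x hg

/-- The four terms of the gradient of `Psi`. -/
theorem Psi_der (Z c : ℝ) (y : Pt) :
    ∃ T1 T2 T3 T4 : ℝ, (0 ≤ T1 ∧ T1 ≤ 3 / 2) ∧ (0 ≤ T2 ∧ T2 ≤ 3 / 2) ∧ (0 ≤ T3 ∧ T3 ≤ 3 / 2) ∧
      (0 ≤ T4 ∧ T4 ≤ 3 / 2) ∧
      d1 (Psi Z c) y = T1 - T2 / Z + c * T3 + c * T4 ∧ d2 (Psi Z c) y = -T3 + T4 ∧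
      (T1 ≠ 0 → 0 < y.1 - 1 ∧ y.1 - 1 < 1) ∧ (T2 ≠ 0 → 0 < 2 - y.1 / Z ∧ 2 - y.1 / Z < 1) ∧
      (T3 ≠ 0 → 0 < 2 + c * y.1 - y.2 ∧ 2 + c * y.1 - y.2 < 1) ∧
      (T4 ≠ 0 → 0 < 2 + c * y.1 + y.2 ∧ 2 + c * y.1 + y.2 < 1) := by
  have hprod : ∀ a b c d : ℝ, (0 ≤ a ∧ a ≤ 3 / 2) → (0 ≤ b ∧ b ≤ 1) → (0 ≤ c ∧ c ≤ 1) →
      (0 ≤ d ∧ d ≤ 1) → 0 ≤ a * (b * c * d) ∧ a * (b * c * d) ≤ 3 / 2 := by
    intro a b c d ha hb hc hd
    have h1 : 0 ≤ b * c * d := mul_nonneg (mul_nonneg hb.1 hc.1) hd.1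
    have h2 : b * c * d ≤ 1 := mul_le_one₀ (mul_le_one₀ hb.2 hc.1 hc.2) hd.1 hd.2
    exact ⟨mul_nonneg ha.1 h1, by nlinarith [ha.1, ha.2]⟩
  refine ⟨rampD (y.1 - 1) * (ramp (2 - y.1 / Z) * ramp (2 + c * y.1 - y.2) *
      ramp (2 + c * y.1 + y.2)),
    rampD (2 - y.1 / Z) * (ramp (y.1 - 1) * ramp (2 + c * y.1 - y.2) * ramp (2 + c * y.1 + y.2)),
    rampD (2 + c * y.1 - y.2) * (ramp (y.1 - 1) * ramp (2 - y.1 / Z) * ramp (2 + c * y.1 + y.2)),
    rampD (2 + c * y.1 + y.2) * (ramp (y.1 - 1) * ramp (2 - y.1 / Z) * ramp (2 + c * y.1 - y.2)),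
    hprod _ _ _ _ (rampD_mem _) (ramp_mem _) (ramp_mem _) (ramp_mem _),
    hprod _ _ _ _ (rampD_mem _) (ramp_mem _) (ramp_mem _) (ramp_mem _),
    hprod _ _ _ _ (rampD_mem _) (ramp_mem _) (ramp_mem _) (ramp_mem _),
    hprod _ _ _ _ (rampD_mem _) (ramp_mem _) (ramp_mem _) (ramp_mem _), ?_, ?_,
    fun h => rampD_ne (left_ne_zero_of_mul h), fun h => rampD_ne (left_ne_zero_of_mul h),
    fun h => rampD_ne (left_ne_zero_of_mul h), fun h => rampD_ne (left_ne_zero_of_mul h)⟩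
  · have e1 : HasDerivAt (fun r : ℝ => ramp (r - 1)) (rampD (y.1 - 1) * 1) y.1 :=
      hasDerivAt_ramp_comp (g := fun r : ℝ => r - 1) ((hasDerivAt_id y.1).sub_const 1)
    have e2 : HasDerivAt (fun r : ℝ => ramp (2 - r / Z)) (rampD (2 - y.1 / Z) * (-(1 / Z))) y.1 :=
      hasDerivAt_ramp_comp (g := fun r : ℝ => 2 - r / Z)
        (((hasDerivAt_id y.1).div_const Z).const_sub 2)
    have e3 : HasDerivAt (fun r : ℝ => ramp (2 + c * r - y.2))
        (rampD (2 + c * y.1 - y.2) * (c * 1)) y.1 :=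
      hasDerivAt_ramp_comp (g := fun r : ℝ => 2 + c * r - y.2)
        ((((hasDerivAt_id y.1).const_mul c).const_add 2).sub_const y.2)
    have e4 : HasDerivAt (fun r : ℝ => ramp (2 + c * r + y.2))
        (rampD (2 + c * y.1 + y.2) * (c * 1)) y.1 :=
      hasDerivAt_ramp_comp (g := fun r : ℝ => 2 + c * r + y.2)
        ((((hasDerivAt_id y.1).const_mul c).const_add 2).add_const y.2)
    have e := ((e1.mul e2).mul e3).mul e4
    have e' : HasDerivAt (fun r : ℝ => Psi Z c (r, y.2)) _ y.1 := e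
    rw [d1, e'.deriv]
    simp only [Pi.mul_apply]
    ring
  · have e3 : HasDerivAt (fun r : ℝ => ramp (2 + c * y.1 - r))
        (rampD (2 + c * y.1 - y.2) * (-1)) y.2 :=
      hasDerivAt_ramp_comp (g := fun r : ℝ => 2 + c * y.1 - r) ((hasDerivAt_id y.2).const_sub _)
    have e4 : HasDerivAt (fun r : ℝ => ramp (2 + c * y.1 + r))
        (rampD (2 + c * y.1 + y.2) * 1) y.2 :=
      hasDerivAt_ramp_comp (g := fun r : ℝ => 2 + c * y.1 + r) ((hasDerivAt_id y.2).const_add _)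
    have e := (e3.const_mul (ramp (y.1 - 1) * ramp (2 - y.1 / Z))).mul e4
    have e' : HasDerivAt (fun r : ℝ => Psi Z c (y.1, r)) _ y.2 := e
    rw [d2, e'.deriv]
    try simp only [Pi.mul_apply]
    ring

/-- TARGET 1 -/
theorem Psi_facts {Z c : ℝ} (hZ : 4 ≤ Z) (hc : 0 ≤ c) (hc1 : c ≤ 1) :
    Differentiable ℝ (Psi Z c) ∧ (∀ y, 0 ≤ Psi Z c y ∧ Psi Z c y ≤ 1) ∧
    (∀ y, Psi Z c y ≠ 0 → 1 < y.1 ∧ y.1 < 2 * Z ∧ |y.2| < 2 + c * y.1) ∧
    (∀ y : Pt, 2 ≤ y.1 → y.1 ≤ Z → |y.2| ≤ 1 + c * y.1 → Psi Z c y = 1) ∧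
    (∀ y y', |Psi Z c y - Psi Z c y'| ≤ 20 * ‖y - y'‖) ∧
    (∀ y, |d1 (Psi Z c) y| ≤ 20 ∧ |d2 (Psi Z c) y| ≤ 20) ∧
    ∀ (y : Pt) (m V1 V2 : ℝ), 0 ≤ m → (1 ≤ y.1 → y.1 ≤ 2 → V1 ≤ -m) →
      (Z ≤ y.1 → y.1 ≤ 2 * Z → m ≤ V1) →
      (1 ≤ y.2 - c * y.1 → y.2 - c * y.1 ≤ 2 → c * V1 - V2 ≤ -(2 * m)) →
      (1 ≤ -y.2 - c * y.1 → -y.2 - c * y.1 ≤ 2 → c * V1 + V2 ≤ -(2 * m)) →
      V1 * d1 (Psi Z c) y + V2 * d2 (Psi Z c) y ≤ -m * (|d1 (Psi Z c) y| + |d2 (Psi Z c) y|) := by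
  have hZ0 : (0:ℝ) < Z := by linarith
  refine ⟨?_, ?_, ?_, ?_, ?_, ?_, ?_⟩
  · have hr : Differentiable ℝ ramp := fun t => (hasDerivAt_ramp t).differentiableAt
    unfold Psi
    have e1 : Differentiable ℝ fun y : Pt => ramp (y.1 - 1) :=
      hr.comp (by fun_prop : Differentiable ℝ fun y : Pt => y.1 - 1)
    have e2 : Differentiable ℝ fun y : Pt => ramp (2 - y.1 / Z) :=
      hr.comp (by fun_prop : Differentiable ℝ fun y : Pt => 2 - y.1 / Z)
    have e3 : Differentiable ℝ fun y : Pt => ramp (2 + c * y.1 - y.2) :=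
      hr.comp (by fun_prop : Differentiable ℝ fun y : Pt => 2 + c * y.1 - y.2)
    have e4 : Differentiable ℝ fun y : Pt => ramp (2 + c * y.1 + y.2) :=
      hr.comp (by fun_prop : Differentiable ℝ fun y : Pt => 2 + c * y.1 + y.2)
    exact ((e1.mul e2).mul e3).mul e4
  · intro y
    have h1 := ramp_mem (y.1 - 1)
    have h2 := ramp_mem (2 - y.1 / Z)
    have h3 := ramp_mem (2 + c * y.1 - y.2)
    have h4 := ramp_mem (2 + c * y.1 + y.2)
    exact ⟨mul_nonneg (mul_nonneg (mul_nonneg h1.1 h2.1) h3.1) h4.1,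
      mul_le_one₀ (mul_le_one₀ (mul_le_one₀ h1.2 h2.1 h2.2) h3.1 h3.2) h4.1 h4.2⟩
  · intro y hy
    have h4 := ramp_ne (right_ne_zero_of_mul hy)
    have hy' := left_ne_zero_of_mul hy
    have h3 := ramp_ne (right_ne_zero_of_mul hy')
    have hy'' := left_ne_zero_of_mul hy'
    have h2 := ramp_ne (right_ne_zero_of_mul hy'')
    have h1 := ramp_ne (left_ne_zero_of_mul hy'')
    refine ⟨by linarith, ?_, ?_⟩
    · have : y.1 / Z < 2 := by linarith
      rwa [div_lt_iff₀ hZ0] at this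
    · rw [abs_lt]; constructor <;> linarith
  · intro y h1 h2 h3
    rw [abs_le] at h3
    have e1 : ramp (y.1 - 1) = 1 := ramp_of_ge (by linarith)
    have e2 : ramp (2 - y.1 / Z) = 1 := ramp_of_ge (by
      have : y.1 / Z ≤ 1 := (div_le_one hZ0).2 h2
      linarith)
    have e3 : ramp (2 + c * y.1 - y.2) = 1 := ramp_of_ge (by linarith [h3.2])
    have e4 : ramp (2 + c * y.1 + y.2) = 1 := ramp_of_ge (by linarith [h3.1])
    simp only [Psi, e1, e2, e3, e4]; norm_num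
  · intro y y'
    have n1 : |y.1 - y'.1| ≤ ‖y - y'‖ := by
      simpa using norm_fst_le (y - y')
    have n2 : |y.2 - y'.2| ≤ ‖y - y'‖ := by
      simpa using norm_snd_le (y - y')
    have n0 : 0 ≤ ‖y - y'‖ := norm_nonneg _
    have l1 : |ramp (y.1 - 1) - ramp (y'.1 - 1)| ≤ 3 / 2 * ‖y - y'‖ := by
      refine (ramp_lip _ _).trans ?_
      have : y.1 - 1 - (y'.1 - 1) = y.1 - y'.1 := by ring
      rw [this]; linarith
    have l2 : |ramp (2 - y.1 / Z) - ramp (2 - y'.1 / Z)| ≤ 3 / 2 * ‖y - y'‖ := by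
      refine (ramp_lip _ _).trans ?_
      have : 2 - y.1 / Z - (2 - y'.1 / Z) = -((y.1 - y'.1) / Z) := by ring
      rw [this, abs_neg, abs_div, abs_of_pos hZ0]
      have : |y.1 - y'.1| / Z ≤ |y.1 - y'.1| := div_le_self (abs_nonneg _) (by linarith)
      linarith
    have hcm : |c * (y.1 - y'.1)| ≤ ‖y - y'‖ := by
      rw [abs_mul, abs_of_nonneg hc]
      nlinarith [abs_nonneg (y.1 - y'.1)]
    have l3 : |ramp (2 + c * y.1 - y.2) - ramp (2 + c * y'.1 - y'.2)| ≤ 3 * ‖y - y'‖ := by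
      refine (ramp_lip _ _).trans ?_
      have : 2 + c * y.1 - y.2 - (2 + c * y'.1 - y'.2) = c * (y.1 - y'.1) - (y.2 - y'.2) := by ring
      rw [this]
      have := abs_sub (c * (y.1 - y'.1)) (y.2 - y'.2)
      linarith
    have l4 : |ramp (2 + c * y.1 + y.2) - ramp (2 + c * y'.1 + y'.2)| ≤ 3 * ‖y - y'‖ := by
      refine (ramp_lip _ _).trans ?_
      have : 2 + c * y.1 + y.2 - (2 + c * y'.1 + y'.2) = c * (y.1 - y'.1) + (y.2 - y'.2) := by ring
      rw [this]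
      have := abs_add_le (c * (y.1 - y'.1)) (y.2 - y'.2)
      linarith
    have hmul : ∀ a b a' b' A B : ℝ, (0 ≤ a ∧ a ≤ 1) → (0 ≤ b' ∧ b' ≤ 1) → |a - a'| ≤ A →
        |b - b'| ≤ B → |a * b - a' * b'| ≤ A + B := by
      intro a b a' b' A B ha hb' hA hB
      have e : a * b - a' * b' = a * (b - b') + b' * (a - a') := by ring
      rw [e]
      refine (abs_add_le _ _).trans ?_
      rw [abs_mul, abs_mul, abs_of_nonneg ha.1, abs_of_nonneg hb'.1]
      nlinarith [abs_nonneg (a - a'), abs_nonneg (b - b'), ha.1, ha.2, hb'.1, hb'.2]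
    have p2 : ∀ a b : ℝ, (0 ≤ a ∧ a ≤ 1) → (0 ≤ b ∧ b ≤ 1) → (0 ≤ a * b ∧ a * b ≤ 1) :=
      fun a b ha hb => ⟨mul_nonneg ha.1 hb.1, mul_le_one₀ ha.2 hb.1 hb.2⟩
    have r12 := hmul _ _ _ _ _ _ (ramp_mem (y.1 - 1)) (ramp_mem (2 - y'.1 / Z)) l1 l2
    have r123 := hmul _ _ _ _ _ _ (p2 _ _ (ramp_mem (y.1 - 1)) (ramp_mem (2 - y.1 / Z)))
      (ramp_mem (2 + c * y'.1 - y'.2)) r12 l3
    have r := hmul _ _ _ _ _ _ (p2 _ _ (p2 _ _ (ramp_mem (y.1 - 1)) (ramp_mem (2 - y.1 / Z)))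
      (ramp_mem (2 + c * y.1 - y.2))) (ramp_mem (2 + c * y'.1 + y'.2)) r123 l4
    simp only [Psi]
    refine r.trans ?_
    linarith
  · intro y
    obtain ⟨T1, T2, T3, T4, t1, t2, t3, t4, e1, e2, -, -, -, -⟩ := Psi_der Z c y
    have hz : 0 ≤ T2 / Z := div_nonneg t2.1 hZ0.le
    have hz' : T2 / Z ≤ T2 := div_le_self t2.1 (by linarith)
    have c3 : 0 ≤ c * T3 := mul_nonneg hc t3.1
    have c3' : c * T3 ≤ T3 := mul_le_of_le_one_left t3.1 hc1
    have c4 : 0 ≤ c * T4 := mul_nonneg hc t4.1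
    have c4' : c * T4 ≤ T4 := mul_le_of_le_one_left t4.1 hc1
    rw [e1, e2]
    constructor
    · rw [abs_le]; constructor <;> linarith [t1.1, t1.2, t2.1, t2.2, t3.1, t3.2, t4.1, t4.2]
    · rw [abs_le]; constructor <;> linarith [t1.1, t1.2, t2.1, t2.2, t3.1, t3.2, t4.1, t4.2]
  · intro y m V1 V2 hm g1 g2 g3 g4
    obtain ⟨T1, T2, T3, T4, t1, t2, t3, t4, e1, e2, n1, n2, n3, n4⟩ := Psi_der Z c y
    have hz : 0 ≤ T2 / Z := div_nonneg t2.1 hZ0.le
    have c3 : 0 ≤ c * T3 := mul_nonneg hc t3.1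
    have c3' : c * T3 ≤ T3 := mul_le_of_le_one_left t3.1 hc1
    have c4 : 0 ≤ c * T4 := mul_nonneg hc t4.1
    have c4' : c * T4 ≤ T4 := mul_le_of_le_one_left t4.1 hc1
    have k1 : T1 * V1 ≤ -m * T1 := by
      rcases eq_or_ne T1 0 with h | h
      · simp [h]
      · have := n1 h
        have := g1 (by linarith [this.1]) (by linarith [this.2])
        nlinarith [t1.1]
    have k2 : -(T2 / Z * V1) ≤ -m * (T2 / Z) := by
      rcases eq_or_ne T2 0 with h | h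
      · simp [h]
      · have h2 := n2 h
        have i1 : y.1 / Z < 2 := by linarith [h2.1]
        have i2 : 1 < y.1 / Z := by linarith [h2.2]
        rw [div_lt_iff₀ hZ0] at i1
        rw [lt_div_iff₀ hZ0] at i2
        have := g2 (by linarith) (by linarith)
        nlinarith [hz]
    have k3 : T3 * (c * V1 - V2) ≤ -(2 * m) * T3 := by
      rcases eq_or_ne T3 0 with h | h
      · simp [h]
      · have := n3 h
        have := g3 (by linarith [this.2]) (by linarith [this.1])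
        nlinarith [t3.1]
    have k4 : T4 * (c * V1 + V2) ≤ -(2 * m) * T4 := by
      rcases eq_or_ne T4 0 with h | h
      · simp [h]
      · have := n4 h
        have := g4 (by linarith [this.2]) (by linarith [this.1])
        nlinarith [t4.1]
    have a1 : |d1 (Psi Z c) y| ≤ T1 + T2 / Z + c * T3 + c * T4 := by
      rw [e1, abs_le]; constructor <;> linarith [t1.1, t1.2]
    have a2 : |d2 (Psi Z c) y| ≤ T3 + T4 := by
      rw [e2, abs_le]; constructor <;> linarith [t3.1, t4.1]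
    have a3 : |d1 (Psi Z c) y| + |d2 (Psi Z c) y| ≤ T1 + T2 / Z + 2 * T3 + 2 * T4 := by linarith
    have a4 : m * (|d1 (Psi Z c) y| + |d2 (Psi Z c) y|) ≤ m * (T1 + T2 / Z + 2 * T3 + 2 * T4) :=
      mul_le_mul_of_nonneg_left a3 hm
    have a5 : V1 * d1 (Psi Z c) y + V2 * d2 (Psi Z c) y = T1 * V1 + -(T2 / Z * V1) +
        T3 * (c * V1 - V2) + T4 * (c * V1 + V2) := by
      rw [e1, e2]; ring
    rw [a5]
    nlinarith [k1, k2, k3, k4, a4]

/-- TARGET 2 -/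
theorem first_touch {K : Set Pt} (hK : IsCompact K) {T : ℝ} {F : ℝ → Pt → ℝ}
    (hc : ContinuousOn (fun p : ℝ × Pt => F p.1 p.2) (Icc 0 T ×ˢ K)) (h0 : ∀ x ∈ K, 0 < F 0 x)
    (hstep : ∀ t ∈ Ioc 0 T, ∀ x ∈ K, F t x = 0 → (∀ τ ∈ Icc 0 t, ∀ y ∈ K, 0 ≤ F τ y) → False) :
    ∀ t ∈ Icc 0 T, ∀ x ∈ K, 0 < F t x := by
  intro t ht x hx
  by_contra hneg
  push Not at hneg
  have hcomp : IsCompact (Icc 0 T ×ˢ K) := isCompact_Icc.prod hK
  have hclosed : IsClosed ((Icc 0 T ×ˢ K) ∩ (fun p : ℝ × Pt => F p.1 p.2) ⁻¹' Iic 0) :=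
    hc.preimage_isClosed_of_isClosed hcomp.isClosed isClosed_Iic
  have hS : IsCompact ((Icc 0 T ×ˢ K) ∩ (fun p : ℝ × Pt => F p.1 p.2) ⁻¹' Iic 0) :=
    hcomp.of_isClosed_subset hclosed inter_subset_left
  obtain ⟨p, hpS, hmin⟩ := hS.exists_isMinOn (f := fun p : ℝ × Pt => p.1)
    ⟨(t, x), ⟨⟨ht, hx⟩, hneg⟩⟩ continuous_fst.continuousOn
  obtain ⟨t₀, x₀⟩ := p
  obtain ⟨⟨ht₀, hx₀⟩, hle⟩ := hpS
  simp only [mem_preimage, mem_Iic] at hle ht₀ hx₀
  have hpos : ∀ τ, 0 ≤ τ → τ < t₀ → ∀ y ∈ K, 0 < F τ y := by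
    intro τ hτ hτt y hy
    by_contra h
    have h' : F τ y ≤ 0 := not_lt.1 h
    have := hmin (⟨⟨⟨hτ, hτt.le.trans ht₀.2⟩, hy⟩, h'⟩ :
      (τ, y) ∈ (Icc 0 T ×ˢ K) ∩ (fun p : ℝ × Pt => F p.1 p.2) ⁻¹' Iic 0)
    have h2 : t₀ ≤ τ := this
    linarith
  have ht0 : 0 < t₀ := by
    rcases ht₀.1.lt_or_eq with h | h
    · exact h
    · rw [← h] at hle
      exact absurd (h0 x₀ hx₀) (not_lt.2 hle)
  have hnn : ∀ y ∈ K, 0 ≤ F t₀ y := by
    intro y hy
    have hcy : ContinuousOn (fun τ => F τ y) (Icc 0 T) :=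
      hc.comp (f := fun τ : ℝ => (τ, y)) (by fun_prop) fun τ hτ => ⟨hτ, hy⟩
    have hct : ContinuousWithinAt (fun τ => F τ y) (Ico 0 t₀) t₀ :=
      (hcy t₀ ht₀).mono fun τ hτ => ⟨hτ.1, hτ.2.le.trans ht₀.2⟩
    have hne : (𝓝[Ico 0 t₀] t₀).NeBot := by
      rw [← mem_closure_iff_nhdsWithin_neBot, closure_Ico ht0.ne]
      exact ⟨ht0.le, le_rfl⟩
    refine ge_of_tendsto hct ?_
    filter_upwards [self_mem_nhdsWithin] with τ hτ
    exact (hpos τ hτ.1 hτ.2 y hy).le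
  refine hstep t₀ ⟨ht0, ht₀.2⟩ x₀ hx₀ (le_antisymm hle (hnn x₀ hx₀)) fun τ hτ y hy => ?_
  rcases hτ.2.lt_or_eq with h | h
  · exact (hpos τ hτ.1 h y hy).le
  · rw [h]; exact hnn y hy

end H706.JPS

namespace H706

alias Psi_facts := JPS.Psi_facts
alias first_touch := JPS.first_touch

end H706
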