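import Pool.Agent.Helper706_SQG.Defs2

/-!
JOB RF (MP_96bed6_an, helper706).  Reflection symmetry.

PROOF.  Write `x~ = (-x₁, x₂)`, `f~ x = - f x~`. `fc f~ (k₁,k₂) = - fc f (-k₁,k₂)` (change of variables in
the integral over `Qb`; the set `Qb` and its reflection differ by a null set). Reindexing the series by
`(k₁,k₂) ↦ (-k₁,k₂)`: `riesz1 f~ x = riesz1 f x~`, `riesz2 f~ x = - riesz2 f x~`,
`fracLap s f~ x = - fracLap s f x~`. `ip (E n) f~ = ip (E n) f` because `E n` is odd in `x₁`, so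
`opA w E f~ = opA w E f =: g`, and `g x~ = - g x`. Hence `d2 g x = - d2 g x~`, `d1 g x = d1 g x~`,
`vel1 f~ x = - vel1 f x~`, `vel2 f~ x = vel2 f x~`, `d1 f~ x = d1 f x~`, `d2 f~ x = - d2 f x~`. The
equation follows. Smoothness, periodicity, continuity of the iterated derivatives of `f~`: composition
with the linear map `x ↦ x~` (a linear isometry equivalence, `iteratedFDeriv` composed with linear
isometry equivalences: `LinearIsometryEquiv.norm_iteratedFDeriv_comp_right`,
`ContinuousLinearEquiv.iteratedFDeriv_comp_right`).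
-/

set_option autoImplicit false
open Set Filter Topology MeasureTheory
open scoped ComplexConjugate ContDiff

namespace H706.JRF

/-! ### auxiliary results -/

/-- the reflection of points -/
def rho (x : Pt) : Pt := (-x.1, x.2)

/-- the reflection of frequencies -/
def rk (k : Fr) : Fr := (-k.1, k.2)

theorem rk_rk (k : Fr) : rk (rk k) = k := by simp [rk]

def rkE : Fr ≃ Fr := ⟨rk, rk, rk_rk, rk_rk⟩

theorem rho_rho (x : Pt) : rho (rho x) = x := by simp [rho]

theorem len_rk (k : Fr) : len (rk k) = len k := by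
  simp [len, rk]

theorem ex_rk (k : Fr) (x : Pt) : ex (rk k) x = ex k (rho x) := by
  unfold ex rk rho
  congr 3
  push_cast
  ring

theorem ex_neg_rk (k : Fr) (x : Pt) : ex (-k) x = ex (-(rk k)) (rho x) := by
  unfold ex rk rho
  congr 3
  simp only [Prod.fst_neg, Prod.snd_neg]
  push_cast
  ring

theorem mp_rho : MeasurePreserving rho (volume : Measure Pt) volume := by
  have h1 : MeasurePreserving (fun x : ℝ => -x) volume volume :=
    Measure.measurePreserving_neg volume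
  exact h1.prod (MeasurePreserving.id volume)

theorem me_rho : MeasurableEmbedding rho := by
  let e : Pt ≃ᵐ Pt := ⟨⟨rho, rho, rho_rho, rho_rho⟩, mp_rho.measurable, mp_rho.measurable⟩
  exact e.measurableEmbedding

theorem Qb_rho : (rho ⁻¹' Qb : Set Pt) =ᵐ[volume] Qb := by
  have h1 : (rho ⁻¹' Qb : Set Pt) = Ico (-Real.pi) Real.pi ×ˢ Ioc (-Real.pi) Real.pi := by
    ext x
    simp only [mem_preimage, Qb, rho, mem_prod, mem_Ioc, mem_Ico]
    constructor
    · rintro ⟨⟨a, b⟩, c⟩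
      exact ⟨⟨by linarith, by linarith⟩, c⟩
    · rintro ⟨⟨a, b⟩, c⟩
      exact ⟨⟨by linarith, by linarith⟩, c⟩
  rw [h1]
  exact Measure.set_prod_ae_eq Ico_ae_eq_Ioc (ae_eq_refl _)

theorem int_rho {F : Type} [NormedAddCommGroup F] [NormedSpace ℝ F] (f : Pt → F) :
    ∫ x in Qb, f (rho x) = ∫ x in Qb, f x := by
  rw [← mp_rho.setIntegral_preimage_emb me_rho f Qb]
  exact (setIntegral_congr_set Qb_rho).symm

theorem fc_refl (f : Pt → ℝ) (k : Fr) : fc (fun x => -f (-x.1, x.2)) k = -fc f (rk k) := by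
  unfold fc
  rw [← mul_neg]
  congr 1
  rw [← int_rho (fun x => ((f x : ℝ) : ℂ) * ex (-(rk k)) x), ← integral_neg]
  congr 1
  funext x
  rw [← ex_neg_rk]
  simp [rho]

theorem mult_refl (m m' : Fr → ℂ) (f : Pt → ℝ) (hm : ∀ k, m (rk k) = -m' k) (x : Pt) :
    mult m (fun x => -f (-x.1, x.2)) x = mult m' f (rho x) := by
  unfold mult
  congr 1
  rw [← rkE.tsum_eq]
  congr 1
  funext k
  change m (rk k) * fc (fun x => -f (-x.1, x.2)) (rk k) * ex (rk k) x = _
  rw [hm, fc_refl, rk_rk, ex_rk]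
  ring

theorem riesz1_refl (f : Pt → ℝ) (x : Pt) :
    riesz1 (fun x => -f (-x.1, x.2)) x = riesz1 f (rho x) := by
  apply mult_refl
  intro k
  rw [len_rk]
  simp only [rk]
  push_cast
  ring

theorem mult_neg (m : Fr → ℂ) (f : Pt → ℝ) (x : Pt) :
    mult (fun k => -m k) f x = -mult m f x := by
  unfold mult
  rw [← Complex.neg_re, ← tsum_neg]
  congr 2
  funext k
  ring

theorem riesz2_refl (f : Pt → ℝ) (x : Pt) :
    riesz2 (fun x => -f (-x.1, x.2)) x = -riesz2 f (rho x) := by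
  unfold riesz2
  rw [← mult_neg]
  apply mult_refl
  intro k
  rw [len_rk]
  simp only [rk]
  ring

theorem fracLap_refl (s : ℝ) (f : Pt → ℝ) (x : Pt) :
    fracLap s (fun x => -f (-x.1, x.2)) x = -fracLap s f (rho x) := by
  unfold fracLap
  rw [← mult_neg]
  apply mult_refl
  intro k
  rw [len_rk, neg_neg]

theorem ip_refl (e f : Pt → ℝ) (he : ∀ x : Pt, e (-x.1, x.2) = -e x) :
    ip e (fun x => -f (-x.1, x.2)) = ip e f := by
  unfold ip
  rw [← int_rho (fun x => e x * f x)]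
  congr 1
  funext x
  change e x * -f (-x.1, x.2) = e (-x.1, x.2) * f (-x.1, x.2)
  rw [he]
  ring

theorem opA_refl {w : ℕ → ℝ} {E : ℕ → Pt → ℝ} (hodd : ∀ n x, E n (-x.1, x.2) = -E n x)
    (f : Pt → ℝ) : opA w E (fun x => -f (-x.1, x.2)) = opA w E f := by
  funext x
  unfold opA
  congr 1
  funext n
  rw [ip_refl _ _ (hodd n)]

theorem opA_odd {w : ℕ → ℝ} {E : ℕ → Pt → ℝ} (hodd : ∀ n x, E n (-x.1, x.2) = -E n x)
    (f : Pt → ℝ) (x : Pt) : opA w E f (-x.1, x.2) = -opA w E f x := by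
  unfold opA
  rw [← tsum_neg]
  congr 1
  funext n
  rw [hodd]
  ring

theorem d2_odd {g : Pt → ℝ} (hg : ∀ x : Pt, g (-x.1, x.2) = -g x) (x : Pt) :
    d2 g x = -d2 g (rho x) := by
  unfold d2 rho
  have : (fun r => g (-x.1, r)) = fun r => -g (x.1, r) := by
    funext r
    exact hg (x.1, r)
  simp only
  rw [this, deriv.fun_neg, neg_neg]

theorem d1_odd {g : Pt → ℝ} (hg : ∀ x : Pt, g (-x.1, x.2) = -g x) (x : Pt) :
    d1 g x = d1 g (rho x) := by
  unfold d1 rho
  have : (fun r => g (r, x.2)) = fun r => -(fun s => g (s, x.2)) (-r) := by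
    funext r
    have := hg (r, x.2)
    simp only at this ⊢
    rw [this, neg_neg]
  simp only
  conv_lhs => rw [this]
  rw [deriv.fun_neg, deriv_comp_neg (fun s => g (s, x.2)), neg_neg]

theorem d1_refl (f : Pt → ℝ) (x : Pt) : d1 (fun x => -f (-x.1, x.2)) x = d1 f (rho x) := by
  unfold d1 rho
  simp only
  have : (fun r => -f (-r, x.2)) = fun r => -(fun s => f (s, x.2)) (-r) := rfl
  rw [this, deriv.fun_neg, deriv_comp_neg (fun s => f (s, x.2)), neg_neg]

theorem d2_refl (f : Pt → ℝ) (x : Pt) : d2 (fun x => -f (-x.1, x.2)) x = -d2 f (rho x) := by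
  unfold d2 rho
  simp only
  rw [deriv.fun_neg]

theorem vel1_refl {lam : ℝ} {w : ℕ → ℝ} {E : ℕ → Pt → ℝ}
    (hodd : ∀ n x, E n (-x.1, x.2) = -E n x) (f : Pt → ℝ) (x : Pt) :
    vel1 lam w E (fun x => -f (-x.1, x.2)) x = -vel1 lam w E f (rho x) := by
  unfold vel1
  rw [opA_refl hodd, riesz2_refl, d2_odd (opA_odd hodd f)]
  ring

theorem vel2_refl {lam : ℝ} {w : ℕ → ℝ} {E : ℕ → Pt → ℝ}
    (hodd : ∀ n x, E n (-x.1, x.2) = -E n x) (f : Pt → ℝ) (x : Pt) :
    vel2 lam w E (fun x => -f (-x.1, x.2)) x = vel2 lam w E f (rho x) := by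
  unfold vel2
  rw [opA_refl hodd, riesz1_refl, d1_odd (opA_odd hodd f)]

/-- the reflection as a continuous linear map -/
noncomputable def rhoL : Pt →L[ℝ] Pt :=
  (-ContinuousLinearMap.fst ℝ ℝ ℝ).prod (ContinuousLinearMap.snd ℝ ℝ ℝ)

theorem rhoL_apply (x : Pt) : rhoL x = rho x := rfl

/-- TARGET -/
theorem refl_isSol {lam α κ T : ℝ} {w : ℕ → ℝ} {E : ℕ → Pt → ℝ}
    (hodd : ∀ n x, E n (-x.1, x.2) = -E n x) {θ₀ : Pt → ℝ} {θ : ℝ → Pt → ℝ}
    (h : IsSol lam α κ w E θ₀ T θ) :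
    IsSol lam α κ w E (fun x => -θ₀ (-x.1, x.2)) T (fun t x => -θ t (-x.1, x.2)) := by
  refine ⟨?_, ?_, ?_, ?_, ?_⟩
  · funext x
    simp only [h.init]
  · intro t ht
    exact ((h.smooth t ht).comp rhoL.contDiff).neg
  · intro t ht x
    refine ⟨?_, ?_⟩
    · have h1 := (h.per t ht (-(x.1 + 2 * Real.pi), x.2)).1
      simp only at h1 ⊢
      rw [← h1]
      congr 3
      ring
    · have h1 := (h.per t ht (-x.1, x.2)).2
      simp only at h1 ⊢
      rw [h1]
  · intro j
    have e : ∀ p ∈ Ico 0 T ×ˢ (univ : Set Pt),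
        iteratedFDeriv ℝ j (fun x : Pt => -θ p.1 (-x.1, x.2)) p.2 =
        -((ContinuousMultilinearMap.compContinuousLinearMapL (𝕜 := ℝ) (F := ℝ)
          (fun _ : Fin j => rhoL)) (iteratedFDeriv ℝ j (θ p.1) (rho p.2))) := by
      intro p hp
      have h1 : (fun x : Pt => -θ p.1 (-x.1, x.2)) = -(θ p.1 ∘ rhoL) := rfl
      rw [h1, iteratedFDeriv_neg_apply,
        rhoL.iteratedFDeriv_comp_right (h.smooth p.1 hp.1) p.2 (i := j) (by exact_mod_cast le_top)]
      rfl
    refine ContinuousOn.congr ?_ e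
    refine ContinuousOn.neg ?_
    refine (ContinuousLinearMap.continuous _).comp_continuousOn ?_
    have h2 : ContinuousOn (fun p : ℝ × Pt => (p.1, rho p.2)) (Ico 0 T ×ˢ univ) := by
      apply Continuous.continuousOn
      exact continuous_fst.prodMk (rhoL.continuous.comp continuous_snd)
    exact (h.cont j).comp h2 (fun p hp => ⟨hp.1, mem_univ _⟩)
  · intro t ht x
    have h1 := (h.eqn t ht (rho x)).neg
    have e : -(-(vel1 lam w E (θ t) (rho x) * d1 (θ t) (rho x) +
        vel2 lam w E (θ t) (rho x) * d2 (θ t) (rho x)) - κ * fracLap (2 * α) (θ t) (rho x)) =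
        -(vel1 lam w E (fun x => -θ t (-x.1, x.2)) x * d1 (fun x => -θ t (-x.1, x.2)) x +
          vel2 lam w E (fun x => -θ t (-x.1, x.2)) x * d2 (fun x => -θ t (-x.1, x.2)) x) -
          κ * fracLap (2 * α) (fun x => -θ t (-x.1, x.2)) x := by
      rw [vel1_refl hodd, vel2_refl hodd, d1_refl, d2_refl, fracLap_refl]
      ring
    rw [e] at h1
    exact h1

end H706.JRF

namespace H706

alias refl_isSol := JRF.refl_isSol

end H706
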