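import Pool.Agent.Helper706_SQG.Defs2
import Pool.Agent.Helper706_SQG.FB
import Pool.Agent.Helper706_SQG.H4
import Pool.Agent.Helper706_SQG.RF
import Pool.Agent.Helper706_SQG.PS

/-!
JOB MP (MP_96bed6_an, helper706).  Maximum principle.

PROOF.  Lower bound: fix `η > 0` and `T' < T`; `F t x = θ t x + 1 + η (1 + t)` is positive at `t = 0`. Apply
`first_touch` on `[0,T']` with `K = [-π,π]²`: if `F t x = 0`, `t > 0`, `x ∈ K`, and `F ≥ 0` on `[0,t] × K`, then by
periodicity `x` is a global minimum of `θ t`, so `d1 (θ t) x = d2 (θ t) x = 0` and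
`fracLap (2α) (θ t) x ≤ 0` (`fracLap_min` with `z = fc (θ t)`, `IsF_fc`, `RD_summable`); so by `eqn` the
time derivative of `θ · x` at `t` is `≥ 0` (`κ > 0`), and that of `F` is `≥ η > 0`; but `F τ x ≥ 0 = F t x` for
`τ < t` gives derivative `≤ 0`. Contradiction. So `θ ≥ -1 - η(1+t)`, `η → 0`. Upper bound: the same for the
reflected solution (`refl_isSol`), `-θ t (-x₁,x₂) ≥ -1`.
Joint continuity of `θ` on `[0,T) × ℝ²`: `cont 0` (`iteratedFDeriv ℝ 0 f x` applied to the empty family is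
`f x`).
-/

set_option autoImplicit false
open Set Filter Topology MeasureTheory
open scoped ComplexConjugate ContDiff

namespace H706.JMP

theorem isSol_continuousOn {lam α κ T : ℝ} {w : ℕ → ℝ} {E : ℕ → Pt → ℝ} {θ₀ : Pt → ℝ}
    {θ : ℝ → Pt → ℝ} (h : IsSol lam α κ w E θ₀ T θ) :
    ContinuousOn (fun p : ℝ × Pt => θ p.1 p.2) (Ico 0 T ×ˢ univ) := by
  have h0 := h.cont 0
  have h1 : ContinuousOn (fun p : ℝ × Pt => (iteratedFDeriv ℝ 0 (θ p.1) p.2) (fun _ => (0 : Pt)))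
      (Ico 0 T ×ˢ univ) :=
    (ContinuousMultilinearMap.apply ℝ (fun _ : Fin 0 => Pt) ℝ
      (fun _ => (0 : Pt))).continuous.comp_continuousOn h0
  refine h1.congr ?_
  intro p _
  simp [iteratedFDeriv_zero_apply]

theorem per_exists {f : Pt → ℝ} (hf : Per f) (x : Pt) :
    ∃ y ∈ Icc (-Real.pi) Real.pi ×ˢ Icc (-Real.pi) Real.pi, f x = f y := by
  have hpi := Real.pi_pos
  have hp1 : Function.Periodic (fun r => f (r, x.2)) (2 * Real.pi) := fun r => (hf (r, x.2)).1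
  obtain ⟨a, ha, hfa⟩ := hp1.exists_mem_Ico (by positivity) x.1 (-Real.pi)
  have hp2 : Function.Periodic (fun r => f (a, r)) (2 * Real.pi) := fun r => (hf (a, r)).2
  obtain ⟨b, hb, hfb⟩ := hp2.exists_mem_Ico (by positivity) x.2 (-Real.pi)
  refine ⟨(a, b), ⟨⟨ha.1, by have := ha.2; simp only at this ⊢; linarith⟩,
    ⟨hb.1, by have := hb.2; simp only at this ⊢; linarith⟩⟩, ?_⟩
  calc f x = f (x.1, x.2) := rfl
    _ = f (a, x.2) := hfa
    _ = f (a, b) := hfb

theorem max_lower {lam α κ T : ℝ} (hα : 0 < α) (hα1 : α < 1) (hκ : 0 < κ) {w : ℕ → ℝ}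
    {E : ℕ → Pt → ℝ} {θ₀ : Pt → ℝ} (hθ₀ : ∀ x, -1 ≤ θ₀ x)
    {θ : ℝ → Pt → ℝ} (h : IsSol lam α κ w E θ₀ T θ) : ∀ t ∈ Ico 0 T, ∀ x, -1 ≤ θ t x := by
  intro t ht x
  have hT : 0 < T := lt_of_le_of_lt ht.1 ht.2
  suffices hs : ∀ η : ℝ, 0 < η → -1 - η * (1 + t) ≤ θ t x by
    by_contra hcon
    push Not at hcon
    have h1t : (0 : ℝ) < 1 + t := by linarith [ht.1]
    have := hs ((-1 - θ t x) / (2 * (1 + t))) (by
      apply div_pos <;> linarith)
    have h2 : (-1 - θ t x) / (2 * (1 + t)) * (1 + t) = (-1 - θ t x) / 2 := by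
      field_simp
    rw [h2] at this
    linarith
  intro η hη
  set K : Set Pt := Icc (-Real.pi) Real.pi ×ˢ Icc (-Real.pi) Real.pi with hKdef
  have hK : IsCompact K := isCompact_Icc.prod isCompact_Icc
  have key := first_touch (K := K) hK (T := t) (F := fun τ y => θ τ y + 1 + η * (1 + τ)) ?_ ?_ ?_
  · obtain ⟨y, hy, hxy⟩ := per_exists (h.per t ht) x
    have := key t ⟨ht.1, le_refl _⟩ y hy
    rw [hxy]
    linarith
  · -- continuity
    have hc := isSol_continuousOn h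
    have hc' : ContinuousOn (fun p : ℝ × Pt => θ p.1 p.2) (Icc 0 t ×ˢ K) := by
      refine hc.mono ?_
      rintro ⟨p, q⟩ ⟨hp, _⟩
      exact ⟨⟨hp.1, lt_of_le_of_lt hp.2 ht.2⟩, mem_univ _⟩
    refine (hc'.add continuousOn_const).add ?_
    fun_prop
  · intro y _
    have := hθ₀ y
    show 0 < θ 0 y + 1 + η * (1 + 0)
    rw [h.init]
    linarith
  · intro s hs y hy hFy hge
    have hsT : s ∈ Ico 0 T := ⟨hs.1.le, lt_of_le_of_lt hs.2 ht.2⟩
    have hmin : ∀ z, θ s y ≤ θ s z := by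
      intro z
      obtain ⟨z', hz', hzz⟩ := per_exists (h.per s hsT) z
      have := hge s ⟨hs.1.le, le_refl _⟩ z' hz'
      rw [hzz]
      linarith
    have hSm : Sm (θ s) := ⟨h.smooth s hsT, h.per s hsT⟩
    have hd1 : d1 (θ s) y = 0 := by
      unfold d1
      apply IsLocalMin.deriv_eq_zero
      refine Filter.Eventually.of_forall ?_
      intro r
      exact hmin (r, y.2)
    have hd2 : d2 (θ s) y = 0 := by
      unfold d2
      apply IsLocalMin.deriv_eq_zero
      refine Filter.Eventually.of_forall ?_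
      intro r
      exact hmin (y.1, r)
    have hfl : fracLap (2 * α) (θ s) y ≤ 0 := by
      have := fracLap_min α hα hα1 (fc (θ s)) (θ s) y (RD_summable (RD_fc hSm) 3)
        (IsF_fc hSm).2 hmin
      exact this
    have heq := h.eqn s ⟨hs.1, lt_of_le_of_lt hs.2 ht.2⟩ y
    rw [hd1, hd2] at heq
    have hF : HasDerivAt (fun τ => θ τ y + 1 + η * (1 + τ))
        (-(vel1 lam w E (θ s) y * 0 + vel2 lam w E (θ s) y * 0)
          - κ * fracLap (2 * α) (θ s) y + η) s := by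
      have h1 := heq.add_const (1 : ℝ)
      have h2 : HasDerivAt (fun τ : ℝ => η * (1 + τ)) (η * 1) s :=
        ((hasDerivAt_id s).const_add 1).const_mul η
      have h3 := h1.add h2
      rw [mul_one] at h3
      exact h3
    have hle : (-(vel1 lam w E (θ s) y * 0 + vel2 lam w E (θ s) y * 0)
          - κ * fracLap (2 * α) (θ s) y + η) ≤ 0 := by
      have hw := (hF.hasDerivWithinAt (s := Iio s))
      rw [hasDerivWithinAt_iff_tendsto_slope' (by simp)] at hw
      have hne : (𝓝[<] s).NeBot := inferInstance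
      refine le_of_tendsto hw ?_
      have hev : ∀ᶠ τ in 𝓝[<] s, τ ∈ Ioo 0 s := Ioo_mem_nhdsLT hs.1
      filter_upwards [hev] with τ hτ
      rw [slope_def_field]
      have h1 := hge τ ⟨hτ.1.le, hτ.2.le⟩ y hy
      apply div_nonpos_of_nonneg_of_nonpos
      · linarith
      · linarith [hτ.2]
    have : 0 ≤ - κ * fracLap (2 * α) (θ s) y := by
      have := mul_nonneg hκ.le (neg_nonneg.mpr hfl)
      linarith
    linarith

/-- TARGET -/
theorem max_principle {lam α κ T : ℝ} (hα : 0 < α) (hα1 : α < 1) (hκ : 0 < κ) {w : ℕ → ℝ}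
    {E : ℕ → Pt → ℝ} (hodd : ∀ n x, E n (-x.1, x.2) = -E n x) {θ₀ : Pt → ℝ} (hθ₀ : ∀ x, |θ₀ x| ≤ 1)
    {θ : ℝ → Pt → ℝ} (h : IsSol lam α κ w E θ₀ T θ) : ∀ t ∈ Ico 0 T, ∀ x, |θ t x| ≤ 1 := by
  intro t ht x
  rw [abs_le]
  refine ⟨max_lower hα hα1 hκ (fun x => (abs_le.mp (hθ₀ x)).1) h t ht x, ?_⟩
  have h2 := max_lower hα hα1 hκ (θ₀ := fun x => -θ₀ (-x.1, x.2))
    (fun x => by have := (abs_le.mp (hθ₀ (-x.1, x.2))).2; linarith)
    (refl_isSol hodd h) t ht (-x.1, x.2)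
  simp only [neg_neg] at h2
  have : θ t (x.1, x.2) = θ t x := rfl
  linarith

end H706.JMP

namespace H706

alias max_principle := JMP.max_principle

end H706
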