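import Pool.Agent.Helper706_SQG.Defs2
import Pool.Agent.Helper706_SQG.FC

set_option autoImplicit false
open Set Filter Topology MeasureTheory
open scoped ComplexConjugate ContDiff

namespace H706.JOE

theorem OE_aF_smooth (q : ℕ → ℝ) (P J : ℕ) : ContDiff ℝ ∞ (aF q P J) := by
  unfold aF
  fun_prop

theorem OE_bF_smooth (p r : ℕ → ℝ) (m : ℕ) : ContDiff ℝ ∞ (bF p r m) := by
  unfold bF
  fun_prop

theorem OE_aF_per (q : ℕ → ℝ) (P J : ℕ) (x : ℝ) : aF q P J (x + 2 * Real.pi) = aF q P J x := by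
  unfold aF
  refine Finset.sum_congr rfl fun k _ => ?_
  rw [mul_add, Real.sin_add_nat_mul_two_pi]

theorem OE_bF_per (p r : ℕ → ℝ) (m : ℕ) (x : ℝ) : bF p r m (x + 2 * Real.pi) = bF p r m x := by
  unfold bF
  refine Finset.sum_congr rfl fun k _ => ?_
  rw [mul_add, Real.sin_add_nat_mul_two_pi, Real.cos_add_nat_mul_two_pi]

theorem OE_aF_odd (q : ℕ → ℝ) (P J : ℕ) (x : ℝ) : aF q P J (-x) = -aF q P J x := by
  unfold aF
  rw [← Finset.sum_neg_distrib]
  refine Finset.sum_congr rfl fun k _ => ?_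
  rw [mul_neg, Real.sin_neg]
  ring

/-- TARGET 1 -/
theorem EF_sm (q p r : ℕ → ℝ) (P J m : ℕ) : Sm (EF q p r P J m) ∧
    (∀ x : Pt, EF q p r P J m (-x.1, x.2) = -EF q p r P J m x) ∧
    (∀ x : Pt, d1 (EF q p r P J m) x = deriv (aF q P J) x.1 * bF p r m x.2) ∧
    (∀ x : Pt, d2 (EF q p r P J m) x = aF q P J x.1 * deriv (bF p r m) x.2) := by
  have ha := OE_aF_smooth q P J
  have hb := OE_bF_smooth p r m
  refine ⟨⟨?_, fun x => ⟨?_, ?_⟩⟩, fun x => ?_, fun x => ?_, fun x => ?_⟩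
  · exact (ha.comp contDiff_fst).mul (hb.comp contDiff_snd)
  · simp only [EF, OE_aF_per]
  · simp only [EF, OE_bF_per]
  · simp only [EF, OE_aF_odd]
    ring
  · simp only [d1, EF]
    exact deriv_mul_const (ha.differentiable (by simp) _) _
  · simp only [d2, EF]
    exact deriv_const_mul _ (hb.differentiable (by simp) _)

/-- the character `exp (-i n x)` -/
noncomputable def OE_e (n : ℤ) (x : ℝ) : ℂ := Complex.exp ((((-(n : ℝ)) * x : ℝ) : ℂ) * Complex.I)

theorem OE_e_cont (n : ℤ) : Continuous (OE_e n) := by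
  unfold OE_e
  fun_prop

theorem OE_e_norm (n : ℤ) (x : ℝ) : ‖OE_e n x‖ = 1 := by
  unfold OE_e
  exact Complex.norm_exp_ofReal_mul_I _

theorem OE_fc (q p r : ℕ → ℝ) (P J m : ℕ) (k : Fr) : fc (EF q p r P J m) k =
    ((((2 * Real.pi) ^ 2)⁻¹ : ℝ) : ℂ) *
      ((∫ x in (-Real.pi)..Real.pi, (aF q P J x : ℂ) * OE_e k.1 x) *
        ∫ y in (-Real.pi)..Real.pi, (bF p r m y : ℂ) * OE_e k.2 y) := by
  have hpi := Real.pi_pos
  rw [intervalIntegral.integral_of_le (by linarith), intervalIntegral.integral_of_le (by linarith),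
    ← setIntegral_prod_mul]
  unfold fc
  congr 1
  refine integral_congr_ae (Eventually.of_forall fun x => ?_)
  simp only [EF, ex, OE_e, Prod.fst_neg, Prod.snd_neg, Int.cast_neg, Complex.ofReal_mul]
  have : (((-(k.1 : ℝ) * x.1 + -(k.2 : ℝ) * x.2 : ℝ) : ℂ)) * Complex.I =
      ((-(k.1 : ℝ) * x.1 : ℝ) : ℂ) * Complex.I + ((-(k.2 : ℝ) * x.2 : ℝ) : ℂ) * Complex.I := by
    push_cast
    ring
  rw [this, Complex.exp_add]
  push_cast
  ring

theorem OE_orth0 {j : ℤ} (hj : j ≠ 0) :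
    ∫ x in (-Real.pi)..Real.pi, Complex.exp (((j : ℂ) * Complex.I) * x) = 0 := by
  have hc : (j : ℂ) * Complex.I ≠ 0 := mul_ne_zero (by exact_mod_cast hj) Complex.I_ne_zero
  rw [integral_exp_mul_complex hc]
  have : Complex.exp ((j : ℂ) * Complex.I * (Real.pi : ℂ)) =
      Complex.exp ((j : ℂ) * Complex.I * ((-Real.pi : ℝ) : ℂ)) := by
    rw [Complex.exp_eq_exp_iff_exists_int]
    exact ⟨j, by push_cast; ring⟩
  rw [this, sub_self, zero_div]

theorem OE_orth (l : ℕ) (n : ℤ) (h : n.natAbs ≠ l) :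
    (∫ x in (-Real.pi)..Real.pi, ((Real.cos (l * x) : ℝ) : ℂ) * OE_e n x = 0) ∧
      ∫ x in (-Real.pi)..Real.pi, ((Real.sin (l * x) : ℝ) : ℂ) * OE_e n x = 0 := by
  have h1 : (l : ℤ) - n ≠ 0 := by omega
  have h2 : -((l : ℤ) + n) ≠ 0 := by omega
  have e1 := OE_orth0 h1
  have e2 := OE_orth0 h2
  have i1 : IntervalIntegrable (fun x : ℝ => Complex.exp (((((l : ℤ) - n : ℤ) : ℂ) * Complex.I) * x))
      volume (-Real.pi) Real.pi := Continuous.intervalIntegrable (by fun_prop) _ _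
  have i2 : IntervalIntegrable (fun x : ℝ => Complex.exp ((((-((l : ℤ) + n) : ℤ) : ℂ) * Complex.I) * x))
      volume (-Real.pi) Real.pi := Continuous.intervalIntegrable (by fun_prop) _ _
  constructor
  · have e3 : ∀ x : ℝ, ((Real.cos (l * x) : ℝ) : ℂ) * OE_e n x =
        (1 / 2) * (Complex.exp (((((l : ℤ) - n : ℤ) : ℂ) * Complex.I) * x) +
          Complex.exp ((((-((l : ℤ) + n) : ℤ) : ℂ) * Complex.I) * x)) := by
      intro x
      have a1 : Complex.exp (((((l : ℤ) - n : ℤ) : ℂ) * Complex.I) * x) =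
          Complex.exp (((l : ℂ) * x) * Complex.I) * OE_e n x := by
        rw [OE_e, ← Complex.exp_add]
        congr 1
        push_cast
        ring
      have a2 : Complex.exp ((((-((l : ℤ) + n) : ℤ) : ℂ) * Complex.I) * x) =
          Complex.exp (-((l : ℂ) * x) * Complex.I) * OE_e n x := by
        rw [OE_e, ← Complex.exp_add]
        congr 1
        push_cast
        ring
      rw [a1, a2, Complex.ofReal_cos, Complex.cos]
      push_cast
      ring
    simp only [e3]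
    rw [intervalIntegral.integral_const_mul, intervalIntegral.integral_add i1 i2, e1, e2]
    simp
  · have e3 : ∀ x : ℝ, ((Real.sin (l * x) : ℝ) : ℂ) * OE_e n x =
        (Complex.I / 2) * (Complex.exp ((((-((l : ℤ) + n) : ℤ) : ℂ) * Complex.I) * x) -
          Complex.exp (((((l : ℤ) - n : ℤ) : ℂ) * Complex.I) * x)) := by
      intro x
      have a1 : Complex.exp (((((l : ℤ) - n : ℤ) : ℂ) * Complex.I) * x) =
          Complex.exp (((l : ℂ) * x) * Complex.I) * OE_e n x := by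
        rw [OE_e, ← Complex.exp_add]
        congr 1
        push_cast
        ring
      have a2 : Complex.exp ((((-((l : ℤ) + n) : ℤ) : ℂ) * Complex.I) * x) =
          Complex.exp (-((l : ℂ) * x) * Complex.I) * OE_e n x := by
        rw [OE_e, ← Complex.exp_add]
        congr 1
        push_cast
        ring
      rw [a1, a2, Complex.ofReal_sin, Complex.sin]
      push_cast
      ring
    simp only [e3]
    rw [intervalIntegral.integral_const_mul, intervalIntegral.integral_sub i2 i1, e1, e2]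
    simp

theorem OE_A {Ca ca : ℝ} {P J : ℕ} {q : ℕ → ℝ} (hq : ProfA Ca ca P J q) (n : ℤ)
    (h : ∫ x in (-Real.pi)..Real.pi, (aF q P J x : ℂ) * OE_e n x ≠ 0) :
    P ≤ n.natAbs ∧ n.natAbs ≤ 5 * 2 ^ J * P := by
  by_contra hcon
  apply h
  have hc : ∀ k ∈ Finset.Ico 1 (5 * 2 ^ J * P),
      IntervalIntegrable (fun x : ℝ => ((q k * (2 / (Real.pi * k)) : ℝ) : ℂ) *
        (((Real.sin (k * x) : ℝ) : ℂ) * OE_e n x)) volume (-Real.pi) Real.pi := fun k _ =>
    Continuous.intervalIntegrable (by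
      have := OE_e_cont n
      fun_prop) _ _
  have e1 : ∀ x : ℝ, (aF q P J x : ℂ) * OE_e n x = ∑ k ∈ Finset.Ico 1 (5 * 2 ^ J * P),
      ((q k * (2 / (Real.pi * k)) : ℝ) : ℂ) * (((Real.sin (k * x) : ℝ) : ℂ) * OE_e n x) := by
    intro x
    rw [aF, Complex.ofReal_sum, Finset.sum_mul]
    refine Finset.sum_congr rfl fun k _ => ?_
    push_cast
    ring
  simp only [e1]
  rw [intervalIntegral.integral_finsetSum hc]
  refine Finset.sum_eq_zero fun k hk => ?_
  rw [intervalIntegral.integral_const_mul]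
  rw [Finset.mem_Ico] at hk
  by_cases hnk : n.natAbs = k
  · have : q k = 0 := by
      apply hq.qlow
      omega
    rw [this]
    simp
  · rw [(OE_orth k n hnk).2, mul_zero]

theorem OE_B {m : ℕ} {p r : ℕ → ℝ} (n : ℤ)
    (h : ∫ x in (-Real.pi)..Real.pi, (bF p r m x : ℂ) * OE_e n x ≠ 0) : n.natAbs ≤ 4 * m := by
  by_contra hcon
  apply h
  have hc : ∀ k ∈ Finset.range (4 * m),
      IntervalIntegrable (fun x : ℝ => ((p k : ℝ) : ℂ) *
        (((Real.cos (k * x) : ℝ) : ℂ) * OE_e n x) + ((r k : ℝ) : ℂ) *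
        (((Real.sin (k * x) : ℝ) : ℂ) * OE_e n x)) volume (-Real.pi) Real.pi := fun k _ =>
    Continuous.intervalIntegrable (by
      have := OE_e_cont n
      fun_prop) _ _
  have e1 : ∀ x : ℝ, (bF p r m x : ℂ) * OE_e n x = ∑ k ∈ Finset.range (4 * m),
      (((p k : ℝ) : ℂ) * (((Real.cos (k * x) : ℝ) : ℂ) * OE_e n x) + ((r k : ℝ) : ℂ) *
        (((Real.sin (k * x) : ℝ) : ℂ) * OE_e n x)) := by
    intro x
    rw [bF, Complex.ofReal_sum, Finset.sum_mul]
    refine Finset.sum_congr rfl fun k _ => ?_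
    push_cast
    ring
  simp only [e1]
  rw [intervalIntegral.integral_finsetSum hc]
  refine Finset.sum_eq_zero fun k hk => ?_
  rw [Finset.mem_range] at hk
  have hnk : n.natAbs ≠ k := by omega
  have hn := OE_e_cont n
  rw [intervalIntegral.integral_add (Continuous.intervalIntegrable (by fun_prop) _ _)
    (Continuous.intervalIntegrable (by fun_prop) _ _), intervalIntegral.integral_const_mul,
    intervalIntegral.integral_const_mul, (OE_orth k n hnk).1, (OE_orth k n hnk).2]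
  simp

/-- TARGET 2 -/
theorem EF_supp {Ca ca : ℝ} {P J m M : ℕ} {q p r : ℕ → ℝ} (hP : 1 ≤ P) (hq : ProfA Ca ca P J q)
    (hm : m = M * P) (k : Fr) (hk : fc (EF q p r P J m) k ≠ 0) :
    (P : ℝ) ≤ len k ∧ len k ≤ (5 * 2 ^ J + 4 * M) * P := by
  rw [OE_fc] at hk
  have h1 := right_ne_zero_of_mul hk
  obtain ⟨h2, h3⟩ := OE_A hq k.1 (left_ne_zero_of_mul h1)
  have h4 := OE_B k.2 (right_ne_zero_of_mul h1)
  have e1 : |(k.1 : ℝ)| = ((k.1.natAbs : ℕ) : ℝ) := by
    rw [← Int.cast_abs, Int.abs_eq_natAbs]; rfl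
  have e2 : |(k.2 : ℝ)| = ((k.2.natAbs : ℕ) : ℝ) := by
    rw [← Int.cast_abs, Int.abs_eq_natAbs]; rfl
  have h2' : (P : ℝ) ≤ |(k.1 : ℝ)| := by rw [e1]; exact_mod_cast h2
  have h3' : |(k.1 : ℝ)| ≤ 5 * 2 ^ J * P := by rw [e1]; exact_mod_cast h3
  have h4' : |(k.2 : ℝ)| ≤ 4 * (M * P) := by
    rw [e2]
    have : (k.2.natAbs : ℝ) ≤ ((4 * m : ℕ) : ℝ) := by exact_mod_cast h4
    rw [hm] at this
    push_cast at this
    exact this
  have hsq1 : (k.1 : ℝ) ^ 2 = |(k.1 : ℝ)| ^ 2 := (sq_abs _).symm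
  have hsq2 : (k.2 : ℝ) ^ 2 = |(k.2 : ℝ)| ^ 2 := (sq_abs _).symm
  have hn1 := abs_nonneg (k.1 : ℝ)
  have hn2 := abs_nonneg (k.2 : ℝ)
  constructor
  · unfold len
    apply Real.le_sqrt_of_sq_le
    have hP0 : (0 : ℝ) ≤ P := Nat.cast_nonneg P
    rw [hsq1, hsq2]
    nlinarith
  · have : len k ≤ |(k.1 : ℝ)| + |(k.2 : ℝ)| := by
      unfold len
      apply Real.sqrt_le_iff.2
      refine ⟨by positivity, ?_⟩
      rw [hsq1, hsq2]
      nlinarith
    linarith

theorem OE_int3 {c : ℝ} (hc : 0 < c) :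
    IntervalIntegrable (fun x : ℝ => 1 / (1 + c * |x|) ^ 3) volume (-Real.pi) Real.pi ∧
    ∫ x in (-Real.pi)..Real.pi, 1 / (1 + c * |x|) ^ 3 ≤ 1 / c := by
  have hpi := Real.pi_pos
  have hcont : Continuous fun x : ℝ => 1 / (1 + c * |x|) ^ 3 := by
    refine Continuous.div continuous_const (by fun_prop) fun x => ?_
    positivity
  refine ⟨hcont.intervalIntegrable _ _, ?_⟩
  rw [← intervalIntegral.integral_add_adjacent_intervals (b := 0)
    (hcont.intervalIntegrable _ _) (hcont.intervalIntegrable _ _)]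
  have h1 : ∫ x in (0 : ℝ)..Real.pi, 1 / (1 + c * |x|) ^ 3 =
      (1 / (2 * c)) * (1 - 1 / (1 + c * Real.pi) ^ 2) := by
    have hd : ∀ x ∈ uIcc 0 Real.pi, HasDerivAt (fun x : ℝ => -(1 / (2 * c)) * ((1 + c * x) ^ 2)⁻¹)
        (1 / (1 + c * |x|) ^ 3) x := by
      intro x hx
      rw [uIcc_of_le hpi.le] at hx
      have hx0 : 0 < 1 + c * x := by nlinarith [hx.1]
      have a1 : HasDerivAt (fun x : ℝ => 1 + c * x) c x := by
        simpa using ((hasDerivAt_id x).const_mul c).const_add 1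
      have a2 := ((a1.pow 2).inv (pow_ne_zero 2 hx0.ne')).const_mul (-(1 / (2 * c)))
      refine a2.congr_deriv ?_
      rw [abs_of_nonneg hx.1]
      have := hx0.ne'
      field_simp
      norm_num
      ring
    rw [intervalIntegral.integral_eq_sub_of_hasDerivAt hd (hcont.intervalIntegrable _ _)]
    field_simp
    ring
  have h2 : ∫ x in (-Real.pi)..(0 : ℝ), 1 / (1 + c * |x|) ^ 3 =
      ∫ x in (0 : ℝ)..Real.pi, 1 / (1 + c * |x|) ^ 3 := by
    have := intervalIntegral.integral_comp_neg (a := 0) (b := Real.pi)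
      (fun x : ℝ => 1 / (1 + c * |x|) ^ 3)
    simp only [abs_neg, neg_zero] at this
    exact this.symm
  rw [h2, h1]
  have h3 : 0 ≤ 1 / (1 + c * Real.pi) ^ 2 := by positivity
  have h4 : 1 / (2 * c) * (1 - 1 / (1 + c * Real.pi) ^ 2) ≤ 1 / (2 * c) * 1 := by
    apply mul_le_mul_of_nonneg_left _ (by positivity)
    linarith
  have h5 : 1 / (2 * c) * 1 + 1 / (2 * c) * 1 = 1 / c := by field_simp; norm_num
  linarith

theorem OE_abd {Ca ca : ℝ} {P J : ℕ} {q : ℕ → ℝ} (hP : 1 ≤ P) (hCa : 1 ≤ Ca)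
    (hq : ProfA Ca ca P J q) {x : ℝ} (hx : |x| ≤ Real.pi) :
    |aF q P J x| ≤ 8 * Ca * (1 / (1 + P * |x|) ^ 3) := by
  have hP0 : (0 : ℝ) < P := by exact_mod_cast hP
  have hpos : ∀ y : ℝ, 0 < y → y ≤ Real.pi → |aF q P J y| ≤ 8 * Ca * (1 / (1 + P * y) ^ 3) := by
    intro y hy hy1
    obtain ⟨h1, -, h3⟩ := hq.bd y ⟨hy, hy1⟩
    have hu : 0 < P * y := by positivity
    rcases le_total (P * y) 1 with hle | hge
    · refine h1.trans ?_
      rw [mul_one_div, le_div_iff₀ (by positivity)]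
      have : (1 + P * y) ^ 3 ≤ 2 ^ 3 := pow_le_pow_left₀ (by positivity) (by linarith) 3
      nlinarith
    · refine h3.trans ?_
      rw [mul_one_div, div_le_div_iff₀ (by positivity) (by positivity)]
      have : (1 + P * y) ^ 3 ≤ (2 * (P * y)) ^ 3 := pow_le_pow_left₀ (by positivity) (by linarith) 3
      have h4 : (2 * (P * y)) ^ 3 = 8 * (P * y) ^ 3 := by ring
      rw [h4] at this
      nlinarith
  rcases lt_trichotomy x 0 with h | h | h
  · have h1 := hpos (-x) (by linarith) (by rw [abs_of_neg h] at hx; exact hx)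
    rw [OE_aF_odd, abs_neg] at h1
    rw [abs_of_neg h]
    exact h1
  · subst h
    have : aF q P J 0 = 0 := by
      unfold aF
      simp
    rw [this, abs_zero]
    positivity
  · have h1 := hpos x h (by rw [abs_of_pos h] at hx; exact hx)
    rw [abs_of_pos h]
    exact h1

/-- TARGET 3 -/
theorem EF_size {Ca ca Cb cb : ℝ} {P J m M : ℕ} {q p r : ℕ → ℝ} (hP : 1 ≤ P) (hM : 1 ≤ M)
    (hCa : 1 ≤ Ca) (hCb : 1 ≤ Cb) (hq : ProfA Ca ca P J q) (hm : m = M * P)
    (hp : ProfB Cb cb m p r) (k : Fr) :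
    ‖fc (EF q p r P J m) k‖ ≤ 4 * Ca * Cb / (P : ℝ) ^ 3 := by
  have hpi := Real.pi_pos
  have hpi3 := Real.pi_gt_three
  have hP0 : (0 : ℝ) < P := by exact_mod_cast hP
  have hmP : P ≤ m := by rw [hm]; exact Nat.le_mul_of_pos_left P hM
  have hmP' : (P : ℝ) ≤ m := by exact_mod_cast hmP
  have hm0 : (0 : ℝ) < m := by linarith
  obtain ⟨i1, j1⟩ := OE_int3 hP0
  obtain ⟨i2, j2⟩ := OE_int3 hm0
  have hA : ‖∫ x in (-Real.pi)..Real.pi, (aF q P J x : ℂ) * OE_e k.1 x‖ ≤ 8 * Ca / P := by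
    have h1 : ‖∫ x in (-Real.pi)..Real.pi, (aF q P J x : ℂ) * OE_e k.1 x‖ ≤
        ∫ x in (-Real.pi)..Real.pi, 8 * Ca * (1 / (1 + P * |x|) ^ 3) := by
      apply intervalIntegral.norm_integral_le_of_norm_le (by linarith) _ (i1.const_mul _)
      refine Eventually.of_forall fun x hx => ?_
      rw [norm_mul, OE_e_norm, mul_one, Complex.norm_real, Real.norm_eq_abs]
      exact OE_abd hP hCa hq (abs_le.2 ⟨hx.1.le, hx.2⟩)
    refine h1.trans ?_
    rw [intervalIntegral.integral_const_mul]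
    calc 8 * Ca * _ ≤ 8 * Ca * (1 / P) := mul_le_mul_of_nonneg_left j1 (by positivity)
      _ = 8 * Ca / P := by ring
  have hB : ‖∫ x in (-Real.pi)..Real.pi, (bF p r m x : ℂ) * OE_e k.2 x‖ ≤ Cb / m ^ 2 := by
    have h1 : ‖∫ x in (-Real.pi)..Real.pi, (bF p r m x : ℂ) * OE_e k.2 x‖ ≤
        ∫ x in (-Real.pi)..Real.pi, Cb / m * (1 / (1 + m * |x|) ^ 3) := by
      apply intervalIntegral.norm_integral_le_of_norm_le (by linarith) _ (i2.const_mul _)
      refine Eventually.of_forall fun x hx => ?_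
      rw [norm_mul, OE_e_norm, mul_one, Complex.norm_real, Real.norm_eq_abs]
      refine (hp.bd x ⟨hx.1.le, hx.2⟩).trans ?_
      have hx0 := abs_nonneg x
      have hu : 0 ≤ (m : ℝ) * |x| := by positivity
      rw [mul_one_div, div_div, div_le_div_iff₀ (by positivity) (by positivity)]
      have e1 : (1 + (m : ℝ) * |x|) ^ 6 = (1 + m * |x|) ^ 3 * (1 + m * |x|) ^ 3 := by ring
      have e2 : (m : ℝ) * |x| ≤ (1 + m * |x|) ^ 3 := by
        have : 1 + (m : ℝ) * |x| ≤ (1 + m * |x|) ^ 3 := le_self_pow₀ (by linarith) (by norm_num)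
        linarith
      rw [e1]
      have e3 : 0 ≤ Cb * (1 + (m : ℝ) * |x|) ^ 3 := by positivity
      calc Cb * |x| * (m * (1 + m * |x|) ^ 3) = Cb * (1 + (m : ℝ) * |x|) ^ 3 * (m * |x|) := by ring
        _ ≤ Cb * (1 + (m : ℝ) * |x|) ^ 3 * (1 + m * |x|) ^ 3 := mul_le_mul_of_nonneg_left e2 e3
        _ = _ := by ring
    refine h1.trans ?_
    rw [intervalIntegral.integral_const_mul]
    calc Cb / m * _ ≤ Cb / m * (1 / m) := mul_le_mul_of_nonneg_left j2 (by positivity)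
      _ = Cb / m ^ 2 := by ring
  rw [OE_fc, norm_mul, norm_mul, Complex.norm_real, Real.norm_eq_abs, abs_of_pos (by positivity)]
  have h1 : ‖∫ x in (-Real.pi)..Real.pi, (aF q P J x : ℂ) * OE_e k.1 x‖ *
      ‖∫ x in (-Real.pi)..Real.pi, (bF p r m x : ℂ) * OE_e k.2 x‖ ≤ 8 * Ca / P * (Cb / m ^ 2) :=
    mul_le_mul hA hB (norm_nonneg _) (by positivity)
  have h2 : ((2 * Real.pi) ^ 2)⁻¹ ≤ 1 / 2 := by
    rw [inv_eq_one_div]
    apply one_div_le_one_div_of_le (by norm_num)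
    nlinarith
  have h3 : 8 * Ca / P * (Cb / m ^ 2) ≤ 8 * Ca / P * (Cb / P ^ 2) := by
    apply mul_le_mul_of_nonneg_left _ (by positivity)
    apply div_le_div_of_nonneg_left (by positivity) (by positivity)
    exact pow_le_pow_left₀ hP0.le hmP' 2
  calc _ ≤ 1 / 2 * (8 * Ca / P * (Cb / P ^ 2)) :=
        mul_le_mul h2 (h1.trans h3) (by positivity) (by norm_num)
    _ = _ := by field_simp; norm_num

end H706.JOE

namespace H706

alias EF_sm := JOE.EF_sm
alias EF_supp := JOE.EF_supp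
alias EF_size := JOE.EF_size

end H706
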