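import Pool.Agent.Helper706_SQG.Defs2
import Pool.Agent.Helper706_SQG.FB
import Pool.Agent.Helper706_SQG.CV0
import Pool.Agent.Helper706_SQG.H4
import Pool.Agent.Helper706_SQG.PS

/-!
JOB STEP (MP_96bed6_an, helper706).  The barrier is a strict subsolution at touching points.

PROOF.  Write `Φ = Phi Z c₁ s β`, `y = (x₁/s, x₂/s)`, `V = v₀ Wt a s`, `m = m₀ Wt a s`. At the touching
point `f - Φ ≥ 0` has a minimum, so `d1 f x = d1 Φ x = (2/s) d1 Psi y`, `d2 f x = d2 Φ x = (2/s) d2 Psi y`.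
`f ≥ -1` gives `Psi y ≥ β/2 > 0`, so `1 < y₁ < 2Z`, `|y₂| < 2 + c₁y₁` (`Psi_facts`). On the plateau
`Psi = 1`, so `f ≥ 1 - β ≥ 1 - b₀` there and `f(-x₁,x₂) ≤ -(1-b₀)`; so `FlowOK` (from `hc.flow a ha n₀`)
applies to `θ = f` at `x`. Let `u^A = (∑' wts ip d2 EN, -∑' wts ip d1 EN) = (d2 (opA ..f) x, -d1 (opA .. f) x)`
(`opA_series`). Then `V1 = u^A₁ + V y₁`, `V2 = u^A₂ + V y₂` satisfy the hypotheses of the last part of
`Psi_facts`: for `1 ≤ y₂ - c₁y₁`: `c₁V1 - V2 = c₁u₁ - u₂ - V(y₂ - c₁y₁) ≤ c₁|u₁|+|u₂| - V ≤ -2m`, same for the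
other side. So `(u^A + V y)·∇Φ ≤ -m N`, `N = |d1 Φ x| + |d2 Φ x| ≤ 80/s`.
`Φ` is Lipschitz: `|Φ x - Φ x'| ≤ (40/s) ‖x-x'‖`; apply `touch` with `z = fc f` (`IsF_fc`, `RD_summable`;
`‖fc f k‖ ≤ 1` since `|f| ≤ 1`, `‖ex‖ = 1`, and the measure of `Qb` is `(2π)²`), `Lp = 40/s ≥ 1`:
`fracLap (2α) f x ≤ -D + C Lp^{2α}` and `|riesz_j f x| ≤ C(r^{2α}D + log(1/r) + 1 + r Lp)`.
The claim is `(u + V y)·∇Φ + κ fracLap f x < K₁ s^{-2α}` with `u = λ(-R₂f, R₁f) + u^A`. The left side is at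
most `-m N + |λ| N C (r^{2α} D + log(1/r) + 1 + r Lp) - κ D + κ C (40/s)^{2α}`. Choose
`r = (κ s/(80 |λ| C + 80 κ..))^{1/(2α)} ≤ 1` so that `|λ| N C r^{2α} ≤ κ`. If `λ = 0` we are done with
`K₁ = κ C 40^{2α} + 1`. Otherwise `a > 1` and for `s` small `m₀ (log₂(1/s))^a ≥ |λ| C (log(1/r) + 1 + 40 r/s)`,
because `log(1/r) = (1/2α) log(1/s) + const`, and `r/s = const · s^{1/(2α) - 1} → 0`.
-/

set_option autoImplicit false
open Set Filter Topology MeasureTheory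
open scoped ComplexConjugate ContDiff

namespace H706.JSTEP

/-- Fourier coefficients of bounded functions. -/
theorem step_fc_le {f : Pt → ℝ} (hb : ∀ x, |f x| ≤ 1) (k : Fr) : ‖fc f k‖ ≤ 1 := by
  have hvol : volume Qb = ENNReal.ofReal (2 * Real.pi) * ENNReal.ofReal (2 * Real.pi) := by
    unfold Qb
    rw [Measure.volume_eq_prod, Measure.prod_prod, Real.volume_Ioc]
    congr 2 <;> ring
  have hfin : volume Qb < ⊤ := by
    rw [hvol]
    exact ENNReal.mul_lt_top ENNReal.ofReal_lt_top ENNReal.ofReal_lt_top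
  have hreal : volume.real Qb = (2 * Real.pi) ^ 2 := by
    rw [Measure.real, hvol, ENNReal.toReal_mul, ENNReal.toReal_ofReal (by positivity), sq]
  have hex : ∀ x : Pt, ‖ex (-k) x‖ = 1 := by
    intro x
    unfold ex
    exact Complex.norm_exp_ofReal_mul_I _
  have h1 : ‖∫ x in Qb, (f x : ℂ) * ex (-k) x‖ ≤ 1 * volume.real Qb := by
    refine norm_setIntegral_le_of_norm_le_const hfin ?_
    intro x _
    rw [norm_mul, hex, mul_one, Complex.norm_real]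
    exact hb x
  unfold fc
  rw [norm_mul, Complex.norm_real, Real.norm_eq_abs, abs_of_pos (by positivity)]
  rw [one_mul, hreal] at h1
  have h2 : (0 : ℝ) < (2 * Real.pi) ^ 2 := by positivity
  rw [inv_mul_le_iff₀ h2, mul_one]
  exact h1

theorem step_diff1 {Z c : ℝ} (hP : Differentiable ℝ (Psi Z c)) {s : ℝ} (hs : s ≠ 0) (β : ℝ) (x : Pt) :
    HasDerivAt (fun r => Phi Z c s β (r, x.2)) (2 / s * d1 (Psi Z c) (x.1 / s, x.2 / s)) x.1 := by
  have h0 : HasDerivAt (fun r => Psi Z c (r, x.2 / s)) (d1 (Psi Z c) (x.1 / s, x.2 / s)) (x.1 / s) := by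
    unfold d1
    refine DifferentiableAt.hasDerivAt ?_
    exact (hP _).comp _ (by fun_prop)
  have h1 : HasDerivAt (fun r : ℝ => r / s) (1 / s) x.1 := (hasDerivAt_id _).div_const s
  have h2 := (h0.comp x.1 h1).const_mul 2
  have h3 := (h2.sub_const 1).sub_const β
  have e : (fun r => Phi Z c s β (r, x.2)) =
      fun r => 2 * ((fun r => Psi Z c (r, x.2 / s)) ∘ fun r : ℝ => r / s) r - 1 - β := by
    funext r; rfl
  rw [e]
  refine h3.congr_deriv ?_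
  ring

theorem step_diff2 {Z c : ℝ} (hP : Differentiable ℝ (Psi Z c)) {s : ℝ} (hs : s ≠ 0) (β : ℝ) (x : Pt) :
    HasDerivAt (fun r => Phi Z c s β (x.1, r)) (2 / s * d2 (Psi Z c) (x.1 / s, x.2 / s)) x.2 := by
  have h0 : HasDerivAt (fun r => Psi Z c (x.1 / s, r)) (d2 (Psi Z c) (x.1 / s, x.2 / s)) (x.2 / s) := by
    unfold d2
    refine DifferentiableAt.hasDerivAt ?_
    exact (hP _).comp _ (by fun_prop)
  have h1 : HasDerivAt (fun r : ℝ => r / s) (1 / s) x.2 := (hasDerivAt_id _).div_const s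
  have h2 := (h0.comp x.2 h1).const_mul 2
  have h3 := (h2.sub_const 1).sub_const β
  have e : (fun r => Phi Z c s β (x.1, r)) =
      fun r => 2 * ((fun r => Psi Z c (x.1 / s, r)) ∘ fun r : ℝ => r / s) r - 1 - β := by
    funext r; rfl
  rw [e]
  refine h3.congr_deriv ?_
  ring

/-- derivatives at a touching point -/
theorem step_touch {F G : ℝ → ℝ} {r₀ G' : ℝ} (hF : DifferentiableAt ℝ F r₀) (hG : HasDerivAt G G' r₀)
    (hle : ∀ r, G r ≤ F r) (he : G r₀ = F r₀) : deriv F r₀ = G' := by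
  have h1 : IsLocalMin (fun r => F r - G r) r₀ := by
    refine Filter.Eventually.of_forall fun r => ?_
    show F r₀ - G r₀ ≤ F r - G r
    rw [he, sub_self]
    exact sub_nonneg.2 (hle r)
  have h2 := h1.hasDerivAt_eq_zero (hF.hasDerivAt.sub hG)
  linarith

/-- superlinear growth -/
theorem step_growth {a m₀ : ℝ} (ha : 1 < a) (hm : 0 < m₀) (A B : ℝ) :
    ∃ t₀ : ℝ, 1 ≤ t₀ ∧ ∀ t, t₀ ≤ t → A * t + B ≤ m₀ * t ^ a := by
  have h1 : Tendsto (fun t : ℝ => t ^ (a - 1)) atTop atTop := tendsto_rpow_atTop (by linarith)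
  have h2 := h1.eventually_ge_atTop ((|A| + |B|) / m₀)
  obtain ⟨t₁, ht₁⟩ := Filter.eventually_atTop.1 h2
  refine ⟨max t₁ 1, le_max_right _ _, fun t ht => ?_⟩
  have ht1 : 1 ≤ t := (le_max_right _ _).trans ht
  have h3 := ht₁ t ((le_max_left _ _).trans ht)
  have h4 : t ^ a = t ^ (a - 1) * t := by
    rw [← Real.rpow_add_one (by linarith)]
    congr 1
    ring
  rw [h4]
  have h5 : |A| + |B| ≤ m₀ * t ^ (a - 1) := by
    rw [div_le_iff₀ hm] at h3
    linarith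
  calc A * t + B ≤ |A| * t + |B| * t := by
        have e1 : A * t ≤ |A| * t := mul_le_mul_of_nonneg_right (le_abs_self A) (by linarith)
        have e2 : B ≤ |B| * t := (le_abs_self B).trans (le_mul_of_one_le_right (abs_nonneg _) ht1)
        linarith
    _ = (|A| + |B|) * t := by ring
    _ ≤ (m₀ * t ^ (a - 1)) * t := mul_le_mul_of_nonneg_right h5 (by linarith)
    _ = m₀ * (t ^ (a - 1) * t) := by ring

/-- The choice of the radius. -/
theorem step_radius {a m₀ α κ lam C : ℝ} (hlam : 1 < a ∨ lam = 0) (hm : 0 < m₀) (hα : 0 < α)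
    (hα1 : α < 1 / 2) (hκ : 0 < κ) (hC : 0 < C) :
    ∃ sb > 0, sb ≤ 1 ∧ ∀ s ∈ Ioc 0 sb, ∃ r ∈ Ioc (0 : ℝ) 1,
      |lam| * (80 / s) * C * r ^ (2 * α) ≤ κ ∧
      |lam| * C * (Real.log (1 / r) + 1 + r * (40 / s)) ≤ m₀ * Wt a s := by
  set G : ℝ := |lam| * 80 * C with hG
  have hG0 : 0 ≤ G := by positivity
  set ρ : ℝ := κ / (G + κ) with hρ
  have hρ0 : 0 < ρ := by positivity
  have hρ1 : ρ ≤ 1 := by
    rw [hρ, div_le_one (by positivity)]; linarith
  have hα2 : 1 < 1 / (2 * α) := by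
    rw [lt_div_iff₀ (by positivity)]; linarith
  -- common facts about the radius
  have hr : ∀ s ∈ Ioc (0 : ℝ) 1, (ρ * s) ^ (1 / (2 * α)) ∈ Ioc (0 : ℝ) 1 ∧
      |lam| * (80 / s) * C * ((ρ * s) ^ (1 / (2 * α))) ^ (2 * α) ≤ κ := by
    intro s hs
    have h1 : 0 < ρ * s := mul_pos hρ0 hs.1
    have h2 : ρ * s ≤ 1 := mul_le_one₀ hρ1 hs.1.le hs.2
    refine ⟨⟨Real.rpow_pos_of_pos h1 _, Real.rpow_le_one h1.le h2 (by linarith)⟩, ?_⟩
    rw [← Real.rpow_mul h1.le, one_div_mul_cancel (by positivity), Real.rpow_one]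
    have h3 : |lam| * (80 / s) * C * (ρ * s) = G * κ / (G + κ) := by
      rw [hρ, hG]; field_simp [hs.1.ne']
    rw [h3, div_le_iff₀ (by positivity)]
    nlinarith
  rcases hlam with ha | hl
  · obtain ⟨t₀, ht₀1, ht₀⟩ := step_growth ha hm (|lam| * C * (1 / (2 * α)) * Real.log 2)
      (|lam| * C * ((1 / (2 * α)) * Real.log (1 / ρ) + 41))
    refine ⟨(2 : ℝ) ^ (-t₀), by positivity, ?_, ?_⟩
    · exact Real.rpow_le_one_of_one_le_of_nonpos (by norm_num) (by linarith)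
    · intro s hs
      have hs1 : s ≤ 1 := hs.2.trans (Real.rpow_le_one_of_one_le_of_nonpos (by norm_num) (by linarith))
      have hs01 : s ∈ Ioc (0 : ℝ) 1 := ⟨hs.1, hs1⟩
      obtain ⟨h1, h2⟩ := hr s hs01
      refine ⟨_, h1, h2, ?_⟩
      set t : ℝ := -Real.logb 2 s with ht
      have htt : t₀ ≤ t := by
        have h3 : Real.logb 2 s ≤ -t₀ := by
          rw [Real.logb_le_iff_le_rpow (by norm_num) hs.1]
          exact hs.2
        linarith
      have h3 := ht₀ t htt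
      have hlog : Real.log s = -(t * Real.log 2) := by
        rw [ht, Real.logb]
        have : Real.log 2 ≠ 0 := (Real.log_pos (by norm_num)).ne'
        field_simp
      have hρs : 0 < ρ * s := mul_pos hρ0 hs.1
      have h4 : Real.log (1 / (ρ * s) ^ (1 / (2 * α))) =
          1 / (2 * α) * (t * Real.log 2) + 1 / (2 * α) * Real.log (1 / ρ) := by
        rw [one_div ((ρ * s) ^ (1 / (2 * α))), Real.log_inv, Real.log_rpow hρs,
          Real.log_mul hρ0.ne' hs.1.ne', hlog, one_div ρ, Real.log_inv]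
        ring
      have h5 : (ρ * s) ^ (1 / (2 * α)) ≤ s := by
        calc (ρ * s) ^ (1 / (2 * α)) ≤ s ^ (1 / (2 * α)) := by
              apply Real.rpow_le_rpow hρs.le _ (by linarith)
              nlinarith [hs.1]
          _ ≤ s ^ (1 : ℝ) := Real.rpow_le_rpow_of_exponent_ge hs.1 hs1 hα2.le
          _ = s := Real.rpow_one s
      have h6 : (ρ * s) ^ (1 / (2 * α)) * (40 / s) ≤ 40 := by
        calc (ρ * s) ^ (1 / (2 * α)) * (40 / s) ≤ s * (40 / s) := by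
              apply mul_le_mul_of_nonneg_right h5
              have := hs.1
              positivity
          _ = 40 := by field_simp [hs.1.ne']
      have hW : Wt a s = t ^ a := rfl
      rw [hW]
      refine le_trans ?_ h3
      rw [h4]
      have h7 : 0 ≤ |lam| * C := by positivity
      calc |lam| * C * (1 / (2 * α) * (t * Real.log 2) + 1 / (2 * α) * Real.log (1 / ρ) + 1 +
            (ρ * s) ^ (1 / (2 * α)) * (40 / s))
          ≤ |lam| * C * (1 / (2 * α) * (t * Real.log 2) + 1 / (2 * α) * Real.log (1 / ρ) + 1 + 40) := by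
            gcongr
        _ = _ := by ring
  · refine ⟨1, one_pos, le_rfl, ?_⟩
    intro s hs
    obtain ⟨h1, h2⟩ := hr s hs
    refine ⟨_, h1, h2, ?_⟩
    rw [hl, abs_zero, zero_mul, zero_mul]
    apply mul_nonneg hm.le
    unfold Wt
    apply Real.rpow_nonneg
    have := Real.logb_nonpos (b := 2) (by norm_num) hs.1.le hs.2
    linarith

/-- TARGET -/
theorem step {Ca ca Cb cb c₁ b₀ v₀ m₀ Z : ℝ} {q p r : ℕ → ℕ → ℝ} {J M : ℕ}
    (hc : Cons Ca ca Cb cb c₁ b₀ v₀ m₀ Z q p r J M) {a C₁ C₂ : ℝ} (ha : 0 ≤ a) {n₀ : ℕ}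
    (hE : ∀ n, Sm (EN q p r J M n₀ n)) (he : Band C₁ C₂ n₀ fun n => fc (EN q p r J M n₀ n))
    {lam α κ : ℝ} (hlam : 1 < a ∨ lam = 0) (hα : 0 < α) (hα1 : α < 1 / 2) (hκ : 0 < κ) :
    ∃ K₁ > 0, ∃ sb > 0, ∀ s ∈ Ioc 0 sb, ∀ β ∈ Ioc 0 b₀, ∀ f : Pt → ℝ, Sm f → (∀ x, |f x| ≤ 1) →
      (∀ x, Phi Z c₁ s β x ≤ f x) → (∀ x : Pt, Phi Z c₁ s β x ≤ -f (-x.1, x.2)) →
      ∀ x : Pt, Phi Z c₁ s β x = f x →
        v₀ * Wt a s / s * (x.1 * d1 (Phi Z c₁ s β) x + x.2 * d2 (Phi Z c₁ s β) x)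
            - K₁ * s ^ (-(2 * α)) <
          -(vel1 lam (wts a n₀) (EN q p r J M n₀) f x * d1 f x
            + vel2 lam (wts a n₀) (EN q p r J M n₀) f x * d2 f x)
            - κ * fracLap (2 * α) f x := by
  obtain ⟨C, hC, htouch⟩ := touch α hα hα1
  obtain ⟨sb₁, hsb₁, hflow⟩ := hc.flow a ha n₀
  obtain ⟨sb₂, hsb₂, hsb₂1, hrad⟩ := step_radius (a := a) (m₀ := m₀) (lam := lam) hlam hc.m₀pos hα hα1 hκ hC
  obtain ⟨P1, P2, P3, P4, P5, P6, P7⟩ := Psi_facts (Z := Z) (c := c₁) hc.hZ hc.c₁pos.le hc.c₁le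
  refine ⟨κ * C * (40 : ℝ) ^ (2 * α) + 1, by positivity, min sb₁ sb₂, lt_min hsb₁ hsb₂, ?_⟩
  intro s hs β hβ f hf hf1 hΦ hΦ' x hx
  have hs0 : 0 < s := hs.1
  have hsb1 : s ≤ sb₁ := hs.2.trans (min_le_left _ _)
  have hsb2 : s ≤ sb₂ := hs.2.trans (min_le_right _ _)
  have hs1 : s ≤ 1 := hsb2.trans hsb₂1
  have hb₀ := hc.b₀le
  have hβ0 := hβ.1
  have hβ1 := hβ.2
  set y : Pt := (x.1 / s, x.2 / s) with hy
  have hW0 : 0 ≤ Wt a s := by
    unfold Wt
    apply Real.rpow_nonneg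
    have := Real.logb_nonpos (b := 2) (by norm_num) hs0.le hs1
    linarith
  set m : ℝ := m₀ * Wt a s with hmdef
  set V : ℝ := v₀ * Wt a s with hVdef
  have hm0 : 0 ≤ m := mul_nonneg hc.m₀pos.le hW0
  -- derivatives
  have hfd : Differentiable ℝ f := hf.1.differentiable (by simp)
  have hD1 := step_diff1 P1 hs0.ne' β x
  have hD2 := step_diff2 P1 hs0.ne' β x
  have e1 : d1 (Phi Z c₁ s β) x = 2 / s * d1 (Psi Z c₁) y := hD1.deriv
  have e2 : d2 (Phi Z c₁ s β) x = 2 / s * d2 (Psi Z c₁) y := hD2.deriv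
  have e3 : d1 f x = 2 / s * d1 (Psi Z c₁) y := by
    refine step_touch (F := fun r => f (r, x.2)) ?_ hD1 (fun r => hΦ _) hx
    exact (hfd _).comp _ (by fun_prop)
  have e4 : d2 f x = 2 / s * d2 (Psi Z c₁) y := by
    refine step_touch (F := fun r => f (x.1, r)) ?_ hD2 (fun r => hΦ _) hx
    exact (hfd _).comp _ (by fun_prop)
  -- location of x
  have hPy : Psi Z c₁ y ≠ 0 := by
    intro h0
    have h1 : 2 * Psi Z c₁ y - 1 - β = f x := hx
    have h2 := (abs_le.1 (hf1 x)).1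
    rw [h0] at h1
    linarith
  obtain ⟨hy1, hy2, hy3⟩ := P3 y hPy
  have hy1' : 1 < x.1 / s := hy1
  have hy2' : x.1 / s < 2 * Z := hy2
  have hy3' : |x.2 / s| < 2 + c₁ * (x.1 / s) := hy3
  have hx1 : s ≤ x.1 := by rw [lt_div_iff₀ hs0] at hy1'; linarith
  have hx2 : x.1 ≤ 2 * Z * s := by rw [div_lt_iff₀ hs0] at hy2'; linarith
  have hx3 : |x.2| ≤ 2 * s + c₁ * x.1 := by
    rw [abs_div, abs_of_pos hs0, div_lt_iff₀ hs0] at hy3'
    have : (2 + c₁ * (x.1 / s)) * s = 2 * s + c₁ * x.1 := by field_simp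
    rw [this] at hy3'
    exact hy3'.le
  -- the flow
  have hpl : ∀ x : Pt, 2 * s ≤ x.1 → x.1 ≤ Z * s → |x.2| ≤ s + c₁ * x.1 →
      1 - b₀ ≤ f x ∧ f (-x.1, x.2) ≤ -(1 - b₀) := by
    intro x' h1 h2 h3
    have h4 : Psi Z c₁ (x'.1 / s, x'.2 / s) = 1 := by
      refine P4 (x'.1 / s, x'.2 / s) ?_ ?_ ?_
      · show 2 ≤ x'.1 / s
        rw [le_div_iff₀ hs0]; linarith
      · show x'.1 / s ≤ Z
        rw [div_le_iff₀ hs0]; linarith
      · show |x'.2 / s| ≤ 1 + c₁ * (x'.1 / s)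
        rw [abs_div, abs_of_pos hs0, div_le_iff₀ hs0]
        have : (1 + c₁ * (x'.1 / s)) * s = s + c₁ * x'.1 := by field_simp
        rw [this]; exact h3
    have h5 : Phi Z c₁ s β x' = 1 - β := by
      unfold Phi; rw [h4]; ring
    have h6 := hΦ x'
    have h7 := hΦ' x'
    rw [h5] at h6 h7
    constructor <;> linarith
  obtain ⟨F1, F2, F3⟩ := hflow s ⟨hs0, hsb1⟩ f hfd.continuous hf1 hpl x hx1 hx2 hx3
  obtain ⟨-, O1, O2⟩ := opA_series (a := a) (C₁ := C₁) (C₂ := C₂) ha hE he hf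
  set u1 : ℝ := ∑' n, wts a n₀ n * ip (EN q p r J M n₀ n) f * d2 (EN q p r J M n₀ n) x with hu1
  set u2 : ℝ := ∑' n, wts a n₀ n * ip (EN q p r J M n₀ n) f * d1 (EN q p r J M n₀ n) x with hu2
  have hVm : c₁ * |u1| + |u2| + 2 * m ≤ V := F3
  have hV0 : 0 ≤ V := by
    have h1 : 0 ≤ c₁ * |u1| := mul_nonneg hc.c₁pos.le (abs_nonneg _)
    have h2 := abs_nonneg u2
    linarith
  have hA1 : -(c₁ * |u1|) ≤ c₁ * u1 ∧ c₁ * u1 ≤ c₁ * |u1| := by
    constructor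
    · rw [← mul_neg]; exact mul_le_mul_of_nonneg_left (neg_abs_le u1) hc.c₁pos.le
    · exact mul_le_mul_of_nonneg_left (le_abs_self u1) hc.c₁pos.le
  have hA2 : -|u2| ≤ u2 ∧ u2 ≤ |u2| := ⟨neg_abs_le _, le_abs_self _⟩
  have key := P7 y m (u1 + V * y.1) (-u2 + V * y.2) hm0
    (fun _ h2 => F1 (by
      have h2' : x.1 / s ≤ 2 := h2
      rw [div_le_iff₀ hs0] at h2'; exact h2'))
    (fun h1 _ => F2 (by
      have h1' : Z ≤ x.1 / s := h1
      rw [le_div_iff₀ hs0] at h1'; exact h1'))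
    (fun h1 _ => by
      have h3 : V * 1 ≤ V * (y.2 - c₁ * y.1) := mul_le_mul_of_nonneg_left h1 hV0
      have e : c₁ * (u1 + V * y.1) - (-u2 + V * y.2) = c₁ * u1 + u2 - V * (y.2 - c₁ * y.1) := by ring
      rw [e]; linarith [hA1.2, hA2.2])
    (fun h1 _ => by
      have h3 : V * 1 ≤ V * (-y.2 - c₁ * y.1) := mul_le_mul_of_nonneg_left h1 hV0
      have e : c₁ * (u1 + V * y.1) + (-u2 + V * y.2) = c₁ * u1 - u2 - V * (-y.2 - c₁ * y.1) := by ring
      rw [e]; linarith [hA1.2, hA2.1])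
  -- the touching lemma
  have hLip : ∀ x', |Phi Z c₁ s β x' - Phi Z c₁ s β x| ≤ 40 / s * ‖x' - x‖ := by
    intro x'
    have h1 := P5 (x'.1 / s, x'.2 / s) y
    have h2 : Phi Z c₁ s β x' - Phi Z c₁ s β x =
        2 * (Psi Z c₁ (x'.1 / s, x'.2 / s) - Psi Z c₁ y) := by
      unfold Phi; ring
    have h3 : ((x'.1 / s, x'.2 / s) : Pt) - y = (1 / s : ℝ) • (x' - x) := by
      ext
      · simp [hy]; ring
      · simp [hy]; ring
    rw [h3, norm_smul, Real.norm_eq_abs, abs_of_pos (show (0 : ℝ) < 1 / s by positivity)] at h1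
    rw [h2, abs_mul, abs_two]
    calc 2 * |Psi Z c₁ (x'.1 / s, x'.2 / s) - Psi Z c₁ y| ≤ 2 * (20 * (1 / s * ‖x' - x‖)) := by linarith
      _ = 40 / s * ‖x' - x‖ := by ring
  have hcont : Continuous (Phi Z c₁ s β) := by
    unfold Phi
    have : Continuous fun x : Pt => Psi Z c₁ (x.1 / s, x.2 / s) :=
      P1.continuous.comp (by fun_prop)
    fun_prop
  have h3' : ∀ x', |Phi Z c₁ s β x'| ≤ 3 := by
    intro x'
    have h1 := P2 (x'.1 / s, x'.2 / s)
    unfold Phi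
    rw [abs_le]
    constructor <;> linarith [h1.1, h1.2]
  have hLp1 : 1 ≤ 40 / s := by
    rw [le_div_iff₀ hs0]; linarith
  obtain ⟨D, hD0, hD1', hD2'⟩ := htouch (fc f) f (Phi Z c₁ s β) x (40 / s)
    (RD_summable (RD_fc hf) 3) (IsF_fc hf).2 (step_fc_le hf1) hf1 hcont h3' hLp1 hLip hΦ hx
  obtain ⟨ρ, hρ, hρ1, hρ2⟩ := hrad s ⟨hs0, hsb2⟩
  obtain ⟨hR1, hR2⟩ := hD2' ρ hρ
  have hR1' : |riesz1 f x| ≤ C * (ρ ^ (2 * α) * D + Real.log (1 / ρ) + 1 + ρ * (40 / s)) := hR1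
  have hR2' : |riesz2 f x| ≤ C * (ρ ^ (2 * α) * D + Real.log (1 / ρ) + 1 + ρ * (40 / s)) := hR2
  have hL' : fracLap (2 * α) f x ≤ -D + C * (40 / s) ^ (2 * α) := hD1'
  set R : ℝ := C * (ρ ^ (2 * α) * D + Real.log (1 / ρ) + 1 + ρ * (40 / s)) with hRdef
  set p1 : ℝ := d1 (Psi Z c₁) y with hp1
  set p2 : ℝ := d2 (Psi Z c₁) y with hp2
  set N : ℝ := 2 / s * (|p1| + |p2|) with hN
  have hN0 : 0 ≤ N := by positivity
  have hN80 : N ≤ 80 / s := by
    have h1 := P6 y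
    have h2 : |p1| + |p2| ≤ 40 := by linarith [h1.1, h1.2]
    calc N ≤ 2 / s * 40 := by rw [hN]; gcongr
      _ = 80 / s := by ring
  -- collect
  have hv1 : vel1 lam (wts a n₀) (EN q p r J M n₀) f x = -lam * riesz2 f x + u1 := by
    unfold vel1; rw [O2]
  have hv2 : vel2 lam (wts a n₀) (EN q p r J M n₀) f x = lam * riesz1 f x - u2 := by
    unfold vel2; rw [O1]
  rw [e1, e2, e3, e4, hv1, hv2]
  have hVy : v₀ * Wt a s / s * (x.1 * (2 / s * p1) + x.2 * (2 / s * p2)) =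
      2 / s * (V * y.1 * p1 + V * y.2 * p2) := by
    show _ = 2 / s * (V * (x.1 / s) * p1 + V * (x.2 / s) * p2)
    rw [hVdef]; ring
  rw [hVy]
  have hkey : 2 / s * ((u1 + V * y.1) * p1 + (-u2 + V * y.2) * p2) ≤ -m * N := by
    have h2s : 0 ≤ 2 / s := by positivity
    have := mul_le_mul_of_nonneg_left key h2s
    calc _ ≤ 2 / s * (-m * (|p1| + |p2|)) := this
      _ = -m * N := by rw [hN]; ring
  have hriesz : lam * (riesz1 f x * (2 / s * p2) - riesz2 f x * (2 / s * p1)) ≤ |lam| * N * R := by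
    have h2s : 0 ≤ 2 / s := by positivity
    have hb1 : |riesz1 f x * (2 / s * p2)| ≤ R * (2 / s * |p2|) := by
      rw [abs_mul, abs_mul, abs_of_nonneg h2s]
      exact mul_le_mul_of_nonneg_right hR1' (by positivity)
    have hb2 : |riesz2 f x * (2 / s * p1)| ≤ R * (2 / s * |p1|) := by
      rw [abs_mul, abs_mul, abs_of_nonneg h2s]
      exact mul_le_mul_of_nonneg_right hR2' (by positivity)
    calc lam * (riesz1 f x * (2 / s * p2) - riesz2 f x * (2 / s * p1))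
        ≤ |lam * (riesz1 f x * (2 / s * p2) - riesz2 f x * (2 / s * p1))| := le_abs_self _
      _ = |lam| * |riesz1 f x * (2 / s * p2) - riesz2 f x * (2 / s * p1)| := abs_mul _ _
      _ ≤ |lam| * (|riesz1 f x * (2 / s * p2)| + |riesz2 f x * (2 / s * p1)|) := by
        gcongr; exact abs_sub _ _
      _ ≤ |lam| * (R * (2 / s * |p2|) + R * (2 / s * |p1|)) := by gcongr
      _ = |lam| * N * R := by rw [hN]; ring
  have hmain : -m * N + |lam| * N * R + κ * (-D + C * (40 / s) ^ (2 * α)) ≤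
      κ * C * (40 / s) ^ (2 * α) := by
    have h1 : |lam| * N * R = N * (|lam| * C * (Real.log (1 / ρ) + 1 + ρ * (40 / s))) +
        (|lam| * N * C * ρ ^ (2 * α)) * D := by rw [hRdef]; ring
    have h2 : |lam| * N * C * ρ ^ (2 * α) ≤ κ := by
      refine le_trans ?_ hρ1
      have : 0 ≤ ρ ^ (2 * α) := Real.rpow_nonneg hρ.1.le _
      gcongr
    have h3 : N * (|lam| * C * (Real.log (1 / ρ) + 1 + ρ * (40 / s))) ≤ N * m :=
      mul_le_mul_of_nonneg_left hρ2 hN0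
    have h4 : (|lam| * N * C * ρ ^ (2 * α)) * D ≤ κ * D := mul_le_mul_of_nonneg_right h2 hD0
    rw [h1]
    have h5 : κ * (-D + C * (40 / s) ^ (2 * α)) = -(κ * D) + κ * C * (40 / s) ^ (2 * α) := by ring
    have h6 : -m * N = -(N * m) := by ring
    rw [h5, h6]
    linarith
  have hfin : κ * C * (40 / s) ^ (2 * α) < (κ * C * (40 : ℝ) ^ (2 * α) + 1) * s ^ (-(2 * α)) := by
    have h1 : (40 / s : ℝ) ^ (2 * α) = 40 ^ (2 * α) * s ^ (-(2 * α)) := by
      rw [Real.div_rpow (by norm_num) hs0.le, Real.rpow_neg hs0.le]; rfl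
    have h2 : 0 < s ^ (-(2 * α)) := Real.rpow_pos_of_pos hs0 _
    rw [h1]
    have h3 : (κ * C * (40 : ℝ) ^ (2 * α) + 1) * s ^ (-(2 * α)) =
        κ * C * (40 ^ (2 * α) * s ^ (-(2 * α))) + s ^ (-(2 * α)) := by ring
    rw [h3]
    linarith
  have hκL : κ * fracLap (2 * α) f x ≤ κ * (-D + C * (40 / s) ^ (2 * α)) :=
    mul_le_mul_of_nonneg_left hL' hκ.le
  have hsum : 2 / s * (V * y.1 * p1 + V * y.2 * p2) +
      ((-lam * riesz2 f x + u1) * (2 / s * p1) + (lam * riesz1 f x - u2) * (2 / s * p2)) =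
      2 / s * ((u1 + V * y.1) * p1 + (-u2 + V * y.2) * p2) +
      lam * (riesz1 f x * (2 / s * p2) - riesz2 f x * (2 / s * p1)) := by ring
  linarith

end H706.JSTEP

namespace H706

alias step := JSTEP.step

end H706
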