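import Pool.Agent.Helper706_SQG.Defs2
import Pool.Agent.Helper706_SQG.PS

/-!
JOB PS2 (MP_96bed6_an, helper706).  Second order bound for the barrier profile.

PROOF.  `ramp` is `C¹` with derivative `6 c (1-c)`, `c = max 0 (min 1 t)`, which is Lipschitz with constant
`6`, so `|ramp t' - ramp t - ramp' t (t'-t)| ≤ 3 (t'-t)²`, and `0 ≤ ramp ≤ 1`, `0 ≤ ramp' ≤ 3/2`. The same kind
of bound holds for compositions with affine functions and for products of bounded Lipschitz functions with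
such a bound (write `fg(y') - fg(y) - (f'g + fg')(y)(y'-y)` as usual). The job PS (result of job 2137,
`SELECT result FROM jobs WHERE id=2137`) contains the derivatives of `Psi`. `‖·‖` is the maximum norm.
-/

set_option autoImplicit false
open Set Filter Topology MeasureTheory
open scoped ComplexConjugate ContDiff

namespace H706.JPS2

/-- derivative of the ramp -/
noncomputable def rampD (t : ℝ) : ℝ := 6 * max 0 (min 1 t) * (1 - max 0 (min 1 t))

theorem ramp_bd (t : ℝ) : |ramp t| ≤ 1 := by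
  unfold ramp
  set c := max 0 (min 1 t) with hc
  have h0 : 0 ≤ c := le_max_left _ _
  have h1 : c ≤ 1 := max_le (by norm_num) (min_le_left _ _)
  rw [abs_le]
  constructor
  · nlinarith [mul_nonneg h0 h0, mul_nonneg (mul_nonneg h0 h0) (sub_nonneg.2 h1)]
  · nlinarith [mul_nonneg (mul_nonneg (sub_nonneg.2 h1) (sub_nonneg.2 h1)) h0,
      mul_nonneg (sub_nonneg.2 h1) (sub_nonneg.2 h1)]

theorem rampD_bd (t : ℝ) : |rampD t| ≤ 2 := by
  unfold rampD
  set c := max 0 (min 1 t) with hc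
  have h0 : 0 ≤ c := le_max_left _ _
  have h1 : c ≤ 1 := max_le (by norm_num) (min_le_left _ _)
  rw [abs_le]
  constructor
  · nlinarith [mul_nonneg h0 (sub_nonneg.2 h1)]
  · nlinarith [sq_nonneg (2 * c - 1)]

theorem clip_cases (t : ℝ) : (t ≤ 0 ∧ max 0 (min 1 t) = 0) ∨ (1 ≤ t ∧ max 0 (min 1 t) = 1) ∨
    (0 ≤ t ∧ t ≤ 1 ∧ max 0 (min 1 t) = t) := by
  rcases le_total t 0 with h | h
  · left
    refine ⟨h, ?_⟩
    rw [min_eq_right (by linarith), max_eq_left h]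
  · right
    rcases le_total t 1 with h' | h'
    · right
      refine ⟨h, h', ?_⟩
      rw [min_eq_right h', max_eq_right h]
    · left
      refine ⟨h', ?_⟩
      rw [min_eq_left h', max_eq_right zero_le_one]

theorem ramp_second (t t' : ℝ) : |ramp t' - ramp t - rampD t * (t' - t)| ≤ 9 * (t' - t) ^ 2 := by
  unfold ramp rampD
  set c := max 0 (min 1 t) with hc
  set c' := max 0 (min 1 t') with hc'
  have h0 : 0 ≤ c := le_max_left _ _
  have h1 : c ≤ 1 := max_le (by norm_num) (min_le_left _ _)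
  have h0' : 0 ≤ c' := le_max_left _ _
  have h1' : c' ≤ 1 := max_le (by norm_num) (min_le_left _ _)
  have e1 : |c' - c| ≤ |t' - t| := by
    rw [hc, hc']
    calc |max 0 (min 1 t') - max 0 (min 1 t)| ≤ |min 1 t' - min 1 t| := by
          rw [max_comm 0, max_comm 0]
          exact abs_max_sub_max_le_abs _ _ _
      _ ≤ |t' - t| := by
        have := abs_min_sub_min_le_max 1 t' 1 t
        simpa using this
  have e2 : (c' - c) ^ 2 ≤ (t' - t) ^ 2 := sq_le_sq.2 e1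
  have e3 : |c * (1 - c) * ((t' - t) - (c' - c))| ≤ (t' - t) ^ 2 := by
    rcases clip_cases t with ⟨a, b⟩ | ⟨a, b⟩ | ⟨a, a', b⟩
    · rw [← hc] at b
      rw [b]
      simp
      positivity
    · rw [← hc] at b
      rw [b]
      simp
      positivity
    · rw [← hc] at b
      rcases clip_cases t' with ⟨p, q⟩ | ⟨p, q⟩ | ⟨p, p', q⟩
      · rw [← hc'] at q
        rw [b, q, abs_le]
        constructor <;> nlinarith [mul_nonneg a (sub_nonneg.2 a'), mul_nonneg (mul_nonneg a (sub_nonneg.2 a')) (neg_nonneg.2 p), mul_nonneg a (neg_nonneg.2 p), mul_nonneg (mul_nonneg a a) (neg_nonneg.2 p), sq_nonneg t, sq_nonneg t', sq_nonneg (t - t')]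
      · rw [← hc'] at q
        rw [b, q, abs_le]
        have p0 : 0 ≤ t' - 1 := by linarith
        have q0 : 0 ≤ 1 - t := by linarith
        constructor <;> nlinarith [mul_nonneg a q0, mul_nonneg (mul_nonneg a q0) p0, mul_nonneg q0 p0, mul_nonneg (mul_nonneg q0 q0) p0, sq_nonneg (t' - 1), sq_nonneg (1 - t)]
      · rw [← hc'] at q
        rw [b, q]
        simp
        positivity
  have e4 : c' ^ 2 * (3 - 2 * c') - c ^ 2 * (3 - 2 * c) - 6 * c * (1 - c) * (t' - t)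
      = (c' - c) ^ 2 * (3 - 4 * c - 2 * c') - 6 * (c * (1 - c) * ((t' - t) - (c' - c))) := by ring
  rw [e4]
  have e5 : |(c' - c) ^ 2 * (3 - 4 * c - 2 * c')| ≤ 3 * (t' - t) ^ 2 := by
    rw [abs_mul, abs_of_nonneg (sq_nonneg _)]
    have : |3 - 4 * c - 2 * c'| ≤ 3 := by
      rw [abs_le]; constructor <;> linarith
    calc (c' - c) ^ 2 * |3 - 4 * c - 2 * c'| ≤ (t' - t) ^ 2 * 3 :=
          mul_le_mul e2 this (abs_nonneg _) (sq_nonneg _)
      _ = 3 * (t' - t) ^ 2 := by ring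
  calc |(c' - c) ^ 2 * (3 - 4 * c - 2 * c') - 6 * (c * (1 - c) * ((t' - t) - (c' - c)))|
      ≤ |(c' - c) ^ 2 * (3 - 4 * c - 2 * c')| + |6 * (c * (1 - c) * ((t' - t) - (c' - c)))| :=
        abs_sub _ _
    _ = |(c' - c) ^ 2 * (3 - 4 * c - 2 * c')| + 6 * |c * (1 - c) * ((t' - t) - (c' - c))| := by
        rw [abs_mul (6 : ℝ), abs_of_nonneg (by norm_num : (0 : ℝ) ≤ 6)]
    _ ≤ 9 * (t' - t) ^ 2 := by linarith

/-- second order expansions -/
structure SO (f g₁ g₂ : Pt → ℝ) (B : ℝ) : Prop where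
  one : 1 ≤ B
  bf : ∀ y, |f y| ≤ B
  bg : ∀ y, |g₁ y| ≤ B
  bg' : ∀ y, |g₂ y| ≤ B
  so : ∀ y y' : Pt, |f y' - f y - (g₁ y * (y'.1 - y.1) + g₂ y * (y'.2 - y.2))| ≤ B * ‖y' - y‖ ^ 2

theorem fst_le (y y' : Pt) : |y'.1 - y.1| ≤ ‖y' - y‖ := by
  have := norm_fst_le (y' - y)
  simpa using this

theorem snd_le (y y' : Pt) : |y'.2 - y.2| ≤ ‖y' - y‖ := by
  have := norm_snd_le (y' - y)
  simpa using this

theorem SO.lin {f g₁ g₂ : Pt → ℝ} {B : ℝ} (h : SO f g₁ g₂ B) (y y' : Pt) :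
    |g₁ y * (y'.1 - y.1) + g₂ y * (y'.2 - y.2)| ≤ 2 * B * ‖y' - y‖ := by
  have hB : 0 ≤ B := by linarith [h.one]
  calc |g₁ y * (y'.1 - y.1) + g₂ y * (y'.2 - y.2)|
      ≤ |g₁ y * (y'.1 - y.1)| + |g₂ y * (y'.2 - y.2)| := abs_add_le _ _
    _ = |g₁ y| * |y'.1 - y.1| + |g₂ y| * |y'.2 - y.2| := by rw [abs_mul, abs_mul]
    _ ≤ B * ‖y' - y‖ + B * ‖y' - y‖ := by
        apply add_le_add
        · exact mul_le_mul (h.bg y) (fst_le y y') (abs_nonneg _) hB
        · exact mul_le_mul (h.bg' y) (snd_le y y') (abs_nonneg _) hB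
    _ = 2 * B * ‖y' - y‖ := by ring

theorem SO.lip {f g₁ g₂ : Pt → ℝ} {B : ℝ} (h : SO f g₁ g₂ B) (y y' : Pt) :
    |f y' - f y| ≤ 3 * B * ‖y' - y‖ := by
  have hB : 0 ≤ B := by linarith [h.one]
  rcases le_total ‖y' - y‖ 1 with h1 | h1
  · have a := h.lin y y'
    have b := h.so y y'
    have : ‖y' - y‖ ^ 2 ≤ ‖y' - y‖ := by
      have := mul_le_mul_of_nonneg_left h1 (norm_nonneg (y' - y))
      calc ‖y' - y‖ ^ 2 = ‖y' - y‖ * ‖y' - y‖ := by ring
        _ ≤ _ := by linarith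
    have c : B * ‖y' - y‖ ^ 2 ≤ B * ‖y' - y‖ := mul_le_mul_of_nonneg_left this hB
    have d : f y' - f y = (f y' - f y - (g₁ y * (y'.1 - y.1) + g₂ y * (y'.2 - y.2))) +
      (g₁ y * (y'.1 - y.1) + g₂ y * (y'.2 - y.2)) := by ring
    rw [d]
    refine (abs_add_le _ _).trans ?_
    nlinarith
  · have a := h.bf y
    have b := h.bf y'
    have c : |f y' - f y| ≤ |f y'| + |f y| := abs_sub _ _
    have d : B * 1 ≤ B * ‖y' - y‖ := mul_le_mul_of_nonneg_left h1 hB
    nlinarith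

theorem SO.mul {f g₁ g₂ f' g₁' g₂' : Pt → ℝ} {B B' : ℝ} (h : SO f g₁ g₂ B) (h' : SO f' g₁' g₂' B') :
    SO (fun y => f y * f' y) (fun y => g₁ y * f' y + f y * g₁' y) (fun y => g₂ y * f' y + f y * g₂' y)
      (8 * (B * B')) := by
  have hB : 0 ≤ B := by linarith [h.one]
  have hB' : 0 ≤ B' := by linarith [h'.one]
  have hBB : 1 ≤ B * B' := by nlinarith [h.one, h'.one]
  have key : ∀ u v u' v' : ℝ, |u| ≤ B → |v| ≤ B' → |u'| ≤ B → |v'| ≤ B' → |u * v + u' * v'| ≤ 8 * (B * B') := by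
    intro u v u' v' a b c d
    have e1 : |u * v| ≤ B * B' := by rw [abs_mul]; exact mul_le_mul a b (abs_nonneg _) hB
    have e2 : |u' * v'| ≤ B * B' := by rw [abs_mul]; exact mul_le_mul c d (abs_nonneg _) hB
    refine (abs_add_le _ _).trans ?_
    linarith
  refine ⟨by linarith, ?_, ?_, ?_, ?_⟩
  · intro y
    have := key (f y) (f' y) 0 0 (h.bf y) (h'.bf y) (by simpa using hB) (by simpa using hB')
    simpa using this
  · intro y
    exact key _ _ _ _ (h.bg y) (h'.bf y) (h.bf y) (h'.bg y)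
  · intro y
    exact key _ _ _ _ (h.bg' y) (h'.bf y) (h.bf y) (h'.bg' y)
  · intro y y'
    have e : f y' * f' y' - f y * f' y - ((g₁ y * f' y + f y * g₁' y) * (y'.1 - y.1) +
        (g₂ y * f' y + f y * g₂' y) * (y'.2 - y.2)) =
        (f y' - f y - (g₁ y * (y'.1 - y.1) + g₂ y * (y'.2 - y.2))) * f' y' +
        ((g₁ y * (y'.1 - y.1) + g₂ y * (y'.2 - y.2)) * (f' y' - f' y) +
        f y * (f' y' - f' y - (g₁' y * (y'.1 - y.1) + g₂' y * (y'.2 - y.2)))) := by ring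
    try simp only
    rw [e]
    have n0 := norm_nonneg (y' - y)
    have a1 : |(f y' - f y - (g₁ y * (y'.1 - y.1) + g₂ y * (y'.2 - y.2))) * f' y'| ≤
        (B * ‖y' - y‖ ^ 2) * B' := by
      rw [abs_mul]
      exact mul_le_mul (h.so y y') (h'.bf y') (abs_nonneg _) (by positivity)
    have a2 : |(g₁ y * (y'.1 - y.1) + g₂ y * (y'.2 - y.2)) * (f' y' - f' y)| ≤
        (2 * B * ‖y' - y‖) * (3 * B' * ‖y' - y‖) := by
      rw [abs_mul]
      exact mul_le_mul (h.lin y y') (h'.lip y y') (abs_nonneg _) (by positivity)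
    have a3 : |f y * (f' y' - f' y - (g₁' y * (y'.1 - y.1) + g₂' y * (y'.2 - y.2)))| ≤
        B * (B' * ‖y' - y‖ ^ 2) := by
      rw [abs_mul]
      exact mul_le_mul (h.bf y) (h'.so y y') (abs_nonneg _) hB
    refine (abs_add_le _ _).trans ?_
    have a4 := abs_add_le ((g₁ y * (y'.1 - y.1) + g₂ y * (y'.2 - y.2)) * (f' y' - f' y))
      (f y * (f' y' - f' y - (g₁' y * (y'.1 - y.1) + g₂' y * (y'.2 - y.2))))
    calc _ ≤ (B * ‖y' - y‖ ^ 2) * B' + ((2 * B * ‖y' - y‖) * (3 * B' * ‖y' - y‖) +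
        B * (B' * ‖y' - y‖ ^ 2)) := by linarith
      _ = 8 * (B * B') * ‖y' - y‖ ^ 2 := by ring

theorem SO_ramp (a b d : ℝ) (hb : |b| ≤ 1) (hd : |d| ≤ 1) :
    SO (fun y => ramp (a + b * y.1 + d * y.2)) (fun y => rampD (a + b * y.1 + d * y.2) * b)
      (fun y => rampD (a + b * y.1 + d * y.2) * d) 36 := by
  refine ⟨by norm_num, ?_, ?_, ?_, ?_⟩
  · intro y
    exact (ramp_bd _).trans (by norm_num)
  · intro y
    try simp only
    rw [abs_mul]
    have := mul_le_mul (rampD_bd (a + b * y.1 + d * y.2)) hb (abs_nonneg _) (by norm_num)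
    linarith
  · intro y
    try simp only
    rw [abs_mul]
    have := mul_le_mul (rampD_bd (a + b * y.1 + d * y.2)) hd (abs_nonneg _) (by norm_num)
    linarith
  · intro y y'
    have h := ramp_second (a + b * y.1 + d * y.2) (a + b * y'.1 + d * y'.2)
    have e : a + b * y'.1 + d * y'.2 - (a + b * y.1 + d * y.2) = b * (y'.1 - y.1) + d * (y'.2 - y.2) := by
      ring
    rw [e] at h
    have e' : rampD (a + b * y.1 + d * y.2) * b * (y'.1 - y.1) +
        rampD (a + b * y.1 + d * y.2) * d * (y'.2 - y.2) =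
        rampD (a + b * y.1 + d * y.2) * (b * (y'.1 - y.1) + d * (y'.2 - y.2)) := by ring
    try simp only
    rw [e']
    refine h.trans ?_
    have k : |b * (y'.1 - y.1) + d * (y'.2 - y.2)| ≤ 2 * ‖y' - y‖ := by
      refine (abs_add_le _ _).trans ?_
      rw [abs_mul, abs_mul]
      have k1 := mul_le_mul hb (fst_le y y') (abs_nonneg _) (by norm_num)
      have k2 := mul_le_mul hd (snd_le y y') (abs_nonneg _) (by norm_num)
      linarith
    have k' : (b * (y'.1 - y.1) + d * (y'.2 - y.2)) ^ 2 ≤ (2 * ‖y' - y‖) ^ 2 := by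
      rw [sq_le_sq, abs_of_nonneg (by positivity : 0 ≤ 2 * ‖y' - y‖)]
      exact k
    nlinarith

theorem quad_hasDeriv (F : ℝ → ℝ) (x G B : ℝ) (h : ∀ x', |F x' - F x - G * (x' - x)| ≤ B * |x' - x| ^ 2) :
    HasDerivAt F G x := by
  rw [hasDerivAt_iff_isLittleO]
  have h1 : (fun x' => F x' - F x - (x' - x) • G) =O[𝓝 x] fun x' => |x' - x| ^ 2 := by
    apply Asymptotics.IsBigO.of_bound B
    filter_upwards with x'
    rw [Real.norm_eq_abs, Real.norm_eq_abs, abs_of_nonneg (by positivity : 0 ≤ |x' - x| ^ 2), smul_eq_mul,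
      mul_comm (x' - x) G]
    exact h x'
  refine h1.trans_isLittleO ?_
  have h2 : (fun x' : ℝ => |x' - x| ^ 2) = fun x' => (x' - x) * (x' - x) := by
    funext x'
    rw [sq_abs]
    ring
  rw [h2]
  have h3 : (fun x' : ℝ => x' - x) =o[𝓝 x] fun _ => (1 : ℝ) := by
    rw [Asymptotics.isLittleO_one_iff]
    have : Continuous fun x' : ℝ => x' - x := by fun_prop
    simpa using this.tendsto x
  simpa using h3.mul_isBigO (Asymptotics.isBigO_refl (fun x' : ℝ => x' - x) (𝓝 x))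

theorem SO.d1 {f g₁ g₂ : Pt → ℝ} {B : ℝ} (h : SO f g₁ g₂ B) (y : Pt) : H706.d1 f y = g₁ y := by
  unfold H706.d1
  apply HasDerivAt.deriv
  apply quad_hasDeriv _ _ _ B
  intro x'
  have := h.so y (x', y.2)
  simpa [Prod.norm_def] using this

theorem SO.d2 {f g₁ g₂ : Pt → ℝ} {B : ℝ} (h : SO f g₁ g₂ B) (y : Pt) : H706.d2 f y = g₂ y := by
  unfold H706.d2
  apply HasDerivAt.deriv
  apply quad_hasDeriv _ _ _ B
  intro x'
  have := h.so y (y.1, x')
  simpa [Prod.norm_def] using this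

/-- TARGET -/
theorem Psi_second {Z c : ℝ} (hZ : 4 ≤ Z) (hc : 0 ≤ c) (hc1 : c ≤ 1) : ∃ C : ℝ, 1 ≤ C ∧
    ∀ y y' : Pt, |Psi Z c y' - Psi Z c y - (d1 (Psi Z c) y * (y'.1 - y.1)
      + d2 (Psi Z c) y * (y'.2 - y.2))| ≤ C * ‖y' - y‖ ^ 2 := by
  have hz : |(-(1 / Z))| ≤ 1 := by
    rw [abs_neg, abs_of_nonneg (by positivity), div_le_one (by linarith)]
    linarith
  have hca : |c| ≤ 1 := by rw [abs_of_nonneg hc]; exact hc1
  have A := ((((SO_ramp (-1) 1 0 (by simp) (by simp)).mul (SO_ramp 2 (-(1 / Z)) 0 hz (by simp))).mul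
    (SO_ramp 2 c (-1) hca (by simp))).mul (SO_ramp 2 c 1 hca (by simp)))
  have e : (fun y : Pt => ramp (-1 + 1 * y.1 + 0 * y.2) * ramp (2 + -(1 / Z) * y.1 + 0 * y.2) *
      ramp (2 + c * y.1 + -1 * y.2) * ramp (2 + c * y.1 + 1 * y.2)) = Psi Z c := by
    funext y
    unfold Psi
    have i1 : -1 + 1 * y.1 + 0 * y.2 = y.1 - 1 := by ring
    have i2 : 2 + -(1 / Z) * y.1 + 0 * y.2 = 2 - y.1 / Z := by ring
    have i3 : 2 + c * y.1 + -1 * y.2 = 2 + c * y.1 - y.2 := by ring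
    have i4 : 2 + c * y.1 + 1 * y.2 = 2 + c * y.1 + y.2 := by ring
    rw [i1, i2, i3, i4]
  rw [e] at A
  refine ⟨_, A.one, ?_⟩
  intro y y'
  rw [A.d1, A.d2]
  exact A.so y y'

end H706.JPS2

namespace H706

alias Psi_second := JPS2.Psi_second

end H706
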