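import Pool.Agent.Helper706_SQG.Defs2
import Pool.Agent.Helper706_SQG.H1
import Pool.Agent.Helper706_SQG.H2
import Pool.Agent.Helper706_SQG.H3

/-!
JOB T2 (MP_96bed6_an, helper706).  The touching lemma for barriers with a second order bound, for all
`0 < α < 1`.

PROOF.  Exactly as for the version with a Lipschitz bound and `α < 1/2` (theorem `touch`; its complete
Lean proof is the result of job 1779, `SELECT result FROM jobs WHERE id=1779`; adapt it). The only change: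
`|Φ x₀ - H_s Φ x₀| = |∫ G_s(y) (Φ(x₀+y) - Φ x₀ - g·y) dy| ≤ min (6) (L₂ ∫ |y|² G_s) = min 6 (4 L₂ s)`
(`∫ y_j G_s = 0`, `‖y‖² ≤ |y|²`), so `s ↦ (Φ x₀ - H_s Φ x₀) s^{-1-α}` is integrable for every `α < 1`, with integral
at most `C_α L₂^α` (split at `s = 1/L₂`). The bounds for the Riesz transforms are unchanged (they use only
the Lipschitz bound `Lp`, and `∫_0^{r²} s^{-1} H_{2s} f ≤ r^{2α} ∫_0^∞ s^{-1-α} H_{2s} f`).
-/

set_option autoImplicit false
open Set Filter Topology MeasureTheory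
open scoped ComplexConjugate ContDiff

namespace H706.JT2

namespace touch2_aux

theorem len_nonneg (k : Fr) : 0 ≤ len k := Real.sqrt_nonneg _

theorem norm_ex (k : Fr) (x : Pt) : ‖ex k x‖ = 1 := by
  unfold ex
  exact Complex.norm_exp_ofReal_mul_I _

theorem norm_term_le (z : Fr → ℂ) (k : Fr) (x : Pt) : ‖z k * ex k x‖ ≤ (1 + len k) ^ 3 * ‖z k‖ := by
  rw [norm_mul, norm_ex, mul_one]
  have h1 : (1 : ℝ) ≤ (1 + len k) ^ 3 := one_le_pow₀ (by linarith [len_nonneg k])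
  nlinarith [norm_nonneg (z k)]

theorem theta_cont {z : Fr → ℂ} {θ : Pt → ℝ}
    (hz : Summable fun k => (1 + len k) ^ 3 * ‖z k‖) (hθ : ∀ x, (θ x : ℂ) = ∑' k, z k * ex k x) :
    Continuous θ := by
  have h1 : Continuous (fun x => ∑' k, z k * ex k x) := by
    apply continuous_tsum (u := fun k => (1 + len k) ^ 3 * ‖z k‖) _ hz
      (fun k x => norm_term_le z k x)
    intro k
    unfold ex
    fun_prop
  have h2 : θ = fun x => (∑' k, z k * ex k x).re := by
    ext x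
    rw [← hθ x, Complex.ofReal_re]
  rw [h2]
  exact Complex.continuous_re.comp h1

theorem theta_bdd {z : Fr → ℂ} {θ : Pt → ℝ}
    (hz : Summable fun k => (1 + len k) ^ 3 * ‖z k‖) (hθ : ∀ x, (θ x : ℂ) = ∑' k, z k * ex k x)
    (x : Pt) : |θ x| ≤ ∑' k, (1 + len k) ^ 3 * ‖z k‖ := by
  have h1 : |θ x| = ‖(θ x : ℂ)‖ := by simp
  rw [h1, hθ x]
  exact tsum_of_norm_bounded hz.hasSum (fun k => norm_term_le z k x)

theorem G_meas : Measurable (Function.uncurry G) := by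
  unfold G Function.uncurry
  fun_prop

theorem G_nonneg {s : ℝ} (hs : 0 < s) (y : Pt) : 0 ≤ G s y :=
  ((gauss_facts hs).2.2.2.2.2.2.2.2.2 y).1

theorem int_Gg {s : ℝ} (hs : 0 < s) {g : Pt → ℝ} (hg : Continuous g) {B : ℝ}
    (hB : ∀ x, |g x| ≤ B) (x₀ : Pt) : Integrable (fun y => G s y * g (x₀ + y)) := by
  apply (gauss_facts hs).1.mul_bdd (c := B)
  · exact (hg.comp (by fun_prop)).aestronglyMeasurable
  · exact Filter.Eventually.of_forall (fun y => hB _)

theorem Hs_meas {g : Pt → ℝ} (hg : Continuous g) (x₀ : Pt) :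
    StronglyMeasurable (fun s => Hs s g x₀) := by
  unfold Hs
  apply StronglyMeasurable.integral_prod_right
  apply Measurable.stronglyMeasurable
  have h1 : Measurable (fun p : ℝ × Pt => g (x₀ + p.2)) := by
    exact hg.measurable.comp (by fun_prop)
  exact G_meas.mul h1

/-- first moment bound -/
theorem G_norm {s : ℝ} (hs : 0 < s) (y : Pt) :
    ‖y‖ * G s y ≤ 12 * Real.sqrt s * G (2 * s) y := by
  have h := (gauss_facts hs).2.2.2.2.2.2.2.2.2 y
  have hn : ‖y‖ ≤ |y.1| + |y.2| := by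
    rw [Prod.norm_def, Real.norm_eq_abs, Real.norm_eq_abs]
    exact max_le (by linarith [abs_nonneg y.2]) (by linarith [abs_nonneg y.1])
  calc ‖y‖ * G s y ≤ (|y.1| + |y.2|) * G s y := mul_le_mul_of_nonneg_right hn h.1
    _ = |y.1| * G s y + |y.2| * G s y := by ring
    _ ≤ _ := by linarith [h.2.1, h.2.2]

theorem mean_zero {s : ℝ} (hs : 0 < s) :
    ∫ y : Pt, y.1 * G s y = 0 ∧ ∫ y : Pt, y.2 * G s y = 0 := by
  have hex : ∀ x : Pt, ex 0 x = 1 := by
    intro x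
    simp [ex]
  constructor
  · have h := (gauss_facts hs).2.2.2.2.2.1 0 0
    simp only [hex, mul_one] at h
    rw [integral_complex_ofReal] at h
    simpa using h
  · have h := (gauss_facts hs).2.2.2.2.2.2.1 0 0
    simp only [hex, mul_one] at h
    rw [integral_complex_ofReal] at h
    simpa using h

theorem u_bound {s : ℝ} (hs : 0 < s) {Φ : Pt → ℝ} {x₀ : Pt} {L₂ g₁ g₂ : ℝ} (hΦ : Continuous Φ)
    (hΦ3 : ∀ x, |Φ x| ≤ 3) (hL₂ : 1 ≤ L₂)
    (hL : ∀ x : Pt, |Φ x - Φ x₀ - (g₁ * (x.1 - x₀.1) + g₂ * (x.2 - x₀.2))| ≤ L₂ * ‖x - x₀‖ ^ 2) :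
    |Φ x₀ - Hs s Φ x₀| ≤ 6 ∧ |Φ x₀ - Hs s Φ x₀| ≤ 4 * L₂ * s := by
  have hG1 : ∫ y, G s y = 1 := (gauss_facts hs).2.1
  have hGi : Integrable (G s) := (gauss_facts hs).1
  have h0 : Φ x₀ - Hs s Φ x₀ = ∫ y, G s y * (Φ x₀ - Φ (x₀ + y)) := by
    unfold Hs
    have : Φ x₀ = ∫ y, G s y * Φ x₀ := by
      rw [integral_mul_const, hG1, one_mul]
    conv_lhs => rw [this]
    rw [← integral_sub (hGi.mul_const _) (int_Gg hs hΦ hΦ3 x₀)]
    congr 1
    ext y
    ring
  have hint0 : Integrable (fun y => G s y * (Φ x₀ - Φ (x₀ + y))) := by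
    have hc : Continuous (fun x => (Φ x₀ - Φ x)) := by fun_prop
    exact int_Gg hs hc (B := 6) (fun x => by
      have h1 := hΦ3 x₀
      have h2 := hΦ3 x
      rw [abs_le] at *
      constructor <;> linarith [h1.1, h1.2, h2.1, h2.2]) x₀
  have habs : |Φ x₀ - Hs s Φ x₀| ≤ ∫ y, G s y * |Φ x₀ - Φ (x₀ + y)| := by
    rw [h0]
    refine abs_integral_le_integral_abs.trans (le_of_eq ?_)
    congr 1
    ext y
    rw [abs_mul, abs_of_nonneg (G_nonneg hs y)]
  have hint : Integrable (fun y => G s y * |Φ x₀ - Φ (x₀ + y)|) := by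
    have hc : Continuous (fun x => |Φ x₀ - Φ x|) := by fun_prop
    exact int_Gg hs hc (B := 6) (fun x => by
      rw [abs_abs]
      have h1 := hΦ3 x₀
      have h2 := hΦ3 x
      rw [abs_le] at *
      constructor <;> linarith [h1.1, h1.2, h2.1, h2.2]) x₀
  constructor
  · refine habs.trans ?_
    have : ∫ y, G s y * 6 = 6 := by rw [integral_mul_const, hG1, one_mul]
    rw [← this]
    apply integral_mono hint (hGi.mul_const _)
    intro y
    apply mul_le_mul_of_nonneg_left _ (G_nonneg hs y)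
    have h1 := hΦ3 x₀
    have h2 := hΦ3 (x₀ + y)
    rw [abs_le] at *
    constructor <;> linarith [h1.1, h1.2, h2.1, h2.2]
  · have hy1 : Integrable (fun y : Pt => y.1 * G s y) := by
      refine ((gauss_facts hs).2.2.1).mono' (continuous_fst.aestronglyMeasurable.mul
        hGi.aestronglyMeasurable) (Filter.Eventually.of_forall fun y => ?_)
      rw [norm_mul, Real.norm_eq_abs, Real.norm_eq_abs, abs_of_nonneg (G_nonneg hs y)]
    have hy2 : Integrable (fun y : Pt => y.2 * G s y) := by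
      refine ((gauss_facts hs).2.2.2.1).mono' (continuous_snd.aestronglyMeasurable.mul
        hGi.aestronglyMeasurable) (Filter.Eventually.of_forall fun y => ?_)
      rw [norm_mul, Real.norm_eq_abs, Real.norm_eq_abs, abs_of_nonneg (G_nonneg hs y)]
    have hlin : ∫ y : Pt, (g₁ * (y.1 * G s y) + g₂ * (y.2 * G s y)) = 0 := by
      rw [integral_add (hy1.const_mul _) (hy2.const_mul _), integral_const_mul,
        integral_const_mul, (mean_zero hs).1, (mean_zero hs).2]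
      ring
    have hl : Integrable (fun y : Pt => g₁ * (y.1 * G s y) + g₂ * (y.2 * G s y)) :=
      (hy1.const_mul _).add (hy2.const_mul _)
    have h1 : Φ x₀ - Hs s Φ x₀ = ∫ y : Pt, (G s y * (Φ x₀ - Φ (x₀ + y)) +
        (g₁ * (y.1 * G s y) + g₂ * (y.2 * G s y))) := by
      rw [integral_add hint0 hl, hlin, add_zero, h0]
    have hq : Integrable (fun y : Pt => L₂ * ((y.1 ^ 2 + y.2 ^ 2) * G s y)) :=
      ((gauss_facts hs).2.2.2.2.2.2.2.1).const_mul _
    have hq2 : ∫ y : Pt, L₂ * ((y.1 ^ 2 + y.2 ^ 2) * G s y) = 4 * L₂ * s := by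
      rw [integral_const_mul, (gauss_facts hs).2.2.2.2.2.2.2.2.1]
      ring
    rw [h1, ← hq2]
    refine abs_integral_le_integral_abs.trans ?_
    refine integral_mono (hint0.add hl).abs hq ?_
    intro y
    have h2 := hL (x₀ + y)
    have e1 : (x₀ + y).1 - x₀.1 = y.1 := by simp
    have e2 : (x₀ + y).2 - x₀.2 = y.2 := by simp
    rw [e1, e2, add_sub_cancel_left] at h2
    have hn : ‖y‖ ^ 2 ≤ y.1 ^ 2 + y.2 ^ 2 := by
      rw [Prod.norm_def, Real.norm_eq_abs, Real.norm_eq_abs]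
      rcases le_total |y.1| |y.2| with h | h
      · rw [max_eq_right h, sq_abs]
        nlinarith [sq_nonneg y.1]
      · rw [max_eq_left h, sq_abs]
        nlinarith [sq_nonneg y.2]
    have h3 : |G s y * (Φ x₀ - Φ (x₀ + y)) + (g₁ * (y.1 * G s y) + g₂ * (y.2 * G s y))| =
        G s y * |Φ (x₀ + y) - Φ x₀ - (g₁ * y.1 + g₂ * y.2)| := by
      have e3 : G s y * (Φ x₀ - Φ (x₀ + y)) + (g₁ * (y.1 * G s y) + g₂ * (y.2 * G s y)) =
          -(G s y * (Φ (x₀ + y) - Φ x₀ - (g₁ * y.1 + g₂ * y.2))) := by ring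
      rw [e3, abs_neg, abs_mul, abs_of_nonneg (G_nonneg hs y)]
    change |G s y * (Φ x₀ - Φ (x₀ + y)) + (g₁ * (y.1 * G s y) + g₂ * (y.2 * G s y))| ≤
      L₂ * ((y.1 ^ 2 + y.2 ^ 2) * G s y)
    rw [h3]
    calc G s y * |Φ (x₀ + y) - Φ x₀ - (g₁ * y.1 + g₂ * y.2)| ≤ G s y * (L₂ * ‖y‖ ^ 2) :=
          mul_le_mul_of_nonneg_left h2 (G_nonneg hs y)
      _ ≤ G s y * (L₂ * (y.1 ^ 2 + y.2 ^ 2)) := by
          refine mul_le_mul_of_nonneg_left ?_ (G_nonneg hs y)
          exact mul_le_mul_of_nonneg_left hn (by linarith)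
      _ = L₂ * ((y.1 ^ 2 + y.2 ^ 2) * G s y) := by ring

theorem u_int {α : ℝ} (hα : 0 < α) (hα1 : α < 1) {u : ℝ → ℝ}
    (hu : AEStronglyMeasurable u (volume.restrict (Ioi 0))) {Lp : ℝ} (hLp : 1 ≤ Lp)
    (hA : ∀ s, 0 < s → |u s| ≤ 6) (hB : ∀ s, 0 < s → |u s| ≤ 4 * Lp * s) :
    IntegrableOn (fun s => u s * s ^ (-1 - α)) (Ioi 0) ∧
      ∫ s in Ioi (0 : ℝ), u s * s ^ (-1 - α) ≤ (4 / (1 - α) + 6 / α) * Lp ^ α := by
  have hLp0 : 0 < Lp := by linarith
  set s₀ : ℝ := Lp ^ (-1 : ℝ) with hs₀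
  have hs₀pos : 0 < s₀ := Real.rpow_pos_of_pos hLp0 _
  have hmeas : AEStronglyMeasurable (fun s => u s * s ^ (-1 - α)) (volume.restrict (Ioi 0)) := by
    apply hu.mul
    exact (Measurable.pow_const measurable_id _).aestronglyMeasurable
  have hsub1 : Ioc 0 s₀ ⊆ Ioi (0 : ℝ) := fun s hs => hs.1
  have hsub2 : Ioi s₀ ⊆ Ioi (0 : ℝ) := fun s hs => lt_trans hs₀pos hs
  have hm1 := hmeas.mono_set hsub1
  have hm2 := hmeas.mono_set hsub2
  have hd1 : IntegrableOn (fun s : ℝ => 4 * Lp * s ^ (-α)) (Ioc 0 s₀) := by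
    have := (intervalIntegral.intervalIntegrable_rpow' (a := 0) (b := s₀)
      (r := -α) (by linarith))
    rw [intervalIntegrable_iff_integrableOn_Ioc_of_le hs₀pos.le] at this
    exact this.const_mul _
  have hd2 : IntegrableOn (fun s : ℝ => 6 * s ^ (-1 - α)) (Ioi s₀) :=
    (integrableOn_Ioi_rpow_of_lt (by linarith) hs₀pos).const_mul _
  have hb1 : ∀ s ∈ Ioc 0 s₀, ‖u s * s ^ (-1 - α)‖ ≤ 4 * Lp * s ^ (-α) := by
    intro s hs
    have hs0 : 0 < s := hs.1
    rw [norm_mul, Real.norm_eq_abs, Real.norm_eq_abs, abs_of_nonneg (Real.rpow_nonneg hs0.le _)]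
    have h1 : s * s ^ (-1 - α) = s ^ (-α) := by
      nth_rewrite 1 [← Real.rpow_one s]
      rw [← Real.rpow_add hs0]
      congr 1
      ring
    calc |u s| * s ^ (-1 - α) ≤ (4 * Lp * s) * s ^ (-1 - α) :=
          mul_le_mul_of_nonneg_right (hB s hs0) (Real.rpow_nonneg hs0.le _)
      _ = 4 * Lp * (s * s ^ (-1 - α)) := by ring
      _ = _ := by rw [h1]
  have hb2 : ∀ s ∈ Ioi s₀, ‖u s * s ^ (-1 - α)‖ ≤ 6 * s ^ (-1 - α) := by
    intro s hs
    have hs0 : 0 < s := hsub2 hs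
    rw [norm_mul, Real.norm_eq_abs, Real.norm_eq_abs, abs_of_nonneg (Real.rpow_nonneg hs0.le _)]
    exact mul_le_mul_of_nonneg_right (hA s hs0) (Real.rpow_nonneg hs0.le _)
  have hi1 : IntegrableOn (fun s => u s * s ^ (-1 - α)) (Ioc 0 s₀) := by
    apply Integrable.mono' hd1 hm1
    exact (ae_restrict_iff' measurableSet_Ioc).mpr (Filter.Eventually.of_forall hb1)
  have hi2 : IntegrableOn (fun s => u s * s ^ (-1 - α)) (Ioi s₀) := by
    apply Integrable.mono' hd2 hm2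
    exact (ae_restrict_iff' measurableSet_Ioi).mpr (Filter.Eventually.of_forall hb2)
  have hun : Ioc 0 s₀ ∪ Ioi s₀ = Ioi (0 : ℝ) := Ioc_union_Ioi_eq_Ioi hs₀pos.le
  constructor
  · rw [← hun]
    exact hi1.union hi2
  · rw [← hun, setIntegral_union (by
      rw [Set.disjoint_left]; intro s h1 h2; exact absurd h2 (not_lt.mpr h1.2))
      measurableSet_Ioi hi1 hi2]
    have e1 : ∫ s in Ioc 0 s₀, u s * s ^ (-1 - α) ≤ ∫ s in Ioc 0 s₀, 4 * Lp * s ^ (-α) := by
      apply setIntegral_mono_on hi1 hd1 measurableSet_Ioc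
      intro s hs
      exact (le_abs_self _).trans (hb1 s hs)
    have e2 : ∫ s in Ioi s₀, u s * s ^ (-1 - α) ≤ ∫ s in Ioi s₀, 6 * s ^ (-1 - α) := by
      apply setIntegral_mono_on hi2 hd2 measurableSet_Ioi
      intro s hs
      exact (le_abs_self _).trans (hb2 s hs)
    have f1 : ∫ s in Ioc 0 s₀, 4 * Lp * s ^ (-α) = 4 / (1 - α) * Lp ^ α := by
      rw [integral_const_mul, ← intervalIntegral.integral_of_le hs₀pos.le,
        integral_rpow (Or.inl (by linarith))]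
      have h1 : (-α + 1) = 1 - α := by ring
      rw [h1, Real.zero_rpow (by linarith), sub_zero, hs₀, ← Real.rpow_mul hLp0.le]
      have h2 : Lp ^ α = Lp * Lp ^ (-1 * (1 - α)) := by
        nth_rewrite 2 [← Real.rpow_one Lp]
        rw [← Real.rpow_add hLp0]
        congr 1
        ring
      rw [h2]
      ring
    have f2 : ∫ s in Ioi s₀, 6 * s ^ (-1 - α) = 6 / α * Lp ^ α := by
      rw [integral_const_mul, integral_Ioi_rpow_of_lt (by linarith) hs₀pos, hs₀,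
        ← Real.rpow_mul hLp0.le]
      have h1 : (-1 - α + 1) = -α := by ring
      rw [h1, show (-1 * -α : ℝ) = α by ring]
      field_simp
    rw [f1] at e1
    rw [f2] at e2
    linarith

/-- the estimate of a Riesz type integral -/
theorem riesz_est {α : ℝ} (hα : 0 < α) {F H : ℝ → ℝ} {Lp C₁ r : ℝ} (hLp : 1 ≤ Lp) (hC₁ : 0 ≤ C₁)
    (hF : IntegrableOn (fun s : ℝ => s ^ (-(1 / 2) : ℝ) * F s) (Ioi 0))
    (hH : IntegrableOn (fun s : ℝ => H s * s ^ (-1 - α)) (Ioi 0))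
    (hH0 : ∀ s, 0 < s → 0 ≤ H s)
    (h1 : ∀ s, 1 ≤ s → |F s| ≤ C₁ * Real.exp (-s / 2))
    (h2 : ∀ s, 0 < s → |F s| ≤ 3 * s ^ (-(1 / 2) : ℝ))
    (h3 : ∀ s, 0 < s → |F s| ≤ 2 * Lp + 3 * s ^ (-(1 / 2) : ℝ) * H (2 * s))
    (hr : r ∈ Ioc (0 : ℝ) 1) :
    |∫ s in Ioi (0 : ℝ), s ^ (-(1 / 2) : ℝ) * F s| ≤
      4 * r * Lp + 3 * r ^ (2 * α) * (2 ^ α * ∫ s in Ioi (0 : ℝ), H s * s ^ (-1 - α)) +
        6 * Real.log (1 / r) + 2 * C₁ := by
  obtain ⟨hr0, hr1⟩ := hr
  have hr2 : 0 < r ^ 2 := by positivity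
  have hr21 : r ^ 2 ≤ 1 := pow_le_one₀ hr0.le hr1
  set g : ℝ → ℝ := fun s => s ^ (-(1 / 2) : ℝ) * F s with hg
  have hsA : Ioc 0 (r ^ 2) ⊆ Ioi (0 : ℝ) := fun s hs => hs.1
  have hsB : Ioc (r ^ 2) 1 ⊆ Ioi (0 : ℝ) := fun s hs => lt_trans hr2 hs.1
  have hsC : Ioi (1 : ℝ) ⊆ Ioi (0 : ℝ) := fun s hs => lt_trans one_pos (show (1:ℝ) < s from hs)
  have hgn : IntegrableOn (fun s => |g s|) (Ioi 0) := hF.abs
  have habs : |∫ s in Ioi (0 : ℝ), g s| ≤ ∫ s in Ioi (0 : ℝ), |g s| :=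
    abs_integral_le_integral_abs
  have hunion : ∫ s in Ioi (0 : ℝ), |g s| = (∫ s in Ioc 0 (r ^ 2), |g s|) +
      ((∫ s in Ioc (r ^ 2) 1, |g s|) + ∫ s in Ioi (1 : ℝ), |g s|) := by
    rw [← Ioc_union_Ioi_eq_Ioi hr2.le, setIntegral_union (by
      rw [Set.disjoint_left]; intro s h1 h2; exact absurd h2 (not_lt.mpr h1.2))
      measurableSet_Ioi (hgn.mono_set hsA) (hgn.mono_set (fun s hs => lt_trans hr2 hs)),
      ← Ioc_union_Ioi_eq_Ioi hr21, setIntegral_union (by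
      rw [Set.disjoint_left]; intro s h1 h2; exact absurd h2 (not_lt.mpr h1.2))
      measurableSet_Ioi (hgn.mono_set hsB) (hgn.mono_set hsC)]
  have habsg : ∀ s, 0 < s → |g s| = s ^ (-(1 / 2) : ℝ) * |F s| := by
    intro s hs
    rw [hg]
    simp only
    rw [abs_mul, abs_of_nonneg (Real.rpow_nonneg hs.le _)]
  -- part C
  have hC : ∫ s in Ioi (1 : ℝ), |g s| ≤ 2 * C₁ := by
    have hi : IntegrableOn (fun s : ℝ => C₁ * Real.exp (-(1 / 2) * s)) (Ioi 1) :=
      (integrableOn_exp_mul_Ioi (by norm_num) 1).const_mul _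
    have hle : ∫ s in Ioi (1 : ℝ), |g s| ≤ ∫ s in Ioi (1 : ℝ), C₁ * Real.exp (-(1 / 2) * s) := by
      apply setIntegral_mono_on (hgn.mono_set hsC) hi measurableSet_Ioi
      intro s hs
      have hs1 : (1 : ℝ) < s := hs
      have hs0 : (0 : ℝ) < s := by linarith
      rw [habsg s hs0]
      have ha : s ^ (-(1 / 2) : ℝ) ≤ 1 :=
        Real.rpow_le_one_of_one_le_of_nonpos hs1.le (by norm_num)
      have hb := h1 s hs1.le
      have hc : Real.exp (-s / 2) = Real.exp (-(1 / 2) * s) := by congr 1; ring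
      rw [hc] at hb
      calc s ^ (-(1 / 2) : ℝ) * |F s| ≤ 1 * |F s| :=
            mul_le_mul_of_nonneg_right ha (abs_nonneg _)
        _ ≤ _ := by linarith
    refine hle.trans ?_
    rw [integral_const_mul, integral_exp_mul_Ioi (by norm_num) 1]
    have : Real.exp (-(1 / 2) * 1) ≤ 1 := Real.exp_le_one_iff.mpr (by norm_num)
    have h5 : -Real.exp (-(1 / 2) * 1) / (-(1 / 2)) = 2 * Real.exp (-(1 / 2) * 1) := by ring
    rw [h5]
    nlinarith
  -- part B
  have hB : ∫ s in Ioc (r ^ 2) 1, |g s| ≤ 6 * Real.log (1 / r) := by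
    have hi : IntegrableOn (fun s : ℝ => 3 * s⁻¹) (Ioc (r ^ 2) 1) := by
      have : IntervalIntegrable (fun s : ℝ => s⁻¹) volume (r ^ 2) 1 := by
        apply intervalIntegral.intervalIntegrable_inv
        · intro x hx
          rw [uIcc_of_le hr21] at hx
          exact (lt_of_lt_of_le hr2 hx.1).ne'
        · exact continuousOn_id
      rw [intervalIntegrable_iff_integrableOn_Ioc_of_le hr21] at this
      exact this.const_mul _
    have hle : ∫ s in Ioc (r ^ 2) 1, |g s| ≤ ∫ s in Ioc (r ^ 2) 1, 3 * s⁻¹ := by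
      apply setIntegral_mono_on (hgn.mono_set hsB) hi measurableSet_Ioc
      intro s hs
      have hs0 : (0 : ℝ) < s := lt_trans hr2 hs.1
      rw [habsg s hs0]
      calc s ^ (-(1 / 2) : ℝ) * |F s| ≤ s ^ (-(1 / 2) : ℝ) * (3 * s ^ (-(1 / 2) : ℝ)) :=
            mul_le_mul_of_nonneg_left (h2 s hs0) (Real.rpow_nonneg hs0.le _)
        _ = 3 * (s ^ (-(1 / 2) : ℝ) * s ^ (-(1 / 2) : ℝ)) := by ring
        _ = 3 * s⁻¹ := by
          rw [← Real.rpow_add hs0, ← Real.rpow_neg_one]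
          norm_num
    refine hle.trans (le_of_eq ?_)
    rw [integral_const_mul, ← intervalIntegral.integral_of_le hr21,
      integral_inv_of_pos hr2 one_pos]
    rw [show (1 : ℝ) / r ^ 2 = (1 / r) ^ 2 by rw [div_pow, one_pow], Real.log_pow]
    push_cast
    ring
  -- part A
  have hK : IntegrableOn (fun s : ℝ => H (2 * s) * s ^ (-1 - α)) (Ioi 0) ∧
      ∫ s in Ioi (0 : ℝ), H (2 * s) * s ^ (-1 - α) =
        2 ^ α * ∫ s in Ioi (0 : ℝ), H s * s ^ (-1 - α) := by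
    have e : ∀ s ∈ Ioi (0 : ℝ), H (2 * s) * s ^ (-1 - α) =
        2 ^ (1 + α) * (H (2 * s) * (2 * s) ^ (-1 - α)) := by
      intro s hs
      rw [Real.mul_rpow (by norm_num) (le_of_lt hs)]
      have : (2 : ℝ) ^ (1 + α) * 2 ^ (-1 - α) = 1 := by
        rw [← Real.rpow_add (by norm_num)]
        norm_num
      calc H (2 * s) * s ^ (-1 - α) = ((2 : ℝ) ^ (1 + α) * 2 ^ (-1 - α)) *
            (H (2 * s) * s ^ (-1 - α)) := by rw [this, one_mul]
        _ = _ := by ring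
    have hi2 : IntegrableOn (fun s : ℝ => H (2 * s) * (2 * s) ^ (-1 - α)) (Ioi 0) := by
      rw [integrableOn_Ioi_comp_mul_left_iff (fun s => H s * s ^ (-1 - α)) 0 (by norm_num : (0:ℝ) < 2),
        mul_zero]
      exact hH
    constructor
    · refine (integrableOn_congr_fun e measurableSet_Ioi).mpr (hi2.const_mul _)
    · rw [setIntegral_congr_fun measurableSet_Ioi e, integral_const_mul,
        integral_comp_mul_left_Ioi (fun s => H s * s ^ (-1 - α)) 0 (by norm_num : (0:ℝ) < 2),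
        mul_zero, smul_eq_mul, ← mul_assoc]
      congr 1
      rw [Real.rpow_add (by norm_num), Real.rpow_one]
      ring
  have hA : ∫ s in Ioc 0 (r ^ 2), |g s| ≤ 4 * r * Lp +
      3 * r ^ (2 * α) * (2 ^ α * ∫ s in Ioi (0 : ℝ), H s * s ^ (-1 - α)) := by
    have hi1 : IntegrableOn (fun s : ℝ => 2 * Lp * s ^ (-(1 / 2) : ℝ)) (Ioc 0 (r ^ 2)) := by
      have := (intervalIntegral.intervalIntegrable_rpow' (a := 0) (b := r ^ 2)
        (r := (-(1 / 2) : ℝ)) (by norm_num))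
      rw [intervalIntegrable_iff_integrableOn_Ioc_of_le hr2.le] at this
      exact this.const_mul _
    have hi2 : IntegrableOn (fun s : ℝ => 3 * r ^ (2 * α) * (H (2 * s) * s ^ (-1 - α)))
        (Ioc 0 (r ^ 2)) := (hK.1.mono_set hsA).const_mul _
    have hle : ∫ s in Ioc 0 (r ^ 2), |g s| ≤ ∫ s in Ioc 0 (r ^ 2),
        (2 * Lp * s ^ (-(1 / 2) : ℝ) + 3 * r ^ (2 * α) * (H (2 * s) * s ^ (-1 - α))) := by
      apply setIntegral_mono_on (hgn.mono_set hsA) (hi1.add hi2) measurableSet_Ioc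
      intro s hs
      have hs0 : (0 : ℝ) < s := hs.1
      rw [habsg s hs0]
      have ha : s ^ (-(1 / 2) : ℝ) * s ^ (-(1 / 2) : ℝ) ≤ r ^ (2 * α) * s ^ (-1 - α) := by
        have e1 : s ^ (-(1 / 2) : ℝ) * s ^ (-(1 / 2) : ℝ) = s ^ α * s ^ (-1 - α) := by
          rw [← Real.rpow_add hs0, ← Real.rpow_add hs0]
          congr 1
          ring
        rw [e1]
        apply mul_le_mul_of_nonneg_right _ (Real.rpow_nonneg hs0.le _)
        have e2 : r ^ (2 * α) = (r ^ 2) ^ α := by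
          rw [← Real.rpow_natCast, ← Real.rpow_mul hr0.le]
          norm_num
        rw [e2]
        exact Real.rpow_le_rpow hs0.le hs.2 hα.le
      have hH2 : 0 ≤ H (2 * s) := hH0 _ (by linarith)
      calc s ^ (-(1 / 2) : ℝ) * |F s|
          ≤ s ^ (-(1 / 2) : ℝ) * (2 * Lp + 3 * s ^ (-(1 / 2) : ℝ) * H (2 * s)) :=
            mul_le_mul_of_nonneg_left (h3 s hs0) (Real.rpow_nonneg hs0.le _)
        _ = 2 * Lp * s ^ (-(1 / 2) : ℝ) +
            3 * H (2 * s) * (s ^ (-(1 / 2) : ℝ) * s ^ (-(1 / 2) : ℝ)) := by ring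
        _ ≤ 2 * Lp * s ^ (-(1 / 2) : ℝ) +
            3 * H (2 * s) * (r ^ (2 * α) * s ^ (-1 - α)) := by
            have := mul_le_mul_of_nonneg_left ha (by positivity : 0 ≤ 3 * H (2 * s))
            linarith
        _ = _ := by
            simp only [Pi.add_apply]
            ring
    refine hle.trans ?_
    rw [integral_add hi1 hi2, integral_const_mul, integral_const_mul,
      ← intervalIntegral.integral_of_le hr2.le, integral_rpow (Or.inl (by norm_num))]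
    have e3 : (2 * Lp * (((r ^ 2) ^ ((-(1 / 2) : ℝ) + 1) - 0 ^ ((-(1 / 2) : ℝ) + 1)) /
        ((-(1 / 2) : ℝ) + 1))) = 4 * r * Lp := by
      have e4 : ((-(1 / 2) : ℝ) + 1) = 1 / 2 := by norm_num
      rw [e4, Real.zero_rpow (by norm_num), ← Real.sqrt_eq_rpow, Real.sqrt_sq hr0.le]
      ring
    rw [e3]
    have hmono : ∫ s in Ioc 0 (r ^ 2), H (2 * s) * s ^ (-1 - α) ≤
        ∫ s in Ioi (0 : ℝ), H (2 * s) * s ^ (-1 - α) := by
      apply setIntegral_mono_set hK.1 _ (Filter.Eventually.of_forall hsA)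
      refine (ae_restrict_iff' measurableSet_Ioi).mpr (Filter.Eventually.of_forall ?_)
      intro s hs
      exact mul_nonneg (hH0 _ (mul_pos two_pos hs)) (Real.rpow_nonneg (le_of_lt hs) _)
    rw [hK.2] at hmono
    have := mul_le_mul_of_nonneg_left hmono (by positivity : 0 ≤ 3 * r ^ (2 * α))
    linarith
  linarith [habs, hunion.le, hA, hB, hC]

/-- pointwise bounds of the derivative of the heat semigroup in the direction of a coordinate `p` -/
theorem D_bounds {s : ℝ} (hs : 0 < s) (p : Pt → ℝ) (hp : Continuous p) (hpn : ∀ y, |p y| ≤ ‖y‖)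
    (hpG : ∀ y, |p y| * G s y ≤ 6 * Real.sqrt s * G (2 * s) y)
    (hp0 : ∫ y, p y * G s y = 0)
    {θ Φ : Pt → ℝ} {x₀ : Pt} {Lp : ℝ} (hθ : Continuous θ) (hθ1 : ∀ x, |θ x| ≤ 1)
    (hΦ : Continuous Φ) (hΦ3 : ∀ x, |Φ x| ≤ 3) (hLp : 1 ≤ Lp)
    (hL : ∀ x, |Φ x - Φ x₀| ≤ Lp * ‖x - x₀‖) (hle : ∀ x, Φ x ≤ θ x) :
    |(2 * s)⁻¹ * ∫ y, p y * G s y * θ (x₀ + y)| ≤ 3 * s ^ (-(1 / 2) : ℝ) ∧
    |(2 * s)⁻¹ * ∫ y, p y * G s y * θ (x₀ + y)| ≤
      2 * Lp + 3 * s ^ (-(1 / 2) : ℝ) * Hs (2 * s) (fun x => θ x - Φ x) x₀ := by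
  have h2s : 0 < 2 * s := by linarith
  have hG2 : ∫ y, G (2 * s) y = 1 := (gauss_facts h2s).2.1
  have hG2i : Integrable (G (2 * s)) := (gauss_facts h2s).1
  have hGi : Integrable (G s) := (gauss_facts hs).1
  have hpGi : Integrable (fun y => p y * G s y) := by
    apply Integrable.mono' (hG2i.const_mul (6 * Real.sqrt s))
    · exact hp.aestronglyMeasurable.mul hGi.aestronglyMeasurable
    · refine Filter.Eventually.of_forall (fun y => ?_)
      rw [norm_mul, Real.norm_eq_abs, Real.norm_eq_abs, abs_of_nonneg (G_nonneg hs y)]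
      exact hpG y
  have hmul : ∀ {g : Pt → ℝ} {B : ℝ}, Continuous g → (∀ x, |g x| ≤ B) →
      Integrable (fun y => p y * G s y * g (x₀ + y)) := by
    intro g B hg hB
    apply hpGi.mul_bdd (c := B)
    · exact (hg.comp (by fun_prop)).aestronglyMeasurable
    · exact Filter.Eventually.of_forall (fun y => hB _)
  have hsq : (2 * s)⁻¹ * (6 * Real.sqrt s) = 3 * s ^ (-(1 / 2) : ℝ) := by
    have e1 : Real.sqrt s = s * s ^ (-(1 / 2) : ℝ) := by
      rw [Real.sqrt_eq_rpow]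
      nth_rewrite 2 [← Real.rpow_one s]
      rw [← Real.rpow_add hs]
      norm_num
    rw [e1]
    field_simp
    ring
  have hinv : 0 ≤ (2 * s)⁻¹ := by positivity
  constructor
  · rw [abs_mul, abs_of_nonneg hinv]
    have : |∫ y, p y * G s y * θ (x₀ + y)| ≤ 6 * Real.sqrt s := by
      have e1 : ∫ y, 6 * Real.sqrt s * G (2 * s) y = 6 * Real.sqrt s := by
        rw [integral_const_mul, hG2, mul_one]
      rw [← e1]
      refine abs_integral_le_integral_abs.trans ?_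
      apply integral_mono (hmul hθ hθ1).abs (hG2i.const_mul _)
      intro y
      simp only
      rw [abs_mul, abs_mul, abs_of_nonneg (G_nonneg hs y)]
      have := hpG y
      have h1 := hθ1 (x₀ + y)
      have h2 : 0 ≤ |p y| * G s y := mul_nonneg (abs_nonneg _) (G_nonneg hs y)
      nlinarith [abs_nonneg (θ (x₀ + y))]
    calc (2 * s)⁻¹ * |∫ y, p y * G s y * θ (x₀ + y)| ≤ (2 * s)⁻¹ * (6 * Real.sqrt s) :=
          mul_le_mul_of_nonneg_left this hinv
      _ = _ := hsq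
  · have hf : Continuous (fun x => θ x - Φ x) := hθ.sub hΦ
    have hfB : ∀ x, |θ x - Φ x| ≤ 4 := by
      intro x
      have h1 := hθ1 x
      have h2 := hΦ3 x
      rw [abs_le] at *
      constructor <;> linarith [h1.1, h1.2, h2.1, h2.2]
    have hh : Continuous (fun x => Φ x - Φ x₀) := by fun_prop
    have hhB : ∀ x, |Φ x - Φ x₀| ≤ 6 := by
      intro x
      have h1 := hΦ3 x₀
      have h2 := hΦ3 x
      rw [abs_le] at *
      constructor <;> linarith [h1.1, h1.2, h2.1, h2.2]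
    have i1 := hmul hf hfB
    have i2 := hmul hh hhB
    have hdec : ∫ y, p y * G s y * θ (x₀ + y) =
        (∫ y, p y * G s y * (θ (x₀ + y) - Φ (x₀ + y))) +
          ∫ y, p y * G s y * (Φ (x₀ + y) - Φ x₀) := by
      have e1 : (0 : ℝ) = ∫ y, p y * G s y * Φ x₀ := by
        rw [integral_mul_const, hp0, zero_mul]
      rw [← add_zero ((∫ y, p y * G s y * (θ (x₀ + y) - Φ (x₀ + y))) +
          ∫ y, p y * G s y * (Φ (x₀ + y) - Φ x₀)), e1, ← integral_add i1 i2]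
      have i3 : Integrable (fun y => p y * G s y * (θ (x₀ + y) - Φ (x₀ + y)) +
          p y * G s y * (Φ (x₀ + y) - Φ x₀)) := i1.add i2
      rw [← integral_add i3 (hpGi.mul_const _)]
      congr 1
      ext y
      ring
    have b1 : |∫ y, p y * G s y * (θ (x₀ + y) - Φ (x₀ + y))| ≤
        6 * Real.sqrt s * Hs (2 * s) (fun x => θ x - Φ x) x₀ := by
      unfold Hs
      rw [← integral_const_mul]
      refine abs_integral_le_integral_abs.trans ?_
      apply integral_mono i1.abs ((int_Gg h2s hf hfB x₀).const_mul _)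
      intro y
      simp only
      have hpos : 0 ≤ θ (x₀ + y) - Φ (x₀ + y) := by linarith [hle (x₀ + y)]
      rw [abs_mul, abs_mul,
        abs_of_nonneg (G_nonneg hs y), abs_of_nonneg hpos, ← mul_assoc]
      exact mul_le_mul_of_nonneg_right (hpG y) hpos
    have b2 : |∫ y, p y * G s y * (Φ (x₀ + y) - Φ x₀)| ≤ Lp * (4 * s) := by
      rw [← (gauss_facts hs).2.2.2.2.2.2.2.2.1, ← integral_const_mul]
      refine abs_integral_le_integral_abs.trans ?_
      apply integral_mono i2.abs ((gauss_facts hs).2.2.2.2.2.2.2.1.const_mul _)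
      intro y
      simp only
      rw [abs_mul, abs_mul, abs_of_nonneg (G_nonneg hs y)]
      have h1 : |Φ (x₀ + y) - Φ x₀| ≤ Lp * ‖y‖ := by
        have := hL (x₀ + y)
        rwa [add_sub_cancel_left] at this
      have hG0 := G_nonneg hs y
      have h3 : ‖y‖ * ‖y‖ ≤ y.1 ^ 2 + y.2 ^ 2 := by
        rw [Prod.norm_def, Real.norm_eq_abs, Real.norm_eq_abs]
        rcases le_total |y.1| |y.2| with h | h
        · rw [max_eq_right h, ← sq, sq_abs]; nlinarith [sq_nonneg y.1]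
        · rw [max_eq_left h, ← sq, sq_abs]; nlinarith [sq_nonneg y.2]
      have hLp0 : 0 ≤ Lp := by linarith
      calc |p y| * G s y * |Φ (x₀ + y) - Φ x₀| ≤ (‖y‖ * G s y) * (Lp * ‖y‖) := by
            apply mul_le_mul (mul_le_mul_of_nonneg_right (hpn y) hG0) h1 (abs_nonneg _)
            positivity
        _ = Lp * ((‖y‖ * ‖y‖) * G s y) := by ring
        _ ≤ Lp * ((y.1 ^ 2 + y.2 ^ 2) * G s y) := by
            apply mul_le_mul_of_nonneg_left _ hLp0
            exact mul_le_mul_of_nonneg_right h3 hG0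
    rw [abs_mul, abs_of_nonneg hinv, hdec]
    calc (2 * s)⁻¹ * |(∫ y, p y * G s y * (θ (x₀ + y) - Φ (x₀ + y))) +
          ∫ y, p y * G s y * (Φ (x₀ + y) - Φ x₀)|
        ≤ (2 * s)⁻¹ * (6 * Real.sqrt s * Hs (2 * s) (fun x => θ x - Φ x) x₀ + Lp * (4 * s)) := by
          apply mul_le_mul_of_nonneg_left _ hinv
          exact (abs_add_le _ _).trans (add_le_add b1 b2)
      _ = ((2 * s)⁻¹ * (6 * Real.sqrt s)) * Hs (2 * s) (fun x => θ x - Φ x) x₀ +
            ((2 * s)⁻¹ * (4 * s)) * Lp := by ring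
      _ = _ := by
        rw [hsq]
        have : (2 * s)⁻¹ * (4 * s) = 2 := by field_simp; norm_num
        rw [this]
        ring

end touch2_aux

/-- TARGET -/
theorem touch2 (α : ℝ) (hα : 0 < α) (hα1 : α < 1) : ∃ C > 0,
    ∀ (z : Fr → ℂ) (θ Φ : Pt → ℝ) (x₀ : Pt) (Lp L₂ g₁ g₂ : ℝ),
    (Summable fun k => (1 + len k) ^ 3 * ‖z k‖) → (∀ x, (θ x : ℂ) = ∑' k, z k * ex k x) →
    (∀ k, ‖z k‖ ≤ 1) → (∀ x, |θ x| ≤ 1) → Continuous Φ → (∀ x, |Φ x| ≤ 3) → 1 ≤ Lp → 1 ≤ L₂ →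
    (∀ x, |Φ x - Φ x₀| ≤ Lp * ‖x - x₀‖) →
    (∀ x : Pt, |Φ x - Φ x₀ - (g₁ * (x.1 - x₀.1) + g₂ * (x.2 - x₀.2))| ≤ L₂ * ‖x - x₀‖ ^ 2) →
    (∀ x, Φ x ≤ θ x) → Φ x₀ = θ x₀ →
    ∃ D : ℝ, 0 ≤ D ∧
      (∑' k, ((len k ^ (2 * α) : ℝ) : ℂ) * z k * ex k x₀).re ≤ -D + C * L₂ ^ α ∧
      ∀ r ∈ Ioc (0 : ℝ) 1,
        |(∑' k : Fr, (-Complex.I * (k.1 : ℂ) / (len k : ℂ)) * z k * ex k x₀).re|
          ≤ C * (r ^ (2 * α) * D + Real.log (1 / r) + 1 + r * Lp) ∧
        |(∑' k : Fr, (-Complex.I * (k.2 : ℂ) / (len k : ℂ)) * z k * ex k x₀).re|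
          ≤ C * (r ^ (2 * α) * D + Real.log (1 / r) + 1 + r * Lp) := by
  obtain ⟨c, hc, hfl⟩ := fracLap_heat α hα hα1
  obtain ⟨C₀, hri⟩ := riesz_heat
  set K : ℝ := 4 / (1 - α) + 6 / α with hK
  have hKpos : 0 < K := by
    have h1 : 0 < 1 - α := by linarith
    positivity
  set C₁ : ℝ := |C₀| with hC₁
  have hC₁0 : 0 ≤ C₁ := abs_nonneg _
  have h2α : (0 : ℝ) < 2 ^ α := Real.rpow_pos_of_pos two_pos _
  refine ⟨c * K + (4 + 3 * 2 ^ α / c + 6 + 2 * C₁), by positivity, ?_⟩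
  intro z θ Φ x₀ Lp L₂ g₁ g₂ hz hθ hz1 hθ1 hΦ hΦ3 hLp hL₂ hL hL' hle heq
  have hθc : Continuous θ := touch2_aux.theta_cont hz hθ
  set f : Pt → ℝ := fun x => θ x - Φ x with hf
  have hfc : Continuous f := hθc.sub hΦ
  have hfB : ∀ x, |f x| ≤ 4 := by
    intro x
    have h1 := hθ1 x
    have h2 := hΦ3 x
    rw [hf]
    simp only
    rw [abs_le] at *
    constructor <;> linarith [h1.1, h1.2, h2.1, h2.2]
  have hHf0 : ∀ s, 0 < s → 0 ≤ Hs s f x₀ := by
    intro s hs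
    unfold Hs
    apply integral_nonneg
    intro y
    exact mul_nonneg (touch2_aux.G_nonneg hs y) (by rw [hf]; simp only; linarith [hle (x₀ + y)])
  obtain ⟨hΛi, hΛ⟩ := hfl z θ hz hθ x₀
  have hu := touch2_aux.u_int hα hα1 (u := fun s => Φ x₀ - Hs s Φ x₀)
    ((stronglyMeasurable_const.sub (touch2_aux.Hs_meas hΦ x₀)).aestronglyMeasurable) hL₂
    (fun s hs => (touch2_aux.u_bound hs hΦ hΦ3 hL₂ hL').1)
    (fun s hs => (touch2_aux.u_bound hs hΦ hΦ3 hL₂ hL').2)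
  have hdec : ∀ s ∈ Ioi (0 : ℝ), Hs s f x₀ * s ^ (-1 - α) =
      (Φ x₀ - Hs s Φ x₀) * s ^ (-1 - α) - (θ x₀ - Hs s θ x₀) * s ^ (-1 - α) := by
    intro s hs
    have h1 : Hs s f x₀ = Hs s θ x₀ - Hs s Φ x₀ := by
      unfold Hs
      rw [← integral_sub (touch2_aux.int_Gg hs hθc hθ1 x₀) (touch2_aux.int_Gg hs hΦ hΦ3 x₀)]
      congr 1
      ext y
      rw [hf]
      ring
    rw [h1, heq]
    ring
  have hHi : IntegrableOn (fun s => Hs s f x₀ * s ^ (-1 - α)) (Ioi 0) :=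
    (integrableOn_congr_fun hdec measurableSet_Ioi).mpr (hu.1.sub hΛi)
  have hHint : ∫ s in Ioi (0 : ℝ), Hs s f x₀ * s ^ (-1 - α) =
      (∫ s in Ioi (0 : ℝ), (Φ x₀ - Hs s Φ x₀) * s ^ (-1 - α)) -
        ∫ s in Ioi (0 : ℝ), (θ x₀ - Hs s θ x₀) * s ^ (-1 - α) := by
    rw [setIntegral_congr_fun measurableSet_Ioi hdec]
    exact integral_sub hu.1 hΛi
  set I : ℝ := ∫ s in Ioi (0 : ℝ), Hs s f x₀ * s ^ (-1 - α) with hI
  have hI0 : 0 ≤ I := by
    apply setIntegral_nonneg measurableSet_Ioi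
    intro s hs
    exact mul_nonneg (hHf0 s hs) (Real.rpow_nonneg (le_of_lt hs) _)
  have hLpp : 0 < L₂ ^ α := Real.rpow_pos_of_pos (by linarith) _
  refine ⟨c * I, by positivity, ?_, ?_⟩
  · rw [hΛ]
    have h1 : ∫ s in Ioi (0 : ℝ), (θ x₀ - Hs s θ x₀) * s ^ (-1 - α) ≤ K * L₂ ^ α - I := by
      linarith [hu.2]
    have h2 := mul_le_mul_of_nonneg_left h1 hc.le
    have h3 : 0 ≤ (4 + 3 * 2 ^ α / c + 6 + 2 * C₁) * L₂ ^ α := by positivity
    linarith
  · intro r hr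
    obtain ⟨hi1, hi2, he1, he2, hb⟩ := hri z θ hz hθ hz1 x₀
    have hr0 : 0 < r := hr.1
    have hlog : 0 ≤ Real.log (1 / r) := Real.log_nonneg (by rw [le_div_iff₀ hr0]; linarith [hr.2])
    have hpi : 1 ≤ Real.sqrt Real.pi := by
      rw [Real.one_le_sqrt]
      linarith [Real.pi_gt_three]
    have hpi2 : (Real.sqrt Real.pi)⁻¹ ≤ 1 := inv_le_one_of_one_le₀ hpi
    have hpi3 : 0 ≤ (Real.sqrt Real.pi)⁻¹ := by positivity
    have hr2 : 0 < r ^ (2 * α) := Real.rpow_pos_of_pos hr0 _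
    have hfin : ∀ J : ℝ, |J| ≤ 4 * r * Lp + 3 * r ^ (2 * α) * (2 ^ α * I) +
        6 * Real.log (1 / r) + 2 * C₁ → |-(Real.sqrt Real.pi)⁻¹ * J| ≤
        (c * K + (4 + 3 * 2 ^ α / c + 6 + 2 * C₁)) *
          (r ^ (2 * α) * (c * I) + Real.log (1 / r) + 1 + r * Lp) := by
      intro J hJ
      rw [abs_mul, abs_neg, abs_of_nonneg hpi3]
      have h1 : (Real.sqrt Real.pi)⁻¹ * |J| ≤ |J| := by nlinarith [abs_nonneg J]
      refine (h1.trans hJ).trans ?_
      have e1 : 3 * r ^ (2 * α) * (2 ^ α * I) = (3 * 2 ^ α / c) * (r ^ (2 * α) * (c * I)) := by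
        field_simp
      rw [e1]
      have hA : 0 ≤ r ^ (2 * α) * (c * I) := by positivity
      have hB : 0 ≤ r * Lp := by nlinarith
      have hT : 0 ≤ c * K := by positivity
      have hS : 0 ≤ 3 * 2 ^ α / c := by positivity
      generalize r ^ (2 * α) * (c * I) = X at *
      generalize Real.log (1 / r) = Y at *
      generalize c * K = T at *
      generalize 3 * 2 ^ α / c = S at *
      have e2 : 4 * r * Lp = 4 * (r * Lp) := by ring
      rw [e2]
      generalize r * Lp = Z at *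
      nlinarith [mul_nonneg hT hA, mul_nonneg hT hlog, mul_nonneg hT hB, mul_nonneg hS hlog,
        mul_nonneg hS hB, mul_nonneg hC₁0 hA, mul_nonneg hC₁0 hlog, mul_nonneg hC₁0 hB]
    have hCC : ∀ s, C₀ * Real.exp (-s / 2) ≤ C₁ * Real.exp (-s / 2) := fun s =>
      mul_le_mul_of_nonneg_right (le_abs_self _) (Real.exp_pos _).le
    constructor
    · rw [he1]
      apply hfin
      apply touch2_aux.riesz_est hα hLp hC₁0 hi1 hHi hHf0
        (fun s hs => ((hb s hs).1).trans (hCC s)) _ _ hr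
      · intro s hs
        exact (touch2_aux.D_bounds hs Prod.fst continuous_fst (fun y => norm_fst_le y)
          (fun y => ((gauss_facts hs).2.2.2.2.2.2.2.2.2 y).2.1) (touch2_aux.mean_zero hs).1
          hθc hθ1 hΦ hΦ3 hLp hL hle).1
      · intro s hs
        exact (touch2_aux.D_bounds hs Prod.fst continuous_fst (fun y => norm_fst_le y)
          (fun y => ((gauss_facts hs).2.2.2.2.2.2.2.2.2 y).2.1) (touch2_aux.mean_zero hs).1
          hθc hθ1 hΦ hΦ3 hLp hL hle).2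
    · rw [he2]
      apply hfin
      apply touch2_aux.riesz_est hα hLp hC₁0 hi2 hHi hHf0
        (fun s hs => ((hb s hs).2).trans (hCC s)) _ _ hr
      · intro s hs
        exact (touch2_aux.D_bounds hs Prod.snd continuous_snd (fun y => norm_snd_le y)
          (fun y => ((gauss_facts hs).2.2.2.2.2.2.2.2.2 y).2.2) (touch2_aux.mean_zero hs).2
          hθc hθ1 hΦ hΦ3 hLp hL hle).1
      · intro s hs
        exact (touch2_aux.D_bounds hs Prod.snd continuous_snd (fun y => norm_snd_le y)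
          (fun y => ((gauss_facts hs).2.2.2.2.2.2.2.2.2 y).2.2) (touch2_aux.mean_zero hs).2
          hθc hθ1 hΦ hΦ3 hLp hL hle).2

end H706.JT2

namespace H706

alias touch2 := JT2.touch2

end H706
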