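import Pool.Agent.Helper706_SQG.Defs2
import Pool.Agent.Helper706_SQG.CL
import Pool.Agent.Helper706_SQG.RF
import Pool.Agent.Helper706_SQG.PS
import Pool.Agent.Helper706_SQG.MP
import Pool.Agent.Helper706_SQG.STEP2
import Pool.Agent.Helper706_SQG.OE

/-!
JOB FINAL2 (MP_96bed6_an, helper706).  Blow-up, for `a > 1` and `0 < α ≤ 1/2`.

PROOF.  The same proof as that of theorem `blowup` (job FINAL, complete Lean proof in the result of job 2141,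
`SELECT result FROM jobs WHERE id=2141`; adapt it), with `step2` instead of `step` and with
`B(t) = b₀ - K₂ (log₂ (1/s(t)))^{1-a}`, `K₂ = 2 K₁ log 2/((a-1) v₀)`: since
`d/ds (log₂(1/s))^{1-a} = (a-1) (log₂(1/s))^{-a}/(s log 2)` and `s' = -v₀ (log₂(1/s))^a`,
`B' = K₂ (a-1) v₀/(s log 2) = 2 K₁ s^{-1}`. As `a > 1`, `K₂ (log₂ (1/s))^{1-a} ≤ b₀/2` for `s ≤ s₀` small, so
`B ∈ [b₀/2, b₀]`. Everything else is unchanged.
-/

set_option autoImplicit false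
open Set Filter Topology MeasureTheory
open scoped ComplexConjugate ContDiff

namespace H706.JFINAL2

/-- joint continuity of a solution -/
theorem bl_cont {lam α κ T : ℝ} {w : ℕ → ℝ} {E : ℕ → Pt → ℝ} {θ₀ : Pt → ℝ} {θ : ℝ → Pt → ℝ}
    (h : IsSol lam α κ w E θ₀ T θ) :
    ContinuousOn (fun p : ℝ × Pt => θ p.1 p.2) (Ico 0 T ×ˢ univ) := by
  have h0 := h.cont 0
  have h1 := (continuousMultilinearCurryFin0 ℝ Pt ℝ).continuous.comp_continuousOn h0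
  refine h1.congr fun p _ => ?_
  simp [iteratedFDeriv_zero_eq_comp]

theorem bl_d1_Phi {Z c s β : ℝ} (hd : Differentiable ℝ (Psi Z c)) (x : Pt) :
    d1 (Phi Z c s β) x = 2 * (1 / s * fderiv ℝ (Psi Z c) (x.1 / s, x.2 / s) (1, 0)) := by
  have hF := (hd (x.1 / s, x.2 / s)).hasFDerivAt
  have hg : HasDerivAt (fun r : ℝ => ((r / s, x.2 / s) : Pt)) ((1 / s, 0) : Pt) x.1 :=
    ((hasDerivAt_id x.1).div_const s).prodMk (hasDerivAt_const _ _)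
  have h1 := hF.comp_hasDerivAt (f := fun r : ℝ => ((r / s, x.2 / s) : Pt)) x.1 hg
  have h2 : HasDerivAt (fun r : ℝ => Phi Z c s β (r, x.2))
      (2 * fderiv ℝ (Psi Z c) (x.1 / s, x.2 / s) (1 / s, 0)) x.1 := by
    have h3 := ((h1.const_mul 2).sub_const 1).sub_const β
    exact h3
  have h4 : ((1 / s, 0) : Pt) = (1 / s) • ((1, 0) : Pt) := by simp
  unfold d1
  rw [h2.deriv, h4, map_smul, smul_eq_mul]

theorem bl_d2_Phi {Z c s β : ℝ} (hd : Differentiable ℝ (Psi Z c)) (x : Pt) :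
    d2 (Phi Z c s β) x = 2 * (1 / s * fderiv ℝ (Psi Z c) (x.1 / s, x.2 / s) (0, 1)) := by
  have hF := (hd (x.1 / s, x.2 / s)).hasFDerivAt
  have hg : HasDerivAt (fun r : ℝ => ((x.1 / s, r / s) : Pt)) ((0, 1 / s) : Pt) x.2 :=
    (hasDerivAt_const _ _).prodMk ((hasDerivAt_id x.2).div_const s)
  have h1 := hF.comp_hasDerivAt (f := fun r : ℝ => ((x.1 / s, r / s) : Pt)) x.2 hg
  have h2 : HasDerivAt (fun r : ℝ => Phi Z c s β (x.1, r))
      (2 * fderiv ℝ (Psi Z c) (x.1 / s, x.2 / s) (0, 1 / s)) x.2 := by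
    have h3 := ((h1.const_mul 2).sub_const 1).sub_const β
    exact h3
  have h4 : ((0, 1 / s) : Pt) = (1 / s) • ((0, 1) : Pt) := by simp
  unfold d2
  rw [h2.deriv, h4, map_smul, smul_eq_mul]

/-- the time derivative of the barrier -/
theorem bl_dt {Z c : ℝ} (hd : Differentiable ℝ (Psi Z c)) {s B : ℝ → ℝ} {s' B' t : ℝ}
    (hs : HasDerivAt s s' t) (hst : s t ≠ 0) (hB : HasDerivAt B B' t) (x : Pt) :
    HasDerivAt (fun τ => Phi Z c (s τ) (B τ) x)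
      (-s' / s t * (x.1 * d1 (Phi Z c (s t) (B t)) x + x.2 * d2 (Phi Z c (s t) (B t)) x) - B') t := by
  have hF := (hd (x.1 / s t, x.2 / s t)).hasFDerivAt
  have hg : HasDerivAt (fun τ : ℝ => ((x.1 / s τ, x.2 / s τ) : Pt))
      (((0 * s t - x.1 * s') / s t ^ 2, (0 * s t - x.2 * s') / s t ^ 2) : Pt) t :=
    ((hasDerivAt_const t x.1).div hs hst).prodMk ((hasDerivAt_const t x.2).div hs hst)
  have h1 := hF.comp_hasDerivAt (f := fun τ : ℝ => ((x.1 / s τ, x.2 / s τ) : Pt)) t hg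
  have h2 : HasDerivAt (fun τ => Phi Z c (s τ) (B τ) x)
      (2 * fderiv ℝ (Psi Z c) (x.1 / s t, x.2 / s t)
        ((0 * s t - x.1 * s') / s t ^ 2, (0 * s t - x.2 * s') / s t ^ 2) - B') t :=
    ((h1.const_mul 2).sub_const 1).sub hB
  refine h2.congr_deriv ?_
  rw [bl_d1_Phi hd, bl_d2_Phi hd]
  have h4 : (((0 * s t - x.1 * s') / s t ^ 2, (0 * s t - x.2 * s') / s t ^ 2) : Pt) =
      ((0 * s t - x.1 * s') / s t ^ 2) • ((1, 0) : Pt) +
        ((0 * s t - x.2 * s') / s t ^ 2) • ((0, 1) : Pt) := by simp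
  rw [h4, map_add, map_smul, map_smul, smul_eq_mul, smul_eq_mul]
  field_simp
  ring

/-- a function which is nonnegative before `t` and vanishes at `t` has nonpositive derivative -/
theorem bl_sign {g : ℝ → ℝ} {d t : ℝ} (ht : 0 < t) (hg : HasDerivAt g d t)
    (h0 : ∀ τ ∈ Icc 0 t, 0 ≤ g τ) (h1 : g t = 0) : d ≤ 0 := by
  by_contra hd
  push Not at hd
  have h2 := hasDerivAt_iff_tendsto_slope.1 hg
  have h3 : ∀ᶠ τ in 𝓝[≠] t, 0 < slope g t τ := h2.eventually (lt_mem_nhds hd)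
  have h4 : ∀ᶠ τ in 𝓝[<] t, 0 < slope g t τ :=
    h3.filter_mono (nhdsWithin_mono _ fun τ hτ => ne_of_lt hτ)
  have h5 : ∀ᶠ τ in 𝓝[<] t, τ ∈ Ioo 0 t := Ioo_mem_nhdsLT ht
  obtain ⟨τ, h6, h7⟩ := (h4.and h5).exists
  have h8 := h0 τ ⟨h7.1.le, h7.2.le⟩
  rw [slope_def_field, h1, sub_zero] at h6
  have h9 : g τ / (τ - t) ≤ 0 := div_nonpos_of_nonneg_of_nonpos h8 (by linarith [h7.2])
  linarith

theorem bl_Wt {a s : ℝ} (ha : 0 ≤ a) (hs : 0 < s) (hs' : s ≤ 1 / 2) : 1 ≤ Wt a s := by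
  unfold Wt
  apply Real.one_le_rpow _ ha
  have h : Real.logb 2 s ≤ Real.logb 2 (1 / 2) :=
    (Real.logb_le_logb (by norm_num) hs (by norm_num)).2 hs'
  have h2 : Real.logb 2 (1 / 2 : ℝ) = -1 := by
    rw [one_div, Real.logb_inv, Real.logb_self_eq_one (by norm_num)]
  linarith

theorem bl_Psi_scale {Z c s : ℝ} (hZ : 4 ≤ Z) (hc : 0 ≤ c) (hc1 : c ≤ 1) (hs : 0 < s) {x : Pt}
    (h : Psi Z c (x.1 / s, x.2 / s) ≠ 0) :
    s < x.1 ∧ x.1 < 2 * Z * s ∧ |x.2| < 2 * s + c * x.1 := by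
  obtain ⟨h1, h2, h3⟩ := (Psi_facts hZ hc hc1).2.2.1 _ h
  simp only at h1 h2 h3
  rw [lt_div_iff₀ hs] at h1
  rw [div_lt_iff₀ hs] at h2
  rw [abs_div, abs_of_pos hs, div_lt_iff₀ hs] at h3
  refine ⟨by linarith, h2, ?_⟩
  calc |x.2| < (2 + c * (x.1 / s)) * s := h3
    _ = 2 * s + c * x.1 := by field_simp

/-- the touching point argument -/
theorem bl_touch {Ca ca Cb cb c₁ b₀ v₀ m₀ Z : ℝ} {q p r : ℕ → ℕ → ℝ} {J M : ℕ}
    (hc : Cons Ca ca Cb cb c₁ b₀ v₀ m₀ Z q p r J M) {a : ℝ} {n₀ : ℕ}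
    {lam α κ : ℝ} (hα : 0 < α) (hα1 : α ≤ 1 / 2) (hκ : 0 < κ) {K₁ sb : ℝ} (hK₁ : 0 < K₁)
    (hstep : ∀ s ∈ Ioc 0 sb, ∀ β ∈ Ioc 0 b₀, ∀ f : Pt → ℝ, Sm f → (∀ x, |f x| ≤ 1) →
      (∀ x, Phi Z c₁ s β x ≤ f x) → (∀ x : Pt, Phi Z c₁ s β x ≤ -f (-x.1, x.2)) →
      ∀ x : Pt, Phi Z c₁ s β x = f x →
        v₀ * Wt a s / s * (x.1 * d1 (Phi Z c₁ s β) x + x.2 * d2 (Phi Z c₁ s β) x)
            - K₁ * s ^ (-1 : ℝ) <
          -(vel1 lam (wts a n₀) (EN q p r J M n₀) f x * d1 f x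
            + vel2 lam (wts a n₀) (EN q p r J M n₀) f x * d2 f x)
            - κ * fracLap (2 * α) f x)
    {T : ℝ} {θ₀ : Pt → ℝ} (hθ₀ : ∀ x, |θ₀ x| ≤ 1) {θ : ℝ → Pt → ℝ}
    (h : IsSol lam α κ (wts a n₀) (EN q p r J M n₀) θ₀ T θ) {s B : ℝ → ℝ} {t B' : ℝ}
    (ht : 0 < t) (htT : t < T) (hs : HasDerivAt s (-(v₀ * Wt a (s t))) t)
    (hst : s t ∈ Ioc 0 sb) (hBt : B t ∈ Ioc 0 b₀) (hB : HasDerivAt B B' t)
    (hB' : 2 * K₁ * s t ^ (-1 : ℝ) ≤ B') {x : Pt} (hx : Phi Z c₁ (s t) (B t) x = θ t x)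
    (hle : ∀ τ ∈ Icc 0 t, Phi Z c₁ (s τ) (B τ) x ≤ θ τ x)
    (hle1 : ∀ y, Phi Z c₁ (s t) (B t) y ≤ θ t y)
    (hle2 : ∀ y : Pt, Phi Z c₁ (s t) (B t) y ≤ -θ t (-y.1, y.2)) : False := by
  have hodd : ∀ n (x : Pt), EN q p r J M n₀ n (-x.1, x.2) = -EN q p r J M n₀ n x := fun n x =>
    (EF_sm _ _ _ _ _ _).2.1 x
  have hmax := max_principle hα (by linarith) hκ hodd hθ₀ h
  have htI : t ∈ Ico 0 T := ⟨ht.le, htT⟩
  have hst' := hstep (s t) hst (B t) hBt (θ t) ⟨h.smooth t htI, h.per t htI⟩ (hmax t htI) hle1 hle2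
    x hx
  have hθd := h.eqn t ⟨ht, htT⟩ x
  have hΦd := bl_dt (Psi_facts hc.hZ hc.c₁pos.le hc.c₁le).1 hs hst.1.ne' hB x
  have hd := bl_sign ht (hθd.sub hΦd) (fun τ hτ => by
    have := hle τ hτ
    simp only [Pi.sub_apply]
    linarith) (by simp only [Pi.sub_apply]; linarith)
  have hpos : 0 < K₁ * s t ^ (-1 : ℝ) := mul_pos hK₁ (Real.rpow_pos_of_pos hst.1 _)
  rw [neg_neg] at hd
  linarith

/-- TARGET -/
theorem blowup2 {Ca ca Cb cb c₁ b₀ v₀ m₀ Z : ℝ} {q p r : ℕ → ℕ → ℝ} {J M : ℕ}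
    (hc : Cons Ca ca Cb cb c₁ b₀ v₀ m₀ Z q p r J M) {a C₁ C₂ : ℝ} (ha : 1 < a) {n₀ : ℕ}
    (hE : ∀ n, Sm (EN q p r J M n₀ n)) (he : Band C₁ C₂ n₀ fun n => fc (EN q p r J M n₀ n))
    {lam α κ : ℝ} (hα : 0 < α) (hα1 : α ≤ 1 / 2) (hκ : 0 < κ) :
    ∃ s₀ > 0, ∃ Tb > 0, 2 * Z * s₀ ≤ 1 ∧ ∀ θ₀ : Pt → ℝ, (∀ x, |θ₀ x| ≤ 1) →
      (∀ x : Pt, s₀ ≤ x.1 → x.1 ≤ 2 * Z * s₀ → |x.2| ≤ 2 * s₀ + c₁ * x.1 →
        1 - b₀ / 4 ≤ θ₀ x ∧ θ₀ (-x.1, x.2) ≤ -(1 - b₀ / 4)) →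
      ∀ T θ, IsSol lam α κ (wts a n₀) (EN q p r J M n₀) θ₀ T θ → T ≤ Tb := by
  obtain ⟨K₁, hK₁, sb, hsb, hstep⟩ := step2 hc ha hE he (lam := lam) hα hα1 hκ
  have hZ := hc.hZ
  have hb₀ := hc.b₀pos
  have hb₀' := hc.b₀le
  have hv₀ := hc.v₀pos
  have hc₁ := hc.c₁pos
  have hc₁' := hc.c₁le
  obtain ⟨hPd, hP01, -, hPpl, -⟩ := Psi_facts hZ hc₁.le hc₁'
  have ha0 : 0 < a - 1 := by linarith
  have hlog2 : 0 < Real.log 2 := Real.log_pos (by norm_num)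
  set K₂ : ℝ := 2 * K₁ * Real.log 2 / ((a - 1) * v₀) with hK₂
  have hK₂0 : 0 < K₂ := by positivity
  have hw : 0 < b₀ / (2 * K₂) := by positivity
  set X : ℝ := (b₀ / (2 * K₂)) ^ (1 / (1 - a)) with hX
  have hX0 : 0 < X := Real.rpow_pos_of_pos hw _
  have hXa : X ^ (1 - a) = b₀ / (2 * K₂) := by
    rw [hX, ← Real.rpow_mul hw.le, one_div, inv_mul_cancel₀ (by linarith : (1 - a : ℝ) ≠ 0),
      Real.rpow_one]
  set s₀ : ℝ := min (min sb (1 / 4)) (min (1 / (2 * Z)) ((2 : ℝ) ^ (-X))) with hs₀def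
  have hs₀ : 0 < s₀ := by
    have h1 : (0 : ℝ) < 1 / (2 * Z) := by positivity
    have h2 : (0 : ℝ) < (2 : ℝ) ^ (-X) := Real.rpow_pos_of_pos (by norm_num) _
    exact lt_min (lt_min hsb (by norm_num)) (lt_min h1 h2)
  have hs₀sb : s₀ ≤ sb := (min_le_left _ _).trans (min_le_left _ _)
  have hs₀4 : s₀ ≤ 1 / 4 := (min_le_left _ _).trans (min_le_right _ _)
  have hs₀Z : 2 * Z * s₀ ≤ 1 := by
    have h1 : s₀ ≤ 1 / (2 * Z) := (min_le_right _ _).trans (min_le_left _ _)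
    rw [le_div_iff₀ (by linarith)] at h1
    linarith
  have hs₀X : s₀ ≤ (2 : ℝ) ^ (-X) := (min_le_right _ _).trans (min_le_right _ _)
  clear_value s₀
  obtain ⟨Tb, hTb, s, hs0, hs, hlim⟩ := clock a v₀ s₀ (by linarith) hv₀ hs₀ hs₀4
  refine ⟨s₀, hs₀, Tb, hTb, hs₀Z, ?_⟩
  intro θ₀ hθ₀ hpl T θ hsol
  by_contra hT
  push Not at hT
  -- the height of the barrier
  set B : ℝ → ℝ := fun t => b₀ - K₂ * (-(Real.log (s t) / Real.log 2)) ^ (1 - a) with hBdef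
  have hspos : ∀ t ∈ Ico 0 Tb, 0 < s t := fun t ht => (hs t ht).1
  have hsle : ∀ t ∈ Ico 0 Tb, s t ≤ s₀ := fun t ht => (hs t ht).2.1
  have hLX : ∀ t ∈ Ico 0 Tb, X ≤ -(Real.log (s t) / Real.log 2) := by
    intro t ht
    have h1 : Real.log (s t) ≤ Real.log ((2 : ℝ) ^ (-X)) :=
      Real.log_le_log (hspos t ht) ((hsle t ht).trans hs₀X)
    rw [Real.log_rpow (by norm_num)] at h1
    rw [le_neg, div_le_iff₀ hlog2]
    exact h1
  have hBmem : ∀ t ∈ Ico 0 Tb, b₀ / 2 ≤ B t ∧ B t ≤ b₀ := by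
    intro t ht
    have h0 := hLX t ht
    have h1 : (-(Real.log (s t) / Real.log 2)) ^ (1 - a) ≤ X ^ (1 - a) :=
      Real.rpow_le_rpow_of_nonpos hX0 h0 (by linarith)
    have h2 : 0 < (-(Real.log (s t) / Real.log 2)) ^ (1 - a) :=
      Real.rpow_pos_of_pos (by linarith) _
    have h3 : K₂ * (-(Real.log (s t) / Real.log 2)) ^ (1 - a) ≤ K₂ * X ^ (1 - a) := by gcongr
    have h4 : 0 < K₂ * (-(Real.log (s t) / Real.log 2)) ^ (1 - a) := by positivity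
    have h5 : K₂ * X ^ (1 - a) = b₀ / 2 := by
      rw [hXa]
      field_simp
    simp only [hBdef]
    constructor <;> linarith
  have hBder : ∀ t ∈ Ico 0 Tb, HasDerivAt B (2 * K₁ * s t ^ (-1 : ℝ)) t := by
    intro t ht
    have hL0 : 0 < -(Real.log (s t) / Real.log 2) := lt_of_lt_of_le hX0 (hLX t ht)
    have hst := hspos t ht
    have h0 := (((hs t ht).2.2.log hst.ne').div_const (Real.log 2)).neg
    have h1 := ((h0.rpow_const (p := 1 - a) (Or.inl hL0.ne')).const_mul K₂).const_sub b₀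
    refine h1.congr_deriv ?_
    have h2 : Wt a (s t) = (-(Real.log (s t) / Real.log 2)) ^ a := rfl
    have h3 : (-(Real.log (s t) / Real.log 2)) ^ a *
        (-(Real.log (s t) / Real.log 2)) ^ (1 - a - 1) = 1 := by
      rw [← Real.rpow_add hL0]
      have : a + (1 - a - 1) = 0 := by ring
      rw [this, Real.rpow_zero]
    simp only [Pi.neg_apply]
    rw [h2, Real.rpow_neg_one, hK₂]
    set P := (-(Real.log (s t) / Real.log 2)) ^ a with hP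
    set Q := (-(Real.log (s t) / Real.log 2)) ^ (1 - a - 1) with hQ
    clear_value P Q
    have h5 : (a - 1) ≠ 0 := ha0.ne'
    field_simp
    linear_combination (a - 1) * h3
  have hB' : ∀ t ∈ Ico 0 Tb, 2 * K₁ * s t ^ (-1 : ℝ) ≤ 2 * K₁ * s t ^ (-1 : ℝ) :=
    fun t _ => le_rfl
  -- the compact set
  set K : Set Pt := Icc 0 1 ×ˢ Icc (-4) 4 with hKdef
  have hKc : IsCompact K := isCompact_Icc.prod isCompact_Icc
  have hodd : ∀ n (x : Pt), EN q p r J M n₀ n (-x.1, x.2) = -EN q p r J M n₀ n x := fun n x =>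
    (EF_sm _ _ _ _ _ _).2.1 x
  have hmax := max_principle hα (by linarith) hκ hodd hθ₀ hsol
  have hout : ∀ t ∈ Ico 0 Tb, ∀ y : Pt, y ∉ K → Phi Z c₁ (s t) (B t) y < -1 := by
    intro t ht y hy
    have h1 : Psi Z c₁ (y.1 / s t, y.2 / s t) = 0 := by
      by_contra h1
      obtain ⟨h2, h3, h4⟩ := bl_Psi_scale hZ hc₁.le hc₁' (hspos t ht) h1
      apply hy
      have h5 := hspos t ht
      have h6 := hsle t ht
      have h7 : 2 * Z * s t ≤ 2 * Z * s₀ := by gcongr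
      have h8 : y.1 ≤ 1 := by linarith
      have h9 : c₁ * y.1 ≤ 1 := by nlinarith
      have h10 : |y.2| < 4 := by linarith
      rw [abs_lt] at h10
      exact ⟨⟨by linarith, h8⟩, ⟨h10.1.le, h10.2.le⟩⟩
    unfold Phi
    rw [h1]
    have := (hBmem t ht).1
    linarith
  have hr_sol := refl_isSol hodd hsol
  have hr_θ₀ : ∀ x : Pt, |(fun x : Pt => -θ₀ (-x.1, x.2)) x| ≤ 1 := by
    intro x
    simp only [abs_neg]
    exact hθ₀ _
  -- the main claim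
  have hmain : ∀ t ∈ Ico 0 Tb, ∀ x ∈ K,
      0 < min (θ t x - Phi Z c₁ (s t) (B t) x) (-θ t (-x.1, x.2) - Phi Z c₁ (s t) (B t) x) := by
    intro t ht x hx
    have hIcc : ∀ τ ∈ Icc 0 t, τ ∈ Ico 0 Tb := fun τ hτ => ⟨hτ.1, lt_of_le_of_lt hτ.2 ht.2⟩
    have hIccT : ∀ τ ∈ Icc 0 t, τ ∈ Ico 0 T := fun τ hτ =>
      ⟨hτ.1, lt_of_le_of_lt hτ.2 (ht.2.trans hT)⟩
    refine first_touch hKc (T := t) (F := fun t x => min (θ t x - Phi Z c₁ (s t) (B t) x)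
      (-θ t (-x.1, x.2) - Phi Z c₁ (s t) (B t) x)) ?_ ?_ ?_ t ⟨ht.1, le_rfl⟩ x hx
    · -- continuity
      have hsc : ContinuousOn s (Icc 0 t) := fun τ hτ =>
        (hs τ (hIcc τ hτ)).2.2.continuousAt.continuousWithinAt
      have hBc : ContinuousOn B (Icc 0 t) := fun τ hτ =>
        (hBder τ (hIcc τ hτ)).continuousAt.continuousWithinAt
      have hm1 : MapsTo (fun p : ℝ × Pt => p.1) (Icc 0 t ×ˢ K) (Icc 0 t) := fun p hp => hp.1
      have hsc' : ContinuousOn (fun p : ℝ × Pt => s p.1) (Icc 0 t ×ˢ K) :=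
        hsc.comp continuous_fst.continuousOn hm1
      have hBc' : ContinuousOn (fun p : ℝ × Pt => B p.1) (Icc 0 t ×ˢ K) :=
        hBc.comp continuous_fst.continuousOn hm1
      have hne : ∀ p ∈ Icc 0 t ×ˢ K, s p.1 ≠ 0 := fun p hp =>
        (hspos _ (hIcc _ hp.1)).ne'
      have hΦc : ContinuousOn (fun p : ℝ × Pt => Phi Z c₁ (s p.1) (B p.1) p.2) (Icc 0 t ×ˢ K) := by
        unfold Phi
        have h1 : ContinuousOn (fun p : ℝ × Pt => ((p.2.1 / s p.1, p.2.2 / s p.1) : Pt))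
            (Icc 0 t ×ˢ K) :=
          (ContinuousOn.div (by fun_prop) hsc' hne).prodMk (ContinuousOn.div (by fun_prop) hsc' hne)
        have h2 := hPd.continuous.comp_continuousOn h1
        exact ((continuousOn_const.mul h2).sub continuousOn_const).sub hBc'
      have hθc : ContinuousOn (fun p : ℝ × Pt => θ p.1 p.2) (Icc 0 t ×ˢ K) :=
        (bl_cont hsol).mono fun p hp => ⟨hIccT _ hp.1, mem_univ _⟩
      have hθc' : ContinuousOn (fun p : ℝ × Pt => -θ p.1 (-p.2.1, p.2.2)) (Icc 0 t ×ˢ K) :=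
        (bl_cont hr_sol).mono fun p hp => ⟨hIccT _ hp.1, mem_univ _⟩
      exact (hθc.sub hΦc).inf (hθc'.sub hΦc)
    · -- initial data
      intro y _
      have h0m : (0 : ℝ) ∈ Ico 0 Tb := ⟨le_rfl, hTb⟩
      have hB0 := (hBmem 0 h0m).1
      simp only [hsol.init, lt_inf_iff, sub_pos, hs0]
      have hy1 := abs_le.1 (hθ₀ y)
      have hy2 := abs_le.1 (hθ₀ (-y.1, y.2))
      by_cases h1 : Psi Z c₁ (y.1 / s₀, y.2 / s₀) = 0
      · unfold Phi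
        rw [h1]
        constructor <;> linarith [hy1.1, hy2.2]
      · obtain ⟨h2, h3, h4⟩ := bl_Psi_scale hZ hc₁.le hc₁' hs₀ h1
        obtain ⟨h5, h6⟩ := hpl y h2.le h3.le h4.le
        have h7 := (hP01 (y.1 / s₀, y.2 / s₀)).2
        unfold Phi
        constructor <;> linarith
    · -- touching
      intro τ hτ y hy hzero hnn
      have hτ' : τ ∈ Icc 0 t := ⟨hτ.1.le, hτ.2⟩
      have hall : ∀ τ' ∈ Icc 0 τ, ∀ z : Pt, Phi Z c₁ (s τ') (B τ') z ≤ θ τ' z ∧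
          Phi Z c₁ (s τ') (B τ') z ≤ -θ τ' (-z.1, z.2) := by
        intro τ' hτ'' z
        have hm : τ' ∈ Icc 0 t := ⟨hτ''.1, hτ''.2.trans hτ.2⟩
        by_cases hz : z ∈ K
        · have h1 := hnn τ' hτ'' z hz
          simp only [le_inf_iff, sub_nonneg] at h1
          exact h1
        · have h1 := hout τ' (hIcc τ' hm) z hz
          have h2 := abs_le.1 (hmax τ' (hIccT τ' hm) z)
          have h3 := abs_le.1 (hmax τ' (hIccT τ' hm) (-z.1, z.2))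
          constructor <;> linarith [h2.1, h3.2]
      have hτm := hIcc τ hτ'
      have hst : s τ ∈ Ioc 0 sb := ⟨hspos τ hτm, (hsle τ hτm).trans hs₀sb⟩
      have hBt : B τ ∈ Ioc 0 b₀ := ⟨by linarith [(hBmem τ hτm).1], (hBmem τ hτm).2⟩
      rcases min_choice (θ τ y - Phi Z c₁ (s τ) (B τ) y)
        (-θ τ (-y.1, y.2) - Phi Z c₁ (s τ) (B τ) y) with hm | hm
      · rw [hm] at hzero
        exact bl_touch hc hα hα1 hκ hK₁ hstep hθ₀ hsol hτ.1 (hIccT τ hτ').2 (hs τ hτm).2.2 hst hBt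
          (hBder τ hτm) (hB' τ hτm) (x := y) (by linarith)
          (fun τ' hτ'' => (hall τ' hτ'' y).1) (fun z => (hall τ ⟨hτ.1.le, le_rfl⟩ z).1)
          (fun z => (hall τ ⟨hτ.1.le, le_rfl⟩ z).2)
      · rw [hm] at hzero
        exact bl_touch hc hα hα1 hκ hK₁ hstep hr_θ₀ hr_sol hτ.1 (hIccT τ hτ').2 (hs τ hτm).2.2 hst
          hBt (hBder τ hτm) (hB' τ hτm) (x := y) (by linarith)
          (fun τ' hτ'' => (hall τ' hτ'' y).2) (fun z => (hall τ ⟨hτ.1.le, le_rfl⟩ z).2)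
          (fun z => by
            have := (hall τ ⟨hτ.1.le, le_rfl⟩ z).1
            simpa using this)
  -- the contradiction at `(Tb, 0)`
  have hcon := bl_cont hsol
  have hpt : ContinuousWithinAt (fun p : ℝ × Pt => θ p.1 p.2) (Ico 0 T ×ˢ univ) (Tb, (0, 0)) :=
    hcon _ ⟨⟨hTb.le, hT⟩, mem_univ _⟩
  have hev : ∀ᶠ t in 𝓝[<] Tb, t ∈ Ioo 0 Tb := Ioo_mem_nhdsLT hTb
  have hid : Tendsto (fun t : ℝ => t) (𝓝[<] Tb) (𝓝 Tb) := tendsto_nhdsWithin_of_tendsto_nhds tendsto_id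
  have htend : ∀ c : ℝ, Tendsto (fun t : ℝ => θ t (c * s t, 0)) (𝓝[<] Tb) (𝓝 (θ Tb (0, 0))) := by
    intro c
    have h1 : Tendsto (fun t : ℝ => ((t, ((c * s t, 0) : Pt)) : ℝ × Pt)) (𝓝[<] Tb)
        (𝓝 (Tb, (0, 0))) := by
      refine hid.prodMk_nhds (Tendsto.prodMk_nhds ?_ tendsto_const_nhds)
      have := hlim.const_mul c
      rwa [mul_zero] at this
    have h2 : Tendsto (fun t : ℝ => ((t, ((c * s t, 0) : Pt)) : ℝ × Pt)) (𝓝[<] Tb)
        (𝓝[Ico 0 T ×ˢ univ] (Tb, (0, 0))) := by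
      refine tendsto_nhdsWithin_iff.2 ⟨h1, ?_⟩
      filter_upwards [hev] with t ht
      exact ⟨⟨ht.1.le, ht.2.trans hT⟩, mem_univ _⟩
    exact hpt.tendsto.comp h2
  have hval : ∀ t ∈ Ioo 0 Tb, 3 / 4 ≤ θ t (3 * s t, 0) ∧ θ t (-3 * s t, 0) ≤ -(3 / 4) := by
    intro t ht
    have ht' : t ∈ Ico 0 Tb := ⟨ht.1.le, ht.2⟩
    have h1 := hspos t ht'
    have h2 := hsle t ht'
    have hxK : ((3 * s t, 0) : Pt) ∈ K := ⟨⟨by simp only; linarith, by simp only; linarith⟩,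
      ⟨by norm_num, by norm_num⟩⟩
    have h3 := hmain t ht' _ hxK
    simp only [lt_inf_iff, sub_pos] at h3
    have h4 : Phi Z c₁ (s t) (B t) (3 * s t, 0) = 1 - B t := by
      unfold Phi
      have h5 : 3 * s t / s t = 3 := by field_simp
      simp only [h5, zero_div]
      rw [hPpl (3, 0) (by norm_num) (by simp only; linarith) (by simp only [abs_zero]; linarith)]
      ring
    rw [h4] at h3
    have h6 := (hBmem t ht').2
    have h7 : (-(3 * s t) : ℝ) = -3 * s t := by ring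
    rw [h7] at h3
    constructor <;> linarith [h3.1, h3.2]
  have hge : 3 / 4 ≤ θ Tb (0, 0) :=
    ge_of_tendsto (htend 3) (hev.mono fun t ht => (hval t ht).1)
  have hle : θ Tb (0, 0) ≤ -(3 / 4) :=
    le_of_tendsto (htend (-3)) (hev.mono fun t ht => (hval t ht).2)
  linarith

end H706.JFINAL2

namespace H706

alias blowup2 := JFINAL2.blowup2

end H706
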