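import Pool.Agent.Helper706_SQG.Defs2

/-!
JOB K1 (MP_96bed6_an, helper706).  A trigonometric kernel.
`DD p x = |∑_{j<p} e^{ijx}|² = ∑_{|j|<p} (p-|j|) e^{ijx}` is the unnormalised Fejér kernel, and
`KK m = T * G` with `T = (DD (4m) - DD (2m))/(2m)` (de la Vallée Poussin kernel, coefficients
`t(j) = ((4m-|j|)⁺ - (2m-|j|)⁺)/(2m)`, which is `1` for `|j| ≤ 2m`, `0` for `|j| ≥ 4m`, in `[0,1]`)
and `G = DD m / m²` (coefficients `g(j) = (m-|j|)⁺/m² ≥ 0`, with sum `1`).

PROOF.  (a) `DD p x = ∑_{|j|<p} (p-|j|) cos (j x)`: induction on `p`, since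
`DD (p+1) x - DD p x = 1 + 2 ∑_{j<p} cos ((p-j) x) = ∑_{|j| ≤ p} cos (j x)`.
(b) The product of two finite even trigonometric sums is the sum with the convolved coefficients
`w(k) = ∑_j g(j) t(k-j)`.
(c) `w(k) = ∑_{|j|<m} g(j) t(k-j)` is an average of values of `t` over `|j| < m`: for `|k| ≤ m` all
`|k-j| < 2m`, so `w(k) = 1`; for `|k| ≥ 5m` all `|k-j| > 4m`, so `w(k) = 0`; always in `[0,1]`; and
`w` is even. Finally `∑_{|k|<5m} w(k) e^{ikx} = 1 + 2 ∑_{1≤k<5m} w(k) cos (k x)`.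
-/

set_option autoImplicit false
open Set Filter Topology MeasureTheory

namespace H706.JK1

theorem DD_succ_aux (p : ℕ) (x : ℝ) :
    DD (p + 1) x = DD p x + 1 + 2 * ∑ k ∈ Finset.Icc 1 p, Real.cos (k * x) := by
  unfold DD
  rw [Finset.sum_range_succ, Complex.normSq_add, Complex.normSq_eq_norm_sq (Complex.exp _),
    Complex.norm_exp_ofReal_mul_I]
  have h1 : ∀ j : ℕ, (Complex.exp ((((j : ℝ) * x : ℝ) : ℂ) * Complex.I) *
      (starRingEnd ℂ) (Complex.exp ((((p : ℝ) * x : ℝ) : ℂ) * Complex.I))).re =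
      Real.cos (((p : ℝ) - j) * x) := by
    intro j
    rw [← Complex.exp_conj, ← Complex.exp_add]
    have : (((j : ℝ) * x : ℝ) : ℂ) * Complex.I +
        (starRingEnd ℂ) ((((p : ℝ) * x : ℝ) : ℂ) * Complex.I) =
        (((((j : ℝ) - p) * x : ℝ)) : ℂ) * Complex.I := by
      rw [map_mul, Complex.conj_ofReal, Complex.conj_I]
      push_cast
      ring
    rw [this, Complex.exp_ofReal_mul_I_re, ← Real.cos_neg]
    congr 1
    ring
  have h2 : ((∑ j ∈ Finset.range p, Complex.exp ((((j : ℝ) * x : ℝ) : ℂ) * Complex.I)) *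
      (starRingEnd ℂ) (Complex.exp ((((p : ℝ) * x : ℝ) : ℂ) * Complex.I))).re =
      ∑ k ∈ Finset.Icc 1 p, Real.cos (k * x) := by
    rw [Finset.sum_mul, Complex.re_sum]
    refine Finset.sum_bij (fun j _ => p - j) ?_ ?_ ?_ ?_
    · intro j hj
      have := Finset.mem_range.1 hj
      rw [Finset.mem_Icc]
      omega
    · intro a ha b hb hab
      have := Finset.mem_range.1 ha
      have := Finset.mem_range.1 hb
      omega
    · intro k hk
      have := Finset.mem_Icc.1 hk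
      refine ⟨p - k, Finset.mem_range.2 (by omega), by omega⟩
    · intro j hj
      have := Finset.mem_range.1 hj
      rw [h1 j, Nat.cast_sub this.le]
  rw [h2]
  ring

theorem tri_succ_aux (p k : ℕ) :
    max (((p + 1 : ℕ) : ℝ) - k) 0 = max ((p : ℝ) - k) 0 + (if k ≤ p then 1 else 0) := by
  split_ifs with h
  · have h' : (k : ℝ) ≤ p := by exact_mod_cast h
    push_cast
    rw [max_eq_left (by linarith), max_eq_left (by linarith)]
    ring
  · have h' : (p : ℝ) + 1 ≤ k := by exact_mod_cast (by omega : p + 1 ≤ k)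
    push_cast
    rw [max_eq_right (by linarith), max_eq_right (by linarith)]
    ring

theorem DD_one_sided (N : ℕ) (x : ℝ) : ∀ p : ℕ, p ≤ N →
    DD p x = p + 2 * ∑ k ∈ Finset.Icc 1 N, max ((p : ℝ) - k) 0 * Real.cos (k * x) := by
  intro p
  induction p with
  | zero =>
    intro _
    have : ∑ k ∈ Finset.Icc 1 N, max (((0 : ℕ) : ℝ) - (k : ℝ)) 0 * Real.cos (k * x) = 0 := by
      refine Finset.sum_eq_zero fun k _ => ?_
      rw [max_eq_right, zero_mul]
      have : (0 : ℝ) ≤ k := Nat.cast_nonneg k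
      push_cast
      linarith
    rw [this]
    simp [DD]
  | succ p ih =>
    intro hp
    rw [DD_succ_aux, ih (by omega)]
    have h1 : ∑ k ∈ Finset.Icc 1 N, max (((p + 1 : ℕ) : ℝ) - k) 0 * Real.cos (k * x) =
        ∑ k ∈ Finset.Icc 1 N, max ((p : ℝ) - k) 0 * Real.cos (k * x) +
        ∑ k ∈ Finset.Icc 1 p, Real.cos (k * x) := by
      have h2 : Finset.Icc 1 p = (Finset.Icc 1 N).filter (fun k => k ≤ p) := by
        ext k
        simp only [Finset.mem_Icc, Finset.mem_filter]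
        omega
      rw [h2, Finset.sum_filter, ← Finset.sum_add_distrib]
      refine Finset.sum_congr rfl fun k _ => ?_
      rw [tri_succ_aux]
      split_ifs <;> ring
    rw [h1]
    push_cast
    ring

theorem sum_even_aux (f : ℤ → ℝ) (hf : ∀ j, f (-j) = f j) (N : ℕ) :
    ∑ j ∈ Finset.Icc (-(N : ℤ)) N, f j = f 0 + 2 * ∑ k ∈ Finset.Icc 1 N, f (k : ℤ) := by
  induction N with
  | zero => simp
  | succ N ih =>
    have h1 : Finset.Icc (-((N + 1 : ℕ) : ℤ)) ((N + 1 : ℕ) : ℤ) =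
        insert (((N + 1 : ℕ) : ℤ)) (insert (-((N + 1 : ℕ) : ℤ)) (Finset.Icc (-(N : ℤ)) N)) := by
      ext k
      simp only [Finset.mem_Icc, Finset.mem_insert]
      push_cast
      omega
    rw [h1, Finset.sum_insert, Finset.sum_insert, ih, Finset.sum_Icc_succ_top (by omega), hf]
    · ring
    · simp only [Finset.mem_Icc]
      push_cast
      omega
    · simp only [Finset.mem_Icc, Finset.mem_insert]
      push_cast
      omega

/-- tri p j = (p - |j|)^+ -/
noncomputable def triZ (p : ℕ) (j : ℤ) : ℝ := max ((p : ℝ) - |(j : ℝ)|) 0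

theorem triZ_neg (p : ℕ) (j : ℤ) : triZ p (-j) = triZ p j := by
  unfold triZ
  push_cast
  rw [abs_neg]

theorem DD_twosided (N p : ℕ) (hp : p ≤ N) (x : ℝ) :
    DD p x = ∑ j ∈ Finset.Icc (-(N : ℤ)) N, triZ p j * Real.cos (j * x) := by
  rw [sum_even_aux (fun j => triZ p j * Real.cos (j * x)), DD_one_sided N x p hp]
  · simp [triZ]
  · intro j
    rw [triZ_neg]
    push_cast
    rw [neg_mul, Real.cos_neg]

/-- t coefficients -/
noncomputable def tC (m : ℕ) (j : ℤ) : ℝ := (triZ (4 * m) j - triZ (2 * m) j) / (2 * m)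
/-- g coefficients -/
noncomputable def gC (m : ℕ) (j : ℤ) : ℝ := triZ m j / (m : ℝ) ^ 2

theorem tC_neg (m : ℕ) (j : ℤ) : tC m (-j) = tC m j := by
  unfold tC
  rw [triZ_neg, triZ_neg]

theorem gC_neg (m : ℕ) (j : ℤ) : gC m (-j) = gC m j := by
  unfold gC
  rw [triZ_neg]

theorem gC_nonneg (m : ℕ) (j : ℤ) : 0 ≤ gC m j := by
  unfold gC triZ
  positivity

theorem gC_zero (m : ℕ) (j : ℤ) (h : m ≤ |j|) : gC m j = 0 := by
  unfold gC triZ
  have : (m : ℝ) ≤ |(j : ℝ)| := by exact_mod_cast h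
  rw [max_eq_right (by linarith), zero_div]

theorem tC_mem (m : ℕ) (hm : 1 ≤ m) (j : ℤ) : 0 ≤ tC m j ∧ tC m j ≤ 1 := by
  have hm' : (0 : ℝ) < 2 * m := by
    have : (1 : ℝ) ≤ m := by exact_mod_cast hm
    linarith
  unfold tC
  have h0 : (0 : ℝ) ≤ |(j : ℝ)| := abs_nonneg _
  unfold triZ
  push_cast
  constructor
  · apply div_nonneg _ hm'.le
    rw [sub_nonneg]
    apply max_le_max _ le_rfl
    linarith
  · rw [div_le_one hm', sub_le_iff_le_add]
    apply max_le
    · have := le_max_left (2 * (m : ℝ) - |(j : ℝ)|) 0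
      linarith
    · have := le_max_right (2 * (m : ℝ) - |(j : ℝ)|) 0
      linarith

theorem tC_one (m : ℕ) (hm : 1 ≤ m) (j : ℤ) (hj : |j| ≤ 2 * m) : tC m j = 1 := by
  have hm' : (0 : ℝ) < 2 * m := by
    have : (1 : ℝ) ≤ m := by exact_mod_cast hm
    linarith
  have hj' : |(j : ℝ)| ≤ 2 * m := by exact_mod_cast hj
  unfold tC triZ
  push_cast
  rw [max_eq_left (by linarith), max_eq_left (by linarith), div_eq_one_iff_eq hm'.ne']
  ring

theorem tC_zero (m : ℕ) (j : ℤ) (hj : 4 * m ≤ |j|) : tC m j = 0 := by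
  have hj' : 4 * (m : ℝ) ≤ |(j : ℝ)| := by exact_mod_cast hj
  have h0 : (0 : ℝ) ≤ m := Nat.cast_nonneg m
  unfold tC triZ
  push_cast
  rw [max_eq_right (by linarith), max_eq_right (by linarith)]
  simp

theorem DD_zero_val (p : ℕ) : DD p 0 = (p : ℝ) ^ 2 := by
  unfold DD
  simp [Complex.normSq_natCast, sq]

theorem gC_sum (m : ℕ) (hm : 1 ≤ m) : ∑ j ∈ Finset.Icc (-(m : ℤ)) m, gC m j = 1 := by
  have hm' : (0 : ℝ) < m := by
    have : (1 : ℝ) ≤ m := by exact_mod_cast hm
    linarith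
  have h := DD_twosided m m le_rfl 0
  rw [DD_zero_val] at h
  unfold gC
  rw [← Finset.sum_div, div_eq_one_iff_eq (by positivity)]
  rw [h]
  refine Finset.sum_congr rfl fun j _ => ?_
  simp

theorem prod_conv (m : ℕ) (x : ℝ) :
    KK m x = ∑ k ∈ Finset.Icc (-((5 * m : ℕ) : ℤ)) ((5 * m : ℕ) : ℤ),
      (∑ j ∈ Finset.Icc (-(m : ℤ)) m, gC m j * tC m (k - j)) * Real.cos (k * x) := by
  have hT : (DD (4 * m) x - DD (2 * m) x) / (2 * m) =
      ∑ a ∈ Finset.Icc (-((4 * m : ℕ) : ℤ)) ((4 * m : ℕ) : ℤ), tC m a * Real.cos (a * x) := by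
    rw [DD_twosided (4 * m) (4 * m) le_rfl, DD_twosided (4 * m) (2 * m) (by omega),
      ← Finset.sum_sub_distrib, Finset.sum_div]
    refine Finset.sum_congr rfl fun j _ => ?_
    unfold tC
    ring
  have hG : DD m x / (m : ℝ) ^ 2 =
      ∑ b ∈ Finset.Icc (-(m : ℤ)) m, gC m b * Real.cos (b * x) := by
    rw [DD_twosided m m le_rfl, Finset.sum_div]
    refine Finset.sum_congr rfl fun j _ => ?_
    unfold gC
    ring
  have hshift : ∀ b ∈ Finset.Icc (-(m : ℤ)) m,
      ∑ a ∈ Finset.Icc (-((4 * m : ℕ) : ℤ)) ((4 * m : ℕ) : ℤ),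
        tC m a * Real.cos (((a + b : ℤ) : ℝ) * x) =
      ∑ k ∈ Finset.Icc (-((5 * m : ℕ) : ℤ)) ((5 * m : ℕ) : ℤ),
        tC m (k - b) * Real.cos (k * x) := by
    intro b hb
    have hb' := Finset.mem_Icc.1 hb
    refine Finset.sum_bij_ne_zero (fun a _ _ => a + b) ?_ ?_ ?_ ?_
    · intro a ha _
      have := Finset.mem_Icc.1 ha
      rw [Finset.mem_Icc]
      push_cast at this ⊢
      omega
    · intro a _ _ a' _ _ h
      omega
    · intro k hk hne
      refine ⟨k - b, ?_, ?_, by ring⟩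
      · have h1 : tC m (k - b) ≠ 0 := left_ne_zero_of_mul hne
        have h2 : |k - b| < 4 * m := by
          by_contra hcon
          exact h1 (tC_zero m _ (not_lt.1 hcon))
        rw [abs_lt] at h2
        rw [Finset.mem_Icc]
        push_cast
        omega
      · have : k - b + b = k := by ring
        rw [this]
        exact hne
    · intro a _ _
      have : a + b - b = a := by ring
      rw [this]
  have hrefl : ∀ F : ℤ → ℝ, ∑ b ∈ Finset.Icc (-(m : ℤ)) m, F (-b) =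
      ∑ b ∈ Finset.Icc (-(m : ℤ)) m, F b := by
    intro F
    refine Finset.sum_bij (fun b _ => -b) ?_ ?_ ?_ ?_
    · intro b hb
      have := Finset.mem_Icc.1 hb
      rw [Finset.mem_Icc]
      omega
    · intro a _ b _ h
      omega
    · intro b hb
      have := Finset.mem_Icc.1 hb
      exact ⟨-b, Finset.mem_Icc.2 (by omega), by ring⟩
    · intro b _
      rfl
  unfold KK
  rw [hT, hG, Finset.sum_mul_sum, Finset.sum_comm]
  have step : ∀ b ∈ Finset.Icc (-(m : ℤ)) m,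
      ∑ a ∈ Finset.Icc (-((4 * m : ℕ) : ℤ)) ((4 * m : ℕ) : ℤ),
        tC m a * Real.cos (a * x) * (gC m b * Real.cos (b * x)) =
      gC m b / 2 * (∑ k ∈ Finset.Icc (-((5 * m : ℕ) : ℤ)) ((5 * m : ℕ) : ℤ),
        tC m (k - b) * Real.cos (k * x)) +
      gC m (-b) / 2 * (∑ k ∈ Finset.Icc (-((5 * m : ℕ) : ℤ)) ((5 * m : ℕ) : ℤ),
        tC m (k - (-b)) * Real.cos (k * x)) := by
    intro b hb
    have hb2 : -b ∈ Finset.Icc (-(m : ℤ)) m := by
      have := Finset.mem_Icc.1 hb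
      rw [Finset.mem_Icc]
      omega
    rw [← hshift b hb, ← hshift (-b) hb2, gC_neg, Finset.mul_sum, Finset.mul_sum,
      ← Finset.sum_add_distrib]
    refine Finset.sum_congr rfl fun a _ => ?_
    push_cast
    rw [add_mul, add_mul, Real.cos_add, Real.cos_add, neg_mul, Real.cos_neg, Real.sin_neg]
    ring
  rw [Finset.sum_congr rfl step, Finset.sum_add_distrib,
    hrefl (fun b => gC m b / 2 * (∑ k ∈ Finset.Icc (-((5 * m : ℕ) : ℤ)) ((5 * m : ℕ) : ℤ),
        tC m (k - b) * Real.cos (k * x))), ← Finset.sum_add_distrib]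
  have step2 : ∀ b ∈ Finset.Icc (-(m : ℤ)) m,
      (gC m b / 2 * (∑ k ∈ Finset.Icc (-((5 * m : ℕ) : ℤ)) ((5 * m : ℕ) : ℤ),
        tC m (k - b) * Real.cos (k * x)) +
      gC m b / 2 * (∑ k ∈ Finset.Icc (-((5 * m : ℕ) : ℤ)) ((5 * m : ℕ) : ℤ),
        tC m (k - b) * Real.cos (k * x))) =
      ∑ k ∈ Finset.Icc (-((5 * m : ℕ) : ℤ)) ((5 * m : ℕ) : ℤ),
        gC m b * tC m (k - b) * Real.cos (k * x) := by
    intro b _
    rw [← two_mul, Finset.mul_sum, Finset.mul_sum]
    refine Finset.sum_congr rfl fun k _ => ?_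
    ring
  rw [Finset.sum_congr rfl step2, Finset.sum_comm]
  refine Finset.sum_congr rfl fun k _ => ?_
  rw [Finset.sum_mul]

/-- TARGET -/
theorem KK_fourier (m : ℕ) (hm : 1 ≤ m) : ∃ w : ℕ → ℝ, (∀ k, 0 ≤ w k ∧ w k ≤ 1) ∧
    (∀ k, k ≤ m → w k = 1) ∧ (∀ k, 5 * m ≤ k → w k = 0) ∧
    ∀ x, KK m x = 1 + 2 * ∑ k ∈ Finset.Ico 1 (5 * m), w k * Real.cos (k * x) := by
  obtain ⟨W, hW⟩ : ∃ W : ℤ → ℝ, W = fun k => ∑ j ∈ Finset.Icc (-(m : ℤ)) m,
    gC m j * tC m (k - j) := ⟨_, rfl⟩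
  have hone : ∀ k : ℤ, |k| ≤ m → W k = 1 := by
    intro k hk
    rw [hW]
    simp only
    rw [← gC_sum m hm]
    refine Finset.sum_congr rfl fun j hj => ?_
    have hj' := Finset.mem_Icc.1 hj
    rw [tC_one m hm, mul_one]
    rw [abs_le] at hk ⊢
    omega
  have hzero : ∀ k : ℤ, 5 * m ≤ k → W k = 0 := by
    intro k hk
    rw [hW]
    simp only
    refine Finset.sum_eq_zero fun j hj => ?_
    have hj' := Finset.mem_Icc.1 hj
    rw [tC_zero, mul_zero]
    rw [le_abs]
    left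
    omega
  have hmem : ∀ k : ℤ, 0 ≤ W k ∧ W k ≤ 1 := by
    intro k
    rw [hW]
    simp only
    constructor
    · exact Finset.sum_nonneg fun j _ => mul_nonneg (gC_nonneg m j) (tC_mem m hm _).1
    · rw [← gC_sum m hm]
      refine Finset.sum_le_sum fun j _ => ?_
      exact mul_le_of_le_one_right (gC_nonneg m j) (tC_mem m hm _).2
  have heven : ∀ k : ℤ, W (-k) = W k := by
    intro k
    rw [hW]
    simp only
    refine Finset.sum_bij (fun b _ => -b) ?_ ?_ ?_ ?_
    · intro b hb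
      have := Finset.mem_Icc.1 hb
      rw [Finset.mem_Icc]
      omega
    · intro a _ b _ h
      omega
    · intro b hb
      have := Finset.mem_Icc.1 hb
      exact ⟨-b, Finset.mem_Icc.2 (by omega), by ring⟩
    · intro b _
      rw [gC_neg, ← tC_neg m (-k - b)]
      congr 2
      ring
  refine ⟨fun k => W k, fun k => hmem _, ?_, ?_, ?_⟩
  · intro k hk
    apply hone
    rw [abs_of_nonneg (by omega)]
    exact_mod_cast hk
  · intro k hk
    apply hzero
    exact_mod_cast hk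
  · intro x
    rw [prod_conv]
    have h1 : ∀ k : ℤ, (∑ j ∈ Finset.Icc (-(m : ℤ)) m, gC m j * tC m (k - j)) = W k := by
      intro k
      rw [hW]
    simp only [h1]
    rw [sum_even_aux (fun k => W k * Real.cos (k * x))]
    · have h2 : Finset.Icc 1 (5 * m) = insert (5 * m) (Finset.Ico 1 (5 * m)) := by
        ext k
        simp only [Finset.mem_Icc, Finset.mem_insert, Finset.mem_Ico]
        omega
      rw [h2, Finset.sum_insert (by simp)]
      simp only [Int.cast_natCast]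
      rw [hzero ((5 * m : ℕ) : ℤ) (by push_cast; exact le_rfl), hone 0 (by simp)]
      simp
    · intro j
      rw [heven]
      push_cast
      rw [neg_mul, Real.cos_neg]

end H706.JK1

namespace H706

alias KK_fourier := JK1.KK_fourier

end H706
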