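import Pool.Agent.Helper706_SQG.Defs2
import Pool.Agent.Helper706_SQG.K1

/-!
JOB K2 (MP_96bed6_an, helper706).  Size of the kernel `KK`, and its primitive.

PROOF.  `DD p x ≤ p²` (triangle inequality) and `DD p x ≤ π²/x²` for `0 < x ≤ π`, because
`|∑_{j<p} e^{ijx}| = |e^{ipx}-1|/|e^{ix}-1| ≤ 2/|2 sin (x/2)| ≤ π/x` (Jordan: `sin (x/2) ≥ x/π`).
Hence, with `u = m x`: `|DD (4m) x - DD (2m) x|/(2m) ≤ min (16 m²+..., π²/x²)/(2m) ≤ C m min(1,1/u²)`
and `DD m x/m² ≤ min (1, π²/u²)`, so `|KK m x| ≤ C m min(1,1/u²)² ≤ C' m/(1+u)⁴`.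
With `S m x = (1/π) ∫_0^x KK m`: `|S m x| ≤ C m x`. `S m π = 1` by the given Fourier expansion
(`∫_0^π cos (k x) dx = 0` for `k ≥ 1`), so `1 - S m x = (1/π) ∫_x^π KK m`, which is at most
`C ∫_x^∞ m/(1+m y)⁴ dy = C/(3 (1+m x)³)`.
-/

set_option autoImplicit false
open Set Filter Topology MeasureTheory

namespace H706.JK2

theorem K2_DD_nonneg (p : ℕ) (x : ℝ) : 0 ≤ DD p x := Complex.normSq_nonneg _

theorem K2_DD_le (p : ℕ) (x : ℝ) : DD p x ≤ (p : ℝ) ^ 2 := by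
  unfold DD
  rw [Complex.normSq_eq_norm_sq]
  apply pow_le_pow_left₀ (norm_nonneg _)
  refine (norm_sum_le _ _).trans ?_
  have : ∀ j ∈ Finset.range p, ‖Complex.exp ((((j : ℝ) * x : ℝ) : ℂ) * Complex.I)‖ ≤ 1 := by
    intro j _
    rw [Complex.norm_exp_ofReal_mul_I]
  refine (Finset.sum_le_sum this).trans ?_
  simp

theorem K2_DD_mul (p : ℕ) {x : ℝ} (h0 : 0 ≤ x) (h1 : x ≤ Real.pi) :
    DD p x * x ^ 2 ≤ Real.pi ^ 2 := by
  have hpi := Real.pi_pos
  set w : ℂ := Complex.exp ((x : ℂ) * Complex.I) with hw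
  have hsum : ∑ j ∈ Finset.range p, Complex.exp ((((j : ℝ) * x : ℝ) : ℂ) * Complex.I) =
      ∑ j ∈ Finset.range p, w ^ j := by
    apply Finset.sum_congr rfl
    intro j _
    rw [hw, ← Complex.exp_nat_mul]
    congr 1
    push_cast
    ring
  have hg : (∑ j ∈ Finset.range p, w ^ j) * (w - 1) = w ^ p - 1 := geom_sum_mul w p
  have hnw : ‖w‖ = 1 := Complex.norm_exp_ofReal_mul_I x
  have h2 : ‖w ^ p - 1‖ ≤ 2 := by
    calc ‖w ^ p - 1‖ ≤ ‖w ^ p‖ + ‖(1 : ℂ)‖ := norm_sub_le _ _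
      _ = 2 := by rw [norm_pow, hnw]; norm_num
  have h3 : ‖w - 1‖ = 2 * Real.sin (x / 2) := by
    have h4 : 0 ≤ Real.sin (x / 2) := Real.sin_nonneg_of_nonneg_of_le_pi (by linarith) (by linarith)
    have h5 : ‖Complex.exp (Complex.I * (x : ℂ)) - 1‖ = ‖2 * Real.sin (x / 2)‖ :=
      Complex.norm_exp_I_mul_ofReal_sub_one x
    rw [hw, mul_comm (x : ℂ), h5, Real.norm_eq_abs, abs_of_nonneg (by positivity)]
  have h6 : x / Real.pi ≤ Real.sin (x / 2) := by
    have := Real.mul_le_sin (x := x / 2) (by linarith) (by linarith)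
    calc x / Real.pi = 2 / Real.pi * (x / 2) := by ring
      _ ≤ _ := this
  have h7 : ‖∑ j ∈ Finset.range p, w ^ j‖ * ‖w - 1‖ ≤ 2 := by
    rw [← norm_mul, hg]; exact h2
  set N := ‖∑ j ∈ Finset.range p, w ^ j‖ with hN
  have hN0 : 0 ≤ N := norm_nonneg _
  have h8 : N * (2 * (x / Real.pi)) ≤ 2 := by
    refine le_trans ?_ h7
    rw [h3]
    exact mul_le_mul_of_nonneg_left (by linarith) hN0
  have h9 : N * x ≤ Real.pi := by
    have h10 : N * (2 * (x / Real.pi)) = 2 * (N * x) / Real.pi := by ring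
    rw [h10, div_le_iff₀ hpi] at h8
    linarith
  have h11 : DD p x = N ^ 2 := by
    unfold DD
    rw [Complex.normSq_eq_norm_sq, hsum]
  rw [h11, ← mul_pow]
  exact pow_le_pow_left₀ (mul_nonneg hN0 h0) h9 2

theorem K2_bound {m : ℕ} (hm : 1 ≤ m) {x : ℝ} (h0 : 0 ≤ x) (h1 : x ≤ Real.pi) :
    |KK m x| ≤ 600 * m / (1 + m * x) ^ 4 := by
  have hpi := Real.pi_lt_d2
  have hpi0 := Real.pi_pos
  have hpi2 : Real.pi ^ 2 ≤ 10 := by nlinarith
  have hm1 : (1 : ℝ) ≤ m := by exact_mod_cast hm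
  have hm0 : (0 : ℝ) < m := by linarith
  set u : ℝ := m * x with hu
  have hu0 : 0 ≤ u := mul_nonneg hm0.le h0
  -- first factor
  have a1 : |DD (4 * m) x - DD (2 * m) x| ≤ 16 * (m : ℝ) ^ 2 := by
    have e1 := K2_DD_le (4 * m) x
    have e2 := K2_DD_le (2 * m) x
    have e3 := K2_DD_nonneg (4 * m) x
    have e4 := K2_DD_nonneg (2 * m) x
    push_cast at e1 e2
    rw [abs_le]
    constructor <;> nlinarith
  have a2 : |DD (4 * m) x - DD (2 * m) x| * x ^ 2 ≤ 10 := by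
    have e1 := K2_DD_mul (4 * m) h0 h1
    have e2 := K2_DD_mul (2 * m) h0 h1
    have e3 : 0 ≤ DD (4 * m) x * x ^ 2 := mul_nonneg (K2_DD_nonneg _ _) (sq_nonneg _)
    have e4 : 0 ≤ DD (2 * m) x * x ^ 2 := mul_nonneg (K2_DD_nonneg _ _) (sq_nonneg _)
    have e5 : |DD (4 * m) x - DD (2 * m) x| * x ^ 2 =
        |DD (4 * m) x * x ^ 2 - DD (2 * m) x * x ^ 2| := by
      rw [← sub_mul, abs_mul, abs_of_nonneg (sq_nonneg x)]
    rw [e5, abs_le]
    constructor <;> linarith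
  set P := |DD (4 * m) x - DD (2 * m) x| with hP
  have hP0 : 0 ≤ P := abs_nonneg _
  have a3 : P / (2 * m) * (1 + u) ^ 2 ≤ 26 * m := by
    rw [div_mul_eq_mul_div, div_le_iff₀ (by positivity)]
    have e1 : (1 + u) ^ 2 ≤ 2 * (1 + u ^ 2) := by nlinarith [sq_nonneg (1 - u)]
    have e2 : P * (1 + u) ^ 2 ≤ P * (2 * (1 + u ^ 2)) := mul_le_mul_of_nonneg_left e1 hP0
    have e3 : P * (2 * (1 + u ^ 2)) = 2 * P + 2 * (m : ℝ) ^ 2 * (P * x ^ 2) := by rw [hu]; ring
    have e4 : 2 * (m : ℝ) ^ 2 * (P * x ^ 2) ≤ 2 * (m : ℝ) ^ 2 * 10 :=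
      mul_le_mul_of_nonneg_left a2 (by positivity)
    nlinarith
  -- second factor
  have b1 : DD m x ≤ (m : ℝ) ^ 2 := K2_DD_le m x
  have b2 : DD m x * x ^ 2 ≤ 10 := (K2_DD_mul m h0 h1).trans hpi2
  have b0 : 0 ≤ DD m x := K2_DD_nonneg m x
  have b3 : DD m x / (m : ℝ) ^ 2 * (1 + u) ^ 2 ≤ 22 := by
    rw [div_mul_eq_mul_div, div_le_iff₀ (by positivity)]
    have e1 : (1 + u) ^ 2 ≤ 2 * (1 + u ^ 2) := by nlinarith [sq_nonneg (1 - u)]
    have e2 : DD m x * (1 + u) ^ 2 ≤ DD m x * (2 * (1 + u ^ 2)) := mul_le_mul_of_nonneg_left e1 b0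
    have e3 : DD m x * (2 * (1 + u ^ 2)) = 2 * DD m x + 2 * (m : ℝ) ^ 2 * (DD m x * x ^ 2) := by
      rw [hu]; ring
    have e4 : 2 * (m : ℝ) ^ 2 * (DD m x * x ^ 2) ≤ 2 * (m : ℝ) ^ 2 * 10 :=
      mul_le_mul_of_nonneg_left b2 (by positivity)
    nlinarith
  have hK : |KK m x| = P / (2 * m) * (DD m x / (m : ℝ) ^ 2) := by
    unfold KK
    rw [abs_mul, abs_div, abs_of_pos (by positivity : (0 : ℝ) < 2 * m),
      abs_of_nonneg (by positivity : 0 ≤ DD m x / (m : ℝ) ^ 2)]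
  rw [hK, le_div_iff₀ (by positivity)]
  have c1 := mul_le_mul a3 b3 (by positivity) (by positivity)
  have c2 : P / (2 * (m : ℝ)) * (DD m x / (m : ℝ) ^ 2) * (1 + u) ^ 4 =
      (P / (2 * (m : ℝ)) * (1 + u) ^ 2) * (DD m x / (m : ℝ) ^ 2 * (1 + u) ^ 2) := by ring
  rw [c2]
  linarith

theorem K2_cont (m : ℕ) : Continuous (KK m) := by
  have h : ∀ p : ℕ, Continuous (DD p) := by
    intro p
    unfold DD
    apply Complex.continuous_normSq.comp
    fun_prop
  unfold KK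
  exact (((h _).sub (h _)).div_const _).mul ((h _).div_const _)

theorem K2_int (m : ℕ) (hm : 1 ≤ m) : ∫ y in (0 : ℝ)..Real.pi, KK m y = Real.pi := by
  obtain ⟨w, -, -, -, hw⟩ := KK_fourier m hm
  have hcos : ∀ k ∈ Finset.Ico 1 (5 * m), ∫ y in (0 : ℝ)..Real.pi, w k * Real.cos (k * y) = 0 := by
    intro k hk
    rw [Finset.mem_Ico] at hk
    have hk0 : (k : ℝ) ≠ 0 := by
      have : k ≠ 0 := by omega
      exact_mod_cast this
    rw [intervalIntegral.integral_const_mul]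
    have : ∫ y in (0 : ℝ)..Real.pi, Real.cos (k * y) = 0 := by
      rw [intervalIntegral.integral_comp_mul_left (fun y => Real.cos y) hk0, integral_cos]
      rw [mul_zero, Real.sin_zero, Real.sin_nat_mul_pi]
      simp
    rw [this, mul_zero]
  have e1 : (fun y => KK m y) = fun y => 1 + 2 * ∑ k ∈ Finset.Ico 1 (5 * m), w k * Real.cos (k * y) := by
    funext y
    exact hw y
  rw [show (∫ y in (0 : ℝ)..Real.pi, KK m y) = ∫ y in (0 : ℝ)..Real.pi,
    (1 + 2 * ∑ k ∈ Finset.Ico 1 (5 * m), w k * Real.cos (k * y)) from by rw [← e1]]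
  rw [intervalIntegral.integral_add, intervalIntegral.integral_const_mul,
    intervalIntegral.integral_finsetSum, Finset.sum_eq_zero hcos]
  · simp
  · intro k _
    apply Continuous.intervalIntegrable
    fun_prop
  · exact intervalIntegrable_const
  · apply Continuous.intervalIntegrable
    fun_prop

/-- TARGET -/
theorem KK_bounds : ∃ C : ℝ, 1 ≤ C ∧ ∀ m : ℕ, 1 ≤ m → ∀ x ∈ Icc 0 Real.pi,
    |KK m x| ≤ C * m / (1 + m * x) ^ 4 ∧
    |(1 / Real.pi) * ∫ y in (0 : ℝ)..x, KK m y| ≤ C * (m * x) ∧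
    |1 - (1 / Real.pi) * ∫ y in (0 : ℝ)..x, KK m y| ≤ C / (1 + m * x) ^ 3 := by
  refine ⟨600, by norm_num, ?_⟩
  intro m hm x hx
  obtain ⟨h0, h1⟩ := hx
  have hpi0 := Real.pi_pos
  have hpi3 := Real.pi_gt_three
  have hm1 : (1 : ℝ) ≤ m := by exact_mod_cast hm
  have hm0 : (0 : ℝ) < m := by linarith
  refine ⟨K2_bound hm h0 h1, ?_, ?_⟩
  · have h2 : ‖∫ y in (0 : ℝ)..x, KK m y‖ ≤ (600 * m) * |x - 0| := by
      apply intervalIntegral.norm_integral_le_of_norm_le_const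
      intro y hy
      rw [uIoc_of_le h0] at hy
      have h3 := K2_bound hm hy.1.le (hy.2.trans h1)
      rw [Real.norm_eq_abs]
      refine h3.trans ?_
      apply div_le_self (by positivity)
      apply one_le_pow₀
      have : 0 ≤ (m : ℝ) * y := mul_nonneg hm0.le hy.1.le
      linarith
    rw [sub_zero, abs_of_nonneg h0, Real.norm_eq_abs] at h2
    rw [abs_mul, abs_of_pos (by positivity)]
    have h4 : 1 / Real.pi ≤ 1 := by
      rw [div_le_one hpi0]; linarith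
    calc 1 / Real.pi * |∫ y in (0 : ℝ)..x, KK m y| ≤ 1 * |∫ y in (0 : ℝ)..x, KK m y| :=
          mul_le_mul_of_nonneg_right h4 (abs_nonneg _)
      _ ≤ 600 * (m * x) := by rw [one_mul]; linarith
  · have hii : ∀ a b, IntervalIntegrable (KK m) volume a b := fun a b =>
      (K2_cont m).intervalIntegrable a b
    have e1 : 1 - (1 / Real.pi) * ∫ y in (0 : ℝ)..x, KK m y =
        (1 / Real.pi) * ∫ y in x..Real.pi, KK m y := by
      have e2 := intervalIntegral.integral_add_adjacent_intervals (hii 0 x) (hii x Real.pi)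
      rw [K2_int m hm] at e2
      have e3 : ∫ y in x..Real.pi, KK m y = Real.pi - ∫ y in (0 : ℝ)..x, KK m y := by linarith
      rw [e3]
      field_simp
    have hder : ∀ y ∈ uIcc x Real.pi, HasDerivAt (fun y : ℝ => -(200 * ((1 + m * y) ^ 3)⁻¹))
        (600 * m / (1 + m * y) ^ 4) y := by
      intro y hy
      rw [uIcc_of_le h1] at hy
      have hy0 : 0 ≤ y := h0.trans hy.1
      have hpos : 0 < 1 + (m : ℝ) * y := by positivity
      have d1 : HasDerivAt (fun y : ℝ => 1 + (m : ℝ) * y) ((m : ℝ) * 1) y :=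
        ((hasDerivAt_id y).const_mul (m : ℝ)).const_add 1
      have d2 := ((d1.pow 3).inv (pow_pos hpos 3).ne').const_mul (200 : ℝ)
      have d3 := d2.neg
      refine d3.congr_deriv ?_
      simp only [Pi.pow_apply]
      field_simp
      ring
    have hgc : ContinuousOn (fun y : ℝ => 600 * m / (1 + m * y) ^ 4) (uIcc x Real.pi) := by
      apply ContinuousOn.div continuousOn_const (by fun_prop)
      intro y hy
      rw [uIcc_of_le h1] at hy
      have hy0 : 0 ≤ y := h0.trans hy.1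
      positivity
    have h5 : ‖∫ y in x..Real.pi, KK m y‖ ≤ ∫ y in x..Real.pi, 600 * m / (1 + m * y) ^ 4 := by
      apply intervalIntegral.norm_integral_le_of_norm_le h1
      · refine Filter.Eventually.of_forall ?_
        intro y hy
        rw [Real.norm_eq_abs]
        exact K2_bound hm (h0.trans hy.1.le) hy.2
      · exact hgc.intervalIntegrable
    rw [intervalIntegral.integral_eq_sub_of_hasDerivAt hder hgc.intervalIntegrable,
      Real.norm_eq_abs] at h5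
    rw [e1, abs_mul, abs_of_pos (by positivity)]
    have h4 : 1 / Real.pi ≤ 1 := by
      rw [div_le_one hpi0]; linarith
    have h6 : 0 ≤ 200 * ((1 + (m : ℝ) * Real.pi) ^ 3)⁻¹ := by positivity
    have h7 : 0 ≤ ((1 + (m : ℝ) * x) ^ 3)⁻¹ := by positivity
    calc 1 / Real.pi * |∫ y in x..Real.pi, KK m y| ≤ 1 * |∫ y in x..Real.pi, KK m y| :=
          mul_le_mul_of_nonneg_right h4 (abs_nonneg _)
      _ ≤ 200 * ((1 + (m : ℝ) * x) ^ 3)⁻¹ := by rw [one_mul]; linarith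
      _ ≤ 600 * ((1 + (m : ℝ) * x) ^ 3)⁻¹ := by linarith
      _ = 600 / (1 + m * x) ^ 3 := by rw [div_eq_mul_inv]

end H706.JK2

namespace H706

alias KK_bounds := JK2.KK_bounds

end H706
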