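import Pool.Agent.Helper706_SQG.Defs2
import Pool.Agent.Helper706_SQG.K1
import Pool.Agent.Helper706_SQG.K2

set_option autoImplicit false
open Set Filter Topology MeasureTheory

namespace H706.JKA

theorem KA_hasDeriv {m : ℕ} {w : ℕ → ℝ} (h : ∀ x, KK m x =
    1 + 2 * ∑ k ∈ Finset.Ico 1 (5 * m), w k * Real.cos (k * x)) (x : ℝ) :
    HasDerivAt (fun x : ℝ => x / Real.pi + ∑ k ∈ Finset.Ico 1 (5 * m),
      w k * (2 / (Real.pi * k)) * Real.sin (k * x)) (KK m x / Real.pi) x := by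
  have h1 : ∀ k ∈ Finset.Ico 1 (5 * m),
      HasDerivAt (fun x : ℝ => w k * (2 / (Real.pi * k)) * Real.sin (k * x))
        (w k * (2 / Real.pi) * Real.cos (k * x)) x := by
    intro k hk
    have hk1 : 1 ≤ k := (Finset.mem_Ico.1 hk).1
    have hk0 : (k : ℝ) ≠ 0 := by positivity
    have hpi := Real.pi_ne_zero
    have h2 : HasDerivAt (fun x : ℝ => (k : ℝ) * x) k x := by
      simpa using (hasDerivAt_id x).const_mul (k : ℝ)
    have h3 := (h2.sin).const_mul (w k * (2 / (Real.pi * k)))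
    refine h3.congr_deriv ?_
    field_simp
  have h4 := HasDerivAt.fun_sum h1
  have h5 := ((hasDerivAt_id x).div_const Real.pi).add h4
  refine h5.congr_deriv ?_
  rw [h, add_div, Finset.mul_sum, Finset.sum_div]
  congr 1
  refine Finset.sum_congr rfl fun k _ => ?_
  ring

theorem KA_cont {m : ℕ} {w : ℕ → ℝ} (h : ∀ x, KK m x =
    1 + 2 * ∑ k ∈ Finset.Ico 1 (5 * m), w k * Real.cos (k * x)) : Continuous (KK m) := by
  have : KK m = fun x : ℝ => 1 + 2 * ∑ k ∈ Finset.Ico 1 (5 * m), w k * Real.cos (k * x) :=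
    funext h
  rw [this]
  fun_prop

theorem KA_int {m : ℕ} {w : ℕ → ℝ} (h : ∀ x, KK m x =
    1 + 2 * ∑ k ∈ Finset.Ico 1 (5 * m), w k * Real.cos (k * x)) (x : ℝ) :
    (1 / Real.pi) * ∫ y in (0 : ℝ)..x, KK m y = x / Real.pi + ∑ k ∈ Finset.Ico 1 (5 * m),
      w k * (2 / (Real.pi * k)) * Real.sin (k * x) := by
  rw [← intervalIntegral.integral_const_mul]
  have h1 := intervalIntegral.integral_eq_sub_of_hasDerivAt (a := 0) (b := x)
    (fun y _ => KA_hasDeriv h y) (((KA_cont h).div_const Real.pi).intervalIntegrable _ _)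
  have h2 : ∀ y, 1 / Real.pi * KK m y = KK m y / Real.pi := fun y => by ring
  simp only [h2]
  rw [h1]
  simp

theorem KA_eq {P Q : ℕ} (hPQ : P ≤ Q) {u v : ℕ → ℝ} (hu : ∀ k, 5 * P ≤ k → u k = 0)
    (x : ℝ) : ∑ k ∈ Finset.Ico 1 (5 * Q), (v k - u k) * (2 / (Real.pi * k)) * Real.sin (k * x) =
      (x / Real.pi + ∑ k ∈ Finset.Ico 1 (5 * Q), v k * (2 / (Real.pi * k)) * Real.sin (k * x)) -
      (x / Real.pi + ∑ k ∈ Finset.Ico 1 (5 * P), u k * (2 / (Real.pi * k)) * Real.sin (k * x)) := by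
  have h1 : ∑ k ∈ Finset.Ico 1 (5 * P), u k * (2 / (Real.pi * k)) * Real.sin (k * x) =
      ∑ k ∈ Finset.Ico 1 (5 * Q), u k * (2 / (Real.pi * k)) * Real.sin (k * x) := by
    apply Finset.sum_subset
    · exact Finset.Ico_subset_Ico_right (by omega)
    · intro k hk hk'
      rw [Finset.mem_Ico] at hk hk'
      rw [hu k (by omega)]
      ring
  rw [h1, add_sub_add_left_eq_sub, ← Finset.sum_sub_distrib]
  refine Finset.sum_congr rfl fun k _ => ?_
  ring

theorem KA_hh {u : ℝ} (hu : 0 < u) : u / (1 + u) ^ 4 ≤ hh u := by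
  rw [hh, le_min_iff]
  constructor
  · apply div_le_self hu.le
    apply one_le_pow₀
    linarith
  · rw [div_le_div_iff₀ (by positivity) (by positivity)]
    have : u ^ 4 ≤ (1 + u) ^ 4 := pow_le_pow_left₀ hu.le (by linarith) 4
    calc u * u ^ 3 = u ^ 4 := by ring
      _ ≤ 1 * (1 + u) ^ 4 := by linarith

theorem KA_intsin (N : ℕ) (q : ℕ → ℝ) :
    ∫ x in (0 : ℝ)..Real.pi, ∑ k ∈ Finset.Ico 1 N, q k * (2 / (Real.pi * k)) * Real.sin (k * x) =
      ∑ k ∈ Finset.Ico 1 N, q k * (2 / (Real.pi * k)) * ((1 - Real.cos (k * Real.pi)) / k) := by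
  have hd : ∀ x : ℝ, HasDerivAt (fun x : ℝ => ∑ k ∈ Finset.Ico 1 N,
      q k * (2 / (Real.pi * k)) * (-Real.cos (k * x) / k))
      (∑ k ∈ Finset.Ico 1 N, q k * (2 / (Real.pi * k)) * Real.sin (k * x)) x := by
    intro x
    apply HasDerivAt.fun_sum
    intro k hk
    have hk1 : 1 ≤ k := (Finset.mem_Ico.1 hk).1
    have hk0 : (k : ℝ) ≠ 0 := by positivity
    have h2 : HasDerivAt (fun x : ℝ => (k : ℝ) * x) k x := by
      simpa using (hasDerivAt_id x).const_mul (k : ℝ)
    have h3 := ((h2.cos).neg.div_const (k : ℝ)).const_mul (q k * (2 / (Real.pi * k)))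
    refine h3.congr_deriv ?_
    field_simp
  rw [intervalIntegral.integral_eq_sub_of_hasDerivAt (fun x _ => hd x)
    (Continuous.intervalIntegrable (by fun_prop) _ _), ← Finset.sum_sub_distrib]
  refine Finset.sum_congr rfl fun k _ => ?_
  rw [mul_zero, Real.cos_zero]
  ring

theorem KA_lower {P Q : ℕ} (hP : 1 ≤ P) (hPQ : 16 * P ≤ Q) (q : ℕ → ℝ) (h0 : ∀ k, 0 ≤ q k)
    (h1 : ∀ k, 5 * P ≤ k → k ≤ Q → q k = 1) : (8 / (100 * Real.pi)) / P ≤
      ∑ k ∈ Finset.Ico 1 (5 * Q), q k * (2 / (Real.pi * k)) * ((1 - Real.cos (k * Real.pi)) / k) := by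
  have hpi := Real.pi_pos
  have hP0 : (0 : ℝ) < P := by exact_mod_cast hP
  have hnn : ∀ k : ℕ, 0 ≤ q k * (2 / (Real.pi * k)) * ((1 - Real.cos (k * Real.pi)) / k) := by
    intro k
    have := Real.cos_le_one (k * Real.pi)
    have h2 : 0 ≤ 1 - Real.cos (k * Real.pi) := by linarith
    have h3 := h0 k
    positivity
  have hinj : Function.Injective fun i : ℕ => 2 * i + 1 := fun i j h => by
    simp only at h
    omega
  calc (8 / (100 * Real.pi)) / P = ∑ i ∈ Finset.Ico (3 * P) (5 * P),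
        (4 / (100 * Real.pi * (P : ℝ) ^ 2)) := by
        rw [Finset.sum_const, Nat.card_Ico, nsmul_eq_mul]
        have : 5 * P - 3 * P = 2 * P := by omega
        rw [this]
        push_cast
        field_simp
        norm_num
    _ ≤ ∑ i ∈ Finset.Ico (3 * P) (5 * P), q (2 * i + 1) * (2 / (Real.pi * ((2 * i + 1 : ℕ) : ℝ))) *
        ((1 - Real.cos (((2 * i + 1 : ℕ) : ℝ) * Real.pi)) / ((2 * i + 1 : ℕ) : ℝ)) := by
        refine Finset.sum_le_sum fun i hi => ?_
        rw [Finset.mem_Ico] at hi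
        have hcos : Real.cos (((2 * i + 1 : ℕ) : ℝ) * Real.pi) = -1 := by
          rw [Real.cos_nat_mul_pi]
          rw [pow_succ, pow_mul]
          norm_num
        rw [hcos, h1 (2 * i + 1) (by omega) (by omega)]
        have hk0 : (0 : ℝ) < ((2 * i + 1 : ℕ) : ℝ) := by positivity
        have hk1 : ((2 * i + 1 : ℕ) : ℝ) ≤ 10 * P := by
          have : 2 * i + 1 ≤ 10 * P := by omega
          exact_mod_cast this
        have e1 : 1 * (2 / (Real.pi * ((2 * i + 1 : ℕ) : ℝ))) * ((1 - -1) / ((2 * i + 1 : ℕ) : ℝ)) =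
            4 / (Real.pi * ((2 * i + 1 : ℕ) : ℝ) ^ 2) := by
          field_simp
          norm_num
        rw [e1]
        apply div_le_div_of_nonneg_left (by norm_num) (by positivity)
        have h2 : ((2 * i + 1 : ℕ) : ℝ) ^ 2 ≤ (10 * (P : ℝ)) ^ 2 :=
          pow_le_pow_left₀ hk0.le hk1 2
        nlinarith
    _ = ∑ k ∈ (Finset.Ico (3 * P) (5 * P)).image (fun i => 2 * i + 1),
        q k * (2 / (Real.pi * k)) * ((1 - Real.cos (k * Real.pi)) / k) := by
        rw [Finset.sum_image (fun i _ j _ h => hinj h)]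
    _ ≤ _ := by
        refine Finset.sum_le_sum_of_subset_of_nonneg ?_ fun k _ _ => hnn k
        intro k hk
        obtain ⟨i, hi, rfl⟩ := Finset.mem_image.1 hk
        rw [Finset.mem_Ico] at hi ⊢
        omega

/-- TARGET -/
theorem exists_profA : ∃ Ca ca : ℝ, 1 ≤ Ca ∧ 0 < ca ∧ ∀ P J : ℕ, 1 ≤ P → 4 ≤ J →
    ∃ q : ℕ → ℝ, ProfA Ca ca P J q := by
  obtain ⟨C, hC1, hC⟩ := KK_bounds
  have hpi := Real.pi_pos
  refine ⟨2 * C, 8 / (100 * Real.pi), by linarith, by positivity, fun P J hP hJ => ?_⟩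
  set Q : ℕ := 2 ^ J * P with hQ
  have h16 : 16 * P ≤ Q := by
    rw [hQ]
    apply Nat.mul_le_mul_right
    calc 16 = 2 ^ 4 := by norm_num
      _ ≤ 2 ^ J := Nat.pow_le_pow_right (by norm_num) hJ
  have hQ1 : 1 ≤ Q := by omega
  have h5 : 5 * 2 ^ J * P = 5 * Q := by rw [hQ]; ring
  have hQr : (2 : ℝ) ^ J * (P : ℝ) = (Q : ℝ) := by rw [hQ]; push_cast; ring
  obtain ⟨u, hu01, hu1, hu0, hu⟩ := KK_fourier P hP
  obtain ⟨v, hv01, hv1, hv0, hv⟩ := KK_fourier Q hQ1
  have haF : aF (fun k => v k - u k) P J = fun x : ℝ =>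
      (x / Real.pi + ∑ k ∈ Finset.Ico 1 (5 * Q), v k * (2 / (Real.pi * k)) * Real.sin (k * x)) -
      (x / Real.pi + ∑ k ∈ Finset.Ico 1 (5 * P), u k * (2 / (Real.pi * k)) * Real.sin (k * x)) := by
    funext x
    rw [aF, h5]
    exact KA_eq (by omega) hu0 x
  have haFS : ∀ x, aF (fun k => v k - u k) P J x =
      (1 / Real.pi) * (∫ y in (0 : ℝ)..x, KK Q y) - (1 / Real.pi) * ∫ y in (0 : ℝ)..x, KK P y := by
    intro x
    rw [haF, KA_int hu, KA_int hv]
  have hq01 : ∀ k, 0 ≤ v k - u k ∧ v k - u k ≤ 1 := by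
    intro k
    rcases lt_or_ge k (5 * P) with h | h
    · rw [hv1 k (by omega)]
      constructor
      · linarith [(hu01 k).2]
      · linarith [(hu01 k).1]
    · rw [hu0 k h, sub_zero]
      exact hv01 k
  have hP0 : (0 : ℝ) < P := by exact_mod_cast hP
  have hQ0 : (0 : ℝ) < Q := by exact_mod_cast hQ1
  have hPQ : (P : ℝ) ≤ Q := by exact_mod_cast (by omega : P ≤ Q)
  have hC0 : 0 < C := by linarith
  refine ⟨fun k => v k - u k, hq01, ?_, ?_, ?_, ?_, ?_, ?_⟩
  · intro k hk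
    change v k - u k = 0
    rw [hv1 k (by omega), hu1 k hk, sub_self]
  · intro k hk
    change v k - u k = 0
    rw [h5] at hk
    rw [hv0 k hk, hu0 k (by omega), sub_self]
  · intro x hx
    have hxm : x ∈ Icc 0 Real.pi := ⟨hx.1.le, hx.2⟩
    have hx0 : 0 < x := hx.1
    obtain ⟨-, hPa, hPb⟩ := hC P hP x hxm
    obtain ⟨-, hQa, hQb⟩ := hC Q hQ1 x hxm
    rw [haFS]
    set sP := (1 / Real.pi) * ∫ y in (0 : ℝ)..x, KK P y
    set sQ := (1 / Real.pi) * ∫ y in (0 : ℝ)..x, KK Q y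
    have hPx : 0 < (P : ℝ) * x := by positivity
    have hQx : 0 < (Q : ℝ) * x := by positivity
    have hPQx : (P : ℝ) * x ≤ Q * x := mul_le_mul_of_nonneg_right hPQ hx0.le
    have h1 : |sQ - sP| ≤ |1 - sP| + |1 - sQ| := by
      have : sQ - sP = (1 - sP) - (1 - sQ) := by ring
      rw [this]
      exact abs_sub _ _
    have h2 : C / (1 + Q * x) ^ 3 ≤ C / (1 + P * x) ^ 3 := by
      apply div_le_div_of_nonneg_left hC0.le (by positivity)
      apply pow_le_pow_left₀ (by positivity)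
      linarith
    have h3 : |sQ - sP| ≤ 2 * C / (1 + P * x) ^ 3 := by
      have : 2 * C / (1 + P * x) ^ 3 = C / (1 + P * x) ^ 3 + C / (1 + P * x) ^ 3 := by ring
      rw [this]
      linarith
    refine ⟨?_, ?_, ?_⟩
    · refine h3.trans (div_le_self (by linarith) ?_)
      apply one_le_pow₀
      linarith
    · have h4 : |sQ - sP| ≤ |sQ| + |sP| := abs_sub _ _
      rw [hQr]
      have h5 : C * (P * x) ≤ C * (Q * x) := mul_le_mul_of_nonneg_left hPQx hC0.le
      linarith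
    · refine h3.trans ?_
      apply div_le_div_of_nonneg_left (by linarith) (by positivity)
      apply pow_le_pow_left₀ (by positivity)
      linarith
  · intro x hx
    have hxm : x ∈ Icc 0 Real.pi := ⟨hx.1.le, hx.2⟩
    have hx0 : 0 < x := hx.1
    obtain ⟨hPa, -, -⟩ := hC P hP x hxm
    obtain ⟨hQa, -, -⟩ := hC Q hQ1 x hxm
    have hd : deriv (aF (fun k => v k - u k) P J) x = KK Q x / Real.pi - KK P x / Real.pi := by
      rw [haF]
      exact ((KA_hasDeriv hv x).sub (KA_hasDeriv hu x)).deriv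
    rw [hd, hQr]
    have hPx : 0 < (P : ℝ) * x := by positivity
    have hQx : 0 < (Q : ℝ) * x := by positivity
    have e1 := KA_hh hPx
    have e2 := KA_hh hQx
    have hinv : 1 / Real.pi ≤ 1 := by
      rw [div_le_one hpi]
      linarith [Real.pi_gt_three]
    have hinv0 : 0 ≤ 1 / Real.pi := by positivity
    have h1 : |x * (KK Q x / Real.pi - KK P x / Real.pi)| =
        (1 / Real.pi) * (x * |KK Q x - KK P x|) := by
      have : x * (KK Q x / Real.pi - KK P x / Real.pi) = (1 / Real.pi) * (x * (KK Q x - KK P x)) := by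
        ring
      rw [this, abs_mul, abs_mul, abs_of_nonneg hinv0, abs_of_pos hx0]
    rw [h1]
    have h2 : |KK Q x - KK P x| ≤ |KK Q x| + |KK P x| := abs_sub _ _
    have h3 : x * |KK Q x - KK P x| ≤ C * (Q * x / (1 + Q * x) ^ 4 + P * x / (1 + P * x) ^ 4) := by
      calc x * |KK Q x - KK P x| ≤ x * (C * Q / (1 + Q * x) ^ 4 + C * P / (1 + P * x) ^ 4) := by
            apply mul_le_mul_of_nonneg_left _ hx0.le
            linarith
        _ = _ := by ring
    have h4 : C * (Q * x / (1 + Q * x) ^ 4 + P * x / (1 + P * x) ^ 4) ≤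
        C * (hh (Q * x) + hh (P * x)) := by
      apply mul_le_mul_of_nonneg_left _ hC0.le
      linarith
    have h5 : 0 ≤ x * |KK Q x - KK P x| := by positivity
    have h6 : (1 / Real.pi) * (x * |KK Q x - KK P x|) ≤ 1 * (x * |KK Q x - KK P x|) :=
      mul_le_mul_of_nonneg_right hinv h5
    linarith
  · intro x hx
    have hxm : x ∈ Icc 0 Real.pi := ⟨hx.1.le, hx.2⟩
    have hx0 : 0 < x := hx.1
    obtain ⟨-, hPa, hPb⟩ := hC P hP x hxm
    obtain ⟨-, hQa, hQb⟩ := hC Q hQ1 x hxm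
    rw [haFS, hQr]
    set sP := (1 / Real.pi) * ∫ y in (0 : ℝ)..x, KK P y
    set sQ := (1 / Real.pi) * ∫ y in (0 : ℝ)..x, KK Q y
    have hPx : 0 < (P : ℝ) * x := by positivity
    have hQx : 0 < (Q : ℝ) * x := by positivity
    have h2 : C / (1 + Q * x) ^ 3 ≤ C * (1 / (Q * x) ^ 3) := by
      rw [mul_one_div]
      apply div_le_div_of_nonneg_left hC0.le (by positivity)
      apply pow_le_pow_left₀ (by positivity)
      linarith
    have h3 := le_abs_self (1 - sQ)
    have h4 := le_abs_self sP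
    have h5 : 0 ≤ C * (1 / (Q * x) ^ 3) := by positivity
    have h6 : 0 ≤ C * (P * x) := by positivity
    nlinarith
  · have := KA_intsin (5 * Q) (fun k => v k - u k)
    have e1 : ∫ x in (0 : ℝ)..Real.pi, aF (fun k => v k - u k) P J x =
        ∫ x in (0 : ℝ)..Real.pi, ∑ k ∈ Finset.Ico 1 (5 * Q),
          (v k - u k) * (2 / (Real.pi * k)) * Real.sin (k * x) := by
      simp only [aF, h5]
    rw [e1, this]
    exact KA_lower hP h16 _ (fun k => (hq01 k).1) fun k hk hk' => by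
      rw [hv1 k hk', hu0 k hk, sub_zero]

end H706.JKA

namespace H706

alias exists_profA := JKA.exists_profA

end H706
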