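import Pool.Agent.Helper706_SQG.Defs2

/-! ### trigonometric polynomials -/

set_option autoImplicit false
open Set Filter Topology MeasureTheory

namespace H706.JKB

/-! ### trigonometric polynomials -/

/-- Trigonometric polynomials of degree `< n`. -/
def KB_TP (n : ℕ) (f : ℝ → ℝ) : Prop := ∃ p r : ℕ → ℝ, ∀ y, f y =
  ∑ k ∈ Finset.range n, (p k * Real.cos (k * y) + r k * Real.sin (k * y))

lemma KB_TP.add {n : ℕ} {f g : ℝ → ℝ} (hf : KB_TP n f) (hg : KB_TP n g) :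
    KB_TP n (fun y => f y + g y) := by
  obtain ⟨p, r, h⟩ := hf
  obtain ⟨p', r', h'⟩ := hg
  refine ⟨fun k => p k + p' k, fun k => r k + r' k, fun y => ?_⟩
  change f y + g y = _
  rw [h, h', ← Finset.sum_add_distrib]
  exact Finset.sum_congr rfl fun k _ => by ring

lemma KB_TP.smul {n : ℕ} {f : ℝ → ℝ} (hf : KB_TP n f) (a : ℝ) :
    KB_TP n (fun y => a * f y) := by
  obtain ⟨p, r, h⟩ := hf
  refine ⟨fun k => a * p k, fun k => a * r k, fun y => ?_⟩
  change a * f y = _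
  rw [h, Finset.mul_sum]
  exact Finset.sum_congr rfl fun k _ => by ring

lemma KB_TP.congr {n : ℕ} {f g : ℝ → ℝ} (hf : KB_TP n f) (h : ∀ y, g y = f y) : KB_TP n g := by
  obtain ⟨p, r, h'⟩ := hf
  exact ⟨p, r, fun y => by rw [h, h']⟩

lemma KB_TP.zero (n : ℕ) : KB_TP n (fun _ => 0) := ⟨0, 0, fun y => by simp⟩

lemma KB_TP.sum {n : ℕ} {ι : Type*} (s : Finset ι) (F : ι → ℝ → ℝ) (h : ∀ i ∈ s, KB_TP n (F i)) :
    KB_TP n (fun y => ∑ i ∈ s, F i y) := by
  classical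
  induction s using Finset.induction_on with
  | empty => simpa using KB_TP.zero n
  | insert a s ha ih =>
    refine ((h a (Finset.mem_insert_self a s)).add
      (ih fun i hi => h i (Finset.mem_insert_of_mem hi))).congr fun y => ?_
    rw [Finset.sum_insert ha]

lemma KB_TP.cosn {n k : ℕ} (hk : k < n) : KB_TP n (fun y => Real.cos (k * y)) := by
  refine ⟨fun j => if j = k then 1 else 0, 0, fun y => ?_⟩
  simp [hk]

lemma KB_TP.sinn {n k : ℕ} (hk : k < n) : KB_TP n (fun y => Real.sin (k * y)) := by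
  refine ⟨0, fun j => if j = k then 1 else 0, fun y => ?_⟩
  simp [hk]

lemma KB_TP.cosz {n : ℕ} (i j : ℕ) (hi : i < n) (hj : j < n) :
    KB_TP n (fun y => Real.cos (i * y - j * y)) := by
  rcases le_total j i with h | h
  · refine (KB_TP.cosn (n := n) (k := i - j) (by omega)).congr fun y => ?_
    rw [Nat.cast_sub h]; ring_nf
  · refine (KB_TP.cosn (n := n) (k := j - i) (by omega)).congr fun y => ?_
    rw [Nat.cast_sub h, ← Real.cos_neg]; ring_nf

lemma KB_TP.sinz {n : ℕ} (i j : ℕ) (hi : i < n) (hj : j < n) :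
    KB_TP n (fun y => Real.sin (i * y - j * y)) := by
  rcases le_total j i with h | h
  · refine (KB_TP.sinn (n := n) (k := i - j) (by omega)).congr fun y => ?_
    rw [Nat.cast_sub h]; ring_nf
  · refine ((KB_TP.sinn (n := n) (k := j - i) (by omega)).smul (-1)).congr fun y => ?_
    rw [Nat.cast_sub h, neg_one_mul, ← Real.sin_neg]; ring_nf

lemma KB_TP.cosa {n : ℕ} (i j : ℕ) (hi : i + j < n) :
    KB_TP n (fun y => Real.cos (i * y + j * y)) := by
  refine (KB_TP.cosn (n := n) (k := i + j) (by omega)).congr fun y => ?_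
  push_cast; ring_nf

lemma KB_TP.sina {n : ℕ} (i j : ℕ) (hi : i + j < n) :
    KB_TP n (fun y => Real.sin (i * y + j * y)) := by
  refine (KB_TP.sinn (n := n) (k := i + j) (by omega)).congr fun y => ?_
  push_cast; ring_nf

lemma KB_TP.mul {n n' N : ℕ} {f g : ℝ → ℝ} (hf : KB_TP n f) (hg : KB_TP n' g)
    (hN : n + n' ≤ N + 1) : KB_TP N (fun y => f y * g y) := by
  obtain ⟨p, r, h⟩ := hf
  obtain ⟨p', r', h'⟩ := hg
  have key : KB_TP N (fun y => ∑ i ∈ Finset.range n, ∑ j ∈ Finset.range n',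
      ((p i * Real.cos (i * y) + r i * Real.sin (i * y)) *
        (p' j * Real.cos (j * y) + r' j * Real.sin (j * y)))) := by
    refine KB_TP.sum _ _ fun i hi => KB_TP.sum _ _ fun j hj => ?_
    rw [Finset.mem_range] at hi hj
    have c1 := KB_TP.cosz (n := N) i j (by omega) (by omega)
    have c2 := KB_TP.cosa (n := N) i j (by omega)
    have s1 := KB_TP.sinz (n := N) i j (by omega) (by omega)
    have s2 := KB_TP.sina (n := N) i j (by omega)
    refine ((((c1.smul ((p i * p' j + r i * r' j) / 2)).add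
      (c2.smul ((p i * p' j - r i * r' j) / 2))).add
      (s1.smul ((r i * p' j - p i * r' j) / 2))).add
      (s2.smul ((r i * p' j + p i * r' j) / 2))).congr fun y => ?_
    rw [Real.cos_sub, Real.cos_add, Real.sin_sub, Real.sin_add]
    ring
  refine key.congr fun y => ?_
  rw [h, h', Finset.sum_mul_sum]

/-! ### the profile -/

noncomputable def KB_c (m : ℕ) (y : ℝ) : ℝ := ∑ j ∈ Finset.range m, Real.cos (j * y)

noncomputable def KB_s (m : ℕ) (y : ℝ) : ℝ := ∑ j ∈ Finset.range m, Real.sin (j * y)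

noncomputable def KB_G (m : ℕ) (y : ℝ) : ℝ := (KB_c m y ^ 2 + KB_s m y ^ 2) / (m : ℝ) ^ 2

noncomputable def KB_b (m : ℕ) (y : ℝ) : ℝ :=
  -Real.sin y * (1 - m * Real.sin y) ^ 2 * KB_G m y ^ 4

lemma KB_G_TP (m : ℕ) : KB_TP m (KB_G m) := by
  have : KB_TP m (fun y => ∑ i ∈ Finset.range m, ∑ j ∈ Finset.range m,
      Real.cos (i * y - j * y)) :=
    KB_TP.sum _ _ fun i hi => KB_TP.sum _ _ fun j hj =>
      KB_TP.cosz i j (Finset.mem_range.1 hi) (Finset.mem_range.1 hj)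
  refine (this.smul (1 / (m : ℝ) ^ 2)).congr fun y => ?_
  have h : KB_c m y ^ 2 + KB_s m y ^ 2 = ∑ i ∈ Finset.range m, ∑ j ∈ Finset.range m,
      Real.cos (i * y - j * y) := by
    rw [sq, sq, KB_c, KB_s, Finset.sum_mul_sum, Finset.sum_mul_sum, ← Finset.sum_add_distrib]
    refine Finset.sum_congr rfl fun i _ => ?_
    rw [← Finset.sum_add_distrib]
    exact Finset.sum_congr rfl fun j _ => by rw [Real.cos_sub]
  rw [KB_G, h]; ring

lemma KB_b_TP {m : ℕ} (hm : 1 ≤ m) : KB_TP (4 * m) (KB_b m) := by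
  have hG := KB_G_TP m
  have hG2 : KB_TP (2 * m - 1) (fun y => KB_G m y * KB_G m y) := hG.mul hG (by omega)
  have hG4 : KB_TP (4 * m - 3) (fun y => (KB_G m y * KB_G m y) * (KB_G m y * KB_G m y)) :=
    hG2.mul hG2 (by omega)
  have h1 : KB_TP 2 (fun y => Real.sin y) :=
    (KB_TP.sinn (n := 2) (k := 1) (by omega)).congr fun y => by simp
  have h0 : KB_TP 2 (fun _ => (1 : ℝ)) :=
    (KB_TP.cosn (n := 2) (k := 0) (by omega)).congr fun y => by simp
  have h2 : KB_TP 2 (fun y => 1 + (-(m : ℝ)) * Real.sin y) := h0.add (h1.smul _)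
  have h3 : KB_TP 3 (fun y => (1 + (-(m : ℝ)) * Real.sin y) * (1 + (-(m : ℝ)) * Real.sin y)) :=
    h2.mul h2 (by omega)
  have h4 : KB_TP 4 (fun y => (-1 * Real.sin y) *
      ((1 + (-(m : ℝ)) * Real.sin y) * (1 + (-(m : ℝ)) * Real.sin y))) :=
    (h1.smul (-1)).mul h3 (by omega)
  refine (h4.mul hG4 (N := 4 * m) (by omega)).congr fun y => ?_
  rw [KB_b]; ring

lemma KB_G_nonneg (m : ℕ) (y : ℝ) : 0 ≤ KB_G m y := by
  rw [KB_G]; positivity

lemma KB_G_le_one {m : ℕ} (hm : 1 ≤ m) (y : ℝ) : KB_G m y ≤ 1 := by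
  have hm' : (0 : ℝ) < m := by exact_mod_cast hm
  rw [KB_G, div_le_one (by positivity)]
  have h1 := sq_sum_le_card_mul_sum_sq (s := Finset.range m) (f := fun j : ℕ => Real.cos (j * y))
  have h2 := sq_sum_le_card_mul_sum_sq (s := Finset.range m) (f := fun j : ℕ => Real.sin (j * y))
  have h3 : ∑ j ∈ Finset.range m, Real.cos (j * y) ^ 2 + ∑ j ∈ Finset.range m,
      Real.sin (j * y) ^ 2 = m := by
    rw [← Finset.sum_add_distrib]
    simp
  rw [Finset.card_range] at h1 h2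
  rw [KB_c, KB_s]
  calc _ ≤ (m : ℝ) * ∑ j ∈ Finset.range m, Real.cos (j * y) ^ 2 +
        m * ∑ j ∈ Finset.range m, Real.sin (j * y) ^ 2 := add_le_add h1 h2
    _ = (m : ℝ) ^ 2 := by rw [← mul_add, h3]; ring

lemma KB_tel (m : ℕ) (y : ℝ) :
    KB_c m y * (Real.cos y - 1) - KB_s m y * Real.sin y = Real.cos (m * y) - 1 ∧
    KB_c m y * Real.sin y + KB_s m y * (Real.cos y - 1) = Real.sin (m * y) := by
  induction m with
  | zero => simp [KB_c, KB_s]
  | succ m ih =>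
    have hc : KB_c (m + 1) y = KB_c m y + Real.cos (m * y) := by
      rw [KB_c, KB_c, Finset.sum_range_succ]
    have hs : KB_s (m + 1) y = KB_s m y + Real.sin (m * y) := by
      rw [KB_s, KB_s, Finset.sum_range_succ]
    have e : ((m + 1 : ℕ) : ℝ) * y = m * y + y := by push_cast; ring
    rw [hc, hs, e, Real.cos_add, Real.sin_add]
    obtain ⟨h1, h2⟩ := ih
    constructor
    · linear_combination h1
    · linear_combination h2

lemma KB_D_mul (m : ℕ) (y : ℝ) :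
    (KB_c m y ^ 2 + KB_s m y ^ 2) * (2 - 2 * Real.cos y) ≤ 4 := by
  obtain ⟨h1, h2⟩ := KB_tel m y
  have h3 : (KB_c m y ^ 2 + KB_s m y ^ 2) * (2 - 2 * Real.cos y) =
      (Real.cos (m * y) - 1) ^ 2 + Real.sin (m * y) ^ 2 := by
    rw [← h1, ← h2]
    have := Real.sin_sq_add_cos_sq y
    linear_combination (-(KB_c m y ^ 2 + KB_s m y ^ 2)) * this
  rw [h3]
  have := Real.sin_sq_add_cos_sq (m * y)
  nlinarith [Real.neg_one_le_cos (m * y)]

lemma KB_G_sin (m : ℕ) (y : ℝ) : KB_G m y * (m * |Real.sin y|) ^ 2 ≤ 4 := by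
  rcases Nat.eq_zero_or_pos m with rfl | hm
  · simp
  have hm' : (0 : ℝ) < m := by exact_mod_cast hm
  have h := KB_D_mul m y
  have h1 : Real.sin y ^ 2 ≤ 2 - 2 * Real.cos y := by
    have := Real.sin_sq_add_cos_sq y
    nlinarith [sq_nonneg (Real.cos y - 1)]
  have h2 : KB_G m y * (m * |Real.sin y|) ^ 2 = (KB_c m y ^ 2 + KB_s m y ^ 2) * Real.sin y ^ 2 := by
    rw [KB_G, mul_pow, sq_abs]; field_simp
  rw [h2]
  refine le_trans ?_ h
  gcongr

lemma KB_G_y {m : ℕ} {y : ℝ} (hy : |y| ≤ Real.pi) : KB_G m y * (m * |y|) ^ 2 ≤ 10 := by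
  rcases Nat.eq_zero_or_pos m with rfl | hm
  · simp
  have hm' : (0 : ℝ) < m := by exact_mod_cast hm
  have h := KB_D_mul m y
  have hpi := Real.pi_pos
  have h1 : 4 / Real.pi ^ 2 * y ^ 2 ≤ 2 - 2 * Real.cos y := by
    have := Real.cos_le_one_sub_mul_cos_sq hy
    have e : 4 / Real.pi ^ 2 * y ^ 2 = 2 * (2 / Real.pi ^ 2 * y ^ 2) := by ring
    rw [e]; linarith
  have h2 : KB_G m y * (m * |y|) ^ 2 = (KB_c m y ^ 2 + KB_s m y ^ 2) * y ^ 2 := by
    rw [KB_G, mul_pow, sq_abs]; field_simp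
  rw [h2]
  have h3 : (KB_c m y ^ 2 + KB_s m y ^ 2) * (4 / Real.pi ^ 2 * y ^ 2) ≤ 4 := by
    refine le_trans ?_ h
    gcongr
  have h4 : (KB_c m y ^ 2 + KB_s m y ^ 2) * y ^ 2 ≤ Real.pi ^ 2 := by
    have : (KB_c m y ^ 2 + KB_s m y ^ 2) * (4 / Real.pi ^ 2 * y ^ 2) =
      4 * ((KB_c m y ^ 2 + KB_s m y ^ 2) * y ^ 2) / Real.pi ^ 2 := by ring
    rw [this, div_le_iff₀ (by positivity)] at h3
    linarith
  have h5 : Real.pi ^ 2 ≤ 10 := by
    have := Real.pi_lt_d2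
    nlinarith
  linarith

lemma KB_bd {m : ℕ} (hm : 1 ≤ m) {y : ℝ} (hy : |y| ≤ Real.pi) :
    |KB_b m y| ≤ 234256 * |y| / (1 + m * |y|) ^ 6 := by
  have hm' : (0 : ℝ) < m := by exact_mod_cast hm
  have hG0 := KB_G_nonneg m y
  have hG1 := KB_G_le_one hm y
  have hGy := KB_G_y (m := m) hy
  set Y : ℝ := m * |y| with hY
  have hY0 : 0 ≤ Y := by positivity
  have hs : |Real.sin y| ≤ |y| := Real.abs_sin_le_abs
  have hG : KB_G m y * (1 + Y) ^ 2 ≤ 22 := by nlinarith [sq_nonneg (1 - Y), mul_nonneg hG0 (sq_nonneg (1 - Y))]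
  have hG4 : KB_G m y ^ 4 * (1 + Y) ^ 8 ≤ 234256 := by
    calc KB_G m y ^ 4 * (1 + Y) ^ 8 = (KB_G m y * (1 + Y) ^ 2) ^ 4 := by ring
      _ ≤ 22 ^ 4 := by gcongr
      _ = 234256 := by norm_num
  have h1 : |1 - m * Real.sin y| ≤ 1 + Y := by
    calc |1 - m * Real.sin y| ≤ |(1 : ℝ)| + |m * Real.sin y| := abs_sub _ _
      _ ≤ 1 + Y := by rw [abs_one, abs_mul, abs_of_pos hm', hY]; gcongr
  rw [le_div_iff₀ (by positivity), KB_b, abs_mul, abs_mul, abs_neg, abs_pow, abs_pow,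
    abs_of_nonneg hG0]
  calc |Real.sin y| * |1 - m * Real.sin y| ^ 2 * KB_G m y ^ 4 * (1 + Y) ^ 6
      ≤ |y| * (1 + Y) ^ 2 * KB_G m y ^ 4 * (1 + Y) ^ 6 := by gcongr
    _ = |y| * (KB_G m y ^ 4 * (1 + Y) ^ 8) := by ring
    _ ≤ |y| * 234256 := by gcongr
    _ = 234256 * |y| := by ring

/-! ### the derivative -/

noncomputable def KB_c' (m : ℕ) (y : ℝ) : ℝ := ∑ j ∈ Finset.range m, -Real.sin (j * y) * j

noncomputable def KB_s' (m : ℕ) (y : ℝ) : ℝ := ∑ j ∈ Finset.range m, Real.cos (j * y) * j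

lemma KB_hasDeriv_c (m : ℕ) (y : ℝ) : HasDerivAt (KB_c m) (KB_c' m y) y := by
  unfold KB_c'
  have : KB_c m = fun y => ∑ j ∈ Finset.range m, Real.cos (j * y) := rfl
  rw [this]
  refine HasDerivAt.fun_sum fun j _ => ?_
  have := (Real.hasDerivAt_cos (j * y)).comp y ((hasDerivAt_id y).const_mul (j : ℝ))
  simpa [Function.comp_def] using this

lemma KB_hasDeriv_s (m : ℕ) (y : ℝ) : HasDerivAt (KB_s m) (KB_s' m y) y := by
  unfold KB_s'
  have : KB_s m = fun y => ∑ j ∈ Finset.range m, Real.sin (j * y) := rfl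
  rw [this]
  refine HasDerivAt.fun_sum fun j _ => ?_
  have := (Real.hasDerivAt_sin (j * y)).comp y ((hasDerivAt_id y).const_mul (j : ℝ))
  simpa [Function.comp_def] using this

lemma KB_abs_sum_le (m : ℕ) (f : ℕ → ℝ) (a : ℝ) (h : ∀ j ∈ Finset.range m, |f j| ≤ a) :
    |∑ j ∈ Finset.range m, f j| ≤ m * a := by
  refine (Finset.abs_sum_le_sum_abs _ _).trans ?_
  refine (Finset.sum_le_card_nsmul _ _ a h).trans ?_
  simp

lemma KB_abs_c (m : ℕ) (y : ℝ) : |KB_c m y| ≤ m := by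
  simpa [KB_c] using KB_abs_sum_le m _ 1 fun j _ => Real.abs_cos_le_one (j * y)

lemma KB_abs_s (m : ℕ) (y : ℝ) : |KB_s m y| ≤ m := by
  simpa [KB_s] using KB_abs_sum_le m _ 1 fun j _ => Real.abs_sin_le_one (j * y)

lemma KB_abs_c' (m : ℕ) (y : ℝ) : |KB_c' m y| ≤ (m : ℝ) ^ 2 := by
  rw [sq]
  refine KB_abs_sum_le m _ m fun j hj => ?_
  have h1 := Real.abs_sin_le_one (j * y)
  have h2 : (j : ℝ) ≤ m := by exact_mod_cast (Finset.mem_range.1 hj).le
  rw [abs_mul, abs_neg, Nat.abs_cast]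
  calc _ ≤ (1 : ℝ) * m := by gcongr
    _ = m := one_mul _

lemma KB_abs_s' (m : ℕ) (y : ℝ) : |KB_s' m y| ≤ (m : ℝ) ^ 2 := by
  rw [sq]
  refine KB_abs_sum_le m _ m fun j hj => ?_
  have h1 := Real.abs_cos_le_one (j * y)
  have h2 : (j : ℝ) ≤ m := by exact_mod_cast (Finset.mem_range.1 hj).le
  rw [abs_mul, Nat.abs_cast]
  calc _ ≤ (1 : ℝ) * m := by gcongr
    _ = m := one_mul _

lemma KB_hasDeriv_G {m : ℕ} (hm : 1 ≤ m) (y : ℝ) :
    ∃ G' : ℝ, HasDerivAt (KB_G m) G' y ∧ |G'| ≤ 4 * m := by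
  have hm' : (0 : ℝ) < m := by exact_mod_cast hm
  refine ⟨(2 * KB_c m y * KB_c' m y + 2 * KB_s m y * KB_s' m y) / (m : ℝ) ^ 2, ?_, ?_⟩
  · have := (((KB_hasDeriv_c m y).pow 2).add ((KB_hasDeriv_s m y).pow 2)).div_const ((m : ℝ) ^ 2)
    simpa [KB_G] using! this
  · rw [abs_div, abs_of_pos (by positivity : (0 : ℝ) < (m : ℝ) ^ 2), div_le_iff₀ (by positivity)]
    have h1 := KB_abs_c m y
    have h2 := KB_abs_s m y
    have h3 := KB_abs_c' m y
    have h4 := KB_abs_s' m y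
    calc _ ≤ |2 * KB_c m y * KB_c' m y| + |2 * KB_s m y * KB_s' m y| := abs_add_le _ _
      _ = 2 * |KB_c m y| * |KB_c' m y| + 2 * |KB_s m y| * |KB_s' m y| := by
        simp [abs_mul]
      _ ≤ 2 * m * (m : ℝ) ^ 2 + 2 * m * (m : ℝ) ^ 2 := by gcongr
      _ = _ := by ring

lemma KB_hasDeriv_b {m : ℕ} (y : ℝ) {G' : ℝ} (hG : HasDerivAt (KB_G m) G' y) :
    HasDerivAt (KB_b m) (-Real.cos y * (1 - m * Real.sin y) ^ 2 * KB_G m y ^ 4 +
      2 * (m * Real.sin y) * Real.cos y * (1 - m * Real.sin y) * KB_G m y ^ 4 -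
      4 * Real.sin y * (1 - m * Real.sin y) ^ 2 * KB_G m y ^ 3 * G') y := by
  have h1 := (Real.hasDerivAt_sin y).neg
  have h2 := (((Real.hasDerivAt_sin y).const_mul (m : ℝ)).const_sub 1).pow 2
  have h3 := hG.pow 4
  have h4 := (h1.mul h2).mul h3
  have e : KB_b m = -Real.sin * (fun x => 1 - ↑m * Real.sin x) ^ 2 * KB_G m ^ 4 := by
    funext x; simp [KB_b]
  rw [e]
  refine h4.congr_deriv ?_
  simp
  ring

lemma KB_bd' {m : ℕ} (hm : 1 ≤ m) (y : ℝ) : |deriv (KB_b m) y| ≤ 234256 := by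
  obtain ⟨G', hG', hG4⟩ := KB_hasDeriv_G hm y
  rw [(KB_hasDeriv_b y hG').deriv]
  have hm' : (0 : ℝ) < m := by exact_mod_cast hm
  have hG0 := KB_G_nonneg m y
  have hG1 := KB_G_le_one hm y
  have hGs := KB_G_sin m y
  set Y : ℝ := m * |Real.sin y| with hY
  have hY0 : 0 ≤ Y := by positivity
  set g := KB_G m y with hg
  have hG : g * (1 + Y) ^ 2 ≤ 10 := by
    nlinarith [mul_nonneg hG0 (sq_nonneg (1 - Y))]
  have hc := Real.abs_cos_le_one y
  have h1 : |1 - m * Real.sin y| ≤ 1 + Y := by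
    calc |1 - m * Real.sin y| ≤ |(1 : ℝ)| + |m * Real.sin y| := abs_sub _ _
      _ ≤ 1 + Y := by rw [abs_one, abs_mul, abs_of_pos hm', hY]
  have h2 : |m * Real.sin y| = Y := by rw [abs_mul, abs_of_pos hm']
  have hG3 : g ^ 3 * (1 + Y) ^ 6 ≤ 1000 := by
    calc g ^ 3 * (1 + Y) ^ 6 = (g * (1 + Y) ^ 2) ^ 3 := by ring
      _ ≤ 10 ^ 3 := by gcongr
      _ = 1000 := by norm_num
  have hG3' : g ^ 3 * (1 + Y) ^ 3 ≤ 1000 := by
    refine le_trans ?_ hG3
    have : (1 + Y) ^ 3 ≤ (1 + Y) ^ 6 := pow_le_pow_right₀ (by linarith) (by norm_num)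
    gcongr
  have hg43 : g ^ 4 ≤ g ^ 3 := pow_le_pow_of_le_one hG0 hG1 (by norm_num)
  have t1 : |-Real.cos y * (1 - m * Real.sin y) ^ 2 * g ^ 4| ≤ 1000 := by
    rw [abs_mul, abs_mul, abs_neg, abs_pow, abs_pow, abs_of_nonneg hG0]
    calc |Real.cos y| * |1 - m * Real.sin y| ^ 2 * g ^ 4 ≤ 1 * (1 + Y) ^ 2 * g ^ 3 := by gcongr
      _ ≤ g ^ 3 * (1 + Y) ^ 3 := by
        have : (1 + Y) ^ 2 ≤ (1 + Y) ^ 3 := pow_le_pow_right₀ (by linarith) (by norm_num)
        nlinarith [pow_nonneg hG0 3]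
      _ ≤ 1000 := hG3'
  have t2 : |2 * (m * Real.sin y) * Real.cos y * (1 - m * Real.sin y) * g ^ 4| ≤ 2000 := by
    rw [abs_mul, abs_mul, abs_mul, abs_mul, h2, abs_pow, abs_of_nonneg hG0, abs_two]
    calc 2 * Y * |Real.cos y| * |1 - m * Real.sin y| * g ^ 4 ≤ 2 * Y * 1 * (1 + Y) * g ^ 3 := by
          gcongr
      _ ≤ 2 * (1 + Y) ^ 2 * 1 * (1 + Y) * g ^ 3 := by
        gcongr
        nlinarith
      _ = 2 * (g ^ 3 * (1 + Y) ^ 3) := by ring
      _ ≤ 2 * 1000 := by gcongr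
      _ = 2000 := by norm_num
  have t3 : |4 * Real.sin y * (1 - m * Real.sin y) ^ 2 * g ^ 3 * G'| ≤ 16000 := by
    rw [abs_mul, abs_mul, abs_mul, abs_mul, abs_pow, abs_pow, abs_of_nonneg hG0,
      abs_of_pos (by norm_num : (0 : ℝ) < 4)]
    calc 4 * |Real.sin y| * |1 - m * Real.sin y| ^ 2 * g ^ 3 * |G'|
        ≤ 4 * |Real.sin y| * (1 + Y) ^ 2 * g ^ 3 * (4 * m) := by gcongr
      _ = 16 * (Y * (1 + Y) ^ 2 * g ^ 3) := by rw [hY]; ring
      _ ≤ 16 * ((1 + Y) * (1 + Y) ^ 2 * g ^ 3) := by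
        gcongr
        linarith
      _ = 16 * (g ^ 3 * (1 + Y) ^ 3) := by ring
      _ ≤ 16 * 1000 := by gcongr
      _ = 16000 := by norm_num
  calc _ ≤ |-Real.cos y * (1 - m * Real.sin y) ^ 2 * g ^ 4 +
        2 * (m * Real.sin y) * Real.cos y * (1 - m * Real.sin y) * g ^ 4| +
        |4 * Real.sin y * (1 - m * Real.sin y) ^ 2 * g ^ 3 * G'| := abs_sub _ _
    _ ≤ (1000 + 2000) + 16000 := by
      refine add_le_add ((abs_add_le _ _).trans (add_le_add t1 t2)) t3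
    _ ≤ 234256 := by norm_num

/-- Lower bound of `G` near `0`. -/
lemma KB_G_lower {m : ℕ} (hm : 1 ≤ m) {y : ℝ} (hy : m * |y| ≤ 1) :
    (1 - (m * |y|) ^ 2 / 2) ^ 2 ≤ KB_G m y := by
  have hm' : (0 : ℝ) < m := by exact_mod_cast hm
  have h1 : m * (1 - (m * |y|) ^ 2 / 2) ≤ KB_c m y := by
    rw [KB_c]
    have : ∀ j ∈ Finset.range m, 1 - (m * |y|) ^ 2 / 2 ≤ Real.cos (j * y) := by
      intro j hj
      have h2 : (j : ℝ) ≤ m := by exact_mod_cast (Finset.mem_range.1 hj).le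
      refine le_trans ?_ (Real.one_sub_sq_div_two_le_cos (x := j * y))
      have : (j * y) ^ 2 ≤ (m * |y|) ^ 2 := by
        rw [mul_pow, mul_pow, sq_abs]; gcongr
      linarith
    have := Finset.card_nsmul_le_sum _ _ _ this
    simpa using this
  have h0 : 0 ≤ 1 - (m * |y|) ^ 2 / 2 := by
    have : (m * |y|) ^ 2 ≤ 1 := pow_le_one₀ (by positivity) hy
    linarith
  rw [KB_G, le_div_iff₀ (by positivity), ← mul_pow]
  have : ((1 - (m * |y|) ^ 2 / 2) * m) ^ 2 ≤ KB_c m y ^ 2 := by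
    apply pow_le_pow_left₀ (by positivity)
    linarith
  nlinarith [sq_nonneg (KB_s m y)]

lemma KB_lower {m : ℕ} (hm : 1 ≤ m) {y : ℝ} (hy : m * |y| ≤ 1 / 100) :
    deriv (KB_b m) y ≤ -(1 / 2) := by
  obtain ⟨G', hG', hG4⟩ := KB_hasDeriv_G hm y
  rw [(KB_hasDeriv_b y hG').deriv]
  have hm' : (0 : ℝ) < m := by exact_mod_cast hm
  have hm1 : (1 : ℝ) ≤ m := by exact_mod_cast hm
  have hG0 := KB_G_nonneg m y
  have hG1 := KB_G_le_one hm y
  have hGl := KB_G_lower hm (y := y) (by linarith)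
  have hy0 : 0 ≤ m * |y| := by positivity
  have hyy : |y| ≤ 1 / 100 := by nlinarith [abs_nonneg y]
  set g := KB_G m y with hg
  have hgl : 0.999 ≤ g := by
    refine le_trans ?_ hGl
    have : (m * |y|) ^ 2 ≤ (1 / 100) ^ 2 := by gcongr
    nlinarith
  have hs : |m * Real.sin y| ≤ 1 / 100 := by
    rw [abs_mul, abs_of_pos hm']
    refine le_trans ?_ hy
    exact mul_le_mul_of_nonneg_left Real.abs_sin_le_abs hm'.le
  set σ := m * Real.sin y with hσ
  obtain ⟨hs1, hs2⟩ := abs_le.1 hs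
  have hc1 : 0.999 ≤ Real.cos y := by
    refine le_trans ?_ (Real.one_sub_sq_div_two_le_cos)
    have : y ^ 2 ≤ (1 / 100) ^ 2 := by rw [← sq_abs]; gcongr
    linarith
  have hc2 := Real.cos_le_one y
  have hg4 : 0.99 ≤ g ^ 4 := by
    calc (0.99 : ℝ) ≤ 0.999 ^ 4 := by norm_num
      _ ≤ g ^ 4 := by gcongr
  have hg4' : g ^ 4 ≤ 1 := pow_le_one₀ hG0 hG1
  have hg3' : g ^ 3 ≤ 1 := pow_le_one₀ hG0 hG1
  have t1 : 0.9 ≤ Real.cos y * (1 - σ) ^ 2 * g ^ 4 := by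
    calc (0.9 : ℝ) ≤ 0.999 * 0.99 ^ 2 * 0.99 := by norm_num
      _ ≤ Real.cos y * (1 - σ) ^ 2 * g ^ 4 := by
        gcongr
        linarith
  have t2 : |2 * σ * Real.cos y * (1 - σ) * g ^ 4| ≤ 0.03 := by
    have hcabs := Real.abs_cos_le_one y
    have : |1 - σ| ≤ 1.01 := by rw [abs_le]; constructor <;> linarith
    rw [abs_mul, abs_mul, abs_mul, abs_mul, abs_pow, abs_of_nonneg hG0, abs_two]
    calc 2 * |σ| * |Real.cos y| * |1 - σ| * g ^ 4 ≤ 2 * (1 / 100) * 1 * 1.01 * 1 := by gcongr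
      _ ≤ 0.03 := by norm_num
  have t3 : |4 * Real.sin y * (1 - σ) ^ 2 * g ^ 3 * G'| ≤ 0.2 := by
    have : |1 - σ| ≤ 1.01 := by rw [abs_le]; constructor <;> linarith
    rw [abs_mul, abs_mul, abs_mul, abs_mul, abs_pow, abs_pow, abs_of_nonneg hG0,
      abs_of_pos (by norm_num : (0 : ℝ) < 4)]
    calc 4 * |Real.sin y| * |1 - σ| ^ 2 * g ^ 3 * |G'|
        ≤ 4 * |Real.sin y| * 1.01 ^ 2 * 1 * (4 * m) := by gcongr
      _ = 16 * 1.01 ^ 2 * (m * |Real.sin y|) := by ring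
      _ = 16 * 1.01 ^ 2 * |σ| := by rw [hσ, abs_mul, abs_of_pos hm']
      _ ≤ 16 * 1.01 ^ 2 * (1 / 100) := by gcongr
      _ ≤ 0.2 := by norm_num
  have e1 := (abs_le.1 t2).2
  have e2 := (abs_le.1 t3).1
  have e3 : -Real.cos y * (1 - σ) ^ 2 * g ^ 4 = -(Real.cos y * (1 - σ) ^ 2 * g ^ 4) := by ring
  rw [e3]
  norm_num at t1 e1 e2 ⊢
  linarith

lemma KB_int {m : ℕ} (hm : 1 ≤ m) :
    1 / 10 ^ 4 / (m : ℝ) ^ 2 ≤ ∫ y in (-Real.pi)..Real.pi, KB_b m y := by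
  have hm' : (0 : ℝ) < m := by exact_mod_cast hm
  have hm1 : (1 : ℝ) ≤ m := by exact_mod_cast hm
  have hcG : Continuous (KB_G m) := by unfold KB_G KB_c KB_s; fun_prop
  have hcb : Continuous (KB_b m) := by unfold KB_b; fun_prop
  have hGe : ∀ y, KB_G m (-y) = KB_G m y := by
    intro y
    simp [KB_G, KB_c, KB_s]
  have h1 : ∫ y in (-Real.pi)..Real.pi, KB_b m (-y) = ∫ y in (-Real.pi)..Real.pi, KB_b m y := by
    rw [intervalIntegral.integral_comp_neg]; simp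
  have h2 : (2 : ℝ) * ∫ y in (-Real.pi)..Real.pi, KB_b m y =
      ∫ y in (-Real.pi)..Real.pi, (4 * m * Real.sin y ^ 2 * KB_G m y ^ 4) := by
    rw [two_mul]
    nth_rewrite 1 [← h1]
    rw [← intervalIntegral.integral_add]
    · congr 1
      funext y
      simp only [KB_b, hGe, Real.sin_neg]
      ring
    · exact (hcb.comp continuous_neg).intervalIntegrable _ _
    · exact hcb.intervalIntegrable _ _
  have hpi := Real.pi_gt_three
  have hcf : Continuous fun y => 4 * m * Real.sin y ^ 2 * KB_G m y ^ 4 := by fun_prop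
  have hinv : 1 / (m : ℝ) ≤ 1 := by rw [div_le_one hm']; exact hm1
  have hinv2 : 1 / (2 * (m : ℝ)) ≤ 1 / m := by
    apply one_div_le_one_div_of_le hm'; linarith
  have hinv3 : 0 < 1 / (2 * (m : ℝ)) := by positivity
  have h3 : ∫ y in (1 / (2 * (m : ℝ)))..(1 / (m : ℝ)), (4 * m * Real.sin y ^ 2 * KB_G m y ^ 4) ≤
      ∫ y in (-Real.pi)..Real.pi, (4 * m * Real.sin y ^ 2 * KB_G m y ^ 4) := by
    refine intervalIntegral.integral_mono_interval (by linarith) hinv2 (by linarith)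
      (Filter.Eventually.of_forall fun y => ?_) (hcf.intervalIntegrable _ _)
    change 0 ≤ 4 * m * Real.sin y ^ 2 * KB_G m y ^ 4
    have := KB_G_nonneg m y
    positivity
  have h4 : ∫ _y in (1 / (2 * (m : ℝ)))..(1 / (m : ℝ)), (1 / (1024 * m) : ℝ) ≤
      ∫ y in (1 / (2 * (m : ℝ)))..(1 / (m : ℝ)), (4 * m * Real.sin y ^ 2 * KB_G m y ^ 4) := by
    refine intervalIntegral.integral_mono_on hinv2 (by simp) (hcf.intervalIntegrable _ _)
      fun y hy => ?_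
    obtain ⟨hy1, hy2⟩ := hy
    have hy0 : 0 < y := lt_of_lt_of_le hinv3 hy1
    have hyabs : |y| = y := abs_of_pos hy0
    have hmy : m * |y| ≤ 1 := by
      rw [hyabs]; rw [le_div_iff₀ hm'] at hy2; linarith
    have hG := KB_G_lower hm hmy
    have hG' : (1 / 4 : ℝ) ≤ KB_G m y := by
      refine le_trans ?_ hG
      have : (m * |y|) ^ 2 ≤ 1 := pow_le_one₀ (by positivity) hmy
      nlinarith
    have hG4 : (1 / 256 : ℝ) ≤ KB_G m y ^ 4 := by
      calc (1 / 256 : ℝ) = (1 / 4) ^ 4 := by norm_num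
        _ ≤ _ := by gcongr
    have hsin : 1 / (4 * (m : ℝ)) ≤ Real.sin y := by
      have h5 := Real.mul_le_sin hy0.le (by linarith)
      refine le_trans ?_ h5
      have h6 : (1 / 2 : ℝ) ≤ 2 / Real.pi := by
        rw [div_le_div_iff₀ (by norm_num) (by positivity)]
        have := Real.pi_le_four
        linarith
      calc 1 / (4 * (m : ℝ)) = 1 / 2 * (1 / (2 * m)) := by field_simp; norm_num
        _ ≤ 2 / Real.pi * y := by gcongr
    calc (1 / (1024 * m) : ℝ) = 4 * m * (1 / (4 * (m : ℝ))) ^ 2 * (1 / 256) := by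
          field_simp; norm_num
      _ ≤ 4 * m * Real.sin y ^ 2 * KB_G m y ^ 4 := by gcongr
  rw [intervalIntegral.integral_const, smul_eq_mul] at h4
  have h5 : (1 / (m : ℝ) - 1 / (2 * m)) * (1 / (1024 * m)) = 2 * (1 / 4096 / (m : ℝ) ^ 2) := by
    field_simp; norm_num
  have h6 : 1 / 10 ^ 4 / (m : ℝ) ^ 2 ≤ 1 / 4096 / (m : ℝ) ^ 2 := by
    gcongr; norm_num
  linarith

/-- TARGET -/
theorem exists_profB : ∃ Cb cb : ℝ, 1 ≤ Cb ∧ 0 < cb ∧ cb ≤ 1 ∧ ∀ m : ℕ, 1 ≤ m →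
    ∃ p r : ℕ → ℝ, ProfB Cb cb m p r := by
  refine ⟨234256, 1 / 10 ^ 4, by norm_num, by norm_num, by norm_num, fun m hm => ?_⟩
  have hm' : (0 : ℝ) < m := by exact_mod_cast hm
  obtain ⟨p, r, h⟩ := KB_b_TP hm
  have e : bF p r m = KB_b m := by
    funext y; rw [h y]; rfl
  refine ⟨p, r, ?_⟩
  constructor
  · intro y hy
    rw [e]
    exact KB_bd hm (abs_le.2 hy)
  · intro y
    rw [e]
    exact KB_bd' hm y
  · intro y hy
    rw [e]
    apply KB_lower hm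
    rw [le_div_iff₀ hm'] at hy
    linarith
  · rw [e]
    exact KB_int hm

end H706.JKB

namespace H706

alias exists_profB := JKB.exists_profB

end H706
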