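import Pool.Agent.Helper706_SQG.Defs2

set_option autoImplicit false
open Set Filter Topology MeasureTheory

namespace H706.JR1

/-- improper integral of a negative power of `1 + m y` -/
theorem reading_pow {m c : ℝ} (hm : 0 < m) (hc : 0 ≤ c) (k : ℕ) (hk : 1 ≤ k) :
    IntegrableOn (fun y : ℝ => 1 / (1 + m * y) ^ (k + 1)) (Ioi c) ∧
      ∫ y in Ioi c, 1 / (1 + m * y) ^ (k + 1) = 1 / (k * m * (1 + m * c) ^ k) := by
  have hk0 : (0 : ℝ) < k := by exact_mod_cast hk
  have hd : ∀ x ∈ Ici c, HasDerivAt (fun y : ℝ => -(1 / (k * m * (1 + m * y) ^ k))) (1 / (1 + m * x) ^ (k + 1)) x := by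
    intro x hx
    have hx' : c ≤ x := hx
    have hpos : 0 < 1 + m * x := by nlinarith
    have h1 : HasDerivAt (fun y : ℝ => 1 + m * y) m x := by
      simpa using ((hasDerivAt_id x).const_mul m).const_add 1
    have h2 := (h1.pow k).const_mul (k * m)
    have hne : (k * m * (1 + m * x) ^ k) ≠ 0 := by positivity
    have h3 := (h2.inv hne).neg
    refine (h3.congr_deriv ?_).congr_of_eventuallyEq ?_
    · obtain ⟨j, rfl⟩ : ∃ j, k = j + 1 := ⟨k - 1, by omega⟩
      simp only [Nat.add_sub_cancel, Pi.pow_apply]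
      field_simp
      ring
    · filter_upwards with y
      simp [one_div]
  have hnn : ∀ x ∈ Ioi c, 0 ≤ 1 / (1 + m * x) ^ (k + 1) := by
    intro x hx
    have hx' : c < x := hx
    have hpos : 0 < 1 + m * x := by nlinarith
    positivity
  have hlim : Tendsto (fun y : ℝ => -(1 / (k * m * (1 + m * y) ^ k))) atTop (𝓝 0) := by
    have h1 : Tendsto (fun y : ℝ => 1 + m * y) atTop atTop :=
      tendsto_atTop_add_const_left _ _ (Tendsto.const_mul_atTop hm tendsto_id)
    have h2 : Tendsto (fun y : ℝ => k * m * (1 + m * y) ^ k) atTop atTop :=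
      Tendsto.const_mul_atTop (by positivity) ((tendsto_pow_atTop (by omega)).comp h1)
    have h3 := (h2.inv_tendsto_atTop).neg
    rw [neg_zero] at h3
    refine h3.congr ?_
    intro y
    simp [one_div]
  refine ⟨integrableOn_Ioi_deriv_of_nonneg' hd hnn hlim, ?_⟩
  rw [integral_Ioi_of_hasDerivAt_of_nonneg' hd hnn hlim]
  ring

/-- integral of a difference of continuous functions -/
theorem reading_sub (f g : ℝ → ℝ) (hf : Continuous f) (hg : Continuous g) (c d : ℝ) :
    ∫ x in c..d, (f x - g x) = (∫ x in c..d, f x) - ∫ x in c..d, g x :=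
  intervalIntegral.integral_sub (hf.intervalIntegrable _ _) (hg.intervalIntegrable _ _)

/-- integral of a sum of continuous functions -/
theorem reading_add (f g : ℝ → ℝ) (hf : Continuous f) (hg : Continuous g) (c d : ℝ) :
    ∫ x in c..d, (f x + g x) = (∫ x in c..d, f x) + ∫ x in c..d, g x :=
  intervalIntegral.integral_add (hf.intervalIntegrable _ _) (hg.intervalIntegrable _ _)

/-- reflection -/
theorem reading_refl (f : ℝ → ℝ) (hf : Continuous f) :
    ∫ x in (-Real.pi)..Real.pi, f x = ∫ x in (0 : ℝ)..Real.pi, (f x + f (-x)) := by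
  have h1 : ∫ x in (-Real.pi)..Real.pi, f x = (∫ x in (-Real.pi)..0, f x) + ∫ x in (0 : ℝ)..Real.pi, f x :=
    (intervalIntegral.integral_add_adjacent_intervals (hf.intervalIntegrable _ _) (hf.intervalIntegrable _ _)).symm
  have h2 : ∫ x in (0 : ℝ)..Real.pi, f (-x) = ∫ x in (-Real.pi)..0, f x := by
    rw [intervalIntegral.integral_comp_neg]
    simp
  rw [reading_add f (fun x => f (-x)) hf (hf.comp continuous_neg), h2, h1]
  ring

/-- the weighted bound for the inner integral -/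
theorem reading_inner {m Cb : ℝ} (hm : 0 < m) (hCb : 0 ≤ Cb) {b : ℝ → ℝ} (hb : Continuous b)
    (hb1 : ∀ y ∈ Icc (-Real.pi) Real.pi, |b y| ≤ Cb * |y| / (1 + m * |y|) ^ 6)
    {g : ℝ → ℝ} (hg : Continuous g) {p q R : ℝ} (hp : 0 ≤ p) (hq : 0 ≤ q) (hR : 1 ≤ R)
    (hg1 : ∀ y, |g y| ≤ p + q) (hg2 : ∀ y, |y| ≤ R / m → |g y| ≤ p) :
    |∫ y in (-Real.pi)..Real.pi, b y * g y| ≤ Cb / (2 * m ^ 2) * (p + q / R) := by
  have hpi := Real.pi_pos
  obtain ⟨hi1, he1⟩ := reading_pow (c := 0) hm le_rfl 4 (by norm_num)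
  obtain ⟨hi2, he2⟩ := reading_pow (c := R / m) hm (by positivity) 4 (by norm_num)
  set w : ℝ → ℝ := fun y => 1 / (1 + m * y) ^ (4 + 1) with hw
  -- the dominating function on the half line
  set G : ℝ → ℝ := fun y => Cb / m * p * w y + Cb / m * q * (Ioi (R / m)).indicator w y with hG
  have hwpos : ∀ y, 0 ≤ y → 0 ≤ w y := by
    intro y hy
    rw [hw]
    positivity
  have hGi : IntegrableOn G (Ioi 0) := by
    refine (hi1.const_mul _).add ?_
    apply Integrable.const_mul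
    apply Integrable.indicator _ measurableSet_Ioi
    exact hi1
  have hbd : ∀ y, y ∈ Ioc (0 : ℝ) Real.pi → ∀ s : ℝ, |s| = y → |b s * g s| ≤ G y := by
    intro y hy s hs
    have hsmem : s ∈ Icc (-Real.pi) Real.pi := by
      rw [mem_Icc, ← abs_le, hs]
      exact hy.2
    have h1 := hb1 s hsmem
    rw [hs] at h1
    have hy0 : 0 < y := hy.1
    have h2 : Cb * y / (1 + m * y) ^ 6 ≤ Cb / m * w y := by
      rw [hw]
      simp only
      rw [div_mul_div_comm, div_le_div_iff₀ (by positivity) (by positivity)]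
      have h3 : 0 < (1 + m * y) ^ 5 := by positivity
      have h4 : Cb * (m * y) ≤ Cb * (1 + m * y) := mul_le_mul_of_nonneg_left (by linarith) hCb
      calc Cb * y * (m * (1 + m * y) ^ (4 + 1)) = (Cb * (m * y)) * (1 + m * y) ^ 5 := by ring
        _ ≤ (Cb * (1 + m * y)) * (1 + m * y) ^ 5 := mul_le_mul_of_nonneg_right h4 h3.le
        _ = Cb * 1 * (1 + m * y) ^ 6 := by ring
    have h5 : |b s| ≤ Cb / m * w y := h1.trans h2
    have h6 : 0 ≤ Cb / m * w y := (abs_nonneg _).trans h5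
    rw [abs_mul, hG]
    simp only
    by_cases hyR : y ≤ R / m
    · have h7 : |g s| ≤ p := hg2 s (by rw [hs]; exact hyR)
      have h8 : (Ioi (R / m)).indicator w y = 0 := indicator_of_notMem (by simpa using hyR) _
      rw [h8, mul_zero, add_zero]
      calc |b s| * |g s| ≤ (Cb / m * w y) * p := mul_le_mul h5 h7 (abs_nonneg _) h6
        _ = _ := by ring
    · have h8 : (Ioi (R / m)).indicator w y = w y := indicator_of_mem (by simpa using hyR) _
      rw [h8]
      calc |b s| * |g s| ≤ (Cb / m * w y) * (p + q) := mul_le_mul h5 (hg1 s) (abs_nonneg _) h6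
        _ = _ := by ring
  have hcont : Continuous (fun y => b y * g y) := hb.mul hg
  rw [reading_refl _ hcont]
  have h1 : |∫ y in (0 : ℝ)..Real.pi, (b y * g y + b (-y) * g (-y))| ≤ ∫ y in Ioc (0 : ℝ) Real.pi, 2 * G y := by
    rw [intervalIntegral.integral_of_le hpi.le, ← Real.norm_eq_abs]
    apply norm_integral_le_of_norm_le ((hGi.mono_set Ioc_subset_Ioi_self).const_mul 2)
    rw [ae_restrict_iff' measurableSet_Ioc]
    filter_upwards with y hy
    rw [Real.norm_eq_abs]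
    have h2 := hbd y hy y (abs_of_pos hy.1)
    have h3 := hbd y hy (-y) (by rw [abs_neg]; exact abs_of_pos hy.1)
    calc |b y * g y + b (-y) * g (-y)| ≤ |b y * g y| + |b (-y) * g (-y)| := abs_add_le _ _
      _ ≤ 2 * G y := by linarith
  have h2 : ∫ y in Ioc (0 : ℝ) Real.pi, 2 * G y ≤ ∫ y in Ioi (0 : ℝ), 2 * G y := by
    apply setIntegral_mono_set (hGi.const_mul 2)
    · rw [Filter.EventuallyLE, ae_restrict_iff' measurableSet_Ioi]
      filter_upwards with y hy
      have hy0 : (0 : ℝ) < y := hy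
      have h3 := hwpos y hy0.le
      have h4 : 0 ≤ (Ioi (R / m)).indicator w y := by
        by_cases h : y ∈ Ioi (R / m)
        · rw [indicator_of_mem h]
          exact h3
        · rw [indicator_of_notMem h]
      rw [hG]
      simp only [Pi.zero_apply]
      positivity
    · exact Ioc_subset_Ioi_self.eventuallyLE
  have h3 : ∫ y in Ioi (0 : ℝ), 2 * G y = 2 * (Cb / m * p * (1 / (4 * m)) + Cb / m * q * (1 / (4 * m * (1 + R) ^ 4))) := by
    rw [integral_const_mul, hG]
    rw [integral_add (hi1.const_mul _) ((Integrable.indicator hi1 measurableSet_Ioi).const_mul _)]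
    rw [integral_const_mul, integral_const_mul, setIntegral_indicator measurableSet_Ioi]
    have h4 : Ioi (0 : ℝ) ∩ Ioi (R / m) = Ioi (R / m) := by
      rw [Ioi_inter_Ioi, sup_of_le_right (by positivity)]
    rw [h4, he1, he2]
    have h5 : m * (R / m) = R := by field_simp
    rw [h5, mul_zero, add_zero, one_pow, mul_one]
    push_cast
    ring
  refine h1.trans (h2.trans (h3.le.trans ?_))
  have h6 : 1 / (4 * m * (1 + R) ^ 4) ≤ 1 / (4 * m * R) := by
    apply one_div_le_one_div_of_le (by positivity)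
    apply mul_le_mul_of_nonneg_left _ (by positivity)
    nlinarith [pow_pos (by linarith : (0:ℝ) < 1 + R) 3, one_le_pow₀ (by linarith : (1:ℝ) ≤ 1 + R) (n := 3)]
  have h7 : Cb / m * q * (1 / (4 * m * (1 + R) ^ 4)) ≤ Cb / m * q * (1 / (4 * m * R)) :=
    mul_le_mul_of_nonneg_left h6 (by positivity)
  have hR0 : 0 < R := by linarith
  calc 2 * (Cb / m * p * (1 / (4 * m)) + Cb / m * q * (1 / (4 * m * (1 + R) ^ 4)))
      ≤ 2 * (Cb / m * p * (1 / (4 * m)) + Cb / m * q * (1 / (4 * m * R))) := by linarith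
    _ = Cb / (2 * m ^ 2) * (p + q / R) := by
      field_simp
      ring

/-- the weighted bound for the outer integral -/
theorem reading_outer {P Ca : ℝ} (hP : 0 < P) (hCa : 0 ≤ Ca) {a : ℝ → ℝ} (ha : Continuous a)
    (ha1 : ∀ x ∈ Ioc 0 Real.pi, |a x| ≤ Ca) (ha2 : ∀ x ∈ Ioc 0 Real.pi, |a x| ≤ Ca / (P * x) ^ 3)
    {g : ℝ → ℝ} (hg : Continuous g) {p q κ₀ z₁ : ℝ} (hp : 0 ≤ p) (hq : 0 ≤ q) (hκ : 0 < κ₀) (hz : 0 < z₁)
    (hg1 : ∀ x, |g x| ≤ p + q) (hg2 : ∀ x, κ₀ / P ≤ x → x ≤ z₁ / P → x ≤ Real.pi → |g x| ≤ p) :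
    |∫ x in (0 : ℝ)..Real.pi, a x * g x| ≤ Ca / P * (4 * p + q * (κ₀ + 1 / (2 * z₁ ^ 2))) := by
  have hpi := Real.pi_pos
  obtain ⟨hi1, he1⟩ := reading_pow (c := 0) hP le_rfl 1 le_rfl
  set w : ℝ → ℝ := fun y => 1 / (1 + P * y) ^ (1 + 1) with hw
  set v : ℝ → ℝ := fun x => x ^ (-3 : ℝ) with hv
  have hzP : 0 < z₁ / P := by positivity
  have hi3 : IntegrableOn v (Ioi (z₁ / P)) := integrableOn_Ioi_rpow_of_lt (by norm_num) hzP
  have he3 : ∫ x in Ioi (z₁ / P), v x = P ^ 2 / (2 * z₁ ^ 2) := by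
    rw [hv, integral_Ioi_rpow_of_lt (by norm_num) hzP]
    have h1 : (-3 : ℝ) + 1 = -((2 : ℕ) : ℝ) := by norm_num
    rw [h1, Real.rpow_neg hzP.le, Real.rpow_natCast]
    field_simp
    norm_num
  set G : ℝ → ℝ := fun x => (4 * Ca * p) * w x + (q * (Ioc (0 : ℝ) (κ₀ / P)).indicator (fun _ => Ca) x +
    (q * (Ca / P ^ 3)) * (Ioi (z₁ / P)).indicator v x) with hG
  have hGa : IntegrableOn (fun x => (4 * Ca * p) * w x) (Ioi 0) := hi1.const_mul _
  have hGb : IntegrableOn (fun x => q * (Ioc (0 : ℝ) (κ₀ / P)).indicator (fun _ => Ca) x) (Ioi 0) := by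
    apply Integrable.const_mul
    have h1 : Integrable ((Ioc (0 : ℝ) (κ₀ / P)).indicator (fun _ => Ca)) := by
      rw [integrable_indicator_iff measurableSet_Ioc]
      exact integrableOn_const (by simp)
    exact h1.integrableOn
  have hGc : IntegrableOn (fun x => (q * (Ca / P ^ 3)) * (Ioi (z₁ / P)).indicator v x) (Ioi 0) := by
    apply Integrable.const_mul
    have h1 : Integrable ((Ioi (z₁ / P)).indicator v) := by
      rw [integrable_indicator_iff measurableSet_Ioi]
      exact hi3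
    exact h1.integrableOn
  have hGi : IntegrableOn G (Ioi 0) := hGa.add (hGb.add hGc)
  have hind1 : ∀ x, 0 ≤ (Ioc (0 : ℝ) (κ₀ / P)).indicator (fun _ => Ca) x := by
    intro x
    apply indicator_nonneg
    intro _ _
    exact hCa
  have hind2 : ∀ x, 0 ≤ (Ioi (z₁ / P)).indicator v x := by
    intro x
    apply indicator_nonneg
    intro y hy
    have hy' : z₁ / P < y := hy
    exact Real.rpow_nonneg (by linarith) _
  have hw0 : ∀ x, 0 < x → 0 ≤ w x := by
    intro x hx
    rw [hw]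
    positivity
  have hbd : ∀ x ∈ Ioc (0 : ℝ) Real.pi, |a x * g x| ≤ G x := by
    intro x hx
    have hx0 : 0 < x := hx.1
    have h1 := ha1 x hx
    have h2 := ha2 x hx
    have h3 : |a x| ≤ 4 * Ca * w x := by
      rw [hw]
      simp only
      rcases le_total (P * x) 1 with h | h
      · refine h1.trans ?_
        rw [mul_one_div, le_div_iff₀ (by positivity)]
        have h4 : (1 + P * x) ^ (1 + 1) ≤ 4 := by
          have h6 : 0 < P * x := mul_pos hP hx0
          have h7 : (1 + P * x) ^ (1 + 1) = (1 + P * x) ^ 2 := by norm_num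
          rw [h7]
          nlinarith
        nlinarith
      · refine h2.trans ?_
        rw [mul_one_div, div_le_div_iff₀ (by positivity) (by positivity)]
        have h4 : (1 + P * x) ^ (1 + 1) ≤ 4 * (P * x) ^ 3 := by
          have h5 : (P * x) ^ 2 ≤ (P * x) ^ 3 := by
            nlinarith [sq_nonneg (P * x)]
          have h7 : (1 + P * x) ^ (1 + 1) = (1 + P * x) ^ 2 := by norm_num
          rw [h7]
          nlinarith
        nlinarith
    rw [abs_mul, hG]
    simp only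
    have hgx := hg1 x
    have hI1 := hind1 x
    have hI2 := hind2 x
    have hP3 : 0 ≤ q * (Ca / P ^ 3) := by positivity
    have hwx := hw0 x hx0
    by_cases hA : κ₀ / P ≤ x
    · by_cases hB : x ≤ z₁ / P
      · have h5 := hg2 x hA hB hx.2
        have h6 : |a x| * |g x| ≤ (4 * Ca * w x) * p := mul_le_mul h3 h5 (abs_nonneg _) (by positivity)
        have h7 : 0 ≤ q * (Ioc (0 : ℝ) (κ₀ / P)).indicator (fun _ => Ca) x +
            (q * (Ca / P ^ 3)) * (Ioi (z₁ / P)).indicator v x := by positivity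
        nlinarith
      · push Not at hB
        have h5 : (Ioi (z₁ / P)).indicator v x = v x := indicator_of_mem hB _
        have h6 : Ca / P ^ 3 * v x = Ca / (P * x) ^ 3 := by
          rw [hv]
          simp only
          have h7 : (-3 : ℝ) = -((3 : ℕ) : ℝ) := by norm_num
          rw [h7, Real.rpow_neg hx0.le, Real.rpow_natCast, mul_pow]
          field_simp
        have h8 : |a x| * |g x| ≤ |a x| * p + |a x| * q := by
          rw [← mul_add]
          exact mul_le_mul_of_nonneg_left hgx (abs_nonneg _)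
        have h9 : |a x| * p ≤ (4 * Ca * w x) * p := mul_le_mul_of_nonneg_right h3 hp
        have h10 : |a x| * q ≤ (Ca / (P * x) ^ 3) * q := mul_le_mul_of_nonneg_right h2 hq
        have h11 : 0 ≤ q * (Ioc (0 : ℝ) (κ₀ / P)).indicator (fun _ => Ca) x := by positivity
        rw [h5, mul_assoc q, h6]
        linarith
    · push Not at hA
      have h5 : (Ioc (0 : ℝ) (κ₀ / P)).indicator (fun _ => Ca) x = Ca := indicator_of_mem (show x ∈ Ioc (0 : ℝ) (κ₀ / P) from ⟨hx0, hA.le⟩) _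
      have h8 : |a x| * |g x| ≤ |a x| * p + |a x| * q := by
        rw [← mul_add]
        exact mul_le_mul_of_nonneg_left hgx (abs_nonneg _)
      have h9 : |a x| * p ≤ (4 * Ca * w x) * p := mul_le_mul_of_nonneg_right h3 hp
      have h10 : |a x| * q ≤ Ca * q := mul_le_mul_of_nonneg_right h1 hq
      have h11 : 0 ≤ (q * (Ca / P ^ 3)) * (Ioi (z₁ / P)).indicator v x := by positivity
      rw [h5]
      linarith
  have h1 : |∫ x in (0 : ℝ)..Real.pi, a x * g x| ≤ ∫ x in Ioc (0 : ℝ) Real.pi, G x := by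
    rw [intervalIntegral.integral_of_le hpi.le, ← Real.norm_eq_abs]
    apply norm_integral_le_of_norm_le (hGi.mono_set Ioc_subset_Ioi_self)
    rw [ae_restrict_iff' measurableSet_Ioc]
    filter_upwards with x hx
    rw [Real.norm_eq_abs]
    exact hbd x hx
  have h2 : ∫ x in Ioc (0 : ℝ) Real.pi, G x ≤ ∫ x in Ioi (0 : ℝ), G x := by
    apply setIntegral_mono_set hGi
    · rw [Filter.EventuallyLE, ae_restrict_iff' measurableSet_Ioi]
      filter_upwards with x hx
      have hx0 : (0 : ℝ) < x := hx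
      have h3 := hw0 x hx0
      have h4 := hind1 x
      have h5 := hind2 x
      rw [hG]
      simp only [Pi.zero_apply]
      positivity
    · exact Ioc_subset_Ioi_self.eventuallyLE
  have h3 : ∫ x in Ioi (0 : ℝ), G x = (4 * Ca * p) * (1 / P) + (q * (κ₀ / P * Ca) + (q * (Ca / P ^ 3)) * (P ^ 2 / (2 * z₁ ^ 2))) := by
    have e1 : ∫ x in Ioi (0 : ℝ), G x = (∫ x in Ioi (0 : ℝ), (4 * Ca * p) * w x) +
        ((∫ x in Ioi (0 : ℝ), q * (Ioc (0 : ℝ) (κ₀ / P)).indicator (fun _ => Ca) x) +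
        ∫ x in Ioi (0 : ℝ), (q * (Ca / P ^ 3)) * (Ioi (z₁ / P)).indicator v x) := by
      rw [← integral_add hGb hGc]
      exact integral_add hGa (hGb.add hGc)
    rw [e1, integral_const_mul, integral_const_mul, integral_const_mul, setIntegral_indicator measurableSet_Ioi,
      setIntegral_indicator measurableSet_Ioc]
    have h4 : Ioi (0 : ℝ) ∩ Ioi (z₁ / P) = Ioi (z₁ / P) := by
      rw [Ioi_inter_Ioi, sup_of_le_right hzP.le]
    have h5 : Ioi (0 : ℝ) ∩ Ioc (0 : ℝ) (κ₀ / P) = Ioc (0 : ℝ) (κ₀ / P) :=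
      inter_eq_right.mpr Ioc_subset_Ioi_self
    rw [h4, h5, he1, he3]
    have h6 : (0 : ℝ) ≤ κ₀ / P := by positivity
    simp [h6]
  refine h1.trans (h2.trans (h3.le.trans (le_of_eq ?_)))
  field_simp

/-- TARGET -/
theorem reading {P m Ca Cb : ℝ} (hP : 0 < P) (hm : 0 < m) (hCa : 0 ≤ Ca) (hCb : 0 ≤ Cb)
    {a b : ℝ → ℝ} (ha : Continuous a) (hb : Continuous b) (hodd : ∀ x, a (-x) = -a x)
    (ha1 : ∀ x ∈ Ioc 0 Real.pi, |a x| ≤ Ca) (ha2 : ∀ x ∈ Ioc 0 Real.pi, |a x| ≤ Ca / (P * x) ^ 3)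
    (hb1 : ∀ y ∈ Icc (-Real.pi) Real.pi, |b y| ≤ Cb * |y| / (1 + m * |y|) ^ 6)
    {θ : Pt → ℝ} (hθ : Continuous θ) (hθ1 : ∀ x, |θ x| ≤ 1) :
    |∫ x in Qb, (a x.1 * b x.2) * θ x| ≤ 4 * Ca * Cb / (P * m ^ 2) ∧
    ∀ (ca cb κ₀ z₁ b₀ R : ℝ), 0 ≤ ca → 0 ≤ cb → ca / P ≤ ∫ x in (0 : ℝ)..Real.pi, a x →
      cb / m ^ 2 ≤ ∫ y in (-Real.pi)..Real.pi, b y → 0 < κ₀ → 0 < z₁ → 0 ≤ b₀ → b₀ ≤ 1 → 1 ≤ R →
      (∀ x₁ x₂ : ℝ, κ₀ / P ≤ x₁ → x₁ ≤ z₁ / P → x₁ ≤ Real.pi → |x₂| ≤ R / m →
        1 - b₀ ≤ θ (x₁, x₂) ∧ θ (-x₁, x₂) ≤ -(1 - b₀)) →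
      1 / (P * m ^ 2) * (2 * ca * cb - 4 * b₀ * Ca * Cb - 4 * Ca * Cb * (κ₀ + 1 / (2 * z₁ ^ 2))
        - 8 * Ca * Cb / R) ≤ ∫ x in Qb, (a x.1 * b x.2) * θ x := by
  have hpi := Real.pi_pos
  have hpi2 : -Real.pi ≤ Real.pi := by linarith
  set Ψ : ℝ → ℝ := fun x => ∫ y in (-Real.pi)..Real.pi, b y * θ (x, y) with hΨ
  have hΨc : Continuous Ψ := by
    apply intervalIntegral.continuous_parametric_intervalIntegral_of_continuous'
    have h1 : Continuous (fun p : ℝ × ℝ => b p.2 * θ (p.1, p.2)) :=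
      (hb.comp continuous_snd).mul (hθ.comp (continuous_fst.prodMk continuous_snd))
    exact h1
  have hI : ∫ x in Qb, (a x.1 * b x.2) * θ x = ∫ x in (0 : ℝ)..Real.pi, a x * (Ψ x - Ψ (-x)) := by
    have hcont : Continuous (fun x : Pt => (a x.1 * b x.2) * θ x) :=
      ((ha.comp continuous_fst).mul (hb.comp continuous_snd)).mul hθ
    have hint : IntegrableOn (fun x : Pt => (a x.1 * b x.2) * θ x)
        (Ioc (-Real.pi) Real.pi ×ˢ Ioc (-Real.pi) Real.pi) (volume.prod volume) := by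
      have h1 : IntegrableOn (fun x : Pt => (a x.1 * b x.2) * θ x)
        (Icc (-Real.pi) Real.pi ×ˢ Icc (-Real.pi) Real.pi) volume :=
        hcont.continuousOn.integrableOn_compact (isCompact_Icc.prod isCompact_Icc)
      rw [Measure.volume_eq_prod] at h1
      exact h1.mono_set (prod_mono Ioc_subset_Icc_self Ioc_subset_Icc_self)
    have h1 : ∫ x in Qb, (a x.1 * b x.2) * θ x
        = ∫ x in Ioc (-Real.pi) Real.pi, ∫ y in Ioc (-Real.pi) Real.pi, (a x * b y) * θ (x, y) := by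
      unfold Qb
      rw [Measure.volume_eq_prod, setIntegral_prod _ hint]
    have h2 : ∀ x, ∫ y in Ioc (-Real.pi) Real.pi, (a x * b y) * θ (x, y) = a x * Ψ x := by
      intro x
      rw [hΨ]
      simp only
      rw [intervalIntegral.integral_of_le hpi2, ← integral_const_mul]
      congr 1
      ext y
      ring
    simp_rw [h2] at h1
    rw [h1, ← intervalIntegral.integral_of_le hpi2, reading_refl (fun x => a x * Ψ x) (ha.mul hΨc)]
    congr 1
    ext x
    rw [hodd]
    ring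
  have hΨb : ∀ x, |Ψ x| ≤ Cb / (2 * m ^ 2) := by
    intro x
    have h1 := reading_inner hm hCb hb hb1 (g := fun y => θ (x, y)) (hθ.comp (Continuous.prodMk_right x))
      (p := 1) (q := 0) (R := 1) (by norm_num) le_rfl le_rfl (fun y => by simpa using hθ1 (x, y))
      (fun y _ => hθ1 (x, y))
    simpa using h1
  have hΨn : Continuous (fun x => Ψ (-x)) := hΨc.comp continuous_neg
  rw [hI]
  constructor
  · have h1 := reading_outer hP hCa ha ha1 ha2 (g := fun x => Ψ x - Ψ (-x)) (hΨc.sub hΨn)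
      (p := Cb / m ^ 2) (q := 0) (κ₀ := 1) (z₁ := 1) (by positivity) le_rfl one_pos one_pos ?_ ?_
    · refine h1.trans (le_of_eq ?_)
      field_simp
      ring
    · intro x
      rw [add_zero]
      calc |Ψ x - Ψ (-x)| ≤ |Ψ x| + |Ψ (-x)| := abs_sub _ _
        _ ≤ Cb / (2 * m ^ 2) + Cb / (2 * m ^ 2) := add_le_add (hΨb x) (hΨb (-x))
        _ = Cb / m ^ 2 := by field_simp; ring
    · intro x _ _ _
      calc |Ψ x - Ψ (-x)| ≤ |Ψ x| + |Ψ (-x)| := abs_sub _ _
        _ ≤ Cb / (2 * m ^ 2) + Cb / (2 * m ^ 2) := add_le_add (hΨb x) (hΨb (-x))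
        _ = Cb / m ^ 2 := by field_simp; ring
  · intro ca cb κ₀ z₁ b₀ R hca hcb hA hB hκ hz hb0 hb01 hR hsig
    set β : ℝ := ∫ y in (-Real.pi)..Real.pi, b y with hβ
    have hR0 : 0 < R := by linarith
    -- the defect
    have hD : ∀ x, 2 * β - (Ψ x - Ψ (-x)) = ∫ y in (-Real.pi)..Real.pi, b y * (2 - (θ (x, y) - θ (-x, y))) := by
      intro x
      have hc1 : Continuous (fun y => b y * θ (x, y)) := hb.mul (hθ.comp (Continuous.prodMk_right x))
      have hc2 : Continuous (fun y => b y * θ (-x, y)) := hb.mul (hθ.comp (Continuous.prodMk_right (-x)))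
      rw [hΨ, hβ]
      simp only
      rw [← reading_sub _ _ hc1 hc2, ← intervalIntegral.integral_const_mul,
        ← reading_sub (fun y => 2 * b y) (fun y => b y * θ (x, y) - b y * θ (-x, y)) (hb.const_mul 2) (hc1.sub hc2)]
      congr 1
      ext y
      ring
    have hgc : ∀ x, Continuous (fun y => 2 - (θ (x, y) - θ (-x, y))) := fun x =>
      continuous_const.sub ((hθ.comp (Continuous.prodMk_right x)).sub (hθ.comp (Continuous.prodMk_right (-x))))
    have hg4 : ∀ x y, |2 - (θ (x, y) - θ (-x, y))| ≤ 4 := by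
      intro x y
      have h1 := abs_le.mp (hθ1 (x, y))
      have h2 := abs_le.mp (hθ1 (-x, y))
      rw [abs_le]
      constructor <;> linarith [h1.1, h1.2, h2.1, h2.2]
    have hD1 : ∀ x, |2 * β - (Ψ x - Ψ (-x))| ≤ 2 * Cb / m ^ 2 := by
      intro x
      rw [hD]
      have h1 := reading_inner hm hCb hb hb1 (hgc x)
        (p := 4) (q := 0) (R := 1) (by norm_num) le_rfl le_rfl (fun y => by simpa using hg4 x y)
        (fun y _ => hg4 x y)
      refine h1.trans (le_of_eq ?_)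
      field_simp
      ring
    have hD2 : ∀ x, κ₀ / P ≤ x → x ≤ z₁ / P → x ≤ Real.pi →
        |2 * β - (Ψ x - Ψ (-x))| ≤ Cb / m ^ 2 * (b₀ + 2 / R) := by
      intro x hx1 hx2 hx3
      rw [hD]
      have h1 := reading_inner hm hCb hb hb1 (hgc x)
        (p := 2 * b₀) (q := 4) (R := R) (by positivity) (by norm_num) hR
        (fun y => (hg4 x y).trans (by linarith)) ?_
      · refine h1.trans (le_of_eq ?_)
        field_simp
        ring
      · intro y hy
        obtain ⟨h3, h4⟩ := hsig x y hx1 hx2 hx3 hy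
        have h5 := abs_le.mp (hθ1 (x, y))
        have h6 := abs_le.mp (hθ1 (-x, y))
        rw [abs_le]
        constructor <;> linarith [h5.1, h5.2, h6.1, h6.2]
    have hout := reading_outer hP hCa ha ha1 ha2 (g := fun x => 2 * β - (Ψ x - Ψ (-x)))
      (continuous_const.sub (hΨc.sub hΨn)) (p := Cb / m ^ 2 * (b₀ + 2 / R)) (q := 2 * Cb / m ^ 2)
      (κ₀ := κ₀) (z₁ := z₁) (by positivity) (by positivity) hκ hz ?_ hD2
    · have h1 : ∫ x in (0 : ℝ)..Real.pi, a x * (2 * β - (Ψ x - Ψ (-x)))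
          = (∫ x in (0 : ℝ)..Real.pi, a x) * (2 * β) - ∫ x in (0 : ℝ)..Real.pi, a x * (Ψ x - Ψ (-x)) := by
        rw [← intervalIntegral.integral_mul_const, ← reading_sub (fun x => a x * (2 * β))
          (fun x => a x * (Ψ x - Ψ (-x))) (ha.mul continuous_const) (ha.mul (hΨc.sub hΨn))]
        congr 1
        ext x
        ring
      rw [h1] at hout
      have h2 := (abs_le.mp hout).2
      have h3 : ca / P * (2 * (cb / m ^ 2)) ≤ (∫ x in (0 : ℝ)..Real.pi, a x) * (2 * β) := by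
        apply mul_le_mul hA (by linarith) (by positivity)
        exact le_trans (by positivity) hA
      have h4 : Ca / P * (4 * (Cb / m ^ 2 * (b₀ + 2 / R)) + 2 * Cb / m ^ 2 * (κ₀ + 1 / (2 * z₁ ^ 2)))
          = 1 / (P * m ^ 2) * (4 * b₀ * Ca * Cb + 2 * Ca * Cb * (κ₀ + 1 / (2 * z₁ ^ 2)) + 8 * Ca * Cb / R) := by
        field_simp
        ring
      have h5 : 0 ≤ 1 / (P * m ^ 2) * (2 * Ca * Cb * (κ₀ + 1 / (2 * z₁ ^ 2))) := by positivity
      have h6 : ca / P * (2 * (cb / m ^ 2)) = 1 / (P * m ^ 2) * (2 * ca * cb) := by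
        field_simp
      rw [h4] at h2
      rw [h6] at h3
      have h7 : 1 / (P * m ^ 2) * (2 * ca * cb - 4 * b₀ * Ca * Cb - 4 * Ca * Cb * (κ₀ + 1 / (2 * z₁ ^ 2))
        - 8 * Ca * Cb / R) = 1 / (P * m ^ 2) * (2 * ca * cb) - 1 / (P * m ^ 2) * (4 * b₀ * Ca * Cb + 2 * Ca * Cb * (κ₀ + 1 / (2 * z₁ ^ 2)) + 8 * Ca * Cb / R) - 1 / (P * m ^ 2) * (2 * Ca * Cb * (κ₀ + 1 / (2 * z₁ ^ 2))) := by
        ring
      rw [h7]
      linarith
    · intro x
      refine (hD1 x).trans ?_
      have h1 : 0 ≤ Cb / m ^ 2 * (b₀ + 2 / R) := by positivity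
      linarith

end H706.JR1

namespace H706

alias reading := JR1.reading

end H706
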