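import Pool.Agent.Helper706_SQG.Defs2

/-!
JOB U1 (MP_96bed6_an, helper706).  Dyadic sums with the slowly varying weight `(n+n₀)^a`.

Notation: `N = -logb 2 x = log₂(1/x)`, `W = Wt a x = N^a`, `ω_n = om a n₀ n = (n+n₀)^a`,
`u_n = 2^(n+n₀) x`, so `logb 2 u_n = n + n₀ - N`.
-/

set_option autoImplicit false
open Set Filter Topology MeasureTheory

namespace H706.JU1

/-- potential function for the partial sums -/
noncomputable def psiU1 (J : ℕ) (v : ℝ) : ℝ :=
  if 2 ^ J * v ≤ 2 then 2 ^ J * v else if v ≤ 2 then 2 + J + Real.logb 2 v else J + 5 - 2 / v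

theorem psiU1_le (J : ℕ) (v : ℝ) (hv : 0 < v) : psiU1 J v ≤ J + 5 := by
  have hJ : (0 : ℝ) ≤ J := Nat.cast_nonneg J
  unfold psiU1
  split_ifs with h1 h2
  · linarith
  · have : Real.logb 2 v ≤ 1 := by
      rw [Real.logb_le_iff_le_rpow (by norm_num) hv]; simpa using h2
    linarith
  · have : 0 ≤ 2 / v := by positivity
    linarith

theorem psiU1_nonneg (J : ℕ) (v : ℝ) (hv : 0 < v) : 0 ≤ psiU1 J v := by
  have hJ : (0 : ℝ) ≤ J := Nat.cast_nonneg J
  unfold psiU1
  split_ifs with h1 h2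
  · positivity
  · have h3 : Real.logb 2 (2 ^ J * v) = J + Real.logb 2 v := by
      rw [Real.logb_mul (by positivity) hv.ne', Real.logb_pow]
      simp
    have h4 : 0 ≤ Real.logb 2 (2 ^ J * v) :=
      Real.logb_nonneg (by norm_num) (by linarith [not_le.mp h1])
    linarith
  · have : 2 / v ≤ 1 := by
      rw [div_le_one hv]; exact (not_le.mp h2).le
    linarith

theorem psiU1_step (J : ℕ) (v : ℝ) (hv : 0 < v) :
    psiU1 J v + min 1 (min (2 ^ J * v) (1 / v)) ≤ psiU1 J (2 * v) := by
  have hJ : (0 : ℝ) ≤ J := Nat.cast_nonneg J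
  have m1 : min 1 (min (2 ^ J * v) (1 / v)) ≤ 1 := min_le_left _ _
  have m2 : min 1 (min (2 ^ J * v) (1 / v)) ≤ 2 ^ J * v := (min_le_right _ _).trans (min_le_left _ _)
  have m3 : min 1 (min (2 ^ J * v) (1 / v)) ≤ 1 / v := (min_le_right _ _).trans (min_le_right _ _)
  have e1 : 2 ^ J * (2 * v) = 2 * (2 ^ J * v) := by ring
  have e2 : Real.logb 2 (2 * v) = 1 + Real.logb 2 v := by
    rw [Real.logb_mul (by norm_num) hv.ne']
    simp
  have e3 : 2 / (2 * v) = 1 / v := by
    field_simp
  have e4 : 2 / v = 2 * (1 / v) := by ring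
  have p1 : 0 < 1 / v := by positivity
  unfold psiU1
  rw [e1, e2, e3, e4]
  by_cases h1 : 2 ^ J * v ≤ 2
  · rw [if_pos h1]
    by_cases h2 : 2 * (2 ^ J * v) ≤ 2
    · rw [if_pos h2]; linarith
    · rw [if_neg h2]
      have h2' : 1 < 2 ^ J * v := by linarith [not_le.mp h2]
      by_cases h3 : 2 * v ≤ 2
      · rw [if_pos h3]
        have h4 : Real.logb 2 (2 ^ J * v) = J + Real.logb 2 v := by
          rw [Real.logb_mul (by positivity) hv.ne', Real.logb_pow]
          simp
        have h5 : 0 ≤ Real.logb 2 (2 ^ J * v) := Real.logb_nonneg (by norm_num) h2'.le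
        linarith
      · rw [if_neg h3]
        have h4 : 1 / v ≤ 1 := by rw [div_le_one hv]; linarith [not_le.mp h3]
        linarith
  · rw [if_neg h1]
    have h1' : ¬ 2 * (2 ^ J * v) ≤ 2 := by
      have := not_le.mp h1
      intro h; linarith
    rw [if_neg h1']
    by_cases h2 : v ≤ 2
    · rw [if_pos h2]
      by_cases h3 : 2 * v ≤ 2
      · rw [if_pos h3]; linarith
      · rw [if_neg h3]
        have h4 : 1 / v ≤ 1 := by rw [div_le_one hv]; linarith [not_le.mp h3]
        have h5 : Real.logb 2 v ≤ 1 := by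
          rw [Real.logb_le_iff_le_rpow (by norm_num) hv]; simpa using h2
        linarith
    · rw [if_neg h2]
      have h3 : ¬ 2 * v ≤ 2 := by
        have := not_le.mp h2
        intro h; linarith
      rw [if_neg h3]
      linarith

theorem psiU1_sum (J : ℕ) (X : ℝ) (hX : 0 < X) (K : ℕ) :
    ∑ n ∈ Finset.range K, min 1 (min (2 ^ J * (2 ^ n * X)) (1 / (2 ^ n * X))) ≤
      psiU1 J (2 ^ K * X) := by
  induction K with
  | zero => simpa using psiU1_nonneg J X hX
  | succ K ih =>
    rw [Finset.sum_range_succ]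
    have h := psiU1_step J (2 ^ K * X) (by positivity)
    have e : 2 * (2 ^ K * X) = 2 ^ (K + 1) * X := by ring
    rw [e] at h
    linarith

/-- comparison with the reference series -/
theorem main_U1 (J : ℕ) (X W : ℝ) (hX : 0 < X) (hW : 0 ≤ W) (g : ℕ → ℝ) (h0 : ∀ n, 0 ≤ g n)
    (hg : ∀ n, g n ≤ W * min 1 (min (2 ^ J * (2 ^ n * X)) (1 / (2 ^ n * X)))) :
    Summable g ∧ ∑' n, g n ≤ (J + 5) * W := by
  have hb : ∀ K, ∑ n ∈ Finset.range K, g n ≤ (J + 5) * W := by
    intro K
    calc ∑ n ∈ Finset.range K, g n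
        ≤ ∑ n ∈ Finset.range K, W * min 1 (min (2 ^ J * (2 ^ n * X)) (1 / (2 ^ n * X))) :=
          Finset.sum_le_sum fun n _ => hg n
      _ = W * ∑ n ∈ Finset.range K, min 1 (min (2 ^ J * (2 ^ n * X)) (1 / (2 ^ n * X))) := by
          rw [Finset.mul_sum]
      _ ≤ W * (J + 5) := by
          apply mul_le_mul_of_nonneg_left _ hW
          exact (psiU1_sum J X hX K).trans (psiU1_le J _ (by positivity))
      _ = (J + 5) * W := by ring
  exact ⟨summable_of_sum_range_le h0 hb, Real.tsum_le_of_sum_range_le h0 hb⟩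

/-- `ω_n ≤ W max 1 u_n` -/
theorem om_le_U1 (a : ℝ) (ha : 0 ≤ a) (n₀ n : ℕ) (x : ℝ) (hx : 0 < x)
    (hxa : 2 * a + 1 ≤ -Real.logb 2 x) :
    om a n₀ n ≤ Wt a x * max 1 (2 ^ (n + n₀) * x) := by
  set N := -Real.logb 2 x with hN
  have hN1 : 1 ≤ N := by linarith
  have hN0 : 0 < N := by linarith
  have hM0 : (0 : ℝ) ≤ (n : ℝ) + n₀ := by positivity
  have hW : 0 ≤ Wt a x := by
    unfold Wt; rw [← hN]; positivity
  rcases le_or_gt ((n : ℝ) + n₀) N with h | h
  · have h1 : om a n₀ n ≤ Wt a x := by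
      unfold om Wt
      exact Real.rpow_le_rpow hM0 h ha
    calc om a n₀ n ≤ Wt a x * 1 := by rw [mul_one]; exact h1
      _ ≤ _ := mul_le_mul_of_nonneg_left (le_max_left _ _) hW
  · refine le_trans ?_ (mul_le_mul_of_nonneg_left (le_max_right _ _) hW)
    set m : ℝ := (n : ℝ) + n₀ with hm
    have hmp : 0 < m := hN0.trans h
    have hl2 : 1 / 2 ≤ Real.log 2 := by linarith [Real.log_two_gt_d9]
    have e1 : (2 : ℝ) ^ (n + n₀) * x = Real.exp ((m - N) * Real.log 2) := by
      have h1 : (2 : ℝ) ^ (n + n₀) = Real.exp (m * Real.log 2) := by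
        rw [mul_comm, Real.exp_mul, Real.exp_log (by norm_num), hm]
        rw [← Real.rpow_natCast]
        push_cast
        rfl
      have h2 : x = Real.exp (-N * Real.log 2) := by
        rw [hN, neg_neg, Real.logb, div_mul_cancel₀ _ (by positivity), Real.exp_log hx]
      rw [h1]
      conv_lhs => rw [h2]
      rw [← Real.exp_add]
      congr 1; ring
    have e2 : om a n₀ n = Wt a x * (m / N) ^ a := by
      unfold om Wt
      rw [← Real.mul_rpow hN0.le (by positivity)]
      congr 1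
      field_simp
      exact hm.symm
    rw [e1, e2]
    apply mul_le_mul_of_nonneg_left _ hW
    rw [Real.rpow_def_of_pos (by positivity)]
    apply Real.exp_le_exp.mpr
    have h3 : Real.log (m / N) ≤ m / N - 1 := Real.log_le_sub_one_of_pos (by positivity)
    have h4 : m / N - 1 = (m - N) / N := by field_simp
    have h5 : 0 < m - N := by linarith
    calc Real.log (m / N) * a ≤ ((m - N) / N) * a := by
          apply mul_le_mul_of_nonneg_right _ ha
          linarith
      _ = (m - N) * (a / N) := by ring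
      _ ≤ (m - N) * Real.log 2 := by
          apply mul_le_mul_of_nonneg_left _ h5.le
          refine le_trans ?_ hl2
          rw [div_le_iff₀ hN0]
          linarith

/-- TARGET -/
theorem sums_U (a : ℝ) (ha : 0 ≤ a) (J n₀ : ℕ) (x : ℝ) (hx : 0 < x)
    (hxa : 2 * a + 1 ≤ -Real.logb 2 x) :
    (Summable fun n : ℕ => om a n₀ n *
      min 1 (min (2 ^ J * 2 ^ (n + n₀) * x) (1 / (2 ^ (n + n₀) * x) ^ 3))) ∧
    (∑' n : ℕ, om a n₀ n *
      min 1 (min (2 ^ J * 2 ^ (n + n₀) * x) (1 / (2 ^ (n + n₀) * x) ^ 3))) ≤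
        (J + 10) * Wt a x ∧
    (Summable fun n : ℕ => om a n₀ n * (hh (2 ^ J * 2 ^ (n + n₀) * x) + hh (2 ^ (n + n₀) * x))) ∧
    (∑' n : ℕ, om a n₀ n * (hh (2 ^ J * 2 ^ (n + n₀) * x) + hh (2 ^ (n + n₀) * x))) ≤
        10 * Wt a x := by
  have hW : 0 ≤ Wt a x := by
    unfold Wt; apply Real.rpow_nonneg; linarith
  have hom : ∀ n, 0 ≤ om a n₀ n := fun n => by unfold om; positivity
  have hu : ∀ n, om a n₀ n ≤ Wt a x * max 1 (2 ^ (n + n₀) * x) := fun n =>
    om_le_U1 a ha n₀ n x hx hxa
  have hJ1 : (1 : ℝ) ≤ 2 ^ J := one_le_pow₀ (by norm_num)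
  -- first sum
  have A := main_U1 J (2 ^ n₀ * x) (Wt a x) (by positivity) hW
    (fun n => om a n₀ n * min 1 (min (2 ^ J * 2 ^ (n + n₀) * x) (1 / (2 ^ (n + n₀) * x) ^ 3)))
    (fun n => mul_nonneg (hom n) (by positivity)) (by
      intro n
      have e : (2 : ℝ) ^ n * (2 ^ n₀ * x) = 2 ^ (n + n₀) * x := by rw [pow_add]; ring
      have e' : (2 : ℝ) ^ J * 2 ^ (n + n₀) * x = 2 ^ J * (2 ^ (n + n₀) * x) := by ring
      rw [e, e']
      have hn := hu n
      set u : ℝ := 2 ^ (n + n₀) * x with hudef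
      have hu0 : 0 < u := by positivity
      have hg0 : 0 ≤ min 1 (min (2 ^ J * u) (1 / u ^ 3)) := by positivity
      refine (mul_le_mul_of_nonneg_right hn hg0).trans ?_
      rw [mul_assoc]
      apply mul_le_mul_of_nonneg_left _ hW
      rcases le_or_gt u 1 with h | h
      · rw [max_eq_left h, one_mul]
        apply le_min (min_le_left _ _)
        apply le_min ((min_le_right _ _).trans (min_le_left _ _))
        refine (min_le_left _ _).trans ?_
        rw [le_div_iff₀ hu0]; linarith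
      · rw [max_eq_right h.le]
        have h1 : u * min 1 (min (2 ^ J * u) (1 / u ^ 3)) ≤ u * (1 / u ^ 3) :=
          mul_le_mul_of_nonneg_left ((min_le_right _ _).trans (min_le_right _ _)) hu0.le
        have h2 : u * (1 / u ^ 3) ≤ 1 / u := by
          have : u * (1 / u ^ 3) = 1 / u * (1 / u) := by field_simp
          rw [this]
          have h3 : 1 / u ≤ 1 := by rw [div_le_one hu0]; exact h.le
          have h4 : 0 < 1 / u := by positivity
          nlinarith
        have h3 : 1 / u ≤ 1 := by rw [div_le_one hu0]; exact h.le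
        have h4 : 1 ≤ 2 ^ J * u := by nlinarith
        exact le_min (by linarith) (le_min (by linarith) (by linarith)))
  -- the second family
  have B : ∀ J' : ℕ, Summable (fun n : ℕ => om a n₀ n * hh (2 ^ J' * 2 ^ (n + n₀) * x)) ∧
      ∑' n : ℕ, om a n₀ n * hh (2 ^ J' * 2 ^ (n + n₀) * x) ≤ 5 * Wt a x := by
    intro J'
    have hJ1 : (1 : ℝ) ≤ 2 ^ J' := one_le_pow₀ (by norm_num)
    have h := main_U1 0 (2 ^ J' * (2 ^ n₀ * x)) (Wt a x) (by positivity) hW
      (fun n => om a n₀ n * hh (2 ^ J' * 2 ^ (n + n₀) * x))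
      (fun n => mul_nonneg (hom n) (by unfold hh; positivity)) (by
        intro n
        have e : (2 : ℝ) ^ n * (2 ^ J' * (2 ^ n₀ * x)) = 2 ^ J' * 2 ^ (n + n₀) * x := by
          rw [pow_add]; ring
        rw [e]
        have hn := hu n
        have hy0 : 0 < 2 ^ J' * 2 ^ (n + n₀) * x := by positivity
        have hyu : 2 ^ (n + n₀) * x ≤ 2 ^ J' * 2 ^ (n + n₀) * x := by
          have : 0 < 2 ^ (n + n₀) * x := by positivity
          have e2 : (2 : ℝ) ^ J' * 2 ^ (n + n₀) * x = 2 ^ J' * (2 ^ (n + n₀) * x) := by ring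
          rw [e2]; nlinarith
        have hn' : om a n₀ n ≤ Wt a x * max 1 (2 ^ J' * 2 ^ (n + n₀) * x) :=
          hn.trans (mul_le_mul_of_nonneg_left (max_le_max le_rfl hyu) hW)
        generalize (2 : ℝ) ^ J' * 2 ^ (n + n₀) * x = y at hy0 hn' ⊢
        have hg0 : 0 ≤ hh y := by unfold hh; positivity
        refine (mul_le_mul_of_nonneg_right hn' hg0).trans ?_
        rw [mul_assoc]
        apply mul_le_mul_of_nonneg_left _ hW
        rw [pow_zero, one_mul]
        unfold hh
        rcases le_or_gt y 1 with h | h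
        · rw [max_eq_left h, one_mul]
          have h1 : min y (1 / y ^ 3) ≤ y := min_le_left _ _
          have h2 : 1 ≤ 1 / y := by rw [le_div_iff₀ hy0]; linarith
          exact le_min (by linarith) (le_min h1 (by linarith))
        · rw [max_eq_right h.le]
          have h1 : y * min y (1 / y ^ 3) ≤ y * (1 / y ^ 3) :=
            mul_le_mul_of_nonneg_left (min_le_right _ _) hy0.le
          have h2 : y * (1 / y ^ 3) ≤ 1 / y := by
            have : y * (1 / y ^ 3) = 1 / y * (1 / y) := by field_simp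
            rw [this]
            have h3 : 1 / y ≤ 1 := by rw [div_le_one hy0]; exact h.le
            have h4 : 0 < 1 / y := by positivity
            nlinarith
          have h3 : 1 / y ≤ 1 := by rw [div_le_one hy0]; exact h.le
          exact le_min (by linarith) (le_min (by linarith) (by linarith)))
    refine ⟨h.1, h.2.trans (le_of_eq ?_)⟩
    push_cast; ring
  have B1 := B J
  have B0 := B 0
  simp only [pow_zero, one_mul] at B0
  have e : (fun n : ℕ => om a n₀ n * (hh (2 ^ J * 2 ^ (n + n₀) * x) + hh (2 ^ (n + n₀) * x))) =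
      fun n : ℕ => om a n₀ n * hh (2 ^ J * 2 ^ (n + n₀) * x) +
        om a n₀ n * hh (2 ^ (n + n₀) * x) := by
    ext n; ring
  refine ⟨A.1, ?_, ?_, ?_⟩
  · refine A.2.trans ?_
    nlinarith
  · rw [e]; exact B1.1.add B0.1
  · rw [e, B1.1.tsum_add B0.1]
    linarith [B1.2, B0.2]

end H706.JU1

namespace H706

alias sums_U := JU1.sums_U

end H706
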