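import Pool.Agent.Helper706_SQG.Defs2

/-!
JOB U2 (MP_96bed6_an, helper706).  The main part of the flow.

Notation: `N = -logb 2 x`, `W = Wt a x = N^a`, `ω_n = om a n₀ n`, `u_n = 2^(n+n₀) x`,
`K = logb 2 (Y/y₁) + 2`, `g_n = min 1 (min (2^J u_n) (1/u_n³))`.
PROOF.  As in job U1, `ω_n ≤ W max(1,u_n)` for `N ≥ 2a+1` (if `n+n₀ ≤ N` clear; otherwise
`n+n₀ = N+j` and `(N+j)^a ≤ N^a exp(a j/N) ≤ N^a 2^j`, `2^j = u_n`); `∑ min (2^n X) (1/(2^n X)) ≤ 4`.
Call `n` main if `Y ≤ 2^J u_n` and `u_n ≤ y₁`. The terms with `n` not main: those with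
`2^J u_n < 1` contribute in absolute value at most `Γ ρM W ∑ 2^J u_n ≤ 2 Γ ρM W`, those with `u_n > 1`
at most `Γ ρM W ∑ u_n/u_n³ ≤ 2 Γ ρM W`, and those with `1 ≤ 2^J u_n`, `u_n ≤ 1`, but (`2^J u_n < Y` or
`u_n > y₁`) are at most `(logb 2 Y + 1) + (logb 2 (1/y₁) + 1)` many and contribute at most `Γ ρM W` each.
Together at most `Γ ρM (10 + K) W`.
Main `n`: `logb 2 Y - J ≤ n + n₀ - N ≤ logb 2 y₁`. If `x ≤ xb` is small, `N + logb 2 Y - J ≥ n₀`, so all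
integers in this interval occur, at least `J - logb 2 (Y/y₁) - 1 ≥ J - K` many, and
`ω_n ≥ (N-J)^a ≥ N^a/2`. Each main term is `≤ - ω_n ρm (3/4)(1/2) ≤ -(3/16) ρm W`.
-/

set_option autoImplicit false
open Set Filter Topology MeasureTheory

namespace H706.JU2

theorem geo_two (v : ℝ) (hv : 0 < v) :
    Summable (fun n : ℕ => min (v * 2 ^ n) (1 / (v * 2 ^ n))) ∧
    ∑' n : ℕ, min (v * 2 ^ n) (1 / (v * 2 ^ n)) ≤ 4 := by
  classical
  have hex : ∃ k : ℕ, 1 ≤ v * 2 ^ k := by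
    obtain ⟨k, hk⟩ := pow_unbounded_of_one_lt (1 / v) (one_lt_two (α := ℝ))
    refine ⟨k, ?_⟩
    rw [div_lt_iff₀ hv] at hk
    linarith
  set k := Nat.find hex with hkdef
  have hk : 1 ≤ v * 2 ^ k := Nat.find_spec hex
  have hlt : ∀ i, i < k → v * 2 ^ i < 1 := fun i hi => not_le.mp (Nat.find_min hex hi)
  have hpos : ∀ n : ℕ, 0 < v * 2 ^ n := fun n => by positivity
  have htail : ∀ n : ℕ, min (v * 2 ^ (n + k)) (1 / (v * 2 ^ (n + k))) ≤ (1 / 2 : ℝ) ^ n := by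
    intro n
    refine (min_le_right _ _).trans ?_
    rw [one_div_pow, one_div_le_one_div (hpos _) (by positivity), pow_add]
    nlinarith [pow_pos (show (0 : ℝ) < 2 by norm_num) n]
  have hnn : ∀ n : ℕ, 0 ≤ min (v * 2 ^ n) (1 / (v * 2 ^ n)) := fun n =>
    le_min (hpos n).le (one_div_nonneg.mpr (hpos n).le)
  have hst : Summable (fun n : ℕ => min (v * 2 ^ (n + k)) (1 / (v * 2 ^ (n + k)))) :=
    Summable.of_nonneg_of_le (fun n => hnn _) htail summable_geometric_two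
  have hs : Summable (fun n : ℕ => min (v * 2 ^ n) (1 / (v * 2 ^ n))) :=
    (summable_nat_add_iff k).mp hst
  refine ⟨hs, ?_⟩
  rw [← hs.sum_add_tsum_nat_add k]
  have h1 : ∑' n : ℕ, min (v * 2 ^ (n + k)) (1 / (v * 2 ^ (n + k))) ≤ 2 := by
    exact (hst.tsum_le_tsum htail summable_geometric_two).trans tsum_geometric_two.le
  have h2 : ∑ i ∈ Finset.range k, min (v * 2 ^ i) (1 / (v * 2 ^ i)) ≤ 2 := by
    calc ∑ i ∈ Finset.range k, min (v * 2 ^ i) (1 / (v * 2 ^ i))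
        ≤ ∑ i ∈ Finset.range k, (1 / 2 : ℝ) ^ (k - 1 - i) := by
          refine Finset.sum_le_sum fun i hi => (min_le_left _ _).trans ?_
          have hik := Finset.mem_range.mp hi
          have h3 := hlt (k - 1) (by omega)
          have h4 : (2 : ℝ) ^ (k - 1) = 2 ^ i * 2 ^ (k - 1 - i) := by
            rw [← pow_add]; congr 1; omega
          rw [h4, ← mul_assoc] at h3
          rw [one_div_pow, le_div_iff₀ (by positivity)]
          exact h3.le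
      _ = ∑ i ∈ Finset.range k, (1 / 2 : ℝ) ^ i := Finset.sum_range_reflect _ _
      _ ≤ ∑' i : ℕ, (1 / 2 : ℝ) ^ i :=
          summable_geometric_two.sum_le_tsum _ (fun i _ => by positivity)
      _ = 2 := tsum_geometric_two
  linarith

/-- The weight at `n` against the weight at `x`. -/
theorem om_le (a : ℝ) (ha : 0 ≤ a) (N t : ℝ) (hN : 2 * a + 1 ≤ N) (ht : 0 ≤ t) :
    t ^ a ≤ N ^ a * max 1 (2 ^ (t - N)) := by
  have hN0 : 0 < N := by linarith
  rcases le_or_gt t N with h | h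
  · calc t ^ a ≤ N ^ a := Real.rpow_le_rpow ht h ha
      _ ≤ N ^ a * max 1 (2 ^ (t - N)) :=
        le_mul_of_one_le_right (by positivity) (le_max_left _ _)
  · have h2 : 0 < t / N := div_pos (by linarith) hN0
    have h1 : t ^ a = N ^ a * (t / N) ^ a := by
      rw [← Real.mul_rpow hN0.le h2.le, mul_div_cancel₀ _ hN0.ne']
    rw [h1]
    refine mul_le_mul_of_nonneg_left ((?_ : (t / N) ^ a ≤ 2 ^ (t - N)).trans (le_max_right _ _))
      (by positivity)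
    rw [Real.rpow_def_of_pos h2, Real.rpow_def_of_pos (by norm_num : (0 : ℝ) < 2)]
    refine Real.exp_le_exp.mpr ?_
    have h3 : Real.log (t / N) ≤ t / N - 1 := Real.log_le_sub_one_of_pos h2
    have h4 : t / N - 1 = (t - N) / N := by field_simp
    have h5 : (1 / 2 : ℝ) ≤ Real.log 2 := by have := Real.log_two_gt_d9; linarith
    calc Real.log (t / N) * a ≤ (t - N) / N * a :=
          mul_le_mul_of_nonneg_right (h3.trans h4.le) ha
      _ = (t - N) * (a / N) := by ring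
      _ ≤ (t - N) * Real.log 2 := by
          refine mul_le_mul_of_nonneg_left ?_ (by linarith)
          refine le_trans ?_ h5
          rw [div_le_iff₀ hN0]
          linarith
      _ = Real.log 2 * (t - N) := by ring

theorem om_ge (a : ℝ) (ha : 0 ≤ a) (N J t : ℝ) (hN0 : 0 < N) (hJ : 0 ≤ J)
    (hN : 2 * (a + 1) * J ≤ N) (ht : N - J ≤ t) : N ^ a / 2 ≤ t ^ a := by
  have hs : J / N ≤ 1 / 2 / (a + 1) := by
    rw [div_div, div_le_div_iff₀ hN0 (by positivity)]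
    linarith
  have hs1 : (a + 1) * (J / N) ≤ 1 / 2 := by
    rw [le_div_iff₀ (by positivity)] at hs
    linarith
  have hJN : 0 ≤ J / N := by positivity
  have hJN1 : J / N ≤ 1 / 2 := by nlinarith
  have h1 := one_add_mul_self_le_rpow_one_add (s := -(J / N)) (by linarith) (p := a + 1)
    (by linarith)
  have h2 : (1 + -(J / N)) ^ (a + 1) ≤ (1 + -(J / N)) ^ a :=
    Real.rpow_le_rpow_of_exponent_ge (by linarith) (by linarith) (by linarith)
  have h3 : (1 / 2 : ℝ) ≤ (1 + -(J / N)) ^ a := by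
    refine le_trans ?_ h2
    refine le_trans ?_ h1
    linarith
  have h4 : (N - J) ^ a = N ^ a * (1 + -(J / N)) ^ a := by
    rw [← Real.mul_rpow hN0.le (by linarith)]
    congr 1
    field_simp
    ring
  have h5 : (N - J) ^ a ≤ t ^ a := by
    refine Real.rpow_le_rpow ?_ ht ha
    have : J / N ≤ 1 := by linarith
    rw [div_le_one hN0] at this
    linarith
  have h6 : 0 < N ^ a := by positivity
  rw [h4] at h5
  nlinarith

set_option maxHeartbeats 4000000 in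
/-- TARGET -/
theorem main_flow (a : ℝ) (ha : 0 ≤ a) (J n₀ : ℕ) (Y y₁ : ℝ) (hY : 1 ≤ Y) (hy : 0 < y₁)
    (hy1 : y₁ ≤ 1) (hJ : Real.logb 2 (Y / y₁) + 2 ≤ J) :
    ∃ xb > 0, ∀ x ∈ Ioc 0 xb, ∀ (Γ ρm ρM : ℝ) (ρ A B : ℕ → ℝ), 0 ≤ Γ → 0 ≤ ρm → 0 ≤ ρM →
      (∀ n, |ρ n| ≤ ρM) →
      (∀ n, |A n| * |B n| ≤
        Γ * min 1 (min (2 ^ J * 2 ^ (n + n₀) * x) (1 / (2 ^ (n + n₀) * x) ^ 3))) →
      (∀ n, Y ≤ 2 ^ J * 2 ^ (n + n₀) * x → 2 ^ (n + n₀) * x ≤ y₁ →
        ρm ≤ ρ n ∧ 3 / 4 ≤ A n ∧ B n ≤ -(1 / 2)) →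
      (∑' n : ℕ, om a n₀ n * ρ n * (A n * B n)) ≤
        -(3 / 16 * ρm * (J - (Real.logb 2 (Y / y₁) + 2)) -
          Γ * ρM * (10 + (Real.logb 2 (Y / y₁) + 2))) * Wt a x := by
  classical
  set N₀ : ℝ := (2 * a + 1) + 2 * (a + 1) * J + J + n₀ with hN₀
  refine ⟨2 ^ (-N₀), by positivity, ?_⟩
  intro x hx Γ ρm ρM ρ A B hΓ hρm hρM hρ hAB hmain
  have hx0 : 0 < x := hx.1
  set N : ℝ := -Real.logb 2 x with hNdef
  have hNN : N₀ ≤ N := by
    have : Real.logb 2 x ≤ -N₀ := by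
      rw [Real.logb_le_iff_le_rpow (by norm_num) hx0]
      exact hx.2
    linarith
  have hJ0 : (0 : ℝ) ≤ J := Nat.cast_nonneg J
  have hn0 : (0 : ℝ) ≤ n₀ := Nat.cast_nonneg n₀
  have haJ : 0 ≤ (a + 1) * (J : ℝ) := by positivity
  have hN1 : 2 * a + 1 ≤ N := by nlinarith
  have hN2 : 2 * (a + 1) * J ≤ N := by nlinarith
  have hN3 : (J : ℝ) + n₀ ≤ N := by nlinarith
  have hN0 : 0 < N := by linarith
  have hxN : x = 2 ^ (-N) := by
    rw [hNdef, neg_neg, Real.rpow_logb (by norm_num) (by norm_num) hx0]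
  have hWt : Wt a x = N ^ a := rfl
  have hW : 0 < N ^ a := by positivity
  set lY := Real.logb 2 Y with hlY
  set ly := Real.logb 2 y₁ with hly
  have hY0 : 0 < Y := by linarith
  have hlY0 : 0 ≤ lY := Real.logb_nonneg (by norm_num) hY
  have hly0 : ly ≤ 0 := Real.logb_nonpos (by norm_num) hy.le hy1
  have hYy : Real.logb 2 (Y / y₁) = lY - ly := Real.logb_div hY0.ne' hy.ne'
  rw [hYy] at hJ ⊢
  have hu : ∀ n : ℕ, (2 : ℝ) ^ (n + n₀) * x = 2 ^ ((n : ℝ) + n₀ - N) := by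
    intro n
    rw [hxN, ← Real.rpow_natCast, ← Real.rpow_add (by norm_num)]
    push_cast
    ring_nf
  have hv : ∀ n : ℕ, (2 : ℝ) ^ J * 2 ^ (n + n₀) * x = 2 ^ ((J : ℝ) + ((n : ℝ) + n₀ - N)) := by
    intro n
    rw [mul_assoc, hu n, ← Real.rpow_natCast, ← Real.rpow_add (by norm_num)]
  set M : Finset ℕ := Finset.Icc ⌈lY - J + N - n₀⌉₊ ⌊ly + N - n₀⌋₊ with hM
  set Sa : Finset ℕ := Finset.Ico ⌈N - J - n₀⌉₊ ⌈lY + N - J - n₀⌉₊ with hSa
  set Sb : Finset ℕ := Finset.Ioc ⌊ly + N - n₀⌋₊ ⌊N - n₀⌋₊ with hSb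
  have hq0 : 0 ≤ ly + N - n₀ := by linarith
  have hMcard : (J : ℝ) - (lY - ly + 2) ≤ (M.card : ℝ) := by
    rw [hM, Nat.card_Icc]
    have h1 : lY - J + N - n₀ ≤ ly + N - n₀ := by linarith
    have h2 : (⌈lY - J + N - n₀⌉₊ : ℝ) < (lY - J + N - n₀) + 1 :=
      Nat.ceil_lt_add_one (by linarith)
    have h3 : ly + N - n₀ < (⌊ly + N - n₀⌋₊ : ℝ) + 1 := Nat.lt_floor_add_one _
    have h4 : ((⌊ly + N - n₀⌋₊ + 1 : ℕ) : ℝ) ≤
        ((⌊ly + N - n₀⌋₊ + 1 - ⌈lY - J + N - n₀⌉₊ : ℕ) : ℝ) + (⌈lY - J + N - n₀⌉₊ : ℝ) := by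
      exact_mod_cast le_tsub_add
    rw [Nat.cast_add, Nat.cast_one] at h4
    linarith
  have hSac : (Sa.card : ℝ) ≤ lY + 1 := by
    rw [hSa, Nat.card_Ico]
    have h2 : (⌈lY + N - J - n₀⌉₊ : ℝ) < (lY + N - J - n₀) + 1 :=
      Nat.ceil_lt_add_one (by linarith)
    have h3 : N - J - n₀ ≤ (⌈N - J - n₀⌉₊ : ℝ) := Nat.le_ceil _
    have h5 : ⌈N - J - n₀⌉₊ ≤ ⌈lY + N - J - n₀⌉₊ := Nat.ceil_le_ceil (by linarith)
    rw [Nat.cast_sub h5]
    linarith
  have hSbc : (Sb.card : ℝ) ≤ -ly + 1 := by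
    rw [hSb, Nat.card_Ioc]
    have h2 : (⌊N - n₀⌋₊ : ℝ) ≤ N - n₀ := Nat.floor_le (by linarith)
    have h3 : ly + N - n₀ < (⌊ly + N - n₀⌋₊ : ℝ) + 1 := Nat.lt_floor_add_one _
    have h5 : ⌊ly + N - n₀⌋₊ ≤ ⌊N - n₀⌋₊ := Nat.floor_le_floor (by linarith)
    rw [Nat.cast_sub h5]
    linarith
  -- membership
  have hmemM : ∀ n : ℕ, n ∈ M ↔ (lY ≤ J + ((n : ℝ) + n₀ - N) ∧ (n : ℝ) + n₀ - N ≤ ly) := by
    intro n
    rw [hM, Finset.mem_Icc, Nat.ceil_le, Nat.le_floor_iff hq0]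
    constructor
    · rintro ⟨h1, h2⟩; exact ⟨by linarith, by linarith⟩
    · rintro ⟨h1, h2⟩; exact ⟨by linarith, by linarith⟩
  have hmemSa : ∀ n : ℕ, n ∈ Sa ↔ (0 ≤ J + ((n : ℝ) + n₀ - N) ∧ J + ((n : ℝ) + n₀ - N) < lY) := by
    intro n
    rw [hSa, Finset.mem_Ico, Nat.ceil_le, Nat.lt_ceil]
    constructor
    · rintro ⟨h1, h2⟩; exact ⟨by linarith, by linarith⟩
    · rintro ⟨h1, h2⟩; exact ⟨by linarith, by linarith⟩
  have hmemSb : ∀ n : ℕ, n ∈ Sb ↔ (ly < (n : ℝ) + n₀ - N ∧ (n : ℝ) + n₀ - N ≤ 0) := by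
    intro n
    rw [hSb, Finset.mem_Ioc, Nat.floor_lt hq0, Nat.le_floor_iff (by linarith)]
    constructor
    · rintro ⟨h1, h2⟩; exact ⟨by linarith, by linarith⟩
    · rintro ⟨h1, h2⟩; exact ⟨by linarith, by linarith⟩
  -- the two geometric sums
  have hv0 : 0 < (2 : ℝ) ^ J * 2 ^ n₀ * x := by positivity
  have hu0 : 0 < (2 : ℝ) ^ n₀ * x := by positivity
  obtain ⟨s1, t1⟩ := geo_two _ hv0
  obtain ⟨s2, t2⟩ := geo_two _ hu0
  have hv' : ∀ n : ℕ, (2 : ℝ) ^ J * 2 ^ n₀ * x * 2 ^ n = 2 ^ ((J : ℝ) + ((n : ℝ) + n₀ - N)) := by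
    intro n; rw [← hv n, pow_add]; ring
  have hu' : ∀ n : ℕ, (2 : ℝ) ^ n₀ * x * 2 ^ n = 2 ^ ((n : ℝ) + n₀ - N) := by
    intro n; rw [← hu n, pow_add]; ring
  simp only [hv'] at s1 t1
  simp only [hu'] at s2 t2
  set e1 : ℕ → ℝ := fun n => min ((2 : ℝ) ^ ((J : ℝ) + ((n : ℝ) + n₀ - N)))
    (1 / (2 : ℝ) ^ ((J : ℝ) + ((n : ℝ) + n₀ - N))) with he1
  set e2 : ℕ → ℝ := fun n => min ((2 : ℝ) ^ ((n : ℝ) + n₀ - N))
    (1 / (2 : ℝ) ^ ((n : ℝ) + n₀ - N)) with he2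
  have he1n : ∀ n, 0 ≤ e1 n := fun n => le_min (by positivity) (by positivity)
  have he2n : ∀ n, 0 ≤ e2 n := fun n => le_min (by positivity) (by positivity)
  have hind : ∀ S : Finset ℕ, HasSum (fun n : ℕ => if n ∈ S then (1 : ℝ) else 0) (S.card : ℝ) := by
    intro S
    have : HasSum (fun n : ℕ => if n ∈ S then (1 : ℝ) else 0)
        (∑ b ∈ S, (if b ∈ S then (1 : ℝ) else 0)) :=
      hasSum_sum_of_ne_finset_zero (fun b hb => if_neg hb)
    have h2 : ∑ b ∈ S, (if b ∈ S then (1 : ℝ) else 0) = S.card := by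
      rw [Finset.sum_ite_mem, Finset.inter_self, Finset.sum_const, nsmul_eq_mul, mul_one]
    rwa [h2] at this
  -- the bound by cases
  have hcase : ∀ n : ℕ, n ∉ M →
      max 1 ((2 : ℝ) ^ ((n : ℝ) + n₀ - N)) * min 1 (min (2 ^ J * 2 ^ (n + n₀) * x)
        (1 / (2 ^ (n + n₀) * x) ^ 3)) ≤
      e1 n + e2 n + (if n ∈ Sa then 1 else 0) + (if n ∈ Sb then 1 else 0) := by
    intro n hn
    rw [hv n, hu n]
    have hupos : 0 < (2 : ℝ) ^ ((n : ℝ) + n₀ - N) := by positivity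
    have i1 : (0 : ℝ) ≤ if n ∈ Sa then 1 else 0 := by split_ifs <;> norm_num
    have i2 : (0 : ℝ) ≤ if n ∈ Sb then 1 else 0 := by split_ifs <;> norm_num
    rcases lt_or_ge ((J : ℝ) + ((n : ℝ) + n₀ - N)) 0 with h1 | h1
    · have h2 : (2 : ℝ) ^ ((n : ℝ) + n₀ - N) ≤ 1 :=
        Real.rpow_le_one_of_one_le_of_nonpos (by norm_num) (by linarith)
      have h3 : (2 : ℝ) ^ ((J : ℝ) + ((n : ℝ) + n₀ - N)) ≤ 1 :=
        Real.rpow_le_one_of_one_le_of_nonpos (by norm_num) (by linarith)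
      have h4 : e1 n = (2 : ℝ) ^ ((J : ℝ) + ((n : ℝ) + n₀ - N)) := by
        rw [he1]
        refine min_eq_left ?_
        rw [le_div_iff₀ (by positivity)]
        nlinarith [show 0 < (2 : ℝ) ^ ((J : ℝ) + ((n : ℝ) + n₀ - N)) by positivity]
      rw [max_eq_left h2, one_mul]
      have h5 := (min_le_right (1 : ℝ) (min ((2 : ℝ) ^ ((J : ℝ) + ((n : ℝ) + n₀ - N)))
        (1 / ((2 : ℝ) ^ ((n : ℝ) + n₀ - N)) ^ 3))).trans (min_le_left _ _)
      have := he2n n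
      linarith
    · rcases lt_or_ge 0 ((n : ℝ) + n₀ - N) with h2 | h2
      · have h3 : 1 ≤ (2 : ℝ) ^ ((n : ℝ) + n₀ - N) :=
          Real.one_le_rpow (by norm_num) h2.le
        set u := (2 : ℝ) ^ ((n : ℝ) + n₀ - N) with hudef
        have h4 : e2 n = 1 / u := by
          rw [he2]
          refine min_eq_right ?_
          rw [← hudef, div_le_iff₀ hupos]
          nlinarith
        rw [max_eq_right h3]
        have h5 : min (1 : ℝ) (min ((2 : ℝ) ^ ((J : ℝ) + ((n : ℝ) + n₀ - N)))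
          (1 / u ^ 3)) ≤ 1 / u ^ 3 := (min_le_right _ _).trans (min_le_right _ _)
        have h6 : u * (1 / u ^ 3) ≤ 1 / u := by
          rw [mul_one_div, div_le_div_iff₀ (by positivity) hupos]
          nlinarith [mul_nonneg (sub_nonneg.mpr h3) (mul_nonneg hupos.le hupos.le)]
        have h7 := mul_le_mul_of_nonneg_left h5 hupos.le
        have := he1n n
        linarith
      · have h3 : (2 : ℝ) ^ ((n : ℝ) + n₀ - N) ≤ 1 :=
          Real.rpow_le_one_of_one_le_of_nonpos (by norm_num) h2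
        rw [max_eq_left h3, one_mul]
        have h5 := min_le_left (1 : ℝ) (min ((2 : ℝ) ^ ((J : ℝ) + ((n : ℝ) + n₀ - N)))
          (1 / ((2 : ℝ) ^ ((n : ℝ) + n₀ - N)) ^ 3))
        have k1 := he1n n
        have k2 := he2n n
        rw [hmemM, not_and_or, not_le, not_le] at hn
        rcases hn with hn | hn
        · rw [if_pos ((hmemSa n).mpr ⟨h1, hn⟩)]
          linarith
        · rw [if_pos ((hmemSb n).mpr ⟨hn, h2⟩)]
          linarith
  have hom : ∀ n : ℕ, om a n₀ n ≤ N ^ a * max 1 ((2 : ℝ) ^ ((n : ℝ) + n₀ - N)) := fun n =>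
    om_le a ha N _ hN1 (by positivity)
  have hom0 : ∀ n : ℕ, 0 ≤ om a n₀ n := fun n => by unfold om; positivity
  have hg0 : ∀ n : ℕ, 0 ≤ min 1 (min (2 ^ J * 2 ^ (n + n₀) * x)
        (1 / (2 ^ (n + n₀) * x) ^ 3)) := fun n =>
    le_min zero_le_one (le_min (by positivity) (by positivity))
  have habs : ∀ n : ℕ, |om a n₀ n * ρ n * (A n * B n)| ≤
      Γ * ρM * N ^ a * (max 1 ((2 : ℝ) ^ ((n : ℝ) + n₀ - N)) *
        min 1 (min (2 ^ J * 2 ^ (n + n₀) * x) (1 / (2 ^ (n + n₀) * x) ^ 3))) := by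
    intro n
    rw [abs_mul, abs_mul, abs_mul, abs_of_nonneg (hom0 n)]
    calc om a n₀ n * |ρ n| * (|A n| * |B n|)
        ≤ (N ^ a * max 1 ((2 : ℝ) ^ ((n : ℝ) + n₀ - N))) * ρM *
          (Γ * min 1 (min (2 ^ J * 2 ^ (n + n₀) * x) (1 / (2 ^ (n + n₀) * x) ^ 3))) := by
          refine mul_le_mul (mul_le_mul (hom n) (hρ n) (abs_nonneg _) ?_) (hAB n) (by positivity) ?_
          · positivity
          · positivity
      _ = _ := by ring
  have hM1 : ∀ n ∈ M, max 1 ((2 : ℝ) ^ ((n : ℝ) + n₀ - N)) * min 1 (min (2 ^ J * 2 ^ (n + n₀) * x)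
        (1 / (2 ^ (n + n₀) * x) ^ 3)) ≤ 1 := by
    intro n hn
    have h2 := ((hmemM n).mp hn).2
    have h3 : (2 : ℝ) ^ ((n : ℝ) + n₀ - N) ≤ 1 :=
      Real.rpow_le_one_of_one_le_of_nonpos (by norm_num) (by linarith)
    rw [max_eq_left h3, one_mul]
    exact min_le_left _ _
  set c : ℕ → ℝ := fun n => e1 n + e2 n + (if n ∈ Sa then (1 : ℝ) else 0) +
    (if n ∈ Sb then (1 : ℝ) else 0) with hc
  have hcs : HasSum c (∑' n, e1 n + ∑' n, e2 n + Sa.card + Sb.card) :=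
    ((s1.hasSum.add s2.hasSum).add (hind Sa)).add (hind Sb)
  have hc0 : ∀ n, 0 ≤ c n := by
    intro n
    have i1 : (0 : ℝ) ≤ if n ∈ Sa then 1 else 0 := by split_ifs <;> norm_num
    have i2 : (0 : ℝ) ≤ if n ∈ Sb then 1 else 0 := by split_ifs <;> norm_num
    have := he1n n
    have := he2n n
    simp only [hc]
    linarith
  have hG : 0 ≤ Γ * ρM * N ^ a := by positivity
  have hsum : Summable (fun n => om a n₀ n * ρ n * (A n * B n)) := by
    refine Summable.of_norm_bounded (g := fun n => Γ * ρM * N ^ a *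
      (c n + if n ∈ M then (1 : ℝ) else 0)) ?_ ?_
    · exact (hcs.summable.add (hind M).summable).mul_left _
    · intro n
      rw [Real.norm_eq_abs]
      refine (habs n).trans (mul_le_mul_of_nonneg_left ?_ hG)
      by_cases hn : n ∈ M
      · rw [if_pos hn]
        have := hM1 n hn
        have := hc0 n
        linarith
      · rw [if_neg hn, add_zero]
        exact hcase n hn
  have hfin : HasSum (fun n => Γ * ρM * N ^ a * c n - 3 / 16 * ρm * N ^ a *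
      (if n ∈ M then (1 : ℝ) else 0))
      (Γ * ρM * N ^ a * (∑' n, e1 n + ∑' n, e2 n + Sa.card + Sb.card) -
        3 / 16 * ρm * N ^ a * M.card) :=
    (hcs.mul_left _).sub ((hind M).mul_left _)
  have hle : (∑' n : ℕ, om a n₀ n * ρ n * (A n * B n)) ≤
      Γ * ρM * N ^ a * (∑' n, e1 n + ∑' n, e2 n + Sa.card + Sb.card) -
        3 / 16 * ρm * N ^ a * M.card := by
    rw [← hfin.tsum_eq]
    refine hsum.tsum_le_tsum ?_ hfin.summable
    intro n
    by_cases hn : n ∈ M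
    · rw [if_pos hn, mul_one]
      obtain ⟨m1, m2⟩ := (hmemM n).mp hn
      have q1 : Y ≤ 2 ^ J * 2 ^ (n + n₀) * x := by
        rw [hv n, ← Real.logb_le_iff_le_rpow (by norm_num) hY0]
        exact m1
      have q2 : 2 ^ (n + n₀) * x ≤ y₁ := by
        rw [hu n, ← Real.le_logb_iff_rpow_le (by norm_num) hy]
        exact m2
      obtain ⟨r1, r2, r3⟩ := hmain n q1 q2
      have r4 : N ^ a / 2 ≤ om a n₀ n := om_ge a ha N J _ hN0 hJ0 hN2 (by linarith)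
      have r5 : 3 / 8 ≤ -(A n * B n) := by nlinarith
      have r6 : N ^ a / 2 * ρm ≤ om a n₀ n * ρ n :=
        mul_le_mul r4 r1 hρm (hom0 n)
      have r7 : N ^ a / 2 * ρm * (3 / 8) ≤ om a n₀ n * ρ n * (-(A n * B n)) :=
        mul_le_mul r6 r5 (by norm_num) (by
          refine le_trans ?_ r6
          positivity)
      have r8 : 0 ≤ Γ * ρM * N ^ a * c n := mul_nonneg hG (hc0 n)
      nlinarith
    · rw [if_neg hn, mul_zero, sub_zero]
      exact (le_abs_self _).trans ((habs n).trans (mul_le_mul_of_nonneg_left (hcase n hn) hG))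
  refine hle.trans ?_
  rw [hWt]
  have g1 : (∑' n, e1 n + ∑' n, e2 n + Sa.card + Sb.card) ≤ 10 + (lY - ly + 2) := by
    linarith
  have g2 := mul_le_mul_of_nonneg_left g1 hG
  have g3 := mul_le_mul_of_nonneg_left hMcard (show 0 ≤ 3 / 16 * ρm * N ^ a by positivity)
  nlinarith

end H706.JU2

namespace H706

alias main_flow := JU2.main_flow

end H706
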