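import Pool.Agent.Helper706_SQG.Defs2
import Pool.Agent.Helper706_SQG.KA
import Pool.Agent.Helper706_SQG.KB
import Pool.Agent.Helper706_SQG.U1
import Pool.Agent.Helper706_SQG.U2
import Pool.Agent.Helper706_SQG.R1
import Pool.Agent.Helper706_SQG.OE

/-!
JOB FLOW (MP_96bed6_an, helper706).  The constants, and the flow of the operator near the front.

PROOF.  Take `Ca, ca` from `exists_profA`, `Cb, cb` from `exists_profB`; `Γ = Ca Cb`,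
`g = min 1 (ca cb/Γ)`, `b₀ = κ₀ = g/32`, `z₁ = 8/g`, `R = 32/g`, `c₁ = g/(2048 Γ)`, `M ∈ ℕ`, `M ≥ R/(c₁ κ₀)`,
`ρM = 4 Γ/M²`, `ρm = Γ g/M²` (so `ρM/ρm = 4/g`), `Y = 2 Ca`, `y₁ = min (κ₀/2) (1/(8Ca)) (cb/(3M))`,
`K = logb 2 (Y/y₁) + 2`, `J ∈ ℕ` with `J ≥ 3 K + 16 Γ (4/g)(10+K)`, `J ≥ 30720 Γ/g`, `J ≥ 10`,
`v₀ = ρm J/64`, `m₀ = ρm J/512`, `Z ≥ max (512 Γ/g + 1) (z₁ 2^(J+1)) 4`. `q P`, `p P`, `r P` from the
existence theorems with `P`, `J`, `m = M P`.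
Let `s` be small and `θ` as in `FlowOK`. `P = 2^(n+n₀)`, `ρ_n = P³ ip (EN n) θ`, so
`wts * ip = om * ρ_n`, and `d2 (EN n) x = aF(x₁) bF'(x₂)`, `d1 (EN n) x = aF'(x₁) bF(x₂)` (`EF_sm`).
(R) By `reading`, first part: `|ρ_n| ≤ P³ 4Γ/(P m²) = ρM`. Second part: if `κ₀/P ≥ 2s` and `z₁/P ≤ Z s`, the
region `κ₀/P ≤ x₁ ≤ z₁/P`, `|x₂| ≤ R/m ≤ c₁κ₀/P ≤ c₁ x₁` is in the plateau, so
`ρ_n ≥ M⁻² (2 ca cb - Γ(4b₀ + 4κ₀ + 2/z₁² + 8/R)) ≥ M⁻² (2 Γ g - Γ g) = ρm`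
(use `ca cb ≥ Γ g`; `4b₀+4κ₀+2/z₁²+8/R ≤ g/8+g/8+g/32+g/4 ≤ g`).
For `x` with `s ≤ x₁ ≤ 2Zs`, `|x₂| ≤ 2s + c₁x₁ ≤ 3x₁`, `x₁ ≤ 1`:
(U1) `|aF(x₁)||bF'(x₂)| ≤ Γ min(1, Qx₁, (Px₁)^{-3})`, so `|u₁| ≤ ρM Γ (J+10) Wt a x₁` by `sums_U`, and
`Wt a x₁ ≤ Wt a s` (`x₁ ≥ s`).
(U2) `|aF'(x₁)| ≤ Ca (hh(Qx₁)+hh(Px₁))/x₁`, `|bF(x₂)| ≤ Cb|x₂| ≤ 3 Cb x₁`: `|u₂| ≤ 30 Γ ρM Wt a s`.
(U3) for `x₁ ≤ 2s`: `main_flow` with `A_n = aF(x₁)`, `B_n = bF'(x₂)`. For `n` with `Y ≤ 2^J P x₁`, `P x₁ ≤ y₁`: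
`κ₀/P ≥ κ₀ x₁/y₁ ≥ 2s`; `z₁/P ≤ z₁ 2^J x₁/Y ≤ z₁ 2^(J+1) s ≤ Z s`; so `ρ_n ≥ ρm`;
`A_n ≥ 1 - Ca/Y³ - Ca y₁ ≥ 3/4`; `|x₂| ≤ 3x₁ ≤ 3y₁/P ≤ cb/(MP)` so `B_n ≤ -1/2`. Hence
`u₁ ≤ -(3/16 ρm (J-K) - ΓρM(10+K)) Wt a x₁ ≤ -(1/16) ρm J Wt a s`, as `Wt a x₁ ≥ ½ Wt a s` for
`x₁ ≤ 2s`, `s` small, and `(3/32)(J-K) - ½ Γ(4/g)(10+K) ≥ J/16`.
(F): `u₁ + v₀W x₁/s ≤ (-1/16 + 2/64) ρm J W ≤ -m₀ W`. (B): `x₁/s ≥ Z`,
`v₀ W Z - Γ(4/g)ρm(2J) W ≥ m₀ W`. (L): `c₁ Γ ρM (J+10) ≤ c₁ Γ (4/g) ρm 2J ≤ ρm J/256`,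
`30 Γ ρM = 120 Γ ρm/g ≤ ρm J/256`, `2 m₀ = ρm J/256`; the sum is `≤ v₀`.
`s` small means: `2 Z s ≤ 1`, `2a+1 ≤ -logb 2 (2Zs)`, `2Zs ≤ xb` of `main_flow`, `Wt a (2s) ≥ ½ Wt a s`.
-/

set_option autoImplicit false
open Set Filter Topology MeasureTheory
open scoped ComplexConjugate ContDiff

namespace H706.JFLOW

/-! ### helper lemmas -/

theorem aF_cont (q : ℕ → ℝ) (P J : ℕ) : Continuous (aF q P J) := by
  unfold aF
  fun_prop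

theorem aF_odd (q : ℕ → ℝ) (P J : ℕ) (x : ℝ) : aF q P J (-x) = -aF q P J x := by
  simp only [aF, mul_neg, Real.sin_neg, Finset.sum_neg_distrib]

theorem bF_cont (p r : ℕ → ℝ) (m : ℕ) : Continuous (bF p r m) := by
  unfold bF
  fun_prop

/-- the normalized reading -/
noncomputable def rho (q p r : ℕ → ℕ → ℝ) (J M n₀ : ℕ) (θ : Pt → ℝ) (n : ℕ) : ℝ :=
  ((2 : ℝ) ^ (n + n₀)) ^ 3 * ip (EN q p r J M n₀ n) θ

/-- the numerical conditions -/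
structure Num (Ca ca Cb cb c₁ b₀ v₀ m₀ Z κ₀ z₁ R ρM ρm Y y₁ : ℝ) (J M : ℕ) : Prop where
  hCa : 1 ≤ Ca
  hca : 0 < ca
  hCb : 1 ≤ Cb
  hcb : 0 < cb
  hJ : 4 ≤ J
  hM : 1 ≤ M
  c₁pos : 0 < c₁
  c₁le : c₁ ≤ 1
  b₀pos : 0 < b₀
  b₀le : b₀ ≤ 1 / 4
  v₀pos : 0 < v₀
  m₀pos : 0 < m₀
  hZ : 4 ≤ Z
  κpos : 0 < κ₀
  zpos : 0 < z₁
  hR : 1 ≤ R
  hRM : R ≤ c₁ * κ₀ * M
  ρmpos : 0 < ρm
  hρM : ρM = 4 * Ca * Cb / (M : ℝ) ^ 2
  hρm : ρm * (M : ℝ) ^ 2 ≤ 2 * ca * cb - 4 * b₀ * Ca * Cb - 4 * Ca * Cb * (κ₀ + 1 / (2 * z₁ ^ 2))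
    - 8 * Ca * Cb / R
  hY : 1 ≤ Y
  ypos : 0 < y₁
  yle : y₁ ≤ 1
  yκ : 2 * y₁ ≤ κ₀
  hCaY : Ca * (1 / Y ^ 3) ≤ 1 / 8
  hCay : Ca * y₁ ≤ 1 / 8
  ycb : 3 * y₁ * M ≤ cb
  hK : Real.logb 2 (Y / y₁) + 2 ≤ J
  hfl : ρm * J / 8 ≤ 3 / 16 * ρm * (J - (Real.logb 2 (Y / y₁) + 2)) -
          (Ca * Cb) * ρM * (10 + (Real.logb 2 (Y / y₁) + 2))
  hzZ : z₁ * 2 ^ (J + 1) ≤ Z
  hF : 2 * v₀ + m₀ ≤ ρm * J / 16
  hB : m₀ + ρM * (Ca * Cb) * (J + 10) ≤ v₀ * Z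
  hL : c₁ * (ρM * (Ca * Cb) * (J + 10)) + 30 * (Ca * Cb) * ρM + 2 * m₀ ≤ v₀

section core

variable {Ca ca Cb cb c₁ b₀ v₀ m₀ Z κ₀ z₁ R ρM ρm Y y₁ : ℝ} {J M : ℕ}
  {q p r : ℕ → ℕ → ℝ}

theorem rho_read (N : Num Ca ca Cb cb c₁ b₀ v₀ m₀ Z κ₀ z₁ R ρM ρm Y y₁ J M)
    (hA : ∀ P, 1 ≤ P → ProfA Ca ca P J (q P)) (hB : ∀ P, 1 ≤ P → ProfB Cb cb (M * P) (p P) (r P))
    (n₀ n : ℕ) {s : ℝ} (hs : 0 < s) {θ : Pt → ℝ} (hθ : Continuous θ) (hθ1 : ∀ x, |θ x| ≤ 1)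
    (hpl : ∀ x : Pt, 2 * s ≤ x.1 → x.1 ≤ Z * s → |x.2| ≤ s + c₁ * x.1 →
      1 - b₀ ≤ θ x ∧ θ (-x.1, x.2) ≤ -(1 - b₀)) :
    |rho q p r J M n₀ θ n| ≤ ρM ∧
    (2 * s ≤ κ₀ / 2 ^ (n + n₀) → z₁ / 2 ^ (n + n₀) ≤ Z * s → ρm ≤ rho q p r J M n₀ θ n) := by
  have hCa := N.hCa
  have hCb := N.hCb
  obtain ⟨P, hP⟩ : ∃ P : ℝ, P = 2 ^ (n + n₀) := ⟨_, rfl⟩
  have hP0 : 0 < P := by rw [hP]; positivity
  have hM0 : (0 : ℝ) < M := by exact_mod_cast N.hM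
  have hA' := hA (2 ^ (n + n₀)) Nat.one_le_two_pow
  have hB' := hB (2 ^ (n + n₀)) Nat.one_le_two_pow
  have hPc : (((2 ^ (n + n₀) : ℕ)) : ℝ) = P := by rw [hP]; push_cast; rfl
  have hmc : (((M * 2 ^ (n + n₀) : ℕ)) : ℝ) = M * P := by rw [hP]; push_cast; rfl
  have hrd := reading (P := P) (m := M * P) (Ca := Ca) (Cb := Cb) hP0 (by positivity)
    (by linarith) (by linarith) (aF_cont (q (2 ^ (n + n₀))) (2 ^ (n + n₀)) J)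
    (bF_cont (p (2 ^ (n + n₀))) (r (2 ^ (n + n₀))) (M * 2 ^ (n + n₀)))
    (aF_odd _ _ _) (fun x hx => (hA'.bd x hx).1)
    (fun x hx => by have := (hA'.bd x hx).2.2; rwa [hPc] at this)
    (fun y hy => by have := hB'.bd y hy; rwa [hmc] at this) hθ hθ1
  obtain ⟨h1, h2⟩ := hrd
  have hip : (∫ x in Qb, (aF (q (2 ^ (n + n₀))) (2 ^ (n + n₀)) J x.1 *
      bF (p (2 ^ (n + n₀))) (r (2 ^ (n + n₀))) (M * 2 ^ (n + n₀)) x.2) * θ x) =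
      ip (EN q p r J M n₀ n) θ := rfl
  rw [hip] at h1
  have hrho : rho q p r J M n₀ θ n = P ^ 3 * ip (EN q p r J M n₀ n) θ := by rw [hP]; rfl
  rw [hrho]
  constructor
  · rw [abs_mul, abs_of_nonneg (by positivity : 0 ≤ P ^ 3), N.hρM]
    calc P ^ 3 * |ip (EN q p r J M n₀ n) θ| ≤ P ^ 3 * (4 * Ca * Cb / (P * (M * P) ^ 2)) := by
          gcongr
      _ = _ := by field_simp
  · intro h3 h4
    rw [← hP] at h3 h4
    have h5 := h2 ca cb κ₀ z₁ b₀ R N.hca.le N.hcb.le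
      (by have := hA'.int; rwa [hPc] at this) (by have := hB'.int; rwa [hmc] at this)
      N.κpos N.zpos N.b₀pos.le (by linarith [N.b₀le]) N.hR (by
        intro x₁ x₂ hx1 hx2 _ hx4
        refine hpl (x₁, x₂) (h3.trans hx1) (hx2.trans h4) ?_
        have h6 : R / (M * P) ≤ c₁ * x₁ := by
          calc R / (M * P) ≤ c₁ * κ₀ * M / (M * P) := by
                gcongr
                exact N.hRM
            _ = c₁ * (κ₀ / P) := by field_simp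
            _ ≤ c₁ * x₁ := by
                have := N.c₁pos
                gcongr
        change |x₂| ≤ s + c₁ * x₁
        linarith)
    rw [hip] at h5
    have h6 := N.hρm
    obtain ⟨X, hX⟩ : ∃ X, X = 2 * ca * cb - 4 * b₀ * Ca * Cb -
      4 * Ca * Cb * (κ₀ + 1 / (2 * z₁ ^ 2)) - 8 * Ca * Cb / R := ⟨_, rfl⟩
    rw [← hX] at h5 h6
    calc ρm = (ρm * (M : ℝ) ^ 2) / (M : ℝ) ^ 2 := by field_simp
      _ ≤ X / (M : ℝ) ^ 2 := by gcongr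
      _ = P ^ 3 * (1 / (P * (M * P) ^ 2) * X) := by field_simp
      _ ≤ _ := by gcongr

/-- bounds for the profiles at a point near the front -/
theorem prof_bd (N : Num Ca ca Cb cb c₁ b₀ v₀ m₀ Z κ₀ z₁ R ρM ρm Y y₁ J M)
    (hA : ∀ P, 1 ≤ P → ProfA Ca ca P J (q P)) (hB : ∀ P, 1 ≤ P → ProfB Cb cb (M * P) (p P) (r P))
    (n₀ n : ℕ) {x : Pt} (hx0 : 0 < x.1) (hx1 : x.1 ≤ 1) (hx2 : |x.2| ≤ 3 * x.1) :
    |aF (q (2 ^ (n + n₀))) (2 ^ (n + n₀)) J x.1| *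
      |deriv (bF (p (2 ^ (n + n₀))) (r (2 ^ (n + n₀))) (M * 2 ^ (n + n₀))) x.2| ≤
        (Ca * Cb) * min 1 (min (2 ^ J * 2 ^ (n + n₀) * x.1) (1 / (2 ^ (n + n₀) * x.1) ^ 3)) ∧
    |deriv (aF (q (2 ^ (n + n₀))) (2 ^ (n + n₀)) J) x.1 *
      bF (p (2 ^ (n + n₀))) (r (2 ^ (n + n₀))) (M * 2 ^ (n + n₀)) x.2| ≤
        3 * (Ca * Cb) * (hh (2 ^ J * 2 ^ (n + n₀) * x.1) + hh (2 ^ (n + n₀) * x.1)) := by
  have hCa := N.hCa
  have hCb := N.hCb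
  have hpi : (3 : ℝ) < Real.pi := Real.pi_gt_three
  have hA' := hA (2 ^ (n + n₀)) Nat.one_le_two_pow
  have hB' := hB (2 ^ (n + n₀)) Nat.one_le_two_pow
  have hxI : x.1 ∈ Ioc 0 Real.pi := ⟨hx0, by linarith⟩
  have hPc : (((2 ^ (n + n₀) : ℕ)) : ℝ) = (2 : ℝ) ^ (n + n₀) := by push_cast; rfl
  have h1 := hA'.bd x.1 hxI
  have h2 := hA'.bd' x.1 hxI
  rw [hPc] at h1 h2
  constructor
  · have h3 : |aF (q (2 ^ (n + n₀))) (2 ^ (n + n₀)) J x.1| ≤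
        Ca * min 1 (min (2 ^ J * 2 ^ (n + n₀) * x.1) (1 / (2 ^ (n + n₀) * x.1) ^ 3)) := by
      rw [mul_min_of_nonneg _ _ (by linarith), mul_min_of_nonneg _ _ (by linarith), mul_one,
        mul_one_div]
      exact le_min h1.1 (le_min h1.2.1 h1.2.2)
    have h4 := hB'.bd' x.2
    calc _ ≤ (Ca * min 1 (min (2 ^ J * 2 ^ (n + n₀) * x.1) (1 / (2 ^ (n + n₀) * x.1) ^ 3))) *
          Cb := by
          gcongr
      _ = _ := by ring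
  · have h5 : |bF (p (2 ^ (n + n₀))) (r (2 ^ (n + n₀))) (M * 2 ^ (n + n₀)) x.2| ≤
        3 * Cb * x.1 := by
      have h6 : |x.2| ≤ Real.pi := by linarith
      refine (hB'.bd x.2 (abs_le.1 h6)).trans ?_
      have h7 : 1 ≤ (1 + ((M * 2 ^ (n + n₀) : ℕ) : ℝ) * |x.2|) ^ 6 := by
        refine one_le_pow₀ ?_
        have : 0 ≤ ((M * 2 ^ (n + n₀) : ℕ) : ℝ) * |x.2| := by positivity
        linarith
      calc _ ≤ Cb * |x.2| / 1 := by gcongr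
        _ ≤ Cb * (3 * x.1) := by rw [div_one]; gcongr
        _ = _ := by ring
    rw [abs_mul]
    rw [abs_mul, abs_of_pos hx0] at h2
    calc |deriv (aF (q (2 ^ (n + n₀))) (2 ^ (n + n₀)) J) x.1| *
          |bF (p (2 ^ (n + n₀))) (r (2 ^ (n + n₀))) (M * 2 ^ (n + n₀)) x.2|
        ≤ |deriv (aF (q (2 ^ (n + n₀))) (2 ^ (n + n₀)) J) x.1| * (3 * Cb * x.1) := by gcongr
      _ = 3 * Cb * (x.1 * |deriv (aF (q (2 ^ (n + n₀))) (2 ^ (n + n₀)) J) x.1|) := by ring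
      _ ≤ 3 * Cb * (Ca * (hh (2 ^ J * 2 ^ (n + n₀) * x.1) + hh (2 ^ (n + n₀) * x.1))) := by gcongr
      _ = _ := by ring

theorem om_nonneg (a : ℝ) (n₀ n : ℕ) : 0 ≤ om a n₀ n := by
  unfold om
  positivity

theorem u1_eq (a : ℝ) (n₀ : ℕ) (θ : Pt → ℝ) (x : Pt) (n : ℕ) :
    wts a n₀ n * ip (EN q p r J M n₀ n) θ * d2 (EN q p r J M n₀ n) x =
      om a n₀ n * rho q p r J M n₀ θ n * (aF (q (2 ^ (n + n₀))) (2 ^ (n + n₀)) J x.1 *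
        deriv (bF (p (2 ^ (n + n₀))) (r (2 ^ (n + n₀))) (M * 2 ^ (n + n₀))) x.2) := by
  have h := (EF_sm (q (2 ^ (n + n₀))) (p (2 ^ (n + n₀))) (r (2 ^ (n + n₀))) (2 ^ (n + n₀)) J
    (M * 2 ^ (n + n₀))).2.2.2 x
  have h' : d2 (EN q p r J M n₀ n) x = aF (q (2 ^ (n + n₀))) (2 ^ (n + n₀)) J x.1 *
        deriv (bF (p (2 ^ (n + n₀))) (r (2 ^ (n + n₀))) (M * 2 ^ (n + n₀))) x.2 := h
  rw [h']
  unfold wts rho
  ring

theorem u2_eq (a : ℝ) (n₀ : ℕ) (θ : Pt → ℝ) (x : Pt) (n : ℕ) :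
    wts a n₀ n * ip (EN q p r J M n₀ n) θ * d1 (EN q p r J M n₀ n) x =
      om a n₀ n * rho q p r J M n₀ θ n * (deriv (aF (q (2 ^ (n + n₀))) (2 ^ (n + n₀)) J) x.1 *
        bF (p (2 ^ (n + n₀))) (r (2 ^ (n + n₀))) (M * 2 ^ (n + n₀)) x.2) := by
  have h := (EF_sm (q (2 ^ (n + n₀))) (p (2 ^ (n + n₀))) (r (2 ^ (n + n₀))) (2 ^ (n + n₀)) J
    (M * 2 ^ (n + n₀))).2.2.1 x
  have h' : d1 (EN q p r J M n₀ n) x = deriv (aF (q (2 ^ (n + n₀))) (2 ^ (n + n₀)) J) x.1 *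
        bF (p (2 ^ (n + n₀))) (r (2 ^ (n + n₀))) (M * 2 ^ (n + n₀)) x.2 := h
  rw [h']
  unfold wts rho
  ring

theorem u_bd (N : Num Ca ca Cb cb c₁ b₀ v₀ m₀ Z κ₀ z₁ R ρM ρm Y y₁ J M)
    (hA : ∀ P, 1 ≤ P → ProfA Ca ca P J (q P)) (hB : ∀ P, 1 ≤ P → ProfB Cb cb (M * P) (p P) (r P))
    {a : ℝ} (ha : 0 ≤ a) (n₀ : ℕ) {θ : Pt → ℝ} (hρ : ∀ n, |rho q p r J M n₀ θ n| ≤ ρM)
    {x : Pt} (hx0 : 0 < x.1) (hx1 : x.1 ≤ 1) (hx2 : |x.2| ≤ 3 * x.1)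
    (hxa : 2 * a + 1 ≤ -Real.logb 2 x.1) :
    |∑' n, wts a n₀ n * ip (EN q p r J M n₀ n) θ * d2 (EN q p r J M n₀ n) x| ≤
      ρM * (Ca * Cb) * (J + 10) * Wt a x.1 ∧
    |∑' n, wts a n₀ n * ip (EN q p r J M n₀ n) θ * d1 (EN q p r J M n₀ n) x| ≤
      30 * (Ca * Cb) * ρM * Wt a x.1 := by
  have hCa := N.hCa
  have hCb := N.hCb
  obtain ⟨s1, s2, s3, s4⟩ := sums_U a ha J n₀ x.1 hx0 hxa
  have hρM0 : 0 ≤ ρM := (abs_nonneg _).trans (hρ 0)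
  constructor
  · have h1 : ∀ n, ‖wts a n₀ n * ip (EN q p r J M n₀ n) θ * d2 (EN q p r J M n₀ n) x‖ ≤
        (ρM * (Ca * Cb)) * (om a n₀ n *
          min 1 (min (2 ^ J * 2 ^ (n + n₀) * x.1) (1 / (2 ^ (n + n₀) * x.1) ^ 3))) := by
      intro n
      rw [u1_eq, Real.norm_eq_abs, abs_mul, abs_mul, abs_of_nonneg (om_nonneg a n₀ n), abs_mul]
      have h2 := (prof_bd N hA hB n₀ n hx0 hx1 hx2).1
      have h3 := hρ n
      have h4 := om_nonneg a n₀ n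
      calc _ ≤ om a n₀ n * ρM * ((Ca * Cb) *
            min 1 (min (2 ^ J * 2 ^ (n + n₀) * x.1) (1 / (2 ^ (n + n₀) * x.1) ^ 3))) := by
            gcongr
        _ = _ := by ring
    have h5 := tsum_of_norm_bounded (s1.mul_left (ρM * (Ca * Cb))).hasSum h1
    rw [tsum_mul_left, Real.norm_eq_abs] at h5
    refine h5.trans ?_
    calc _ ≤ ρM * (Ca * Cb) * ((J + 10) * Wt a x.1) := by gcongr
      _ = _ := by ring
  · have h1 : ∀ n, ‖wts a n₀ n * ip (EN q p r J M n₀ n) θ * d1 (EN q p r J M n₀ n) x‖ ≤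
        (ρM * (3 * (Ca * Cb))) * (om a n₀ n *
          (hh (2 ^ J * 2 ^ (n + n₀) * x.1) + hh (2 ^ (n + n₀) * x.1))) := by
      intro n
      rw [u2_eq, Real.norm_eq_abs, abs_mul, abs_mul, abs_of_nonneg (om_nonneg a n₀ n)]
      have h2 := (prof_bd N hA hB n₀ n hx0 hx1 hx2).2
      have h3 := hρ n
      have h4 := om_nonneg a n₀ n
      calc _ ≤ om a n₀ n * ρM * (3 * (Ca * Cb) *
            (hh (2 ^ J * 2 ^ (n + n₀) * x.1) + hh (2 ^ (n + n₀) * x.1))) := by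
            gcongr
        _ = _ := by ring
    have h5 := tsum_of_norm_bounded (s3.mul_left (ρM * (3 * (Ca * Cb)))).hasSum h1
    rw [tsum_mul_left, Real.norm_eq_abs] at h5
    refine h5.trans ?_
    calc _ ≤ ρM * (3 * (Ca * Cb)) * (10 * Wt a x.1) := by gcongr
      _ = _ := by ring

theorem Wt_nonneg {a x : ℝ} (hx : 0 < x) (hx1 : x ≤ 1) : 0 ≤ Wt a x := by
  unfold Wt
  refine Real.rpow_nonneg ?_ _
  have : Real.logb 2 x ≤ 0 := Real.logb_nonpos (by norm_num) hx.le hx1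
  linarith

theorem Wt_mono {a x s : ℝ} (ha : 0 ≤ a) (hs : 0 < s) (hsx : s ≤ x) (hx1 : x ≤ 1) :
    Wt a x ≤ Wt a s := by
  unfold Wt
  have hx : 0 < x := hs.trans_le hsx
  have h1 : Real.logb 2 x ≤ 0 := Real.logb_nonpos (by norm_num) hx.le hx1
  have h2 : Real.logb 2 s ≤ Real.logb 2 x := Real.logb_le_logb_of_le (by norm_num) hs hsx
  exact Real.rpow_le_rpow (by linarith) (by linarith) ha

theorem Wt_half {a s : ℝ} (ha : 0 ≤ a) (hs : 0 < s) (hsa : 2 * a + 2 ≤ -Real.logb 2 s) :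
    1 / 2 * Wt a s ≤ Wt a (2 * s) := by
  unfold Wt
  rw [Real.logb_mul (by norm_num) hs.ne', Real.logb_self_eq_one (by norm_num)]
  obtain ⟨L, hL⟩ : ∃ L, L = -Real.logb 2 s := ⟨_, rfl⟩
  rw [show -(1 + Real.logb 2 s) = L - 1 by rw [hL]; ring, ← hL]
  rw [← hL] at hsa
  have hL0 : 0 < L := by linarith
  have h1 : L - 1 = L * (1 - 1 / L) := by field_simp
  have h2 : 1 / L ≤ 1 / 2 := by
    rw [div_le_div_iff₀ hL0 two_pos]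
    linarith
  have h2' : 0 < 1 / L := by positivity
  rw [h1, Real.mul_rpow hL0.le (by linarith)]
  have h3 : 1 / 2 ≤ (1 - 1 / L) ^ a := by
    rcases le_total a 1 with h | h
    · calc 1 / 2 ≤ 1 - 1 / L := by linarith
        _ = (1 - 1 / L) ^ (1 : ℝ) := (Real.rpow_one _).symm
        _ ≤ (1 - 1 / L) ^ a :=
          Real.rpow_le_rpow_of_exponent_ge (by linarith) (by linarith) h
    · have h4 := one_add_mul_self_le_rpow_one_add (s := -(1 / L)) (by linarith) h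
      rw [← sub_eq_add_neg] at h4
      refine le_trans ?_ h4
      have h5 : a * (1 / L) ≤ 1 / 2 := by
        rw [mul_one_div, div_le_div_iff₀ hL0 two_pos]
        linarith
      linarith
  have h6 : 0 ≤ L ^ a := Real.rpow_nonneg hL0.le _
  calc 1 / 2 * L ^ a = L ^ a * (1 / 2) := by ring
    _ ≤ L ^ a * (1 - 1 / L) ^ a := by gcongr

/-- the main flow at the front -/
theorem u_front (N : Num Ca ca Cb cb c₁ b₀ v₀ m₀ Z κ₀ z₁ R ρM ρm Y y₁ J M)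
    (hA : ∀ P, 1 ≤ P → ProfA Ca ca P J (q P)) (hB : ∀ P, 1 ≤ P → ProfB Cb cb (M * P) (p P) (r P))
    {a : ℝ} (ha : 0 ≤ a) (n₀ : ℕ) : ∃ xb > 0, ∀ s : ℝ, 0 < s → 2 * s ≤ xb → s ≤ 1 / 2 →
      2 * a + 2 ≤ -Real.logb 2 s →
    ∀ θ : Pt → ℝ, (∀ n, |rho q p r J M n₀ θ n| ≤ ρM ∧
      (2 * s ≤ κ₀ / 2 ^ (n + n₀) → z₁ / 2 ^ (n + n₀) ≤ Z * s → ρm ≤ rho q p r J M n₀ θ n)) →
    ∀ x : Pt, s ≤ x.1 → x.1 ≤ 2 * s → |x.2| ≤ 3 * x.1 →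
    (∑' n, wts a n₀ n * ip (EN q p r J M n₀ n) θ * d2 (EN q p r J M n₀ n) x) ≤
      -(ρm * J / 16 * Wt a s) := by
  obtain ⟨xb, hxb, hmf⟩ := main_flow a ha J n₀ Y y₁ N.hY N.ypos N.yle N.hK
  refine ⟨xb, hxb, ?_⟩
  intro s hs hsx hs2 hsa θ hρ x hx1 hx2 hx3
  have hCa := N.hCa
  have hCb := N.hCb
  have hx0 : 0 < x.1 := hs.trans_le hx1
  have hxle : x.1 ≤ 1 := by linarith
  have hρM0 : 0 ≤ ρM := (abs_nonneg _).trans (hρ 0).1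
  have hpi : (3 : ℝ) < Real.pi := Real.pi_gt_three
  have hxI : x.1 ∈ Ioc 0 Real.pi := ⟨hx0, by linarith⟩
  have key := hmf x.1 ⟨hx0, hx2.trans hsx⟩ (Ca * Cb) ρm ρM (rho q p r J M n₀ θ)
    (fun n => aF (q (2 ^ (n + n₀))) (2 ^ (n + n₀)) J x.1)
    (fun n => deriv (bF (p (2 ^ (n + n₀))) (r (2 ^ (n + n₀))) (M * 2 ^ (n + n₀))) x.2)
    (by positivity) N.ρmpos.le hρM0 (fun n => (hρ n).1)
    (fun n => (prof_bd N hA hB n₀ n hx0 hxle hx3).1) (by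
      intro n hn1 hn2
      obtain ⟨P, hP⟩ : ∃ P : ℝ, P = 2 ^ (n + n₀) := ⟨_, rfl⟩
      have hP0 : 0 < P := by rw [hP]; positivity
      have hA' := hA (2 ^ (n + n₀)) Nat.one_le_two_pow
      have hB' := hB (2 ^ (n + n₀)) Nat.one_le_two_pow
      have hPc : (((2 ^ (n + n₀) : ℕ)) : ℝ) = P := by rw [hP]; push_cast; rfl
      have hmc : (((M * 2 ^ (n + n₀) : ℕ)) : ℝ) = M * P := by rw [hP]; push_cast; rfl
      have hy := N.ypos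
      have hκ := N.κpos
      have hz := N.zpos
      have hM0 : (0 : ℝ) < M := by exact_mod_cast N.hM
      have hρn := (hρ n).2
      rw [← hP] at hn1 hn2 hρn
      refine ⟨hρn ?_ ?_, ?_, ?_⟩
      · rw [le_div_iff₀ hP0]
        have := N.yκ
        nlinarith
      · rw [div_le_iff₀ hP0]
        have h1 := N.hzZ
        have hJ2 : (0 : ℝ) < 2 ^ J := by positivity
        have h2 : 1 ≤ 2 ^ J * P * x.1 := N.hY.trans hn1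
        have h3 : 1 ≤ 2 ^ (J + 1) * (s * P) := by
          calc (1 : ℝ) ≤ 2 ^ J * P * x.1 := h2
            _ ≤ 2 ^ J * P * (2 * s) := by gcongr
            _ = 2 ^ (J + 1) * (s * P) := by ring
        calc z₁ = z₁ * 1 := by ring
          _ ≤ z₁ * (2 ^ (J + 1) * (s * P)) := by gcongr
          _ = (z₁ * 2 ^ (J + 1)) * (s * P) := by ring
          _ ≤ Z * (s * P) := by gcongr
          _ = Z * s * P := by ring
      · have h1 := hA'.lower x.1 hxI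
        rw [hPc] at h1
        have h2 := N.hCaY
        have h3 := N.hCay
        have h4 : 1 / (2 ^ J * P * x.1) ^ 3 ≤ 1 / Y ^ 3 := by
          have := N.hY
          gcongr
        have h5 : Ca * (1 / (2 ^ J * P * x.1) ^ 3 + P * x.1) ≤ Ca * (1 / Y ^ 3 + y₁) := by
          gcongr
        change 3 / 4 ≤ aF (q (2 ^ (n + n₀))) (2 ^ (n + n₀)) J x.1
        nlinarith
      · refine hB'.lower x.2 ?_
        rw [hmc, le_div_iff₀ (by positivity)]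
        have := N.ycb
        calc |x.2| * (M * P) ≤ 3 * x.1 * (M * P) := by gcongr
          _ = 3 * (P * x.1) * M := by ring
          _ ≤ 3 * y₁ * M := by gcongr
          _ ≤ cb := this)
  have h1 : (∑' n, wts a n₀ n * ip (EN q p r J M n₀ n) θ * d2 (EN q p r J M n₀ n) x) =
      ∑' n : ℕ, om a n₀ n * rho q p r J M n₀ θ n *
        (aF (q (2 ^ (n + n₀))) (2 ^ (n + n₀)) J x.1 *
        deriv (bF (p (2 ^ (n + n₀))) (r (2 ^ (n + n₀))) (M * 2 ^ (n + n₀))) x.2) :=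
    tsum_congr fun n => u1_eq a n₀ θ x n
  rw [h1]
  refine key.trans ?_
  have h2 := N.hfl
  have h3 : 1 / 2 * Wt a s ≤ Wt a x.1 :=
    (Wt_half ha hs hsa).trans (Wt_mono ha hx0 hx2 (by linarith))
  have h4 : 0 ≤ Wt a s := Wt_nonneg hs (by linarith)
  have h5 := N.ρmpos
  obtain ⟨X, hX⟩ : ∃ X, X = 3 / 16 * ρm * (J - (Real.logb 2 (Y / y₁) + 2)) -
          (Ca * Cb) * ρM * (10 + (Real.logb 2 (Y / y₁) + 2)) := ⟨_, rfl⟩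
  rw [← hX] at h2 ⊢
  have h6 : 0 ≤ ρm * J / 8 := by positivity
  have h7 : ρm * J / 8 * (1 / 2 * Wt a s) ≤ X * Wt a x.1 :=
    mul_le_mul h2 h3 (by positivity) (h6.trans h2)
  nlinarith

theorem flow_core (N : Num Ca ca Cb cb c₁ b₀ v₀ m₀ Z κ₀ z₁ R ρM ρm Y y₁ J M)
    (hA : ∀ P, 1 ≤ P → ProfA Ca ca P J (q P)) (hB : ∀ P, 1 ≤ P → ProfB Cb cb (M * P) (p P) (r P))
    (a : ℝ) (ha : 0 ≤ a) (n₀ : ℕ) : ∃ sb > 0, ∀ s ∈ Ioc 0 sb,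
    FlowOK c₁ b₀ v₀ m₀ Z q p r J M a n₀ s := by
  obtain ⟨xb, hxb, hfr⟩ := u_front N hA hB ha n₀
  have hZ := N.hZ
  have hE : 0 < (2 : ℝ) ^ (-(2 * a + 1)) := by positivity
  refine ⟨min ((2 : ℝ) ^ (-(2 * a + 1)) / (2 * Z)) (xb / 2), by positivity, ?_⟩
  rintro s ⟨hs0, hs1⟩
  have hs2 : 2 * Z * s ≤ (2 : ℝ) ^ (-(2 * a + 1)) := by
    have := hs1.trans (min_le_left _ _)
    rw [le_div_iff₀ (by positivity)] at this
    linarith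
  have hs3 : 2 * s ≤ xb := by
    have := hs1.trans (min_le_right _ _)
    linarith
  have hE1 : (2 : ℝ) ^ (-(2 * a + 1)) ≤ 1 :=
    Real.rpow_le_one_of_one_le_of_nonpos (by norm_num) (by linarith)
  have hlog : ∀ y : ℝ, 0 < y → y ≤ 2 * Z * s → 2 * a + 1 ≤ -Real.logb 2 y := by
    intro y hy0 hy
    have h1 : Real.logb 2 y ≤ Real.logb 2 ((2 : ℝ) ^ (-(2 * a + 1))) :=
      Real.logb_le_logb_of_le (by norm_num) hy0 (hy.trans hs2)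
    rw [Real.logb_rpow (by norm_num) (by norm_num)] at h1
    linarith
  have hs4 : 8 * s ≤ 2 * Z * s := by nlinarith
  have hs5 : s ≤ 1 / 2 := by linarith
  have hs6 : 2 * a + 2 ≤ -Real.logb 2 s := by
    have := hlog (2 * s) (by linarith) (by linarith)
    rw [Real.logb_mul (by norm_num) hs0.ne', Real.logb_self_eq_one (by norm_num)] at this
    linarith
  intro θ hθ hθ1 hpl x hx1 hx2 hx3
  have hx0 : 0 < x.1 := hs0.trans_le hx1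
  have hxle : x.1 ≤ 1 := (hx2.trans hs2).trans hE1
  have hx3' : |x.2| ≤ 3 * x.1 := by
    have := N.c₁le
    nlinarith
  have hρ := fun n => rho_read N hA hB n₀ n hs0 hθ hθ1 hpl
  obtain ⟨b1, b2⟩ := u_bd N hA hB ha n₀ (fun n => (hρ n).1) hx0 hxle hx3' (hlog x.1 hx0 hx2)
  have hW0 : 0 ≤ Wt a s := Wt_nonneg hs0 (by linarith)
  have hWm : Wt a x.1 ≤ Wt a s := Wt_mono ha hs0 hx1 hxle
  have hWx : 0 ≤ Wt a x.1 := Wt_nonneg hx0 hxle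
  have hρM0 : 0 ≤ ρM := (abs_nonneg _).trans (hρ 0).1
  have hCa := N.hCa
  have hCb := N.hCb
  have b1' : |∑' n, wts a n₀ n * ip (EN q p r J M n₀ n) θ * d2 (EN q p r J M n₀ n) x| ≤
      ρM * (Ca * Cb) * (J + 10) * Wt a s := b1.trans (by gcongr)
  have b2' : |∑' n, wts a n₀ n * ip (EN q p r J M n₀ n) θ * d1 (EN q p r J M n₀ n) x| ≤
      30 * (Ca * Cb) * ρM * Wt a s := b2.trans (by gcongr)
  have hv := N.v₀pos
  have hm := N.m₀pos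
  have hc := N.c₁pos
  refine ⟨fun h => ?_, fun h => ?_, ?_⟩
  · have h1 := hfr s hs0 hs3 hs5 hs6 θ hρ x hx1 h hx3'
    have h2 : x.1 / s ≤ 2 := by rw [div_le_iff₀ hs0]; exact h
    have h3 : v₀ * Wt a s * (x.1 / s) ≤ v₀ * Wt a s * 2 := by gcongr
    have h4 := mul_le_mul_of_nonneg_right N.hF hW0
    nlinarith
  · have h2 : Z ≤ x.1 / s := by rw [le_div_iff₀ hs0]; exact h
    have h3 : v₀ * Wt a s * Z ≤ v₀ * Wt a s * (x.1 / s) := by gcongr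
    have h4 := mul_le_mul_of_nonneg_right N.hB hW0
    have h5 := (abs_le.1 b1').1
    nlinarith
  · have h4 := mul_le_mul_of_nonneg_right N.hL hW0
    have h5 := mul_le_mul_of_nonneg_left b1' hc.le
    nlinarith

end core

theorem exists_num {Ca ca Cb cb : ℝ} (hCa : 1 ≤ Ca) (hca : 0 < ca) (hCb : 1 ≤ Cb) (hcb : 0 < cb) :
    ∃ (c₁ b₀ v₀ m₀ Z κ₀ z₁ R ρM ρm Y y₁ : ℝ) (J M : ℕ),
      Num Ca ca Cb cb c₁ b₀ v₀ m₀ Z κ₀ z₁ R ρM ρm Y y₁ J M := by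
  obtain ⟨Γ, hΓ⟩ : ∃ Γ, Γ = Ca * Cb := ⟨_, rfl⟩
  have hΓ1 : 1 ≤ Γ := by rw [hΓ]; nlinarith
  have hΓ0 : 0 < Γ := by linarith
  obtain ⟨g, hg⟩ : ∃ g, g = min 1 (ca * cb / Γ) := ⟨_, rfl⟩
  have hg0 : 0 < g := by rw [hg]; positivity
  have hg1 : g ≤ 1 := by rw [hg]; exact min_le_left _ _
  have hg2 : Γ * g ≤ ca * cb := by
    have : g ≤ ca * cb / Γ := by rw [hg]; exact min_le_right _ _
    rw [le_div_iff₀ hΓ0] at this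
    linarith
  obtain ⟨κ₀, hκ⟩ : ∃ κ₀, κ₀ = g / 32 := ⟨_, rfl⟩
  have hκ0 : 0 < κ₀ := by rw [hκ]; positivity
  obtain ⟨c₁, hc⟩ : ∃ c₁, c₁ = g / (2048 * Γ) := ⟨_, rfl⟩
  have hc0 : 0 < c₁ := by rw [hc]; positivity
  obtain ⟨R, hR⟩ : ∃ R, R = 32 / g := ⟨_, rfl⟩
  obtain ⟨M, hM⟩ := exists_nat_ge (max 1 (R / (c₁ * κ₀)))
  have hM1 : (1 : ℝ) ≤ M := (le_max_left _ _).trans hM
  have hM0 : (0 : ℝ) < M := by linarith
  have hM2 : R / (c₁ * κ₀) ≤ M := (le_max_right _ _).trans hM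
  obtain ⟨ρm, hρm⟩ : ∃ ρm, ρm = Γ * g / (M : ℝ) ^ 2 := ⟨_, rfl⟩
  have hρm0 : 0 < ρm := by rw [hρm]; positivity
  obtain ⟨ρM, hρM⟩ : ∃ ρM, ρM = 4 * Γ / (M : ℝ) ^ 2 := ⟨_, rfl⟩
  have hρρ : ρM * g = 4 * ρm := by rw [hρM, hρm]; field_simp
  have hρM0 : 0 < ρM := by rw [hρM]; positivity
  obtain ⟨y₁, hy⟩ : ∃ y₁, y₁ = min (κ₀ / 2) (min (1 / (8 * Ca)) (cb / (3 * M))) := ⟨_, rfl⟩
  have hy0 : 0 < y₁ := by rw [hy]; positivity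
  have hy1 : y₁ ≤ κ₀ / 2 := by rw [hy]; exact min_le_left _ _
  have hy2 : y₁ ≤ 1 / (8 * Ca) := by
    rw [hy]; exact (min_le_right _ _).trans (min_le_left _ _)
  have hy3 : y₁ ≤ cb / (3 * M) := by
    rw [hy]; exact (min_le_right _ _).trans (min_le_right _ _)
  obtain ⟨K, hK⟩ : ∃ K, K = Real.logb 2 (2 * Ca / y₁) + 2 := ⟨_, rfl⟩
  have hy4 : y₁ ≤ 1 := by linarith
  have hK0 : 0 ≤ K := by
    have : 0 ≤ Real.logb 2 (2 * Ca / y₁) := by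
      refine Real.logb_nonneg (by norm_num) ?_
      rw [le_div_iff₀ hy0]
      linarith
    linarith
  obtain ⟨J, hJ⟩ := exists_nat_ge (max 10 (max (3 * K + 16 * Γ * (4 / g) * (10 + K))
    (30720 * Γ / g)))
  have hJ1 : (10 : ℝ) ≤ J := (le_max_left _ _).trans hJ
  have hJ2 : 3 * K + 16 * Γ * (4 / g) * (10 + K) ≤ J :=
    ((le_max_left _ _).trans (le_max_right _ _)).trans hJ
  have hJ3 : 30720 * Γ / g ≤ J := ((le_max_right _ _).trans (le_max_right _ _)).trans hJ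
  have hJ3' : 30720 * Γ ≤ J * g := by rwa [div_le_iff₀ hg0] at hJ3
  have hpp : 0 ≤ 16 * Γ * (4 / g) * (10 + K) := by positivity
  obtain ⟨z₁, hz⟩ : ∃ z₁, z₁ = 8 / g := ⟨_, rfl⟩
  have hz0 : 0 < z₁ := by rw [hz]; positivity
  obtain ⟨Z, hZ⟩ : ∃ Z, Z = max (512 * Γ / g + 1) (max (z₁ * 2 ^ (J + 1)) 4) := ⟨_, rfl⟩
  have hZ1 : 512 * Γ / g + 1 ≤ Z := by rw [hZ]; exact le_max_left _ _
  have hZ2 : z₁ * 2 ^ (J + 1) ≤ Z := by rw [hZ]; exact (le_max_left _ _).trans (le_max_right _ _)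
  have hZ3 : 4 ≤ Z := by rw [hZ]; exact (le_max_right _ _).trans (le_max_right _ _)
  have hΓρ : Γ * ρM * g = 4 * (Γ * ρm) := by rw [mul_assoc, hρρ]; ring
  have hJ0 : (0 : ℝ) < J := by linarith
  refine ⟨c₁, g / 32, ρm * J / 64, ρm * J / 512, Z, κ₀, z₁, R, ρM, ρm, 2 * Ca, y₁, J, M,
    ?_⟩
  refine ⟨hCa, hca, hCb, hcb, ?_, ?_, hc0, ?_, by positivity, by linarith, by positivity,
    by positivity, hZ3, hκ0, hz0, ?_, ?_, hρm0, ?_, ?_, by linarith, hy0, hy4, by linarith, ?_, ?_,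
    ?_, ?_, ?_, hZ2, ?_, ?_, ?_⟩
  · exact_mod_cast (by linarith : (4 : ℝ) ≤ J)
  · exact_mod_cast hM1
  · rw [hc, div_le_one (by positivity)]
    linarith
  · rw [hR, le_div_iff₀ hg0]
    linarith
  · rw [div_le_iff₀ (by positivity)] at hM2
    linarith
  · rw [hρM, hΓ]; ring
  · have e1 : ρm * (M : ℝ) ^ 2 = Γ * g := by rw [hρm]; field_simp
    have e2 : 1 / (2 * z₁ ^ 2) = g ^ 2 / 128 := by rw [hz]; field_simp; norm_num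
    have e3 : 8 * Ca * Cb / R = Γ * g / 4 := by rw [hR, hΓ]; field_simp; norm_num
    rw [e1, e2, e3, hκ]
    have e4 : 4 * (g / 32) * Ca * Cb = Γ * g / 8 := by rw [hΓ]; ring
    have e5 : 4 * Ca * Cb * (g / 32 + g ^ 2 / 128) = Γ * g / 8 + Γ * g * g / 32 := by
      rw [hΓ]; ring
    rw [e4, e5]
    have e6 : Γ * g * g ≤ Γ * g := by
      have : 0 ≤ Γ * g := by positivity
      nlinarith
    nlinarith
  · have : (2 * Ca) ^ 3 = 8 * Ca ^ 3 := by ring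
    rw [this, mul_one_div, div_le_div_iff₀ (by positivity) (by norm_num)]
    have h1 : Ca ≤ Ca ^ 3 := by
      calc Ca = Ca ^ 1 := (pow_one _).symm
        _ ≤ Ca ^ 3 := pow_le_pow_right₀ hCa (by norm_num)
    linarith
  · calc Ca * y₁ ≤ Ca * (1 / (8 * Ca)) := by gcongr
      _ = 1 / 8 := by field_simp
  · rw [le_div_iff₀ (by positivity)] at hy3
    linarith
  · rw [← hK]
    linarith
  · rw [← hK, ← hΓ]
    have h1 : (3 * K + 16 * Γ * (4 / g) * (10 + K)) * ρm ≤ J * ρm := by gcongr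
    have h2 : 16 * Γ * (4 / g) * (10 + K) * ρm = 16 * (Γ * ρM * (10 + K)) := by
      have : ρm = ρM * g / 4 := by linarith
      rw [this]
      field_simp
    nlinarith
  · nlinarith [mul_pos hρm0 hJ0]
  · rw [← hΓ]
    have h1 : ρM * Γ * (J + 10) ≤ ρM * Γ * (2 * J) := by gcongr; linarith
    have h2 : ρM * Γ * (2 * J) = 8 * Γ / g * (ρm * J) := by
      have : ρm = ρM * g / 4 := by linarith
      rw [this]
      field_simp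
      norm_num
    have h3 : ρm * J / 64 * (512 * Γ / g + 1) ≤ ρm * J / 64 * Z := by gcongr
    have h4 : ρm * J / 64 * (512 * Γ / g + 1) = 8 * Γ / g * (ρm * J) + ρm * J / 64 := by ring
    have h5 : 0 < ρm * J := by positivity
    linarith
  · rw [← hΓ]
    have h1 : c₁ * (ρM * Γ * (J + 10)) ≤ c₁ * (ρM * Γ * (2 * J)) := by gcongr; linarith
    have h2 : c₁ * (ρM * Γ * (2 * J)) = ρm * J / 256 := by
      have : ρm = ρM * g / 4 := by linarith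
      rw [this, hc]
      field_simp
      norm_num
    have h3 : 30 * Γ * ρM ≤ ρm * J / 256 := by
      have h4 : 30720 * Γ * ρM ≤ J * g * ρM := by gcongr
      have h5 : J * g * ρM = 4 * (ρm * J) := by
        calc J * g * ρM = J * (ρM * g) := by ring
          _ = _ := by rw [hρρ]; ring
      linarith
    linarith [mul_pos hρm0 hJ0]

/-- TARGET -/
theorem exists_cons : ∃ (Ca ca Cb cb c₁ b₀ v₀ m₀ Z : ℝ) (q p r : ℕ → ℕ → ℝ) (J M : ℕ),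
    Cons Ca ca Cb cb c₁ b₀ v₀ m₀ Z q p r J M := by
  obtain ⟨Ca, ca, hCa, hca, hqA⟩ := exists_profA
  obtain ⟨Cb, cb, hCb, hcb, hcb1, hqB⟩ := exists_profB
  obtain ⟨c₁, b₀, v₀, m₀, Z, κ₀, z₁, R, ρM, ρm, Y, y₁, J, M, N⟩ := exists_num hCa hca hCb hcb
  have hA : ∀ P : ℕ, ∃ q : ℕ → ℝ, 1 ≤ P → ProfA Ca ca P J q := by
    intro P
    by_cases hP : 1 ≤ P
    · obtain ⟨q, hq⟩ := hqA P J hP N.hJ
      exact ⟨q, fun _ => hq⟩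
    · exact ⟨0, fun h => absurd h hP⟩
  have hB : ∀ P : ℕ, ∃ p r : ℕ → ℝ, 1 ≤ P → ProfB Cb cb (M * P) p r := by
    intro P
    by_cases hP : 1 ≤ P
    · obtain ⟨p, r, hpr⟩ := hqB (M * P) (Nat.one_le_iff_ne_zero.2
        (Nat.mul_ne_zero (by have := N.hM; omega) (by omega)))
      exact ⟨p, r, fun _ => hpr⟩
    · exact ⟨0, 0, fun h => absurd h hP⟩
  choose q hq using hA
  choose p r hpr using hB
  exact ⟨Ca, ca, Cb, cb, c₁, b₀, v₀, m₀, Z, q, p, r, J, M, hCa, hca, hCb, hcb, N.hJ, N.hM,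
    N.c₁pos, N.c₁le, N.b₀pos, N.b₀le, N.v₀pos, N.m₀pos, N.hZ, hq, hpr,
    flow_core N hq hpr⟩

end H706.JFLOW

namespace H706

alias exists_cons := JFLOW.exists_cons

end H706
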