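import Pool.Agent.Helper706_SQG.Defs2
import Pool.Agent.Helper706_SQG.L1

/-!
JOB L7 (MP_96bed6_an, helper706).  Uniqueness.

PROOF.  Fix `T' < T`. Let `ζ = z - y`, `e(t) = ∑_k ‖ζ_k(t)‖²`. By linearity of `B` (`Adm.row`),
`rhs(z) - rhs(y) = -κ len^{2α} ζ - nl2 (B z) ζ - nl2 (B ζ) y`. On `[0,T']` everything is rapidly
decreasing uniformly (`URD`; for `B z(t)` use `Adm.bd`, `br^p ‖B z‖ ≤ √(YY p (B z))`; for `nl2` use
`nl2_bound`), so `e` is continuous on `[0,T']`, differentiable on `(0,T')` and may be differentiated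
termwise: `e' = -2κ ∑ len^{2α}‖ζ‖² - 2 Re ∑ conj(ζ) nl2 (Bz) ζ - 2 Re ∑ conj(ζ) nl2 (Bζ) y`. The second
term is `0` (`antisymm`). In the third `|cr k l| ≤ len (k-l) len l`, so by `tri_a` it is at most
`2 √(YY 1 (Bζ)) (∑ br ‖y‖) √e ≤ C √(YY β ζ) √e ≤ ε YY β ζ + C_ε e` and by `absorb`
`YY β ζ ≤ η ∑ len^{2α} ‖ζ‖² + C e`. So `e' ≤ C e`, `e(0) = 0`, hence `e = 0` on `[0,T']` (Gronwall).
-/

set_option autoImplicit false
open Set Filter Topology MeasureTheory
open scoped ComplexConjugate ContDiff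

namespace H706.JL7

theorem csol_unique_len_nonneg (k : Fr) : 0 ≤ len k := Real.sqrt_nonneg _

theorem csol_unique_one_le (k : Fr) : 1 ≤ br k := by
  unfold br
  linarith [csol_unique_len_nonneg k]

theorem csol_unique_len_le (k : Fr) : len k ≤ br k := by
  unfold br
  linarith

theorem csol_unique_cr (k l : Fr) : ‖(cr k l : ℂ)‖ ≤ br (k - l) * br l := by
  have h1 : ‖(cr k l : ℂ)‖ ≤ len (k - l) * len l := by
    rw [Complex.norm_intCast]
    unfold len
    rw [← Real.sqrt_mul (by positivity)]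
    apply Real.abs_le_sqrt
    unfold cr
    simp only [Prod.fst_sub, Prod.snd_sub]
    push_cast
    nlinarith [sq_nonneg (((k.1 : ℝ) - l.1) * l.1 + ((k.2 : ℝ) - l.2) * l.2)]
  refine h1.trans ?_
  apply mul_le_mul (csol_unique_len_le _) (csol_unique_len_le _) (csol_unique_len_nonneg _)
  linarith [csol_unique_one_le (k - l)]

theorem csol_unique_A {z : Fr → ℂ} {p C : ℝ} {N : ℕ} (hN : p ≤ N)
    (h : ∀ k, br k ^ (N + 4) * ‖z k‖ ≤ C) (k : Fr) :
    br k ^ (2 * p) * ‖z k‖ ^ 2 ≤ C ^ 2 * (br k ^ 4)⁻¹ := by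
  have h1 := csol_unique_one_le k
  have h0 : 0 < br k := by linarith
  have h2 : br k ^ (2 * p) ≤ br k ^ (2 * N) := by
    rw [← Real.rpow_natCast (br k) (2 * N)]
    apply Real.rpow_le_rpow_of_exponent_le h1
    push_cast
    linarith
  have h3 : br k ^ N * ‖z k‖ ≤ C * (br k ^ 4)⁻¹ := by
    rw [le_mul_inv_iff₀ (by positivity)]
    calc _ = br k ^ (N + 4) * ‖z k‖ := by ring
      _ ≤ C := h k
  have h4 : (br k ^ 4)⁻¹ ≤ 1 := by
    apply inv_le_one_of_one_le₀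
    exact one_le_pow₀ h1
  have h5 : 0 ≤ (br k ^ 4)⁻¹ := by positivity
  calc br k ^ (2 * p) * ‖z k‖ ^ 2 ≤ br k ^ (2 * N) * ‖z k‖ ^ 2 := by gcongr
    _ = (br k ^ N * ‖z k‖) ^ 2 := by ring
    _ ≤ (C * (br k ^ 4)⁻¹) ^ 2 := by gcongr
    _ = C ^ 2 * ((br k ^ 4)⁻¹ * (br k ^ 4)⁻¹) := by ring
    _ ≤ C ^ 2 * ((br k ^ 4)⁻¹ * 1) := by gcongr
    _ = _ := by ring

theorem csol_unique_A2 {z : Fr → ℂ} {p C : ℝ} {N : ℕ} (hN : p ≤ N)
    (h : ∀ k, br k ^ (N + 4) * ‖z k‖ ≤ C) :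
    (Summable fun k => br k ^ (2 * p) * ‖z k‖ ^ 2) ∧ YY p z ≤ C ^ 2 * ∑' k : Fr, (br k ^ 4)⁻¹ := by
  have h1 : Summable fun k : Fr => C ^ 2 * (br k ^ 4)⁻¹ := summable_br.mul_left _
  have h2 : Summable fun k => br k ^ (2 * p) * ‖z k‖ ^ 2 := by
    apply Summable.of_nonneg_of_le _ (csol_unique_A hN h) h1
    intro k
    have := csol_unique_one_le k
    positivity
  refine ⟨h2, ?_⟩
  unfold YY
  rw [← tsum_mul_left]
  exact h2.tsum_le_tsum (csol_unique_A hN h) h1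

theorem csol_unique_summable {z : Fr → ℂ} (hz : RD z) (p : ℝ) :
    Summable fun k => br k ^ (2 * p) * ‖z k‖ ^ 2 := by
  obtain ⟨C, hC⟩ := hz (⌈p⌉₊ + 4)
  exact (csol_unique_A2 (Nat.le_ceil p) hC).1

theorem csol_unique_summable_sq {z : Fr → ℂ} (hz : RD z) : Summable fun k => ‖z k‖ ^ 2 := by
  have := csol_unique_summable hz 0
  simpa using this

theorem csol_unique_summable_len {z : Fr → ℂ} (hz : RD z) {α : ℝ} (h0 : 0 < α) (hα : α ≤ 1) :
    Summable fun k => len k ^ (2 * α) * ‖z k‖ ^ 2 := by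
  apply Summable.of_nonneg_of_le _ _ (csol_unique_summable hz α)
  · intro k
    have := csol_unique_len_nonneg k
    positivity
  · intro k
    have h1 := csol_unique_len_nonneg k
    have h2 := csol_unique_len_le k
    gcongr

theorem csol_unique_RD_sub {z y : Fr → ℂ} (hz : RD z) (hy : RD y) : RD (fun k => z k - y k) := by
  intro N
  obtain ⟨C, hC⟩ := hz N
  obtain ⟨D, hD⟩ := hy N
  refine ⟨C + D, fun k => ?_⟩
  have h1 := csol_unique_one_le k
  have h0 : 0 ≤ br k ^ N := by positivity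
  calc br k ^ N * ‖z k - y k‖ ≤ br k ^ N * (‖z k‖ + ‖y k‖) := by
        gcongr
        exact norm_sub_le _ _
    _ = br k ^ N * ‖z k‖ + br k ^ N * ‖y k‖ := by ring
    _ ≤ C + D := add_le_add (hC k) (hD k)

theorem csol_unique_lin {β : ℝ} {B : (Fr → ℂ) → Fr → ℂ} (hB : Adm β B) (z y : Fr → ℂ) :
    B (fun k => z k - y k) = fun k => B z k - B y k := by
  funext k
  obtain ⟨S, b, h⟩ := hB.row k
  rw [h, h, h, ← Finset.sum_sub_distrib]
  apply Finset.sum_congr rfl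
  intros
  ring

theorem csol_unique_nl2_summable {φ z : Fr → ℂ} (hφ : RD φ) (hz : RD z) (k : Fr) :
    Summable fun l => (cr k l : ℂ) * φ (k - l) * z l := by
  obtain ⟨C, _, h⟩ := nl2_bound 0
  obtain ⟨A, hA⟩ := hφ (0 + 5)
  obtain ⟨D, hD⟩ := hz (0 + 5)
  exact (h φ z A D hA hD).1 k

theorem csol_unique_diff {β α κ : ℝ} {B : (Fr → ℂ) → Fr → ℂ} (hB : Adm β B) {z y : Fr → ℂ}
    (hz : RD z) (hy : RD y) (k : Fr) :
    rhs α κ B z k - rhs α κ B y k = -((κ * len k ^ (2 * α) : ℝ) : ℂ) * (z k - y k)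
      - nl2 (B z) (fun k => z k - y k) k - nl2 (B (fun k => z k - y k)) y k := by
  have hBz : RD (B z) := ((hB.bd 0).choose_spec z hz).1
  have hBy : RD (B y) := ((hB.bd 0).choose_spec y hy).1
  have h1 : nl2 (B z) (fun k => z k - y k) k = nl2 (B z) z k - nl2 (B z) y k := by
    unfold nl2
    rw [← (csol_unique_nl2_summable hBz hz k).tsum_sub (csol_unique_nl2_summable hBz hy k)]
    apply tsum_congr
    intro l
    ring
  have h2 : nl2 (B (fun k => z k - y k)) y k = nl2 (B z) y k - nl2 (B y) y k := by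
    rw [csol_unique_lin hB]
    unfold nl2
    rw [← (csol_unique_nl2_summable hBz hy k).tsum_sub (csol_unique_nl2_summable hBy hy k)]
    apply tsum_congr
    intro l
    ring
  rw [h1, h2]
  unfold rhs
  ring

theorem csol_unique_pair {φ z ζ : Fr → ℂ} (hφ : RD φ) (hz : RD z) (hζ : RD ζ) :
    Summable fun k => conj (ζ k) * nl2 φ z k := by
  obtain ⟨C, hC⟩ := nl2_RD hφ hz 0
  have h1 : Summable fun k => ‖ζ k‖ := by
    have := RD_summable hζ 0
    simpa using this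
  apply Summable.of_norm_bounded (h1.mul_right C)
  intro k
  rw [norm_mul, RCLike.norm_conj]
  apply mul_le_mul_of_nonneg_left _ (norm_nonneg _)
  simpa using hC k

theorem csol_unique_tri {φ z ζ : Fr → ℂ} (hφ : RD φ) (hz : RD z) (hζ : RD ζ) :
    ‖∑' k, conj (ζ k) * nl2 φ z k‖ ≤
      Real.sqrt (YY 1 φ) * (∑' k, br k * ‖z k‖) * Real.sqrt (∑' k, ‖ζ k‖ ^ 2) := by
  have sF : Summable fun k => (br k * ‖φ k‖) ^ 2 := by
    have := csol_unique_summable hφ 1
    refine this.congr fun k => ?_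
    norm_num
    ring
  have hYY : YY 1 φ = ∑' k, (br k * ‖φ k‖) ^ 2 := by
    unfold YY
    apply tsum_congr
    intro k
    norm_num
    ring
  have sG : Summable fun k => br k * ‖z k‖ := by
    have := RD_summable hz 1
    simpa using this
  have sH : Summable fun k => ‖ζ k‖ ^ 2 := csol_unique_summable_sq hζ
  have hb : ∀ k : Fr, 0 ≤ br k := fun k => by linarith [csol_unique_one_le k]
  obtain ⟨t1, t2⟩ := tri_a (F := fun k => br k * ‖φ k‖) (G := fun k => br k * ‖z k‖)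
    (H := fun k => ‖ζ k‖) (fun k => mul_nonneg (hb k) (norm_nonneg _))
    (fun k => mul_nonneg (hb k) (norm_nonneg _)) (fun k => norm_nonneg _) sF sG sH
  rw [hYY]
  refine le_trans ?_ t2
  have hs := csol_unique_pair hφ hz hζ
  refine (norm_tsum_le_tsum_norm hs.norm).trans ?_
  rw [t1.tsum_prod]
  apply hs.norm.tsum_le_tsum _ t1.prod
  intro k
  have t3 := t1.prod_factor k
  simp only at t3 ⊢
  have t4 : conj (ζ k) * nl2 φ z k = ∑' l, conj (ζ k) * ((cr k l : ℂ) * φ (k - l) * z l) := by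
    unfold nl2
    rw [tsum_mul_left]
  have t5 : ∀ l, ‖conj (ζ k) * ((cr k l : ℂ) * φ (k - l) * z l)‖ ≤
      br (k - l) * ‖φ (k - l)‖ * (br l * ‖z l‖) * ‖ζ k‖ := by
    intro l
    rw [norm_mul, norm_mul, norm_mul, RCLike.norm_conj]
    have := csol_unique_cr k l
    calc ‖ζ k‖ * (‖(cr k l : ℂ)‖ * ‖φ (k - l)‖ * ‖z l‖)
        ≤ ‖ζ k‖ * ((br (k - l) * br l) * ‖φ (k - l)‖ * ‖z l‖) := by gcongr
      _ = _ := by ring
  have t6 : Summable fun l => ‖conj (ζ k) * ((cr k l : ℂ) * φ (k - l) * z l)‖ :=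
    Summable.of_nonneg_of_le (fun _ => norm_nonneg _) t5 t3
  rw [t4]
  exact (norm_tsum_le_tsum_norm t6).trans (t6.tsum_le_tsum t5 t3)

set_option maxHeartbeats 1000000 in
/-- the energy estimate at a fixed time -/
theorem csol_unique_energy {α β κ : ℝ} (hβ : 0 < β) (hαβ : β < α) (hα : α ≤ 1) (hκ : 0 < κ)
    {B : (Fr → ℂ) → Fr → ℂ} (hB : Adm β B) (M : ℝ) : ∃ C : ℝ, ∀ z y : Fr → ℂ,
    RD z → RD y → Herm z → ∑' k, br k * ‖y k‖ ≤ M →
    ∑' k, 2 * (conj (z k - y k) * (rhs α κ B z k - rhs α κ B y k)).re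
      ≤ C * ∑' k, ‖z k - y k‖ ^ 2 := by
  obtain ⟨C1, hC1⟩ := hB.bd 0
  obtain ⟨C2, hC20, hC2⟩ := absorb (α := α) (β := β) (η := 2 * κ) hβ hαβ (by positivity)
  refine ⟨C2 + |C1| * M ^ 2, ?_⟩
  intro z y hz hy hh hM
  set ζ : Fr → ℂ := fun k => z k - y k with hζdef
  have hζ : RD ζ := csol_unique_RD_sub hz hy
  have hBz : RD (B z) := (hC1 z hz).1
  have hBζ : RD (B ζ) := (hC1 ζ hζ).1
  have hα0 : 0 < α := by linarith
  -- the sums
  have s1 := csol_unique_summable_len hζ hα0 hα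
  have s2 := csol_unique_pair hBz hζ hζ
  have s3 := csol_unique_pair hBζ hy hζ
  have s0 := csol_unique_summable_sq hζ
  have sβ := csol_unique_summable hζ β
  have s2' : Summable fun k => (conj (ζ k) * nl2 (B z) ζ k).re := Complex.reCLM.summable s2
  have s3' : Summable fun k => (conj (ζ k) * nl2 (B ζ) y k).re := Complex.reCLM.summable s3
  have hterm : ∀ k, 2 * (conj (z k - y k) * (rhs α κ B z k - rhs α κ B y k)).re =
      -(2 * κ) * (len k ^ (2 * α) * ‖ζ k‖ ^ 2) + -2 * (conj (ζ k) * nl2 (B z) ζ k).re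
        + -2 * (conj (ζ k) * nl2 (B ζ) y k).re := by
    intro k
    rw [csol_unique_diff hB hz hy k]
    have e1 : conj (z k - y k) * (-((κ * len k ^ (2 * α) : ℝ) : ℂ) * (z k - y k)
        - nl2 (B z) (fun k => z k - y k) k - nl2 (B (fun k => z k - y k)) y k)
        = (((-(κ * len k ^ (2 * α)) * ‖ζ k‖ ^ 2 : ℝ)) : ℂ) - conj (ζ k) * nl2 (B z) ζ k
          - conj (ζ k) * nl2 (B ζ) y k := by
      have e2 : conj (ζ k) * ζ k = ((‖ζ k‖ ^ 2 : ℝ) : ℂ) := by
        rw [Complex.conj_mul']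
        push_cast
        rfl
      have e3 : conj (z k - y k) * (-((κ * len k ^ (2 * α) : ℝ) : ℂ) * (z k - y k)) =
          -((κ * len k ^ (2 * α) : ℝ) : ℂ) * (conj (ζ k) * ζ k) := by
        simp only [hζdef]
        ring
      rw [mul_sub, mul_sub, e3, e2]
      push_cast
      ring
    rw [e1, Complex.sub_re, Complex.sub_re, Complex.ofReal_re]
    ring
  have hsum : ∑' k, 2 * (conj (z k - y k) * (rhs α κ B z k - rhs α κ B y k)).re =
      -(2 * κ) * (∑' k, len k ^ (2 * α) * ‖ζ k‖ ^ 2) + -2 * (∑' k, conj (ζ k) * nl2 (B z) ζ k).re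
        + -2 * (∑' k, conj (ζ k) * nl2 (B ζ) y k).re := by
    rw [tsum_congr hterm, Summable.tsum_add ((s1.mul_left _).add (s2'.mul_left _)) (s3'.mul_left _),
      Summable.tsum_add (s1.mul_left _) (s2'.mul_left _), tsum_mul_left, tsum_mul_left,
      tsum_mul_left, Complex.re_tsum s2, Complex.re_tsum s3]
  have hanti : (∑' k, conj (ζ k) * nl2 (B z) ζ k).re = 0 := antisymm hBz hζ (hB.herm z hh)
  have htri := csol_unique_tri hBζ hy hζ
  set E : ℝ := ∑' k, ‖ζ k‖ ^ 2 with hE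
  have hE0 : 0 ≤ E := tsum_nonneg fun k => by positivity
  have hYB : YY 1 (B ζ) ≤ |C1| * YY β ζ := by
    have h1 := (hC1 ζ hζ).2
    simp only [Nat.cast_zero, zero_add] at h1
    refine h1.trans ?_
    apply mul_le_mul_of_nonneg_right (le_abs_self _)
    exact tsum_nonneg fun k => by
      have := csol_unique_one_le k
      positivity
  have hYβ : YY β ζ ≤ 2 * κ * (∑' k, len k ^ (2 * α) * ‖ζ k‖ ^ 2) + C2 * E := by
    rw [hE, ← tsum_mul_left, ← tsum_mul_left, ← Summable.tsum_add (s1.mul_left _) (s0.mul_left _)]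
    unfold YY
    apply sβ.tsum_le_tsum _ ((s1.mul_left _).add (s0.mul_left _))
    intro k
    have := hC2 k
    calc br k ^ (2 * β) * ‖ζ k‖ ^ 2 ≤ (2 * κ * len k ^ (2 * α) + C2) * ‖ζ k‖ ^ 2 := by gcongr
      _ = _ := by ring
  have hYβ0 : 0 ≤ YY β ζ := tsum_nonneg fun k => by
    have := csol_unique_one_le k
    positivity
  have hM0 : 0 ≤ ∑' k, br k * ‖y k‖ := tsum_nonneg fun k => by
    have := csol_unique_one_le k
    positivity
  have h3 : -2 * (∑' k, conj (ζ k) * nl2 (B ζ) y k).re ≤ YY β ζ + |C1| * M ^ 2 * E := by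
    have a1 : -(∑' k, conj (ζ k) * nl2 (B ζ) y k).re ≤ ‖∑' k, conj (ζ k) * nl2 (B ζ) y k‖ :=
      (neg_le_abs _).trans (Complex.abs_re_le_norm _)
    have a2 : Real.sqrt (YY 1 (B ζ)) * (∑' k, br k * ‖y k‖) * Real.sqrt E
        ≤ Real.sqrt (YY β ζ) * (Real.sqrt |C1| * M * Real.sqrt E) := by
      calc _ ≤ Real.sqrt (|C1| * YY β ζ) * M * Real.sqrt E := by gcongr
        _ = _ := by
          rw [Real.sqrt_mul (abs_nonneg _)]
          ring
    have a3 : 2 * (Real.sqrt (YY β ζ) * (Real.sqrt |C1| * M * Real.sqrt E)) ≤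
        Real.sqrt (YY β ζ) ^ 2 + (Real.sqrt |C1| * M * Real.sqrt E) ^ 2 := by
      nlinarith [sq_nonneg (Real.sqrt (YY β ζ) - (Real.sqrt |C1| * M * Real.sqrt E))]
    have a4 : Real.sqrt (YY β ζ) ^ 2 = YY β ζ := Real.sq_sqrt hYβ0
    have a5 : (Real.sqrt |C1| * M * Real.sqrt E) ^ 2 = |C1| * M ^ 2 * E := by
      rw [mul_pow, mul_pow, Real.sq_sqrt (abs_nonneg _), Real.sq_sqrt hE0]
    rw [a4, a5] at a3
    linarith
  rw [hsum, hanti]
  have : (C2 + |C1| * M ^ 2) * E = C2 * E + |C1| * M ^ 2 * E := by ring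
  rw [this]
  linarith

theorem csol_unique_URD_B {β : ℝ} (hβ1 : β ≤ 1) {B : (Fr → ℂ) → Fr → ℂ} (hB : Adm β B) {I : Set ℝ}
    {z : ℝ → Fr → ℂ} (hz : URD I z) : URD I (fun t => B (z t)) := by
  intro N
  obtain ⟨C, hC⟩ := hB.bd N
  obtain ⟨D, hD⟩ := hz ((N + 1) + 4)
  refine ⟨Real.sqrt (|C| * (D ^ 2 * ∑' k : Fr, (br k ^ 4)⁻¹)), ?_⟩
  intro t ht k
  have hRD : RD (z t) := fun n => by
    obtain ⟨c, hc⟩ := hz n
    exact ⟨c, hc t ht⟩
  obtain ⟨h1, h2⟩ := hC (z t) hRD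
  have h3 := (csol_unique_A2 (z := z t) (p := N + β) (N := N + 1)
    (by push_cast; linarith) (hD t ht)).2
  have hb := csol_unique_one_le k
  have h4 : br k ^ (2 * ((N : ℝ) + 1)) * ‖B (z t) k‖ ^ 2 ≤ YY (N + 1) (B (z t)) := by
    unfold YY
    apply (csol_unique_summable h1 ((N : ℝ) + 1)).le_tsum k
    intro j _
    have := csol_unique_one_le j
    positivity
  have h5 : (br k ^ N * ‖B (z t) k‖) ^ 2 ≤ |C| * (D ^ 2 * ∑' k : Fr, (br k ^ 4)⁻¹) := by
    calc (br k ^ N * ‖B (z t) k‖) ^ 2 = br k ^ (2 * N) * ‖B (z t) k‖ ^ 2 := by ring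
      _ ≤ br k ^ (2 * ((N : ℝ) + 1)) * ‖B (z t) k‖ ^ 2 := by
          gcongr
          rw [← Real.rpow_natCast (br k) (2 * N)]
          apply Real.rpow_le_rpow_of_exponent_le hb
          push_cast
          linarith
      _ ≤ YY (N + 1) (B (z t)) := h4
      _ ≤ C * YY (N + β) (z t) := h2
      _ ≤ |C| * YY (N + β) (z t) := by
          apply mul_le_mul_of_nonneg_right (le_abs_self _)
          exact tsum_nonneg fun k => by
            have := csol_unique_one_le k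
            positivity
      _ ≤ _ := by gcongr
  exact Real.le_sqrt_of_sq_le h5

theorem csol_unique_rhs_bound {α β κ : ℝ} (hβ1 : β ≤ 1) (hα0 : 0 < α) (hα : α ≤ 1)
    {B : (Fr → ℂ) → Fr → ℂ} (hB : Adm β B) {I : Set ℝ} {z : ℝ → Fr → ℂ} (hz : URD I z) :
    ∃ C, ∀ t ∈ I, ∀ k, ‖rhs α κ B (z t) k‖ ≤ C := by
  obtain ⟨C0, hC00, hC0⟩ := nl2_bound 0
  obtain ⟨A, hA⟩ := csol_unique_URD_B hβ1 hB hz (0 + 5)
  obtain ⟨D, hD⟩ := hz (0 + 5)
  obtain ⟨G, hG⟩ := hz 2
  refine ⟨|κ| * G + C0 * A * D, ?_⟩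
  intro t ht k
  have h1 := (hC0 (B (z t)) (z t) A D (hA t ht) (hD t ht)).2 k
  simp only [pow_zero, one_mul] at h1
  have hb := csol_unique_one_le k
  have hl := csol_unique_len_nonneg k
  have hlb := csol_unique_len_le k
  have h2 : len k ^ (2 * α) ≤ br k ^ 2 := by
    calc len k ^ (2 * α) ≤ br k ^ (2 * α) := by gcongr
      _ ≤ br k ^ (2 : ℝ) := by
          apply Real.rpow_le_rpow_of_exponent_le hb
          linarith
      _ = br k ^ 2 := by norm_num
  unfold rhs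
  refine (norm_sub_le _ _).trans ?_
  apply add_le_add _ h1
  rw [norm_mul, norm_neg, Complex.norm_real, norm_mul, Real.norm_eq_abs, Real.norm_eq_abs]
  have h3 : |len k ^ (2 * α)| = len k ^ (2 * α) := abs_of_nonneg (by positivity)
  rw [h3]
  calc |κ| * len k ^ (2 * α) * ‖z t k‖ = |κ| * (len k ^ (2 * α) * ‖z t k‖) := by ring
    _ ≤ |κ| * (br k ^ 2 * ‖z t k‖) := by gcongr
    _ ≤ |κ| * G := by
        apply mul_le_mul_of_nonneg_left (hG t ht k) (abs_nonneg _)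

/-- TARGET -/
theorem csol_unique {α β κ T : ℝ} (hβ : 0 < β) (hαβ : β < α) (hα : α ≤ 1) (hκ : 0 < κ)
    {B : (Fr → ℂ) → Fr → ℂ} (hB : Adm β B) {z y : ℝ → Fr → ℂ} (hz : CSol α κ B T z)
    (hy : CSol α κ B T y) (h0 : z 0 = y 0) : ∀ t ∈ Ico 0 T, z t = y t := by
  intro t₀ ht₀
  -- choose `T'`
  set T' : ℝ := (t₀ + T) / 2 with hT'
  have hT'T : T' < T := by rw [hT']; linarith [ht₀.2]
  have ht₀T' : t₀ ≤ T' := by rw [hT']; linarith [ht₀.2]
  have hT'0 : 0 < T' := by rw [hT']; linarith [ht₀.1, ht₀.2]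
  have hzU := hz.rd T' hT'T
  have hyU := hy.rd T' hT'T
  have hα0 : 0 < α := by linarith
  have hβ1 : β ≤ 1 := by linarith
  have hzR : ∀ t ∈ Icc 0 T', RD (z t) := fun t ht n => by
    obtain ⟨c, hc⟩ := hzU n
    exact ⟨c, hc t ht⟩
  have hyR : ∀ t ∈ Icc 0 T', RD (y t) := fun t ht n => by
    obtain ⟨c, hc⟩ := hyU n
    exact ⟨c, hc t ht⟩
  -- a bound for `∑ br ‖y‖`
  obtain ⟨M0, hM0⟩ := hyU (1 + 4)
  have hM : ∀ t ∈ Icc 0 T', ∑' k, br k * ‖y t k‖ ≤ M0 * ∑' k : Fr, (br k ^ 4)⁻¹ := by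
    intro t ht
    rw [← tsum_mul_left]
    have h1 : Summable fun k => br k * ‖y t k‖ := by
      have := RD_summable (hyR t ht) 1
      simpa using this
    apply h1.tsum_le_tsum _ (summable_br.mul_left _)
    intro k
    have hb := csol_unique_one_le k
    rw [le_mul_inv_iff₀ (by positivity)]
    calc _ = br k ^ (1 + 4) * ‖y t k‖ := by ring
      _ ≤ M0 := hM0 t ht k
  obtain ⟨C, hC⟩ := csol_unique_energy hβ hαβ hα hκ hB (M0 * ∑' k : Fr, (br k ^ 4)⁻¹)
  -- bounds for the differences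
  obtain ⟨Rz, hRz⟩ := csol_unique_rhs_bound (κ := κ) hβ1 hα0 hα hB hzU
  obtain ⟨Ry, hRy⟩ := csol_unique_rhs_bound (κ := κ) hβ1 hα0 hα hB hyU
  obtain ⟨Cz, hCz⟩ := hzU 4
  obtain ⟨Cy, hCy⟩ := hyU 4
  have hζ : ∀ t ∈ Icc 0 T', ∀ k, ‖z t k - y t k‖ ≤ (Cz + Cy) * (br k ^ 4)⁻¹ := by
    intro t ht k
    have hb := csol_unique_one_le k
    rw [le_mul_inv_iff₀ (by positivity)]
    calc ‖z t k - y t k‖ * br k ^ 4 ≤ (‖z t k‖ + ‖y t k‖) * br k ^ 4 := by
          gcongr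
          exact norm_sub_le _ _
      _ = br k ^ 4 * ‖z t k‖ + br k ^ 4 * ‖y t k‖ := by ring
      _ ≤ Cz + Cy := add_le_add (hCz t ht k) (hCy t ht k)
  have h0mem : (0 : ℝ) ∈ Icc 0 T' := ⟨le_rfl, hT'0.le⟩
  have hCC : 0 ≤ Cz + Cy := by
    have h1 := hζ 0 h0mem 0
    have h2 : 0 ≤ (Cz + Cy) * (br 0 ^ 4)⁻¹ := (norm_nonneg _).trans h1
    have hb := csol_unique_one_le 0
    have h3 : 0 < (br 0 ^ 4)⁻¹ := by positivity
    exact nonneg_of_mul_nonneg_left h2 h3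
  have hinv : ∀ k : Fr, (br k ^ 4)⁻¹ ≤ 1 := fun k => by
    have hb := csol_unique_one_le k
    exact inv_le_one_of_one_le₀ (one_le_pow₀ hb)
  have hζ1 : ∀ t ∈ Icc 0 T', ∀ k, ‖z t k - y t k‖ ≤ Cz + Cy := by
    intro t ht k
    refine (hζ t ht k).trans ?_
    calc (Cz + Cy) * (br k ^ 4)⁻¹ ≤ (Cz + Cy) * 1 := by
          gcongr
          exact hinv k
      _ = _ := by ring
  -- the energy
  set e : ℝ → ℝ := fun t => ∑' k, ‖z t k - y t k‖ ^ 2 with he
  have hcont : ContinuousOn e (Icc 0 T') := by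
    apply continuousOn_tsum (u := fun k : Fr => (Cz + Cy) * ((Cz + Cy) * (br k ^ 4)⁻¹))
    · intro k
      have h1 : ContinuousOn (fun t => z t k) (Icc 0 T') :=
        (hz.cont k).mono fun t ht => ⟨ht.1, lt_of_le_of_lt ht.2 hT'T⟩
      have h2 : ContinuousOn (fun t => y t k) (Icc 0 T') :=
        (hy.cont k).mono fun t ht => ⟨ht.1, lt_of_le_of_lt ht.2 hT'T⟩
      exact ((h1.sub h2).norm).pow 2
    · exact (summable_br.mul_left _).mul_left _
    · intro k t ht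
      rw [norm_pow, norm_norm, pow_two]
      have h1 := hζ t ht k
      have h2 := hζ1 t ht k
      have h3 := hinv k
      exact mul_le_mul h2 h1 (norm_nonneg _) hCC
  have hder : ∀ t ∈ Ioo 0 T', HasDerivAt e
      (∑' k, 2 * (conj (z t k - y t k) * (rhs α κ B (z t) k - rhs α κ B (y t) k)).re) t := by
    intro t ht
    apply hasDerivAt_tsum_of_isPreconnected
      (u := fun k : Fr => 2 * (((Cz + Cy) * (br k ^ 4)⁻¹) * (Rz + Ry)))
      (((summable_br.mul_left _).mul_right _).mul_left _) isOpen_Ioo isPreconnected_Ioo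
      (g := fun k s => ‖z s k - y s k‖ ^ 2)
      (g' := fun k s => 2 * (conj (z s k - y s k) * (rhs α κ B (z s) k - rhs α κ B (y s) k)).re)
      (y₀ := t) _ _ ht _ ht
    · intro k s hs
      have hs' : s ∈ Ioo 0 T := ⟨hs.1, hs.2.trans hT'T⟩
      have h1 := ((hz.der s hs' k).sub (hy.der s hs' k)).norm_sq
      rw [Complex.inner, mul_comm (rhs α κ B (z s) k - rhs α κ B (y s) k)] at h1
      exact h1
    · intro k s hs
      have hs' : s ∈ Icc 0 T' := ⟨hs.1.le, hs.2.le⟩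
      rw [norm_mul, Real.norm_eq_abs, Real.norm_eq_abs, abs_two]
      apply mul_le_mul_of_nonneg_left _ (by norm_num)
      refine (Complex.abs_re_le_norm _).trans ?_
      rw [norm_mul, RCLike.norm_conj]
      apply mul_le_mul (hζ s hs' k) _ (norm_nonneg _) ((norm_nonneg _).trans (hζ s hs' k))
      exact (norm_sub_le _ _).trans (add_le_add (hRz s hs' k) (hRy s hs' k))
    · exact csol_unique_summable_sq (csol_unique_RD_sub (hzR t ⟨ht.1.le, ht.2.le⟩)
        (hyR t ⟨ht.1.le, ht.2.le⟩))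
  have hle : ∀ t ∈ Ioo 0 T',
      ∑' k, 2 * (conj (z t k - y t k) * (rhs α κ B (z t) k - rhs α κ B (y t) k)).re ≤ C * e t := by
    intro t ht
    have ht' : t ∈ Icc 0 T' := ⟨ht.1.le, ht.2.le⟩
    exact hC (z t) (y t) (hzR t ht') (hyR t ht') (hz.herm t ⟨ht.1.le, ht.2.trans hT'T⟩) (hM t ht')
  -- Gronwall
  have hder2 : ∀ t ∈ Ioo 0 T', HasDerivAt (fun s => e s * Real.exp (-C * s))
      ((∑' k, 2 * (conj (z t k - y t k) * (rhs α κ B (z t) k - rhs α κ B (y t) k)).re)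
        * Real.exp (-C * t) + e t * (Real.exp (-C * t) * (-C * 1))) t := by
    intro t ht
    exact (hder t ht).mul (((hasDerivAt_id t).const_mul (-C)).exp)
  have hanti : AntitoneOn (fun s => e s * Real.exp (-C * s)) (Icc 0 T') := by
    apply antitoneOn_of_deriv_nonpos (convex_Icc _ _)
    · apply hcont.mul
      exact (Real.continuous_exp.comp (continuous_const.mul continuous_id)).continuousOn
    · rw [interior_Icc]
      intro t ht
      exact (hder2 t ht).differentiableAt.differentiableWithinAt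
    · rw [interior_Icc]
      intro t ht
      rw [(hder2 t ht).deriv]
      have h1 := hle t ht
      have h2 := Real.exp_pos (-C * t)
      nlinarith
  have hmem : t₀ ∈ Icc 0 T' := ⟨ht₀.1, ht₀T'⟩
  have h1 := hanti h0mem hmem ht₀.1
  have he0 : e 0 = 0 := by
    simp only [he, h0, sub_self, norm_zero]
    simp
  simp only [he0, zero_mul] at h1
  have h2 : e t₀ ≤ 0 := by
    have h3 := Real.exp_pos (-C * t₀)
    by_contra hlt
    push Not at hlt
    have := mul_pos hlt h3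
    linarith
  have h4 : Summable fun k => ‖z t₀ k - y t₀ k‖ ^ 2 :=
    csol_unique_summable_sq (csol_unique_RD_sub (hzR t₀ hmem) (hyR t₀ hmem))
  funext k
  have h5 : ‖z t₀ k - y t₀ k‖ ^ 2 ≤ e t₀ := h4.le_tsum k fun j _ => by positivity
  have h6 : ‖z t₀ k - y t₀ k‖ ^ 2 ≤ 0 := h5.trans h2
  have h7 : ‖z t₀ k - y t₀ k‖ = 0 := by
    have := sq_nonneg ‖z t₀ k - y t₀ k‖
    have h8 : ‖z t₀ k - y t₀ k‖ ^ 2 = 0 := le_antisymm h6 this
    exact pow_eq_zero_iff (two_ne_zero) |>.1 h8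
  exact sub_eq_zero.1 (norm_eq_zero.1 h7)

end H706.JL7

namespace H706

alias csol_unique := JL7.csol_unique

end H706
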