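import Pool.Agent.Helper706_SQG.Defs2
import Pool.Agent.Helper706_SQG.L1

/-!
JOB L3 (MP_96bed6_an, helper706).  The energy estimate.

PROOF.  Let `φ = B z` (Hermitian, RD), `W k = br k^{2p}`. As in the proof of antisymmetry (exchange
`k` and `l`; `cr l k = -cr k l`, `φ(l-k) = conj φ(k-l)`; absolutely convergent double sum),
`Re ∑_k W k conj(z k) nl2 φ z k = ½ Re ∑_{k,l} (W k - W l) cr k l φ(k-l) z_l conj(z_k)`. By
`weight_ineq` this is at most `C ∑ (br m² |φ_m|) (br l^p |z_l|) (br k^p |z_k|) +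
C ∑ (br m^{p+1} |φ_m|) [(br l |z_l|)(br k^p |z_k|) + (br k |z_k|)(br l^p |z_l|)]`, `m = k - l`; by
`tri_b`, `tri_a`, `tri_c` at most `C (∑ br² |φ|) YY p z + 2 C √(YY (p+1) φ) (∑ br |z|) √(YY p z)`.
`∑ br² |φ| ≤ (∑ br^{-4})^{1/2} (∑ br^8 |φ|²)^{1/2} = C √(YY 4 φ) ≤ C √(YY (3+β) z) ≤ C √(YY 4 z)` (`bd` with
`p = 3`, `β ≤ 1`), `∑ br |z| ≤ C √(YY 3 z) ≤ C √(YY 4 z)`, `√(YY (p+1) φ) ≤ C √(YY (p+β) z)`, and
`YY p z ≤ YY (p+β) z`. So everything is `≤ C √(YY 4 z) √(YY (p+β) z) √(YY p z)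
≤ YY (p+β) z · ε + C_ε YY 4 z · YY p z`, and by `absorb` with small `η`:
`YY (p+β) z ≤ η ∑ len^{2α} br^{2p} |z|² + C YY p z`. Choose `ε η ≤ 2 κ`.
-/

set_option autoImplicit false
open Set Filter Topology MeasureTheory
open scoped ComplexConjugate ContDiff

namespace H706.JL3

namespace L3aux

theorem one_le_br (k : Fr) : 1 ≤ br k := by
  unfold br len
  have := Real.sqrt_nonneg ((k.1 : ℝ) ^ 2 + (k.2 : ℝ) ^ 2)
  linarith

theorem br_pos (k : Fr) : 0 < br k := lt_of_lt_of_le one_pos (one_le_br k)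

theorem sumYY {z : Fr → ℂ} (hz : RD z) (r : ℝ) : Summable fun k => br k ^ r * ‖z k‖ ^ 2 := by
  obtain ⟨N, hN⟩ := exists_nat_ge r
  obtain ⟨C, hC⟩ := hz 0
  refine Summable.of_nonneg_of_le (fun k => ?_) (fun k => ?_) ((RD_summable hz N).mul_left C)
  · have := br_pos k
    positivity
  · have h1 : br k ^ r ≤ br k ^ N := by
      rw [← Real.rpow_natCast]
      exact Real.rpow_le_rpow_of_exponent_le (one_le_br k) hN
    have h2 : ‖z k‖ ≤ C := by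
      have := hC k
      simpa using this
    have h3 := norm_nonneg (z k)
    have h4 : 0 < br k ^ N := pow_pos (br_pos k) N
    calc br k ^ r * ‖z k‖ ^ 2 ≤ br k ^ N * ‖z k‖ ^ 2 := by gcongr
      _ = ‖z k‖ * (br k ^ N * ‖z k‖) := by ring
      _ ≤ C * (br k ^ N * ‖z k‖) := by gcongr

theorem sq_eq (p : ℕ) (z : Fr → ℂ) (k : Fr) :
    (br k ^ p * ‖z k‖) ^ 2 = br k ^ (2 * (p : ℝ)) * ‖z k‖ ^ 2 := by
  have h : (2 * (p : ℝ)) = ((2 * p : ℕ) : ℝ) := by push_cast; ring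
  rw [h, Real.rpow_natCast, mul_pow, ← pow_mul, mul_comm p 2]

theorem YY_nat (p : ℕ) (z : Fr → ℂ) : YY p z = ∑' k, (br k ^ p * ‖z k‖) ^ 2 := by
  unfold YY
  exact tsum_congr fun k => (sq_eq p z k).symm

theorem sum_sq {z : Fr → ℂ} (hz : RD z) (p : ℕ) : Summable fun k => (br k ^ p * ‖z k‖) ^ 2 := by
  simp only [sq_eq]
  exact sumYY hz _

theorem YY_nonneg (r : ℝ) (z : Fr → ℂ) : 0 ≤ YY r z :=
  tsum_nonneg fun k => by
    have := br_pos k
    positivity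

theorem YY_mono {z : Fr → ℂ} (hz : RD z) {r s : ℝ} (h : r ≤ s) : YY r z ≤ YY s z := by
  unfold YY
  refine (sumYY hz _).tsum_le_tsum (fun k => ?_) (sumYY hz _)
  gcongr
  exact one_le_br k

theorem sum_le {z : Fr → ℂ} (hz : RD z) (N : ℕ) : ∑' k, br k ^ N * ‖z k‖ ≤
    Real.sqrt (∑' k : Fr, (br k ^ 4)⁻¹) * Real.sqrt (YY ((N + 2 : ℕ) : ℝ) z) := by
  refine (RD_summable hz N).tsum_le_of_sum_le fun s => ?_
  have h1 : ∀ k, br k ^ N * ‖z k‖ = (br k ^ 2)⁻¹ * (br k ^ (N + 2) * ‖z k‖) := by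
    intro k
    have := (br_pos k).ne'
    field_simp
    ring
  have h2 : ∀ k, ((br k ^ 2)⁻¹) ^ 2 = (br k ^ 4)⁻¹ := by
    intro k
    rw [inv_pow, ← pow_mul]
  calc ∑ k ∈ s, br k ^ N * ‖z k‖ = ∑ k ∈ s, (br k ^ 2)⁻¹ * (br k ^ (N + 2) * ‖z k‖) :=
        Finset.sum_congr rfl fun k _ => h1 k
    _ ≤ Real.sqrt (∑ k ∈ s, ((br k ^ 2)⁻¹) ^ 2) * Real.sqrt (∑ k ∈ s, (br k ^ (N + 2) * ‖z k‖) ^ 2) :=
        Real.sum_mul_le_sqrt_mul_sqrt s _ _
    _ ≤ _ := by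
        gcongr
        · simp only [h2]
          exact summable_br.sum_le_tsum s fun k _ => by
            have := br_pos k
            positivity
        · rw [YY_nat]
          exact (sum_sq hz (N + 2)).sum_le_tsum s fun k _ => by positivity

theorem abs_cr_le (k l : Fr) : |(cr k l : ℝ)| ≤ 2 * (br k * br l) := by
  have h : ∀ m : Fr, |(m.1 : ℝ)| ≤ br m ∧ |(m.2 : ℝ)| ≤ br m := by
    intro m
    unfold br len
    constructor
    · have := Real.abs_le_sqrt (x := (m.1 : ℝ)) (y := (m.1 : ℝ) ^ 2 + (m.2 : ℝ) ^ 2)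
        (by nlinarith [sq_nonneg (m.2 : ℝ)])
      linarith
    · have := Real.abs_le_sqrt (x := (m.2 : ℝ)) (y := (m.1 : ℝ) ^ 2 + (m.2 : ℝ) ^ 2)
        (by nlinarith [sq_nonneg (m.1 : ℝ)])
      linarith
  have e : (cr k l : ℝ) = k.1 * l.2 - k.2 * l.1 := by unfold cr; push_cast; ring
  rw [e]
  have h1 : |(k.1 : ℝ) * l.2| ≤ br k * br l := by
    rw [abs_mul]
    exact mul_le_mul (h k).1 (h l).2 (abs_nonneg _) (br_pos k).le
  have h2 : |(k.2 : ℝ) * l.1| ≤ br k * br l := by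
    rw [abs_mul]
    exact mul_le_mul (h k).2 (h l).1 (abs_nonneg _) (br_pos k).le
  calc |(k.1 : ℝ) * l.2 - k.2 * l.1| ≤ |(k.1 : ℝ) * l.2| + |(k.2 : ℝ) * l.1| := abs_sub _ _
    _ ≤ _ := by linarith

/-- The summand without the weight. -/
noncomputable def xx (φ z : Fr → ℂ) (q : Fr × Fr) : ℂ :=
  conj (z q.1) * ((cr q.1 q.2 : ℂ) * φ (q.1 - q.2) * z q.2)

theorem norm_xx (φ z : Fr → ℂ) (q : Fr × Fr) :
    ‖xx φ z q‖ = |(cr q.1 q.2 : ℝ)| * (‖φ (q.1 - q.2)‖ * ‖z q.2‖ * ‖z q.1‖) := by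
  unfold xx
  rw [norm_mul, norm_mul, norm_mul, RCLike.norm_conj, Complex.norm_intCast]
  ring

theorem xx_swap {φ z : Fr → ℂ} (hφ : Herm φ) (q : Fr × Fr) :
    (xx φ z q.swap).re = -(xx φ z q).re := by
  have h1 : xx φ z q = -conj (xx φ z q.swap) := by
    unfold xx
    have h2 : φ (q.1 - q.2) = conj (φ (q.2 - q.1)) := by rw [← hφ, neg_sub]
    have h3 : ((cr q.1 q.2 : ℤ) : ℂ) = -((cr q.2 q.1 : ℤ) : ℂ) := by
      unfold cr
      push_cast
      ring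
    simp only [Prod.fst_swap, Prod.snd_swap, map_mul, Complex.conj_conj, map_intCast]
    rw [h2, h3]
    ring
  rw [h1, Complex.neg_re, Complex.conj_re, neg_neg]

theorem sum_a {φ z : Fr → ℂ} (hφ : RD φ) (hz : RD z) (p : ℕ) :
    Summable fun q : Fr × Fr => ((br q.1 ^ (2 * p) : ℝ) : ℂ) * xx φ z q := by
  obtain ⟨C, hC⟩ := hφ 0
  have hC' : ∀ m, ‖φ m‖ ≤ C := fun m => by simpa using hC m
  have hC0 : 0 ≤ C := (norm_nonneg _).trans (hC' 0)
  have h1 := (RD_summable hz (2 * p + 1)).mul_of_nonneg (RD_summable hz 1)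
    (fun k => by have := br_pos k; positivity) (fun k => by have := br_pos k; positivity)
  refine Summable.of_norm_bounded (g := fun q : Fr × Fr => (2 * C) *
    ((br q.1 ^ (2 * p + 1) * ‖z q.1‖) * (br q.2 ^ 1 * ‖z q.2‖))) (h1.mul_left _) fun q => ?_
  rw [norm_mul, norm_xx, Complex.norm_real, Real.norm_of_nonneg (pow_nonneg (br_pos _).le _)]
  have h2 := abs_cr_le q.1 q.2
  have h3 := hC' (q.1 - q.2)
  have h4 := (br_pos q.1).le
  have h5 := (br_pos q.2).le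
  have h6 := norm_nonneg (z q.1)
  have h7 := norm_nonneg (z q.2)
  calc br q.1 ^ (2 * p) * (|(cr q.1 q.2 : ℝ)| * (‖φ (q.1 - q.2)‖ * ‖z q.2‖ * ‖z q.1‖))
      ≤ br q.1 ^ (2 * p) * ((2 * (br q.1 * br q.2)) * (C * ‖z q.2‖ * ‖z q.1‖)) := by
        gcongr
    _ = _ := by ring

theorem re_eq {φ z : Fr → ℂ} (hφ : RD φ) (hz : RD z) (hH : Herm φ) (p : ℕ) :
    2 * (∑' k, ((br k ^ (2 * p) : ℝ) : ℂ) * conj (z k) * nl2 φ z k).re =
      ∑' q : Fr × Fr, (br q.1 ^ (2 * p) - br q.2 ^ (2 * p)) * (xx φ z q).re := by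
  have hs := sum_a hφ hz p
  have h1 : ∑' k, ((br k ^ (2 * p) : ℝ) : ℂ) * conj (z k) * nl2 φ z k =
      ∑' q : Fr × Fr, ((br q.1 ^ (2 * p) : ℝ) : ℂ) * xx φ z q := by
    rw [hs.tsum_prod]
    refine tsum_congr fun k => ?_
    unfold nl2
    rw [← tsum_mul_left]
    refine tsum_congr fun l => ?_
    unfold xx
    ring
  have h2 : (∑' q : Fr × Fr, ((br q.1 ^ (2 * p) : ℝ) : ℂ) * xx φ z q).re =
      ∑' q : Fr × Fr, br q.1 ^ (2 * p) * (xx φ z q).re := by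
    rw [Complex.re_tsum hs]
    refine tsum_congr fun q => ?_
    rw [Complex.re_ofReal_mul]
  have hs1 : Summable fun q : Fr × Fr => br q.1 ^ (2 * p) * (xx φ z q).re := by
    have h3 := Complex.reCLM.summable hs
    refine h3.congr fun q => ?_
    simp only [Complex.reCLM_apply, Complex.re_ofReal_mul]
  have hs2 : Summable fun q : Fr × Fr => br q.2 ^ (2 * p) * (xx φ z q).re := by
    have h3 := ((Equiv.prodComm Fr Fr).summable_iff).2 hs1
    refine (h3.neg).congr fun q => ?_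
    simp only [Function.comp_apply, Equiv.prodComm_apply, Prod.fst_swap, xx_swap hH]
    ring
  have h3 : ∑' q : Fr × Fr, br q.2 ^ (2 * p) * (xx φ z q).re =
      -∑' q : Fr × Fr, br q.1 ^ (2 * p) * (xx φ z q).re := by
    rw [← (Equiv.prodComm Fr Fr).tsum_eq fun q : Fr × Fr => br q.1 ^ (2 * p) * (xx φ z q).re,
      ← tsum_neg]
    refine tsum_congr fun q => ?_
    simp only [Equiv.prodComm_apply, Prod.fst_swap, xx_swap hH]
    ring
  rw [h1, h2]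
  have h4 : (fun q : Fr × Fr => (br q.1 ^ (2 * p) - br q.2 ^ (2 * p)) * (xx φ z q).re) =
      fun q : Fr × Fr => br q.1 ^ (2 * p) * (xx φ z q).re - br q.2 ^ (2 * p) * (xx φ z q).re := by
    funext q
    ring
  rw [h4, hs1.tsum_sub hs2, h3]
  ring

theorem main_bound {φ z : Fr → ℂ} (hφ : RD φ) (hz : RD z) (hH : Herm φ) (p : ℕ) {C : ℝ}
    (hC0 : 0 ≤ C) (hC : ∀ k l : Fr,
    |br k ^ (2 * p) - br l ^ (2 * p)| * |(cr k l : ℝ)| ≤ C * (br (k - l) ^ 2 * br k ^ p * br l ^ p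
      + br (k - l) ^ (p + 1) * (br l * br k ^ p + br k * br l ^ p))) :
    2 * |(∑' k, ((br k ^ (2 * p) : ℝ) : ℂ) * conj (z k) * nl2 φ z k).re| ≤
      C * (Real.sqrt (YY p z) * (∑' k, br k ^ 2 * ‖φ k‖) * Real.sqrt (YY p z) +
        2 * (Real.sqrt (YY ((p + 1 : ℕ) : ℝ) φ) * (∑' k, br k ^ 1 * ‖z k‖) *
          Real.sqrt (YY p z))) := by
  have hn : ∀ (N : ℕ) (u : Fr → ℂ) (k : Fr), 0 ≤ br k ^ N * ‖u k‖ := fun N u k => by
    have := br_pos k
    positivity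
  obtain ⟨sb, hb⟩ := tri_b (hn p z) (hn 2 φ) (hn p z) (sum_sq hz p) (RD_summable hφ 2)
    (sum_sq hz p)
  obtain ⟨sa, ha⟩ := tri_a (hn (p + 1) φ) (hn 1 z) (hn p z) (sum_sq hφ (p + 1)) (RD_summable hz 1)
    (sum_sq hz p)
  obtain ⟨sc, hc⟩ := tri_c (hn (p + 1) φ) (hn 1 z) (hn p z) (sum_sq hφ (p + 1)) (RD_summable hz 1)
    (sum_sq hz p)
  rw [← YY_nat, ← YY_nat] at ha hc
  rw [← YY_nat] at hb
  have e : 2 * |(∑' k, ((br k ^ (2 * p) : ℝ) : ℂ) * conj (z k) * nl2 φ z k).re| =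
      ‖∑' q : Fr × Fr, (br q.1 ^ (2 * p) - br q.2 ^ (2 * p)) * (xx φ z q).re‖ := by
    rw [← re_eq hφ hz hH p, Real.norm_eq_abs, abs_mul, abs_of_pos (by norm_num : (0 : ℝ) < 2)]
  rw [e]
  have hsum := (((sb.add sa).add sc).mul_left C).hasSum
  refine (tsum_of_norm_bounded hsum fun q => ?_).trans ?_
  · rw [norm_mul, Real.norm_eq_abs, Real.norm_eq_abs]
    have h1 : |(xx φ z q).re| ≤ ‖xx φ z q‖ := Complex.abs_re_le_norm _
    rw [norm_xx] at h1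
    have h2 := hC q.1 q.2
    have h3 : 0 ≤ ‖φ (q.1 - q.2)‖ * ‖z q.2‖ * ‖z q.1‖ := by positivity
    calc |br q.1 ^ (2 * p) - br q.2 ^ (2 * p)| * |(xx φ z q).re|
        ≤ |br q.1 ^ (2 * p) - br q.2 ^ (2 * p)| *
          (|(cr q.1 q.2 : ℝ)| * (‖φ (q.1 - q.2)‖ * ‖z q.2‖ * ‖z q.1‖)) := by gcongr
      _ = (|br q.1 ^ (2 * p) - br q.2 ^ (2 * p)| * |(cr q.1 q.2 : ℝ)|) *
          (‖φ (q.1 - q.2)‖ * ‖z q.2‖ * ‖z q.1‖) := by ring
      _ ≤ (C * (br (q.1 - q.2) ^ 2 * br q.1 ^ p * br q.2 ^ p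
          + br (q.1 - q.2) ^ (p + 1) * (br q.2 * br q.1 ^ p + br q.1 * br q.2 ^ p))) *
          (‖φ (q.1 - q.2)‖ * ‖z q.2‖ * ‖z q.1‖) := by gcongr
      _ = _ := by ring
  · rw [tsum_mul_left, (sb.add sa).tsum_add sc, sb.tsum_add sa]
    refine mul_le_mul_of_nonneg_left ?_ hC0
    linarith

end L3aux

/-- TARGET -/
theorem energy_est {α β κ : ℝ} (hβ : 0 < β) (hαβ : β < α) (hα : α ≤ 1) (hκ : 0 < κ)
    {B : (Fr → ℂ) → Fr → ℂ} (hB : Adm β B) (p : ℕ) (hp : 1 ≤ p) : ∃ C : ℝ, 0 ≤ C ∧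
    ∀ z : Fr → ℂ, RD z → Herm z →
      2 * |(∑' k, ((br k ^ (2 * p) : ℝ) : ℂ) * conj (z k) * nl2 (B z) z k).re| ≤
        2 * κ * (∑' k, len k ^ (2 * α) * br k ^ (2 * p) * ‖z k‖ ^ 2)
          + C * (1 + YY 4 z) * YY p z := by
  obtain ⟨C1, hC1, hw⟩ := weight_ineq p hp
  obtain ⟨C2, hC2⟩ := hB.bd p
  obtain ⟨C3, hC3⟩ := hB.bd 3
  obtain ⟨C4, hC4, hab⟩ := absorb hβ hαβ (mul_pos two_pos hκ)
  set S := Real.sqrt (∑' k : Fr, (br k ^ 4)⁻¹) with hS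
  have hS0 : 0 ≤ S := Real.sqrt_nonneg _
  set K := C1 * (S * Real.sqrt |C3| + 2 * (Real.sqrt |C2| * S)) with hK
  have hK0 : 0 ≤ K := by positivity
  refine ⟨C4 + K ^ 2 / 4, by positivity, fun z hz hzH => ?_⟩
  have hφ : RD (B z) := (hC2 z hz).1
  have hφH : Herm (B z) := hB.herm z hzH
  have h1 := L3aux.main_bound hφ hz hφH p hC1 hw
  set a := Real.sqrt (YY 4 z) with ha
  set b := Real.sqrt (YY p z) with hb
  set c := Real.sqrt (YY (p + β) z) with hc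
  have ha0 : 0 ≤ a := Real.sqrt_nonneg _
  have hb0 : 0 ≤ b := Real.sqrt_nonneg _
  have hc0 : 0 ≤ c := Real.sqrt_nonneg _
  have hbc : b ≤ c := Real.sqrt_le_sqrt (L3aux.YY_mono hz (by linarith))
  have hA2 : a ^ 2 = YY 4 z := Real.sq_sqrt (L3aux.YY_nonneg _ _)
  have hB2 : b ^ 2 = YY p z := Real.sq_sqrt (L3aux.YY_nonneg _ _)
  have hC2' : c ^ 2 = YY (p + β) z := Real.sq_sqrt (L3aux.YY_nonneg _ _)
  -- the three factors
  have h2 : ∑' k, br k ^ 2 * ‖B z k‖ ≤ S * (Real.sqrt |C3| * a) := by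
    refine (L3aux.sum_le hφ 2).trans ?_
    refine mul_le_mul_of_nonneg_left ?_ hS0
    rw [ha, ← Real.sqrt_mul (abs_nonneg _)]
    refine Real.sqrt_le_sqrt ?_
    have h3 := (hC3 z hz).2
    have e : (((2 + 2 : ℕ) : ℝ)) = ((3 : ℕ) : ℝ) + 1 := by norm_num
    rw [e]
    have h4 : YY (((3 : ℕ) : ℝ) + β) z ≤ YY 4 z :=
      L3aux.YY_mono hz (by push_cast; linarith)
    calc YY (((3 : ℕ) : ℝ) + 1) (B z) ≤ C3 * YY (((3 : ℕ) : ℝ) + β) z := h3
      _ ≤ |C3| * YY (((3 : ℕ) : ℝ) + β) z :=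
        mul_le_mul_of_nonneg_right (le_abs_self _) (L3aux.YY_nonneg _ _)
      _ ≤ |C3| * YY 4 z := mul_le_mul_of_nonneg_left h4 (abs_nonneg _)
  have h3 : ∑' k, br k ^ 1 * ‖z k‖ ≤ S * a := by
    refine (L3aux.sum_le hz 1).trans ?_
    refine mul_le_mul_of_nonneg_left ?_ hS0
    exact Real.sqrt_le_sqrt (L3aux.YY_mono hz (by norm_num))
  have h4 : Real.sqrt (YY ((p + 1 : ℕ) : ℝ) (B z)) ≤ Real.sqrt |C2| * c := by
    rw [hc, ← Real.sqrt_mul (abs_nonneg _)]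
    refine Real.sqrt_le_sqrt ?_
    have h5 := (hC2 z hz).2
    push_cast
    exact h5.trans (mul_le_mul_of_nonneg_right (le_abs_self _) (L3aux.YY_nonneg _ _))
  have h5 : 2 * |(∑' k, ((br k ^ (2 * p) : ℝ) : ℂ) * conj (z k) * nl2 (B z) z k).re| ≤
      K * (a * b * c) := by
    refine h1.trans ?_
    rw [hK, mul_assoc C1]
    refine mul_le_mul_of_nonneg_left ?_ hC1
    have h6 : b * (∑' k, br k ^ 2 * ‖B z k‖) * b ≤ (S * Real.sqrt |C3|) * (a * b * c) := by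
      calc b * (∑' k, br k ^ 2 * ‖B z k‖) * b ≤ b * (S * (Real.sqrt |C3| * a)) * c := by
            gcongr
        _ = _ := by ring
    have h70 : 0 ≤ ∑' k, br k ^ 1 * ‖z k‖ := tsum_nonneg fun k => by
      have := L3aux.br_pos k
      positivity
    have h7 : Real.sqrt (YY ((p + 1 : ℕ) : ℝ) (B z)) * (∑' k, br k ^ 1 * ‖z k‖) * b ≤
        (Real.sqrt |C2| * S) * (a * b * c) := by
      calc Real.sqrt (YY ((p + 1 : ℕ) : ℝ) (B z)) * (∑' k, br k ^ 1 * ‖z k‖) * b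
          ≤ (Real.sqrt |C2| * c) * (S * a) * b := by gcongr
        _ = _ := by ring
    linarith
  -- absorption
  have h6 : YY (p + β) z ≤ 2 * κ * (∑' k, len k ^ (2 * α) * br k ^ (2 * p) * ‖z k‖ ^ 2) +
      C4 * YY p z := by
    have hα0 : 0 < α := hβ.trans hαβ
    have hlb : ∀ k : Fr, 0 ≤ len k := fun k => Real.sqrt_nonneg _
    have s1 : Summable fun k : Fr => len k ^ (2 * α) * br k ^ (2 * p) * ‖z k‖ ^ 2 := by
      refine Summable.of_nonneg_of_le (fun k => ?_) (fun k => ?_)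
        (L3aux.sumYY hz (2 * α + 2 * p))
      · have := L3aux.br_pos k
        have := hlb k
        positivity
      · have h7 : len k ^ (2 * α) ≤ br k ^ (2 * α) := by
          refine Real.rpow_le_rpow (hlb k) ?_ (by positivity)
          unfold br
          linarith
        have e : br k ^ (2 * α + 2 * p) = br k ^ (2 * α) * br k ^ (2 * p) := by
          rw [Real.rpow_add (L3aux.br_pos k)]
          congr 1
          rw [← Real.rpow_natCast]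
          push_cast
          rfl
        rw [e]
        have := L3aux.br_pos k
        gcongr
    have s2 := L3aux.sumYY hz (2 * (p : ℝ))
    unfold YY
    rw [← tsum_mul_left, ← tsum_mul_left, ← (s1.mul_left _).tsum_add (s2.mul_left _)]
    refine (L3aux.sumYY hz _).tsum_le_tsum (fun k => ?_) ((s1.mul_left _).add (s2.mul_left _))
    have e : br k ^ (2 * ((p : ℝ) + β)) = br k ^ (2 * β) * br k ^ (2 * p) := by
      rw [mul_add, add_comm, Real.rpow_add (L3aux.br_pos k)]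
      congr 1
      rw [← Real.rpow_natCast]
      push_cast
      rfl
    have e' : br k ^ (2 * (p : ℝ)) = br k ^ (2 * p) := by
      rw [← Real.rpow_natCast]
      push_cast
      rfl
    rw [e, e']
    have h7 := hab k
    have h8 : 0 ≤ br k ^ (2 * p) * ‖z k‖ ^ 2 := by
      have := L3aux.br_pos k
      positivity
    calc br k ^ (2 * β) * br k ^ (2 * p) * ‖z k‖ ^ 2 =
          br k ^ (2 * β) * (br k ^ (2 * p) * ‖z k‖ ^ 2) := by ring
      _ ≤ (2 * κ * len k ^ (2 * α) + C4) * (br k ^ (2 * p) * ‖z k‖ ^ 2) := by gcongr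
      _ = _ := by ring
  have h7 : K * (a * b * c) ≤ c ^ 2 + K ^ 2 / 4 * (a ^ 2 * b ^ 2) := by
    nlinarith [sq_nonneg (c - K / 2 * (a * b))]
  have hY4 := L3aux.YY_nonneg 4 z
  have hYp := L3aux.YY_nonneg (p : ℝ) z
  rw [hA2, hB2, hC2'] at h7
  have h8 : (C4 + K ^ 2 / 4) * (1 + YY 4 z) * YY p z = C4 * YY p z + K ^ 2 / 4 * (YY 4 z * YY p z) +
      (C4 * (YY 4 z * YY p z) + K ^ 2 / 4 * YY p z) := by ring
  have h9 : 0 ≤ C4 * (YY 4 z * YY p z) + K ^ 2 / 4 * YY p z := by positivity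
  linarith

end H706.JL3

namespace H706

alias energy_est := JL3.energy_est

end H706
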