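import Pool.Agent.Helper706_SQG.Defs2
import Pool.Agent.Helper706_SQG.L3

/-!
JOB L5 (MP_96bed6_an, helper706).  Uniform bounds for the Galerkin solutions.

PROOF.  Finitely supported families are RD and `YY p` is a finite sum. For a Galerkin solution
`y_p(t) = YY p (z t) = ∑_{k∈S} br k^{2p} ‖z_k‖²` has derivative
`-2 ∑ κ len^{2α} br^{2p} ‖z_k‖² - 2 Re ∑ br^{2p} conj(z_k) nl2 (B z) z k ≤ C_p (1 + y_4) y_p` by the given
`energy_est` (`z_k = 0` off `S`). With `p = 4`: `y_4' ≤ C_4 (1+y_4)²`, so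
`1/(1+y_4(t)) ≥ 1/(1+y_4(0)) - C_4 t`; with `T₀ = 1/(2 (C_4+1) (1 + YY 4 z₀))`, `y_4 ≤ 1 + 2 YY 4 z₀` on
`[0,T₀]` (`y_4(0) ≤ YY 4 z₀`). Then `y_p' ≤ C_p (2 + 2 YY 4 z₀) y_p` and Gronwall.
-/

set_option autoImplicit false
open Set Filter Topology MeasureTheory
open scoped ComplexConjugate ContDiff

namespace H706.JL5

theorem gal_bounds_one_le_br (k : Fr) : 1 ≤ br k := by
  unfold br len
  have := Real.sqrt_nonneg ((k.1 : ℝ) ^ 2 + (k.2 : ℝ) ^ 2)
  linarith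

theorem gal_bounds_br_pos (k : Fr) : 0 < br k := lt_of_lt_of_le one_pos (gal_bounds_one_le_br k)

theorem gal_bounds_YY (S : Finset Fr) (z : Fr → ℂ) (hz : ∀ k ∉ S, z k = 0) (p : ℕ) :
    YY p z = ∑ k ∈ S, br k ^ (2 * p) * ‖z k‖ ^ 2 := by
  unfold YY
  rw [tsum_eq_sum (s := S)]
  · refine Finset.sum_congr rfl fun k _ => ?_
    have : (2 * (p : ℝ)) = ((2 * p : ℕ) : ℝ) := by push_cast; ring
    rw [this, Real.rpow_natCast]
  · intro k hk
    rw [hz k hk]; simp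

theorem gal_bounds_RD (S : Finset Fr) (z : Fr → ℂ) (hz : ∀ k ∉ S, z k = 0) : RD z := by
  intro N
  refine ⟨∑ k ∈ S, br k ^ N * ‖z k‖, fun k => ?_⟩
  have hnn : ∀ j, 0 ≤ br j ^ N * ‖z j‖ := fun j =>
    mul_nonneg (pow_nonneg (gal_bounds_br_pos j).le _) (norm_nonneg _)
  by_cases hk : k ∈ S
  · exact Finset.single_le_sum (f := fun j => br j ^ N * ‖z j‖) (fun j _ => hnn j) hk
  · rw [hz k hk]
    simp only [norm_zero, mul_zero]
    exact Finset.sum_nonneg fun j _ => hnn j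

/-- summability of the weights -/
theorem gal_bounds_sum_br : Summable (fun k : Fr => (br k ^ 4)⁻¹) := by
  have h1 : Summable (fun n : ℤ => ((1 + |(n : ℝ)|) ^ 2)⁻¹) := by
    have h2 : Summable (fun n : ℕ => ((1 + |((n : ℤ) : ℝ)|) ^ 2)⁻¹) := by
      have h3 : Summable (fun n : ℕ => (((n + 1 : ℕ) : ℝ) ^ 2)⁻¹) :=
        (summable_nat_add_iff 1).mpr (Real.summable_nat_pow_inv.mpr (by norm_num))
      refine h3.congr fun n => ?_
      rw [Int.cast_natCast, abs_of_nonneg (Nat.cast_nonneg n)]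
      push_cast
      rw [add_comm]
    refine Summable.of_nat_of_neg h2 ?_
    refine h2.congr fun n => ?_
    simp
  have h4 := h1.mul_of_nonneg h1 (fun n => by positivity) (fun n => by positivity)
  refine Summable.of_nonneg_of_le (fun k => inv_nonneg.mpr (pow_nonneg (gal_bounds_br_pos k).le _))
    (fun k => ?_) h4
  show (br k ^ 4)⁻¹ ≤ ((1 + |(k.1 : ℝ)|) ^ 2)⁻¹ * ((1 + |(k.2 : ℝ)|) ^ 2)⁻¹
  rw [← mul_inv]
  apply inv_anti₀ (by positivity)
  have ha : 1 + |(k.1 : ℝ)| ≤ br k := by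
    unfold br len
    have : |(k.1 : ℝ)| ≤ Real.sqrt ((k.1 : ℝ) ^ 2 + (k.2 : ℝ) ^ 2) := by
      apply Real.abs_le_sqrt
      nlinarith [sq_nonneg (k.2 : ℝ)]
    linarith
  have hb : 1 + |(k.2 : ℝ)| ≤ br k := by
    unfold br len
    have : |(k.2 : ℝ)| ≤ Real.sqrt ((k.1 : ℝ) ^ 2 + (k.2 : ℝ) ^ 2) := by
      apply Real.abs_le_sqrt
      nlinarith [sq_nonneg (k.1 : ℝ)]
    linarith
  calc (1 + |(k.1 : ℝ)|) ^ 2 * (1 + |(k.2 : ℝ)|) ^ 2 ≤ br k ^ 2 * br k ^ 2 := by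
        apply mul_le_mul (pow_le_pow_left₀ (by positivity) ha 2)
          (pow_le_pow_left₀ (by positivity) hb 2) (by positivity)
          (pow_nonneg (gal_bounds_br_pos k).le _)
    _ = br k ^ 4 := by ring

/-- bounds of the initial data -/
theorem gal_bounds_init {z₀ : Fr → ℂ} (hz₀ : RD z₀) (p : ℕ) :
    ∃ W : ℝ, 0 ≤ W ∧ ∀ S : Finset Fr, ∑ k ∈ S, br k ^ (2 * p) * ‖z₀ k‖ ^ 2 ≤ W := by
  obtain ⟨C, hC⟩ := hz₀ (p + 2)
  refine ⟨C ^ 2 * ∑' k : Fr, (br k ^ 4)⁻¹, ?_, fun S => ?_⟩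
  · apply mul_nonneg (sq_nonneg C)
    exact tsum_nonneg fun k => inv_nonneg.mpr (pow_nonneg (gal_bounds_br_pos k).le _)
  · calc ∑ k ∈ S, br k ^ (2 * p) * ‖z₀ k‖ ^ 2 ≤ ∑ k ∈ S, C ^ 2 * (br k ^ 4)⁻¹ := by
          apply Finset.sum_le_sum
          intro k _
          have hb := gal_bounds_br_pos k
          rw [← div_eq_mul_inv, le_div_iff₀ (pow_pos hb 4)]
          have h1 : br k ^ (2 * p) * ‖z₀ k‖ ^ 2 * br k ^ 4 = (br k ^ (p + 2) * ‖z₀ k‖) ^ 2 := by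
            rw [mul_pow, ← pow_mul, add_mul, pow_add]; ring
          rw [h1]
          have h2 : 0 ≤ br k ^ (p + 2) * ‖z₀ k‖ :=
            mul_nonneg (pow_nonneg hb.le _) (norm_nonneg _)
          exact pow_le_pow_left₀ h2 (hC k) 2
      _ = C ^ 2 * ∑ k ∈ S, (br k ^ 4)⁻¹ := by rw [Finset.mul_sum]
      _ ≤ C ^ 2 * ∑' k : Fr, (br k ^ 4)⁻¹ := by
          apply mul_le_mul_of_nonneg_left _ (sq_nonneg C)
          exact gal_bounds_sum_br.sum_le_tsum S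
            (fun k _ => inv_nonneg.mpr (pow_nonneg (gal_bounds_br_pos k).le _))

theorem gal_bounds_mono {f f' : ℝ → ℝ} {T : ℝ}
    (h : ∀ t ∈ Icc 0 T, HasDerivWithinAt f (f' t) (Icc 0 T) t) (h' : ∀ t ∈ Icc 0 T, 0 ≤ f' t) :
    MonotoneOn f (Icc 0 T) := by
  apply monotoneOn_of_deriv_nonneg (convex_Icc 0 T)
  · intro t ht
    exact (h t ht).continuousWithinAt
  · intro t ht
    rw [interior_Icc] at ht ⊢
    exact ((h t (Ioo_subset_Icc_self ht)).hasDerivAt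
      (Icc_mem_nhds ht.1 ht.2)).differentiableAt.differentiableWithinAt
  · intro t ht
    rw [interior_Icc] at ht
    rw [((h t (Ioo_subset_Icc_self ht)).hasDerivAt (Icc_mem_nhds ht.1 ht.2)).deriv]
    exact h' t (Ioo_subset_Icc_self ht)

/-- the derivative of the energy -/
theorem gal_bounds_der {α κ : ℝ} {B : (Fr → ℂ) → Fr → ℂ} {S : Finset Fr} {T : ℝ} {z₀ : Fr → ℂ}
    {z : ℝ → Fr → ℂ} (hG : Gal α κ B S T z₀ z) (p : ℕ) (t : ℝ) (ht : t ∈ Icc 0 T) :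
    HasDerivWithinAt (fun s => ∑ k ∈ S, br k ^ (2 * p) * ‖z s k‖ ^ 2)
      (∑ k ∈ S, br k ^ (2 * p) * (2 * (conj (z t k) * rhs α κ B (z t) k).re)) (Icc 0 T) t := by
  apply HasDerivWithinAt.fun_sum
  intro k hk
  apply HasDerivWithinAt.const_mul
  have h1 := (hG.der t ht k hk).norm_sq
  rw [Complex.inner, mul_comm (rhs α κ B (z t) k)] at h1
  exact h1

theorem gal_bounds_est {α β κ : ℝ} (hβ : 0 < β) (hαβ : β < α) (hα : α ≤ 1) (hκ : 0 < κ)
    {B : (Fr → ℂ) → Fr → ℂ} (hB : Adm β B) (p : ℕ) (hp : 1 ≤ p) : ∃ C : ℝ, 0 ≤ C ∧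
    ∀ (S : Finset Fr) (z : Fr → ℂ), (∀ k ∉ S, z k = 0) → Herm z →
      ∑ k ∈ S, br k ^ (2 * p) * (2 * (conj (z k) * rhs α κ B z k).re) ≤
        C * (1 + YY 4 z) * YY p z := by
  obtain ⟨C, hC0, hC⟩ := energy_est hβ hαβ hα hκ hB p hp
  refine ⟨C, hC0, fun S z hz hh => ?_⟩
  have h1 := hC z (gal_bounds_RD S z hz) hh
  have h2 : ∑' k, len k ^ (2 * α) * br k ^ (2 * p) * ‖z k‖ ^ 2 =
      ∑ k ∈ S, len k ^ (2 * α) * br k ^ (2 * p) * ‖z k‖ ^ 2 := by
    apply tsum_eq_sum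
    intro k hk
    rw [hz k hk]; simp
  have h3 : (∑' k, ((br k ^ (2 * p) : ℝ) : ℂ) * conj (z k) * nl2 (B z) z k).re =
      ∑ k ∈ S, br k ^ (2 * p) * (conj (z k) * nl2 (B z) z k).re := by
    rw [tsum_eq_sum (s := S)]
    · rw [Complex.re_sum]
      refine Finset.sum_congr rfl fun k _ => ?_
      rw [mul_assoc, Complex.re_ofReal_mul]
    · intro k hk
      rw [hz k hk]; simp
  rw [h2, h3] at h1
  have h4 : ∀ k, (conj (z k) * rhs α κ B z k).re =
      -(κ * (len k ^ (2 * α) * ‖z k‖ ^ 2)) - (conj (z k) * nl2 (B z) z k).re := by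
    intro k
    have e1 : conj (z k) * rhs α κ B z k =
        -((κ * len k ^ (2 * α) : ℝ) : ℂ) * (conj (z k) * z k) - conj (z k) * nl2 (B z) z k := by
      unfold rhs; ring
    have e2 : conj (z k) * z k = ((‖z k‖ ^ 2 : ℝ) : ℂ) := by
      rw [mul_comm, Complex.mul_conj']
      push_cast; rfl
    rw [e1, e2, Complex.sub_re, ← Complex.ofReal_neg, ← Complex.ofReal_mul, Complex.ofReal_re]
    ring
  have h5 : ∑ k ∈ S, br k ^ (2 * p) * (2 * (conj (z k) * rhs α κ B z k).re) =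
      -(2 * κ * ∑ k ∈ S, len k ^ (2 * α) * br k ^ (2 * p) * ‖z k‖ ^ 2) -
        2 * ∑ k ∈ S, br k ^ (2 * p) * (conj (z k) * nl2 (B z) z k).re := by
    rw [Finset.mul_sum, Finset.mul_sum, ← Finset.sum_neg_distrib, ← Finset.sum_sub_distrib]
    refine Finset.sum_congr rfl fun k _ => ?_
    rw [h4]; ring
  rw [h5]
  have h6 := neg_abs_le (∑ k ∈ S, br k ^ (2 * p) * (conj (z k) * nl2 (B z) z k).re)
  linarith

theorem gal_bounds_YY_nonneg (p : ℝ) (z : Fr → ℂ) : 0 ≤ YY p z := by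
  unfold YY
  apply tsum_nonneg
  intro k
  exact mul_nonneg (Real.rpow_nonneg (gal_bounds_br_pos k).le _) (sq_nonneg _)

/-- TARGET -/
theorem gal_bounds {α β κ : ℝ} (hβ : 0 < β) (hαβ : β < α) (hα : α ≤ 1) (hκ : 0 < κ)
    {B : (Fr → ℂ) → Fr → ℂ} (hB : Adm β B) {z₀ : Fr → ℂ} (hz₀ : RD z₀) (hh : Herm z₀) :
    ∃ T₀ > 0, ∀ p : ℕ, 1 ≤ p → ∃ M : ℝ, ∀ (S : Finset Fr) (z : ℝ → Fr → ℂ), (∀ k ∈ S, -k ∈ S) →
      Gal α κ B S T₀ z₀ z → ∀ t ∈ Icc 0 T₀, YY p (z t) ≤ M := by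
  obtain ⟨C4, hC40, hC4⟩ := gal_bounds_est hβ hαβ hα hκ hB 4 (by norm_num)
  obtain ⟨W4, hW40, hW4⟩ := gal_bounds_init hz₀ 4
  set T₀ : ℝ := 1 / (2 * (C4 + 1) * (1 + W4)) with hT₀
  have hT₀pos : 0 < T₀ := by rw [hT₀]; positivity
  have hcast : ((4 : ℕ) : ℝ) = 4 := by norm_num
  -- the bound for p = 4
  have hfour : ∀ (S : Finset Fr) (z : ℝ → Fr → ℂ), Gal α κ B S T₀ z₀ z →
      ∀ t ∈ Icc 0 T₀, YY 4 (z t) ≤ 1 + 2 * W4 := by
    intro S z hG t ht
    set y : ℝ → ℝ := fun s => ∑ k ∈ S, br k ^ (2 * 4) * ‖z s k‖ ^ 2 with hy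
    have hYy : ∀ s, YY 4 (z s) = y s := by
      intro s
      rw [← hcast]
      exact gal_bounds_YY S (z s) (hG.supp s) 4
    have hy0 : ∀ s, 0 ≤ y s := fun s => by rw [← hYy]; exact gal_bounds_YY_nonneg _ _
    have hinit : y 0 ≤ W4 := by
      have : y 0 = ∑ k ∈ S, br k ^ (2 * 4) * ‖z₀ k‖ ^ 2 := by
        refine Finset.sum_congr rfl fun k hk => ?_
        rw [hG.init k hk]
      rw [this]; exact hW4 S
    set y' : ℝ → ℝ := fun s => ∑ k ∈ S, br k ^ (2 * 4) * (2 * (conj (z s k) *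
      rhs α κ B (z s) k).re) with hy'
    have hder : ∀ s ∈ Icc 0 T₀, HasDerivWithinAt y (y' s) (Icc 0 T₀) s := fun s hs =>
      gal_bounds_der hG 4 s hs
    have hle : ∀ s ∈ Icc 0 T₀, y' s ≤ C4 * (1 + y s) ^ 2 := by
      intro s hs
      have h1 := hC4 S (z s) (hG.supp s) (hG.herm s hs)
      rw [hcast, hYy] at h1
      refine h1.trans ?_
      have := hy0 s
      have h2 : C4 * (1 + y s) * y s ≤ C4 * (1 + y s) * (1 + y s) := by
        apply mul_le_mul_of_nonneg_left (by linarith)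
        exact mul_nonneg hC40 (by linarith)
      calc C4 * (1 + y s) * y s ≤ C4 * (1 + y s) * (1 + y s) := h2
        _ = C4 * (1 + y s) ^ 2 := by ring
    have hmono := gal_bounds_mono (T := T₀) (f := fun s => (1 + y s)⁻¹ + C4 * s)
      (f' := fun s => -(y' s) / (1 + y s) ^ 2 + C4) (fun s hs => by
        have h1 : HasDerivWithinAt (fun s => 1 + y s) (y' s) (Icc 0 T₀) s :=
          (hder s hs).const_add 1
        have h2 : 1 + y s ≠ 0 := by have := hy0 s; positivity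
        have h3 := h1.fun_inv h2
        have h4 : HasDerivWithinAt (fun s : ℝ => C4 * s) C4 (Icc 0 T₀) s := by
          simpa using (hasDerivWithinAt_id s (Icc 0 T₀)).const_mul C4
        exact h3.add h4) (fun s hs => by
        have h1 := hle s hs
        have h2 : 0 < (1 + y s) ^ 2 := by have := hy0 s; positivity
        have h3 : y' s / (1 + y s) ^ 2 ≤ C4 := by
          rw [div_le_iff₀ h2]; exact h1
        rw [neg_div]; linarith)
    have h0m : (0 : ℝ) ∈ Icc 0 T₀ := ⟨le_rfl, hT₀pos.le⟩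
    have h5 := hmono h0m ht ht.1
    simp only [mul_zero, add_zero] at h5
    have h6 : (1 + W4)⁻¹ ≤ (1 + y 0)⁻¹ := by
      apply inv_anti₀ (by have := hy0 0; linarith)
      linarith
    have h7 : C4 * t ≤ (1 + W4)⁻¹ / 2 := by
      calc C4 * t ≤ (C4 + 1) * T₀ := by
            apply mul_le_mul (by linarith) ht.2 ht.1 (by linarith)
        _ = (1 + W4)⁻¹ / 2 := by
            rw [hT₀]; field_simp
    have h8 : (1 + W4)⁻¹ / 2 ≤ (1 + y t)⁻¹ := by linarith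
    have h9 : 1 + y t ≤ 2 * (1 + W4) := by
      have e1 : 0 < (1 + W4)⁻¹ / 2 := by positivity
      have e2 := inv_anti₀ e1 h8
      rw [inv_inv] at e2
      have e3 : ((1 + W4)⁻¹ / 2)⁻¹ = 2 * (1 + W4) := by
        field_simp
      rwa [e3] at e2
    rw [hYy]; linarith
  refine ⟨T₀, hT₀pos, fun p hp => ?_⟩
  obtain ⟨Cp, hCp0, hCp⟩ := gal_bounds_est hβ hαβ hα hκ hB p hp
  obtain ⟨Wp, hWp0, hWp⟩ := gal_bounds_init hz₀ p
  set K : ℝ := Cp * (2 + 2 * W4) with hK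
  have hK0 : 0 ≤ K := by rw [hK]; positivity
  refine ⟨Wp * Real.exp (K * T₀), fun S z _ hG t ht => ?_⟩
  set y : ℝ → ℝ := fun s => ∑ k ∈ S, br k ^ (2 * p) * ‖z s k‖ ^ 2 with hy
  have hYy : ∀ s, YY p (z s) = y s := fun s => gal_bounds_YY S (z s) (hG.supp s) p
  have hy0 : ∀ s, 0 ≤ y s := fun s => by rw [← hYy]; exact gal_bounds_YY_nonneg _ _
  have hinit : y 0 ≤ Wp := by
    have : y 0 = ∑ k ∈ S, br k ^ (2 * p) * ‖z₀ k‖ ^ 2 := by
      refine Finset.sum_congr rfl fun k hk => ?_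
      rw [hG.init k hk]
    rw [this]; exact hWp S
  set y' : ℝ → ℝ := fun s => ∑ k ∈ S, br k ^ (2 * p) * (2 * (conj (z s k) *
    rhs α κ B (z s) k).re) with hy'
  have hder : ∀ s ∈ Icc 0 T₀, HasDerivWithinAt y (y' s) (Icc 0 T₀) s := fun s hs =>
    gal_bounds_der hG p s hs
  have hle : ∀ s ∈ Icc 0 T₀, y' s ≤ K * y s := by
    intro s hs
    have h1 := hCp S (z s) (hG.supp s) (hG.herm s hs)
    rw [hYy] at h1
    refine h1.trans ?_
    have h2 := hfour S z hG s hs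
    apply mul_le_mul_of_nonneg_right _ (hy0 s)
    rw [hK]
    apply mul_le_mul_of_nonneg_left _ hCp0
    linarith
  have hmono := gal_bounds_mono (T := T₀) (f := fun s => -(y s * Real.exp (-(K * s))))
    (f' := fun s => -(y' s * Real.exp (-(K * s)) + y s * (Real.exp (-(K * s)) * -K)))
    (fun s hs => by
      have h4 : HasDerivWithinAt (fun s : ℝ => -(K * s)) (-K) (Icc 0 T₀) s := by
        have h5 : HasDerivWithinAt (fun s : ℝ => K * s) K (Icc 0 T₀) s := by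
          simpa using (hasDerivWithinAt_id s (Icc 0 T₀)).const_mul K
        exact h5.fun_neg
      exact ((hder s hs).mul h4.exp).neg) (fun s hs => by
      have h1 := hle s hs
      have h2 : 0 < Real.exp (-(K * s)) := Real.exp_pos _
      have h3 : -(y' s * Real.exp (-(K * s)) + y s * (Real.exp (-(K * s)) * -K)) =
        (K * y s - y' s) * Real.exp (-(K * s)) := by ring
      rw [h3]
      exact mul_nonneg (by linarith) h2.le)
  have h0m : (0 : ℝ) ∈ Icc 0 T₀ := ⟨le_rfl, hT₀pos.le⟩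
  have h5 := hmono h0m ht ht.1
  simp only [mul_zero, neg_zero, Real.exp_zero, mul_one] at h5
  have h6 : y t * Real.exp (-(K * t)) ≤ y 0 := by linarith
  have h7 : y t ≤ y 0 * Real.exp (K * t) := by
    rw [Real.exp_neg] at h6
    have h8 : 0 < Real.exp (K * t) := Real.exp_pos _
    rwa [← div_eq_mul_inv, div_le_iff₀ h8] at h6
  rw [hYy]
  refine h7.trans ?_
  apply mul_le_mul hinit _ (Real.exp_pos _).le hWp0
  apply Real.exp_le_exp.mpr
  exact mul_le_mul_of_nonneg_left ht.2 hK0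

end H706.JL5

namespace H706

alias gal_bounds := JL5.gal_bounds

end H706
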