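import Pool.Agent.Helper706_SQG.Defs2
import Pool.Agent.Helper706_SQG.L1

/-!
JOB L6 (MP_96bed6_an, helper706).  The limit of the Galerkin solutions.

PROOF.  Let `S_n = {k : |k₁|, |k₂| ≤ n}` and `z^n` a Galerkin solution on `S_n`. All `YY p (z^n t) ≤ M_p`,
so `br k^p ‖z^n_k(t)‖ ≤ √M_p`. Choose an ultrafilter `𝒰` on `ℕ` finer than `atTop` (`Filter.hyperfilter`)
and let `z_k(t)` be the limit of `z^n_k(t)` along `𝒰` (exists by boundedness). Then `z 0 = z₀`, `Herm`,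
`URD`. The derivatives `rhs(z^n)_k` are bounded by `C_k`, rapidly decreasing in `k` uniformly in `n`, `t`
(`nl2_bound`, `Adm.bd`: `br^{p}‖B z‖ ≤ √(YY p (Bz)) ≤ C √(YY p z)`), so `z^n_k` is Lipschitz in `t` with
rapidly decreasing constants, so `t ↦ rhs(z^n(t))_k` is Lipschitz uniformly in `n` (bilinearity), and
`|z^n_k(t) - z^n_k(s) - (t-s) rhs(z^n(s))_k| ≤ C_k |t-s|²` for `k ∈ S_n`. Along `𝒰`,
`rhs(z^n(s))_k → rhs(z(s))_k` (dominated convergence for the series in `l`, `Adm.row` for `B`), so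
`|z_k(t) - z_k(s) - (t-s) rhs(z(s))_k| ≤ C_k |t-s|²`, which gives the derivative. (A model of such an
argument is in the starting library, `Pool/Agent/R211/BQ/Lim.lean`, `Equi.lean`, `Main.lean`.)
-/

set_option autoImplicit false
open Set Filter Topology MeasureTheory
open scoped ComplexConjugate ContDiff

namespace H706.JL6

/-! Auxiliary results. -/

theorem L6_len_nonneg (k : Fr) : 0 ≤ len k := Real.sqrt_nonneg _

theorem L6_br_ge (k : Fr) : 1 ≤ br k := by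
  have := L6_len_nonneg k
  unfold br; linarith

theorem L6_br_pos (k : Fr) : 0 < br k := lt_of_lt_of_le one_pos (L6_br_ge k)

theorem L6_len_le (k : Fr) : len k ≤ br k := by unfold br; linarith

theorem L6_cr_le (k l : Fr) : |(cr k l : ℝ)| ≤ br k * br l := by
  have h1 : |(cr k l : ℝ)| ≤ len k * len l := by
    unfold len
    rw [← Real.sqrt_mul (by positivity)]
    apply Real.abs_le_sqrt
    unfold cr
    push_cast
    nlinarith [sq_nonneg ((k.1 : ℝ) * l.1 + k.2 * l.2)]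
  exact h1.trans (mul_le_mul (L6_len_le k) (L6_len_le l) (L6_len_nonneg l) (L6_br_pos k).le)

theorem L6_RD_of_fin {S : Finset Fr} {z : Fr → ℂ} (hz : ∀ k ∉ S, z k = 0) : RD z := by
  intro N
  refine ⟨∑ k ∈ S, br k ^ N * ‖z k‖, fun k => ?_⟩
  by_cases hk : k ∈ S
  · exact Finset.single_le_sum (f := fun k => br k ^ N * ‖z k‖)
      (fun k _ => mul_nonneg (pow_nonneg (L6_br_pos k).le _) (norm_nonneg _)) hk
  · rw [hz k hk, norm_zero, mul_zero]
    exact Finset.sum_nonneg fun k _ => mul_nonneg (pow_nonneg (L6_br_pos k).le _) (norm_nonneg _)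

theorem L6_term (p : ℕ) (z : Fr → ℂ) (k : Fr) :
    br k ^ (2 * (p : ℝ)) * ‖z k‖ ^ 2 = (br k ^ p * ‖z k‖) ^ 2 := by
  rw [mul_pow, ← pow_mul, ← Real.rpow_natCast (br k) (p * 2)]
  have e : 2 * (p : ℝ) = ((p * 2 : ℕ) : ℝ) := by push_cast; ring
  rw [e]

theorem L6_YY (p : ℕ) (z : Fr → ℂ) : YY p z = ∑' k, (br k ^ p * ‖z k‖) ^ 2 := by
  unfold YY
  exact tsum_congr fun k => L6_term p z k

theorem L6_summable_sq {z : Fr → ℂ} (hz : RD z) (p : ℕ) :
    Summable fun k => (br k ^ p * ‖z k‖) ^ 2 := by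
  obtain ⟨C, hC⟩ := hz p
  refine Summable.of_nonneg_of_le (fun k => sq_nonneg _) (fun k => ?_)
    ((RD_summable hz p).mul_left C)
  rw [sq]
  exact mul_le_mul_of_nonneg_right (hC k)
    (mul_nonneg (pow_nonneg (L6_br_pos k).le _) (norm_nonneg _))

theorem L6_le_of_YY {z : Fr → ℂ} (hz : RD z) {p : ℕ} {M : ℝ} (h : YY p z ≤ M) (k : Fr) :
    br k ^ p * ‖z k‖ ≤ Real.sqrt M := by
  apply Real.le_sqrt_of_sq_le
  rw [L6_YY] at h
  refine le_trans ?_ h
  exact (L6_summable_sq hz p).le_tsum k (fun j _ => sq_nonneg _)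

theorem L6_YY_le {β : ℝ} (hβ1 : β ≤ 1) {z : Fr → ℂ} {p : ℕ} {M : ℝ}
    (h : ∀ k, br k ^ (p + 3) * ‖z k‖ ≤ M) :
    YY (p + β) z ≤ M ^ 2 * ∑' k : Fr, (br k ^ 4)⁻¹ := by
  have h1 : ∀ k, br k ^ (2 * ((p : ℝ) + β)) * ‖z k‖ ^ 2 ≤ (br k ^ (p + 1) * ‖z k‖) ^ 2 := by
    intro k
    rw [← L6_term]
    apply mul_le_mul_of_nonneg_right _ (sq_nonneg _)
    apply Real.rpow_le_rpow_of_exponent_le (L6_br_ge k)
    push_cast; linarith
  have h2 : ∀ k, (br k ^ (p + 1) * ‖z k‖) ^ 2 ≤ M ^ 2 * (br k ^ 4)⁻¹ := by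
    intro k
    have hb := L6_br_pos k
    have h3 : br k ^ (p + 1) * ‖z k‖ = (br k ^ (p + 3) * ‖z k‖) * (br k ^ 2)⁻¹ := by
      rw [pow_add _ p 3, pow_add _ p 1]
      field_simp
    have h4 : (br k ^ 4)⁻¹ = ((br k ^ 2)⁻¹) ^ 2 := by
      rw [← inv_pow, ← inv_pow, ← pow_mul]
    rw [h3, mul_pow, h4]
    apply mul_le_mul_of_nonneg_right _ (sq_nonneg _)
    exact pow_le_pow_left₀ (mul_nonneg (pow_nonneg hb.le _) (norm_nonneg _)) (h k) 2
  have hs2 : Summable fun k : Fr => M ^ 2 * (br k ^ 4)⁻¹ := summable_br.mul_left _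
  have hs1 : Summable fun k => br k ^ (2 * ((p : ℝ) + β)) * ‖z k‖ ^ 2 :=
    Summable.of_nonneg_of_le
      (fun k => mul_nonneg (Real.rpow_nonneg (L6_br_pos k).le _) (sq_nonneg _))
      (fun k => (h1 k).trans (h2 k)) hs2
  unfold YY
  rw [← tsum_mul_left]
  exact hs1.tsum_le_tsum (fun k => (h1 k).trans (h2 k)) hs2

theorem L6_B_bound {β : ℝ} (hβ1 : β ≤ 1) {B : (Fr → ℂ) → Fr → ℂ} (hB : Adm β B) (N : ℕ) :
    ∃ C : ℝ, 0 ≤ C ∧ ∀ z, RD z → ∀ M : ℝ, (∀ k, br k ^ (N + 3) * ‖z k‖ ≤ M) →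
      ∀ k, br k ^ N * ‖B z k‖ ≤ C * M := by
  obtain ⟨C, hC⟩ := hB.bd N
  set S4 : ℝ := ∑' k : Fr, (br k ^ 4)⁻¹ with hS
  have hS0 : 0 ≤ S4 := tsum_nonneg fun k => inv_nonneg.2 (pow_nonneg (L6_br_pos k).le _)
  refine ⟨Real.sqrt (|C| * S4), Real.sqrt_nonneg _, fun z hz M hM k => ?_⟩
  obtain ⟨h1, h2⟩ := hC z hz
  have hM0 : 0 ≤ M := le_trans (mul_nonneg (pow_nonneg (L6_br_pos k).le _) (norm_nonneg _)) (hM k)
  have h3 : YY ((N + 1 : ℕ) : ℝ) (B z) ≤ |C| * S4 * M ^ 2 := by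
    have hY0 : 0 ≤ YY (N + β) z := tsum_nonneg fun k =>
      mul_nonneg (Real.rpow_nonneg (L6_br_pos k).le _) (sq_nonneg _)
    calc YY ((N + 1 : ℕ) : ℝ) (B z) = YY (N + 1) (B z) := by push_cast; rfl
      _ ≤ C * YY (N + β) z := h2
      _ ≤ |C| * YY (N + β) z := mul_le_mul_of_nonneg_right (le_abs_self C) hY0
      _ ≤ |C| * (M ^ 2 * S4) :=
          mul_le_mul_of_nonneg_left (L6_YY_le hβ1 hM) (abs_nonneg C)
      _ = _ := by ring
  have h4 := L6_le_of_YY h1 h3 k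
  rw [Real.sqrt_mul (mul_nonneg (abs_nonneg C) hS0), Real.sqrt_sq hM0] at h4
  refine le_trans ?_ h4
  apply mul_le_mul_of_nonneg_right _ (norm_nonneg _)
  exact pow_le_pow_right₀ (L6_br_ge k) (Nat.le_succ N)

theorem L6_B_sub {β : ℝ} {B : (Fr → ℂ) → Fr → ℂ} (hB : Adm β B) (z w : Fr → ℂ) (k : Fr) :
    B (fun j => z j - w j) k = B z k - B w k := by
  obtain ⟨S, b, h⟩ := hB.row k
  rw [h, h, h, ← Finset.sum_sub_distrib]
  exact Finset.sum_congr rfl fun l _ => mul_sub _ _ _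

theorem L6_nl2_sub {φ φ' z z' : Fr → ℂ} {k : Fr}
    (ha : Summable fun l => (cr k l : ℂ) * φ (k - l) * z l)
    (hb : Summable fun l => (cr k l : ℂ) * φ' (k - l) * z' l)
    (hc : Summable fun l => (cr k l : ℂ) * (φ (k - l) - φ' (k - l)) * z l)
    (hd : Summable fun l => (cr k l : ℂ) * φ' (k - l) * (z l - z' l)) :
    nl2 φ z k - nl2 φ' z' k =
      nl2 (fun j => φ j - φ' j) z k + nl2 φ' (fun j => z j - z' j) k := by
  unfold nl2
  rw [← ha.tsum_sub hb, ← hc.tsum_add hd]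
  exact tsum_congr fun l => by ring

theorem L6_len_rpow {α : ℝ} (hα : 0 < α) (hα1 : α ≤ 1) (k : Fr) :
    0 ≤ len k ^ (2 * α) ∧ len k ^ (2 * α) ≤ br k ^ 2 := by
  refine ⟨Real.rpow_nonneg (L6_len_nonneg k) _, ?_⟩
  calc len k ^ (2 * α) ≤ br k ^ (2 * α) :=
        Real.rpow_le_rpow (L6_len_nonneg k) (L6_len_le k) (by linarith)
    _ ≤ br k ^ (2 : ℝ) := Real.rpow_le_rpow_of_exponent_le (L6_br_ge k) (by linarith)
    _ = br k ^ 2 := by norm_cast

theorem L6_lin_bound {α κ : ℝ} (hα : 0 < α) (hα1 : α ≤ 1) (N : ℕ) {w : Fr → ℂ} {M : ℝ}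
    (h : ∀ k, br k ^ (N + 2) * ‖w k‖ ≤ M) (k : Fr) :
    br k ^ N * ‖-((κ * len k ^ (2 * α) : ℝ) : ℂ) * w k‖ ≤ |κ| * M := by
  obtain ⟨h1, h2⟩ := L6_len_rpow hα hα1 k
  have hb := L6_br_pos k
  rw [norm_mul, norm_neg, Complex.norm_real, Real.norm_eq_abs, abs_mul, abs_of_nonneg h1]
  calc br k ^ N * (|κ| * len k ^ (2 * α) * ‖w k‖)
      ≤ br k ^ N * (|κ| * br k ^ 2 * ‖w k‖) := by
        apply mul_le_mul_of_nonneg_left _ (pow_nonneg hb.le _)
        apply mul_le_mul_of_nonneg_right _ (norm_nonneg _)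
        exact mul_le_mul_of_nonneg_left h2 (abs_nonneg _)
    _ = |κ| * (br k ^ (N + 2) * ‖w k‖) := by rw [pow_add]; ring
    _ ≤ |κ| * M := mul_le_mul_of_nonneg_left (h k) (abs_nonneg _)

/-- TARGET -/
theorem gal_limit {α β κ T₀ : ℝ} (hβ : 0 < β) (hβ1 : β ≤ 1) (hα : 0 < α) (hα1 : α ≤ 1)
    (hT : 0 < T₀) {B : (Fr → ℂ) → Fr → ℂ} (hB : Adm β B) {z₀ : Fr → ℂ} (hz₀ : RD z₀)
    (hh : Herm z₀)
    (hex : ∀ S : Finset Fr, (∀ k ∈ S, -k ∈ S) → ∃ z, Gal α κ B S T₀ z₀ z)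
    (hbd : ∀ p : ℕ, 1 ≤ p → ∃ M : ℝ, ∀ (S : Finset Fr) (z : ℝ → Fr → ℂ), (∀ k ∈ S, -k ∈ S) →
      Gal α κ B S T₀ z₀ z → ∀ t ∈ Icc 0 T₀, YY p (z t) ≤ M) :
    ∃ z : ℝ → Fr → ℂ, z 0 = z₀ ∧ URD (Icc 0 T₀) z ∧ (∀ t ∈ Icc 0 T₀, Herm (z t)) ∧
      ∀ t ∈ Icc 0 T₀, ∀ k, HasDerivWithinAt (fun s => z s k) (rhs α κ B (z t) k) (Icc 0 T₀) t := by
  classical
  -- boxes
  let S : ℕ → Finset Fr := fun n =>
    (Finset.Icc (-(n : ℤ)) n) ×ˢ (Finset.Icc (-(n : ℤ)) n)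
  have hSneg : ∀ n, ∀ k ∈ S n, -k ∈ S n := by
    intro n k hk
    simp only [S, Finset.mem_product, Finset.mem_Icc, Prod.fst_neg, Prod.snd_neg] at hk ⊢
    omega
  have hSmem : ∀ k : Fr, ∀ᶠ n in atTop, k ∈ S n := by
    intro k
    filter_upwards [eventually_ge_atTop (k.1.natAbs + k.2.natAbs)] with n hn
    simp only [S, Finset.mem_product, Finset.mem_Icc]
    omega
  choose zn hzn using fun n => hex (S n) (hSneg n)
  have hRD : ∀ n t, RD (zn n t) := fun n t => L6_RD_of_fin ((hzn n).supp t)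
  -- uniform bounds
  have hA' : ∀ N : ℕ, ∃ A : ℝ, 0 ≤ A ∧ ∀ n, ∀ t ∈ Icc 0 T₀, ∀ k, br k ^ N * ‖zn n t k‖ ≤ A := by
    intro N
    obtain ⟨M, hM⟩ := hbd (N + 1) (by omega)
    refine ⟨Real.sqrt M, Real.sqrt_nonneg _, fun n t ht k => ?_⟩
    have h1 := L6_le_of_YY (hRD n t) (p := N + 1)
      (hM (S n) (zn n) (hSneg n) (hzn n) t ht) k
    refine le_trans ?_ h1
    exact mul_le_mul_of_nonneg_right (pow_le_pow_right₀ (L6_br_ge k) (Nat.le_succ N))
      (norm_nonneg _)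
  choose A hA0 hA using hA'
  choose CB hCB0 hCB using fun N => L6_B_bound hβ1 hB N
  choose CN hCN0 hCN using nl2_bound
  have hBA : ∀ N n, ∀ t ∈ Icc 0 T₀, ∀ k, br k ^ N * ‖B (zn n t) k‖ ≤ CB N * A (N + 3) :=
    fun N n t ht k => hCB N _ (hRD n t) _ (fun k => hA (N + 3) n t ht k) k
  have hBA0 : ∀ N, 0 ≤ CB N * A (N + 3) := fun N => mul_nonneg (hCB0 _) (hA0 _)
  let R : ℕ → ℝ := fun N => |κ| * A (N + 2) + CN N * (CB (N + 5) * A (N + 5 + 3)) * A (N + 5)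
  have hR0 : ∀ N, 0 ≤ R N := fun N =>
    add_nonneg (mul_nonneg (abs_nonneg _) (hA0 _))
      (mul_nonneg (mul_nonneg (hCN0 _) (hBA0 _)) (hA0 _))
  have hR : ∀ N n, ∀ t ∈ Icc 0 T₀, ∀ k, br k ^ N * ‖rhs α κ B (zn n t) k‖ ≤ R N := by
    intro N n t ht k
    have h1 := L6_lin_bound (κ := κ) hα hα1 N (fun k => hA (N + 2) n t ht k) k
    have h2 := (hCN N (B (zn n t)) (zn n t) _ _ (fun k => hBA (N + 5) n t ht k)
      (fun k => hA (N + 5) n t ht k)).2 k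
    unfold rhs
    calc br k ^ N * ‖-((κ * len k ^ (2 * α) : ℝ) : ℂ) * zn n t k - nl2 (B (zn n t)) (zn n t) k‖
        ≤ br k ^ N * (‖-((κ * len k ^ (2 * α) : ℝ) : ℂ) * zn n t k‖ +
            ‖nl2 (B (zn n t)) (zn n t) k‖) :=
          mul_le_mul_of_nonneg_left (norm_sub_le _ _) (pow_nonneg (L6_br_pos k).le _)
      _ ≤ R N := by rw [mul_add]; exact add_le_add h1 h2
  -- Lipschitz bounds
  have hLip : ∀ N n, ∀ s ∈ Icc 0 T₀, ∀ t ∈ Icc 0 T₀, ∀ k,
      br k ^ N * ‖zn n t k - zn n s k‖ ≤ R N * |t - s| := by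
    intro N n s hs t ht k
    have hb : 0 < br k ^ N := pow_pos (L6_br_pos k) _
    by_cases hk : k ∈ S n
    · have h1 := Convex.norm_image_sub_le_of_norm_hasDerivWithin_le
        (f := fun u => zn n u k) (f' := fun u => rhs α κ B (zn n u) k) (C := R N / br k ^ N)
        (fun u hu => (hzn n).der u hu k hk) (fun u hu => by
          rw [le_div_iff₀ hb, mul_comm]; exact hR N n u hu k) (convex_Icc 0 T₀) hs ht
      calc br k ^ N * ‖zn n t k - zn n s k‖ ≤ br k ^ N * (R N / br k ^ N * ‖t - s‖) :=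
            mul_le_mul_of_nonneg_left h1 hb.le
        _ = R N * |t - s| := by rw [Real.norm_eq_abs]; field_simp
    · rw [(hzn n).supp t k hk, (hzn n).supp s k hk, sub_self, norm_zero, mul_zero]
      exact mul_nonneg (hR0 N) (abs_nonneg _)
  let L : ℝ := |κ| * R 2 + CN 0 * (CB 5 * R 8) * A 5 + CN 0 * (CB 5 * A 8) * R 5
  have hL0 : 0 ≤ L := add_nonneg (add_nonneg (mul_nonneg (abs_nonneg _) (hR0 _))
    (mul_nonneg (mul_nonneg (hCN0 _) (mul_nonneg (hCB0 _) (hR0 _))) (hA0 _)))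
    (mul_nonneg (mul_nonneg (hCN0 _) (mul_nonneg (hCB0 _) (hA0 _))) (hR0 _))
  have hL : ∀ n, ∀ s ∈ Icc 0 T₀, ∀ t ∈ Icc 0 T₀, ∀ k,
      ‖rhs α κ B (zn n t) k - rhs α κ B (zn n s) k‖ ≤ L * |t - s| := by
    intro n s hs t ht k
    let w : Fr → ℂ := fun j => zn n t j - zn n s j
    have hw : RD w := L6_RD_of_fin (S := S n) fun k hk => by
      simp only [w]; rw [(hzn n).supp t k hk, (hzn n).supp s k hk, sub_self]
    have hwb : ∀ N k, br k ^ N * ‖w k‖ ≤ R N * |t - s| := fun N k => hLip N n s hs t ht k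
    have hBw : ∀ N k, br k ^ N * ‖B w k‖ ≤ CB N * (R (N + 3) * |t - s|) :=
      fun N k => hCB N w hw _ (fun k => hwb (N + 3) k) k
    have hBsub : B w = fun j => B (zn n t) j - B (zn n s) j := by
      funext j; exact L6_B_sub hB _ _ j
    have n1 := hCN 0 (B (zn n t)) (zn n t) _ _ (fun k => hBA 5 n t ht k) (fun k => hA 5 n t ht k)
    have n2 := hCN 0 (B (zn n s)) (zn n s) _ _ (fun k => hBA 5 n s hs k) (fun k => hA 5 n s hs k)
    have n3 := hCN 0 (B w) (zn n t) _ _ (fun k => hBw 5 k) (fun k => hA 5 n t ht k)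
    have n4 := hCN 0 (B (zn n s)) w _ _ (fun k => hBA 5 n s hs k) (fun k => hwb 5 k)
    have hsub : nl2 (B (zn n t)) (zn n t) k - nl2 (B (zn n s)) (zn n s) k =
        nl2 (B w) (zn n t) k + nl2 (B (zn n s)) w k := by
      have h3 := n3.1 k
      rw [hBsub] at h3 ⊢
      exact L6_nl2_sub (n1.1 k) (n2.1 k) h3 (n4.1 k)
    have h1 := L6_lin_bound (κ := κ) hα hα1 0 (fun k => hwb 2 k) k
    have h3 := n3.2 k
    have h4 := n4.2 k
    rw [pow_zero, one_mul] at h1 h3 h4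
    have e : rhs α κ B (zn n t) k - rhs α κ B (zn n s) k =
        -((κ * len k ^ (2 * α) : ℝ) : ℂ) * w k - (nl2 (B w) (zn n t) k + nl2 (B (zn n s)) w k) := by
      rw [← hsub]
      unfold rhs
      simp only [w]
      ring
    rw [e]
    calc _ ≤ ‖-((κ * len k ^ (2 * α) : ℝ) : ℂ) * w k‖ +
          (‖nl2 (B w) (zn n t) k‖ + ‖nl2 (B (zn n s)) w k‖) :=
          (norm_sub_le _ _).trans (add_le_add le_rfl (norm_add_le _ _))
      _ ≤ |κ| * (R 2 * |t - s|) + (CN 0 * (CB 5 * (R (5 + 3) * |t - s|)) * A 5 +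
          CN 0 * (CB 5 * A (5 + 3)) * (R 5 * |t - s|)) := add_le_add h1 (add_le_add h3 h4)
      _ = L * |t - s| := by simp only [L]; ring
  -- Taylor bound
  have hTay : ∀ n, ∀ s ∈ Icc 0 T₀, ∀ t ∈ Icc 0 T₀, ∀ k ∈ S n,
      ‖zn n t k - zn n s k - ((t - s : ℝ) : ℂ) * rhs α κ B (zn n s) k‖ ≤
        L * |t - s| * |t - s| := by
    intro n s hs t ht k hk
    have hsub : uIcc s t ⊆ Icc 0 T₀ := uIcc_subset_Icc hs ht
    have h1 := Convex.norm_image_sub_le_of_norm_hasDerivWithin_le (s := uIcc s t)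
      (f := fun u : ℝ => zn n u k - (u : ℂ) * rhs α κ B (zn n s) k)
      (f' := fun u => rhs α κ B (zn n u) k - 1 * rhs α κ B (zn n s) k) (C := L * |t - s|)
      (fun u hu => by
        have h2 := ((hzn n).der u (hsub hu) k hk).mono hsub
        have h3 : HasDerivWithinAt (fun u : ℝ => (u : ℂ)) 1 (uIcc s t) u :=
          (Complex.ofRealCLM.hasDerivAt (x := u)).hasDerivWithinAt
        exact h2.sub (h3.mul_const _))
      (fun u hu => by
        rw [one_mul]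
        refine (hL n s hs u (hsub hu) k).trans (mul_le_mul_of_nonneg_left ?_ hL0)
        have h4 := abs_sub_left_of_mem_uIcc hu
        rwa [abs_sub_comm u s, abs_sub_comm t s] at * )
      (convex_uIcc s t) left_mem_uIcc right_mem_uIcc
    rw [Real.norm_eq_abs] at h1
    refine le_trans (le_of_eq ?_) h1
    congr 1
    push_cast; ring
  -- the limit
  let 𝒰 : Filter ℕ := (hyperfilter ℕ : Filter ℕ)
  have h𝒰 : 𝒰 ≤ atTop := Nat.hyperfilter_le_atTop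
  have : 𝒰.NeBot := inferInstanceAs (NeBot (hyperfilter ℕ : Filter ℕ))
  have hex' : ∀ t ∈ Icc 0 T₀, ∀ k, ∃ a, Tendsto (fun n => zn n t k) 𝒰 (𝓝 a) := by
    intro t ht k
    have hc := isCompact_closedBall (0 : ℂ) (A 0)
    obtain ⟨a, _, ha⟩ := hc.ultrafilter_le_nhds' ((hyperfilter ℕ).map (fun n => zn n t k)) (by
      rw [Ultrafilter.mem_map]
      refine Filter.mem_of_superset Filter.univ_mem fun n _ => ?_
      have := hA 0 n t ht k
      rw [pow_zero, one_mul] at this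
      simpa using this)
    exact ⟨a, ha⟩
  let z : ℝ → Fr → ℂ := fun t k =>
    if h : ∃ a, Tendsto (fun n => zn n t k) 𝒰 (𝓝 a) then h.choose else 0
  have hz : ∀ t ∈ Icc 0 T₀, ∀ k, Tendsto (fun n => zn n t k) 𝒰 (𝓝 (z t k)) := by
    intro t ht k
    have h := hex' t ht k
    simp only [z, dif_pos h]
    exact h.choose_spec
  have hzb : ∀ N, ∀ t ∈ Icc 0 T₀, ∀ k, br k ^ N * ‖z t k‖ ≤ A N := by
    intro N t ht k
    exact le_of_tendsto ((hz t ht k).norm.const_mul _)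
      (Eventually.of_forall fun n => hA N n t ht k)
  have hBz : ∀ t ∈ Icc 0 T₀, ∀ k, Tendsto (fun n => B (zn n t) k) 𝒰 (𝓝 (B (z t) k)) := by
    intro t ht k
    obtain ⟨F, b, hb⟩ := hB.row k
    simp only [hb]
    exact tendsto_finsetSum _ fun l _ => (hz t ht l).const_mul _
  have hnl : ∀ t ∈ Icc 0 T₀, ∀ k,
      Tendsto (fun n => nl2 (B (zn n t)) (zn n t) k) 𝒰 (𝓝 (nl2 (B (z t)) (z t) k)) := by
    intro t ht k
    unfold nl2
    refine tendsto_tsum_of_dominated_convergence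
      (bound := fun l => (br k * (CB 0 * A 3) * A 5) * (br l ^ 4)⁻¹) (summable_br.mul_left _)
      (fun l => ((hBz t ht (k - l)).const_mul _).mul (hz t ht l))
      (Eventually.of_forall fun n l => ?_)
    have h1 := hBA 0 n t ht (k - l)
    have h2 := hA 5 n t ht l
    rw [pow_zero, one_mul] at h1
    have hbl := L6_br_pos l
    have h3 : ‖zn n t l‖ ≤ A 5 * (br l ^ 5)⁻¹ := by
      rw [← div_eq_mul_inv, le_div_iff₀ (pow_pos hbl _), mul_comm]; exact h2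
    have h4 : ‖((cr k l : ℤ) : ℂ)‖ ≤ br k * br l := by
      rw [Complex.norm_intCast]; exact L6_cr_le k l
    rw [norm_mul, norm_mul]
    calc ‖((cr k l : ℤ) : ℂ)‖ * ‖B (zn n t) (k - l)‖ * ‖zn n t l‖
        ≤ (br k * br l) * (CB 0 * A (0 + 3)) * (A 5 * (br l ^ 5)⁻¹) := by
          apply mul_le_mul (mul_le_mul h4 h1 (norm_nonneg _)
            (mul_nonneg (L6_br_pos k).le hbl.le)) h3 (norm_nonneg _)
          exact mul_nonneg (mul_nonneg (L6_br_pos k).le hbl.le) (hBA0 0)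
      _ = (br k * (CB 0 * A 3) * A 5) * (br l ^ 4)⁻¹ := by
          field_simp
  have hrhs : ∀ t ∈ Icc 0 T₀, ∀ k,
      Tendsto (fun n => rhs α κ B (zn n t) k) 𝒰 (𝓝 (rhs α κ B (z t) k)) := by
    intro t ht k
    unfold rhs
    exact ((hz t ht k).const_mul _).sub (hnl t ht k)
  have hTay' : ∀ s ∈ Icc 0 T₀, ∀ t ∈ Icc 0 T₀, ∀ k,
      ‖z t k - z s k - ((t - s : ℝ) : ℂ) * rhs α κ B (z s) k‖ ≤ L * |t - s| * |t - s| := by
    intro s hs t ht k
    refine le_of_tendsto ((((hz t ht k).sub (hz s hs k)).sub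
      ((hrhs s hs k).const_mul _)).norm) ?_
    filter_upwards [h𝒰 (hSmem k)] with n hn
    exact hTay n s hs t ht k hn
  have h0 : (0 : ℝ) ∈ Icc 0 T₀ := ⟨le_rfl, hT.le⟩
  refine ⟨z, ?_, ?_, ?_, ?_⟩
  · funext k
    refine tendsto_nhds_unique (hz 0 h0 k) ?_
    refine tendsto_const_nhds.congr' ?_
    filter_upwards [h𝒰 (hSmem k)] with n hn
    exact ((hzn n).init k hn).symm
  · intro N
    exact ⟨A N, fun t ht k => hzb N t ht k⟩
  · intro t ht k
    have h1 : Tendsto (fun n => conj (zn n t k)) 𝒰 (𝓝 (conj (z t k))) :=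
      (Complex.continuous_conj.tendsto _).comp (hz t ht k)
    refine tendsto_nhds_unique (hz t ht (-k)) (h1.congr fun n => ?_)
    exact ((hzn n).herm t ht k).symm
  · intro t ht k
    rw [hasDerivWithinAt_iff_isLittleO, Asymptotics.isLittleO_iff]
    intro c hc
    have h1 : ∀ᶠ x in 𝓝[Icc 0 T₀] t, |x - t| < c / (L + 1) := by
      have h2 : Tendsto (fun x : ℝ => |x - t|) (𝓝[Icc 0 T₀] t) (𝓝 |t - t|) :=
        ((continuous_id.sub continuous_const).abs.tendsto t).mono_left nhdsWithin_le_nhds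
      rw [sub_self, abs_zero] at h2
      exact h2.eventually (gt_mem_nhds (div_pos hc (by linarith)))
    filter_upwards [h1, self_mem_nhdsWithin] with x hx hxI
    have h3 := hTay' t ht x hxI k
    have h4 : (x - t) • rhs α κ B (z t) k = ((x - t : ℝ) : ℂ) * rhs α κ B (z t) k := by
      rw [Complex.real_smul]
    rw [h4, Real.norm_eq_abs]
    refine h3.trans (mul_le_mul_of_nonneg_right ?_ (abs_nonneg _))
    rw [lt_div_iff₀ (by linarith)] at hx
    nlinarith [abs_nonneg (x - t)]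

end H706.JL6

namespace H706

alias gal_limit := JL6.gal_limit

end H706
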