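import Pool.Agent.Helper706_SQG.L4
import Pool.Agent.Helper706_SQG.L5
import Pool.Agent.Helper706_SQG.L6

/-!
Local existence for the equation for the coefficients.
-/

set_option autoImplicit false

open Set Filter Topology MeasureTheory
open scoped ComplexConjugate ContDiff

namespace H706

theorem csol_exists {α β κ : ℝ} (hβ : 0 < β) (hαβ : β < α) (hα : α ≤ 1) (hκ : 0 < κ)
    {B : (Fr → ℂ) → Fr → ℂ} (hB : Adm β B) {z₀ : Fr → ℂ} (hz₀ : RD z₀) (hh : Herm z₀) :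
    ∃ T₀ > 0, ∃ z : ℝ → Fr → ℂ, z 0 = z₀ ∧ URD (Icc 0 T₀) z ∧ (∀ t ∈ Icc 0 T₀, Herm (z t)) ∧
      ∀ t ∈ Icc 0 T₀, ∀ k, HasDerivWithinAt (fun s => z s k) (rhs α κ B (z t) k) (Icc 0 T₀) t := by
  obtain ⟨T₀, hT₀, hb⟩ := gal_bounds hβ hαβ hα hκ hB hz₀ hh
  exact ⟨T₀, hT₀, gal_limit hβ (by linarith) (by linarith) hα hT₀ hB hz₀ hh
    (fun S hS => exists_gal hκ.le hB hS hh hT₀) hb⟩

end H706
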