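import Pool.Agent.Helper706_SQG.Defs2
import Pool.Agent.Helper706_SQG.CV2
import Pool.Agent.Helper706_SQG.CV3
import Pool.Agent.Helper706_SQG.L7
import Pool.Agent.Helper706_SQG.L8

/-!
JOB GL (MP_96bed6_an, helper706).  The maximal smooth solution.

PROOF.  1. `csol_exists`, `csol_unique` are given. Existence: `csol_exists` with `β = α/2`, `adm_Bop`, and
`isSol_of_coef` (`RD_fc`, `fc_herm`). Uniqueness: two solutions on `[0,T)` have the same coefficients by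
`csol_of_isSol`, `csol_unique`, and then they are equal by `IsF_fc`.
2. A solution on `[0,T)` is a solution on `[0,T')` for `T' ≤ T`. Let `Tst = sSup` of the set of `T > 0` for
which a solution on `[0,T)` exists; it is nonempty and bounded by `Tb`. For `t < Tst` choose a solution
`θ'` on `[0,T')` with `t < T'` and put `θ t = θ' t` (well defined by uniqueness). All conditions of
`IsSol` are local in time (near any `t₀ < Tst`, `θ` coincides on `[0,T')`, `t₀ < T'`, with one solution).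
-/

set_option autoImplicit false
open Set Filter Topology MeasureTheory
open scoped ComplexConjugate ContDiff

namespace H706.JGL

theorem GL_restrict {lam α κ : ℝ} {w : ℕ → ℝ} {E : ℕ → Pt → ℝ} {θ₀ : Pt → ℝ} {T T' : ℝ}
    {θ : ℝ → Pt → ℝ} (h : IsSol lam α κ w E θ₀ T θ) (hT : T' ≤ T) :
    IsSol lam α κ w E θ₀ T' θ where
  init := h.init
  smooth := fun t ht => h.smooth t ⟨ht.1, ht.2.trans_le hT⟩
  per := fun t ht => h.per t ⟨ht.1, ht.2.trans_le hT⟩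
  cont := fun j => (h.cont j).mono (prod_mono (Ico_subset_Ico_right hT) Subset.rfl)
  eqn := fun t ht => h.eqn t ⟨ht.1, ht.2.trans_le hT⟩

theorem GL_unique {lam α κ a C₁ C₂ : ℝ} (hα : 0 < α) (hα1 : α ≤ 1) (hκ : 0 < κ)
    (ha : 0 ≤ a) (hC₁ : 1 ≤ C₁) (hC₂ : 0 ≤ C₂) {n₀ : ℕ} (hn : 1 ≤ n₀) {E : ℕ → Pt → ℝ}
    (hE : ∀ n, Sm (E n)) (he : Band C₁ C₂ n₀ fun n => fc (E n)) {θ₀ : Pt → ℝ}
    {T T' : ℝ} {θ θ' : ℝ → Pt → ℝ} (h : IsSol lam α κ (wts a n₀) E θ₀ T θ)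
    (h' : IsSol lam α κ (wts a n₀) E θ₀ T' θ') {t : ℝ} (ht0 : 0 ≤ t) (htT : t < T)
    (htT' : t < T') : θ t = θ' t := by
  have r := GL_restrict h (min_le_left T T')
  have r' := GL_restrict h' (min_le_right T T')
  have c := csol_of_isSol hα hα1 hκ ha hC₁ hC₂ hn hE he r
  have c' := csol_of_isSol hα hα1 hκ ha hC₁ hC₂ hn hE he r'
  have hB := adm_Bop lam a C₁ C₂ (α / 2) ha hC₁ hC₂ (by positivity) hn he
  have h0 : fc (θ 0) = fc (θ' 0) := by rw [h.init, h'.init]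
  have hu := csol_unique (by positivity) (by linarith) hα1 hκ hB c c' h0 t
    ⟨ht0, lt_min htT htT'⟩
  have hu' : fc (θ t) = fc (θ' t) := hu
  have f1 := (IsF_fc ⟨h.smooth t ⟨ht0, htT⟩, h.per t ⟨ht0, htT⟩⟩).2
  have f2 := (IsF_fc ⟨h'.smooth t ⟨ht0, htT'⟩, h'.per t ⟨ht0, htT'⟩⟩).2
  funext x
  have e1 := f1 x
  have e2 := f2 x
  rw [hu'] at e1
  exact_mod_cast e1.trans e2.symm

theorem GL_exists {lam α κ a C₁ C₂ : ℝ} (hα : 0 < α) (hα1 : α ≤ 1) (hκ : 0 < κ)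
    (ha : 0 ≤ a) (hC₁ : 1 ≤ C₁) (hC₂ : 0 ≤ C₂) {n₀ : ℕ} (hn : 1 ≤ n₀) {E : ℕ → Pt → ℝ}
    (hE : ∀ n, Sm (E n)) (he : Band C₁ C₂ n₀ fun n => fc (E n)) {θ₀ : Pt → ℝ} (hθ₀ : Sm θ₀) :
    ∃ T₀ > 0, ∃ θ, IsSol lam α κ (wts a n₀) E θ₀ T₀ θ := by
  have hB := adm_Bop lam a C₁ C₂ (α / 2) ha hC₁ hC₂ (by positivity) hn he
  obtain ⟨T₀, hT₀, z, hz0, hz1, hz2, hz3⟩ := csol_exists (β := α / 2) (by positivity)
    (by linarith) hα1 hκ hB (RD_fc hθ₀) (fun k => fc_herm θ₀ k)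
  exact ⟨T₀, hT₀, _, isSol_of_coef hα hα1 ha hC₁ hC₂ hn hE he hT₀ hθ₀ hz0 hz1 hz2 hz3⟩

/-- TARGET -/
theorem maximal_solution {lam α κ a C₁ C₂ Tb : ℝ} (hα : 0 < α) (hα1 : α ≤ 1) (hκ : 0 < κ)
    (ha : 0 ≤ a) (hC₁ : 1 ≤ C₁) (hC₂ : 0 ≤ C₂) {n₀ : ℕ} (hn : 1 ≤ n₀) {E : ℕ → Pt → ℝ}
    (hE : ∀ n, Sm (E n)) (he : Band C₁ C₂ n₀ fun n => fc (E n)) {θ₀ : Pt → ℝ} (hθ₀ : Sm θ₀)
    (hbd : ∀ T θ, IsSol lam α κ (wts a n₀) E θ₀ T θ → T ≤ Tb) :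
    ∃ Tst > 0, Tst ≤ Tb ∧ ∃ θ, IsSol lam α κ (wts a n₀) E θ₀ Tst θ ∧
      ∀ T θ', IsSol lam α κ (wts a n₀) E θ₀ T θ' → T ≤ Tst ∧ ∀ t ∈ Ico 0 T, θ' t = θ t := by
  classical
  obtain ⟨T₀, hT₀, θ1, hθ1⟩ := GL_exists (lam := lam) hα hα1 hκ ha hC₁ hC₂ hn hE he hθ₀
  set S : Set ℝ := {T | ∃ θ, IsSol lam α κ (wts a n₀) E θ₀ T θ} with hS
  have hSb : BddAbove S := ⟨Tb, fun T hT => by
    obtain ⟨θ, hθ⟩ := hT
    exact hbd T θ hθ⟩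
  have hSne : S.Nonempty := ⟨T₀, θ1, hθ1⟩
  have hT₀le : T₀ ≤ sSup S := le_csSup hSb ⟨θ1, hθ1⟩
  let θs : ℝ → Pt → ℝ := fun t =>
    if h : ∃ p : ℝ × (ℝ → Pt → ℝ), t < p.1 ∧ IsSol lam α κ (wts a n₀) E θ₀ p.1 p.2 then
      h.choose.2 t else θ₀
  have hθs : ∀ T' θ', IsSol lam α κ (wts a n₀) E θ₀ T' θ' → ∀ t, 0 ≤ t → t < T' →
      θs t = θ' t := by
    intro T' θ' h' t ht0 htT
    have hex : ∃ p : ℝ × (ℝ → Pt → ℝ), t < p.1 ∧ IsSol lam α κ (wts a n₀) E θ₀ p.1 p.2 :=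
      ⟨(T', θ'), htT, h'⟩
    have e : θs t = hex.choose.2 t := dif_pos hex
    rw [e]
    exact GL_unique hα hα1 hκ ha hC₁ hC₂ hn hE he hex.choose_spec.2 h' ht0
      hex.choose_spec.1 htT
  have hpick : ∀ t, t < sSup S → ∃ T' θ', t < T' ∧ IsSol lam α κ (wts a n₀) E θ₀ T' θ' := by
    intro t ht
    obtain ⟨T', ⟨θ', hθ'⟩, hlt⟩ := exists_lt_of_lt_csSup hSne ht
    exact ⟨T', θ', hlt, hθ'⟩
  refine ⟨sSup S, hT₀.trans_le hT₀le, csSup_le hSne (fun T hT => ?_), θs, ?_, ?_⟩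
  · obtain ⟨θ, hθ⟩ := hT
    exact hbd T θ hθ
  · refine ⟨?_, ?_, ?_, ?_, ?_⟩
    · rw [hθs T₀ θ1 hθ1 0 le_rfl hT₀]
      exact hθ1.init
    · intro t ht
      obtain ⟨T', θ', hlt, hθ'⟩ := hpick t ht.2
      rw [hθs T' θ' hθ' t ht.1 hlt]
      exact hθ'.smooth t ⟨ht.1, hlt⟩
    · intro t ht
      obtain ⟨T', θ', hlt, hθ'⟩ := hpick t ht.2
      rw [hθs T' θ' hθ' t ht.1 hlt]
      exact hθ'.per t ⟨ht.1, hlt⟩
    · intro j p hp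
      obtain ⟨T', θ', hlt, hθ'⟩ := hpick p.1 hp.1.2
      have hc : ContinuousWithinAt (fun p : ℝ × Pt => iteratedFDeriv ℝ j (θ' p.1) p.2)
          (Ico 0 T' ×ˢ univ) p := hθ'.cont j p ⟨⟨hp.1.1, hlt⟩, mem_univ _⟩
      have hmem : Ico 0 T' ×ˢ (univ : Set Pt) ∈ 𝓝[Ico 0 (sSup S) ×ˢ (univ : Set Pt)] p := by
        rw [mem_nhdsWithin]
        refine ⟨Iio T' ×ˢ univ, isOpen_Iio.prod isOpen_univ, ⟨hlt, mem_univ _⟩, ?_⟩
        rintro q ⟨hq1, hq2⟩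
        exact ⟨⟨hq2.1.1, hq1.1⟩, mem_univ _⟩
      have hc2 : ContinuousWithinAt (fun p : ℝ × Pt => iteratedFDeriv ℝ j (θ' p.1) p.2)
          (Ico 0 (sSup S) ×ˢ univ) p := hc.mono_of_mem_nhdsWithin hmem
      refine hc2.congr_of_eventuallyEq ?_ ?_
      · filter_upwards [hmem] with q hq
        rw [hθs T' θ' hθ' q.1 hq.1.1 hq.1.2]
      · rw [hθs T' θ' hθ' p.1 hp.1.1 hlt]
    · intro t ht x
      obtain ⟨T', θ', hlt, hθ'⟩ := hpick t ht.2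
      rw [hθs T' θ' hθ' t ht.1.le hlt]
      have hd := hθ'.eqn t ⟨ht.1, hlt⟩ x
      refine hd.congr_of_eventuallyEq ?_
      filter_upwards [Ioo_mem_nhds ht.1 hlt] with s hs
      rw [hθs T' θ' hθ' s hs.1.le hs.2]
  · intro T θ' hθ'
    exact ⟨le_csSup hSb ⟨θ', hθ'⟩, fun t ht => (hθs T θ' hθ' t ht.1 ht.2).symm⟩

end H706.JGL

namespace H706

alias maximal_solution := JGL.maximal_solution

end H706
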