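import Pool.Agent.Helper706_SQG.Defs2
import Pool.Agent.Helper706_SQG.FA

/-!
JOB L4 (MP_96bed6_an, helper706).  Existence of the Galerkin solutions.

PROOF.  A quadratic ODE on the finite dimensional space `S → ℂ`: for `z` supported in `S` (extension by
zero) `nl2 (B z) z k = ∑_{l∈S} cr k l (B z)(k-l) z_l` and every `(B z) j` is a finite linear combination
of the coefficients (`Adm.row`). Cut it off: `F x = χ(|x|²) rhs(x)` with `χ` smooth, `χ = 1` on
`[0,R]`, `χ = 0` on `[2R,∞)`, `R = |x₀|² + 1`; compactly supported, smooth, Lipschitz, so it has a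
solution on `[0,T]` by Picard-Lindelöf. By uniqueness the solution stays Hermitian
(`t ↦ conj z_{-k}(t)` solves the same system, `Adm.herm`-type symmetry: from `Adm.herm` and linearity
(`row`) one gets `B (k ↦ conj z(-k)) = k ↦ conj (B z (-k))` for ALL `z`: write `z = u + i v` with `u, v`
Hermitian). For Hermitian `z`: `d/dt ∑|z_k|² = 2χ Re ∑ conj(z_k) rhs_k ≤ 0`, because
`Re ∑_{k,l∈S} cr k l (Bz)(k-l) z_l conj(z_k) = 0` (exchange `k`,`l`), so `|x|² ≤ |x₀|²` and `χ = 1` along
the solution. A complete model of this argument (other equation) is in the starting library,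
`Pool/Agent/R211/BQ/Ode.lean`, `En.lean`, `Brw.lean`.
-/

set_option autoImplicit false
open Set Filter Topology MeasureTheory
open scoped ComplexConjugate ContDiff NNReal

namespace H706.JL4

/-- Coefficients at the frequencies in a finite set. -/
abbrev GX (S : Finset Fr) := ↥S → ℂ

/-- The extension by zero. -/
noncomputable def gext (S : Finset Fr) (x : GX S) : Fr → ℂ :=
  fun k => if h : k ∈ S then x ⟨k, h⟩ else 0

/-- The Hermitian part of the extension by zero. -/
noncomputable def ghz (S : Finset Fr) (x : GX S) : Fr → ℂ :=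
  fun l => (gext S x l + conj (gext S x (-l))) / 2

/-- The squared norm. -/
noncomputable def gen (S : Finset Fr) (x : GX S) : ℝ := ∑ k, ((x k).re ^ 2 + (x k).im ^ 2)

/-- The cut-off. -/
noncomputable def gchi (S : Finset Fr) (R : ℝ) (x : GX S) : ℝ :=
  Real.smoothTransition (2 - gen S x / R)

/-- The vector field with a cut-off. -/
noncomputable def gF (α κ : ℝ) (B : (Fr → ℂ) → Fr → ℂ) (S : Finset Fr) (R : ℝ) (x : GX S) : GX S :=
  fun k => (gchi S R x : ℂ) * rhs α κ B (ghz S x) k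

lemma gext_coe {S : Finset Fr} (x : GX S) (k : ↥S) : gext S x k = x k := by
  unfold gext
  rw [dif_pos k.2]

lemma gext_not {S : Finset Fr} (x : GX S) {k : Fr} (hk : k ∉ S) : gext S x k = 0 := by
  unfold gext
  rw [dif_neg hk]

lemma ghz_not {S : Finset Fr} (hS : ∀ k ∈ S, -k ∈ S) (x : GX S) {k : Fr} (hk : k ∉ S) :
    ghz S x k = 0 := by
  unfold ghz
  rw [gext_not x hk, gext_not x (fun h => hk (by simpa using hS _ h)), map_zero]
  simp

lemma ghz_herm {S : Finset Fr} (x : GX S) : Herm (ghz S x) := by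
  intro k
  unfold ghz
  rw [neg_neg, map_div₀, map_add, Complex.conj_conj, map_ofNat, add_comm]

lemma ghz_eq {S : Finset Fr} {x : GX S} (h : Herm (gext S x)) : ghz S x = gext S x := by
  funext l
  unfold ghz
  rw [h l, Complex.conj_conj]
  ring

lemma nl2_sum {S : Finset Fr} {φ z : Fr → ℂ} (hz : ∀ k ∉ S, z k = 0) (k : Fr) :
    nl2 φ z k = ∑ l ∈ S, (cr k l : ℂ) * φ (k - l) * z l := by
  unfold nl2
  exact tsum_eq_sum fun l hl => by rw [hz l hl, mul_zero]

lemma nl2_herm {φ z : Fr → ℂ} (hφ : Herm φ) (hz : Herm z) (k : Fr) :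
    nl2 φ z (-k) = conj (nl2 φ z k) := by
  unfold nl2
  rw [Complex.conj_tsum, ← (Equiv.neg Fr).tsum_eq]
  refine tsum_congr fun l => ?_
  have h1 : -k - -l = -(k - l) := by abel
  have h2 : cr (-k) (-l) = cr k l := by unfold cr; simp
  rw [Equiv.neg_apply, h1, hφ, hz, h2]
  simp

lemma len_neg (k : Fr) : len (-k) = len k := by
  unfold len
  simp

lemma rhs_herm {α β κ : ℝ} {B : (Fr → ℂ) → Fr → ℂ} (hB : Adm β B) {z : Fr → ℂ} (hz : Herm z) :
    Herm (rhs α κ B z) := by
  intro k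
  unfold rhs
  rw [nl2_herm (hB.herm z hz) hz, hz k, len_neg]
  simp only [map_sub, map_mul, map_neg, Complex.conj_ofReal]

section smooth

variable {S : Finset Fr}

lemma gext_contDiff (l : Fr) : ContDiff ℝ ∞ (fun x : GX S => gext S x l) := by
  unfold gext
  by_cases h : l ∈ S
  · simp only [dif_pos h]
    fun_prop
  · simp only [dif_neg h]
    exact contDiff_const

lemma ghz_contDiff (l : Fr) : ContDiff ℝ ∞ (fun x : GX S => ghz S x l) := by
  unfold ghz
  exact ((gext_contDiff l).add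
    (Complex.conjCLE.toContinuousLinearMap.contDiff.comp (gext_contDiff (-l)))).div_const 2

lemma gen_contDiff : ContDiff ℝ ∞ (gen S) := by
  unfold gen
  refine ContDiff.sum fun k _ => ?_
  have h : ContDiff ℝ ∞ (fun x : GX S => x k) := by fun_prop
  exact ((Complex.reCLM.contDiff.comp h).pow 2).add ((Complex.imCLM.contDiff.comp h).pow 2)

lemma gchi_contDiff (R : ℝ) : ContDiff ℝ ∞ (gchi S R) := by
  unfold gchi
  refine Real.smoothTransition.contDiff.comp ?_
  exact contDiff_const.sub (gen_contDiff.div_const R)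

lemma gF_contDiff {α β κ : ℝ} {B : (Fr → ℂ) → Fr → ℂ} (hB : Adm β B) (hS : ∀ k ∈ S, -k ∈ S)
    (R : ℝ) : ContDiff ℝ ∞ (gF α κ B S R) := by
  have hc : ContDiff ℝ ∞ fun x : GX S => (gchi S R x : ℂ) :=
    Complex.ofRealCLM.contDiff.comp (gchi_contDiff R)
  have hBc : ∀ j, ContDiff ℝ ∞ fun x : GX S => B (ghz S x) j := by
    intro j
    obtain ⟨S', b, hb⟩ := hB.row j
    simp only [hb]
    exact ContDiff.sum fun l _ => contDiff_const.mul (ghz_contDiff l)
  refine contDiff_pi.2 fun k => hc.mul ?_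
  unfold rhs
  refine (contDiff_const.mul (ghz_contDiff _)).sub ?_
  have h1 : (fun x : GX S => nl2 (B (ghz S x)) (ghz S x) k) =
      fun x : GX S => ∑ l ∈ S, (cr k l : ℂ) * B (ghz S x) (k - l) * ghz S x l := by
    funext x
    exact nl2_sum (fun l hl => ghz_not hS x hl) k
  rw [h1]
  exact ContDiff.sum fun l _ => (contDiff_const.mul (hBc _)).mul (ghz_contDiff l)

lemma gen_nonneg (x : GX S) : 0 ≤ gen S x := Finset.sum_nonneg fun k _ => by positivity

lemma norm_sq_le_gen (x : GX S) : ‖x‖ ^ 2 ≤ gen S x := by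
  have h0 := gen_nonneg x
  have h1 : ‖x‖ ≤ Real.sqrt (gen S x) := by
    rw [pi_norm_le_iff_of_nonneg (Real.sqrt_nonneg _)]
    intro k
    refine Real.le_sqrt_of_sq_le ?_
    have h2 : ‖x k‖ ^ 2 = (x k).re ^ 2 + (x k).im ^ 2 := by
      rw [Complex.sq_norm, Complex.normSq_apply]
      ring
    rw [h2]
    exact Finset.single_le_sum (f := fun k => (x k).re ^ 2 + (x k).im ^ 2)
      (fun k _ => by positivity) (Finset.mem_univ k)
  calc ‖x‖ ^ 2 ≤ Real.sqrt (gen S x) ^ 2 := by gcongr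
    _ = gen S x := Real.sq_sqrt h0

lemma gF_support (α κ : ℝ) (B : (Fr → ℂ) → Fr → ℂ) {R : ℝ} (hR : 0 < R) :
    HasCompactSupport (gF α κ B S R) := by
  refine HasCompactSupport.intro (isCompact_closedBall 0 (Real.sqrt (2 * R))) fun x hx => ?_
  rw [mem_closedBall_zero_iff, not_le] at hx
  have h1 : 2 * R < gen S x := by
    have h2 : Real.sqrt (2 * R) ^ 2 = 2 * R := Real.sq_sqrt (by positivity)
    refine lt_of_lt_of_le ?_ (norm_sq_le_gen x)
    rw [← h2]
    gcongr
  have h3 : gchi S R x = 0 := by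
    unfold gchi
    refine Real.smoothTransition.zero_of_nonpos ?_
    have : 2 ≤ gen S x / R := by
      rw [le_div_iff₀ hR]
      exact h1.le
    linarith
  unfold gF
  rw [h3]
  simp only [Complex.ofReal_zero, zero_mul]
  rfl

/-- Solutions of the truncated equation. -/
lemma exists_gsol {α β κ : ℝ} {B : (Fr → ℂ) → Fr → ℂ} (hB : Adm β B) (hS : ∀ k ∈ S, -k ∈ S)
    {R : ℝ} (hR : 0 < R) {T : ℝ} (hT : 0 ≤ T) (x0 : GX S) :
    ∃ x : ℝ → GX S, x 0 = x0 ∧
      ∀ t ∈ Icc 0 T, HasDerivWithinAt x (gF α κ B S R (x t)) (Icc 0 T) t := by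
  obtain ⟨K, hK⟩ : ∃ K : ℝ≥0, LipschitzWith K (gF α κ B S R) :=
    ContDiff.lipschitzWith_of_hasCompactSupport (gF_support α κ B hR) (gF_contDiff hB hS R)
      (by simp)
  obtain ⟨C, hC⟩ := (gF_support (S := S) α κ B hR).exists_bound_of_continuous
    (gF_contDiff (α := α) (κ := κ) hB hS R).continuous
  have hC0 : 0 ≤ C := (norm_nonneg _).trans (hC 0)
  have hp : IsPicardLindelof (fun _ : ℝ => gF α κ B S R) (tmin := 0) (tmax := T)
      ⟨0, le_rfl, hT⟩ x0 (⟨C, hC0⟩ * ⟨T, hT⟩) 0 ⟨C, hC0⟩ K := by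
    refine IsPicardLindelof.of_time_independent (fun x _ => hC x) (hK.lipschitzOnWith) ?_
    simp only [sub_zero, sub_self, NNReal.coe_zero]
    rw [max_eq_left hT]
    exact (NNReal.coe_mul ⟨C, hC0⟩ ⟨T, hT⟩).ge
  exact hp.exists_eq_forall_mem_Icc_hasDerivWithinAt₀

lemma g_right_deriv {E : Type*} [NormedAddCommGroup E] [NormedSpace ℝ E] {f : ℝ → E} {f' : E}
    {T t : ℝ} (h : HasDerivWithinAt f f' (Icc 0 T) t) (ht : t ∈ Ico 0 T) :
    HasDerivWithinAt f f' (Ici t) t :=
  h.mono_of_mem_nhdsWithin (Icc_mem_nhdsGE_of_mem ht)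

end smooth

section herm

variable {S : Finset Fr}

/-- The solutions are Hermitian. -/
lemma gsol_herm {α β κ : ℝ} {B : (Fr → ℂ) → Fr → ℂ} (hB : Adm β B) (hS : ∀ k ∈ S, -k ∈ S)
    {R : ℝ} {T : ℝ} {x : ℝ → GX S} (h0 : Herm (gext S (x 0)))
    (hx : ∀ t ∈ Icc 0 T, HasDerivWithinAt x (gF α κ B S R (x t)) (Icc 0 T) t) :
    ∀ t ∈ Icc 0 T, Herm (gext S (x t)) := by
  have key : ∀ k : Fr, ∀ hk : k ∈ S, ∀ t ∈ Icc 0 T,
      x t ⟨-k, hS k hk⟩ - conj (x t ⟨k, hk⟩) = 0 := by
    intro k hk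
    have hd : ∀ t ∈ Icc 0 T, HasDerivWithinAt (fun s => x s ⟨-k, hS k hk⟩ - conj (x s ⟨k, hk⟩)) 0
        (Icc 0 T) t := by
      intro t ht
      have h1 := hasDerivWithinAt_pi.1 (hx t ht)
      have h2 := h1 ⟨-k, hS k hk⟩
      have h3 : HasDerivWithinAt (fun s => conj (x s ⟨k, hk⟩))
          (conj (gF α κ B S R (x t) ⟨k, hk⟩)) (Icc 0 T) t :=
        Complex.conjCLE.toContinuousLinearMap.hasFDerivAt.comp_hasDerivWithinAt t (h1 ⟨k, hk⟩)
      refine (h2.sub h3).congr_deriv ?_
      unfold gF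
      simp only [map_mul, Complex.conj_ofReal]
      rw [rhs_herm hB (ghz_herm (x t)) k, sub_self]
    have hconst := constant_of_has_deriv_right_zero (fun t ht => (hd t ht).continuousWithinAt)
      (fun t ht => g_right_deriv (hd t (Ico_subset_Icc_self ht)) ht)
    intro t ht
    rw [hconst t ht]
    have h4 := h0 k
    unfold gext at h4
    rw [dif_pos (hS k hk), dif_pos hk] at h4
    rw [h4, sub_self]
  intro t ht k
  by_cases hk : k ∈ S
  · have h1 := key k hk t ht
    unfold gext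
    rw [dif_pos (hS k hk), dif_pos hk]
    exact sub_eq_zero.1 h1
  · rw [gext_not _ hk, gext_not _ (fun h => hk (by simpa using hS _ h)), map_zero]

/-- The transport term is skew. -/
lemma g_skew {φ : Fr → ℂ} (hφ : Herm φ) {z : Fr → ℂ} (hz : ∀ k ∉ S, z k = 0) :
    (∑ k ∈ S, conj (z k) * nl2 φ z k).re = 0 := by
  set A := ∑ k ∈ S, conj (z k) * nl2 φ z k with hA
  have h1 : A = ∑ k ∈ S, ∑ l ∈ S, conj (z k) * ((cr k l : ℂ) * φ (k - l) * z l) := by
    rw [hA]
    refine Finset.sum_congr rfl fun k _ => ?_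
    rw [nl2_sum hz, Finset.mul_sum]
  have h2 : conj A = -A := by
    calc conj A = ∑ k ∈ S, ∑ l ∈ S, conj (conj (z k) * ((cr k l : ℂ) * φ (k - l) * z l)) := by
          rw [h1, map_sum]
          exact Finset.sum_congr rfl fun k _ => map_sum _ _ _
      _ = ∑ l ∈ S, ∑ k ∈ S, conj (conj (z k) * ((cr k l : ℂ) * φ (k - l) * z l)) :=
          Finset.sum_comm
      _ = -A := by
          rw [h1, ← Finset.sum_neg_distrib]
          refine Finset.sum_congr rfl fun l _ => ?_
          rw [← Finset.sum_neg_distrib]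
          refine Finset.sum_congr rfl fun k _ => ?_
          have h3 : cr k l = - cr l k := by unfold cr; ring
          have h4 : conj (φ (k - l)) = φ (l - k) := by
            rw [← hφ]
            congr 1
            abel
          simp only [map_mul, Complex.conj_conj, map_intCast, h4]
          rw [h3]
          push_cast
          ring
  have h3 := congrArg Complex.re h2
  rw [Complex.conj_re, Complex.neg_re] at h3
  linarith

lemma gen_eq (x : GX S) : gen S x = ∑ k : ↥S, ‖x k‖ ^ 2 := by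
  unfold gen
  refine Finset.sum_congr rfl fun k _ => ?_
  rw [Complex.sq_norm, Complex.normSq_apply]
  ring

/-- The derivative of the squared norm. -/
lemma gen_deriv {β : ℝ → GX S} {b : GX S} {s : Set ℝ} {t : ℝ}
    (h : HasDerivWithinAt β b s t) :
    HasDerivWithinAt (fun r => gen S (β r)) (∑ k : ↥S, 2 * (conj (β t k) * b k).re) s t := by
  simp only [gen_eq]
  rw [hasDerivWithinAt_pi] at h
  refine HasDerivWithinAt.fun_sum fun k _ => ?_
  refine (h k).norm_sq.congr_deriv ?_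
  rw [Complex.inner]
  congr 2
  exact mul_comm _ _

lemma gsol_gen {α β κ : ℝ} (hκ : 0 ≤ κ) {B : (Fr → ℂ) → Fr → ℂ} (hB : Adm β B)
    (hS : ∀ k ∈ S, -k ∈ S) {R : ℝ} {T : ℝ} {x : ℝ → GX S} (h0 : Herm (gext S (x 0)))
    (hx : ∀ t ∈ Icc 0 T, HasDerivWithinAt x (gF α κ B S R (x t)) (Icc 0 T) t) :
    ∀ t ∈ Icc 0 T, gen S (x t) ≤ gen S (x 0) := by
  have hh := gsol_herm hB hS h0 hx
  have hd : ∀ t ∈ Icc 0 T, ∃ D : ℝ, HasDerivWithinAt (fun r => gen S (x r)) D (Icc 0 T) t ∧
      D ≤ 0 := by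
    intro t ht
    refine ⟨_, gen_deriv (hx t ht), ?_⟩
    set z := gext S (x t) with hz
    have hgz : ghz S (x t) = z := ghz_eq (hh t ht)
    have hzS : ∀ k ∉ S, z k = 0 := fun k hk => gext_not _ hk
    have h1 : ∀ k : ↥S, 2 * (conj (x t k) * gF α κ B S R (x t) k).re =
        2 * gchi S R (x t) * (-(κ * len k ^ (2 * α)) * ‖z k‖ ^ 2 -
          (conj (z k) * nl2 (B z) z k).re) := by
      intro k
      have e1 : x t k = z k := (gext_coe _ _).symm
      unfold gF rhs
      rw [hgz, e1]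
      have h2 : conj (z k) * ((gchi S R (x t) : ℂ) *
          (-((κ * len k ^ (2 * α) : ℝ) : ℂ) * z k - nl2 (B z) z k)) =
          ((gchi S R (x t) : ℝ) : ℂ) * (((-(κ * len k ^ (2 * α)) * ‖z k‖ ^ 2 : ℝ) : ℂ) -
            conj (z k) * nl2 (B z) z k) := by
        push_cast
        rw [← Complex.conj_mul']
        ring
      rw [h2, Complex.re_ofReal_mul, Complex.sub_re, Complex.ofReal_re]
      ring
    rw [Finset.sum_congr rfl (fun k _ => h1 k), ← Finset.mul_sum, Finset.sum_sub_distrib]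
    have h3 : ∑ k : ↥S, (conj (z k) * nl2 (B z) z k).re = 0 := by
      rw [Finset.sum_coe_sort S (fun k => (conj (z k) * nl2 (B z) z k).re), ← Complex.re_sum]
      exact g_skew (hB.herm z (hh t ht)) hzS
    rw [h3, sub_zero]
    refine mul_nonpos_of_nonneg_of_nonpos (mul_nonneg zero_le_two (Real.smoothTransition.nonneg _))
      (Finset.sum_nonpos fun k _ => ?_)
    have h4 : 0 ≤ len (k : Fr) := Real.sqrt_nonneg _
    have h5 : 0 ≤ κ * len (k : Fr) ^ (2 * α) * ‖z k‖ ^ 2 := by positivity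
    linarith
  choose! D hD1 hD2 using hd
  exact fun t ht => image_le_of_deriv_right_le_deriv_boundary (f := fun r => gen S (x r))
    (f' := D) (a := 0) (b := T) (B := fun _ => gen S (x 0)) (B' := fun _ => 0)
    (fun t ht => (hD1 t ht).continuousWithinAt)
    (fun t ht => g_right_deriv (hD1 t (Ico_subset_Icc_self ht)) ht) le_rfl continuousOn_const
    (fun t _ => hasDerivWithinAt_const _ _ _) (fun t ht => hD2 t (Ico_subset_Icc_self ht)) ht

end herm

/-- TARGET -/
theorem exists_gal {α β κ : ℝ} (hκ : 0 ≤ κ) {B : (Fr → ℂ) → Fr → ℂ}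
    (hB : Adm β B) {S : Finset Fr} (hS : ∀ k ∈ S, -k ∈ S) {z₀ : Fr → ℂ} (hz₀ : Herm z₀) {T : ℝ}
    (hT : 0 < T) : ∃ z, Gal α κ B S T z₀ z := by
  set x0 : GX S := fun k => z₀ k with hx0
  set R : ℝ := gen S x0 + 1 with hR
  have hR0 : 0 < R := by
    have := gen_nonneg x0
    linarith
  obtain ⟨x, hx1, hx2⟩ := exists_gsol (α := α) (κ := κ) hB hS hR0 hT.le x0
  have h0 : Herm (gext S (x 0)) := by
    rw [hx1]
    intro k
    by_cases hk : k ∈ S
    · unfold gext
      rw [dif_pos (hS k hk), dif_pos hk]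
      exact hz₀ k
    · rw [gext_not _ hk, gext_not _ (fun h => hk (by simpa using hS _ h)), map_zero]
  have hh := gsol_herm hB hS h0 hx2
  have hg := gsol_gen hκ hB hS h0 hx2
  refine ⟨fun t => gext S (x t), fun t k hk => gext_not _ hk, fun k hk => ?_, hh,
    fun t ht k hk => ?_⟩
  · show gext S (x 0) k = z₀ k
    rw [hx1]
    exact gext_coe x0 ⟨k, hk⟩
  · have h1 := hasDerivWithinAt_pi.1 (hx2 t ht) ⟨k, hk⟩
    have h2 : gchi S R (x t) = 1 := by
      unfold gchi
      refine Real.smoothTransition.one_of_one_le ?_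
      have h3 : gen S (x t) / R ≤ 1 := by
        rw [div_le_one hR0]
        have := hg t ht
        rw [hx1] at this
        linarith
      linarith
    have h3 : gF α κ B S R (x t) ⟨k, hk⟩ = rhs α κ B (gext S (x t)) k := by
      unfold gF
      rw [h2, ghz_eq (hh t ht), Complex.ofReal_one, one_mul]
    rw [h3] at h1
    refine h1.congr_of_mem (fun s _ => ?_) ht
    exact gext_coe (x s) ⟨k, hk⟩

end H706.JL4

namespace H706

alias exists_gal := JL4.exists_gal

end H706
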