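import Pool.Agent.Helper706_SQG.Defs2

/-!
JOB SC (MP_96bed6_an, helper706).  Amplitude scaling of solutions.

PROOF.  `θᴹ(t,x) = M θ(M t, x)`. All operators in `IsSol` are homogeneous of degree one in `f`:
`fc (M f) = M fc f`, hence `riesz1, riesz2, fracLap`; `opA w E (M f) = M opA w E f` (`tsum_mul_left`);
`d1, d2` (`deriv_const_mul_field`). So `vel1, vel2` are homogeneous, and
`∂ₜθᴹ = M² (∂ₜθ)(M t) = -(uᴹ·∇θᴹ) - (M κ) Λ^{2α} θᴹ`. The other conditions: composition with `t ↦ M t` and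
multiplication by the constant `M`.
-/

set_option autoImplicit false
open Set Filter Topology MeasureTheory
open scoped ComplexConjugate ContDiff

namespace H706.JSC

theorem ip_cmul (M : ℝ) (e f : Pt → ℝ) : ip e (fun x => M * f x) = M * ip e f := by
  unfold ip
  rw [← integral_const_mul]
  congr 1
  ext x
  ring

theorem fc_cmul (M : ℝ) (f : Pt → ℝ) (k : Fr) : fc (fun x => M * f x) k = (M : ℂ) * fc f k := by
  unfold fc
  have h : ∀ x : Pt, ((M * f x : ℝ) : ℂ) * ex (-k) x = (M : ℂ) * ((f x : ℂ) * ex (-k) x) := by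
    intro x
    push_cast
    ring
  simp_rw [h]
  rw [integral_const_mul]
  ring

theorem mult_cmul (M : ℝ) (m : Fr → ℂ) (f : Pt → ℝ) (x : Pt) :
    mult m (fun x => M * f x) x = M * mult m f x := by
  unfold mult
  have h : ∀ k : Fr, m k * fc (fun x => M * f x) k * ex k x =
      (M : ℂ) * (m k * fc f k * ex k x) := by
    intro k
    rw [fc_cmul]
    ring
  simp_rw [h]
  rw [tsum_mul_left, Complex.re_ofReal_mul]

theorem d1_cmul (M : ℝ) (f : Pt → ℝ) (x : Pt) : d1 (fun x => M * f x) x = M * d1 f x := by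
  unfold d1
  rw [deriv_const_mul_field]

theorem d2_cmul (M : ℝ) (f : Pt → ℝ) (x : Pt) : d2 (fun x => M * f x) x = M * d2 f x := by
  unfold d2
  rw [deriv_const_mul_field]

theorem opA_cmul (M : ℝ) (w : ℕ → ℝ) (E : ℕ → Pt → ℝ) (f : Pt → ℝ) :
    opA w E (fun x => M * f x) = fun x => M * opA w E f x := by
  funext x
  unfold opA
  rw [← tsum_mul_left]
  apply tsum_congr
  intro n
  rw [ip_cmul]
  ring

theorem vel1_cmul (M lam : ℝ) (w : ℕ → ℝ) (E : ℕ → Pt → ℝ) (f : Pt → ℝ) (x : Pt) :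
    vel1 lam w E (fun x => M * f x) x = M * vel1 lam w E f x := by
  unfold vel1 riesz2
  rw [mult_cmul, opA_cmul, d2_cmul]
  ring

theorem vel2_cmul (M lam : ℝ) (w : ℕ → ℝ) (E : ℕ → Pt → ℝ) (f : Pt → ℝ) (x : Pt) :
    vel2 lam w E (fun x => M * f x) x = M * vel2 lam w E f x := by
  unfold vel2 riesz1
  rw [mult_cmul, opA_cmul, d1_cmul]
  ring

/-- TARGET -/
theorem scale_isSol {lam α κ T M : ℝ} (hM : 0 < M) {w : ℕ → ℝ} {E : ℕ → Pt → ℝ} {θ₀ : Pt → ℝ}
    {θ : ℝ → Pt → ℝ} (h : IsSol lam α κ w E θ₀ T θ) :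
    IsSol lam α (M * κ) w E (fun x => M * θ₀ x) (T / M) (fun t x => M * θ (M * t) x) := by
  have hI : ∀ t ∈ Ico 0 (T / M), M * t ∈ Ico 0 T := by
    rintro t ⟨h0, h1⟩
    rw [lt_div_iff₀ hM] at h1
    exact ⟨by positivity, by linarith⟩
  have hI' : ∀ t ∈ Ioo 0 (T / M), M * t ∈ Ioo 0 T := by
    rintro t ⟨h0, h1⟩
    rw [lt_div_iff₀ hM] at h1
    exact ⟨by positivity, by linarith⟩
  constructor
  · funext x
    simp only [mul_zero, h.init]
  · intro t ht
    exact contDiff_const.mul (h.smooth _ (hI t ht))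
  · intro t ht x
    have := h.per _ (hI t ht) x
    exact ⟨congrArg (M * ·) this.1, congrArg (M * ·) this.2⟩
  · intro j
    have h1 : ContinuousOn (fun p : ℝ × Pt => M • iteratedFDeriv ℝ j (θ (M * p.1)) p.2)
        (Ico 0 (T / M) ×ˢ univ) := by
      have h2 := h.cont j
      have h3 : ContinuousOn (fun p : ℝ × Pt => ((M * p.1, p.2) : ℝ × Pt))
          (Ico 0 (T / M) ×ˢ univ) := by
        apply Continuous.continuousOn
        fun_prop
      exact (h2.comp h3 (fun p hp => ⟨hI p.1 hp.1, mem_univ _⟩)).const_smul M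
    apply h1.congr
    rintro ⟨t, x⟩ ⟨ht, -⟩
    have h4 : ContDiffAt ℝ j (θ (M * t)) x :=
      ((h.smooth _ (hI t ht)).of_le (by exact_mod_cast le_top)).contDiffAt
    have h5 := iteratedFDeriv_const_smul_apply (𝕜 := ℝ) (a := M) h4
    exact h5
  · intro t ht x
    have h1 := h.eqn _ (hI' t ht) x
    have h2 : HasDerivAt (fun s : ℝ => M * s) M t := by
      simpa using (hasDerivAt_id t).const_mul M
    have h3 : HasDerivAt (fun s => θ (M * s) x)
        ((-(vel1 lam w E (θ (M * t)) x * d1 (θ (M * t)) x +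
          vel2 lam w E (θ (M * t)) x * d2 (θ (M * t)) x)
          - κ * fracLap (2 * α) (θ (M * t)) x) * M) t := HasDerivAt.comp t h1 h2
    have h4 := h3.const_mul M
    refine h4.congr_deriv ?_
    simp only [vel1_cmul, vel2_cmul, d1_cmul, d2_cmul]
    unfold fracLap
    rw [mult_cmul]
    ring

end H706.JSC

namespace H706

alias scale_isSol := JSC.scale_isSol

end H706
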