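import Pool.Agent.Helper706_SQG.Defs2
import Pool.Agent.Helper706_SQG.CV0

/-!
JOB SY (MP_96bed6_an, helper706).  Convergence, symmetry and nonnegativity of the operator `A`.

PROOF.  As for `opA_series`: each `fc (E n)` has finite support in `{2^(n+n₀) ≤ len k ≤ C₁ 2^(n+n₀)}`, at most
`C 4^(n+n₀)` points, values `≤ C₂/8^(n+n₀)`, so `|E n x| ≤ ∑ ‖fc (E n) k‖ ≤ C 2^(-(n+n₀))`. By `ip_eq`
(with `IsF_fc`), `ip (E n) f = (2π)² ∑_l conj (fc (E n) l) fc f l`, so `|ip (E n) f| ≤ C_N 2^{-N(n+n₀)}` for every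
`N`. So the series converge absolutely, uniformly in `x`, and may be integrated against the bounded
function `g` over `Qb`: `ip (opA f) g = ∑ w_n ip (E n) f ip (E n) g`; this is symmetric in `f, g`, and
`≥ 0` for `f = g` since `wts ≥ 0`.
-/

set_option autoImplicit false
open Set Filter Topology MeasureTheory
open scoped ComplexConjugate ContDiff

namespace H706.JSY

theorem opA_symm_norm_ex (k : Fr) (x : Pt) : ‖ex k x‖ = 1 := by
  unfold ex
  rw [Complex.norm_exp_ofReal_mul_I]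

theorem opA_symm_len_nonneg (k : Fr) : 0 ≤ len k := Real.sqrt_nonneg _

theorem opA_symm_br_pos (k : Fr) : 0 < br k := by
  unfold br
  linarith [opA_symm_len_nonneg k]

theorem opA_symm_M_pos (m : ℕ) : (0:ℝ) < 2 ^ m := by positivity

theorem opA_symm_one_le (m : ℕ) : (1:ℝ) ≤ 2 ^ m := one_le_pow₀ (by norm_num)

theorem opA_symm_C2 {C₁ C₂ : ℝ} {n₀ : ℕ} {E : ℕ → Pt → ℝ}
    (he : Band C₁ C₂ n₀ fun n => fc (E n)) : 0 ≤ C₂ := by
  have h := (norm_nonneg _).trans (he.size 0 0)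
  by_contra hC
  push Not at hC
  have : C₂ / ((2:ℝ) ^ (0 + n₀)) ^ 3 < 0 := div_neg_of_neg_of_pos hC (by positivity)
  linarith

theorem opA_symm_bdE {C₁ C₂ : ℝ} {n₀ : ℕ} {E : ℕ → Pt → ℝ} (hE : ∀ n, Sm (E n))
    (he : Band C₁ C₂ n₀ fun n => fc (E n)) (n : ℕ) (x : Pt) :
    |E n x| ≤ C₂ * (1 + |C₁|) ^ 4 * (2:ℝ) ^ (n + n₀) * ∑' k : Fr, (br k ^ 4)⁻¹ := by
  have hC2 := opA_symm_C2 he
  have hM := opA_symm_one_le (n + n₀)
  have hM0 := opA_symm_M_pos (n + n₀)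
  set M : ℝ := 2 ^ (n + n₀) with hMdef
  have h1 : (E n x : ℂ) = ∑' k, fc (E n) k * ex k x := (IsF_fc (hE n)).2 x
  have h2 : |E n x| = ‖(E n x : ℂ)‖ := by
    rw [Complex.norm_real, Real.norm_eq_abs]
  rw [h2, h1]
  have hterm : ∀ k, ‖fc (E n) k * ex k x‖ ≤ C₂ * (1 + |C₁|) ^ 4 * M * (br k ^ 4)⁻¹ := by
    intro k
    rw [norm_mul, opA_symm_norm_ex, mul_one]
    have hb := opA_symm_br_pos k
    by_cases hk : fc (E n) k = 0
    · rw [hk, norm_zero]
      positivity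
    · obtain ⟨h3, h4⟩ := he.supp n k hk
      have h5 : br k ≤ (1 + |C₁|) * M := by
        unfold br
        have : C₁ * M ≤ |C₁| * M := mul_le_mul_of_nonneg_right (le_abs_self _) hM0.le
        nlinarith
      have h6 : br k ^ 4 ≤ ((1 + |C₁|) * M) ^ 4 := pow_le_pow_left₀ hb.le h5 4
      have h7 := he.size n k
      have h8 : ‖fc (E n) k‖ * br k ^ 4 ≤ C₂ * (1 + |C₁|) ^ 4 * M := by
        calc ‖fc (E n) k‖ * br k ^ 4 ≤ (C₂ / M ^ 3) * (((1 + |C₁|) * M) ^ 4) := by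
              apply mul_le_mul h7 h6 (by positivity) (by positivity)
          _ = C₂ * (1 + |C₁|) ^ 4 * M := by
              field_simp
      rw [← div_eq_mul_inv, le_div_iff₀ (by positivity)]
      exact h8
  have hs : HasSum (fun k : Fr => C₂ * (1 + |C₁|) ^ 4 * M * (br k ^ 4)⁻¹)
      (C₂ * (1 + |C₁|) ^ 4 * M * ∑' k : Fr, (br k ^ 4)⁻¹) :=
    summable_br.hasSum.mul_left _
  exact tsum_of_norm_bounded hs hterm

theorem opA_symm_decay {C₁ C₂ : ℝ} {n₀ : ℕ} {E : ℕ → Pt → ℝ} (hE : ∀ n, Sm (E n))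
    (he : Band C₁ C₂ n₀ fun n => fc (E n)) {f : Pt → ℝ} (hf : Sm f) (N : ℕ) :
    ∃ C, 0 ≤ C ∧ ∀ n, |ip (E n) f| * ((2:ℝ) ^ (n + n₀)) ^ N ≤ C := by
  have hC2 := opA_symm_C2 he
  obtain ⟨D, hD⟩ := RD_fc hf (N + 4)
  have hD0 : 0 ≤ D := by
    have := hD 0
    have hb := opA_symm_br_pos 0
    exact le_trans (by positivity) this
  have hS0 : 0 ≤ ∑' k : Fr, (br k ^ 4)⁻¹ := tsum_nonneg fun k => by
    have := opA_symm_br_pos k
    positivity
  refine ⟨(2 * Real.pi) ^ 2 * (C₂ * D * ∑' k : Fr, (br k ^ 4)⁻¹), by positivity, ?_⟩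
  intro n
  have hM := opA_symm_one_le (n + n₀)
  have hM0 := opA_symm_M_pos (n + n₀)
  set M : ℝ := 2 ^ (n + n₀) with hMdef
  have h1 := ip_eq (IsF_fc (hE n)) (IsF_fc hf)
  have h2 : |ip (E n) f| = ‖((ip (E n) f : ℝ) : ℂ)‖ := by
    rw [Complex.norm_real, Real.norm_eq_abs]
  have hterm : ∀ l, ‖conj (fc (E n) l) * fc f l‖ ≤ (C₂ * D / M ^ N) * (br l ^ 4)⁻¹ := by
    intro l
    have hb := opA_symm_br_pos l
    rw [norm_mul, RCLike.norm_conj]
    by_cases hk : fc (E n) l = 0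
    · rw [hk, norm_zero, zero_mul]
      positivity
    · obtain ⟨h3, -⟩ := he.supp n l hk
      have h5 : M ≤ br l := by
        unfold br
        linarith
      have h6 : M ^ N ≤ br l ^ N := pow_le_pow_left₀ hM0.le h5 N
      have h7 : ‖fc (E n) l‖ ≤ C₂ := by
        refine (he.size n l).trans ?_
        apply div_le_self hC2
        exact one_le_pow₀ hM
      have h8 := hD l
      have h9 : ‖fc (E n) l‖ * ‖fc f l‖ * (M ^ N * br l ^ 4) ≤ C₂ * D := by
        calc ‖fc (E n) l‖ * ‖fc f l‖ * (M ^ N * br l ^ 4)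
            ≤ C₂ * ‖fc f l‖ * (br l ^ N * br l ^ 4) := by
              gcongr
          _ = C₂ * (br l ^ (N + 4) * ‖fc f l‖) := by
              rw [pow_add]; ring
          _ ≤ C₂ * D := by
              gcongr
      rw [div_mul_eq_mul_div, ← div_eq_mul_inv, div_div, le_div_iff₀ (by positivity)]
      calc ‖fc (E n) l‖ * ‖fc f l‖ * (br l ^ 4 * M ^ N)
          = ‖fc (E n) l‖ * ‖fc f l‖ * (M ^ N * br l ^ 4) := by ring
        _ ≤ _ := h9
  have hs : HasSum (fun k : Fr => (C₂ * D / M ^ N) * (br k ^ 4)⁻¹)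
      ((C₂ * D / M ^ N) * ∑' k : Fr, (br k ^ 4)⁻¹) :=
    summable_br.hasSum.mul_left _
  have h10 := tsum_of_norm_bounded hs hterm
  have h11 : |ip (E n) f| ≤ (2 * Real.pi) ^ 2 * ((C₂ * D / M ^ N) * ∑' k : Fr, (br k ^ 4)⁻¹) := by
    rw [h2, h1, norm_mul, Complex.norm_real, Real.norm_eq_abs, abs_of_nonneg (by positivity)]
    gcongr
  calc |ip (E n) f| * M ^ N
      ≤ (2 * Real.pi) ^ 2 * ((C₂ * D / M ^ N) * ∑' k : Fr, (br k ^ 4)⁻¹) * M ^ N := by
        gcongr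
    _ = (2 * Real.pi) ^ 2 * (C₂ * D * ∑' k : Fr, (br k ^ 4)⁻¹) := by
        field_simp

theorem opA_symm_wts_nonneg (a : ℝ) (n₀ n : ℕ) : 0 ≤ wts a n₀ n := by
  unfold wts om
  positivity

theorem opA_symm_wts_le {a : ℝ} (ha : 0 ≤ a) (n₀ n : ℕ) :
    wts a n₀ n ≤ ((2:ℝ) ^ (n + n₀)) ^ (⌈a⌉₊ + 3) := by
  have hM := opA_symm_one_le (n + n₀)
  unfold wts om
  rw [pow_add _ ⌈a⌉₊ 3]
  apply mul_le_mul_of_nonneg_right _ (by positivity)
  have h1 : ((n:ℝ) + n₀) ≤ (2:ℝ) ^ (n + n₀) := by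
    have := (Nat.lt_two_pow_self (n := n + n₀)).le
    exact_mod_cast this
  calc ((n:ℝ) + n₀) ^ a ≤ ((2:ℝ) ^ (n + n₀)) ^ a :=
        Real.rpow_le_rpow (by positivity) h1 ha
    _ ≤ ((2:ℝ) ^ (n + n₀)) ^ ((⌈a⌉₊ : ℕ) : ℝ) :=
        Real.rpow_le_rpow_of_exponent_le hM (Nat.le_ceil a)
    _ = _ := Real.rpow_natCast _ _

theorem opA_symm_bound {a C₁ C₂ : ℝ} (ha : 0 ≤ a) {n₀ : ℕ} {E : ℕ → Pt → ℝ}
    (hE : ∀ n, Sm (E n)) (he : Band C₁ C₂ n₀ fun n => fc (E n)) {f : Pt → ℝ} (hf : Sm f) :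
    ∃ K, 0 ≤ K ∧ ∀ n x, |wts a n₀ n * ip (E n) f * E n x| ≤ K * (1 / 2) ^ n := by
  have hC2 := opA_symm_C2 he
  obtain ⟨C, hC0, hC⟩ := opA_symm_decay hE he hf (⌈a⌉₊ + 5)
  have hS0 : 0 ≤ ∑' k : Fr, (br k ^ 4)⁻¹ := tsum_nonneg fun k => by
    have := opA_symm_br_pos k
    positivity
  set S := ∑' k : Fr, (br k ^ 4)⁻¹ with hS
  refine ⟨C * (C₂ * (1 + |C₁|) ^ 4 * S), by positivity, ?_⟩
  intro n x
  have hM := opA_symm_one_le (n + n₀)
  have hM0 := opA_symm_M_pos (n + n₀)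
  have h1 := opA_symm_wts_le ha n₀ n
  have h2 := opA_symm_bdE hE he n x
  have h3 := hC n
  have hw := opA_symm_wts_nonneg a n₀ n
  rw [abs_mul, abs_mul, abs_of_nonneg hw]
  have hM2 : (2:ℝ) ^ n ≤ 2 ^ (n + n₀) := pow_le_pow_right₀ (by norm_num) (by omega)
  set M : ℝ := 2 ^ (n + n₀) with hMdef
  have h4 : wts a n₀ n * |ip (E n) f| * |E n x| * M ≤
      C * (C₂ * (1 + |C₁|) ^ 4 * S) := by
    calc wts a n₀ n * |ip (E n) f| * |E n x| * M
        ≤ M ^ (⌈a⌉₊ + 3) * |ip (E n) f| * (C₂ * (1 + |C₁|) ^ 4 * M * S) * M := by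
          gcongr
      _ = (|ip (E n) f| * M ^ (⌈a⌉₊ + 5)) * (C₂ * (1 + |C₁|) ^ 4 * S) := by
          rw [pow_add, pow_add]; ring
      _ ≤ C * (C₂ * (1 + |C₁|) ^ 4 * S) := by
          gcongr
  have h5 : wts a n₀ n * |ip (E n) f| * |E n x| * 2 ^ n ≤ C * (C₂ * (1 + |C₁|) ^ 4 * S) := by
    refine le_trans ?_ h4
    gcongr
  rw [one_div, inv_pow, ← div_eq_mul_inv, le_div_iff₀ (by positivity)]
  exact h5

theorem opA_symm_intOn {h : Pt → ℝ} (hc : Continuous h) : IntegrableOn h Qb := by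
  have hK : IsCompact (Icc (-Real.pi) Real.pi ×ˢ Icc (-Real.pi) Real.pi : Set Pt) :=
    isCompact_Icc.prod isCompact_Icc
  apply (hc.continuousOn.integrableOn_compact hK).mono_set
  exact prod_mono Ioc_subset_Icc_self Ioc_subset_Icc_self

theorem opA_symm_ip {a C₁ C₂ : ℝ} (ha : 0 ≤ a) {n₀ : ℕ} {E : ℕ → Pt → ℝ}
    (hE : ∀ n, Sm (E n)) (he : Band C₁ C₂ n₀ fun n => fc (E n)) {f g : Pt → ℝ} (hf : Sm f)
    (hg : Sm g) :
    ip (opA (wts a n₀) E f) g = ∑' n, wts a n₀ n * ip (E n) f * ip (E n) g := by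
  obtain ⟨K, hK0, hK⟩ := opA_symm_bound ha hE he hf
  have hgc : Continuous g := hg.1.continuous
  have hEc : ∀ n, Continuous (E n) := fun n => (hE n).1.continuous
  set F : ℕ → Pt → ℝ := fun n x => wts a n₀ n * ip (E n) f * E n x * g x with hF
  have hFc : ∀ n, Continuous (F n) := fun n => by
    have := hEc n
    simp only [hF]
    fun_prop
  have hint : ∀ n, Integrable (F n) (volume.restrict Qb) := fun n => opA_symm_intOn (hFc n)
  have hgi : Integrable (fun x => |g x|) (volume.restrict Qb) := opA_symm_intOn hgc.abs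
  have hsum : Summable fun n => ∫ x, ‖F n x‖ ∂(volume.restrict Qb) := by
    apply Summable.of_nonneg_of_le (f := fun n : ℕ => K * (1 / 2) ^ n * ∫ x in Qb, |g x|)
    · intro n
      exact integral_nonneg fun x => norm_nonneg _
    · intro n
      rw [← integral_const_mul]
      apply integral_mono (hint n).norm (hgi.const_mul _)
      intro x
      show ‖F n x‖ ≤ K * (1 / 2) ^ n * |g x|
      simp only [hF]
      rw [norm_mul, Real.norm_eq_abs, Real.norm_eq_abs]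
      exact mul_le_mul_of_nonneg_right (hK n x) (abs_nonneg _)
    · apply Summable.mul_right
      apply Summable.mul_left
      exact summable_geometric_of_lt_one (by norm_num) (by norm_num)
  have h1 := hasSum_integral_of_summable_integral_norm hint hsum
  have h2 : ∀ x, ∑' n, F n x = opA (wts a n₀) E f x * g x := by
    intro x
    simp only [hF, opA]
    rw [tsum_mul_right]
  have h3 : ∀ n, ∫ x, F n x ∂(volume.restrict Qb) = wts a n₀ n * ip (E n) f * ip (E n) g := by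
    intro n
    show ∫ x in Qb, wts a n₀ n * ip (E n) f * E n x * g x =
      wts a n₀ n * ip (E n) f * ∫ x in Qb, E n x * g x
    rw [← integral_const_mul]
    apply integral_congr_ae
    filter_upwards with x
    ring
  have h4 : ip (opA (wts a n₀) E f) g = ∫ x, ∑' n, F n x ∂(volume.restrict Qb) := by
    unfold ip
    simp only [h2]
  rw [h4, ← h1.tsum_eq]
  exact tsum_congr h3

/-- TARGET -/
theorem opA_symm {a C₁ C₂ : ℝ} (ha : 0 ≤ a) {n₀ : ℕ} {E : ℕ → Pt → ℝ}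
    (hE : ∀ n, Sm (E n)) (he : Band C₁ C₂ n₀ fun n => fc (E n)) :
    (∀ f, Sm f → ∀ x, Summable fun n => wts a n₀ n * ip (E n) f * E n x) ∧
    (∀ f g, Sm f → Sm g → ip (opA (wts a n₀) E f) g = ip f (opA (wts a n₀) E g)) ∧
    (∀ f, Sm f → 0 ≤ ip (opA (wts a n₀) E f) f) := by
  refine ⟨?_, ?_, ?_⟩
  · intro f hf x
    obtain ⟨K, hK0, hK⟩ := opA_symm_bound ha hE he hf
    apply Summable.of_norm_bounded (g := fun n : ℕ => K * (1 / 2) ^ n)
    · apply Summable.mul_left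
      exact summable_geometric_of_lt_one (by norm_num) (by norm_num)
    · intro n
      exact hK n x
  · intro f g hf hg
    have h1 : ip f (opA (wts a n₀) E g) = ip (opA (wts a n₀) E g) f := by
      unfold ip
      congr 1
      ext x
      ring
    rw [h1, opA_symm_ip ha hE he hf hg, opA_symm_ip ha hE he hg hf]
    apply tsum_congr
    intro n
    ring
  · intro f hf
    rw [opA_symm_ip ha hE he hf hf]
    apply tsum_nonneg
    intro n
    have := opA_symm_wts_nonneg a n₀ n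
    have h2 : wts a n₀ n * ip (E n) f * ip (E n) f = wts a n₀ n * (ip (E n) f) ^ 2 := by ring
    rw [h2]
    positivity

end H706.JSY

namespace H706

alias opA_symm := JSY.opA_symm

end H706
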