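import Pool.Agent.Helper706_SQG.FINAL
import Pool.Agent.Helper706_SQG.FINAL2
import Pool.Agent.Helper706_SQG.FLOW
import Pool.Agent.Helper706_SQG.GL
import Pool.Agent.Helper706_SQG.SC
import Pool.Agent.Helper706_SQG.SY
import Pool.Agent.Helper706_SQG.OB1
import Pool.Agent.Helper706_SQG.OE

/-!
Blow-up of the maximal smooth solution, for initial data in a ball of `L^∞`.
-/

set_option autoImplicit false

open Set Filter Topology MeasureTheory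
open scoped ComplexConjugate ContDiff

namespace H706

theorem EN_sm (q p r : ℕ → ℕ → ℝ) (J M n₀ n : ℕ) : Sm (EN q p r J M n₀ n) :=
  (EF_sm _ _ _ _ _ _).1

theorem EN_odd (q p r : ℕ → ℕ → ℝ) (J M n₀ n : ℕ) (x : Pt) :
    EN q p r J M n₀ n (-x.1, x.2) = -EN q p r J M n₀ n x :=
  (EF_sm _ _ _ _ _ _).2.1 x

theorem EN_band {Ca ca Cb cb c₁ b₀ v₀ m₀ Z : ℝ} {q p r : ℕ → ℕ → ℝ} {J M : ℕ}
    (hc : Cons Ca ca Cb cb c₁ b₀ v₀ m₀ Z q p r J M) (n₀ : ℕ) :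
    Band (5 * 2 ^ J + 4 * M) (4 * Ca * Cb) n₀ fun n => fc (EN q p r J M n₀ n) where
  supp n k hk := by
    have h1 : (1 : ℕ) ≤ 2 ^ (n + n₀) := Nat.one_le_two_pow
    have h2 := EF_supp (Ca := Ca) (ca := ca) (m := M * 2 ^ (n + n₀)) (M := M) h1
      (hc.profA _ h1) rfl k hk
    push_cast at h2
    exact h2
  size n k := by
    have h1 : (1 : ℕ) ≤ 2 ^ (n + n₀) := Nat.one_le_two_pow
    have h2 := EF_size (m := M * 2 ^ (n + n₀)) (M := M) h1 hc.hM hc.hCa hc.hCb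
      (hc.profA _ h1) rfl (hc.profB _ h1) k
    push_cast at h2
    exact h2
  herm n k := fc_herm _ k

/-- The reference data `sin x₁ / √(sin² x₁ + ε²)`. -/
theorem ref_abs_le (ε : ℝ) (x : ℝ) : |Real.sin x / Real.sqrt (Real.sin x ^ 2 + ε ^ 2)| ≤ 1 := by
  rw [abs_div, abs_of_nonneg (Real.sqrt_nonneg _)]
  refine div_le_one_of_le₀ ?_ (Real.sqrt_nonneg _)
  exact Real.abs_le_sqrt (by nlinarith [sq_nonneg ε])

theorem ref_lower {b s : ℝ} (hb : 0 < b) (hb1 : b ≤ 1) (hs : 0 < s) {ε : ℝ}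
    (hε : ε ^ 2 ≤ s ^ 2 * b) {y : ℝ} (hy : s ≤ y) :
    1 - b ≤ y / Real.sqrt (y ^ 2 + ε ^ 2) := by
  have hy0 : 0 < y := hs.trans_le hy
  have h1 : 0 < y ^ 2 + ε ^ 2 := by positivity
  rw [le_div_iff₀ (Real.sqrt_pos.2 h1)]
  have h2 : Real.sqrt (y ^ 2 + ε ^ 2) ≤ y * (1 + b / 2) := by
    refine Real.sqrt_le_iff.2 ⟨by positivity, ?_⟩
    have h3 : ε ^ 2 ≤ y ^ 2 * b := hε.trans (by gcongr)
    nlinarith [mul_pos hy0 hy0, sq_nonneg b, mul_nonneg (mul_nonneg hy0.le hy0.le) (sq_nonneg b)]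
  calc (1 - b) * Real.sqrt (y ^ 2 + ε ^ 2) ≤ (1 - b) * (y * (1 + b / 2)) :=
        mul_le_mul_of_nonneg_left h2 (by linarith)
    _ ≤ y := by nlinarith [mul_pos hy0 hb, mul_nonneg hy0.le (sq_nonneg b)]

theorem main_blowup {Ca ca Cb cb c₁ b₀ v₀ m₀ Z : ℝ} {q p r : ℕ → ℕ → ℝ} {J M : ℕ}
    (hc : Cons Ca ca Cb cb c₁ b₀ v₀ m₀ Z q p r J M) {a : ℝ} (ha : 0 ≤ a) {n₀ : ℕ} (hn : 1 ≤ n₀)
    {lam α κ A : ℝ} (hlam : 1 < a ∧ α ≤ 1 / 2 ∨ lam = 0 ∧ α < 1 / 2) (hα : 0 < α) (hκ : 0 < κ)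
    (hA : 0 < A) :
    ∃ ρ ∈ Ioo (0 : ℝ) 1, ∃ Tb > 0, ∃ ε₀ > 0, ∀ ε ∈ Ioc 0 ε₀, ∀ θ₀ : Pt → ℝ, Sm θ₀ →
      (∀ x, |θ₀ x - A * (1 - ρ) * (Real.sin x.1 / Real.sqrt (Real.sin x.1 ^ 2 + ε ^ 2))| ≤ A * ρ) →
      ∃ Tst > 0, Tst ≤ Tb ∧ ∃ θ, IsSol lam α κ (wts a n₀) (EN q p r J M n₀) θ₀ Tst θ ∧
        ∀ T θ', IsSol lam α κ (wts a n₀) (EN q p r J M n₀) θ₀ T θ' →
          T ≤ Tst ∧ ∀ t ∈ Ico 0 T, θ' t = θ t := by
  have hE := EN_sm q p r J M n₀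
  have he := EN_band hc n₀
  have hκA : 0 < A⁻¹ * κ := by positivity
  have hα1 : α ≤ 1 / 2 := by
    rcases hlam with h | h
    · exact h.2
    · exact h.2.le
  obtain ⟨s₀, hs₀, Tb, hTb, hZs, hbl⟩ : ∃ s₀ > 0, ∃ Tb > 0, 2 * Z * s₀ ≤ 1 ∧
      ∀ (θ₀ : Pt → ℝ), (∀ x, |θ₀ x| ≤ 1) →
        (∀ x : Pt, s₀ ≤ x.1 → x.1 ≤ 2 * Z * s₀ → |x.2| ≤ 2 * s₀ + c₁ * x.1 →
          1 - b₀ / 4 ≤ θ₀ x ∧ θ₀ (-x.1, x.2) ≤ -(1 - b₀ / 4)) →
        ∀ (T : ℝ) (θ : ℝ → Pt → ℝ),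
          IsSol lam α (A⁻¹ * κ) (wts a n₀) (EN q p r J M n₀) θ₀ T θ → T ≤ Tb := by
    rcases hlam with h | h
    · exact blowup2 hc h.1 hE he hα h.2 hκA
    · exact blowup hc ha hE he (Or.inr h.1) hα h.2 hκA
  have hZ := hc.hZ
  have hb0 := hc.b₀pos
  have hb1 := hc.b₀le
  have hs1 : s₀ ≤ 1 := by nlinarith
  have hsin : 0 < Real.sin s₀ :=
    Real.sin_pos_of_pos_of_lt_pi hs₀ (by linarith [Real.pi_gt_three])
  refine ⟨b₀ / 16, ⟨by positivity, by linarith⟩, Tb / A, by positivity,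
    Real.sin s₀ * Real.sqrt (b₀ / 16), by positivity, fun ε hε θ₀ hθ₀ hball => ?_⟩
  have hC₁ : (1 : ℝ) ≤ 5 * 2 ^ J + 4 * M := by
    have : (1 : ℝ) ≤ 2 ^ J := one_le_pow₀ (by norm_num)
    have : (0 : ℝ) ≤ M := Nat.cast_nonneg M
    linarith
  have hC₂ : (0 : ℝ) ≤ 4 * Ca * Cb := by
    have := hc.hCa
    have := hc.hCb
    positivity
  refine maximal_solution hα (by linarith) hκ ha hC₁ hC₂ hn hE he hθ₀ fun T θ hθ => ?_
  have hsc := scale_isSol (inv_pos.2 hA) hθ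
  have hkey : ∀ x : Pt, |A⁻¹ * θ₀ x - (1 - b₀ / 16) *
      (Real.sin x.1 / Real.sqrt (Real.sin x.1 ^ 2 + ε ^ 2))| ≤ b₀ / 16 := by
    intro x
    have h1 := hball x
    have h2 : A⁻¹ * θ₀ x - (1 - b₀ / 16) *
        (Real.sin x.1 / Real.sqrt (Real.sin x.1 ^ 2 + ε ^ 2)) = A⁻¹ * (θ₀ x - A * (1 - b₀ / 16) *
        (Real.sin x.1 / Real.sqrt (Real.sin x.1 ^ 2 + ε ^ 2))) := by
      field_simp
    rw [h2, abs_mul, abs_of_pos (inv_pos.2 hA)]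
    calc A⁻¹ * |θ₀ x - A * (1 - b₀ / 16) *
          (Real.sin x.1 / Real.sqrt (Real.sin x.1 ^ 2 + ε ^ 2))| ≤ A⁻¹ * (A * (b₀ / 16)) := by
          gcongr
      _ = b₀ / 16 := by field_simp
  have h := hbl (fun x => A⁻¹ * θ₀ x) ?_ ?_ _ _ hsc
  · rw [div_inv_eq_mul] at h
    rw [le_div_iff₀ hA]
    exact h
  · intro x
    have h1 := hkey x
    have h2 := ref_abs_le ε x.1
    have h3 : |(1 - b₀ / 16) * (Real.sin x.1 / Real.sqrt (Real.sin x.1 ^ 2 + ε ^ 2))|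
        ≤ 1 - b₀ / 16 := by
      rw [abs_mul, abs_of_pos (by linarith : (0 : ℝ) < 1 - b₀ / 16)]
      calc _ ≤ (1 - b₀ / 16) * 1 := by
            refine mul_le_mul_of_nonneg_left h2 (by linarith)
        _ = _ := mul_one _
    have h4 := abs_sub_abs_le_abs_sub (A⁻¹ * θ₀ x) ((1 - b₀ / 16) *
      (Real.sin x.1 / Real.sqrt (Real.sin x.1 ^ 2 + ε ^ 2)))
    linarith
  · intro x hx1 hx2 _
    have hmon : Real.sin s₀ ≤ Real.sin x.1 := by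
      refine Real.sin_le_sin_of_le_of_le_pi_div_two (by linarith [Real.pi_gt_three]) ?_ hx1
      linarith [Real.pi_gt_three]
    have hε2 : ε ^ 2 ≤ Real.sin s₀ ^ 2 * (b₀ / 16) := by
      have h5 : ε ^ 2 ≤ (Real.sin s₀ * Real.sqrt (b₀ / 16)) ^ 2 := by
        have := hε.1
        have := hε.2
        gcongr
      rwa [mul_pow, Real.sq_sqrt (by positivity)] at h5
    have h6 := ref_lower (b := b₀ / 16) (by positivity) (by linarith) hsin hε2 hmon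
    have h7 : 1 - b₀ / 8 ≤ (1 - b₀ / 16) *
        (Real.sin x.1 / Real.sqrt (Real.sin x.1 ^ 2 + ε ^ 2)) := by
      calc 1 - b₀ / 8 ≤ (1 - b₀ / 16) * (1 - b₀ / 16) := by nlinarith
        _ ≤ _ := mul_le_mul_of_nonneg_left h6 (by linarith)
    have h8 := abs_le.1 (hkey x)
    have h9 := abs_le.1 (hkey (-x.1, x.2))
    simp only [Real.sin_neg, neg_sq] at h9
    rw [neg_div] at h9
    constructor
    · linarith [h8.1]
    · linarith [h9.2]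

end H706
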